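import Mathlib
import Pool.Graph.R_pool_sql_team_seeded_1acbe0a2.Y4.P.Stm

/-!
# The Hodge ring of all powers and the Lefschetz Lie algebra: definitions and lemma statements
-/

set_option linter.unusedSectionVars false

namespace Pool.Agent.H926.T

open Module Pool.Agent.H204R3.CM
open Pool.Agent.Y90.St (IsAV IsHom IsPolarization)
open Pool.Agent.Y4.P (WeilRing IsWeilClass)

section defs

variable {H T : Type} [AddCommGroup H] [Module ℚ H] [AddCommGroup T] [Module ℂ T]

/-- The period map of the power `X ^ n`. -/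
def powPer (per : H →+ T) (n : ℕ) : (Fin n → H) →+ (Fin n → T) where
  toFun v := fun i => per (v i)
  map_zero' := by
    funext i
    exact map_zero per
  map_add' v w := by
    funext i
    exact map_add per _ _

/-- The operator `x` on `H_1(X, ℚ)` belongs to the Lefschetz Lie algebra of `X`: it commutes with
all endomorphisms of `X` and kills all Hodge classes of degree two. -/
def InLef (per : H →+ T) (x : H →ₗ[ℚ] H) : Prop :=
  (∀ a : H →ₗ[ℚ] H, IsHom per per a → x ∘ₗ a = a ∘ₗ x) ∧
    ∀ f : H [⋀^Fin 2]→ₗ[ℚ] ℚ, IsHodge per f → ∀ v w, f ![x v, w] + f ![v, x w] = 0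

/-- The operator `z` on `H_1(X, ℚ)` belongs to the Hodge Lie algebra of `X`: to each rational Lie
algebra `L` of linear operators the real span of which contains the complex structure. -/
def InHdg (per : H →+ T) (z : H →ₗ[ℚ] H) : Prop :=
  ∀ L : Submodule ℚ (H →ₗ[ℚ] H), (∀ y ∈ L, ∀ y' ∈ L, y ∘ₗ y' - y' ∘ₗ y ∈ L) →
    (∃ (m : ℕ) (r : Fin m → ℝ) (y : Fin m → (H →ₗ[ℚ] H)), (∀ j, y j ∈ L) ∧
      ∀ u : H, Complex.I • per u = ∑ j, (r j : ℂ) • per (y j u)) → z ∈ L

/-- The operator `z` kills the form `f` (as a derivation). -/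
def KillQ {κ : Type} [Fintype κ] [DecidableEq κ] (z : H →ₗ[ℚ] H)
    (f : MultilinearMap ℚ (fun _ : κ => H) ℚ) : Prop :=
  ∀ v : κ → H, ∑ k, f (Function.update v k (z (v k))) = 0

end defs

/-- **S_MOV (movable top forms).** `K` acts on the rational vector space `H` of dimension `n [K : ℚ]`
and the elements of `K` may be moved in the alternating form `f` in `n` variables from each variable
to each other one. (i) `f` vanishes on each proper `K`-stable subspace `S`. (ii) The commutator of two
`K`-linear operators kills `f`.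

Proof. Make `H` a `K`-module through `ι` (`Module.compHom`, scalar tower over `ℚ`), so
`dim_K H = n` (`Module.finrank_mul_finrank`). By the nondegenerate trace form of `K / ℚ`
(`traceForm_nondegenerate`, `LinearMap.BilinForm.toDual`) there is, for each `v`, a unique
`Φ v ∈ K` with `tr(a * Φ v) = f (update v k (ι a (v k)))` for all `a : K` (for one `k`, hence for each
`k`; the case `n = 0` is trivial for (ii), and in (i) `H = 0` contradicts `S ≠ ⊤`). `Φ` is an
alternating `K`-multilinear map `H ^ n → K` and `f v = tr(Φ v)`. Hence `Φ = Φ(e) • e.det` for a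
`K`-basis `e` of `H` (`AlternatingMap.eq_smul_basis_det`). (i) vectors in a proper `K`-subspace are
linearly dependent, the determinant vanishes. (ii) `∑_k det(v_1, .., z v_k, .., v_n) =
trace_K(z) det(v)` for `K`-linear `z` (both sides are alternating in `v`, so compare at the basis, or
compare the coefficients of `t` in `det(1 + t z) det v = det((1 + t z) v)`), and the trace of a
commutator is zero. -/
def S_MOV : Prop :=
  ∀ (K : Type) [Field K] [NumberField K] (H : Type) [AddCommGroup H] [Module ℚ H]
    [FiniteDimensional ℚ H] (ι : K →+* Module.End ℚ H) (n : ℕ)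
    (_hn : finrank ℚ H = n * finrank ℚ K) (f : H [⋀^Fin n]→ₗ[ℚ] ℚ)
    (_hf : ∀ (a : K) (v : Fin n → H) (k l : Fin n),
      f (Function.update v k (ι a (v k))) = f (Function.update v l (ι a (v l)))),
    (∀ S : Submodule ℚ H, (∀ (a : K), ∀ v ∈ S, ι a v ∈ S) → S ≠ ⊤ →
      ∀ v : Fin n → H, (∀ k, v k ∈ S) → f v = 0) ∧
    ∀ x y : H →ₗ[ℚ] H, (∀ a, x ∘ₗ ι a = ι a ∘ₗ x) → (∀ a, y ∘ₗ ι a = ι a ∘ₗ y) →
      KillQ (x ∘ₗ y - y ∘ₗ x) f.toMultilinearMap

/-- **S_ADJ (the kernel of a homomorphism is the kernel of an endomorphism).** For a homomorphism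
`h : X → Y` of abelian varieties there is a homomorphism `h' : Y → X` with
`ker (h' h) = ker h`.

Proof. Let `E`, `E'` be polarizations with the Hermitian forms `Ψ`, `Ψ'` (`IsPolarization`:
`(Ψ (per v) (per w)).im = E v w`). `E'` is nondegenerate on `H'` (a vector `w` with `E' v w = 0` for
all `v` satisfies `(Ψ' u (per' w)).im = 0` for all `u ∈ T'` since the image of `per'` spans `T'` over
`ℝ`; take `u = i • per' w` to get `per' w = 0`, and `per'` is injective since
`finrank ℚ H' = 2 finrank ℂ T'` and the real span of the image is `T'`), likewise `E`. So there is a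
unique `ℚ`-linear `h' : H' → H` with `E' (h v) w = E v (h' w)`. It is a homomorphism: the Hermitian
adjoint `Φ'` of the complex linear map `Φ : T → T'` belonging to `h`
(`Ψ' (Φ u) u' = Ψ u (Φ' u')`; exists by nondegeneracy, or by `LinearMap.adjoint` for the inner
products) satisfies `Φ' (per' w) = per (h' w)`, because the imaginary parts of
`Ψ (per v) (Φ' (per' w))` and `Ψ (per v) (per (h' w))` agree for all `v` and the image of `per` spans
`T` over `ℝ`. If `h' (h v) = 0` then `0 = Ψ (per v) (per (h' (h v))) = Ψ (per v) (Φ' (Φ (per v))) =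
Ψ' (Φ (per v)) (Φ (per v))`, so `Φ (per v) = 0 = per' (h v)` and `h v = 0`. -/
def S_ADJ : Prop :=
  ∀ (H T H' T' : Type) [AddCommGroup H] [Module ℚ H] [AddCommGroup T] [Module ℂ T]
    [AddCommGroup H'] [Module ℚ H'] [AddCommGroup T'] [Module ℂ T'] (per : H →+ T)
    (per' : H' →+ T') (_hX : IsAV per) (_hY : IsAV per') (h : H →ₗ[ℚ] H')
    (_hh : IsHom per per' h),
    ∃ h' : H' →ₗ[ℚ] H, IsHom per' per h' ∧ ∀ v, h' (h v) = 0 → h v = 0

/-- **S_PAV.** Powers of abelian varieties are abelian varieties (sum of the polarizations; the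
dimensions multiply by `n`; the image of `powPer` spans `T ^ n` over `ℝ`). -/
def S_PAV : Prop :=
  ∀ (H T : Type) [AddCommGroup H] [Module ℚ H] [AddCommGroup T] [Module ℂ T] (per : H →+ T)
    (_hX : IsAV per) (n : ℕ), IsAV (powPer per n)

/-- **S_WR (the commutators of the Lefschetz Lie algebra kill the Weil ring).** Uses S_MOV, S_ADJ,
S_PAV (take them as hypotheses).

Proof by induction on `WeilRing`. Let `z = x y - y x`. `unit`: no variables. `divisor`: reindex
to `Fin 2`; `x` and `y` kill `f`, so `z` kills `f`. `zero`, `add`, `smul`, `reindex`: clear. `cup`: `z`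
acts as a derivation, and kills both factors (for each permutation `σ` the sum over the variables
splits in the two kinds). `weil`: let `Y`, `f`, `K`, `ι`, `h : X → Y` be as in the constructor. Let `S`
be the `K`-span of `h(H)` in `H'` (the range of `Θ` below). If `S ≠ ⊤` then `f ∘ h = 0` by S_MOV (i).
Otherwise choose a `ℚ`-basis `b` of `K`, `m = [K : ℚ]`, and let
`Θ : H ^ m → H'`, `Θ v = ∑ j, ι (b j) (h (v j))`, a homomorphism `X ^ m → Y`, surjective, and take
`Θ'` from S_ADJ, so that `ε = Θ' Θ` is an endomorphism of `X ^ m` with `ker ε = ker Θ`. The operator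
`x ^ m` (`x` in each coordinate) on `H ^ m` commutes with all endomorphisms of `X ^ m` (the matrix
entries of an endomorphism of `X ^ m` are endomorphisms of `X`), in particular with `ε`, so it
preserves `ker Θ` and there is `x' : H' → H'` with `x' Θ = Θ x ^ m`; then `x' h = h x`
(write `1 = ∑ c_j b_j`; then `Θ (fun j => c_j • v) = h v`) and
`x' ι a = ι a x'` (for `a` in `K` multiplication by `a` on `K` in the basis `b` gives a rational matrix
`A` acting on `H ^ m` with `ι a Θ = Θ A`, and `A` commutes with `x ^ m`). The same for `y`. By S_MOV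
(ii) `x' y' - y' x'` kills `f`, and `f (update (h v) k ((x' y' - y' x') (h (v k)))) =
f (h (update v k ((x y - y x) (v k))))`, so `x y - y x` kills `f ∘ h`. -/
def S_WR : Prop :=
  ∀ (H T : Type) [AddCommGroup H] [Module ℚ H] [AddCommGroup T] [Module ℂ T] (per : H →+ T)
    (_hX : IsAV per) (x y : H →ₗ[ℚ] H) (_hx : InLef per x) (_hy : InLef per y) (κ : Type)
    [Fintype κ] [DecidableEq κ] (f : H [⋀^κ]→ₗ[ℚ] ℚ) (_hf : WeilRing per κ f),
    KillQ (x ∘ₗ y - y ∘ₗ x) f.toMultilinearMap

/-- **S_LP (the Lefschetz Lie algebra of a power).** It consists of the operators `x` in each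
coordinate with `x` in the Lefschetz Lie algebra of `X`.

Proof. If `x` is in `InLef per` then `x ^ n` commutes with the endomorphisms of `X ^ n` (their matrix
entries are endomorphisms of `X`: compose with the coordinate inclusions and projections) and kills
each Hodge class `f` of degree two: `f (v, w) = ∑ i j, f_ij (v i, w j)` with
`f_ij (v, w) = f (single i v, single j w)`; `f_ij` is a bilinear form which extends to `T` and is
invariant, and `f_ij = s + a` with `a (v, w) = (f_ij (v, w) - f_ij (w, v)) / 2` an alternating Hodge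
class, killed by `x`, and `s` symmetric: here one uses `X`'s polarization `E` (an alternating Hodge
class, `E` nondegenerate, killed by `x`): `s (v, w) = E (c v, w)` for an endomorphism `c` of `X`
(`c` commutes with the complex structure because `s` and `E` are invariant), so
`s (x v, w) + s (v, x w) = E (c x v, w) + E (c v, x w) = E (x c v, w) + E (c v, x w) = 0`. (The same
argument works directly for each `f_ij`, without the splitting.) Conversely, if `x' : H ^ n → H ^ n`
is in `InLef (powPer per n)` and `0 < n` then it commutes with the matrix units, so it is `x` in each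
coordinate, and `x` is in `InLef per` (pull back Hodge classes and endomorphisms along the first
coordinate). -/
def S_LP : Prop :=
  ∀ (H T : Type) [AddCommGroup H] [Module ℚ H] [AddCommGroup T] [Module ℂ T] (per : H →+ T)
    (_hX : IsAV per) (n : ℕ),
    (∀ x : H →ₗ[ℚ] H, InLef per x →
      InLef (powPer per n) (LinearMap.pi fun i => x ∘ₗ LinearMap.proj i)) ∧
    (0 < n → ∀ x' : (Fin n → H) →ₗ[ℚ] (Fin n → H), InLef (powPer per n) x' →
      ∃ x : H →ₗ[ℚ] H, InLef per x ∧ x' = LinearMap.pi fun i => x ∘ₗ LinearMap.proj i)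

/-- **S_HP (the Hodge Lie algebra of a power).** If `z` is in `InHdg per` then `z` in each coordinate
is in `InHdg (powPer per n)`.

Proof. Let `L'` be a rational Lie algebra of operators on `H ^ n` with
`i • per' u = ∑ r_j • per' (y_j u)`, `y_j ∈ L'`, `per' = powPer per n`. One may assume that the real
numbers `r_j` are linearly independent over `ℚ` (choose a basis of the `ℚ`-span of the `r_j`, e.g.
`Module.finBasis`, expand and regroup; the new `y_j` are still in `L'`). Since `H ⊗ ℝ → T` is
injective (`IsAV`: the image of a `ℚ`-basis of `H` spans `T` over `ℝ` and there are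
`2 dim_ℂ T = dim_ℝ T` of them, so they are linearly independent over `ℝ`), the map
`(w_j) ↦ ∑ r_j • per w_j` from tuples of vectors `w_j` of `H` is injective. The complex structure is
`i` in each coordinate, so comparing the matrix entries (coordinates `k` of `single l u`): for
`k ≠ l` the entry `(k, l)` of each `y_j` is zero, and the diagonal entries of `y_j` all agree. So
`y_j` is `t_j` in each coordinate, and (if `n > 0`) `i • per u = ∑ r_j • per (t_j u)`. The operators
`t` with `t ^ n ∈ L'` form a rational Lie algebra containing the `t_j`, so it contains `z`. For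
`n = 0` all operators are zero. -/
def S_HP : Prop :=
  ∀ (H T : Type) [AddCommGroup H] [Module ℚ H] [AddCommGroup T] [Module ℂ T] (per : H →+ T)
    (_hX : IsAV per) (n : ℕ) (z : H →ₗ[ℚ] H) (_hz : InHdg per z),
    InHdg (powPer per n) (LinearMap.pi fun i => z ∘ₗ LinearMap.proj i)

/-- **S_ALTP (from multilinear forms on `H` to alternating forms on powers).** If `z` in each
coordinate kills all Hodge classes in `H^n(X ^ n, ℚ)` then `z` kills all multilinear forms `g` in `n`
variables on `H` which extend to real multilinear forms on `T` which are invariant under the unit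
circle.

Proof. Let `f (v) = ∑ σ, sign σ * g (fun k => v (σ k) k)` for `v : Fin n → (Fin n → H)`: an
alternating form on `H ^ n` (the alternation of `g ∘ (coordinates)`, `MultilinearMap.alternatization`).
It is a Hodge class. Evaluate `∑ k, f (update v k (z in each coordinate (v k))) = 0` at
`v k = Pi.single k (w k)`: only `σ = 1` contributes, and gives `∑ k, g (update w k (z (w k)))`. -/
def S_ALTP : Prop :=
  ∀ (H T : Type) [AddCommGroup H] [Module ℚ H] [AddCommGroup T] [Module ℂ T] (per : H →+ T)
    (n : ℕ) (z : H →ₗ[ℚ] H)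
    (_hz : ∀ f : (Fin n → H) [⋀^Fin n]→ₗ[ℚ] ℚ, IsHodge (powPer per n) f →
      KillQ (LinearMap.pi fun i => z ∘ₗ LinearMap.proj i : (Fin n → H) →ₗ[ℚ] (Fin n → H))
        f.toMultilinearMap)
    (g : MultilinearMap ℚ (fun _ : Fin n => H) ℚ) (ψ : MultilinearMap ℝ (fun _ : Fin n => T) ℝ)
    (_h1 : ∀ v : Fin n → H, ψ (fun l => per (v l)) = g v)
    (_h2 : ∀ z : ℂ, ‖z‖ = 1 → ∀ u : Fin n → T, ψ (fun l => z • u l) = ψ u),
    KillQ z g

/-- **S_DUAL (dual bases of the spaces of equivariant maps).** Let `V` be a complex vector space of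
finite dimension with a set `L` of operators such that each `L`-stable subspace is the image of an
idempotent operator which commutes with `L`, and let `U` be an irreducible `L`-stable subspace. Then
there are equivariant maps `E c : U → V` and `F c : V → U` with `F c ∘ E d = δ_{cd}`, such that each
equivariant map `U → V` is a combination of the `E c` and each equivariant map `V → U` is a combination
of the `F c`.

Proof. Let `𝓔`, `𝓕` be the spaces of equivariant maps `U → V`, `V → U`. By Schur's lemma (an
equivariant map `U → U` has an eigenvalue; the eigenspace, mapped to `V`, is `L`-stable, so it is `U`)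
`F ∘ E` is a scalar `⟨F, E⟩` for `F ∈ 𝓕`, `E ∈ 𝓔`. The pairing is nondegenerate: if `E ≠ 0` then `E` is
injective (its kernel is stable), its image `E(U)` is stable, let `p` be an idempotent commuting with
`L` with the image `E(U)`; then `F = E⁻¹ ∘ p` has `⟨F, E⟩ = 1`. If `F ≠ 0` then `F` is surjective, `ker F`
is stable; let `p` be an idempotent with the image `ker F` commuting with `L`; `1 - p` vanishes on
`ker F`, so it factors as `1 - p = E ∘ F` with `E` equivariant, and `F ∘ E ∘ F = F ∘ (1 - p) = F`, so
`⟨F, E⟩ = 1`. So `𝓕` is the dual space of `𝓔`; take dual bases (`LinearMap.IsPerfPair` or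
`LinearMap.BilinForm.dualBasis` style arguments, or `Module.finBasis` of `𝓔` and the inverse of the
isomorphism `𝓕 ≃ Dual 𝓔`). -/
def S_DUAL : Prop :=
  ∀ (V : Type) [AddCommGroup V] [Module ℂ V] [FiniteDimensional ℂ V] (L : Set (Module.End ℂ V))
    (_hss : ∀ W : Submodule ℂ V, (∀ X ∈ L, ∀ w ∈ W, X w ∈ W) →
      ∃ p : Module.End ℂ V, (∀ X ∈ L, X * p = p * X) ∧ (∀ v, p v ∈ W) ∧ ∀ w ∈ W, p w = w)
    (U : Submodule ℂ V) (_hU0 : U ≠ ⊥) (_hU : ∀ X ∈ L, ∀ u ∈ U, X u ∈ U)
    (_hirr : ∀ W ≤ U, (∀ X ∈ L, ∀ w ∈ W, X w ∈ W) → W = ⊥ ∨ W = U),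
    ∃ (n : ℕ) (E : Fin n → (U →ₗ[ℂ] V)) (F : Fin n → (V →ₗ[ℂ] U)),
      (∀ (c : Fin n), ∀ X ∈ L, ∀ (u : V) (hu : u ∈ U) (hX : X u ∈ U),
        E c ⟨X u, hX⟩ = X (E c ⟨u, hu⟩)) ∧
      (∀ (c : Fin n), ∀ X ∈ L, ∀ v, ((F c (X v) : U) : V) = X (F c v)) ∧
      (∀ c d u, F c (E d u) = if c = d then u else 0) ∧
      (∀ E' : U →ₗ[ℂ] V, (∀ X ∈ L, ∀ (u : V) (hu : u ∈ U) (hX : X u ∈ U),
        E' ⟨X u, hX⟩ = X (E' ⟨u, hu⟩)) → ∃ t : Fin n → ℂ, E' = ∑ c, t c • E c) ∧
      ∀ F' : V →ₗ[ℂ] U, (∀ X ∈ L, ∀ v, ((F' (X v) : U) : V) = X (F' v)) →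
        ∃ t : Fin n → ℂ, F' = ∑ c, t c • F c

end Pool.Agent.H926.T
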