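import Mathlib
import Pool.Graph.R_pool_sql_team_seeded_1acbe0a2.Y4.P.Jobs4

/-!
# Invariant forms supported on a direct summand: statement
-/

set_option linter.unusedSectionVars false

namespace Pool.Agent.H926.T

open Module Pool.Agent.Y90 Pool.Agent.W522.U
open Pool.Agent.H204R3.SP (bil2 IsTate)

/-- **S_FORMQ (the first fundamental theorem `JForms2` for a direct summand).** It follows from
`Pool.Agent.Y4.Q.JForms2` (proved in the library; take it as the hypothesis `h : JForms2`, or use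
`Pool.Agent.Y4.Q.jforms2` of `Pool.Graph.R_pool_sql_team_seeded_1acbe0a2.Y4.P.Top4`), applied to the
representation `R₂` of `Γ` on the subspace `X₂ = LinearMap.range Q` (as a type `↥X₂ : Type`).

Proof. Let `π : X → X₂` be `Q` with the codomain `X₂` (equivariant) and `ι : X₂ → X` the inclusion.
For subspaces `U`, `U'` of `X₂`: `SI R₂ U ↔ SI R (U.map ι)` (subspaces of `U.map ι` are images of
subspaces of `U`); `Du R₂ χ U U' ↔ Du R χ (U.map ι) (U'.map ι)` (compose the bilinear form with `π`,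
respectively restrict it); `Tw R₂ ψ U U' ↔ Tw R ψ (U.map ι) (U'.map ι)` (`T ↦ ι T π`, respectively
`T ↦ π T ι`); `HasProj R → HasProj R₂` (`P ↦ π P ι`). Apply `JForms2` with `ω₂ = ω` restricted to
`X₂` (nondegenerate since `ω u v = ω (Q u) v = ω u (Q v)` for `u ∈ X₂`), the representatives
`(W i).comap ι` (`W i ≤ X₂`), the same `st`, the system
`N₂ κ = {F | F ∘ π ∈ N κ}` of forms on `X₂` (closed under products), `hpair` for `b ∘ π`, `hdet` for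
the maps `ι' ∘ q ∘ π` (here `↥((W i).comap ι) ≃ ↥(W i)`, transport the bases; the determinants of the
restrictions of `R g` agree), and the form `φ ∘ ι`; finally `(φ ∘ ι) ∘ π = φ ∘ Q = φ`. -/
def S_FORMQ : Prop :=
  ∀ (X : Type) [AddCommGroup X] [Module ℂ X] [FiniteDimensional ℂ X] (Γ : Type) [Group Γ]
    (R : Representation ℂ Γ X) (_hfi : ∀ Δ : Subgroup Γ, Δ.FiniteIndex → Δ = ⊤)
    (ω : X →ₗ[ℂ] X →ₗ[ℂ] ℂ) (_hnd : ∀ u, (∀ v, ω u v = 0) → u = 0)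
    (_hωR : ∀ g u v, ω (R g u) (R g v) = (1 : Γ →* ℂ) g * ω u v)
    (Q : Module.End ℂ X) (_hQ : Q * Q = Q) (_hQR : ∀ g v, Q (R g v) = R g (Q v))
    (_hQω : ∀ u v, ω (Q u) v = ω u (Q v))
    (_hR1 : ∀ U, W522.U.SI R U → U ≤ LinearMap.range Q → 2 ≤ finrank ℂ U →
      ∃ γ : Γ, (R γ - 1) * (R γ - 1) = 0 ∧ finrank ℂ (U.map (R γ - 1)) = 1)
    (_hR2 : ∀ U, W522.U.SI R U → U ≤ LinearMap.range Q → finrank ℂ U = 1 → ¬Du R 1 U U)
    (_hH : ∀ U U', W522.U.SI R U → W522.U.SI R U' → U ≤ LinearMap.range Q →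
      U' ≤ LinearMap.range Q → 2 ≤ finrank ℂ U → ¬Du R 1 U U →
      ∀ ψ : Γ → ℂ, Tw R ψ U U' → Tw R (fun _ => 1) U U' ∨ (finrank ℂ U = 2 ∧ Du R 1 U U'))
    (_hss : Pool.Agent.H204R3.GP.HasProj R) (s : ℕ) (W : Fin s → Submodule ℂ X)
    (_hW : ∀ i, W522.U.SI R (W i)) (_hWQ : ∀ i, W i ≤ LinearMap.range Q)
    (_hWW : ∀ i j, Tw R (fun _ => 1) (W i) (W j) → i = j)
    (_hall : ∀ U, W522.U.SI R U → U ≤ LinearMap.range Q → ∃ i, Tw R (fun _ => 1) U (W i))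
    (st : Fin s → Fin s) (_hst : ∀ i, st (st i) = i) (_hDu : ∀ i, Du R 1 (W i) (W (st i)))
    (_hDu' : ∀ i j, Du R 1 (W i) (W j) → j = st i)
    (N : ∀ (κ : Type) [Finite κ], Submodule ℂ (MultilinearMap ℂ (fun _ : κ => X) ℂ))
    (_hN : Clo N)
    (_hpair : ∀ b : X →ₗ[ℂ] X →ₗ[ℂ] ℂ, (∀ g u v, b (R g u) (R g v) = (1 : Γ →* ℂ) g * b u v) →
      bil2 b ∈ N (Fin 2))
    (_hdet : ∀ a : Fin s → ℤ, (∀ i, a (st i) = -a i) →
      (∀ (g : Γ) (h : ∀ i, ∀ u ∈ W i, R g u ∈ W i), ∃ M : ℕ, M ≠ 0 ∧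
        (∏ i, LinearMap.det ((R g).restrict (h i)) ^ a i) ^ M = 1) →
      ∀ (ι : Fin s → Type) [∀ i, Fintype (ι i)] [∀ i, DecidableEq (ι i)]
        (f : ∀ i, Basis (ι i) ℂ (W i))
        (q : ∀ x : (Σ i, Fin (a i).toNat), ι x.1 → X →ₗ[ℂ] W x.1),
        (∀ x y g v, (q x y (R g v) : X) = R g (q x y v)) →
        ∀ ψ : MultilinearMap ℂ (fun _ : (Σ x : (Σ i, Fin (a i).toNat), ι x.1) => X) ℂ,
          (∀ v, ψ v = ∏ x : (Σ i, Fin (a i).toNat), (f x.1).det (fun y => q x y (v ⟨x, y⟩))) →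
            ψ ∈ N (Σ x : (Σ i, Fin (a i).toNat), ι x.1))
    (m : ℕ) (φ : MultilinearMap ℂ (fun _ : Fin m × Fin 2 => X) ℂ)
    (_hφ : ∀ (g : Γ) v, φ (fun k => R g (v k)) = φ v)
    (_hφQ : ∀ v, φ (fun k => Q (v k)) = φ v), φ ∈ N (Fin m × Fin 2)

end Pool.Agent.H926.T
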