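import Mathlib
import Pool.Graph.R_seed8.Y90.Clo
import Pool.Graph.R_seed8.H204R3.SP.Lie

/-!
# Forms on direct sums of independent blocks
-/

set_option linter.unusedSectionVars false

namespace Pool.Agent.H926.T

open Module Pool.Agent.Y90 Pool.Agent.H204R3.SP

noncomputable section

variable {V : Type} [AddCommGroup V] [Module ℂ V] [FiniteDimensional ℂ V]
  {N : ∀ (κ : Type) [Finite κ], Submodule ℂ (MultilinearMap ℂ (fun _ : κ => V) ℂ)}
  {L : Submodule ℂ (End ℂ V)} {P Q : End ℂ V}

/-- All forms killed by `L` which are supported on `P` belong to the system. -/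
def Supp (L : Submodule ℂ (End ℂ V))
    (N : ∀ (κ : Type) [Finite κ], Submodule ℂ (MultilinearMap ℂ (fun _ : κ => V) ℂ))
    (P : End ℂ V) : Prop :=
  ∀ (κ : Type) [Fintype κ] [DecidableEq κ] (ψ : MultilinearMap ℂ (fun _ : κ => V) ℂ),
    (∀ X ∈ L, Kills X ψ) → (∀ v, ψ (fun k => P (v k)) = ψ v) → ψ ∈ N κ

/-- **Forms on a sum of independent blocks.** -/
theorem Supp.add (hN : Clo N) (hPP : P * P = P) (hQQ : Q * Q = Q) (hPQ : P * Q = 0)
    (hQP : Q * P = 0) (hLP : ∀ X ∈ L, X * P = P * X) (hLQ : ∀ X ∈ L, X * Q = Q * X)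
    (hspl : ∀ X ∈ L, ∃ s ∈ L, s * Q = 0 ∧ s * P = X * P) (hA : Supp L N P) (hB : Supp L N Q) :
    Supp L N (P + Q) := by
  classical
  intro κ _ _ φ hφ hsup
  have pp : ∀ x, P (P x) = P x := fun x => LinearMap.congr_fun hPP x
  have qq : ∀ x, Q (Q x) = Q x := fun x => LinearMap.congr_fun hQQ x
  have pq : ∀ x, P (Q x) = 0 := fun x => LinearMap.congr_fun hPQ x
  have qp : ∀ x, Q (P x) = 0 := fun x => LinearMap.congr_fun hQP x
  have lp : ∀ X ∈ L, ∀ x, X (P x) = P (X x) := fun X hX x => LinearMap.congr_fun (hLP X hX) x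
  have lq : ∀ X ∈ L, ∀ x, X (Q x) = Q (X x) := fun X hX x => LinearMap.congr_fun (hLQ X hX) x
  -- decomposition of the form
  obtain ⟨ψ, hψ⟩ : ∃ ψ : Finset κ → MultilinearMap ℂ (fun _ : κ => V) ℂ,
      ∀ s v, ψ s v = φ (s.piecewise (fun k => P (v k)) fun k => Q (v k)) := by
    refine ⟨fun s => φ.compLinearMap fun k => if k ∈ s then P else Q, fun s v => ?_⟩
    rw [MultilinearMap.compLinearMap_apply]
    congr 1
    funext k
    by_cases hk : k ∈ s
    · rw [if_pos hk, Finset.piecewise_eq_of_mem _ _ _ hk]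
    · rw [if_neg hk, Finset.piecewise_eq_of_notMem _ _ _ hk]
  have h1 : φ = ∑ s : Finset κ, ψ s := by
    refine MultilinearMap.ext fun v => ?_
    rw [_root_.sum_apply]
    have h2 := φ.map_add_univ (fun k => P (v k)) fun k => Q (v k)
    have h3 : ((fun k => P (v k)) + fun k => Q (v k)) = fun k => (P + Q) (v k) := rfl
    rw [h3, hsup] at h2
    rw [h2]
    refine Finset.sum_congr rfl fun s _ => ?_
    rw [hψ]
  rw [h1]
  refine Submodule.sum_mem _ fun s _ => ?_
  -- the variables of the two kinds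
  obtain ⟨α, β, _, _, _, _, ε, hε1, hε2⟩ : ∃ (α β : Type) (_ : Fintype α) (_ : DecidableEq α)
      (_ : Fintype β) (_ : DecidableEq β) (ε : κ ≃ α ⊕ β),
      (∀ x : α, ε.symm (Sum.inl x) ∈ s) ∧ ∀ y : β, ε.symm (Sum.inr y) ∉ s :=
    ⟨{k // k ∈ s}, {k // k ∉ s}, inferInstance, inferInstance, inferInstance, inferInstance,
      (Equiv.sumCompl (fun k => k ∈ s)).symm, fun x => x.2, fun y => y.2⟩
  obtain ⟨Φ, hΦ⟩ : ∃ Φ : MultilinearMap ℂ (fun _ : β => V)
      (MultilinearMap ℂ (fun _ : α => V) ℂ),
      ∀ y x, Φ y x = φ fun k => Sum.elim (fun i => P (x i)) (fun j => Q (y j)) (ε k) := by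
    refine ⟨MultilinearMap.currySum ((φ.compLinearMap
      fun k => Sum.elim (fun _ => P) (fun _ => Q) (ε k)).domDomCongr
        (ε.trans (Equiv.sumComm α β))), fun y x => ?_⟩
    rw [MultilinearMap.currySum_apply, MultilinearMap.domDomCongr_apply,
      MultilinearMap.compLinearMap_apply]
    congr 1
    funext k
    rcases hk : ε k with i | j
    · simp [hk]
    · simp [hk]
  have hψΦ : ∀ v, ψ s v = Φ (fun j => v (ε.symm (Sum.inr j))) (fun i => v (ε.symm (Sum.inl i))) := by
    intro v
    rw [hψ, hΦ]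
    congr 1
    funext k
    rcases hk : ε k with i | j
    · have h3 : ε.symm (Sum.inl i) = k := by rw [← hk, Equiv.symm_apply_apply]
      have h4 : k ∈ s := h3 ▸ hε1 i
      rw [Finset.piecewise_eq_of_mem _ _ _ h4, Sum.elim_inl, h3]
    · have h3 : ε.symm (Sum.inr j) = k := by rw [← hk, Equiv.symm_apply_apply]
      have h4 : k ∉ s := h3 ▸ hε2 j
      rw [Finset.piecewise_eq_of_notMem _ _ _ h4, Sum.elim_inr, h3]
  -- the action of an element which kills one of the two kinds of vectors
  have key1 : ∀ X ∈ L, X * Q = 0 → ∀ y x, ∑ i, Φ y (Function.update x i (X (x i))) = 0 := by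
    intro X hX hXQ y x
    have h4 := hφ X hX fun k => Sum.elim (fun i => P (x i)) (fun j => Q (y j)) (ε k)
    rw [← ε.symm.sum_comp, Fintype.sum_sum_type] at h4
    have h5 : ∀ j : β, φ (Function.update (fun k =>
        Sum.elim (fun i => P (x i)) (fun j => Q (y j)) (ε k)) (ε.symm (Sum.inr j))
          (X (Sum.elim (fun i => P (x i)) (fun j => Q (y j)) (ε (ε.symm (Sum.inr j)))))) = 0 := by
      intro j
      refine φ.map_coord_zero (ε.symm (Sum.inr j)) ?_
      rw [Function.update_self, Equiv.apply_symm_apply, Sum.elim_inr]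
      exact LinearMap.congr_fun hXQ (y j)
    rw [Finset.sum_congr rfl fun j _ => h5 j, Finset.sum_const_zero, add_zero] at h4
    rw [← h4]
    refine Finset.sum_congr rfl fun i _ => ?_
    rw [hΦ]
    congr 1
    funext k
    rw [Equiv.apply_symm_apply, Sum.elim_inl]
    by_cases hk : k = ε.symm (Sum.inl i)
    · subst hk
      rw [Function.update_self, Equiv.apply_symm_apply, Sum.elim_inl, Function.update_self,
        lp X hX]
    · rw [Function.update_of_ne hk]
      rcases hk' : ε k with i' | j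
      · rw [Sum.elim_inl, Sum.elim_inl]
        have h6 : i' ≠ i := by
          rintro rfl
          apply hk
          rw [← hk', Equiv.symm_apply_apply]
        rw [Function.update_of_ne h6]
      · rfl
  have key2 : ∀ X ∈ L, X * P = 0 → ∀ y, ∑ j, Φ (Function.update y j (X (y j))) = 0 := by
    intro X hX hXP y
    refine MultilinearMap.ext fun x => ?_
    rw [_root_.sum_apply, _root_.zero_apply]
    have h4 := hφ X hX fun k => Sum.elim (fun i => P (x i)) (fun j => Q (y j)) (ε k)
    rw [← ε.symm.sum_comp, Fintype.sum_sum_type] at h4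
    have h5 : ∀ i : α, φ (Function.update (fun k =>
        Sum.elim (fun i => P (x i)) (fun j => Q (y j)) (ε k)) (ε.symm (Sum.inl i))
          (X (Sum.elim (fun i => P (x i)) (fun j => Q (y j)) (ε (ε.symm (Sum.inl i)))))) = 0 := by
      intro i
      refine φ.map_coord_zero (ε.symm (Sum.inl i)) ?_
      rw [Function.update_self, Equiv.apply_symm_apply, Sum.elim_inl]
      exact LinearMap.congr_fun hXP (x i)
    rw [Finset.sum_congr rfl fun i _ => h5 i, Finset.sum_const_zero, zero_add] at h4
    rw [← h4]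
    refine Finset.sum_congr rfl fun j _ => ?_
    rw [hΦ]
    congr 1
    funext k
    rw [Equiv.apply_symm_apply, Sum.elim_inr]
    by_cases hk : k = ε.symm (Sum.inr j)
    · subst hk
      rw [Function.update_self, Equiv.apply_symm_apply, Sum.elim_inr, Function.update_self,
        lq X hX]
    · rw [Function.update_of_ne hk]
      rcases hk' : ε k with i | j'
      · rfl
      · rw [Sum.elim_inr, Sum.elim_inr]
        have h6 : j' ≠ j := by
          rintro rfl
          apply hk
          rw [← hk', Equiv.symm_apply_apply]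
        rw [Function.update_of_ne h6]
  -- the forms in the first variables
  have hΦP : ∀ y x, Φ y (fun i => P (x i)) = Φ y x := by
    intro y x
    rw [hΦ, hΦ]
    simp only [pp]
  have hΦQ : ∀ y, Φ (fun j => Q (y j)) = Φ y := by
    intro y
    refine MultilinearMap.ext fun x => ?_
    rw [hΦ, hΦ]
    simp only [qq]
  have hΦ1 : ∀ y, Φ y ∈ N α := by
    intro y
    refine hA α (Φ y) (fun X hX x => ?_) (hΦP y)
    obtain ⟨s, hs, hsQ, hsP⟩ := hspl X hX
    rw [← key1 s hs hsQ y fun i => P (x i)]
    refine Finset.sum_congr rfl fun i _ => ?_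
    have h3 : s (P (x i)) = P (X (x i)) := by
      rw [← lp X hX]
      exact LinearMap.congr_fun hsP (x i)
    rw [h3, ← hΦP y (Function.update x i (X (x i)))]
    congr 1
    funext i'
    by_cases hi : i' = i
    · subst hi
      rw [Function.update_self, Function.update_self]
    · rw [Function.update_of_ne hi, Function.update_of_ne hi]
  -- coordinates
  let S : Submodule ℂ (MultilinearMap ℂ (fun _ : α => V) ℂ) := N α
  let bS := finBasis ℂ S
  obtain ⟨b, hb⟩ : ∃ b : Fin (finrank ℂ S) → MultilinearMap ℂ (fun _ : β => V) ℂ,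
      ∀ r y, b r y = bS.repr ⟨Φ y, hΦ1 y⟩ r :=
    ⟨fun r => (bS.coord r).compMultilinearMap (Φ.codRestrict S hΦ1), fun r y => rfl⟩
  have hbΦ : ∀ y x, Φ y x = ∑ r, b r y * (bS r : MultilinearMap ℂ _ ℂ) x := by
    intro y x
    have h3 := congrArg Subtype.val (bS.sum_repr ⟨Φ y, hΦ1 y⟩)
    have h4 := congrArg (fun F : MultilinearMap ℂ (fun _ : α => V) ℂ => F x) h3
    simp only at h4
    rw [← h4, AddSubmonoidClass.coe_finsetSum, _root_.sum_apply]
    refine Finset.sum_congr rfl fun r _ => ?_
    rw [hb]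
    rfl
  have hbN : ∀ r, b r ∈ N β := by
    intro r
    refine hB β (b r) (fun X hX y => ?_) (fun y => by rw [hb, hb]; simp only [hΦQ])
    obtain ⟨s, hs, hsQ, hsP⟩ := hspl X hX
    have hX' : (X - s) * P = 0 := by rw [sub_mul, hsP, sub_self]
    have h4 := key2 (X - s) (Submodule.sub_mem _ hX hs) hX' fun j => Q (y j)
    have h5 : ∑ j, (⟨Φ (Function.update (fun j => Q (y j)) j ((X - s) (Q (y j)))), hΦ1 _⟩ : S) =
        0 := by
      apply Subtype.ext
      rw [AddSubmonoidClass.coe_finsetSum]
      exact h4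
    have h6 := congrArg (fun z => bS.repr z r) h5
    simp only [map_sum, map_zero, Finsupp.coe_zero, Pi.zero_apply, Finsupp.coe_finsetSum,
      Finset.sum_apply] at h6
    rw [← h6]
    refine Finset.sum_congr rfl fun j _ => ?_
    rw [← hb]
    have h7 : (X - s) (Q (y j)) = Q (X (y j)) := by
      rw [LinearMap.sub_apply, lq X hX]
      have h8 : s (Q (y j)) = 0 := LinearMap.congr_fun hsQ (y j)
      rw [h8, sub_zero]
    rw [h7, hb, hb]
    have h9 : (fun j' => Q (Function.update y j (X (y j)) j')) =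
        Function.update (fun j => Q (y j)) j (Q (X (y j))) := by
      funext j'
      by_cases hj : j' = j
      · subst hj
        rw [Function.update_self, Function.update_self]
      · rw [Function.update_of_ne hj, Function.update_of_ne hj]
    have h10 := hΦQ (Function.update y j (X (y j)))
    rw [h9] at h10
    simp only [h10]
  -- the conclusion
  have h3 : ψ s = ∑ r, (prd (bS r : MultilinearMap ℂ (fun _ : α => V) ℂ)
      (b r)).domDomCongr ε.symm := by
    refine MultilinearMap.ext fun v => ?_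
    rw [hψΦ, hbΦ, _root_.sum_apply]
    refine Finset.sum_congr rfl fun r _ => ?_
    rw [MultilinearMap.domDomCongr_apply, prd_apply, mul_comm]
  rw [h3]
  refine Submodule.sum_mem _ fun r _ => ?_
  exact hN.reindex ε.symm (hN.prd_mem (bS r).2 (hbN r)) _ fun v => rfl

end

end Pool.Agent.H926.T
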