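import Mathlib
import Pool.Graph.R_pool_sql_team_seeded_1acbe0a2.Y4.P.Asm4
import Pool.Agent.H926.T.Jobs
import Pool.Agent.H926.T.Jobs2
import Pool.Agent.H926.T.Ku

/-!
# Lie algebras of skew operators which contain the commutators of the Lefschetz algebra: statements
-/

set_option linter.unusedSectionVars false

namespace Pool.Agent.H926.T

open Matrix Module Pool.Agent.Y90 Pool.Agent.W437.HC Pool.Agent.W437.HD
  Pool.Agent.TH504.CB Pool.Agent.W522.U
open Pool.Agent.W548.Odd hiding cv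
open Pool.Agent.H204R3.CM (IsHodge)
open Pool.Agent.H204R3.SP (Kills bil2 IsTate)
open Pool.Agent.Y4.P (PD NZ)

section defs

variable {V : Type} [AddCommGroup V] [Module ℂ V]

/-- Stable subspaces. -/
def StE (L : Submodule ℂ (End ℂ V)) (U : Submodule ℂ V) : Prop := ∀ X ∈ L, ∀ u ∈ U, X u ∈ U

/-- Irreducible stable subspaces. -/
def IrE (L : Submodule ℂ (End ℂ V)) (U : Submodule ℂ V) : Prop :=
  U ≠ ⊥ ∧ StE L U ∧ ∀ W ≤ U, StE L W → W = ⊥ ∨ W = U

/-- There is a nonzero equivariant map from `U` to `U'`. -/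
def IsoE (L : Submodule ℂ (End ℂ V)) (U U' : Submodule ℂ V) : Prop :=
  ∃ T : V →ₗ[ℂ] V, (∀ X ∈ L, ∀ u ∈ U, T (X u) = X (T u)) ∧ (∀ u ∈ U, T u ∈ U') ∧ ∃ u ∈ U, T u ≠ 0

/-- There is a nonzero invariant pairing of `U` and `U'`. -/
def PairE (L : Submodule ℂ (End ℂ V)) (U U' : Submodule ℂ V) : Prop :=
  ∃ b : V →ₗ[ℂ] V →ₗ[ℂ] ℂ, (∀ X ∈ L, ∀ u ∈ U, ∀ v ∈ U', b (X u) v + b u (X v) = 0) ∧
    ∃ u ∈ U, ∃ v ∈ U', b u v ≠ 0

/-- There is a nonzero invariant symmetric bilinear form on `U`. -/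
def OrtE (L : Submodule ℂ (End ℂ V)) (U : Submodule ℂ V) : Prop :=
  ∃ b : V →ₗ[ℂ] V →ₗ[ℂ] ℂ, (∀ X ∈ L, ∀ u ∈ U, ∀ v ∈ U, b (X u) v + b u (X v) = 0) ∧
    (∃ u ∈ U, ∃ v ∈ U, b u v ≠ 0) ∧ ∀ u ∈ U, ∀ v ∈ U, b u v = b v u

/-- `T` commutes with `L`. -/
def ComE (L : Submodule ℂ (End ℂ V)) (T : End ℂ V) : Prop := ∀ X ∈ L, X * T = T * X

/-- The skew operators which commute with the commutant of `L`. -/
def LfE (L : Submodule ℂ (End ℂ V)) (ω : V →ₗ[ℂ] V →ₗ[ℂ] ℂ) (X : End ℂ V) : Prop :=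
  (∀ T, ComE L T → X * T = T * X) ∧ ∀ u v, ω (X u) v + ω u (X v) = 0

/-- A space of skew operators which acts completely reducibly. -/
structure LB0 (L : Submodule ℂ (End ℂ V)) (ω : V →ₗ[ℂ] V →ₗ[ℂ] ℂ) : Prop where
  alt : ∀ u v, ω u v = -ω v u
  nd : ∀ u, (∀ v, ω u v = 0) → u = 0
  skew : ∀ X ∈ L, ∀ u v, ω (X u) v + ω u (X v) = 0
  ss : ∀ W : Submodule ℂ V, (∀ X ∈ L, ∀ w ∈ W, X w ∈ W) →
    ∃ p : End ℂ V, (∀ X ∈ L, X * p = p * X) ∧ (∀ v, p v ∈ W) ∧ ∀ w ∈ W, p w = w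

/-- It contains the commutators of the skew operators which commute with the commutant. -/
structure LB (L : Submodule ℂ (End ℂ V)) (ω : V →ₗ[ℂ] V →ₗ[ℂ] ℂ) : Prop extends LB0 L ω where
  br : ∀ X Y, LfE L ω X → LfE L ω Y → X * Y - Y * X ∈ L

end defs

section mat

variable {G : ℕ}

/-- The complexified Lefschetz Lie algebra of a period matrix. -/
def lefC (Z : Matrix (Fin G) (Fin G) ℂ) :
    Submodule ℂ (Matrix (Fin G ⊕ Fin G) (Fin G ⊕ Fin G) ℂ) where
  carrier := {X | Xᵀ * Om G ℂ + Om G ℂ * X = 0 ∧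
    ∀ φ : Matrix (Fin G ⊕ Fin G) (Fin G ⊕ Fin G) ℚ, qm φ * DZ Z = DZ Z * qm φ →
      X * qm φ = qm φ * X}
  add_mem' := by
    rintro X Y ⟨x1, x2⟩ ⟨y1, y2⟩
    refine ⟨?_, fun φ hφ => ?_⟩
    · rw [transpose_add, Matrix.add_mul, Matrix.mul_add]
      have h1 : Xᵀ * Om G ℂ + Yᵀ * Om G ℂ + (Om G ℂ * X + Om G ℂ * Y) =
          (Xᵀ * Om G ℂ + Om G ℂ * X) + (Yᵀ * Om G ℂ + Om G ℂ * Y) := by abel
      rw [h1, x1, y1, add_zero]
    · rw [Matrix.add_mul, Matrix.mul_add, x2 φ hφ, y2 φ hφ]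
  zero_mem' := ⟨by rw [transpose_zero, Matrix.zero_mul, Matrix.mul_zero, add_zero],
    fun φ _ => by rw [Matrix.zero_mul, Matrix.mul_zero]⟩
  smul_mem' := by
    rintro c X ⟨x1, x2⟩
    refine ⟨?_, fun φ hφ => ?_⟩
    · rw [transpose_smul, Matrix.smul_mul, Matrix.mul_smul, ← smul_add, x1, smul_zero]
    · rw [Matrix.smul_mul, Matrix.mul_smul, x2 φ hφ]

/-- The commutators of the Lefschetz Lie algebra lie in the Hodge Lie algebra. -/
def BrH (Z : Matrix (Fin G) (Fin G) ℂ) : Prop :=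
  ∀ X ∈ lefC Z, ∀ Y ∈ lefC Z, X * Y - Y * X ∈ LZ Z

/-- The rational matrix of an operator. -/
noncomputable def matQ {H : Type} [AddCommGroup H] [Module ℚ H]
    (A : H ≃ₗ[ℚ] (Fin G ⊕ Fin G → ℚ)) (x : H →ₗ[ℚ] H) :
    Matrix (Fin G ⊕ Fin G) (Fin G ⊕ Fin G) ℚ :=
  LinearMap.toMatrix' (A.toLinearMap ∘ₗ x ∘ₗ A.symm.toLinearMap)

end mat

/-- **S_TH (elements of the double commutant).** Uses S_DUAL.

Proof. Take `E c : U → V`, `F c : V → U` from S_DUAL (`L` as a set; `LB0.ss` is its hypothesis) and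
`X = ∑ c, E c ∘ M ∘ F c`, and let `X'` be the adjoint: `ω (X u) v = ω u (X' v)` (exists since `ω` is
nondegenerate on the finite dimensional `V`; both `X`, `X'` are determined by this).
For an operator `T` which commutes with `L` the maps `T ∘ E c` and `F c ∘ T` are equivariant, so
`T ∘ E c = ∑ d, t d c • E d` and `F d ∘ T = ∑ c, s d c • F c`; apply `F d`, resp. compose with `E c`:
`s d c = t d c` (as scalars on `U ≠ ⊥`), hence `T X = ∑ t d c • E d M (F c) = X T`. The adjoint `T'` of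
`T` commutes with `L` too (`L` is skew), so `X T' = T' X`; adjoints: `T X' = X' T` (`T'' = T` by
antisymmetry). This is (2). (3): the inclusion of `U` is a combination of the `E c`, say
`u = ∑ s c • E c u`; then `F c u = s c • u`, so `X u = ∑ E c (M (s c • u)) = M u`.
(4): for `u ∈ U'`, if `F c u ≠ 0` for some `u ∈ U'` then `F c` gives `IsoE L U' U`.
(5): `ω v (X' u)` is up to sign `ω (X v) u = ∑ c, ω (E c (M (F c v))) u`; if `ω (E c w) u ≠ 0` for some
`w ∈ U`, `u ∈ U'` then `(u, w) ↦ ω u (E c (π w))` (`π : V → U` any linear projection) shows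
`PairE L U' U`. (6): `b u v = ω (T u) v` for an operator `T` by nondegeneracy; `T` commutes with `L`, so
`b (X u) v = ω (T (X u)) v = ω (X (T u)) v = ω (T u) (X' v) = b u (X' v)`. (7), (8): `A ∘ E c = E c ∘ A`
and `F c ∘ A = A ∘ F c` for `A ∈ L`, and `ω u (X' (A v)) = ω (X u) (A v) = -ω (A (X u)) v = ...`. -/
def S_TH : Prop :=
  ∀ (V : Type) [AddCommGroup V] [Module ℂ V] [FiniteDimensional ℂ V]
    (L : Submodule ℂ (End ℂ V)) (ω : V →ₗ[ℂ] V →ₗ[ℂ] ℂ) (_hB : LB0 L ω) (U : Submodule ℂ V)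
    (_hU : IrE L U) (M : U →ₗ[ℂ] U), ∃ X X' : End ℂ V,
    (∀ u v, ω (X u) v = ω u (X' v)) ∧
    (∀ T, ComE L T → X * T = T * X ∧ X' * T = T * X') ∧
    (∀ u : U, X u = M u) ∧
    (∀ U', IrE L U' → ¬IsoE L U' U → ∀ u ∈ U', X u = 0) ∧
    (∀ U', IrE L U' → ¬PairE L U' U → ∀ u ∈ U', X' u = 0) ∧
    (∀ b : V →ₗ[ℂ] V →ₗ[ℂ] ℂ, (∀ A ∈ L, ∀ u v, b (A u) v + b u (A v) = 0) →
      ∀ u v, b (X u) v = b u (X' v)) ∧
    (∀ A ∈ L, ∀ c : ℂ, (∀ u : U, A (M u : V) = c • (M u : V)) →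
      A * X = c • X ∧ X' * A = -(c • X')) ∧
    (∀ A ∈ L, ∀ c : ℂ, (∀ (u : V) (hu : u ∈ U) (hA : A u ∈ U), M ⟨A u, hA⟩ = c • M ⟨u, hu⟩) →
      X * A = c • X ∧ A * X' = -(c • X'))

/-- **S_RK1 (elements of rank one).** Uses S_TH (hypothesis `S_TH`).

Proof. `D` preserves `U`, `D ^ 2 = 1`, `D` is not a scalar on `U`, so there are `a ∈ U`, `a ≠ 0`,
`D a = a` and a linear form `f ≠ 0` on `U` with `f (D u) = -f u`: choose `u` with `D u ≠ -u`,
`a = u + D u`; choose `u` with `D u ≠ u`, `w = u - D u`, `D w = -w`, and `f = g ∘ (1 - D) / 2` with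
`g w ≠ 0`. Let `M u = f u • a` and `N = X - X'` with `X`, `X'` from S_TH. By (7) (`A = D`, `c = 1`) and
(8) (`c = -1`): `D X = X`, `X' D = -X'`, `X D = -X`, `D X' = X'`, so `D N = N`, `N D = -N`. `N`
commutes with the commutant of `L` and is skew: `ω (N u) v + ω u (N v) = ω u (X' v) - ω (X' u) v +
ω u (X v) - ω u (X' v) = ω u (X v) - ω (X' u) v`, and `ω (X' u) v = -ω v (X' u) = -ω (X v) u =
ω u (X v)`. So `N`, `D` satisfy `LfE` and `D N - N D = 2 N ∈ L`, `N ∈ L`.
It remains to see that `N` has rank one on `U`, for a suitable `f`.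
Case 1: `¬PairE L U U`. Then `X' = 0` on `U` by (5), so `N u = f u • a` on `U`.
Case 2: `PairE L U U`, with `b₀`. Let `p` be the projector to `U` from `LB0.ss` and
`b u v = b₀ (p u) (p v)`, invariant on all of `V`, nonzero on `U`. The symmetrization of `b` on `U` is
zero since `¬OrtE L U`; so `b` is alternating on `U`. It is nondegenerate on `U` (the kernel is
stable). Take `f = b a ·` (`f ≠ 0`, `f (D u) = b a (D u) = -b (D a) u = -f u`), `M u = b a u • a`. For
`v ∈ U`: `X' v ∈ U` (`X'` commutes with `p`), and for `u ∈ U` by (6) `b u (X' v) = b (X u) v =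
b a u * b a v = b u (-(b a v) • a)`, hence `X' v = -M v` and `N = 2 M` on `U`. -/
def S_RK1 : Prop :=
  ∀ (V : Type) [AddCommGroup V] [Module ℂ V] [FiniteDimensional ℂ V]
    (L : Submodule ℂ (End ℂ V)) (ω : V →ₗ[ℂ] V →ₗ[ℂ] ℂ) (_hB : LB L ω) (U : Submodule ℂ V)
    (_hU : IrE L U) (_hO : ¬OrtE L U) (D : End ℂ V) (_hD : D ∈ L) (_hD2 : D * D = 1)
    (_hns : ∀ c : ℂ, ∃ u ∈ U, D u ≠ c • u),
    ∃ N ∈ L, D * N = N ∧ N * D = -N ∧ finrank ℂ (U.map N) = 1

/-- **S_TWI (twisted homomorphisms).** Uses S_TH (hypothesis `S_TH`).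

Proof. Suppose that `IsoE L U U'` fails (then `IsoE L U' U` fails too, by Schur: a nonzero equivariant
map between irreducible submodules is bijective, and its inverse, extended by a projector, is
equivariant). Let `a`, `f`, `M`, `X`, `X'`, `N = X - X' ∈ L` be as in the proof of S_RK1, `D N = N`,
`N D = -N`, so `N * N = 0` on `V` (`N N = N (D N) = (N D) N = -N N`), and `N ≠ 0` on `U`. For
`u ∈ U`: `T (N u) = N (T u) + c • T u`.
(A) If `¬PairE L U' U` then `X = 0` and `X' = 0` on `U'` by (4), (5), so `N = 0` on `U'` and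
`T (N u) = c • T u`, `N u = c • u` for all `u ∈ U`, `0 = N (N u) = c ^ 2 • u`, `c = 0`, `N = 0` on `U`:
contradiction. (B) If `PairE L U' U` with the pairing `b` of `U'` and `U` (perfect, by irreducibility)
then `¬PairE L U U`: a pairing `b₁` of `U` with itself is perfect too, and `u ↦` the vector `τ u ∈ U'`
with `b (τ u) v = b₁ u v` for all `v ∈ U` is a nonzero equivariant map `U → U'`, contradiction. So
`X' = 0` on `U` by (5), and `N u = f u • a` on `U`, for every choice of `a`, `f` as above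
(`D a = a`, `f ∘ D = -f` on `U`). From `T N = (N + c) T` on `U` and `N N = 0`: `0 = T N N = (N + c)^2 T
= (2 c N + c ^ 2) T`; if `c ≠ 0` then `N = -c / 2` on `T U = U'`, so `c ^ 2 / 4 = 0`; so `c = 0` and
`T (N u) = N (T u)`. Let `B u₁ u = b (T u₁) u` on `U`, a nondegenerate form. Since `N ∈ L`:
`f u₁ * B a u = B (N u₁) u = b (N (T u₁)) u = -b (T u₁) (N u) = -f u * B u₁ a`. Choose `u₁` with
`f u₁ ≠ 0`: `B a · = λ • f` with `λ ≠ 0`, for all `a ≠ 0` with `D a = a` and all `f ≠ 0` with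
`f ∘ D = -f`. So, for a fixed `f`, all such `a` are proportional (`a ↦ B a ·` is injective), and for a
fixed `a` all such `f` are proportional: the `±1` eigenspaces of `D` on `U` have dimension one (the
forms `f` with `f ∘ D = -f` are the dual space of the `-1` eigenspace). So `finrank ℂ U = 2`, and
`PairE L U U'` holds by transposing `b`. -/
def S_TWI : Prop :=
  ∀ (V : Type) [AddCommGroup V] [Module ℂ V] [FiniteDimensional ℂ V]
    (L : Submodule ℂ (End ℂ V)) (ω : V →ₗ[ℂ] V →ₗ[ℂ] ℂ) (_hB : LB L ω) (U U' : Submodule ℂ V)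
    (_hU : IrE L U) (_hU' : IrE L U') (_hO : ¬OrtE L U) (D : End ℂ V) (_hD : D ∈ L)
    (_hD2 : D * D = 1) (_hns : ∀ c : ℂ, ∃ u ∈ U, D u ≠ c • u) (T : V →ₗ[ℂ] V)
    (_hT : ∀ X ∈ L, ∃ c : ℂ, ∀ u ∈ U, T (X u) = X (T u) + c • T u)
    (_hTi : ∀ u ∈ U, T u = 0 → u = 0) (_hTU : U.map T = U'),
    IsoE L U U' ∨ (finrank ℂ U = 2 ∧ PairE L U U')

/-- **S_O3 (orthogonal submodules have dimension at least three).**

Proof. `U ≠ ⊥`, so the dimension is positive. Let `b` be the form; it is nondegenerate on `U` (the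
kernel is stable and `≠ U`). If `finrank ℂ U = 1` then `D u = x • u` with `x ^ 2 = 1` and
`2 x * b u u = 0`, contradiction. If `finrank ℂ U = 2`: the operators on `U` which are skew for a
nondegenerate symmetric form form a space of dimension one (in a basis of `U` with the Gram matrix `S`,
`S` symmetric and invertible, `X` is skew iff `S X` is an alternating matrix), so the restrictions of
the elements of `L` to `U` are multiples of the restriction of `D` (which is not zero); an eigenvector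
of `D` in `U` (`D ^ 2 = 1`) spans a stable line, contradiction. -/
def S_O3 : Prop :=
  ∀ (V : Type) [AddCommGroup V] [Module ℂ V] [FiniteDimensional ℂ V]
    (L : Submodule ℂ (End ℂ V)) (U : Submodule ℂ V)
    (_hU : IrE L U) (_hO : OrtE L U) (D : End ℂ V) (_hD : D ∈ L) (_hD2 : D * D = 1),
    3 ≤ finrank ℂ U

/-- **S_ORT (orthogonal blocks).** Uses S_DUAL (hypothesis) and the first fundamental theorem
`so_fft` of `Pool.Agent.H926.T.Ft1`.

Proof. Let `b₀` be the symmetric form on `U`, `p₀` the projector to `U` (`LB0.ss`), and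
`S u v = b₀ u v` on the type `↥U`; it is nondegenerate (the kernel is stable). There is a basis
`e : Basis (Fin n) ℂ U` with `S (e i) (e j) = if i = j then 1 else 0` (orthonormal bases over `ℂ`, e.g.
`LinearMap.BilinForm.exists_orthogonal_basis` and square roots). Take `E c`, `F c` from S_DUAL, and
`p = ∑ c, E c ∘ F c`. For an operator `M` of `U` let `Θ M = ∑ c, E c ∘ M ∘ F c`.
(i) As in S_TH: `Θ M` commutes with the commutant of `L`; `Θ (M M') = Θ M * Θ M'`, `p = Θ 1`,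
`p * p = p`, `X * p = Θ (X|U) = p * X` for `X ∈ L`, `u ∈ range p` for `u ∈ U` (`p u = u` since the
inclusion is a combination of the `E c`). If `Q` commutes with the commutant of `L` and is `1` on `U`
then `Q * p = p`: `E c = T ∘ (inclusion)` with `T = E c ∘ F'` in the commutant, where `F'` is an
equivariant map `V → U` which is the identity on `U`; so `Q (E c u) = Q (T u) = T (Q u) = E c u`.
(ii) `ω (E c u) v = S u (G c v)` for `u ∈ U`, `v ∈ V`, with `G c : V → U` equivariant (nondegeneracy of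
`S`), so `G c = ∑ d, g c d • F d`; and `ω (E c u) (E d w) = g c d * S u w`, so `g d c = -g c d` (`ω`
alternating, `S` symmetric). For `M` with `S (M u) v = -S u (M v)`: `ω (Θ M u) v + ω u (Θ M v) =
∑ c, S (M (F c u)) (G c v) - ∑ c, S (M (F c v)) (G c u) = -∑ c d, (g c d + g d c) • S (F c u)
(M (F d v)) = 0`. So `Θ M` satisfies `LfE`. The same computation gives `ω (p u) v = ω u (p v)`.
(iii) `Θ M ∈ L` for each skew `M`: `M` is a combination of the rotations `Ro e i j` (`i ≠ j`), and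
`Ro e i j` is the commutator of `Ro e i k` and `Ro e k j` up to sign (`k ≠ i, j`; `n = finrank ≥ 3`);
use `LB.br`. Hence `X * p ∈ L` for `X ∈ L`.
(iv) Let `ψ` be killed by `L` and supported on `p`. Then `ψ v = ∑_{c : κ → Fin m}
ψ (fun k => E (c k) (F (c k) (v k)))`. For fixed `c` the form `ψ_c u = ψ (fun k => E (c k) (u k))` on
`U` is killed by all rotations `Ro e i j` (because `E c ∘ M = Θ M ∘ E c` and `Θ M ∈ L`). Let `N'` be the
system of the forms `ξ` on `U` with `ξ ∘ (q k)_k ∈ N κ` for all families `q : κ → (V → U)` of equivariant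
maps; it satisfies `Clo`. By `so_fft` (with `bil2 S ∈ N' (Fin 2)` from `hpair` applied to
`S (q 0 ·) (q 1 ·)`, and `e.det ∈ N' (Fin n)` from `hdet`) `ψ_c ∈ N' κ`, so
`ψ_c ∘ (F (c k))_k ∈ N κ`, and `ψ ∈ N κ`. -/
def S_ORT : Prop :=
  ∀ (V : Type) [AddCommGroup V] [Module ℂ V] [FiniteDimensional ℂ V]
    (L : Submodule ℂ (End ℂ V)) (ω : V →ₗ[ℂ] V →ₗ[ℂ] ℂ) (_hB : LB L ω) (U : Submodule ℂ V)
    (_hU : IrE L U) (_hO : OrtE L U) (_h3 : 3 ≤ finrank ℂ U)
    (N : ∀ (κ : Type) [Finite κ], Submodule ℂ (MultilinearMap ℂ (fun _ : κ => V) ℂ))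
    (_hN : Clo N)
    (_hpair : ∀ b : V →ₗ[ℂ] V →ₗ[ℂ] ℂ, (∀ X ∈ L, ∀ u v, b (X u) v + b u (X v) = 0) →
      bil2 b ∈ N (Fin 2))
    (_hdet : ∀ (n : ℕ) (e : Basis (Fin n) ℂ U) (q : Fin n → (V →ₗ[ℂ] U)),
      (∀ i, ∀ X ∈ L, ∀ v, ((q i (X v) : U) : V) = X (q i v)) →
      ∀ ψ : MultilinearMap ℂ (fun _ : Fin n => V) ℂ, (∀ v, ψ v = e.det fun j => q j (v j)) →
        ψ ∈ N (Fin n)),
    ∃ p : End ℂ V, p * p = p ∧ (∀ T, ComE L T → T * p = p * T) ∧ (∀ X ∈ L, X * p = p * X) ∧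
      (∀ u v, ω (p u) v = ω u (p v)) ∧ (∀ u ∈ U, p u = u) ∧ (∀ X ∈ L, X * p ∈ L) ∧
      (∀ Q : End ℂ V, (∀ T, ComE L T → T * Q = Q * T) → (∀ u ∈ U, Q u = u) → Q * p = p) ∧
      Supp L N p

/-- **S_PD (projectors over CM fields).** Each irreducible submodule is isomorphic to the image of an
idempotent with finitely many conjugates, the coefficients of which are in CM fields.

Proof. `exists_fac h hU.1` (Y90/Loc) gives a simple factor `Z'` such that `ml F` is not zero on `U`;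
`hf.inj`, `hf.irr` (Y90/Fac): `ml F` is injective on `U` and `U' = U.map (ml F)` is irreducible for
`Z'`. `Pool.Agent.Y484.MC.maxcm`-type theorem `maxcm : Pool.Agent.Y4.Q.JMaxCM`
(`Pool/Graph/R_pool_sql_team_seeded_1acbe0a2/Y484/MC/CM.lean`) gives `φ` with `MaxM Z' φ ∧ CMM φ`;
`jspec : Pool.Agent.Y4.P.JSpec` (`.../Y261/P/Spec.lean`): `U'` is isomorphic to an eigenspace
`EigM φ z` through a map `T`, and `HasPr (LZ Z') (EigM φ z)`, which gives `PD (LZ Z') U'` (same `T`);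
`jtransfer2 : JTransfer2` (`.../Y4/P/Tra.lean`) gives `PD (LZ Z) U`. -/
def S_PD : Prop :=
  ∀ (G : ℕ) (Z : Matrix (Fin G) (Fin G) ℂ) (_h : PM Z) (U : Submodule ℂ (Fin G ⊕ Fin G → ℂ))
    (_hU : IrS (LZ Z) U), PD (LZ Z) U

/-- **S_DET1 (determinants on self-dual submodules).** Uses S_PD.

Proof. As in `Pool.Agent.Y4.P.det_full` (`.../Y4/P/Det2.lean`), with one factor: from `PD (LZ Z) U`
get `ε`, `T`; `exists_K hFd` (the field `K`), `exists_PQ hId` (`P`, `Q` over `K` with `P Q = ε`,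
`Q P = 1`), `A = eqU` (coordinates on `U`), `det_coord`, the matrices `R k` of `A ∘ q k`, and instead of
`JWeil` use `Pool.Agent.H926.det_one` (`Pool/Agent/H926/T3d.lean`: exactly this statement with the
hypothesis `∀ X ∈ LZ Z, trace (X * cx (P * Q)) = 0`). The library theorems: `jfield`-type
`JField`, `JIdem`, see how `Pool.Agent.H926.T3d` and `.../Y4/P/Top.lean` obtain them. The trace: put
`Y = cx Q * X * cx P`; then `A (X u) = Y *ᵥ A u` for `u ∈ U` (shown in `det_full`),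
`trace (X * cx (P * Q)) = trace Y`, and `Y` is skew for the nondegenerate form transported from the
invariant pairing `b` on `U` (nondegenerate since its kernel is stable): `Yᵀ * B + B * Y = 0` with `B`
invertible, so `trace Y = 0`. -/
def S_DET1 : Prop :=
  ∀ (G : ℕ) (Z : Matrix (Fin G) (Fin G) ℂ) (_h : PM Z) (U : Submodule ℂ (Fin G ⊕ Fin G → ℂ))
    (_hU : IrS (LZ Z) U)
    (b : (Fin G ⊕ Fin G → ℂ) →ₗ[ℂ] (Fin G ⊕ Fin G → ℂ) →ₗ[ℂ] ℂ)
    (_hb : ∀ X ∈ LZ Z, ∀ u ∈ U, ∀ v ∈ U, b (X *ᵥ u) v + b u (X *ᵥ v) = 0)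
    (_hb0 : ∃ u ∈ U, ∃ v ∈ U, b u v ≠ 0) (n : ℕ) (e : Basis (Fin n) ℂ U)
    (q : Fin n → ((Fin G ⊕ Fin G → ℂ) →ₗ[ℂ] U))
    (_hq : ∀ i, ∀ X ∈ LZ Z, ∀ v, ((q i (X *ᵥ v) : U) : Fin G ⊕ Fin G → ℂ) =
      X *ᵥ (q i v : Fin G ⊕ Fin G → ℂ))
    (ψ : MultilinearMap ℂ (fun _ : Fin n => Fin G ⊕ Fin G → ℂ) ℂ)
    (_hψ : ∀ v, ψ v = e.det fun j => q j (v j)), ψ ∈ NZ Z (Fin n)

/-- **S_NON (the part without orthogonal submodules).** Uses S_FORMQ, S_RK1, S_TWI, S_PD.

Proof. Compare `Pool.Agent.Y4.Q.inv_mem` and `gmain` (`.../Y4/P/Asm4.lean`). Let `κ`, `ψ` be given. If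
`Fintype.card κ` is odd then `ψ = 0` (the element `-1` of the group, as in `gmain`; or from
`Kills D ψ` with `D = ph (DZ Z)`, `D ^ 2 = 1`, by the weights of `D`). If it is even reindex to
`Fin m × Fin 2`. `ψ` is invariant under the group `Gam (GG (LZ Z))` (`inv_of_kills` in
`Pool/Agent/H926/Al.lean`). Apply S_FORMQ with `X = Fin G ⊕ Fin G → ℂ`, `R = RZ Z`, `ω = om G`, `fi_top`,
`om_nd`, `rz_om h`, `rz_proj h`, `Q` (equivariance for the group: `rz_equiv h stab_top Q`).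
(hR1) For `U` irreducible (`si_iff h.genI`: `SI (RZ Z) U ↔ IrS (LZ Z) U`, and `IrS (LZ Z) U ↔
IrE (GG (LZ Z)) U` by `mem_GG`, `exists_GG`) with `2 ≤ finrank ℂ U` some `D = DS Z σ` is not a scalar on
`U` (otherwise, by `LZ_le` applied to the matrices which act on `U` by scalars, all elements of `LZ Z`
act by scalars and each line is stable); S_RK1 gives `N`, and `unip_mem` the element `γ` as in
`Pool.Agent.Y4.Q.rz_unip'`. (hR2) `rz_line h`. (hH) `Pool.Agent.Y4.Q.tw_split h` gives `T` with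
`U.map T = U'`, injective on `U`, such that each `DS Z σ` commutes with `T` on `U` or acts by scalars on
both; by `LZ_le` each `X ∈ LZ Z` satisfies `T (X u) = X (T u) + c • T u` on `U` for some `c` (a space
closed under brackets); S_TWI, and translate back: `IsoE` to `Tw (RZ Z) (fun _ => 1)` by `rz_equiv`
(as at the end of `tw_one`), `PairE` to `Du (RZ Z) 1` by `rz_du`. (reps) Let `W`, `st` be from
`exists_reps (rz_proj h)`, `exists_st (χ := 1) (rz_proj h) (om G) om_nd (rz_om h) W ..`. `Q` is `0` or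
`1` on each irreducible submodule (it commutes with `LZ Z` and with the projector to it, so it is a
scalar there by Schur), and if it is `1` on `W i` then it is `1` on `W (st i)`: an invariant pairing of
`W i` and `W (st i)` extends to `b u v = om G (T u) v` with `T` in the commutant, and
`b u v = om G (T (Q u)) v = om G (Q (T u)) v = om G (T u) (Q v) = b u (Q v)` for `u ∈ W i`. Keep only the
`W i` with `W i ≤ LinearMap.range Q` (reindex with `Fin s' ≃ {i // W i ≤ range Q}`).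
(hpair) `Pool.Agent.Y4.P.pair_mem h`. (hdet) `Pool.Agent.Y4.P.det_full` with `PD` from S_PD
(the hypotheses JWeil, JField, JIdem, JTrace are library theorems: `jweil'`, ..., `jtrace`; see
`.../Y4/P/Top4.lean`). -/
def S_NON : Prop :=
  ∀ (G : ℕ) (Z : Matrix (Fin G) (Fin G) ℂ) (_h : PM Z) (_hB : LB (GG (LZ Z)) (om G))
    (Q : End ℂ (Fin G ⊕ Fin G → ℂ)) (_hQ : Q * Q = Q)
    (_hQC : ∀ T, ComE (GG (LZ Z)) T → T * Q = Q * T) (_hQL : ∀ X ∈ GG (LZ Z), X * Q = Q * X)
    (_hQω : ∀ u v, om G (Q u) v = om G u (Q v))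
    (_hno : ∀ U, IrE (GG (LZ Z)) U → U ≤ LinearMap.range Q → ¬OrtE (GG (LZ Z)) U),
    Supp (GG (LZ Z)) (fun κ _ => NZ Z κ) Q

/-- **S_LB.** The Lie algebra of a period matrix satisfies `LB` if the commutators of the Lefschetz
Lie algebra lie in it.

Proof. `om_anti`, `om_nd`, `PM.om_sp` (Y90/Ppav), `PM.cred` (complete reducibility, Y90/Bas), `mem_GG`,
`exists_GG` to pass between `GG (LZ Z)` and `LZ Z` (`ph _ X v = X *ᵥ v`). `br`: if `X = ph _ A` satisfies
`LfE` then `A ∈ lefC Z`: for an endomorphism `φ` (`qm φ * DZ Z = DZ Z * qm φ`, hence `qm φ` commutes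
with all `DS Z σ` and with `LZ Z` by `LZ_le`) `ph _ (qm φ)` commutes with `GG (LZ Z)`, and
`ω (X u) v + ω u (X v) = 0` for all `u`, `v` gives `Aᵀ * Om + Om * A = 0` (`om_apply`). -/
def S_LB : Prop :=
  ∀ (G : ℕ) (Z : Matrix (Fin G) (Fin G) ℂ) (_h : PM Z) (_hb : BrH Z), LB (GG (LZ Z)) (om G)

/-- **S_CONV.** A commutator of elements of the Lefschetz Lie algebra which kills all Hodge tensors
lies in the Hodge Lie algebra.

Proof. Let `k = LZ Z`, a `GalD (DZ Z) k` (`LA_le_lieM`, `gal_LZ`, `LZ_br`; see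
`Pool.Graph.R_seed8.TH131.GHC.Ind2`, and `polOf h.symm h.pos : PolH (DZ Z)` in the library; compare
`ker1_galD`, `LZ_le_lieM` in `Pool/Agent/H926/Spl.lean`). Let `z = X * Y - Y * X ∈ lieM (DZ Z) ℂ`. By
`PolH.cmpl_sum` there is `z1 ∈ k` with `z - z1 ∈ cmpl (DZ Z) k`. By `PolH.cmpl_galD` and `PolH.nd`
(for `cmpl (DZ Z) k`) it suffices that `trace ((z - z1) * W) = 0` for all `W ∈ cmpl (DZ Z) k`. Here
`trace (z1 * W) = 0` by the definition of `cmpl`. `W` commutes with `LZ Z` (`PolH.cmpl_bracket`), and the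
matrices which commute with `LZ Z` form a Galois stable space (`C.map σ` commutes with `LZ Z` since
`LZ Z` is Galois stable), so by `rational_induction` `W` is a combination of matrices `qm φ` which
commute with `LZ Z`, in particular with `DZ Z`; so `Y` commutes with `W` (`Y ∈ lefC Z`), and
`trace (z * W) = trace (X * Y * W) - trace (Y * X * W) = trace (X * (Y * W - W * Y)) = 0`. -/
def S_CONV : Prop :=
  ∀ (G : ℕ) (Z : Matrix (Fin G) (Fin G) ℂ) (_h : PM Z)
    (X Y : Matrix (Fin G ⊕ Fin G) (Fin G ⊕ Fin G) ℂ) (_hX : X ∈ lefC Z) (_hY : Y ∈ lefC Z)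
    (_hz : X * Y - Y * X ∈ lieM (DZ Z) ℂ), X * Y - Y * X ∈ LZ Z

/-- **S_RATL.** The Lefschetz Lie algebra is spanned by rational elements.

Proof. `lefC Z` is stable under the automorphisms of `ℂ` (`Om`, `qm φ` are rational); apply
`Pool.Agent.W548.Odd.rational_induction`. -/
def S_RATL : Prop :=
  ∀ (G : ℕ) (Z : Matrix (Fin G) (Fin G) ℂ) (X : Matrix (Fin G ⊕ Fin G) (Fin G ⊕ Fin G) ℂ)
    (_hX : X ∈ lefC Z), ∃ (m : ℕ) (c : Fin m → ℂ)
      (x : Fin m → Matrix (Fin G ⊕ Fin G) (Fin G ⊕ Fin G) ℚ), (∀ j, qm (x j) ∈ lefC Z) ∧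
        X = ∑ j, c j • qm (x j)

/-- **S_TRA (abstract abelian varieties and period matrices).**

Proof. Let `per' = per.comp A.symm`. `IsHom per per a ↔ qm (matQ A a) * DZ Z = DZ Z * qm (matQ A a)`:
both say that the real extension of `a` commutes with the complex structure `JR Z` (`Cht`:
`P (J x) = i P x`, `P` bijective; `Cht.hom` in the library for one direction, see the proof of
`Pool.Agent.H926.main_av` in `Pool/Agent/H926/Fin.lean`; the other direction: for a complex linear `Ψ`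
with `Ψ (per v) = per (a v)` the real linear maps `Ψ ∘ P` and `P ∘ (a ⊗ ℝ)` agree on `ℚ`-vectors, hence
everywhere).
(1) If `InLef per x` then `X = qm (matQ A x)` commutes with the endomorphisms, and `x` kills the Hodge
class `f₀ (v, w) = (A v) ⬝ᵥ (Om *ᵥ A w)` (it extends to `T`: `u, u' ↦ (I u) ⬝ᵥ (Om *ᵥ I u')`, invariant
under `a + b i`, `a ^ 2 + b ^ 2 = 1`, since `JR Z` is symplectic, `JR_sp`), so
`Xᵀ * Om + Om * X = 0`. Conversely, let `X ∈ lefC Z` and let `f` be a Hodge class in two variables with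
the rational matrix `B` (`f ![v, w] = (A v) ⬝ᵥ (B *ᵥ A w)`); invariance gives `Jᵀ B J = B`
(`z = i`), so `φ = -(Om * B)` commutes with `J` (`Jᵀ Om J = Om`, `Om * Om = -1`, `B = Om * φ`), i.e. it is
an endomorphism, commutes with `x`, and `xᵀ B + B x = xᵀ Om φ + Om φ x = (xᵀ Om + Om x) φ = 0`.
(2) If `InHdg per z`: apply it to `L = {y | qm (matQ A y) ∈ LZ Z}`. It is closed under brackets. The
real span contains the complex structure: by `rational_induction` `DZ Z ∈ LZ Z` is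
`∑ c j • qm (y j)` with `qm (y j) ∈ LZ Z`, so `cm (JR Z) = ∑ (I * c j) • qm (y j)`, and taking real parts
`JR Z = ∑ re (I * c j) • y j`. Conversely let `qm (matQ A z) ∈ LZ Z` and let `L'` be a rational Lie
algebra with `i • per u = ∑ r j • per (y j u)`, i.e. `JR Z = ∑ r j • matQ A (y j)`. The complex span `C`
of `{qm (matQ A y) | y ∈ L'}` is closed under brackets, contains `DZ Z = -I • cm (JR Z)` and its
conjugates, so `LZ Z ≤ C` (`LZ_le`), `qm (matQ A z) ∈ C`, and a rational matrix in the complex span of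
a rational space of matrices lies in this space (apply a `ℚ`-linear projection `ℂ → ℚ` to the
coefficients). -/
def S_TRA : Prop :=
  ∀ (H T : Type) [AddCommGroup H] [Module ℚ H] [AddCommGroup T] [Module ℂ T] (per : H →+ T)
    (G : ℕ) (Z : Matrix (Fin G) (Fin G) ℂ) (_h : PM Z) (A : H ≃ₗ[ℚ] (Fin G ⊕ Fin G → ℚ))
    (_hC : Cht (per.comp A.symm.toLinearMap.toAddMonoidHom) (JR Z)),
    (∀ x : H →ₗ[ℚ] H, InLef per x ↔ qm (matQ A x) ∈ lefC Z) ∧
      ∀ z : H →ₗ[ℚ] H, InHdg per z ↔ qm (matQ A z) ∈ LZ Z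

/-- **S_LIEM.** An operator which kills all multilinear forms which are invariant under the unit
circle belongs to `lieM`.

Proof. Let `c : (Fin n → B) → ℚ` with `IsH (DZ Z) c`, `B = Fin G ⊕ Fin G`. Let
`g v = ∑ I, c I * ∏ k, A (v k) (I k)`, a `ℚ`-multilinear form on `H`. It extends to `T`:
`ψ u = ∑ I, c I * ∏ k, (I' (u k)) (I k)` with the real isomorphism `I' : T → ℝ ^ B` of `Cht`. `DZ` kills
`c`, so the real matrix `JR Z` kills `c`, so `ψ` is invariant under `exp (t J) = cos t + sin t J`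
(the library does the converse direction in `Cht.isH`; for this direction see
`Pool.Graph.R_seed8.Y90.Desc`, `Cht.hodge_rat`, where the same argument is made for alternating forms).
So `KillQ z g`, and comparing values at basis vectors: `act (matQ A z) c = 0`, hence
`act (qm (matQ A z)) (cst ℂ c) = 0`. -/
def S_LIEM : Prop :=
  ∀ (H T : Type) [AddCommGroup H] [Module ℚ H] [AddCommGroup T] [Module ℂ T] (per : H →+ T)
    (G : ℕ) (Z : Matrix (Fin G) (Fin G) ℂ) (_h : PM Z) (A : H ≃ₗ[ℚ] (Fin G ⊕ Fin G → ℚ))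
    (_hC : Cht (per.comp A.symm.toLinearMap.toAddMonoidHom) (JR Z)) (z : H →ₗ[ℚ] H)
    (_hz : ∀ (n : ℕ) (g : MultilinearMap ℚ (fun _ : Fin n => H) ℚ)
      (ψ : MultilinearMap ℝ (fun _ : Fin n => T) ℝ), (∀ v : Fin n → H, ψ (fun l => per (v l)) = g v) →
      (∀ w : ℂ, ‖w‖ = 1 → ∀ u : Fin n → T, ψ (fun l => w • u l) = ψ u) → KillQ z g),
    qm (matQ A z) ∈ lieM (DZ Z) ℂ

end Pool.Agent.H926.T
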