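import Mathlib
import Pool.Agent.H926.T.Jobs

/-!
# Adjoints of homomorphisms of abelian varieties, powers of abelian varieties
-/

set_option autoImplicit false
set_option linter.unusedSectionVars false

namespace Pool.Agent.H926.T

open Module Pool.Agent.H204R3.CM
open Pool.Agent.Y90.St (IsAV IsHom IsPolarization)

namespace AdjL

/-- positive definite Hermitian forms -/
structure HF {T : Type} [AddCommGroup T] [Module ℂ T] (Ψ : T → T → ℂ) : Prop where
  lin : ∀ u', IsLinearMap ℂ fun u => Ψ u u'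
  herm : ∀ u u', Ψ u' u = starRingEnd ℂ (Ψ u u')
  pos : ∀ u, u ≠ 0 → 0 < (Ψ u u).re

section

variable {T : Type} [AddCommGroup T] [Module ℂ T] {Ψ : T → T → ℂ}

theorem HF.add_left (h : HF Ψ) (u v w : T) : Ψ (u + v) w = Ψ u w + Ψ v w := (h.lin w).map_add u v

theorem HF.smul_left (h : HF Ψ) (c : ℂ) (u w : T) : Ψ (c • u) w = c * Ψ u w :=
  (h.lin w).map_smul c u

theorem HF.zero_left (h : HF Ψ) (w : T) : Ψ 0 w = 0 := (h.lin w).map_zero

theorem HF.add_right (h : HF Ψ) (u v w : T) : Ψ w (u + v) = Ψ w u + Ψ w v := by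
  rw [h.herm (u + v) w, h.add_left, map_add, ← h.herm, ← h.herm]

theorem HF.smul_right (h : HF Ψ) (c : ℂ) (u w : T) : Ψ w (c • u) = starRingEnd ℂ c * Ψ w u := by
  rw [h.herm (c • u) w, h.smul_left, map_mul, ← h.herm]

theorem HF.zero_right (h : HF Ψ) (w : T) : Ψ w 0 = 0 := by
  rw [h.herm 0 w, h.zero_left, map_zero]

theorem HF.sub_right (h : HF Ψ) (u v w : T) : Ψ w (u - v) = Ψ w u - Ψ w v := by
  have h1 := h.add_right (u - v) v w
  rw [sub_add_cancel] at h1
  rw [h1]
  ring

theorem HF.rs_left (h : HF Ψ) (r : ℝ) (u w : T) : Ψ (r • u) w = r * Ψ u w := by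
  rw [show r • u = (r : ℂ) • u from rfl, h.smul_left]

/-- nondegeneracy -/
theorem HF.eq_zero (h : HF Ψ) {c : T} (hc : (Ψ (Complex.I • c) c).im = 0) : c = 0 := by
  by_contra hne
  have h3 := h.pos c hne
  rw [h.smul_left, Complex.mul_im, Complex.I_re, Complex.I_im, zero_mul, one_mul, zero_add] at hc
  linarith

theorem HF.eq_of_im {H : Type} [AddCommGroup H] [Module ℚ H] {per : H →+ T} (h : HF Ψ)
    (hspan : Submodule.span ℝ (Set.range per) = ⊤) {a b : T}
    (hab : ∀ v, (Ψ (per v) a).im = (Ψ (per v) b).im) : a = b := by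
  have h1 : ∀ t : T, (Ψ t (a - b)).im = 0 := by
    intro t
    have ht : t ∈ Submodule.span ℝ (Set.range per) := by rw [hspan]; trivial
    induction ht using Submodule.span_induction with
    | mem t ht =>
      obtain ⟨v, rfl⟩ := ht
      rw [h.sub_right, Complex.sub_im, hab v, sub_self]
    | zero => rw [h.zero_left, Complex.zero_im]
    | add x y _ _ hx hy => rw [h.add_left, Complex.add_im, hx, hy, add_zero]
    | smul r x _ hx => rw [h.rs_left, Complex.im_ofReal_mul, hx, mul_zero]
  exact sub_eq_zero.1 (h.eq_zero (h1 _))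

end

/-- the Hermitian adjoint -/
theorem exists_adj {T T' : Type} [AddCommGroup T] [Module ℂ T] [FiniteDimensional ℂ T]
    [AddCommGroup T'] [Module ℂ T'] [FiniteDimensional ℂ T'] {Ψ : T → T → ℂ} {Ψ' : T' → T' → ℂ}
    (h : HF Ψ) (h' : HF Ψ') (Φ : T →ₗ[ℂ] T') :
    ∃ Φ' : T' →ₗ[ℂ] T, ∀ u u', Ψ' (Φ u) u' = Ψ u (Φ' u') := by
  have hre : ∀ x, 0 ≤ (Ψ x x).re := by
    intro x
    rcases eq_or_ne x 0 with rfl | hx
    · rw [h.zero_left, Complex.zero_re]
    · exact (h.pos x hx).le
  have hre' : ∀ x, 0 ≤ (Ψ' x x).re := by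
    intro x
    rcases eq_or_ne x 0 with rfl | hx
    · rw [h'.zero_left, Complex.zero_re]
    · exact (h'.pos x hx).le
  let c : InnerProductSpace.Core ℂ T :=
    { inner := fun x y => Ψ y x
      conj_inner_symm := fun x y => (h.herm x y).symm
      re_inner_nonneg := fun x => hre x
      add_left := fun x y z => h.add_right x y z
      smul_left := fun x y r => h.smul_right r x y
      definite := fun x hx => by
        by_contra hne
        have h3 := h.pos x hne
        have h4 : Ψ x x = 0 := hx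
        rw [h4, Complex.zero_re] at h3
        exact lt_irrefl _ h3 }
  let c' : InnerProductSpace.Core ℂ T' :=
    { inner := fun x y => Ψ' y x
      conj_inner_symm := fun x y => (h'.herm x y).symm
      re_inner_nonneg := fun x => hre' x
      add_left := fun x y z => h'.add_right x y z
      smul_left := fun x y r => h'.smul_right r x y
      definite := fun x hx => by
        by_contra hne
        have h3 := h'.pos x hne
        have h4 : Ψ' x x = 0 := hx
        rw [h4, Complex.zero_re] at h3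
        exact lt_irrefl _ h3 }
  let n1 : NormedAddCommGroup T := c.toNormedAddCommGroup
  let i1 : InnerProductSpace ℂ T := InnerProductSpace.ofCore c.toCore
  let n2 : NormedAddCommGroup T' := c'.toNormedAddCommGroup
  let i2 : InnerProductSpace ℂ T' := InnerProductSpace.ofCore c'.toCore
  refine ⟨LinearMap.adjoint Φ, fun u u' => ?_⟩
  exact (LinearMap.adjoint_inner_left Φ u u').symm

theorem per_smul {H T : Type} [AddCommGroup H] [Module ℚ H] [AddCommGroup T] [Module ℂ T]
    (per : H →+ T) (c : ℚ) (v : H) : per (c • v) = (c : ℝ) • per v := by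
  have h1 := map_ratCast_smul per ℚ ℝ c v
  rwa [Rat.cast_id] at h1

section

variable {H T : Type} [AddCommGroup H] [Module ℚ H] [AddCommGroup T] [Module ℂ T] {per : H →+ T}

/-- the period map is injective -/
theorem per_inj [FiniteDimensional ℚ H] [FiniteDimensional ℂ T]
    (hspan : Submodule.span ℝ (Set.range per) = ⊤) (hrank : finrank ℚ H = 2 * finrank ℂ T)
    {v : H} (hv : per v = 0) : v = 0 := by
  have hfinR : finrank ℝ T = 2 * finrank ℂ T := finrank_real_of_complex T
  have hfT : FiniteDimensional ℝ T := FiniteDimensional.complexToReal T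
  let b := finBasis ℚ H
  have h1 : ⊤ ≤ Submodule.span ℝ (Set.range fun i => per (b i)) := by
    rw [← hspan]
    refine Submodule.span_le.2 ?_
    rintro _ ⟨w, rfl⟩
    rw [← b.sum_repr w, map_sum]
    refine Submodule.sum_mem _ fun i _ => ?_
    rw [per_smul]
    exact Submodule.smul_mem _ _ (Submodule.subset_span ⟨i, rfl⟩)
  have h2 := linearIndependent_of_top_le_span_of_card_eq_finrank h1 (by
    rw [Fintype.card_fin, hrank, hfinR])
  rw [Fintype.linearIndependent_iff] at h2
  have h3 := h2 (fun i => ((b.repr v i : ℚ) : ℝ)) (by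
    rw [← hv]
    conv_rhs => rw [← b.sum_repr v, map_sum]
    refine Finset.sum_congr rfl fun i _ => ?_
    rw [per_smul])
  rw [← b.sum_repr v]
  refine Finset.sum_eq_zero fun i _ => ?_
  have h4 : b.repr v i = 0 := by exact_mod_cast h3 i
  rw [h4, zero_smul]

/-- the Riemann form as a bilinear form -/
theorem exists_bil {Ψ : T → T → ℂ} (h : HF Ψ) {E : H → H → ℚ}
    (hE : ∀ v w, (Ψ (per v) (per w)).im = E v w) :
    ∃ ω : H →ₗ[ℚ] H →ₗ[ℚ] ℚ, ∀ v w, ω v w = E v w := by
  have hcast : ∀ v w, ((E v w : ℚ) : ℝ) = (Ψ (per v) (per w)).im := fun v w => (hE v w).symm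
  refine ⟨LinearMap.mk₂ ℚ (fun v w => E v w) ?_ ?_ ?_ ?_, fun v w => rfl⟩
  · intro u v w
    have h1 : ((E (u + v) w : ℚ) : ℝ) = ((E u w + E v w : ℚ) : ℝ) := by
      push_cast
      rw [hcast, hcast, hcast, map_add, h.add_left, Complex.add_im]
    exact_mod_cast h1
  · intro c u v
    have h1 : ((E (c • u) v : ℚ) : ℝ) = ((c • E u v : ℚ) : ℝ) := by
      rw [smul_eq_mul]
      push_cast
      rw [hcast, hcast, per_smul, h.rs_left, Complex.im_ofReal_mul]
    exact_mod_cast h1
  · intro u v w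
    have h1 : ((E u (v + w) : ℚ) : ℝ) = ((E u v + E u w : ℚ) : ℝ) := by
      push_cast
      rw [hcast, hcast, hcast, map_add, h.add_right, Complex.add_im]
    exact_mod_cast h1
  · intro c u v
    have h1 : ((E u (c • v) : ℚ) : ℝ) = ((c • E u v : ℚ) : ℝ) := by
      rw [smul_eq_mul]
      push_cast
      rw [hcast, hcast, per_smul, show ((c : ℝ) • per v) = (((c : ℝ) : ℂ)) • per v from rfl,
        h.smul_right, Complex.conj_ofReal, Complex.im_ofReal_mul]
    exact_mod_cast h1

end

end AdjL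

open AdjL

theorem s_adj : S_ADJ := by
  intro H T H' T' _ _ _ _ _ _ _ _ per per' hX hY h hh
  obtain ⟨hH, hT, hspan, hrank, E, Ψ, hΨl, hΨc, hΨp, hE⟩ := hX
  obtain ⟨hH', hT', hspan', hrank', E', Ψ', hΨl', hΨc', hΨp', hE'⟩ := hY
  have h1 : HF Ψ := ⟨hΨl, hΨc, hΨp⟩
  have h2 : HF Ψ' := ⟨hΨl', hΨc', hΨp'⟩
  obtain ⟨ω, hω⟩ := exists_bil h1 hE
  obtain ⟨ω', hω'⟩ := exists_bil h2 hE'
  obtain ⟨Φ, hΦ⟩ := hh
  obtain ⟨Φ', hΦ'⟩ := exists_adj h1 h2 Φ
  have hinj : Function.Injective ω.flip := by
    rw [← LinearMap.ker_eq_bot, LinearMap.ker_eq_bot']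
    intro y hy
    refine per_inj hspan hrank (h1.eq_of_im hspan fun v => ?_)
    rw [h1.zero_right, Complex.zero_im, hE, ← hω]
    have h3 := LinearMap.congr_fun hy v
    rw [LinearMap.flip_apply, LinearMap.zero_apply] at h3
    rw [h3, Rat.cast_zero]
  have hsurj : Function.Surjective ω.flip :=
    (LinearMap.injective_iff_surjective_of_finrank_eq_finrank
      (Subspace.dual_finrank_eq (K := ℚ) (V := H)).symm).1 hinj
  let e : H ≃ₗ[ℚ] Dual ℚ H := LinearEquiv.ofBijective ω.flip ⟨hinj, hsurj⟩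
  let h' : H' →ₗ[ℚ] H := e.symm.toLinearMap ∘ₗ h.dualMap ∘ₗ ω'.flip
  have key : ∀ v w, E v (h' w) = E' (h v) w := by
    intro v w
    have h3 : e (h' w) = h.dualMap (ω'.flip w) := e.apply_symm_apply _
    have h4 := LinearMap.congr_fun h3 v
    rw [LinearMap.dualMap_apply, LinearMap.flip_apply, hω'] at h4
    rw [← h4, ← hω]
    rfl
  have key2 : ∀ w, Φ' (per' w) = per (h' w) := by
    intro w
    refine h1.eq_of_im hspan fun v => ?_
    rw [← hΦ', hΦ, hE', hE, key]
  refine ⟨h', ⟨Φ', key2⟩, fun v hv => ?_⟩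
  refine per_inj hspan' hrank' ?_
  rw [← hΦ]
  refine h2.eq_zero ?_
  rw [h2.smul_left, hΦ', hΦ, key2, hv, map_zero, h1.zero_right, mul_zero, Complex.zero_im]

theorem s_pav : S_PAV := by
  intro H T _ _ _ _ per hX n
  obtain ⟨hH, hT, hspan, hrank, E, Ψ, hΨl, hΨc, hΨp, hE⟩ := hX
  have h1 : HF Ψ := ⟨hΨl, hΨc, hΨp⟩
  refine ⟨inferInstance, inferInstance, ?_, ?_, fun v w => ∑ i, E (v i) (w i),
    fun u u' => ∑ i, Ψ (u i) (u' i), ?_, ?_, ?_, ?_⟩
  · rw [eq_top_iff]
    intro t _
    have ht : t = ∑ i, LinearMap.single ℝ (fun _ : Fin n => T) i (t i) := by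
      simp only [LinearMap.single_apply]
      exact (Finset.univ_sum_single t).symm
    rw [ht]
    refine Submodule.sum_mem _ fun i _ => ?_
    have h2 : t i ∈ Submodule.span ℝ (Set.range per) := by rw [hspan]; trivial
    generalize t i = x at h2
    induction h2 using Submodule.span_induction with
    | mem x hx =>
      obtain ⟨v, rfl⟩ := hx
      refine Submodule.subset_span ⟨Pi.single i v, ?_⟩
      funext j
      by_cases hj : j = i
      · subst hj
        simp [powPer]
      · simp [powPer, hj]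
    | zero => rw [map_zero]; exact Submodule.zero_mem _
    | add x y _ _ hx hy => rw [map_add]; exact Submodule.add_mem _ hx hy
    | smul r x _ hx => rw [map_smul]; exact Submodule.smul_mem _ _ hx
  · rw [finrank_pi_fintype, finrank_pi_fintype]
    simp [hrank]
    ring
  · intro u'
    constructor
    · intro u v
      simp only [Pi.add_apply, h1.add_left, Finset.sum_add_distrib]
    · intro c u
      simp only [Pi.smul_apply, h1.smul_left, smul_eq_mul, Finset.mul_sum]
  · intro u u'
    rw [map_sum]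
    exact Finset.sum_congr rfl fun i _ => hΨc _ _
  · intro u hu
    rw [Complex.re_sum]
    obtain ⟨i, hi⟩ : ∃ i, u i ≠ 0 := by
      by_contra hcon
      push Not at hcon
      exact hu (funext hcon)
    refine Finset.sum_pos' (fun j _ => ?_) ⟨i, Finset.mem_univ i, hΨp _ hi⟩
    rcases eq_or_ne (u j) 0 with h2 | h2
    · rw [h2, h1.zero_left, Complex.zero_re]
    · exact (hΨp _ h2).le
  · intro v w
    rw [Complex.im_sum]
    push_cast
    exact Finset.sum_congr rfl fun i _ => hE _ _

end Pool.Agent.H926.T
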