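import Mathlib
import Pool.Agent.H926.T.Jobs3
import Pool.Graph.R_seed8.TH131.GHC.Ind2

/-!
# Matrices, Galois descent, trace argument: `S_LB`, `S_RATL`, `S_CONV`
-/

set_option linter.unusedSectionVars false

namespace Pool.Agent.H926.T

open Matrix Module Pool.Agent.Y90 Pool.Agent.W437.HC Pool.Agent.W437.HD
  Pool.Agent.TH504.CB Pool.Agent.TH131.GHC Pool.Agent.W522.U
open Pool.Agent.W548.Odd hiding cv

namespace Conv

variable {G : ℕ}

lemma qm_map {B : Type*} (φ : Matrix B B ℚ) (σ : ℂ ≃+* ℂ) : (qm φ).map σ = qm φ := by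
  ext i j
  simp

lemma Om_map (σ : ℂ ≃+* ℂ) : (Om G ℂ).map σ = Om G ℂ := by
  unfold Om
  rw [Matrix.fromBlocks_map]
  congr 1
  · exact Matrix.map_zero _ (map_zero σ)
  · exact Matrix.map_one _ (map_zero σ) (map_one σ)
  · ext i j
    simp only [Matrix.map_apply, Matrix.neg_apply, map_neg]
    congr 1
    by_cases h : i = j
    · subst h; simp
    · simp [Matrix.one_apply_ne h]
  · exact Matrix.map_zero _ (map_zero σ)

/-- Endomorphisms commute with the Hodge Lie algebra. -/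
lemma LZ_comm {Z : Matrix (Fin G) (Fin G) ℂ} {φ : Matrix (Fin G ⊕ Fin G) (Fin G ⊕ Fin G) ℚ}
    (hφ : qm φ * DZ Z = DZ Z * qm φ) : ∀ X ∈ LZ Z, X * qm φ = qm φ * X := by
  let C : Submodule ℂ (Matrix (Fin G ⊕ Fin G) (Fin G ⊕ Fin G) ℂ) :=
    { carrier := {X | X * qm φ = qm φ * X}
      add_mem' := by
        intro X Y hX hY
        change (X + Y) * qm φ = qm φ * (X + Y)
        rw [Matrix.mul_add, Matrix.add_mul, hX, hY]
      zero_mem' := by
        change 0 * qm φ = qm φ * 0
        rw [Matrix.mul_zero, Matrix.zero_mul]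
      smul_mem' := by
        intro c X hX
        change (c • X) * qm φ = qm φ * (c • X)
        rw [Matrix.mul_smul, Matrix.smul_mul, hX] }
  have hC : LZ Z ≤ C := by
    refine LZ_le (fun σ => ?_) fun A hA B hB => ?_
    · change DS Z σ * qm φ = qm φ * DS Z σ
      have h1 := congrArg (fun M => Matrix.map M σ) hφ
      simp only [Matrix.map_mul, qm_map] at h1
      exact h1.symm
    · change (A * B - B * A) * qm φ = qm φ * (A * B - B * A)
      have hA' : A * qm φ = qm φ * A := hA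
      have hB' : B * qm φ = qm φ * B := hB
      have e1 : A * B * qm φ = qm φ * (A * B) := by
        rw [Matrix.mul_assoc, hB', ← Matrix.mul_assoc, hA', Matrix.mul_assoc]
      have e2 : B * A * qm φ = qm φ * (B * A) := by
        rw [Matrix.mul_assoc, hA', ← Matrix.mul_assoc, hB', Matrix.mul_assoc]
      rw [Matrix.sub_mul, Matrix.mul_sub, e1, e2]
  exact fun X hX => hC hX

lemma lefC_gal {Z : Matrix (Fin G) (Fin G) ℂ} (σ : ℂ ≃+* ℂ) :
    ∀ X ∈ lefC Z, X.map σ ∈ lefC Z := by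
  rintro X ⟨h1, h2⟩
  refine ⟨?_, fun φ hφ => ?_⟩
  · have h3 := congrArg (fun M => Matrix.map M σ) h1
    simp only [Matrix.map_add σ (map_add σ), Matrix.map_mul, Om_map,
      Matrix.map_zero σ (map_zero σ), Matrix.transpose_map] at h3
    rw [← h3]
  · have h3 := congrArg (fun M => Matrix.map M σ) (h2 φ hφ)
    simp only [Matrix.map_mul, qm_map] at h3
    exact h3

end Conv

open Conv

theorem s_ratl : S_RATL := by
  intro G Z X hX
  refine rational_induction (lefC Z) lefC_gal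
    (p := fun X => ∃ (m : ℕ) (c : Fin m → ℂ)
      (x : Fin m → Matrix (Fin G ⊕ Fin G) (Fin G ⊕ Fin G) ℚ), (∀ j, qm (x j) ∈ lefC Z) ∧
        X = ∑ j, c j • qm (x j)) ?_ ?_ ?_ ?_ X hX
  · intro u hu
    exact ⟨1, fun _ => 1, fun _ => u, fun _ => hu, by simp⟩
  · exact ⟨0, Fin.elim0, Fin.elim0, fun j => j.elim0, by simp⟩
  · rintro X Y ⟨m, c, x, h1, h2⟩ ⟨m', c', x', h1', h2'⟩
    refine ⟨m + m', Fin.append c c', Fin.append x x', ?_, ?_⟩
    · intro j
      refine Fin.addCases (fun i => ?_) (fun i => ?_) j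
      · rw [Fin.append_left]; exact h1 i
      · rw [Fin.append_right]; exact h1' i
    · rw [Fin.sum_univ_add, h2, h2']
      simp only [Fin.append_left, Fin.append_right]
  · rintro c X ⟨m, c', x, h1, h2⟩
    refine ⟨m, fun j => c * c' j, x, h1, ?_⟩
    rw [h2, Finset.smul_sum]
    exact Finset.sum_congr rfl fun j _ => by rw [smul_smul]

theorem s_lb : S_LB := by
  intro G Z h hb
  have key : ∀ X : End ℂ (Fin G ⊕ Fin G → ℂ), LfE (GG (LZ Z)) (om G) X →
      ∃ A ∈ lefC Z, X = ph _ A := by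
    rintro X ⟨h1, h2⟩
    obtain ⟨A, rfl⟩ : ∃ A, X = ph _ A := ⟨(ph _).symm X, ((ph _).apply_symm_apply X).symm⟩
    refine ⟨A, ⟨?_, fun φ hφ => ?_⟩, rfl⟩
    · ext i j
      have h3 := h2 (Pi.single i 1) (Pi.single j 1)
      have e1 : (ph _ A) (Pi.single i 1) = A *ᵥ Pi.single i 1 := rfl
      have e2 : (ph _ A) (Pi.single j 1) = A *ᵥ Pi.single j 1 := rfl
      rw [e1, e2, om_apply, om_apply] at h3
      have e3 : (A *ᵥ Pi.single i (1 : ℂ)) ⬝ᵥ Om G ℂ *ᵥ Pi.single j 1 = (Aᵀ * Om G ℂ) i j := by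
        rw [Matrix.mulVec_single_one, Matrix.mulVec_single_one, Matrix.mul_apply]
        rfl
      have e4 : (Pi.single i (1 : ℂ)) ⬝ᵥ Om G ℂ *ᵥ A *ᵥ Pi.single j 1 = (Om G ℂ * A) i j := by
        rw [Matrix.mulVec_mulVec, Matrix.mulVec_single_one, single_one_dotProduct]
        rfl
      rw [e3, e4] at h3
      exact h3
    · have h3 : ComE (GG (LZ Z)) (ph _ (qm φ)) := by
        intro Y hY
        obtain ⟨B, hB, rfl⟩ := exists_GG hY
        rw [← map_mul, ← map_mul, LZ_comm hφ B hB]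
      have h4 := h1 _ h3
      rw [← map_mul, ← map_mul] at h4
      exact (ph _).injective h4
  refine ⟨⟨om_anti, om_nd, ?_, ?_⟩, ?_⟩
  · intro X hX u v
    obtain ⟨A, hA, rfl⟩ := exists_GG hX
    exact h.om_sp hA u v
  · intro W hW
    obtain ⟨π, h1, h2, h3⟩ := h.cred W (fun A hA w hw => hW (ph _ A) (mem_GG.2 hA) w hw)
    refine ⟨π, ?_, h2, h3⟩
    intro X hX
    obtain ⟨A, hA, rfl⟩ := exists_GG hX
    refine LinearMap.ext fun w => ?_
    exact (h1 A hA w).symm
  · intro X Y hX hY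
    obtain ⟨A, hA, rfl⟩ := key X hX
    obtain ⟨B, hB, rfl⟩ := key Y hY
    rw [← map_mul, ← map_mul, ← map_sub]
    exact mem_GG.2 (hb A hA B hB)

theorem s_conv : S_CONV := by
  intro G Z h X Y hX hY hz
  have gd : GalD (DZ Z) (LZ Z) := by
    refine ⟨?_, fun σ X hX => gal_LZ σ X hX, fun X hX => LZ_br DZ_mem hX⟩
    refine LA_le_lieM fun d hd => ?_
    rw [Set.mem_singleton_iff.1 hd]
    exact D_mem _
  have P : PolH (DZ Z) := polOf h.symm h.pos
  obtain ⟨z1, hz1, hz2⟩ := P.cmpl_sum gd hz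
  let C : Submodule ℂ (Matrix (Fin G ⊕ Fin G) (Fin G ⊕ Fin G) ℂ) :=
    { carrier := {W | ∀ A ∈ LZ Z, A * W = W * A}
      add_mem' := by
        intro U W hU hW A hA
        rw [Matrix.mul_add, Matrix.add_mul, hU A hA, hW A hA]
      zero_mem' := by
        intro A hA
        rw [Matrix.mul_zero, Matrix.zero_mul]
      smul_mem' := by
        intro c W hW A hA
        rw [Matrix.mul_smul, Matrix.smul_mul, hW A hA] }
  have hC : ∀ (σ : ℂ ≃+* ℂ), ∀ W ∈ C, W.map σ ∈ C := by
    intro σ W hW A hA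
    have h1 := hW _ (gal_LZ σ.symm A hA)
    have h2 := congrArg (fun M => Matrix.map M σ) h1
    have h3 : (A.map σ.symm).map σ = A := by
      ext i j
      simp
    simp only [Matrix.map_mul, h3] at h2
    exact h2
  have key : ∀ W ∈ C, trace ((X * Y - Y * X) * W) = 0 := by
    refine rational_induction C hC ?_ ?_ ?_ ?_
    · intro u hu
      have hu' : ∀ A ∈ LZ Z, A * qm u = qm u * A := hu
      have h1 : qm u * DZ Z = DZ Z * qm u := (hu' _ DZ_mem).symm
      have hYu : Y * qm u = qm u * Y := hY.2 u h1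
      have e1 : trace (Y * X * qm u) = trace (X * Y * qm u) := by
        rw [Matrix.mul_assoc, Matrix.trace_mul_comm, Matrix.mul_assoc, ← hYu, Matrix.mul_assoc]
      change trace ((X * Y - Y * X) * qm u) = 0
      rw [Matrix.sub_mul, Matrix.trace_sub, e1, sub_self]
    · simp
    · intro U W hU hW
      rw [Matrix.mul_add, Matrix.trace_add, hU, hW, add_zero]
    · intro c W hW
      rw [Matrix.mul_smul, Matrix.trace_smul, hW, smul_zero]
  have h0 : X * Y - Y * X - z1 = 0 := by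
    refine P.nd (P.cmpl_galD gd) hz2 fun W hW => ?_
    have hWC : W ∈ C := by
      intro A hA
      have := P.cmpl_bracket gd hA hW
      exact sub_eq_zero.1 this
    rw [Matrix.sub_mul, Matrix.trace_sub, key W hWC, hW.2 z1 hz1, sub_self]
  rw [sub_eq_zero.1 h0]
  exact hz1

end Pool.Agent.H926.T
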