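import Mathlib
import Pool.Agent.H926.T.Jobs3
import Pool.Agent.H926.T3d
import Pool.Graph.R_pool_sql_team_seeded_1acbe0a2.Y484.MC.CM
import Pool.Graph.R_pool_sql_team_seeded_1acbe0a2.Y261.P.Spec
import Pool.Graph.R_pool_sql_team_seeded_1acbe0a2.Y4.P.Cls4
import Pool.Graph.R_pool_sql_team_seeded_1acbe0a2.Y4.P.Tra
import Pool.Graph.R_pool_sql_team_seeded_1acbe0a2.Y4.P.Det2
import Pool.Graph.R_pool_sql_team_seeded_1acbe0a2.Y4.P.Top

/-!
# Projectors over CM fields and determinants on self-dual submodules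
-/

set_option linter.unusedSectionVars false

namespace Pool.Agent.H926.T

open Matrix Module Pool.Agent.Y90 Pool.Agent.W437.HC Pool.Agent.W437.HD
  Pool.Agent.TH504.CB Pool.Agent.W522.U
open Pool.Agent.W548.Odd hiding cv
open Pool.Agent.H204R3.CM (IsHodge)
open Pool.Agent.H204R3.SP (Kills bil2 IsTate)
open Pool.Agent.Y4.P (PD NZ clo_NZ HasPr MaxM EigM JSpec JField JIdem cx cx_mul cx_one exists_K
  exists_PQ eqU P_eqU det_coord)

noncomputable section

/-- Each irreducible submodule is isomorphic to the image of an idempotent with finitely many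
conjugates, the coefficients of which are in CM fields. -/
theorem s_pd : S_PD := by
  intro G Z h U hU
  obtain ⟨a, Z', E, F, hf, h', hs, ha, h0⟩ := exists_fac h hU.1
  have hi := hf.inj hU h0
  have hU' := hf.irr hU h0
  obtain ⟨φ, hφ, hc⟩ := Pool.Agent.Y484.MC.maxcm a Z' h' hs ha
  obtain ⟨-, hiso, hpr⟩ := Pool.Agent.Y261.P.jspec a Z' h' hs ha φ hφ
  obtain ⟨z, hz, T, hT1, hT2, hT3⟩ := hiso _ hU'
  have hP : HasPr (LZ Z') ((U.map (ml F)).map T) := by
    rw [hT3]
    exact hpr hc z hz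
  exact Pool.Agent.Y4.P.jtransfer2 G a Z Z' E F hf h h' U hU hi
    (Pool.Agent.Y4.P.pd_of_map hT1 hT2 hP)

/-- The trace of an operator which is skew for a nondegenerate form. -/
theorem trace_skew {n : ℕ} {Y B : Matrix (Fin n) (Fin n) ℂ} (hB : IsUnit B.det)
    (h : Yᵀ * B + B * Y = 0) : Matrix.trace Y = 0 := by
  have h1 : Y = -(B⁻¹ * Yᵀ * B) := by
    have h2 : B * Y = -(Yᵀ * B) := eq_neg_of_add_eq_zero_right h
    calc Y = B⁻¹ * (B * Y) := by rw [← Matrix.mul_assoc, Matrix.nonsing_inv_mul _ hB, Matrix.one_mul]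
      _ = -(B⁻¹ * Yᵀ * B) := by rw [h2, Matrix.mul_neg, Matrix.mul_assoc]
  have h3 : Matrix.trace Y = -Matrix.trace Y := by
    conv_lhs => rw [h1]
    rw [Matrix.trace_neg, Matrix.trace_mul_comm, ← Matrix.mul_assoc,
      Matrix.mul_nonsing_inv _ hB, Matrix.one_mul, Matrix.trace_transpose]
  have h4 : (2 : ℂ) * Matrix.trace Y = 0 := by linear_combination h3
  exact (mul_eq_zero.1 h4).resolve_left two_ne_zero

/-- Determinants on self-dual submodules belong to the ring. -/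
theorem s_det1 (hPD : S_PD) : S_DET1 := by
  intro G Z h U hU b hb hb0 n e q hq ψ hψ
  classical
  obtain ⟨ε, T, e1, e2, e3, e4, e5, e6, e7⟩ := hPD G Z h U hU
  obtain ⟨K, hK1, hK2, hK3⟩ := exists_K Pool.Agent.Y317.P.Fld.x (fun _ : Unit => ε)
    (fun _ => e3) (fun _ => e4)
  obtain ⟨d, P, Q, hPQ, hQP⟩ := exists_PQ Pool.Agent.Y317.P.Idem.x (K := K) ε e1 (hK3 ())
  have hQP' : cx Q * cx P = 1 := by rw [← cx_mul, hQP, cx_one]
  have hPQ' : cx P * cx Q = ε := by rw [← cx_mul, hPQ]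
  have hT7 : ∀ v, v ∈ U.map T ↔ (cx P * cx Q) *ᵥ v = v := fun v => by
    rw [hPQ']
    exact e7 v
  -- the coordinates
  let A : U ≃ₗ[ℂ] (Fin d → ℂ) := eqU hQP' e6 hT7
  have hA : ∀ u : U, A u = cx Q *ᵥ T u := fun u => rfl
  have hPA : ∀ u : U, cx P *ᵥ A u = T u := fun u => P_eqU hQP' e6 hT7 u
  have hnd : n = d := by
    have h1 := Module.finrank_eq_card_basis e
    rw [A.finrank_eq, finrank_fintype_fun_eq_card, Fintype.card_fin, Fintype.card_fin] at h1
    exact h1.symm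
  subst hnd
  -- the action of the Lie algebra in coordinates
  have hst : ∀ X ∈ LZ Z, ∀ u : U, X *ᵥ (u : Fin G ⊕ Fin G → ℂ) ∈ U := fun X hX u =>
    hU.2.1 X hX u u.2
  have hact : ∀ X (hX : X ∈ LZ Z) (u : U),
      A ⟨X *ᵥ (u : Fin G ⊕ Fin G → ℂ), hst X hX u⟩ = (cx Q * X * cx P) *ᵥ A u := by
    intro X hX u
    rw [hA, ← mulVec_mulVec, hPA, e5 X hX u u.2, mulVec_mulVec]
  -- the pairing in coordinates
  obtain ⟨c, hc0, hc⟩ := det_coord e A (Equiv.refl (Fin n))
  -- the matrices of the equivariant maps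
  let R : Fin n → Matrix (Fin n) (Fin G ⊕ Fin G) ℂ := fun k =>
    LinearMap.toMatrix' (A.toLinearMap.comp (q k))
  have hRv : ∀ k v, R k *ᵥ v = A (q k v) := by
    intro k v
    change LinearMap.toMatrix' _ *ᵥ v = _
    rw [← Matrix.toLin'_apply, Matrix.toLin'_toMatrix']
    rfl
  have hR : ∀ k, ∀ X ∈ LZ Z, R k * X = (cx Q * X * cx P) * R k := by
    intro k X hX
    apply Matrix.toLin'.injective
    refine LinearMap.ext fun v => ?_
    rw [Matrix.toLin'_apply, Matrix.toLin'_apply, ← mulVec_mulVec, ← mulVec_mulVec, hRv, hRv,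
      ← hact X hX]
    congr 1
    exact Subtype.ext (hq k X hX v)
  -- the form is nondegenerate
  have hker : ∀ u ∈ U, (∀ v ∈ U, b u v = 0) → u = 0 := by
    let W : Submodule ℂ (Fin G ⊕ Fin G → ℂ) :=
      { carrier := {u | u ∈ U ∧ ∀ v ∈ U, b u v = 0}
        add_mem' := fun {x y} hx hy => ⟨U.add_mem hx.1 hy.1, fun v hv => by
          rw [map_add, LinearMap.add_apply, hx.2 v hv, hy.2 v hv, add_zero]⟩
        zero_mem' := ⟨U.zero_mem, fun v _ => by rw [map_zero, LinearMap.zero_apply]⟩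
        smul_mem' := fun c x hx => ⟨U.smul_mem c hx.1, fun v hv => by
          rw [map_smul, LinearMap.smul_apply, hx.2 v hv, smul_zero]⟩ }
    have hW : W = ⊥ ∨ W = U := hU.2.2 W (fun x hx => hx.1) (fun X hX u hu =>
      ⟨hU.2.1 X hX u hu.1, fun v hv => by
        have h1 := hb X hX u hu.1 v hv
        rw [hu.2 _ (hU.2.1 X hX v hv), add_zero] at h1
        exact h1⟩)
    rcases hW with hW | hW
    · intro u hu hv
      have h1 : u ∈ W := ⟨hu, hv⟩
      rw [hW] at h1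
      exact (Submodule.mem_bot ℂ).1 h1
    · exfalso
      obtain ⟨u, hu, v, hv, huv⟩ := hb0
      have h1 : u ∈ W := by
        rw [hW]
        exact hu
      exact huv (h1.2 v hv)
  -- the matrix of the form
  let f : (Fin n → ℂ) →ₗ[ℂ] (Fin n → ℂ) →ₗ[ℂ] ℂ :=
    b.compl₁₂ (U.subtype.comp A.symm.toLinearMap) (U.subtype.comp A.symm.toLinearMap)
  obtain ⟨B, hB⟩ : ∃ B : Matrix (Fin n) (Fin n) ℂ, B = LinearMap.toMatrix₂' ℂ f := ⟨_, rfl⟩
  have hBv : ∀ x y : Fin n → ℂ, x ⬝ᵥ (B *ᵥ y) = b (A.symm x) (A.symm y) := by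
    intro x y
    rw [← Matrix.toLinearMap₂'_apply', hB, Matrix.toLinearMap₂'_toMatrix']
    rfl
  have hBdet : IsUnit B.det := by
    rw [isUnit_iff_ne_zero]
    intro h0
    obtain ⟨x, hx, hx'⟩ := Matrix.exists_vecMul_eq_zero_iff.2 h0
    apply hx
    have h1 : A.symm x = 0 := by
      apply Subtype.ext
      refine hker _ (A.symm x).2 fun v hv => ?_
      have h2 := hBv x (A ⟨v, hv⟩)
      rw [LinearEquiv.symm_apply_apply, Matrix.dotProduct_mulVec, hx', zero_dotProduct] at h2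
      exact h2.symm
    rw [← A.apply_symm_apply x, h1, map_zero]
  have htr : ∀ X ∈ LZ Z, Matrix.trace (X * cx (P * Q)) = 0 := by
    intro X hX
    have h1 : Matrix.trace (X * cx (P * Q)) = Matrix.trace (cx Q * X * cx P) := by
      rw [cx_mul, ← Matrix.mul_assoc, Matrix.trace_mul_comm, Matrix.mul_assoc]
    rw [h1]
    refine trace_skew hBdet ?_
    have hsy : ∀ x : Fin n → ℂ, (A.symm ((cx Q * X * cx P) *ᵥ x) : Fin G ⊕ Fin G → ℂ) =
        X *ᵥ (A.symm x : Fin G ⊕ Fin G → ℂ) := by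
      intro x
      have h2 := hact X hX (A.symm x)
      rw [LinearEquiv.apply_symm_apply] at h2
      rw [← h2, LinearEquiv.symm_apply_apply]
    have h3 : ∀ x y : Fin n → ℂ,
        x ⬝ᵥ (((cx Q * X * cx P)ᵀ * B + B * (cx Q * X * cx P)) *ᵥ y) = 0 := by
      intro x y
      rw [Matrix.add_mulVec, dotProduct_add, ← mulVec_mulVec, ← mulVec_mulVec,
        Matrix.dotProduct_mulVec x (cx Q * X * cx P)ᵀ, Matrix.vecMul_transpose, hBv, hBv, hsy, hsy]
      exact hb X hX _ (A.symm x).2 _ (A.symm y).2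
    ext i j
    have h4 := h3 (Pi.single i 1) (Pi.single j 1)
    rwa [Matrix.mulVec_single_one, single_one_dotProduct] at h4
  have hmem : c • ψ ∈ NZ Z (Fin n) := by
    refine Pool.Agent.H926.det_one h P Q hQP (fun X hX => by rw [hPQ]; exact e2 X hX) htr R hR
      (c • ψ) fun v => ?_
    rw [_root_.smul_apply, hψ, smul_eq_mul, ← hc]
    congr 1
    ext y j
    rw [Matrix.of_apply, Matrix.of_apply, hRv]
    rfl
  have h1 := Submodule.smul_mem _ c⁻¹ hmem
  rwa [smul_smul, inv_mul_cancel₀ hc0, one_smul] at h1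

end

end Pool.Agent.H926.T
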