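import Mathlib
import Pool.Agent.H926.T.Jobs2

/-!
# Invariant forms supported on a direct summand: proof
-/

set_option linter.unusedSectionVars false

namespace Pool.Agent.H926.T

open Module Pool.Agent.Y90 Pool.Agent.W522.U
open Pool.Agent.H204R3.SP (bil2 IsTate)

namespace FormqL

variable {X : Type} [AddCommGroup X] [Module ℂ X] {Γ : Type} [Group Γ]
  (R : Representation ℂ Γ X) (Q : Module.End ℂ X)

/-- the inclusion -/
noncomputable abbrev ii : LinearMap.range Q →ₗ[ℂ] X := (LinearMap.range Q).subtype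

/-- the projection -/
noncomputable abbrev pp : X →ₗ[ℂ] LinearMap.range Q := LinearMap.rangeRestrict Q

theorem ip (v : X) : ii Q (pp Q v) = Q v := rfl

variable {Q} (hQ : Q * Q = Q) (hQR : ∀ g v, Q (R g v) = R g (Q v))

include hQ in
theorem Qi (u : LinearMap.range Q) : Q (ii Q u) = ii Q u := by
  obtain ⟨_, v, rfl⟩ := u
  change Q (Q v) = Q v
  rw [← Module.End.mul_apply, hQ]

include hQ in
theorem pi' (u : LinearMap.range Q) : pp Q (ii Q u) = u := Subtype.ext (Qi hQ u)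

theorem ii_inj : Function.Injective (ii Q) := Subtype.val_injective

/-- the representation on the range -/
noncomputable def R2 : Representation ℂ Γ (LinearMap.range Q) where
  toFun g := (R g).restrict (p := LinearMap.range Q) (q := LinearMap.range Q) (by
    rintro _ ⟨v, rfl⟩
    exact ⟨R g v, hQR g v⟩)
  map_one' := by
    ext u
    simp
  map_mul' g g' := by
    ext u
    simp

theorem iR (g : Γ) (u : LinearMap.range Q) : ii Q (R2 R hQR g u) = R g (ii Q u) := rfl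

theorem pR (g : Γ) (v : X) : pp Q (R g v) = R2 R hQR g (pp Q v) := Subtype.ext (hQR g v)

theorem map_comap_ii {U : Submodule ℂ X} (hU : U ≤ LinearMap.range Q) :
    (U.comap (ii Q)).map (ii Q) = U := by
  rw [Submodule.map_comap_eq, Submodule.range_subtype]
  exact inf_eq_right.2 hU

theorem comap_map_ii (U : Submodule ℂ (LinearMap.range Q)) : (U.map (ii Q)).comap (ii Q) = U :=
  Submodule.comap_map_eq_of_injective ii_inj U

theorem map_le (U : Submodule ℂ (LinearMap.range Q)) : U.map (ii Q) ≤ LinearMap.range Q := by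
  rintro _ ⟨u, _, rfl⟩
  exact u.2

theorem finrank_ii (U : Submodule ℂ (LinearMap.range Q)) :
    finrank ℂ (U.map (ii Q)) = finrank ℂ U :=
  Submodule.finrank_map_subtype_eq _ U

theorem map_inj {U U' : Submodule ℂ (LinearMap.range Q)} (h : U.map (ii Q) = U'.map (ii Q)) :
    U = U' := by
  rw [← comap_map_ii U, h, comap_map_ii U']

theorem mem_map_ii {U : Submodule ℂ (LinearMap.range Q)} {u : LinearMap.range Q} :
    ii Q u ∈ U.map (ii Q) ↔ u ∈ U := by
  constructor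
  · rintro ⟨u', h, h'⟩
    rwa [← ii_inj h']
  · intro h
    exact ⟨u, h, rfl⟩

theorem pot_iff {U : Submodule ℂ (LinearMap.range Q)} :
    Pot (R2 R hQR) U ↔ Pot R (U.map (ii Q)) := by
  constructor
  · rintro ⟨Δ, hΔ, h⟩
    refine ⟨Δ, hΔ, ?_⟩
    rintro g hg _ ⟨u, hu, rfl⟩
    exact ⟨R2 R hQR g u, h g hg u hu, rfl⟩
  · rintro ⟨Δ, hΔ, h⟩
    refine ⟨Δ, hΔ, fun g hg u hu => ?_⟩
    have h1 := h g hg (ii Q u) (mem_map_ii.2 hu)
    rw [← iR R hQR] at h1
    exact mem_map_ii.1 h1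

theorem SI_iff {U : Submodule ℂ (LinearMap.range Q)} :
    W522.U.SI (R2 R hQR) U ↔ W522.U.SI R (U.map (ii Q)) := by
  constructor
  · rintro ⟨h1, h2, h3⟩
    refine ⟨?_, (pot_iff R hQR).1 h2, ?_⟩
    · intro h
      apply h1
      apply map_inj
      rw [h, Submodule.map_bot]
    · intro W hW hW'
      have h4 : (W.comap (ii Q)).map (ii Q) = W := map_comap_ii (hW.trans (map_le U))
      have h5 : W.comap (ii Q) ≤ U := by
        rw [← comap_map_ii U]
        exact Submodule.comap_mono hW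
      rcases h3 (W.comap (ii Q)) h5 ((pot_iff R hQR).2 (by rw [h4]; exact hW')) with h6 | h6
      · left
        rw [← h4, h6, Submodule.map_bot]
      · right
        rw [← h4, h6]
  · rintro ⟨h1, h2, h3⟩
    refine ⟨?_, (pot_iff R hQR).2 h2, ?_⟩
    · intro h
      apply h1
      rw [h, Submodule.map_bot]
    · intro W hW hW'
      rcases h3 (W.map (ii Q)) (Submodule.map_mono hW) ((pot_iff R hQR).1 hW') with h6 | h6
      · left
        apply map_inj
        rw [h6, Submodule.map_bot]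
      · right
        exact map_inj h6

include hQ in
theorem Tw_iff {ψ : Γ → ℂ} {U U' : Submodule ℂ (LinearMap.range Q)} :
    Tw (R2 R hQR) ψ U U' ↔ Tw R ψ (U.map (ii Q)) (U'.map (ii Q)) := by
  constructor
  · rintro ⟨Δ, hΔ, T, h1, ⟨u0, hu0, hu1⟩, hT⟩
    refine ⟨Δ, hΔ, (ii Q) ∘ₗ T ∘ₗ (pp Q), ?_, ⟨ii Q u0, mem_map_ii.2 hu0, ?_⟩, ?_⟩
    · rintro _ ⟨u, hu, rfl⟩
      rw [LinearMap.comp_apply, LinearMap.comp_apply, pi' hQ]
      exact mem_map_ii.2 (h1 u hu)
    · rw [LinearMap.comp_apply, LinearMap.comp_apply, pi' hQ]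
      intro h
      exact hu1 (ii_inj (by rw [h, map_zero]))
    · rintro g hg _ ⟨u, hu, rfl⟩
      rw [LinearMap.comp_apply, LinearMap.comp_apply, LinearMap.comp_apply, LinearMap.comp_apply,
        pR R hQR, pi' hQ, hT g hg u hu, map_smul]
      rfl
  · rintro ⟨Δ, hΔ, T, h1, ⟨_, ⟨u0, hu0, rfl⟩, hu1⟩, hT⟩
    have h2 : ∀ u ∈ U, ∃ u' ∈ U', T (ii Q u) = ii Q u' := by
      intro u hu
      obtain ⟨u', hu', h⟩ := h1 _ (mem_map_ii.2 hu)
      exact ⟨u', hu', h.symm⟩
    refine ⟨Δ, hΔ, (pp Q) ∘ₗ T ∘ₗ (ii Q), ?_, ⟨u0, hu0, ?_⟩, ?_⟩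
    · intro u hu
      obtain ⟨u', hu', h⟩ := h2 u hu
      rw [LinearMap.comp_apply, LinearMap.comp_apply, h, pi' hQ]
      exact hu'
    · obtain ⟨u', hu', h⟩ := h2 u0 hu0
      rw [LinearMap.comp_apply, LinearMap.comp_apply, h, pi' hQ]
      rintro rfl
      exact hu1 (by rw [h, map_zero])
    · intro g hg u hu
      rw [LinearMap.comp_apply, LinearMap.comp_apply, LinearMap.comp_apply, LinearMap.comp_apply,
        iR R hQR, hT g hg _ (mem_map_ii.2 hu), map_smul, pR R hQR]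

include hQ in
theorem Du_iff {χ : Γ →* ℂ} {U U' : Submodule ℂ (LinearMap.range Q)} :
    Du (R2 R hQR) χ U U' ↔ Du R χ (U.map (ii Q)) (U'.map (ii Q)) := by
  constructor
  · rintro ⟨Δ, hΔ, B, ⟨u0, hu0, v0, hv0, h0⟩, hB⟩
    refine ⟨Δ, hΔ, B.compl₁₂ (pp Q) (pp Q), ⟨ii Q u0, mem_map_ii.2 hu0, ii Q v0, mem_map_ii.2 hv0,
      ?_⟩, ?_⟩
    · rw [LinearMap.compl₁₂_apply, pi' hQ, pi' hQ]
      exact h0
    · rintro g hg _ ⟨u, hu, rfl⟩ _ ⟨v, hv, rfl⟩
      rw [LinearMap.compl₁₂_apply, LinearMap.compl₁₂_apply, pR R hQR, pR R hQR, pi' hQ, pi' hQ]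
      exact hB g hg u hu v hv
  · rintro ⟨Δ, hΔ, B, ⟨_, ⟨u0, hu0, rfl⟩, _, ⟨v0, hv0, rfl⟩, h0⟩, hB⟩
    refine ⟨Δ, hΔ, B.compl₁₂ (ii Q) (ii Q), ⟨u0, hu0, v0, hv0, h0⟩, ?_⟩
    intro g hg u hu v hv
    rw [LinearMap.compl₁₂_apply, LinearMap.compl₁₂_apply, iR R hQR, iR R hQR]
    exact hB g hg _ (mem_map_ii.2 hu) _ (mem_map_ii.2 hv)

include hQ in
theorem hasProj (h : Pool.Agent.H204R3.GP.HasProj R) :
    Pool.Agent.H204R3.GP.HasProj (R2 R hQR) := by
  intro Δ hΔ U hU
  obtain ⟨P, h1, h2, h3⟩ := h Δ hΔ (U.map (ii Q)) (by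
    rintro s hs _ ⟨u, hu, rfl⟩
    exact ⟨R2 R hQR s u, hU s hs u hu, rfl⟩)
  refine ⟨(pp Q) ∘ₗ P ∘ₗ (ii Q), ?_, ?_, ?_⟩
  · intro v
    obtain ⟨u, hu, h⟩ := h1 (ii Q v)
    rw [LinearMap.comp_apply, LinearMap.comp_apply, ← h, pi' hQ]
    exact hu
  · intro u hu
    rw [LinearMap.comp_apply, LinearMap.comp_apply, h2 _ (mem_map_ii.2 hu), pi' hQ]
  · intro s hs v
    rw [LinearMap.comp_apply, LinearMap.comp_apply, LinearMap.comp_apply, LinearMap.comp_apply,
      iR R hQR, h3 s hs, pR R hQR]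

/-- the system of forms on the range -/
noncomputable def N2 (Q : Module.End ℂ X)
    (N : ∀ (κ : Type) [Finite κ], Submodule ℂ (MultilinearMap ℂ (fun _ : κ => X) ℂ))
    (κ : Type) [Finite κ] :
    Submodule ℂ (MultilinearMap ℂ (fun _ : κ => LinearMap.range Q) ℂ) where
  carrier := {F | F.compLinearMap (fun _ => pp Q) ∈ N κ}
  zero_mem' := by
    change (0 : MultilinearMap ℂ (fun _ : κ => LinearMap.range Q) ℂ).compLinearMap
      (fun _ => pp Q) ∈ N κ
    have : (0 : MultilinearMap ℂ (fun _ : κ => LinearMap.range Q) ℂ).compLinearMap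
      (fun _ => pp Q) = 0 := by ext v; simp
    rw [this]
    exact (N κ).zero_mem
  add_mem' := by
    intro a b ha hb
    change (a + b).compLinearMap (fun _ => pp Q) ∈ N κ
    have : (a + b).compLinearMap (fun _ => pp Q) =
      a.compLinearMap (fun _ => pp Q) + b.compLinearMap (fun _ => pp Q) := by ext v; simp
    rw [this]
    exact (N κ).add_mem ha hb
  smul_mem' := by
    intro c a ha
    change (c • a).compLinearMap (fun _ => pp Q) ∈ N κ
    have : (c • a).compLinearMap (fun _ => pp Q) = c • a.compLinearMap (fun _ => pp Q) := by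
      ext v; simp
    rw [this]
    exact (N κ).smul_mem c ha

theorem mem_N2 {N : ∀ (κ : Type) [Finite κ], Submodule ℂ (MultilinearMap ℂ (fun _ : κ => X) ℂ)}
    {κ : Type} [Finite κ] {F : MultilinearMap ℂ (fun _ : κ => LinearMap.range Q) ℂ} :
    F ∈ N2 Q N κ ↔ F.compLinearMap (fun _ => pp Q) ∈ N κ := Iff.rfl

theorem clo {N : ∀ (κ : Type) [Finite κ], Submodule ℂ (MultilinearMap ℂ (fun _ : κ => X) ℂ)}
    (hN : Clo N) : Clo (fun (κ : Type) [Finite κ] => N2 Q N κ) where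
  unit κ _ _ φ := by
    rw [mem_N2]
    exact hN.unit κ _
  mul κ κ' κ'' _ _ _ e φ φ' ψ h h' hψ := by
    rw [mem_N2] at h h' ⊢
    refine hN.mul κ κ' κ'' e _ _ _ h h' fun v => ?_
    rw [MultilinearMap.compLinearMap_apply, hψ]
    rfl

/-- the subspaces `W i` -/
noncomputable def eW {U : Submodule ℂ X} (hU : U ≤ LinearMap.range Q) :
    U.comap (ii Q) ≃ₗ[ℂ] U :=
  LinearEquiv.ofBijective ((ii Q).restrict (p := U.comap (ii Q)) (q := U) (fun _ h => h)) (by
    constructor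
    · intro a b h
      have h1 : ii Q (a : LinearMap.range Q) = ii Q (b : LinearMap.range Q) :=
        congrArg U.subtype h
      exact Subtype.ext (ii_inj h1)
    · intro v
      exact ⟨⟨⟨v, hU v.2⟩, v.2⟩, rfl⟩)

theorem eW_coe {U : Submodule ℂ X} (hU : U ≤ LinearMap.range Q) (u : U.comap (ii Q)) :
    ((eW hU u : U) : X) = ii Q (u : LinearMap.range Q) := rfl

theorem det_eq {U : Submodule ℂ X} (hU : U ≤ LinearMap.range Q) (g : Γ)
    (h : ∀ u ∈ U, R g u ∈ U) (h' : ∀ u ∈ U.comap (ii Q), R2 R hQR g u ∈ U.comap (ii Q)) :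
    LinearMap.det ((R g).restrict h) = LinearMap.det ((R2 R hQR g).restrict h') := by
  rw [← LinearMap.det_conj ((R2 R hQR g).restrict h') (eW hU)]
  congr 1
  ext v
  obtain ⟨u, rfl⟩ := (eW hU).surjective v
  change (R g (eW hU u : X)) = ((eW hU ((R2 R hQR g).restrict h' ((eW hU).symm (eW hU u))) : U) : X)
  rw [LinearEquiv.symm_apply_apply, eW_coe, eW_coe]
  rfl

end FormqL

open FormqL in
theorem s_formq (h : Pool.Agent.Y4.Q.JForms2) : S_FORMQ := by
  intro X _ _ _ Γ _ R hfi ω hnd hωR Q hQ hQR hQω hR1 hR2 hH hss s W hW hWQ hWW hall st hst hDu hDu'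
    N hN hpair hdet m φ hφ hφQ
  have hmW : ∀ i, ((W i).comap (ii Q)).map (ii Q) = W i := fun i => map_comap_ii (hWQ i)
  have key := h (LinearMap.range Q) Γ (R2 R hQR) hfi (ω.compl₁₂ (ii Q) (ii Q)) ?_ ?_ ?_ ?_ ?_
    (hasProj R hQ hQR hss) s (fun i => (W i).comap (ii Q)) ?_ ?_ ?_ st hst ?_ ?_
    (fun (κ : Type) [Finite κ] => N2 Q N κ) (clo hN) ?_ ?_ m
    (φ.compLinearMap (fun _ => ii Q)) ?_
  · -- conclusion
    rw [mem_N2] at key
    have h1 : (φ.compLinearMap (fun _ => ii Q)).compLinearMap (fun _ => pp Q) = φ := by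
      ext v
      rw [MultilinearMap.compLinearMap_apply, MultilinearMap.compLinearMap_apply]
      exact hφQ v
    rwa [h1] at key
  · -- nondegenerate
    intro u hu
    apply ii_inj
    rw [map_zero]
    apply hnd
    intro v
    have h1 := hu (pp Q v)
    rw [LinearMap.compl₁₂_apply, ip, ← hQω, Qi hQ] at h1
    exact h1
  · intro g u v
    rw [LinearMap.compl₁₂_apply, LinearMap.compl₁₂_apply, iR, iR]
    exact hωR g _ _
  · -- hR1
    intro U hU hU2
    obtain ⟨γ, h1, h2⟩ := hR1 (U.map (ii Q)) ((SI_iff R hQR).1 hU) (map_le U)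
      (by rw [finrank_ii]; exact hU2)
    refine ⟨γ, ?_, ?_⟩
    · ext u
      have h3 := congrArg (fun f : Module.End ℂ X => f (ii Q u)) h1
      exact h3
    · have h4 : (U.map (R2 R hQR γ - 1)).map (ii Q) = (U.map (ii Q)).map (R γ - 1) := by
        rw [← Submodule.map_comp, ← Submodule.map_comp]
        rfl
      rw [← finrank_ii, h4]
      exact h2
  · -- hR2
    intro U hU hU1 hD
    exact hR2 (U.map (ii Q)) ((SI_iff R hQR).1 hU) (map_le U) (by rw [finrank_ii]; exact hU1)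
      ((Du_iff R hQ hQR).1 hD)
  · -- hH
    intro U U' hU hU' hU2 hD ψ hT
    rcases hH (U.map (ii Q)) (U'.map (ii Q)) ((SI_iff R hQR).1 hU) ((SI_iff R hQR).1 hU')
      (map_le U) (map_le U') (by rw [finrank_ii]; exact hU2)
      (fun hD' => hD ((Du_iff R hQ hQR).2 hD')) ψ ((Tw_iff R hQ hQR).1 hT) with h1 | ⟨h1, h2⟩
    · exact Or.inl ((Tw_iff R hQ hQR).2 h1)
    · exact Or.inr ⟨by rw [finrank_ii] at h1; exact h1, (Du_iff R hQ hQR).2 h2⟩
  · intro i
    rw [SI_iff, hmW]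
    exact hW i
  · intro i j hT
    rw [Tw_iff R hQ hQR, hmW, hmW] at hT
    exact hWW i j hT
  · intro U hU
    obtain ⟨i, hi⟩ := hall (U.map (ii Q)) ((SI_iff R hQR).1 hU) (map_le U)
    refine ⟨i, ?_⟩
    rw [Tw_iff R hQ hQR, hmW]
    exact hi
  · intro i
    rw [Du_iff R hQ hQR, hmW, hmW]
    exact hDu i
  · intro i j hD
    rw [Du_iff R hQ hQR, hmW, hmW] at hD
    exact hDu' i j hD
  · -- hpair
    intro b hb
    rw [mem_N2]
    have h1 := hpair (b.compl₁₂ (pp Q) (pp Q)) (fun g u v => by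
      rw [LinearMap.compl₁₂_apply, LinearMap.compl₁₂_apply, pR R hQR, pR R hQR]
      exact hb g _ _)
    have h2 : (bil2 b).compLinearMap (fun _ => pp Q) = bil2 (b.compl₁₂ (pp Q) (pp Q)) := by
      ext v
      rfl
    rw [h2]
    exact h1
  · -- hdet
    intro a ha hM ι _ _ f q hq ψ hψ
    rw [mem_N2]
    refine hdet a ha ?_ ι (fun i => (f i).map (eW (hWQ i)))
      (fun x y => (eW (hWQ x.1)).toLinearMap ∘ₗ (q x y) ∘ₗ (pp Q)) ?_ _ ?_
    · intro g hg
      have hg' : ∀ i, ∀ u ∈ (W i).comap (ii Q), R2 R hQR g u ∈ (W i).comap (ii Q) :=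
        fun i u hu => hg i _ hu
      obtain ⟨M, hM0, hM1⟩ := hM g hg'
      refine ⟨M, hM0, ?_⟩
      rw [← hM1]
      congr 1
      refine Finset.prod_congr rfl fun i _ => ?_
      rw [det_eq R hQR (hWQ i) g (hg i) (hg' i)]
    · intro x y g v
      have h1 := hq x y g (pp Q v)
      rw [← pR] at h1
      exact congrArg (ii Q) h1
    · intro v
      rw [MultilinearMap.compLinearMap_apply, hψ]
      refine Finset.prod_congr rfl fun x _ => ?_
      rw [Basis.det_map]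
      congr 1
      funext y
      change q x y (pp Q (v ⟨x, y⟩)) = (eW (hWQ x.1)).symm ((eW (hWQ x.1)) (q x y (pp Q (v ⟨x, y⟩))))
      rw [LinearEquiv.symm_apply_apply]
  · -- IsTate
    refine ⟨⊤, inferInstance, fun g _ v => ?_⟩
    rw [MonoidHom.one_apply, one_pow, one_mul, MultilinearMap.compLinearMap_apply,
      MultilinearMap.compLinearMap_apply]
    exact hφ g _

end Pool.Agent.H926.T
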