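import Mathlib
import Pool.Agent.H926.T.Jobs

/-!
# The Hodge Lie algebra of a power; from multilinear forms to alternating forms on powers
-/

set_option linter.unusedSectionVars false

namespace Pool.Agent.H926.T

open Module Pool.Agent.H204R3.CM
open Pool.Agent.Y90.St (IsAV IsHom IsPolarization)

section Hp

variable {H T : Type} [AddCommGroup H] [Module ℚ H] [AddCommGroup T] [Module ℂ T]

/-- The diagonal operator on a power. -/
def hpDiag (n : ℕ) : (H →ₗ[ℚ] H) →ₗ[ℚ] ((Fin n → H) →ₗ[ℚ] (Fin n → H)) where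
  toFun z := LinearMap.pi fun i => z ∘ₗ LinearMap.proj i
  map_add' a b := by
    ext; simp
  map_smul' a b := by
    ext; simp

lemma hpDiag_apply (n : ℕ) (z : H →ₗ[ℚ] H) (v : Fin n → H) (i : Fin n) :
    hpDiag n z v i = z (v i) := rfl

lemma hpDiag_comm (n : ℕ) (a b : H →ₗ[ℚ] H) :
    hpDiag n (a ∘ₗ b - b ∘ₗ a) = hpDiag n a ∘ₗ hpDiag n b - hpDiag n b ∘ₗ hpDiag n a := by
  apply LinearMap.ext
  intro v
  funext i
  simp [hpDiag_apply]

/-- `per` is rational linear. -/
lemma hp_per_smul (per : H →+ T) (q : ℚ) (h : H) : per (q • h) = ((q : ℝ)) • per h := by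
  let _ : Module ℚ T := Module.compHom T (algebraMap ℚ ℂ)
  have h1 : per (q • h) = q • per h := map_rat_smul per q h
  rw [h1]
  show (algebraMap ℚ ℂ q) • per h = _
  rw [← Complex.coe_smul]
  congr 1

lemma hp_inj (per : H →+ T) (hX : IsAV per) {d : ℕ} (b : Fin d → ℝ)
    (hb : LinearIndependent ℚ b) (w : Fin d → H) (hw : ∑ c, b c • per (w c) = 0) :
    ∀ c, w c = 0 := by
  obtain ⟨hfd, hfT, hspan, hdim, _⟩ := hX
  let B := Module.finBasis ℚ H
  have hrep : ∀ h : H, per h = ∑ s, ((B.repr h s : ℚ) : ℝ) • per (B s) := by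
    intro h
    conv_lhs => rw [← B.sum_repr h]
    rw [map_sum]
    exact Finset.sum_congr rfl fun s _ => hp_per_smul per _ _
  have hsp : ⊤ ≤ Submodule.span ℝ (Set.range fun s => per (B s)) := by
    rw [← hspan, Submodule.span_le]
    rintro _ ⟨h, rfl⟩
    rw [hrep h]
    exact Submodule.sum_mem _ fun s _ => Submodule.smul_mem _ _
      (Submodule.subset_span ⟨s, rfl⟩)
  have hli : LinearIndependent ℝ fun s => per (B s) := by
    apply linearIndependent_of_top_le_span_of_card_eq_finrank hsp
    rw [Fintype.card_fin, hdim, finrank_real_of_complex]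
  have hsum : ∑ s, (∑ c, b c * ((B.repr (w c) s : ℚ) : ℝ)) • per (B s) = 0 := by
    rw [← hw]
    simp_rw [Finset.sum_smul]
    rw [Finset.sum_comm]
    refine Finset.sum_congr rfl fun c _ => ?_
    rw [hrep (w c), Finset.smul_sum]
    refine Finset.sum_congr rfl fun s _ => ?_
    rw [smul_smul]
  have hz := (Fintype.linearIndependent_iff.1 hli) _ hsum
  intro c
  have : ∀ s, B.repr (w c) s = 0 := by
    intro s
    have h2 : ∑ c, (B.repr (w c) s) • b c = 0 := by
      rw [← hz s]
      refine Finset.sum_congr rfl fun c _ => ?_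
      rw [Rat.smul_def, mul_comm]
    exact (Fintype.linearIndependent_iff.1 hb) _ h2 c
  apply B.repr.injective
  ext s
  simp [this s]

/-- **S_HP.** -/
theorem s_hp : S_HP := by
  intro H T _ _ _ _ per hX n z hz L' hL' hex
  obtain ⟨m, r, y, hy, hI⟩ := hex
  rcases Nat.eq_zero_or_pos n with hn | hn
  · subst hn
    have : (LinearMap.pi fun i => z ∘ₗ LinearMap.proj i : (Fin 0 → H) →ₗ[ℚ] (Fin 0 → H)) = 0 := by
      apply LinearMap.ext
      intro v
      exact Subsingleton.elim _ _
    rw [this]
    exact L'.zero_mem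
  -- a basis of the rational span of the numbers `r`
  let R : Submodule ℚ ℝ := Submodule.span ℚ (Set.range r)
  have : FiniteDimensional ℚ R := FiniteDimensional.span_of_finite ℚ (Set.finite_range r)
  let B := Module.finBasis ℚ R
  let b : Fin (finrank ℚ R) → ℝ := fun c => (B c : ℝ)
  have hb : LinearIndependent ℚ b := B.linearIndependent.map' R.subtype (Submodule.ker_subtype R)
  have hrR : ∀ j, r j ∈ R := fun j => Submodule.subset_span ⟨j, rfl⟩
  let a : Fin m → Fin (finrank ℚ R) → ℚ := fun j c => B.repr ⟨r j, hrR j⟩ c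
  have hra : ∀ j, r j = ∑ c, (a j c : ℝ) * b c := by
    intro j
    have h1 := congrArg (fun x : R => (x : ℝ)) (B.sum_repr ⟨r j, hrR j⟩)
    simp only [Submodule.coe_sum, Submodule.coe_smul] at h1
    rw [← h1]
    refine Finset.sum_congr rfl fun c _ => ?_
    rw [Rat.smul_def]
  let y' : Fin (finrank ℚ R) → ((Fin n → H) →ₗ[ℚ] (Fin n → H)) := fun c => ∑ j, a j c • y j
  have hy' : ∀ c, y' c ∈ L' := fun c => Submodule.sum_mem _ fun j _ =>
    Submodule.smul_mem _ _ (hy j)
  -- the complex structure in terms of `b`, coordinatewise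
  have hI' : ∀ (u : Fin n → H) (k : Fin n), Complex.I • per (u k) = ∑ c, b c • per (y' c u k) := by
    intro u k
    have h1 := congrFun (hI u) k
    have h2 : (Complex.I • powPer per n u) k = Complex.I • per (u k) := rfl
    rw [h2] at h1
    rw [h1]
    have h3 : (∑ j, (r j : ℂ) • powPer per n (y j u)) k = ∑ j, r j • per (y j u k) := by
      rw [Finset.sum_apply]
      refine Finset.sum_congr rfl fun j _ => ?_
      rw [Pi.smul_apply, Complex.coe_smul]
      rfl
    rw [h3]
    have h4 : ∀ c, per (y' c u k) = ∑ j, (a j c : ℝ) • per (y j u k) := by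
      intro c
      have : y' c u k = ∑ j, a j c • y j u k := by
        simp [y', LinearMap.sum_apply, Finset.sum_apply]
      rw [this, map_sum]
      exact Finset.sum_congr rfl fun j _ => hp_per_smul per _ _
    simp_rw [h4, Finset.smul_sum]
    rw [Finset.sum_comm]
    refine Finset.sum_congr rfl fun j _ => ?_
    conv_lhs => rw [hra j]
    rw [Finset.sum_smul]
    refine Finset.sum_congr rfl fun c _ => ?_
    rw [smul_smul, mul_comm]
  -- off-diagonal entries
  have hoff : ∀ (k l : Fin n) (u : H), k ≠ l → ∀ c, y' c (Pi.single l u) k = 0 := by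
    intro k l u hkl
    apply hp_inj per hX b hb
    rw [← hI' (Pi.single l u) k, Pi.single_eq_of_ne hkl, map_zero, smul_zero]
  have hdiag : ∀ (k l : Fin n) (u : H) (c), y' c (Pi.single k u) k = y' c (Pi.single l u) l := by
    intro k l u c
    have h1 := hI' (Pi.single k u) k
    have h2 := hI' (Pi.single l u) l
    rw [Pi.single_eq_same] at h1 h2
    have h3 := hp_inj per hX b hb (fun c => y' c (Pi.single k u) k - y' c (Pi.single l u) l) (by
      simp_rw [map_sub, smul_sub]
      rw [Finset.sum_sub_distrib, ← h1, ← h2, sub_self]) c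
    exact sub_eq_zero.1 h3
  let o : Fin n := ⟨0, hn⟩
  let t : Fin (finrank ℚ R) → (H →ₗ[ℚ] H) := fun c =>
    LinearMap.proj o ∘ₗ y' c ∘ₗ LinearMap.single ℚ (fun _ : Fin n => H) o
  have ht : ∀ c, hpDiag n (t c) = y' c := by
    intro c
    apply LinearMap.pi_ext
    intro l u
    funext k
    rw [hpDiag_apply]
    by_cases hkl : k = l
    · subst hkl
      rw [Pi.single_eq_same]
      exact hdiag o k u c
    · rw [Pi.single_eq_of_ne hkl, map_zero, hoff k l u hkl c]
  refine hz (L'.comap (hpDiag n)) ?_ ⟨finrank ℚ R, b, t, ?_, ?_⟩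
  · intro y₁ hy₁ y₂ hy₂
    rw [Submodule.mem_comap] at hy₁ hy₂ ⊢
    rw [hpDiag_comm]
    exact hL' _ hy₁ _ hy₂
  · intro c
    rw [Submodule.mem_comap, ht c]
    exact hy' c
  · intro u
    have h1 := hI' (Pi.single o u) o
    rw [Pi.single_eq_same] at h1
    rw [h1]
    refine Finset.sum_congr rfl fun c _ => ?_
    rw [Complex.coe_smul]
    rfl

/-- **S_ALTP.** -/
theorem s_altp : S_ALTP := by
  intro H T _ _ _ _ per n z hz g ψ h1 h2
  let g' : MultilinearMap ℚ (fun _ : Fin n => (Fin n → H)) ℚ :=
    g.compLinearMap fun k => LinearMap.proj k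
  let ψ' : MultilinearMap ℝ (fun _ : Fin n => (Fin n → T)) ℝ :=
    ψ.compLinearMap fun k => LinearMap.proj k
  have hg' : ∀ v : Fin n → (Fin n → H), g' v = g (fun k => v k k) := fun v => rfl
  have hψ' : ∀ v : Fin n → (Fin n → T), ψ' v = ψ (fun k => v k k) := fun v => rfl
  let f : (Fin n → H) [⋀^Fin n]→ₗ[ℚ] ℚ := MultilinearMap.alternatization g'
  have hf : ∀ v, f v = ∑ σ : Equiv.Perm (Fin n), ((Equiv.Perm.sign σ : ℤ)) •
      g (fun k => v (σ k) k) := by
    intro v
    simp only [f, MultilinearMap.alternatization_apply]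
    refine Finset.sum_congr rfl fun σ _ => ?_
    rfl
  have hHodge : IsHodge (powPer per n) f := by
    refine ⟨(MultilinearMap.alternatization ψ').toMultilinearMap, ?_, ?_⟩
    · intro v
      show (MultilinearMap.alternatization ψ') (fun l => powPer per n (v l)) = _
      rw [MultilinearMap.alternatization_apply, hf, Rat.cast_sum]
      refine Finset.sum_congr rfl fun σ _ => ?_
      have h3 : (ψ'.domDomCongr σ) (fun l => powPer per n (v l)) =
          ((g (fun k => v (σ k) k) : ℚ) : ℝ) := h1 (fun k => v (σ k) k)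
      rw [h3]
      rcases Int.units_eq_one_or (Equiv.Perm.sign σ) with hs | hs <;> simp [hs]
    · intro c hc u
      show (MultilinearMap.alternatization ψ') (fun l => c • u l) =
        (MultilinearMap.alternatization ψ') u
      rw [MultilinearMap.alternatization_apply, MultilinearMap.alternatization_apply]
      refine Finset.sum_congr rfl fun σ _ => ?_
      have h3 : (ψ'.domDomCongr σ) (fun l => c • u l) = (ψ'.domDomCongr σ) u :=
        h2 c hc (fun k => u (σ k) k)
      rw [h3]
  intro w
  have hk := hz f hHodge (fun k => Pi.single k (w k))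
  rw [← hk]
  refine Finset.sum_congr rfl fun k _ => ?_
  show g _ = f _
  rw [hf, Finset.sum_eq_single (1 : Equiv.Perm (Fin n))]
  · rw [Equiv.Perm.sign_one]
    simp only [Units.val_one, one_smul, Equiv.Perm.coe_one, id_eq]
    congr 1
    funext l
    by_cases hl : l = k
    · subst hl
      rw [Function.update_self, Function.update_self]
      simp
    · rw [Function.update_of_ne hl, Function.update_of_ne hl, Pi.single_eq_same]
  · intro σ _ hσ
    have : ∃ l, σ l ≠ l := by
      by_contra hcon
      push Not at hcon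
      exact hσ (Equiv.ext hcon)
    obtain ⟨l, hl⟩ := this
    have h0 : (Function.update (fun k => (Pi.single k (w k) : Fin n → H)) k
        ((LinearMap.pi fun i => z ∘ₗ LinearMap.proj i : (Fin n → H) →ₗ[ℚ] (Fin n → H))
          (Pi.single k (w k) : Fin n → H)) (σ l) : Fin n → H) l = 0 := by
      by_cases hk : σ l = k
      · rw [hk, Function.update_self]
        have : l ≠ k := fun h => hl (by rw [hk, h])
        simp [this]
      · rw [Function.update_of_ne hk, Pi.single_eq_of_ne (Ne.symm hl)]
    have h00 := MultilinearMap.map_coord_zero (m := fun k' => (Function.update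
        (fun k => (Pi.single k (w k) : Fin n → H)) k
        ((LinearMap.pi fun i => z ∘ₗ LinearMap.proj i : (Fin n → H) →ₗ[ℚ] (Fin n → H))
          (Pi.single k (w k) : Fin n → H)) (σ k') : Fin n → H) k') g l h0
    rw [h00, smul_zero]
  · intro h
    exact absurd (Finset.mem_univ _) h

end Hp

end Pool.Agent.H926.T
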