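import Pool.Agent.H926.T.Jobs

set_option autoImplicit false
set_option linter.unusedSectionVars false

namespace Pool.Agent.H926.T

open Module Pool.Agent.H204R3.CM
open Pool.Agent.Y90.St (IsAV IsHom IsPolarization)

namespace LpL

section gen

variable {R M N : Type*} [CommRing R] [AddCommGroup M] [Module R M] [AddCommGroup N] [Module R N]

theorem upd0 (a b c : M) : Function.update ![a, b] 0 c = ![c, b] := by
  funext i; fin_cases i <;> simp

theorem upd1 (a b c : M) : Function.update ![a, b] 1 c = ![a, c] := by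
  funext i; fin_cases i <;> simp

/-- a multilinear map in two variables as a bilinear map -/
def bil (g : MultilinearMap R (fun _ : Fin 2 => M) N) : M →ₗ[R] M →ₗ[R] N :=
  LinearMap.mk₂ R (fun a b => g ![a, b])
    (fun a b c => by
      have h := g.map_update_add ![a, c] 0 a b
      rwa [upd0, upd0, upd0] at h)
    (fun r a c => by
      have h := g.map_update_smul ![a, c] 0 r a
      rwa [upd0, upd0] at h)
    (fun a b c => by
      have h := g.map_update_add ![a, c] 1 b c
      rwa [upd1, upd1, upd1] at h)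
    (fun r a c => by
      have h := g.map_update_smul ![a, c] 1 r c
      rwa [upd1, upd1] at h)

theorem bil_apply (g : MultilinearMap R (fun _ : Fin 2 => M) N) (a b : M) :
    bil g a b = g ![a, b] := rfl

end gen

section one

variable {H T : Type} [AddCommGroup H] [Module ℚ H] [AddCommGroup T] [Module ℂ T]

theorem per_smul (per : H →+ T) (q : ℚ) (v : H) : per (q • v) = ((q : ℝ)) • per v := by
  have h := map_ratCast_smul per ℚ ℝ q v
  simpa using h

/-- imaginary part of a Hermitian form as a real bilinear form -/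
noncomputable def EB (Ψ : T → T → ℂ) (h1 : ∀ u', IsLinearMap ℂ fun u => Ψ u u')
    (h2 : ∀ u u', Ψ u' u = starRingEnd ℂ (Ψ u u')) : LinearMap.BilinForm ℝ T :=
  LinearMap.mk₂ ℝ (fun u u' => (Ψ u u').im)
    (fun a b c => by rw [(h1 c).map_add, Complex.add_im])
    (fun r a c => by
      have h : Ψ (r • a) c = (r : ℂ) * Ψ a c := by
        rw [← Complex.coe_smul, (h1 c).map_smul, smul_eq_mul]
      rw [h, Complex.im_ofReal_mul, smul_eq_mul])
    (fun a b c => by
      rw [h2 (b + c) a, h2 b a, h2 c a, (h1 a).map_add, map_add, Complex.add_im])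
    (fun r a c => by
      have h : Ψ a (r • c) = (r : ℂ) * Ψ a c := by
        rw [h2 (r • c) a, ← Complex.coe_smul, (h1 a).map_smul, smul_eq_mul, map_mul,
          Complex.conj_ofReal, ← h2 c a]
      rw [h, Complex.im_ofReal_mul, smul_eq_mul])

theorem EB_apply (Ψ : T → T → ℂ) (h1 : ∀ u', IsLinearMap ℂ fun u => Ψ u u')
    (h2 : ∀ u u', Ψ u' u = starRingEnd ℂ (Ψ u u')) (u u' : T) :
    EB Ψ h1 h2 u u' = (Ψ u u').im := rfl

theorem EB_sep (Ψ : T → T → ℂ) (h1 : ∀ u', IsLinearMap ℂ fun u => Ψ u u')
    (h2 : ∀ u u', Ψ u' u = starRingEnd ℂ (Ψ u u')) (h3 : ∀ u, u ≠ 0 → 0 < (Ψ u u).re) (u : T)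
    (hu : ∀ u', EB Ψ h1 h2 u u' = 0) : u = 0 := by
  by_contra hne
  have hp := h3 u hne
  have h := hu (Complex.I • u)
  rw [EB_apply, h2 (Complex.I • u) u, (h1 u).map_smul, smul_eq_mul] at h
  simp at h
  linarith

theorem EB_inv (Ψ : T → T → ℂ) (h1 : ∀ u', IsLinearMap ℂ fun u => Ψ u u')
    (h2 : ∀ u u', Ψ u' u = starRingEnd ℂ (Ψ u u')) (z : ℂ) (hz : ‖z‖ = 1) (u u' : T) :
    EB Ψ h1 h2 (z • u) (z • u') = EB Ψ h1 h2 u u' := by
  rw [EB_apply, EB_apply, (h1 (z • u')).map_smul, h2 (z • u') u, (h1 u).map_smul, smul_eq_mul,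
    smul_eq_mul, map_mul, ← h2 u' u, ← mul_assoc, Complex.mul_conj, Complex.normSq_eq_norm_sq, hz]
  simp

theorem per_inj {per : H →+ T} (hX : IsAV per) : Function.Injective per := by
  obtain ⟨hf, hT, hsp, hrk, -⟩ := hX
  have := hf
  have := hT
  have : FiniteDimensional ℝ T := FiniteDimensional.complexToReal T
  set b := Module.finBasis ℚ H with hb
  have hper : ∀ v : H, per v = ∑ i, ((b.repr v i : ℚ) : ℝ) • per (b i) := by
    intro v
    conv_lhs => rw [← b.sum_repr v]
    rw [map_sum]
    exact Finset.sum_congr rfl fun i _ => per_smul per _ _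
  have hspan : ⊤ ≤ Submodule.span ℝ (Set.range fun i => per (b i)) := by
    rw [← hsp, Submodule.span_le]
    rintro _ ⟨v, rfl⟩
    rw [hper v]
    exact Submodule.sum_mem _ fun i _ => Submodule.smul_mem _ _ (Submodule.subset_span ⟨i, rfl⟩)
  have hli : LinearIndependent ℝ fun i => per (b i) := by
    refine linearIndependent_of_top_le_span_of_card_eq_finrank hspan ?_
    rw [Fintype.card_fin, hrk, finrank_real_of_complex]
  rw [injective_iff_map_eq_zero]
  intro v hv
  rw [hper v] at hv
  have h := (Fintype.linearIndependent_iff.1 hli) _ hv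
  rw [← b.sum_repr v]
  exact Finset.sum_eq_zero fun i _ => by
    have hi : b.repr v i = 0 := by exact_mod_cast h i
    rw [hi, zero_smul]

theorem span_ext {per : H →+ T} (hX : IsAV per) {N : Type} [AddCommGroup N] [Module ℝ N]
    (f g : T →ₗ[ℝ] N) (h : ∀ v, f (per v) = g (per v)) : f = g := by
  refine LinearMap.ext_on hX.2.2.1 ?_
  rintro _ ⟨v, rfl⟩
  exact h v

/-- a bilinear form of Hodge type is killed by the Lefschetz Lie algebra -/
theorem main1 {per : H →+ T} (hX : IsAV per) {x : H →ₗ[ℚ] H} (hx : InLef per x)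
    (B : H →ₗ[ℚ] H →ₗ[ℚ] ℚ) (ψ : T →ₗ[ℝ] T →ₗ[ℝ] ℝ)
    (h1 : ∀ v w, ψ (per v) (per w) = B v w)
    (h2 : ∀ z : ℂ, ‖z‖ = 1 → ∀ u u', ψ (z • u) (z • u') = ψ u u') (v w : H) :
    B (x v) w + B v (x w) = 0 := by
  obtain ⟨hf, hT, hsp, hrk, E, Ψ, g1, g2, g3, g4⟩ := id hX
  have := hf
  have := hT
  have : FiniteDimensional ℝ T := FiniteDimensional.complexToReal T
  set EE := EB Ψ g1 g2 with hEE
  have hEp : ∀ v w, EE (per v) (per w) = (E v w : ℝ) := fun v w => g4 v w
  -- the rational form
  have cast_inj : ∀ {a b : ℚ}, (a : ℝ) = b → a = b := fun h => by exact_mod_cast h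
  let EQ : LinearMap.BilinForm ℚ H := LinearMap.mk₂ ℚ E
    (fun a b c => cast_inj (by rw [← hEp, map_add, map_add, LinearMap.add_apply, hEp, hEp]; simp))
    (fun r a c => cast_inj (by
      rw [← hEp, per_smul, map_smul, LinearMap.smul_apply, hEp]; simp))
    (fun a b c => cast_inj (by rw [← hEp, map_add, map_add, hEp, hEp]; simp))
    (fun r a c => cast_inj (by rw [← hEp, per_smul, map_smul, hEp]; simp))
  have hEQ : ∀ v w, EQ v w = E v w := fun v w => rfl
  have hEEnd : EE.Nondegenerate := LinearMap.BilinForm.Nondegenerate.ofSeparatingLeft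
    (fun u hu => EB_sep Ψ g1 g2 g3 u hu)
  have hEQnd : EQ.Nondegenerate := LinearMap.BilinForm.Nondegenerate.ofSeparatingLeft
    (fun v hv => by
      have h : EE (per v) = 0 := span_ext hX _ _ fun w => by
        rw [hEp, ← hEQ, hv w]; simp
      have h' : per v = 0 := EB_sep Ψ g1 g2 g3 _ fun u' => by rw [← hEE, h]; rfl
      exact per_inj hX (by rw [h', map_zero]))
  -- the operators
  let c : H →ₗ[ℚ] H := ((EQ.toDual hEQnd).symm : Dual ℚ H →ₗ[ℚ] H) ∘ₗ B
  have hc : ∀ v w, E (c v) w = B v w := fun v w => by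
    have := LinearMap.BilinForm.apply_toDual_symm_apply (hB := hEQnd) (B v) w
    exact this
  let C : T →ₗ[ℝ] T := ((EE.toDual hEEnd).symm : Dual ℝ T →ₗ[ℝ] T) ∘ₗ ψ
  have hC : ∀ u u', EE (C u) u' = ψ u u' := fun u u' =>
    LinearMap.BilinForm.apply_toDual_symm_apply (hB := hEEnd) (ψ u) u'
  have eq_of : ∀ a b : T, (∀ u', EE a u' = EE b u') → a = b := fun a b h => by
    rw [← sub_eq_zero]
    refine EB_sep Ψ g1 g2 g3 _ fun u' => ?_
    rw [← hEE, map_sub, LinearMap.sub_apply, h u', sub_self]
  have hCI : ∀ u, C (Complex.I • u) = Complex.I • C u := by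
    intro u
    refine eq_of _ _ fun u' => ?_
    have e : u' = Complex.I • (-(Complex.I • u')) := by
      rw [smul_neg, smul_smul, Complex.I_mul_I]; simp
    rw [hC]
    conv_lhs => rw [e]
    conv_rhs => rw [e]
    rw [h2 _ Complex.norm_I, hEE, EB_inv Ψ g1 g2 _ Complex.norm_I, ← hEE, hC]
  have hCper : ∀ v, C (per v) = per (c v) := by
    intro v
    refine eq_of _ _ fun u' => ?_
    have h : EE (C (per v)) = EE (per (c v)) := span_ext hX _ _ fun w => by
      rw [hC, h1, hEp, hc]
    rw [h]
  have hcom : IsHom per per c := by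
    refine ⟨{ toFun := C, map_add' := map_add C, map_smul' := ?_ }, hCper⟩
    intro z u
    have e : z • u = z.re • u + z.im • (Complex.I • u) := by
      conv_lhs => rw [← Complex.re_add_im z]
      rw [add_smul, mul_smul, Complex.coe_smul, Complex.coe_smul]
    have e' : z • C u = z.re • C u + z.im • (Complex.I • C u) := by
      conv_lhs => rw [← Complex.re_add_im z]
      rw [add_smul, mul_smul, Complex.coe_smul, Complex.coe_smul]
    rw [RingHom.id_apply, e, e', map_add, map_smul, map_smul, hCI]
  -- the form `E` is killed by `x`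
  have hE0 : ∀ v w, E (x v) w + E v (x w) = 0 := by
    have halt : ∀ v, E v v = 0 := fun v => cast_inj (by
      rw [← hEp, hEE, EB_apply]
      have h := g2 (per v) (per v)
      have h' := congrArg Complex.im h
      rw [Complex.conj_im] at h'
      push_cast
      linarith)
    have E1 : ∀ a b c, E (a + b) c = E a c + E b c := fun a b c => LinearMap.map_add₂ EQ a b c
    have E2 : ∀ (r : ℚ) a c, E (r • a) c = r * E a c := fun r a c => LinearMap.map_smul₂ EQ r a c
    have E3 : ∀ a b c, E a (b + c) = E a b + E a c := fun a b c => map_add (EQ a) b c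
    have E4 : ∀ (r : ℚ) a c, E a (r • c) = r * E a c := fun r a c => map_smul (EQ a) r c
    let fE : H [⋀^Fin 2]→ₗ[ℚ] ℚ :=
      { toFun := fun v => E (v 0) (v 1)
        map_update_add' := by
          intro _ m i a b
          fin_cases i
          · simpa using E1 a b (m 1)
          · simpa using E3 (m 0) a b
        map_update_smul' := by
          intro _ m i r a
          fin_cases i
          · simpa using E2 r a (m 1)
          · simpa using E4 r (m 0) a
        map_eq_zero_of_eq' := by
          intro v i j hij hne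
          fin_cases i <;> fin_cases j <;> simp at hne hij ⊢
          · rw [hij]; exact halt _
          · rw [hij]; exact halt _ }
    have hHE : IsHodge per fE := by
      refine ⟨{ toFun := fun u => EE (u 0) (u 1), map_update_add' := ?_, map_update_smul' := ?_ },
        fun v => ?_, fun z hz u => ?_⟩
      · intro _ m i a b
        fin_cases i
        · simp
        · simp
      · intro _ m i r a
        fin_cases i
        · simp
        · simp
      · exact hEp _ _
      · exact EB_inv Ψ g1 g2 z hz _ _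
    intro v w
    exact hx.2 fE hHE v w
  have hcx : ∀ v, c (x v) = x (c v) := fun v => by
    have h := hx.1 c hcom
    exact (LinearMap.congr_fun h v).symm
  rw [← hc, ← hc, hcx]
  exact hE0 _ _

end one

section pow

variable {H T : Type} [AddCommGroup H] [Module ℚ H] [AddCommGroup T] [Module ℂ T]

theorem powPer_single (per : H →+ T) {n : ℕ} (i : Fin n) (v : H) :
    powPer per n (Pi.single i v) = Pi.single i (per v) := by
  funext j
  change per ((Pi.single i v : Fin n → H) j) = _
  by_cases h : j = i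
  · subst h; simp
  · simp [Pi.single_eq_of_ne h]

/-- the operator in each coordinate -/
def dg (n : ℕ) (x : H →ₗ[ℚ] H) : (Fin n → H) →ₗ[ℚ] (Fin n → H) :=
  LinearMap.pi fun i => x ∘ₗ LinearMap.proj i

theorem dg_apply (n : ℕ) (x : H →ₗ[ℚ] H) (v : Fin n → H) (i : Fin n) : dg n x v i = x (v i) := rfl

theorem dg_single (n : ℕ) (x : H →ₗ[ℚ] H) (j : Fin n) (v : H) :
    dg n x (Pi.single j v) = Pi.single j (x v) := by
  funext i
  rw [dg_apply]
  by_cases h : i = j
  · subst h; simp
  · simp [Pi.single_eq_of_ne h]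

theorem ext_single {n : ℕ} {N : Type*} [AddCommGroup N] [Module ℚ N]
    (f g : (Fin n → H) →ₗ[ℚ] N) (h : ∀ j v, f (Pi.single j v) = g (Pi.single j v)) : f = g :=
  LinearMap.pi_ext fun j v => h j v

/-- the matrix entries of an endomorphism are endomorphisms -/
theorem entry {per : H →+ T} {n : ℕ} {a : (Fin n → H) →ₗ[ℚ] (Fin n → H)}
    (ha : IsHom (powPer per n) (powPer per n) a) (i j : Fin n) :
    IsHom per per (LinearMap.proj i ∘ₗ a ∘ₗ LinearMap.single ℚ (fun _ => H) j) := by
  obtain ⟨Ψ, hΨ⟩ := ha
  refine ⟨LinearMap.proj i ∘ₗ Ψ ∘ₗ LinearMap.single ℂ (fun _ => T) j, fun v => ?_⟩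
  change Ψ (Pi.single j (per v)) i = per (a (Pi.single j v) i)
  rw [← powPer_single, hΨ]
  rfl

/-- the matrix units are endomorphisms -/
theorem unit_hom (per : H →+ T) {n : ℕ} (i j : Fin n) (a : H →ₗ[ℚ] H) (ha : IsHom per per a) :
    IsHom (powPer per n) (powPer per n)
      (LinearMap.single ℚ (fun _ => H) i ∘ₗ a ∘ₗ LinearMap.proj j) := by
  obtain ⟨Ψ, hΨ⟩ := ha
  refine ⟨LinearMap.single ℂ (fun _ => T) i ∘ₗ Ψ ∘ₗ LinearMap.proj j, fun v => ?_⟩
  change Pi.single i (Ψ (per (v j))) = powPer per n (Pi.single i (a (v j)))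
  rw [powPer_single, hΨ]

theorem id_hom (per : H →+ T) : IsHom per per (LinearMap.id : H →ₗ[ℚ] H) :=
  ⟨LinearMap.id, fun _ => rfl⟩

theorem part1 {per : H →+ T} (hX : IsAV per) (n : ℕ) {x : H →ₗ[ℚ] H} (hx : InLef per x) :
    InLef (powPer per n) (dg n x) := by
  constructor
  · intro a ha
    refine ext_single _ _ fun j v => ?_
    funext i
    have h := LinearMap.congr_fun (hx.1 _ (entry ha i j)) v
    change x (a (Pi.single j v) i) = a (Pi.single j (x v)) i at h
    change x (a (Pi.single j v) i) = a (dg n x (Pi.single j v)) i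
    rw [dg_single, h]
  · rintro f ⟨ψ, h1, h2⟩ v w
    have key : ∀ (i j : Fin n) (a b : H),
        bil f.toMultilinearMap (Pi.single i (x a)) (Pi.single j b) +
          bil f.toMultilinearMap (Pi.single i a) (Pi.single j (x b)) = 0 := by
      intro i j a b
      refine main1 hX hx
        ((bil f.toMultilinearMap).compl₁₂ (LinearMap.single ℚ (fun _ => H) i)
          (LinearMap.single ℚ (fun _ => H) j))
        ((bil ψ).compl₁₂ (LinearMap.single ℝ (fun _ => T) i)
          (LinearMap.single ℝ (fun _ => T) j)) ?_ ?_ a b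
      · intro v w
        change ψ ![Pi.single i (per v), Pi.single j (per w)] = _
        rw [← powPer_single, ← powPer_single]
        have h := h1 ![Pi.single i v, Pi.single j w]
        refine Eq.trans (congrArg ψ ?_) h
        funext l
        fin_cases l <;> rfl
      · intro z hz u u'
        change ψ ![Pi.single i (z • u), Pi.single j (z • u')] = ψ ![Pi.single i u, Pi.single j u']
        rw [← h2 z hz ![Pi.single i u, Pi.single j u']]
        refine congrArg ψ ?_
        funext l
        fin_cases l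
        · exact (LinearMap.single ℂ (fun _ => T) i).map_smul z u
        · exact (LinearMap.single ℂ (fun _ => T) j).map_smul z u'
    have hexp : ∀ a b : Fin n → H, bil f.toMultilinearMap a b =
        ∑ i, ∑ j, bil f.toMultilinearMap (Pi.single i (a i)) (Pi.single j (b j)) := by
      intro a b
      have ha : a = ∑ i, Pi.single i (a i) := (Finset.univ_sum_single a).symm
      have hb : b = ∑ i, Pi.single i (b i) := (Finset.univ_sum_single b).symm
      have e : bil f.toMultilinearMap a b = bil f.toMultilinearMap (∑ i, Pi.single i (a i))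
          (∑ i, Pi.single i (b i)) := by rw [← ha, ← hb]
      rw [e, LinearMap.map_sum₂]
      exact Finset.sum_congr rfl fun i _ => map_sum _ _ _
    change bil f.toMultilinearMap (dg n x v) w + bil f.toMultilinearMap v (dg n x w) = 0
    rw [hexp, hexp v, ← Finset.sum_add_distrib]
    refine Finset.sum_eq_zero fun i _ => ?_
    rw [← Finset.sum_add_distrib]
    exact Finset.sum_eq_zero fun j _ => key i j (v i) (w j)

theorem part2 {per : H →+ T} {n : ℕ} (hn : 0 < n)
    {x' : (Fin n → H) →ₗ[ℚ] (Fin n → H)} (hx' : InLef (powPer per n) x') :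
    ∃ x : H →ₗ[ℚ] H, InLef per x ∧ x' = dg n x := by
  set o : Fin n := ⟨0, hn⟩ with ho
  set x : H →ₗ[ℚ] H := LinearMap.proj o ∘ₗ x' ∘ₗ LinearMap.single ℚ (fun _ => H) o with hx
  have hxa : ∀ v, x v = x' (Pi.single o v) o := fun v => rfl
  have hs : ∀ (j : Fin n) (v : H), x' (Pi.single j v) = Pi.single j (x v) := by
    intro j v
    have h := LinearMap.congr_fun (hx'.1 _ (unit_hom per j o LinearMap.id (id_hom per)))
      (Pi.single o v)
    change x' (Pi.single j ((Pi.single o v : Fin n → H) o)) = Pi.single j (x' (Pi.single o v) o)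
      at h
    rwa [Pi.single_eq_same] at h
  refine ⟨x, ⟨?_, ?_⟩, ?_⟩
  · intro a ha
    refine LinearMap.ext fun v => ?_
    have h := LinearMap.congr_fun (hx'.1 _ (unit_hom per o o a ha)) (Pi.single o v)
    change x' (Pi.single o (a ((Pi.single o v : Fin n → H) o))) =
      Pi.single o (a (x' (Pi.single o v) o)) at h
    rw [Pi.single_eq_same, hs, hs, Pi.single_eq_same] at h
    have h' := congrFun h o
    rw [Pi.single_eq_same, Pi.single_eq_same] at h'
    exact h'
  · rintro f ⟨ψ, h1, h2⟩ v w
    have hH : IsHodge (powPer per n) (f.compLinearMap (LinearMap.proj o)) := by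
      refine ⟨ψ.compLinearMap fun _ => LinearMap.proj o, fun v => ?_, fun z hz u => ?_⟩
      · exact h1 fun l => v l o
      · exact h2 z hz fun l => u l o
    have h := hx'.2 _ hH (Pi.single o v) (Pi.single o w)
    rw [hs, hs] at h
    have e : ∀ a b : H, (f.compLinearMap (LinearMap.proj o : (Fin n → H) →ₗ[ℚ] H))
        ![(Pi.single o a : Fin n → H), (Pi.single o b : Fin n → H)] = f ![a, b] := by
      intro a b
      rw [AlternatingMap.compLinearMap_apply]
      refine congrArg f ?_
      funext l
      fin_cases l <;> simp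
    rwa [e, e] at h
  · refine ext_single _ _ fun j v => ?_
    rw [hs, dg_single]

end pow

end LpL

theorem s_lp : S_LP := by
  intro H T _ _ _ _ per hX n
  exact ⟨fun x hx => LpL.part1 hX n hx, fun hn x' hx' => LpL.part2 hn hx'⟩

end Pool.Agent.H926.T
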