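import Mathlib
import Pool.Agent.H926.T.Jobs

set_option linter.unusedSectionVars false

namespace Pool.Agent.H926.T

open Module

section mov

variable {K : Type} [Field K] {H : Type} [AddCommGroup H] [Module ℚ H] {n : ℕ}

theorem mov_swap (f : H [⋀^Fin n]→ₗ[ℚ] ℚ) (v : Fin n → H) {i j : Fin n} (hij : i ≠ j) (p q : H) :
    f (Function.update (Function.update v i p) j q)
      = - f (Function.update (Function.update v i q) j p) := by
  rw [← f.map_swap _ hij]
  congr 1
  funext k
  by_cases h1 : k = i
  · subst h1
    simp [hij]
  · by_cases h2 : k = j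
    · subst h2
      simp [Function.update_apply, hij]
    · simp [Function.update_apply, h1, h2, Equiv.swap_apply_of_ne_of_ne h1 h2]

theorem mov_base (ι : K →+* Module.End ℚ H) (f : H [⋀^Fin n]→ₗ[ℚ] ℚ)
    (hf : ∀ (a : K) (v : Fin n → H) (k l : Fin n),
      f (Function.update v k (ι a (v k))) = f (Function.update v l (ι a (v l))))
    (v : Fin n → H) {i j : Fin n} (hij : i ≠ j) (a : K) :
    f (Function.update v i (ι a (v j))) = 0 := by
  have h1 := hf a (Function.update v i (v j)) i j
  rw [Function.update_self, Function.update_idem, Function.update_of_ne hij.symm] at h1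
  have h2 := mov_swap f v hij (v j) (ι a (v j))
  have h3 : Function.update (Function.update v i (ι a (v j))) j (v j)
      = Function.update v i (ι a (v j)) := by
    funext k
    by_cases h4 : k = j
    · subst h4
      simp [Function.update_apply, hij.symm]
    · simp [Function.update_apply, h4]
  rw [h3] at h2
  linarith

/-- a movable additive function vanishes at dependent families -/
theorem mov_dep [Module K H] (ι : K →+* Module.End ℚ H) (hι : ∀ (a : K) (v : H), a • v = ι a v)
    (F : (Fin n → H) → ℚ)
    (hadd : ∀ v i x y, F (Function.update v i (x + y))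
      = F (Function.update v i x) + F (Function.update v i y))
    (hb : ∀ (v : Fin n → H) (i j : Fin n), i ≠ j → ∀ a : K,
      F (Function.update v i (ι a (v j))) = 0) (v : Fin n → H) (hv : ¬ LinearIndependent K v) :
    F v = 0 := by
  rw [linearIndependent_iff_notMem_span] at hv
  push Not at hv
  obtain ⟨i, hi⟩ := hv
  have h0 : ∀ v i, F (Function.update v i 0) = 0 := by
    intro v i
    have := hadd v i 0 0
    rw [add_zero] at this
    linarith
  have key : ∀ x ∈ Submodule.span K (v '' (Set.univ \ {i})), ∀ a : K,
      F (Function.update v i (ι a x)) = 0 := by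
    intro x hx
    induction hx using Submodule.span_induction with
    | mem x hx =>
      obtain ⟨j, hj, rfl⟩ := hx
      intro a
      exact hb v i j (fun h => hj.2 h.symm) a
    | zero => intro a; rw [map_zero]; exact h0 _ _
    | add x y _ _ hx hy => intro a; rw [map_add, hadd, hx, hy, add_zero]
    | smul b x _ hx =>
      intro a
      rw [hι, ← Module.End.mul_apply, ← map_mul]
      exact hx _
  have h1 := key (v i) hi 1
  rw [map_one, Module.End.one_apply, Function.update_eq_self] at h1
  exact h1

/-- the derivation -/
def movD (z : H →ₗ[ℚ] H) (f : H [⋀^Fin n]→ₗ[ℚ] ℚ) (v : Fin n → H) : ℚ :=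
  ∑ k, f (Function.update v k (z (v k)))

theorem movD_add (z : H →ₗ[ℚ] H) (f : H [⋀^Fin n]→ₗ[ℚ] ℚ) (v : Fin n → H) (i : Fin n) (x y : H) :
    movD z f (Function.update v i (x + y))
      = movD z f (Function.update v i x) + movD z f (Function.update v i y) := by
  unfold movD
  rw [← Finset.sum_add_distrib]
  refine Finset.sum_congr rfl fun k _ => ?_
  by_cases h : k = i
  · subst h
    simp only [Function.update_self, Function.update_idem, map_add, f.map_update_add]
  · simp only [Function.update_of_ne h]
    rw [Function.update_comm (Ne.symm h), Function.update_comm (Ne.symm h),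
      Function.update_comm (Ne.symm h), f.map_update_add]

theorem movD_base (ι : K →+* Module.End ℚ H) (f : H [⋀^Fin n]→ₗ[ℚ] ℚ)
    (hf : ∀ (a : K) (v : Fin n → H) (k l : Fin n),
      f (Function.update v k (ι a (v k))) = f (Function.update v l (ι a (v l))))
    (z : H →ₗ[ℚ] H) (hz : ∀ a, z ∘ₗ ι a = ι a ∘ₗ z) (v : Fin n → H) {i j : Fin n} (hij : i ≠ j)
    (a : K) : movD z f (Function.update v i (ι a (v j))) = 0 := by
  unfold movD
  have hza : ∀ u, z (ι a u) = ι a (z u) := fun u => LinearMap.congr_fun (hz a) u
  rw [Finset.sum_eq_add i j hij]
  · rw [Function.update_self, Function.update_idem, Function.update_of_ne hij.symm, hza]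
    have h1 := hf a (Function.update v i (z (v j))) i j
    rw [Function.update_self, Function.update_idem, Function.update_of_ne hij.symm] at h1
    rw [h1, mov_swap f v hij]
    ring
  · intro l _ hl
    rw [Function.update_of_ne hl.1, Function.update_comm (Ne.symm hl.1)]
    have h1 := mov_base ι f hf (Function.update v l (z (v l))) hij a
    rw [Function.update_of_ne (Ne.symm hl.2)] at h1
    exact h1
  · intro h; exact absurd (Finset.mem_univ _) h
  · intro h; exact absurd (Finset.mem_univ _) h

end mov

theorem s_mov : S_MOV := by
  intro K _ _ H _ _ _ ι n hn f hf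
  letI : Module K H := Module.compHom H ι
  have hι : ∀ (a : K) (v : H), a • v = ι a v := fun a v => rfl
  haveI : IsScalarTower ℚ K H := by
    constructor
    intro q a v
    rw [hι, hι, Algebra.smul_def, map_mul, Module.End.mul_apply]
    have h1 : ι.comp (algebraMap ℚ K) = algebraMap ℚ (Module.End ℚ H) := RingHom.ext_rat _ _
    have h2 : ι (algebraMap ℚ K q) = algebraMap ℚ (Module.End ℚ H) q := by
      rw [← h1]; rfl
    rw [h2, Module.algebraMap_end_apply]
  haveI : FiniteDimensional K H := FiniteDimensional.right ℚ K H
  have hfin : finrank K H = n := by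
    have h1 := Module.finrank_mul_finrank ℚ K H
    rw [hn, mul_comm n] at h1
    exact Nat.eq_of_mul_eq_mul_left Module.finrank_pos h1
  have hcard : Fintype.card (Fin n) = finrank K H := by rw [Fintype.card_fin, hfin]
  refine ⟨fun S hS hST v hv => ?_, fun x y hx hy v => ?_⟩
  · refine mov_dep ι hι f (fun v i x y => f.map_update_add v i x y)
      (fun v i j hij a => mov_base ι f hf v hij a) v fun hli => hST ?_
    have h1 := hli.span_eq_top_of_card_eq_finrank' hcard
    let S' : Submodule K H := { S with smul_mem' := fun a v hv => hS a v hv }
    have h2 : Submodule.span K (Set.range v) ≤ S' := by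
      rw [Submodule.span_le]
      rintro _ ⟨k, rfl⟩
      exact hv k
    rw [h1, top_le_iff] at h2
    rw [eq_top_iff]
    intro u _
    have : u ∈ S' := by rw [h2]; trivial
    exact this
  · obtain ⟨z, hzdef⟩ : ∃ z, z = x ∘ₗ y - y ∘ₗ x := ⟨_, rfl⟩
    rw [← hzdef]
    have hz : ∀ a, z ∘ₗ ι a = ι a ∘ₗ z := by
      intro a
      refine LinearMap.ext fun u => ?_
      have e1 : ∀ u, x (ι a u) = ι a (x u) := fun u => LinearMap.congr_fun (hx a) u
      have e2 : ∀ u, y (ι a u) = ι a (y u) := fun u => LinearMap.congr_fun (hy a) u
      simp only [hzdef, LinearMap.comp_apply, LinearMap.sub_apply, e1, e2, map_sub]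
    change movD z f v = 0
    by_cases hli : LinearIndependent K v
    · -- a basis
      rcases Nat.eq_zero_or_pos n with h0 | h0
      · subst h0
        exact Finset.sum_empty
      · obtain ⟨k0⟩ : Nonempty (Fin n) := ⟨⟨0, h0⟩⟩
        haveI : Nonempty (Fin n) := ⟨k0⟩
        let b := basisOfLinearIndependentOfCardEqFinrank hli hcard
        have hb : ∀ k, b k = v k := fun k => by
          rw [coe_basisOfLinearIndependentOfCardEqFinrank]
        let X : H →ₗ[K] H :=
          { toFun := x
            map_add' := map_add x
            map_smul' := fun a u => LinearMap.congr_fun (hx a) u }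
        let Y : H →ₗ[K] H :=
          { toFun := y
            map_add' := map_add y
            map_smul' := fun a u => LinearMap.congr_fun (hy a) u }
        obtain ⟨Z, hZ⟩ : ∃ Z, Z = X ∘ₗ Y - Y ∘ₗ X := ⟨_, rfl⟩
        have hZz : ∀ u, Z u = z u := by
          intro u
          rw [hZ, hzdef]; rfl
        have htr : LinearMap.trace K H Z = 0 := by
          rw [hZ, map_sub]
          have := LinearMap.trace_mul_comm K X Y
          change LinearMap.trace K H (X ∘ₗ Y) = LinearMap.trace K H (Y ∘ₗ X) at this
          rw [this, sub_self]
        rw [LinearMap.trace_eq_matrix_trace K b, Matrix.trace] at htr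
        simp only [Matrix.diag_apply, LinearMap.toMatrix_apply] at htr
        have hterm : ∀ k, f (Function.update v k (z (v k)))
            = f (Function.update v k0 (ι (b.repr (Z (b k)) k) (v k0))) := by
          intro k
          have h1 : z (v k) = ∑ j, ι (b.repr (Z (b k)) j) (v j) := by
            rw [← hZz, ← hb k]
            conv_lhs => rw [← b.sum_repr (Z (b k))]
            refine Finset.sum_congr rfl fun j _ => ?_
            rw [hb j, hι]
          rw [h1, f.map_update_sum]
          rw [Finset.sum_eq_single k]
          · exact hf _ _ _ _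
          · intro j _ hj
            exact mov_base ι f hf v (Ne.symm hj) _
          · intro h; exact absurd (Finset.mem_univ _) h
        unfold movD
        rw [Finset.sum_congr rfl fun k _ => hterm k, ← f.map_update_sum, ← LinearMap.sum_apply,
          ← map_sum, htr, map_zero, LinearMap.zero_apply, f.map_update_zero]
    · exact mov_dep ι hι (movD z f) (fun v i x y => movD_add z f v i x y)
        (fun v i j hij a => movD_base ι f hf z hz v hij a) v hli

end Pool.Agent.H926.T
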