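import Mathlib
import Pool.Agent.H926.T.Jobs3
import Pool.Graph.R_pool_sql_team_seeded_1acbe0a2.Y4.P.Top

/-!
# The part without orthogonal submodules
-/

set_option linter.unusedSectionVars false

namespace Pool.Agent.H926.T

open Matrix Module Pool.Agent.Y90 Pool.Agent.W437.HC Pool.Agent.W437.HD
  Pool.Agent.TH504.CB Pool.Agent.W522.U
open Pool.Agent.W548.Odd hiding cv
open Pool.Agent.H204R3.CM (IsHodge)
open Pool.Agent.H204R3.SP (Kills bil2 IsTate)
open Pool.Agent.Y4.P (PD NZ clo_NZ pair_mem det_full)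

noncomputable section

variable {G : ℕ} {Z : Matrix (Fin G) (Fin G) ℂ} {U U' : Submodule ℂ (Fin G ⊕ Fin G → ℂ)}

theorem irE_iff : IrE (GG (LZ Z)) U ↔ IrS (LZ Z) U := by
  unfold IrE IrS StE
  refine and_congr Iff.rfl (and_congr stab_GG (forall_congr' fun W => ?_))
  rw [stab_GG]

/-- Some conjugate of the complex structure is not a scalar. -/
theorem exists_ns (hU : IrS (LZ Z) U) (hn : 2 ≤ finrank ℂ U) :
    ∃ σ : ℂ ≃+* ℂ, ∀ c : ℂ, ∃ u ∈ U, DS Z σ *ᵥ u ≠ c • u := by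
  by_contra hcon
  push Not at hcon
  let C : Submodule ℂ (Matrix (Fin G ⊕ Fin G) (Fin G ⊕ Fin G) ℂ) :=
    { carrier := {X | ∃ c : ℂ, ∀ u ∈ U, X *ᵥ u = c • u}
      add_mem' := by
        rintro X Y ⟨c, hc⟩ ⟨d, hd⟩
        refine ⟨c + d, fun u hu => ?_⟩
        rw [add_mulVec, hc u hu, hd u hu, add_smul]
      zero_mem' := ⟨0, fun u _ => by rw [zero_mulVec, zero_smul]⟩
      smul_mem' := by
        rintro a X ⟨c, hc⟩
        refine ⟨a * c, fun u hu => ?_⟩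
        rw [smul_mulVec, hc u hu, smul_smul] }
  have hC : LZ Z ≤ C := by
    refine LZ_le (fun σ => hcon σ) (fun A hA B hB => ?_)
    obtain ⟨c, hc⟩ := hA
    obtain ⟨d, hd⟩ := hB
    refine ⟨0, fun u hu => ?_⟩
    rw [sub_mulVec, ← mulVec_mulVec, ← mulVec_mulVec, hd u hu, hc u hu, mulVec_smul, mulVec_smul,
      hd u hu, hc u hu, smul_smul, smul_smul, mul_comm, sub_self, zero_smul]
  obtain ⟨u, hu, hu0⟩ := Submodule.exists_mem_ne_zero_of_ne_bot hU.1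
  have hspan : Submodule.span ℂ {u} ≤ U := by
    rw [Submodule.span_singleton_le_iff_mem]
    exact hu
  have hst : Stab (LZ Z) (Submodule.span ℂ {u}) := by
    intro X hX v hv
    obtain ⟨c, hc⟩ := hC hX
    rw [hc v (hspan hv)]
    exact Submodule.smul_mem _ _ hv
  rcases hU.2.2 _ hspan hst with h1 | h1
  · rw [Submodule.span_singleton_eq_bot] at h1
    exact hu0 h1
  · have h2 := finrank_span_singleton (K := ℂ) hu0
    rw [h1] at h2
    omega

section Q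

variable (h : PM Z) {Q : End ℂ (Fin G ⊕ Fin G → ℂ)} (hQ : Q * Q = Q)
  (hQC : ∀ T, ComE (GG (LZ Z)) T → T * Q = Q * T) (hQL : ∀ X ∈ GG (LZ Z), X * Q = Q * X)

include hQ in
theorem q_eq {u : Fin G ⊕ Fin G → ℂ} (hu : u ∈ LinearMap.range Q) : Q u = u := by
  obtain ⟨v, rfl⟩ := hu
  exact LinearMap.congr_fun hQ v

include h hQC hQL in
/-- An irreducible submodule on which `Q` is not zero is contained in the range of `Q`. -/
theorem le_range (hU : IrS (LZ Z) U) (h0 : ∃ u ∈ U, Q u ≠ 0) : U ≤ LinearMap.range Q := by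
  obtain ⟨p, p1, p2, p3⟩ := h.cred U hU.2.1
  have hp : ComE (GG (LZ Z)) p := by
    intro y hy
    obtain ⟨A, hA, rfl⟩ := exists_GG hy
    exact LinearMap.ext fun v => (p1 A hA v).symm
  have hpQ : ∀ v, p (Q v) = Q (p v) := fun v => LinearMap.congr_fun (hQC p hp) v
  obtain ⟨u, hu, hu0⟩ := h0
  have h1 : Q u ∈ U := by
    have h2 := hpQ u
    rw [p3 u hu] at h2
    rw [← h2]
    exact p2 _
  have hst : Stab (LZ Z) (U ⊓ LinearMap.range Q) := by
    rintro X hX _ ⟨hv, v, rfl⟩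
    refine ⟨hU.2.1 X hX _ hv, X *ᵥ v, ?_⟩
    exact (LinearMap.congr_fun (hQL (ph _ X) (mem_GG.2 hX)) v).symm
  rcases hU.2.2 _ inf_le_left hst with h2 | h2
  · exfalso
    have h3 : Q u ∈ U ⊓ LinearMap.range Q := ⟨h1, u, rfl⟩
    rw [h2, Submodule.mem_bot] at h3
    exact hu0 h3
  · exact inf_eq_left.1 h2

include h hQ hQC hQL in
/-- The range of `Q` is a union of isotypic components. -/
theorem le_range_of_tw (hU : IrS (LZ Z) U) (hU' : IrS (LZ Z) U') (hUQ : U ≤ LinearMap.range Q)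
    (hT : Tw (RZ Z) (fun _ => 1) U U') : U' ≤ LinearMap.range Q := by
  obtain ⟨Δ, hΔ, T, hT1, hT0, hT2⟩ := hT
  obtain rfl := fi_top Δ hΔ
  have hT3 := (rz_equiv h hU.2.1 T).1 fun g u hu => by
    have h1 := hT2 g (Subgroup.mem_top g) u hu
    rwa [one_smul] at h1
  obtain ⟨p, p1, p2, p3⟩ := h.cred U hU.2.1
  have hTp : ComE (GG (LZ Z)) (T * p) := by
    intro y hy
    obtain ⟨A, hA, rfl⟩ := exists_GG hy
    refine LinearMap.ext fun v => ?_
    change A *ᵥ (T (p v)) = T (p (A *ᵥ v))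
    rw [p1 A hA, hT3 A hA _ (p2 v)]
  obtain ⟨u, hu, hu0⟩ := hT0
  refine le_range h hQC hQL hU' ⟨T u, hT1 u hu, ?_⟩
  have h1 : T (p (Q u)) = Q (T (p u)) := LinearMap.congr_fun (hQC _ hTp) u
  rw [q_eq hQ (hUQ hu), p3 u hu] at h1
  rw [← h1]
  exact hu0

end Q

/-- The representatives of the irreducible submodules of the range of `Q`. -/
theorem exists_repsQ (h : PM Z) {Q : End ℂ (Fin G ⊕ Fin G → ℂ)} (hQ : Q * Q = Q)
    (hQC : ∀ T, ComE (GG (LZ Z)) T → T * Q = Q * T) (hQL : ∀ X ∈ GG (LZ Z), X * Q = Q * X)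
    (hQω : ∀ u v, om G (Q u) v = om G u (Q v)) :
    ∃ (s : ℕ) (W : Fin s → Submodule ℂ (Fin G ⊕ Fin G → ℂ)) (st : Fin s → Fin s),
      (∀ i, W522.U.SI (RZ Z) (W i)) ∧ (∀ i, W i ≤ LinearMap.range Q) ∧
      (∀ i j, Tw (RZ Z) (fun _ => 1) (W i) (W j) → i = j) ∧
      (∀ U, W522.U.SI (RZ Z) U → U ≤ LinearMap.range Q → ∃ i, Tw (RZ Z) (fun _ => 1) U (W i)) ∧
      (∀ i, st (st i) = i) ∧ (∀ i, Du (RZ Z) 1 (W i) (W (st i))) ∧
      ∀ i j, Du (RZ Z) 1 (W i) (W j) → j = st i := by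
  classical
  have hSI : ∀ {U}, W522.U.SI (RZ Z) U ↔ IrS (LZ Z) U := fun {U} => si_iff h.genI
  obtain ⟨s₀, W₀, hW₀, hWW₀, hall₀⟩ := exists_reps (rz_proj h)
  let e := (Fintype.equivFin {i : Fin s₀ // W₀ i ≤ LinearMap.range Q}).symm
  let W : Fin (Fintype.card {i : Fin s₀ // W₀ i ≤ LinearMap.range Q}) →
    Submodule ℂ (Fin G ⊕ Fin G → ℂ) := fun i => W₀ (e i)
  have hW : ∀ i, W522.U.SI (RZ Z) (W i) := fun i => hW₀ _
  have hWQ : ∀ i, W i ≤ LinearMap.range Q := fun i => (e i).2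
  have hWW : ∀ i j, Tw (RZ Z) (fun _ => 1) (W i) (W j) → i = j := fun i j hij =>
    e.injective (Subtype.ext (hWW₀ _ _ hij))
  have hall : ∀ U, W522.U.SI (RZ Z) U → U ≤ LinearMap.range Q →
      ∃ i, Tw (RZ Z) (fun _ => 1) U (W i) := by
    intro U hU hUQ
    obtain ⟨i, hi⟩ := hall₀ U hU
    refine ⟨e.symm ⟨i, le_range_of_tw h hQ hQC hQL (hSI.1 hU) (hSI.1 (hW₀ i)) hUQ hi⟩, ?_⟩
    change Tw (RZ Z) (fun _ => 1) U (W₀ (e (e.symm _)))
    rw [Equiv.apply_symm_apply]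
    exact hi
  have h1 : ∀ i, ∃ j, Du (RZ Z) 1 (W i) (W j) := by
    intro i
    obtain ⟨u, hu, hu0⟩ := Submodule.exists_mem_ne_zero_of_ne_bot (hW i).1
    obtain ⟨U, hU, v, hv, huv⟩ := exists_ne_on (rz_proj h) ((om G u).comp Q) (fun h0 =>
      hu0 (om_nd u fun v => by
        have h2 : om G u (Q v) = 0 := LinearMap.congr_fun h0 v
        rw [← hQω, q_eq hQ (hWQ i hu)] at h2
        exact h2))
    have hUQ : U ≤ LinearMap.range Q := le_range h hQC hQL (hSI.1 hU) ⟨v, hv, fun h0 => huv (by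
      rw [LinearMap.comp_apply, h0, map_zero])⟩
    have huv' : om G u v ≠ 0 := by
      rw [LinearMap.comp_apply, q_eq hQ (hUQ hv)] at huv
      exact huv
    obtain ⟨j, hj⟩ := hall U hU hUQ
    have h2 : Du (RZ Z) 1 U (W i) := Du.symm ⟨⊤, inferInstance, om G, ⟨u, hu, v, hv, huv'⟩,
      fun g _ u _ v _ => rz_om h g u v⟩
    exact ⟨j, ((hj.symm1 hU (hW j)).du hU (hW j) h2).symm⟩
  choose st hst using h1
  have h2 : ∀ i j, Du (RZ Z) 1 (W i) (W j) → j = st i := fun i j hij =>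
    hWW _ _ (hij.tw (hW i) (hW j) (hW (st i)) (hst i))
  exact ⟨_, W, st, hW, hWQ, hWW, hall, fun i => (h2 (st i) i (hst i).symm).symm, hst, h2⟩

/-- Elements of rank one. -/
theorem rk1Q (h2 : S_RK1) (h : PM Z) (hB : LB (GG (LZ Z)) (om G)) (hU : IrS (LZ Z) U)
    (hO : ¬OrtE (GG (LZ Z)) U) (hn : 2 ≤ finrank ℂ U) :
    ∃ γ : Gam (GG (LZ Z)), (RZ Z γ - 1) * (RZ Z γ - 1) = 0 ∧
      finrank ℂ (U.map (RZ Z γ - 1)) = 1 := by
  obtain ⟨σ, hσ⟩ := exists_ns hU hn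
  obtain ⟨N, hN, e1, e2, e3⟩ := h2 _ (GG (LZ Z)) (om G) hB U (irE_iff.2 hU) hO (ph _ (DS Z σ))
    (phDS_mem σ) (phDS_sq h σ) hσ
  obtain ⟨γ, hγ⟩ := unip_mem (phDS_sq h σ) (phDS_mem σ) hN e1 e2
  have h4 : RZ Z γ - 1 = N := by
    change RG (GG (LZ Z)) γ - 1 = _
    rw [hγ, add_sub_cancel_left]
  refine ⟨γ, ?_, ?_⟩
  · rw [h4]
    have h6 : N * N = -(N * N) := by
      calc N * N = N * (ph _ (DS Z σ) * N) := by rw [e1]
        _ = (N * ph _ (DS Z σ)) * N := by rw [mul_assoc]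
        _ = -(N * N) := by rw [e2]; exact neg_mul N N
    have h7 : (2 : ℂ) • (N * N) = 0 := by
      rw [two_smul]
      nth_rewrite 1 [h6]
      rw [neg_add_cancel]
    exact (smul_eq_zero.1 h7).resolve_left two_ne_zero
  · rw [h4]
    exact e3

/-- Twists. -/
theorem twQ (h3 : S_TWI) (h : PM Z) (hB : LB (GG (LZ Z)) (om G)) (hU : IrS (LZ Z) U)
    (hU' : IrS (LZ Z) U') (hO : ¬OrtE (GG (LZ Z)) U) (hn : 2 ≤ finrank ℂ U)
    (ψ : Gam (GG (LZ Z)) → ℂ) (hT : Tw (RZ Z) ψ U U') :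
    Tw (RZ Z) (fun _ => 1) U U' ∨ (finrank ℂ U = 2 ∧ Du (RZ Z) 1 U U') := by
  obtain ⟨σ, hσ⟩ := exists_ns hU hn
  obtain ⟨T, hT1, hT0, hinj, hmap, hdich⟩ := Pool.Agent.Y4.Q.tw_split h hU hU' ψ hT
  let C : Submodule ℂ (Matrix (Fin G ⊕ Fin G) (Fin G ⊕ Fin G) ℂ) :=
    { carrier := {X | (∀ u ∈ U, X *ᵥ u ∈ U) ∧ ∃ c : ℂ, ∀ u ∈ U, T (X *ᵥ u) = X *ᵥ T u + c • T u}
      add_mem' := by
        rintro X Y ⟨x1, c, hc⟩ ⟨y1, d, hd⟩
        refine ⟨fun u hu => ?_, c + d, fun u hu => ?_⟩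
        · rw [add_mulVec]
          exact U.add_mem (x1 u hu) (y1 u hu)
        · rw [add_mulVec, add_mulVec, map_add, hc u hu, hd u hu]
          module
      zero_mem' := ⟨fun u _ => by
        rw [zero_mulVec]
        exact U.zero_mem, 0, fun u _ => by rw [zero_mulVec, zero_mulVec, map_zero]; module⟩
      smul_mem' := by
        rintro a X ⟨x1, c, hc⟩
        refine ⟨fun u hu => ?_, a * c, fun u hu => ?_⟩
        · rw [smul_mulVec]
          exact U.smul_mem a (x1 u hu)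
        · rw [smul_mulVec, smul_mulVec, map_smul, hc u hu]
          module }
  have hC : LZ Z ≤ C := by
    refine LZ_le (fun σ => ⟨hU.2.1 _ (DS_mem σ), ?_⟩) (fun A hA B hB => ?_)
    · rcases hdich σ with e1 | ⟨c, c', e1, e2⟩
      · exact ⟨0, fun u hu => by rw [e1 u hu, zero_smul, add_zero]⟩
      · refine ⟨c - c', fun u hu => ?_⟩
        rw [e1 u hu, map_smul, e2 _ (hT1 u hu)]
        module
    · obtain ⟨a1, c, hc⟩ := hA
      obtain ⟨b1, d, hd⟩ := hB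
      refine ⟨fun u hu => ?_, 0, fun u hu => ?_⟩
      · rw [sub_mulVec, ← mulVec_mulVec, ← mulVec_mulVec]
        exact U.sub_mem (a1 _ (b1 u hu)) (b1 _ (a1 u hu))
      · rw [sub_mulVec, sub_mulVec, ← mulVec_mulVec, ← mulVec_mulVec, ← mulVec_mulVec,
          ← mulVec_mulVec, map_sub, hc _ (b1 u hu), hd _ (a1 u hu), hc u hu, hd u hu,
          mulVec_add, mulVec_add, mulVec_smul, mulVec_smul]
        module
  rcases h3 _ (GG (LZ Z)) (om G) hB U U' (irE_iff.2 hU) (irE_iff.2 hU') hO (ph _ (DS Z σ))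
    (phDS_mem σ) (phDS_sq h σ) hσ T (fun y hy => by
      obtain ⟨A, hA, rfl⟩ := exists_GG hy
      exact (hC hA).2) hinj hmap with ⟨S, s1, s2, s3⟩ | ⟨e1, b, b1, b2⟩
  · left
    refine ⟨⊤, inferInstance, S, s2, s3, fun g _ u hu => ?_⟩
    rw [one_smul]
    exact (rz_equiv h hU.2.1 S).2 (fun X hX u hu => s1 (ph _ X) (mem_GG.2 hX) u hu) g u hu
  · right
    refine ⟨e1, (rz_du h hU.2.1 hU'.2.1).2 ⟨b, b2, fun X hX u hu v hv => ?_⟩⟩
    exact b1 (ph _ X) (mem_GG.2 hX) u hu v hv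

theorem s_non (h1 : S_FORMQ) (h2 : S_RK1) (h3 : S_TWI) (h4 : S_PD) : S_NON := by
  classical
  intro G Z h hB Q hQ hQC hQL hQω hno κ _ _ ψ hψ hsup
  have hSI : ∀ {U}, W522.U.SI (RZ Z) U ↔ IrS (LZ Z) U := fun {U} => si_iff h.genI
  have hinv : ∀ (g : Gam (GG (LZ Z))) (v : κ → Fin G ⊕ Fin G → ℂ),
      ψ (fun k => RZ Z g (v k)) = ψ v := fun g v => inv_gam ψ (fun D hD _ => hψ D hD) g v
  obtain ⟨s, W, st, hW, hWQ, hWW, hall, hst, hDu, hDu'⟩ := exists_repsQ h hQ hQC hQL hQω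
  rcases Nat.even_or_odd (Fintype.card κ) with he | ho
  · obtain ⟨m, hm⟩ := he
    have e : κ ≃ Fin m × Fin 2 := Fintype.equivOfCardEq (by
      rw [Fintype.card_prod, Fintype.card_fin, Fintype.card_fin, hm]
      ring)
    have h5 : ψ.domDomCongr e ∈ NZ Z (Fin m × Fin 2) := by
      refine h1 (Fin G ⊕ Fin G → ℂ) (Gam (GG (LZ Z))) (RZ Z) (fun Δ hΔ => fi_top Δ hΔ) (om G) om_nd
        (rz_om h) Q hQ ?_ hQω ?_ ?_ ?_ (rz_proj h) s W hW hWQ hWW hall st hst hDu hDu'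
        (fun κ _ => NZ Z κ) (clo_NZ Z) (pair_mem h) ?_ m _ ?_ ?_
      · intro g v
        exact (rz_equiv h stab_top Q).2 (fun X hX u _ =>
          (LinearMap.congr_fun (hQL (ph _ X) (mem_GG.2 hX)) u).symm) g v trivial
      · intro U hU hUQ hn
        exact rk1Q h2 h hB (hSI.1 hU) (hno U (irE_iff.2 (hSI.1 hU)) hUQ) hn
      · intro U hU _ hn
        exact rz_line h (hSI.1 hU) hn
      · intro U U' hU hU' hUQ _ hn _ χ hT
        exact twQ h3 h hB (hSI.1 hU) (hSI.1 hU') (hno U (irE_iff.2 (hSI.1 hU)) hUQ) hn χ hT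
      · intro a ha hdet ι _ _ f q hq ψ hψ
        exact det_full Pool.Agent.Y4.P.jweil' Pool.Agent.Y317.P.Fld.x
          Pool.Agent.Y317.P.Idem.x Pool.Agent.Y977.P.jtrace h W (fun i => hSI.1 (hW i)) st hst hDu
          a ha (fun i _ => h4 G Z h (W i) (hSI.1 (hW i))) hdet ι f q hq ψ hψ
      · intro g v
        rw [MultilinearMap.domDomCongr_apply, MultilinearMap.domDomCongr_apply]
        exact hinv g _
      · intro v
        rw [MultilinearMap.domDomCongr_apply, MultilinearMap.domDomCongr_apply]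
        exact hsup _
    exact (clo_NZ Z).reindex e.symm h5 ψ fun v => by
      rw [MultilinearMap.domDomCongr_apply]
      congr 1
      funext k
      simp
  · have h0 : ψ = 0 := by
      refine MultilinearMap.ext fun v => ?_
      have h1 := hinv (gt (D := ph _ (DZ Z)) (by rw [← map_mul, DZ_sq h.det, map_one])
        (mem_GG.2 DZ_mem) (-1)) v
      have h2 : (fun k => RZ Z (gt (D := ph _ (DZ Z)) (by rw [← map_mul, DZ_sq h.det, map_one])
        (mem_GG.2 DZ_mem) (-1)) (v k)) = fun k => (-1 : ℂ) • v k := by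
        funext k
        change torE (ph _ (DZ Z)) (-1) (v k) = _
        rw [torE_apply]
        simp only [Units.val_neg, Units.val_one, inv_neg, inv_one]
        module
      rw [h2, MultilinearMap.map_smul_univ, Finset.prod_const, Finset.card_univ,
        Odd.neg_one_pow ho, neg_one_smul] at h1
      have h3 : ψ v = 0 := by linear_combination (-1 / 2 : ℂ) * h1
      rw [h3]
      rfl
    rw [h0]
    exact Submodule.zero_mem _

end

end Pool.Agent.H926.T
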