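import Pool.Agent.H926.T.Jobs3

/-!
# S_O3: orthogonal irreducible submodules have dimension at least three
-/

namespace Pool.Agent.H926.T

open Module

theorem s_o3 : S_O3 := by
  intro V _ _ _ L U hU hO D hD hD2
  obtain ⟨hne, hst, hirr⟩ := hU
  obtain ⟨b, hinv, ⟨u₀, hu₀, v₀, hv₀, hb₀⟩, hsym⟩ := hO
  by_contra hlt
  push Not at hlt
  have hDD : ∀ u, D (D u) = u := fun u => by
    have := congrArg (fun f : End ℂ V => f u) hD2
    simpa using this
  -- nondegeneracy
  have hnd : ∀ u ∈ U, (∀ v ∈ U, b u v = 0) → u = 0 := by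
    let K : Submodule ℂ V :=
      { carrier := {u | u ∈ U ∧ ∀ v ∈ U, b u v = 0}
        zero_mem' := ⟨U.zero_mem, fun v _ => by simp⟩
        add_mem' := by
          rintro x y ⟨hx, hx'⟩ ⟨hy, hy'⟩
          exact ⟨U.add_mem hx hy, fun v hv => by simp [hx' v hv, hy' v hv]⟩
        smul_mem' := by
          rintro c x ⟨hx, hx'⟩
          exact ⟨U.smul_mem c hx, fun v hv => by simp [hx' v hv]⟩ }
    have hKU : K ≤ U := fun x hx => hx.1
    have hKs : StE L K := by
      rintro X hX u ⟨hu, hu'⟩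
      refine ⟨hst X hX u hu, fun v hv => ?_⟩
      have h1 := hinv X hX u hu v hv
      rw [hu' _ (hst X hX v hv), add_zero] at h1
      exact h1
    rcases hirr K hKU hKs with h | h
    · intro u hu hu'
      have : u ∈ K := ⟨hu, hu'⟩
      rw [h] at this
      simpa using this
    · exfalso
      have : u₀ ∈ K := by rw [h]; exact hu₀
      exact hb₀ (this.2 v₀ hv₀)
  -- vectors of the same eigenvalue are orthogonal
  have hiso : ∀ e : ℂ, e ≠ 0 → ∀ u ∈ U, ∀ v ∈ U, D u = e • u → D v = e • v → b u v = 0 := by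
    intro e he u hu v hv h1 h2
    have h := hinv D hD u hu v hv
    rw [h1, h2] at h
    simp only [map_smul, LinearMap.smul_apply, smul_eq_mul] at h
    have h' : 2 * e * b u v = 0 := by linear_combination h
    rcases mul_eq_zero.1 h' with h3 | h3
    · exact absurd h3 (mul_ne_zero two_ne_zero he)
    · exact h3
  -- an eigenvector
  have hp : ∃ p ∈ U, p ≠ 0 ∧ D p = p := by
    by_contra hcon
    push Not at hcon
    have hm : ∀ u ∈ U, D u = (-1 : ℂ) • u := by
      intro u hu
      by_contra h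
      have hmem : u + D u ∈ U := U.add_mem hu (hst D hD u hu)
      refine hcon (u + D u) hmem (fun h0 => h ?_) ?_
      · rw [neg_smul, one_smul]
        exact eq_neg_of_add_eq_zero_right h0
      · rw [map_add, hDD, add_comm]
    exact hb₀ (hiso (-1) (by norm_num) u₀ hu₀ v₀ hv₀ (hm u₀ hu₀) (hm v₀ hv₀))
  obtain ⟨p, hpU, hp0, hDp⟩ := hp
  have hpp : b p p = 0 := hiso 1 one_ne_zero p hpU p hpU (by simp [hDp]) (by simp [hDp])
  let f : U →ₗ[ℂ] ℂ := (b.flip p).comp U.subtype
  have hfap : ∀ u : U, f u = b u p := fun u => rfl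
  have hf0 : f ≠ 0 := by
    intro h
    refine hp0 (hnd p hpU fun v hv => ?_)
    rw [hsym p hpU v hv]
    have := hfap ⟨v, hv⟩
    rw [h] at this
    simpa using this.symm
  have hker : finrank ℂ (LinearMap.ker f) + 1 = finrank ℂ U :=
    Module.Dual.finrank_ker_add_one_of_ne_zero hf0
  have hle : finrank ℂ (LinearMap.ker f) ≤ 1 := by omega
  obtain ⟨w, hw⟩ := finrank_le_one_iff.1 hle
  have hline : ∀ u ∈ U, b u p = 0 → ∃ c : ℂ, u = c • p := by
    intro u hu hup
    obtain ⟨c, hc⟩ := hw ⟨⟨p, hpU⟩, by rw [LinearMap.mem_ker, hfap]; exact hpp⟩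
    obtain ⟨c', hc'⟩ := hw ⟨⟨u, hu⟩, by rw [LinearMap.mem_ker, hfap]; exact hup⟩
    have hc1 : c • ((w : U) : V) = p := by
      have := congrArg (fun x : LinearMap.ker f => ((x : U) : V)) hc
      simpa using this
    have hc2 : c' • ((w : U) : V) = u := by
      have := congrArg (fun x : LinearMap.ker f => ((x : U) : V)) hc'
      simpa using this
    have hc0 : c ≠ 0 := by
      rintro rfl
      exact hp0 (by rw [← hc1, zero_smul])
    refine ⟨c' * c⁻¹, ?_⟩
    rw [← hc1, smul_smul, mul_assoc, inv_mul_cancel₀ hc0, mul_one, hc2]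
  have hWs : StE L (ℂ ∙ p) := by
    intro X hX u hu
    obtain ⟨a, rfl⟩ := Submodule.mem_span_singleton.1 hu
    have hXp : b (X p) p = 0 := by
      have h := hinv X hX p hpU p hpU
      rw [hsym p hpU (X p) (hst X hX p hpU)] at h
      have h' : 2 * b (X p) p = 0 := by linear_combination h
      rcases mul_eq_zero.1 h' with h3 | h3
      · exact absurd h3 two_ne_zero
      · exact h3
    obtain ⟨c, hc⟩ := hline (X p) (hst X hX p hpU) hXp
    rw [map_smul, hc, smul_smul]
    exact Submodule.smul_mem _ _ (Submodule.mem_span_singleton_self p)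
  have hWU : ℂ ∙ p ≤ U := by
    rw [Submodule.span_singleton_le_iff_mem]
    exact hpU
  rcases hirr _ hWU hWs with h | h
  · exact hp0 (by simpa using h)
  · have hall : ∀ u ∈ U, ∃ a : ℂ, u = a • p := by
      intro u hu
      rw [← h] at hu
      obtain ⟨a, ha⟩ := Submodule.mem_span_singleton.1 hu
      exact ⟨a, ha.symm⟩
    obtain ⟨a, rfl⟩ := hall u₀ hu₀
    obtain ⟨a', rfl⟩ := hall v₀ hv₀
    apply hb₀
    simp [hpp]

end Pool.Agent.H926.T
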