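import Mathlib
import Pool.Graph.R_seed8.Y90.Clo
import Pool.Graph.R_seed8.H204R3.SP.Lie

/-!
# The first fundamental theorem for the orthogonal Lie algebra
-/

set_option linter.unusedSectionVars false

namespace Pool.Agent.H926.T

open Module Equiv Pool.Agent.H204R3.SP Pool.Agent.Y90

noncomputable section

variable {K : Type*} [Field K] [CharZero K] {U : Type*} [AddCommGroup U] [Module K U] {n : ℕ}

/-- The infinitesimal rotations. -/
def Ro (e : Basis (Fin n) K U) (i j : Fin n) : Module.End K U :=
  e.constr K fun p => if p = j then e i else if p = i then -e j else 0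

section ro

variable (e : Basis (Fin n) K U) {i j : Fin n}

theorem Ro_j : Ro e i j (e j) = e i := by
  unfold Ro
  rw [Basis.constr_basis, if_pos rfl]

theorem Ro_i (h : i ≠ j) : Ro e i j (e i) = -e j := by
  unfold Ro
  rw [Basis.constr_basis, if_neg h, if_pos rfl]

theorem Ro_o {l : Fin n} (hi : l ≠ i) (hj : l ≠ j) : Ro e i j (e l) = 0 := by
  unfold Ro
  rw [Basis.constr_basis, if_neg hj, if_neg hi]

theorem Ro_sum {M : Type*} [AddCommGroup M] [Module K M] (h : i ≠ j) (G : U →ₗ[K] U →ₗ[K] M) :
    ∑ p, (G (Ro e i j (e p)) (e p) + G (e p) (Ro e i j (e p))) = 0 := by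
  rw [Finset.sum_eq_add i j h]
  · rw [Ro_i e h, Ro_j e]
    simp only [map_neg, LinearMap.neg_apply]
    abel
  · intro p _ hp
    rw [Ro_o e hp.1 hp.2]
    simp
  · intro h0
    exact absurd (Finset.mem_univ _) h0
  · intro h0
    exact absurd (Finset.mem_univ _) h0

end ro

/-- The form is killed by the rotations. -/
def KR (e : Basis (Fin n) K U) {κ : Type*} [Fintype κ] [DecidableEq κ]
    (φ : MultilinearMap K (fun _ : κ => U) K) : Prop :=
  ∀ i j : Fin n, i ≠ j → Kills (Ro e i j) φ

variable {e : Basis (Fin n) K U} {κ : Type} [Fintype κ] [DecidableEq κ]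
  {φ : MultilinearMap K (fun _ : κ => U) K}

theorem KR.perm (hφ : KR e φ) {κ' : Type*} [Fintype κ'] [DecidableEq κ'] (s : κ ≃ κ') :
    KR e (φ.domDomCongr s) := by
  intro i j hij v
  rw [← hφ i j hij fun k => v (s k), ← s.sum_comp]
  refine Finset.sum_congr rfl fun k _ => ?_
  rw [MultilinearMap.domDomCongr_apply]
  congr 1
  funext k'
  by_cases hk : k' = k
  · subst hk
    rw [Function.update_self, Function.update_self]
  · rw [Function.update_of_ne hk, Function.update_of_ne fun h => hk (s.injective h)]

theorem KR.add {φ' : MultilinearMap K (fun _ : κ => U) K} (hφ : KR e φ) (hφ' : KR e φ') :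
    KR e (φ + φ') := by
  intro i j hij v
  have h1 := hφ i j hij v
  have h2 := hφ' i j hij v
  have h3 : ∑ k, (φ + φ') (Function.update v k (Ro e i j (v k))) =
      ∑ k, φ (Function.update v k (Ro e i j (v k))) +
        ∑ k, φ' (Function.update v k (Ro e i j (v k))) := by
    rw [← Finset.sum_add_distrib]
    rfl
  rw [h3, h1, h2, add_zero]

theorem KR.smul (hφ : KR e φ) (c : K) : KR e (c • φ) := by
  intro i j hij v
  have h1 := hφ i j hij v
  have h3 : ∑ k, (c • φ) (Function.update v k (Ro e i j (v k))) =
      c * ∑ k, φ (Function.update v k (Ro e i j (v k))) := by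
    rw [Finset.mul_sum]
    rfl
  rw [h3, h1, mul_zero]

theorem KR.zero : KR e (0 : MultilinearMap K (fun _ : κ => U) K) := by
  intro i j _ v
  exact Finset.sum_eq_zero fun k _ => rfl

theorem KR.neg (hφ : KR e φ) : KR e (-φ) := by
  have h := hφ.smul (-1 : K)
  rwa [neg_one_smul K φ] at h

theorem KR.sum {ι : Type*} (s : Finset ι) (f : ι → MultilinearMap K (fun _ : κ => U) K)
    (h : ∀ i ∈ s, KR e (f i)) : KR e (∑ i ∈ s, f i) := by
  classical
  induction s using Finset.induction_on with
  | empty =>
    rw [Finset.sum_empty]
    exact KR.zero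
  | insert a s ha ih =>
    rw [Finset.sum_insert ha]
    exact (h a (Finset.mem_insert_self _ _)).add
      (ih fun i hi => h i (Finset.mem_insert_of_mem hi))

/-- The relation on the values. -/
theorem KR.rel (hφ : KR e φ) {i j : Fin n} (hij : i ≠ j) (l : κ → Fin n) :
    ∑ k, (if l k = j then φ (fun m => e (Function.update l k i m)) else
      if l k = i then -φ (fun m => e (Function.update l k j m)) else 0) = 0 := by
  refine Eq.trans ?_ (hφ i j hij fun k => e (l k))
  have hupd : ∀ (k : κ) (p : Fin n), (fun m => e (Function.update l k p m)) =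
      Function.update (fun k => e (l k)) k (e p) := by
    intro k p
    funext m
    by_cases h : m = k
    · subst h
      rw [Function.update_self, Function.update_self]
    · rw [Function.update_of_ne h, Function.update_of_ne h]
  refine Finset.sum_congr rfl fun k _ => ?_
  by_cases h1 : l k = j
  · rw [if_pos h1, h1, Ro_j, hupd]
  · rw [if_neg h1]
    by_cases h2 : l k = i
    · rw [if_pos h2, h2, Ro_i e hij, hupd, MultilinearMap.map_update_neg]
    · rw [if_neg h2, Ro_o e h2 h1]
      exact (MultilinearMap.map_coord_zero φ k (by
        rw [Function.update_self])).symm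

/-- The contraction of two variables. -/
def con (e : Basis (Fin n) K U) (φ : MultilinearMap K (fun _ : κ => U) K) (a b : κ) :
    MultilinearMap K (fun _ : {l : κ // l ≠ a ∧ l ≠ b} => U) K :=
  ∑ i, φ.domDomRestrict (fun l => l ≠ a ∧ l ≠ b) fun _ => e i

/-- The extension of a tuple. -/
def fil (a b : κ) (x y : U) (v : {l : κ // l ≠ a ∧ l ≠ b} → U) : κ → U :=
  fun l => if h : l ≠ a ∧ l ≠ b then v ⟨l, h⟩ else if l = a then x else y

theorem fil_a (a b : κ) (x y : U) (v : {l : κ // l ≠ a ∧ l ≠ b} → U) : fil a b x y v a = x := by
  unfold fil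
  rw [dif_neg (by simp), if_pos rfl]

theorem fil_b {a b : κ} (hab : a ≠ b) (x y : U) (v : {l : κ // l ≠ a ∧ l ≠ b} → U) :
    fil a b x y v b = y := by
  unfold fil
  rw [dif_neg (by simp), if_neg hab.symm]

theorem fil_o (a b : κ) (x y : U) (v : {l : κ // l ≠ a ∧ l ≠ b} → U)
    (l : {l : κ // l ≠ a ∧ l ≠ b}) : fil a b x y v l = v l := by
  unfold fil
  rw [dif_pos l.2]

theorem fil_ext {a b : κ} (hab : a ≠ b) (x y : U) (v : {l : κ // l ≠ a ∧ l ≠ b} → U) (w : κ → U)
    (h1 : w a = x) (h2 : w b = y) (h3 : ∀ l : {l : κ // l ≠ a ∧ l ≠ b}, w l = v l) :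
    fil a b x y v = w := by
  funext l
  by_cases ha : l = a
  · rw [ha, fil_a, h1]
  · by_cases hb : l = b
    · rw [hb, fil_b hab, h2]
    · exact (fil_o a b x y v ⟨l, ha, hb⟩).trans (h3 ⟨l, ha, hb⟩).symm

theorem con_apply (a b : κ) (v : {l : κ // l ≠ a ∧ l ≠ b} → U) :
    con e φ a b v = ∑ i, φ (fil a b (e i) (e i) v) := by
  unfold con
  rw [_root_.sum_apply]
  refine Finset.sum_congr rfl fun i _ => ?_
  rw [MultilinearMap.domDomRestrict_apply]
  congr 1
  funext l
  unfold fil
  split_ifs <;> rfl

theorem KR.con (hφ : KR e φ) {a b : κ} (hab : a ≠ b) : KR e (con e φ a b) := by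
  intro i j hij v
  have h1 : ∀ p, ∑ l : {l : κ // l ≠ a ∧ l ≠ b},
      φ (fil a b (e p) (e p) (Function.update v l (Ro e i j (v l)))) =
      -(φ (fil a b (Ro e i j (e p)) (e p) v) + φ (fil a b (e p) (Ro e i j (e p)) v)) := by
    intro p
    have h2 := hφ i j hij (fil a b (e p) (e p) v)
    rw [← Finset.add_sum_erase _ _ (Finset.mem_univ a), ← Finset.add_sum_erase _ _
      (Finset.mem_erase.2 ⟨hab.symm, Finset.mem_univ b⟩)] at h2
    have h3 : ∑ l ∈ (Finset.univ.erase a).erase b, φ (Function.update (fil a b (e p) (e p) v) l
        (Ro e i j (fil a b (e p) (e p) v l))) = ∑ l : {l : κ // l ≠ a ∧ l ≠ b},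
      φ (fil a b (e p) (e p) (Function.update v l (Ro e i j (v l)))) := by
      rw [Finset.sum_subtype ((Finset.univ.erase a).erase b) (p := fun l => l ≠ a ∧ l ≠ b)
        (fun l => by simp [and_comm])]
      refine Finset.sum_congr rfl fun l _ => ?_
      rw [fil_o]
      congr 1
      symm
      refine fil_ext hab _ _ _ _ ?_ ?_ fun m => ?_
      · rw [Function.update_of_ne l.2.1.symm, fil_a]
      · rw [Function.update_of_ne l.2.2.symm, fil_b hab]
      · by_cases hm : m = l
        · rw [hm, Function.update_self, Function.update_self]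
        · rw [Function.update_of_ne hm, Function.update_of_ne fun h => hm (Subtype.ext h), fil_o]
    rw [h3] at h2
    have h4 : Function.update (fil a b (e p) (e p) v) a
        (Ro e i j (fil a b (e p) (e p) v a)) = fil a b (Ro e i j (e p)) (e p) v := by
      symm
      refine fil_ext hab _ _ _ _ ?_ ?_ fun m => ?_
      · rw [Function.update_self, fil_a]
      · rw [Function.update_of_ne hab.symm, fil_b hab]
      · rw [Function.update_of_ne m.2.1, fil_o]
    have h5 : Function.update (fil a b (e p) (e p) v) b
        (Ro e i j (fil a b (e p) (e p) v b)) = fil a b (e p) (Ro e i j (e p)) v := by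
      symm
      refine fil_ext hab _ _ _ _ ?_ ?_ fun m => ?_
      · rw [Function.update_of_ne hab, fil_a]
      · rw [Function.update_self, fil_b hab]
      · rw [Function.update_of_ne m.2.2, fil_o]
    rw [h4, h5] at h2
    linear_combination h2
  simp only [con_apply]
  rw [Finset.sum_comm, Finset.sum_congr rfl fun p _ => h1 p, Finset.sum_neg_distrib,
    neg_eq_zero]
  let G : U →ₗ[K] U →ₗ[K] K := LinearMap.mk₂ K (fun x y => φ (fil a b x y v))
    (fun x x' y => by
      have h2 : ∀ z, fil a b z y v = Function.update (fil a b 0 y v) a z := by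
        intro z
        refine fil_ext hab _ _ _ _ ?_ ?_ fun m => ?_
        · rw [Function.update_self]
        · rw [Function.update_of_ne hab.symm, fil_b hab]
        · rw [Function.update_of_ne m.2.1, fil_o]
      rw [h2, h2 x, h2 x', φ.map_update_add])
    (fun c x y => by
      have h2 : ∀ z, fil a b z y v = Function.update (fil a b 0 y v) a z := by
        intro z
        refine fil_ext hab _ _ _ _ ?_ ?_ fun m => ?_
        · rw [Function.update_self]
        · rw [Function.update_of_ne hab.symm, fil_b hab]
        · rw [Function.update_of_ne m.2.1, fil_o]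
      rw [h2, h2 x, φ.map_update_smul])
    (fun x y y' => by
      have h2 : ∀ z, fil a b x z v = Function.update (fil a b x 0 v) b z := by
        intro z
        refine fil_ext hab _ _ _ _ ?_ ?_ fun m => ?_
        · rw [Function.update_of_ne hab, fil_a]
        · rw [Function.update_self]
        · rw [Function.update_of_ne m.2.2, fil_o]
      rw [h2, h2 y, h2 y', φ.map_update_add])
    (fun c x y => by
      have h2 : ∀ z, fil a b x z v = Function.update (fil a b x 0 v) b z := by
        intro z
        refine fil_ext hab _ _ _ _ ?_ ?_ fun m => ?_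
        · rw [Function.update_of_ne hab, fil_a]
        · rw [Function.update_self]
        · rw [Function.update_of_ne m.2.2, fil_o]
      rw [h2, h2 y, φ.map_update_smul])
  exact Ro_sum e hij G

variable {N : ∀ (κ : Type) [Finite κ], Submodule K (MultilinearMap K (fun _ : κ => U) K)}

/-- The induction hypothesis. -/
def IHm (e : Basis (Fin n) K U)
    (N : ∀ (κ : Type) [Finite κ], Submodule K (MultilinearMap K (fun _ : κ => U) K)) (m : ℕ) :
    Prop :=
  ∀ (κ : Type) [Fintype κ] [DecidableEq κ] (φ : MultilinearMap K (fun _ : κ => U) K),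
    Fintype.card κ < m → KR e φ → φ ∈ N κ

theorem con_mem (hN : Clo N) {S : U →ₗ[K] U →ₗ[K] K} (hSN : bil2 S ∈ N (Fin 2))
    (hIH : IHm e N (Fintype.card κ)) (hφ : KR e φ) {a b : κ} (hab : a ≠ b) :
    ∃ ρ ∈ N κ, ∀ v, ρ v = S (v a) (v b) *
      ∑ i, φ (Function.update (Function.update v a (e i)) b (e i)) := by
  have hcard : Fintype.card {l : κ // l ≠ a ∧ l ≠ b} < Fintype.card κ :=
    Fintype.card_subtype_lt (x := a) (by simp)
  have hC := hIH _ (con e φ a b) hcard (hφ.con hab)
  obtain ⟨E, hE0, hE1, hEl⟩ : ∃ E : Fin 2 ⊕ {l : κ // l ≠ a ∧ l ≠ b} ≃ κ, E (Sum.inl 0) = a ∧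
      E (Sum.inl 1) = b ∧ ∀ l, E (Sum.inr l) = l.1 := by
    refine ⟨Equiv.ofBijective (Sum.elim ![a, b] Subtype.val) ⟨?_, ?_⟩, rfl, rfl, fun l => rfl⟩
    · rintro (i | l) (j | m) h
      · fin_cases i <;> fin_cases j
        · rfl
        · exact absurd h hab
        · exact absurd h.symm hab
        · rfl
      · fin_cases i
        · exact absurd (show m.1 = a from h.symm) m.2.1
        · exact absurd (show m.1 = b from h.symm) m.2.2
      · fin_cases j
        · exact absurd (show l.1 = a from h) l.2.1
        · exact absurd (show l.1 = b from h) l.2.2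
      · exact congrArg Sum.inr (Subtype.ext h)
    · intro l
      by_cases ha : l = a
      · exact ⟨Sum.inl 0, ha.symm⟩
      · by_cases hb : l = b
        · exact ⟨Sum.inl 1, hb.symm⟩
        · exact ⟨Sum.inr ⟨l, ha, hb⟩, rfl⟩
  refine ⟨(prd (bil2 S) (con e φ a b)).domDomCongr E, hN.reindex E (hN.prd_mem hSN hC) _
    fun v => rfl, fun v => ?_⟩
  rw [MultilinearMap.domDomCongr_apply, prd_apply, con_apply]
  have h1 : bil2 S (fun k => v (E (Sum.inl k))) = S (v a) (v b) := by
    change S (v (E (Sum.inl 0))) (v (E (Sum.inl 1))) = _
    rw [hE0, hE1]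
  rw [h1]
  congr 1
  refine Finset.sum_congr rfl fun i _ => ?_
  congr 1
  refine fil_ext hab _ _ _ _ ?_ ?_ fun m => ?_
  · rw [Function.update_of_ne hab, Function.update_self]
  · rw [Function.update_self]
  · rw [Function.update_of_ne m.2.2, Function.update_of_ne m.2.1, hEl]

/-- The Casimir relation. -/
theorem cas (hN : Clo N) {S : U →ₗ[K] U →ₗ[K] K}
    (hS : ∀ p q, S (e p) (e q) = if p = q then 1 else 0) (hSN : bil2 S ∈ N (Fin 2))
    (hIH : IHm e N (Fintype.card κ)) (hφ : KR e φ) (a : κ) :
    ((n : K) - 1) • φ + ∑ k ∈ Finset.univ.erase a, φ.domDomCongr (swap a k) ∈ N κ := by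
  choose! ρ hρ1 hρ2 using fun (k : κ) (hk : a ≠ k) => con_mem hN hSN hIH hφ hk
  have key : ((n : K) - 1) • φ + ∑ k ∈ Finset.univ.erase a, φ.domDomCongr (swap a k) =
      ∑ k ∈ Finset.univ.erase a, ρ k := by
    refine Basis.ext_multilinear (fun _ => e) fun l => ?_
    rw [_root_.add_apply, _root_.smul_apply, _root_.sum_apply, _root_.sum_apply, smul_eq_mul]
    obtain ⟨F, hF⟩ : ∃ F : (κ → Fin n) → K, ∀ l, F l = φ fun k => e (l k) := ⟨_, fun _ => rfl⟩
    have h1 : ∀ k ∈ Finset.univ.erase a, ρ k (fun k => e (l k)) =
        if l k = l a then ∑ i, F (Function.update (Function.update l a i) k i) else 0 := by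
      intro k hk
      rw [hρ2 k (Finset.ne_of_mem_erase hk).symm, hS]
      have h2 : ∀ i, φ (Function.update (Function.update (fun k => e (l k)) a (e i)) k (e i)) =
          F (Function.update (Function.update l a i) k i) := by
        intro i
        rw [hF]
        congr 1
        funext m
        by_cases h3 : m = k
        · subst h3
          rw [Function.update_self, Function.update_self]
        · rw [Function.update_of_ne h3, Function.update_of_ne h3]
          by_cases h4 : m = a
          · subst h4
            rw [Function.update_self, Function.update_self]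
          · rw [Function.update_of_ne h4, Function.update_of_ne h4]
      simp only [h2]
      by_cases h3 : l k = l a
      · rw [if_pos h3.symm, if_pos h3, one_mul]
      · rw [if_neg fun h => h3 h.symm, if_neg h3, zero_mul]
    have h2 : ∀ k, φ.domDomCongr (swap a k) (fun k => e (l k)) = F fun m => l (swap a k m) := by
      intro k
      rw [hF, MultilinearMap.domDomCongr_apply]
    rw [Finset.sum_congr rfl h1, Finset.sum_congr rfl fun k _ => h2 k, ← hF]
    -- the relations
    have h3 : ∀ i ∈ Finset.univ.erase (l a), F l + ∑ k ∈ Finset.univ.erase a,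
        (if l k = i then F (fun m => l (swap a k m)) else
          if l k = l a then -F (Function.update (Function.update l a i) k i) else 0) = 0 := by
      intro i hi
      have hia : i ≠ l a := Finset.ne_of_mem_erase hi
      have h4 := hφ.rel hia.symm (Function.update l a i)
      rw [← Finset.add_sum_erase _ _ (Finset.mem_univ a), Function.update_self, if_pos rfl,
        Function.update_idem, Function.update_eq_self, ← hF] at h4
      refine Eq.trans ?_ h4
      congr 1
      refine Finset.sum_congr rfl fun k hk => ?_
      have hka := Finset.ne_of_mem_erase hk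
      rw [Function.update_of_ne hka]
      by_cases h5 : l k = i
      · rw [if_pos h5, if_pos h5, ← hF]
        congr 1
        funext m
        by_cases h6 : m = k
        · rw [h6, swap_apply_right, Function.update_self]
        · rw [Function.update_of_ne h6]
          by_cases h7 : m = a
          · rw [h7, swap_apply_left, Function.update_self, h5]
          · rw [Function.update_of_ne h7, swap_apply_of_ne_of_ne h7 h6]
      · rw [if_neg h5, if_neg h5]
        simp only [hF]
    have h4 := Finset.sum_eq_zero h3
    rw [Finset.sum_add_distrib, Finset.sum_const, Finset.card_erase_of_mem (Finset.mem_univ _),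
      Finset.card_univ, Fintype.card_fin, Finset.sum_comm, nsmul_eq_mul] at h4
    have hn : 1 ≤ n := by
      have h5 := (l a).2
      omega
    rw [Nat.cast_sub hn, Nat.cast_one] at h4
    rw [← sub_eq_zero, add_sub_assoc, ← Finset.sum_sub_distrib]
    refine Eq.trans ?_ h4
    congr 1
    refine Finset.sum_congr rfl fun k hk => ?_
    by_cases h5 : l k = l a
    · rw [if_pos h5]
      have h6 : ∀ i ∈ Finset.univ.erase (l a), (if l k = i then F (fun m => l (swap a k m)) else
          if l k = l a then -F (Function.update (Function.update l a i) k i) else 0) =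
          -F (Function.update (Function.update l a i) k i) := by
        intro i hi
        rw [if_neg fun h => Finset.ne_of_mem_erase hi (h.symm.trans h5), if_pos h5]
      rw [Finset.sum_congr rfl h6, Finset.sum_neg_distrib,
        ← Finset.add_sum_erase _ _ (Finset.mem_univ (l a))]
      have h7 : (fun m => l (swap a k m)) = l := by
        funext m
        by_cases h8 : m = k
        · rw [h8, swap_apply_right, h5]
        · by_cases h9 : m = a
          · rw [h9, swap_apply_left, h5]
          · rw [swap_apply_of_ne_of_ne h9 h8]
      have h8 : Function.update (Function.update l a (l a)) k (l a) = l := by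
        rw [Function.update_eq_self, ← h5, Function.update_eq_self]
      rw [h7, h8]
      ring
    · rw [if_neg h5, sub_zero]
      rw [Finset.sum_eq_single_of_mem (l k) (Finset.mem_erase.2 ⟨h5, Finset.mem_univ _⟩)]
      · rw [if_pos rfl]
      · intro i _ hi
        rw [if_neg hi.symm, if_neg h5]
  rw [key]
  exact Submodule.sum_mem _ fun k hk => hρ1 k (Finset.ne_of_mem_erase hk).symm

/-- The form is alternating in the variables of `B`. -/
def AltB (B : Finset κ) (φ : MultilinearMap K (fun _ : κ => U) K) : Prop :=
  ∀ a ∈ B, ∀ b ∈ B, a ≠ b → ∀ v : κ → U, φ (fun m => v (swap a b m)) = -φ v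

/-- Alternation in one more variable. -/
def ins (B : Finset κ) (l : κ) (φ : MultilinearMap K (fun _ : κ => U) K) :
    MultilinearMap K (fun _ : κ => U) K := φ - ∑ j ∈ B, φ.domDomCongr (swap j l)

theorem ins_apply (B : Finset κ) (l : κ) (v : κ → U) :
    ins B l φ v = φ v - ∑ j ∈ B, φ fun m => v (swap j l m) := by
  unfold ins
  rw [_root_.sub_apply, _root_.sum_apply]
  rfl

theorem AltB.ins {B : Finset κ} (h : AltB B φ) {l : κ} (hl : l ∉ B) :
    AltB (insert l B) (ins B l φ) := by
  have key : ∀ a ∈ B, ∀ v : κ → U, T.ins B l φ (fun m => v (swap a l m)) = -T.ins B l φ v := by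
    intro a ha v
    have hal : a ≠ l := fun h0 => hl (h0 ▸ ha)
    rw [ins_apply, ins_apply, ← Finset.add_sum_erase B _ ha, ← Finset.add_sum_erase B _ ha]
    have h1 : (fun m => (fun m => v (swap a l m)) (swap a l m)) = v := by
      funext m
      simp
    rw [h1]
    have h2 : ∀ j ∈ B.erase a, φ (fun m => (fun m => v (swap a l m)) (swap j l m)) =
        -φ fun m => v (swap j l m) := by
      intro j hj
      have hja := Finset.ne_of_mem_erase hj
      have hjB := Finset.mem_of_mem_erase hj
      have hjl : j ≠ l := fun h0 => hl (h0 ▸ hjB)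
      rw [← h a ha j hjB hja.symm]
      congr 1
      funext m
      change v (swap a l (swap j l m)) = v (swap j l (swap a j m))
      congr 1
      by_cases m1 : m = j
      · rw [m1, swap_apply_left, swap_apply_right, swap_apply_right,
          swap_apply_of_ne_of_ne hja.symm hal]
      · by_cases m2 : m = a
        · rw [m2, swap_apply_of_ne_of_ne hja.symm hal, swap_apply_left, swap_apply_left,
            swap_apply_left]
        · by_cases m3 : m = l
          · rw [m3, swap_apply_right, swap_apply_of_ne_of_ne hal.symm hjl.symm,
              swap_apply_of_ne_of_ne hja hjl, swap_apply_right]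
          · rw [swap_apply_of_ne_of_ne m1 m3, swap_apply_of_ne_of_ne m2 m3,
              swap_apply_of_ne_of_ne m2 m1, swap_apply_of_ne_of_ne m1 m3]
    rw [Finset.sum_congr rfl h2, Finset.sum_neg_distrib]
    ring
  intro a ha b hb hab v
  rcases Finset.mem_insert.1 ha with rfl | ha
  · rcases Finset.mem_insert.1 hb with rfl | hb
    · exact absurd rfl hab
    · rw [swap_comm]
      exact key b hb v
  · rcases Finset.mem_insert.1 hb with hb0 | hb
    · rw [hb0]
      exact key a ha v
    · rw [ins_apply, ins_apply, h a ha b hb hab, neg_sub, sub_eq_add_neg, add_comm, sub_eq_add_neg,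
        neg_add_eq_sub, sub_eq_add_neg, add_comm]
      have hal : a ≠ l := fun h0 => hl (h0 ▸ ha)
      have hbl : b ≠ l := fun h0 => hl (h0 ▸ hb)
      have h1 : ∑ j ∈ B, φ (fun m => (fun m => v (swap a b m)) (swap j l m)) =
          -∑ j ∈ B, φ fun m => v (swap j l m) := by
        rw [← Finset.sum_neg_distrib]
        refine Finset.sum_bij (fun j _ => swap a b j) (fun j hj => ?_) (fun j _ j' _ h0 =>
          (swap a b).injective h0) (fun j hj => ⟨swap a b j, ?_, swap_apply_self _ _ _⟩)
          (fun j hj => ?_)
        · by_cases j1 : j = a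
          · rw [j1, swap_apply_left]
            exact hb
          · by_cases j2 : j = b
            · rw [j2, swap_apply_right]
              exact ha
            · rw [swap_apply_of_ne_of_ne j1 j2]
              exact hj
        · by_cases j1 : j = a
          · rw [j1, swap_apply_left]
            exact hb
          · by_cases j2 : j = b
            · rw [j2, swap_apply_right]
              exact ha
            · rw [swap_apply_of_ne_of_ne j1 j2]
              exact hj
        · rw [← h a ha b hb hab]
          congr 1
          funext m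
          change v (swap a b (swap j l m)) = v (swap (swap a b j) l (swap a b m))
          congr 1
          have h2 := swap_apply_apply (swap a b) j l
          have h3 : swap a b l = l := swap_apply_of_ne_of_ne hal.symm hbl.symm
          rw [h3] at h2
          rw [h2]
          simp
      rw [h1]
      ring

theorem KR.ins (hφ : KR e φ) (B : Finset κ) (l : κ) : KR e (ins B l φ) := by
  unfold T.ins
  rw [sub_eq_add_neg]
  exact hφ.add (KR.neg (KR.sum _ _ fun j _ => hφ.perm _))

theorem alt_zero {B : Finset κ} (h : AltB B φ) (hB : n < B.card) (e : Basis (Fin n) K U) :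
    φ = 0 := by
  refine Basis.ext_multilinear (fun _ => e) fun l => ?_
  rw [_root_.zero_apply]
  obtain ⟨a, ha, b, hb, hab, hl⟩ := Finset.exists_ne_map_eq_of_card_lt_of_maps_to
    (s := B) (t := (Finset.univ : Finset (Fin n))) (by
      rw [Finset.card_univ, Fintype.card_fin]
      exact hB) (f := l) fun _ _ => Finset.mem_univ _
  have h1 := h a ha b hb hab fun k => e (l k)
  have h2 : (fun m => e (l (swap a b m))) = fun m => e (l m) := by
    funext m
    by_cases h3 : m = a
    · rw [h3, swap_apply_left, hl]
    · by_cases h4 : m = b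
      · rw [h4, swap_apply_right, hl]
      · rw [swap_apply_of_ne_of_ne h3 h4]
  rw [h2] at h1
  have h3 : (2 : K) * φ (fun m => e (l m)) = 0 := by linear_combination h1
  exact (mul_eq_zero.1 h3).resolve_left two_ne_zero

theorem alt_full (hN : Clo N) (hdet : e.det.toMultilinearMap ∈ N (Fin n))
    (h : AltB Finset.univ φ) (hc : Fintype.card κ = n) : φ ∈ N κ := by
  obtain ⟨E⟩ : Nonempty (Fin n ≃ κ) := by
    rw [← hc]
    exact ⟨(Fintype.equivFin κ).symm⟩
  obtain ⟨φ', hφ'⟩ : ∃ φ', φ' = φ.domDomCongr E.symm := ⟨_, rfl⟩
  have hv : ∀ v, φ' v = φ fun k => v (E.symm k) := fun v => by rw [hφ']; rfl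
  let f : U [⋀^Fin n]→ₗ[K] K :=
    { φ' with
      map_eq_zero_of_eq' := by
        intro v i j hvij hij
        change φ' v = 0
        have h1 := h (E i) (Finset.mem_univ _) (E j) (Finset.mem_univ _)
          (fun h0 => hij (E.injective h0)) fun k => v (E.symm k)
        have h2 : (fun m => v (E.symm (swap (E i) (E j) m))) = fun k => v (E.symm k) := by
          funext m
          by_cases h3 : m = E i
          · rw [h3, swap_apply_left, E.symm_apply_apply, E.symm_apply_apply, hvij]
          · by_cases h4 : m = E j
            · rw [h4, swap_apply_right, E.symm_apply_apply, E.symm_apply_apply, hvij]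
            · rw [swap_apply_of_ne_of_ne h3 h4]
        rw [h2, ← hv] at h1
        have h3 : (2 : K) * φ' v = 0 := by linear_combination h1
        exact (mul_eq_zero.1 h3).resolve_left two_ne_zero }
  have h1 : f = f e • e.det := AlternatingMap.eq_smul_basis_det e f
  have h2 : φ' = f e • e.det.toMultilinearMap := by
    refine MultilinearMap.ext fun v => ?_
    have h3 := congrArg (fun F : U [⋀^Fin n]→ₗ[K] K => F v) h1
    exact h3
  have h3 : φ' ∈ N (Fin n) := by
    rw [h2]
    exact Submodule.smul_mem _ _ hdet
  refine hN.reindex E h3 φ fun v => ?_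
  rw [hv]
  congr 1
  funext k
  rw [E.apply_symm_apply]

/-- **The first fundamental theorem for the orthogonal Lie algebra.** -/
theorem so_fft (hN : Clo N) {S : U →ₗ[K] U →ₗ[K] K}
    (hS : ∀ p q, S (e p) (e q) = if p = q then 1 else 0) (hSN : bil2 S ∈ N (Fin 2))
    (hdet : e.det.toMultilinearMap ∈ N (Fin n)) (hφ : KR e φ) : φ ∈ N κ := by
  have main : ∀ (m : ℕ) (κ : Type) [Fintype κ] [DecidableEq κ]
      (φ : MultilinearMap K (fun _ : κ => U) K), Fintype.card κ = m → KR e φ → φ ∈ N κ := by
    intro m
    induction m using Nat.strong_induction_on with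
    | _ m ih =>
      intro κ _ _ φ hm hφ
      have hIH : IHm e N (Fintype.card κ) := by
        intro κ' _ _ φ' hc hφ'
        exact ih _ (hm ▸ hc) κ' φ' rfl hφ'
      rcases isEmpty_or_nonempty κ with h0 | ⟨⟨k₀⟩⟩
      · exact hN.unit _ _
      -- descending induction
      have key : ∀ (d : ℕ) (B : Finset κ), B.Nonempty → n + 1 - B.card = d →
          ∀ φ : MultilinearMap K (fun _ : κ => U) K, KR e φ → AltB B φ → φ ∈ N κ := by
        intro d
        induction d using Nat.strong_induction_on with
        | _ d ihd =>
          intro B hBn hd φ hφ hB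
          by_cases hcard : n < B.card
          · rw [alt_zero hB hcard e]
            exact Submodule.zero_mem _
          push Not at hcard
          -- the variables outside `B`
          have h1 : ∀ l ∈ Finset.univ \ B, ins B l φ ∈ N κ := by
            intro l hl
            have hlB : l ∉ B := (Finset.mem_sdiff.1 hl).2
            refine ihd (n + 1 - (insert l B).card) ?_ (insert l B) (Finset.insert_nonempty _ _) rfl
              _ (hφ.ins B l) (hB.ins hlB)
            rw [Finset.card_insert_of_notMem hlB]
            omega
          have h2 := Submodule.sum_mem _ h1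
          have h3 : ∀ j ∈ B, ((n : K) - B.card) • φ +
              ∑ l ∈ Finset.univ \ B, φ.domDomCongr (swap j l) ∈ N κ := by
            intro j hj
            have h4 := cas hN hS hSN hIH hφ j
            have h5 : Finset.univ.erase j = (B.erase j) ∪ (Finset.univ \ B) := by
              ext l
              simp only [Finset.mem_erase, Finset.mem_univ, and_true, Finset.mem_union,
                Finset.mem_sdiff, true_and]
              constructor
              · intro hl
                by_cases hlB : l ∈ B
                · exact Or.inl ⟨hl, hlB⟩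
                · exact Or.inr hlB
              · rintro (hl | hl)
                · exact hl.1
                · rintro rfl
                  exact hl hj
            have hdis : Disjoint (B.erase j) (Finset.univ \ B) := by
              rw [Finset.disjoint_left]
              intro l hl hl'
              exact (Finset.mem_sdiff.1 hl').2 (Finset.mem_of_mem_erase hl)
            rw [h5, Finset.sum_union hdis] at h4
            have h6 : ∑ l ∈ B.erase j, φ.domDomCongr (swap j l) = -(((B.card : K) - 1) • φ) := by
              have h7 : ∀ l ∈ B.erase j, φ.domDomCongr (swap j l) = -φ := by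
                intro l hl
                refine MultilinearMap.ext fun v => ?_
                exact hB j hj l (Finset.mem_of_mem_erase hl) (Finset.ne_of_mem_erase hl).symm v
              rw [Finset.sum_congr rfl h7, Finset.sum_neg_distrib, Finset.sum_const,
                Finset.card_erase_of_mem hj, ← Nat.cast_smul_eq_nsmul K,
                Nat.cast_sub (Finset.card_pos.2 ⟨j, hj⟩), Nat.cast_one]
            rw [h6] at h4
            have h8 : ((n : K) - B.card) • φ + ∑ l ∈ Finset.univ \ B, φ.domDomCongr (swap j l) =
                ((n : K) - 1) • φ + (-(((B.card : K) - 1) • φ) +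
                  ∑ l ∈ Finset.univ \ B, φ.domDomCongr (swap j l)) := by
              rw [← add_assoc]
              congr 1
              module
            rw [h8]
            exact h4
          have h4 := Submodule.sum_mem _ h3
          have h5 : ∑ l ∈ Finset.univ \ B, ins B l φ = (((Finset.univ \ B).card : ℕ) : K) • φ -
              ∑ j ∈ B, ∑ l ∈ Finset.univ \ B, φ.domDomCongr (swap j l) := by
            unfold T.ins
            rw [Finset.sum_sub_distrib, Finset.sum_const, Finset.sum_comm,
              ← Nat.cast_smul_eq_nsmul K]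
          have h6 : ∑ j ∈ B, (((n : K) - B.card) • φ +
              ∑ l ∈ Finset.univ \ B, φ.domDomCongr (swap j l)) =
              ((B.card : K) * ((n : K) - B.card)) • φ +
              ∑ j ∈ B, ∑ l ∈ Finset.univ \ B, φ.domDomCongr (swap j l) := by
            rw [Finset.sum_add_distrib, Finset.sum_const, ← Nat.cast_smul_eq_nsmul K, smul_smul]
          rw [h5] at h2
          rw [h6] at h4
          have h7 := Submodule.add_mem _ h2 h4
          have h8 : (((Finset.univ \ B).card : ℕ) : K) • φ -
              ∑ j ∈ B, ∑ l ∈ Finset.univ \ B, φ.domDomCongr (swap j l) +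
              (((B.card : K) * ((n : K) - B.card)) • φ +
              ∑ j ∈ B, ∑ l ∈ Finset.univ \ B, φ.domDomCongr (swap j l)) =
              (((Finset.univ \ B).card + B.card * (n - B.card) : ℕ) : K) • φ := by
            rw [Nat.cast_add, Nat.cast_mul, Nat.cast_sub hcard, add_smul]
            abel
          rw [h8] at h7
          by_cases h9 : (Finset.univ \ B).card + B.card * (n - B.card) = 0
          · have h10 : (Finset.univ \ B).card = 0 := by omega
            have h11 : B.card * (n - B.card) = 0 := by omega
            have h12 : B = Finset.univ := by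
              rw [Finset.card_eq_zero, Finset.sdiff_eq_empty_iff_subset] at h10
              exact Finset.univ_subset_iff.1 h10
            have h13 : B.card ≠ 0 := (Finset.card_pos.2 hBn).ne'
            have h14 : n - B.card = 0 := (mul_eq_zero.1 h11).resolve_left h13
            subst h12
            rw [Finset.card_univ] at hcard h14
            exact alt_full hN hdet hB (by omega)
          · exact (Submodule.smul_mem_iff _ (Nat.cast_ne_zero.2 h9)).1 h7
      refine key _ {k₀} (Finset.singleton_nonempty _) rfl φ hφ fun a ha b hb hab => ?_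
      rw [Finset.mem_singleton] at ha hb
      exact absurd (ha.trans hb.symm) hab
  exact main _ κ φ rfl hφ

end

end Pool.Agent.H926.T
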