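import Mathlib
import Pool.Agent.H926.T.Jobs3
import Pool.Agent.H926.T.Ft1

/-!
# Orthogonal blocks
-/

set_option linter.unusedSectionVars false

namespace Pool.Agent.H926.T

open Module Pool.Agent.Y90
open Pool.Agent.H204R3.SP (Kills bil2)

noncomputable section

namespace Ort

section theta

variable {V : Type} [AddCommGroup V] [Module ℂ V] {U : Submodule ℂ V} {m : ℕ}

/-- The operator `∑ c, E c ∘ M ∘ F c`. -/
def Th (E : Fin m → (U →ₗ[ℂ] V)) (F : Fin m → (V →ₗ[ℂ] U)) : (U →ₗ[ℂ] U) →ₗ[ℂ] End ℂ V where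
  toFun M := ∑ c, E c ∘ₗ M ∘ₗ F c
  map_add' M M' := by
    rw [← Finset.sum_add_distrib]
    refine Finset.sum_congr rfl fun c _ => ?_
    rw [LinearMap.add_comp, LinearMap.comp_add]
  map_smul' t M := by
    rw [RingHom.id_apply, Finset.smul_sum]
    refine Finset.sum_congr rfl fun c _ => ?_
    rw [LinearMap.smul_comp, LinearMap.comp_smul]

variable (E : Fin m → (U →ₗ[ℂ] V)) (F : Fin m → (V →ₗ[ℂ] U))

theorem Th_apply (M : U →ₗ[ℂ] U) (v : V) : Th E F M v = ∑ c, E c (M (F c v)) := by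
  change (∑ c, E c ∘ₗ M ∘ₗ F c) v = _
  rw [LinearMap.sum_apply]
  rfl

variable {E F} (hFE : ∀ c d u, F c (E d u) = if c = d then u else 0)
include hFE

theorem F_Th (M : U →ₗ[ℂ] U) (d : Fin m) (v : V) : F d (Th E F M v) = M (F d v) := by
  rw [Th_apply, map_sum, Finset.sum_eq_single d]
  · rw [hFE, if_pos rfl]
  · intro c _ hc
    rw [hFE, if_neg hc.symm]
  · intro h
    exact absurd (Finset.mem_univ _) h

theorem Th_E (M : U →ₗ[ℂ] U) (d : Fin m) (u : U) : Th E F M (E d u) = E d (M u) := by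
  rw [Th_apply, Finset.sum_eq_single d]
  · rw [hFE, if_pos rfl]
  · intro c _ hc
    rw [hFE, if_neg hc, map_zero, map_zero]
  · intro h
    exact absurd (Finset.mem_univ _) h

theorem Th_mul (M M' : U →ₗ[ℂ] U) : Th E F (M ∘ₗ M') = Th E F M * Th E F M' := by
  refine LinearMap.ext fun v => ?_
  change _ = Th E F M (Th E F M' v)
  rw [Th_apply, Th_apply]
  refine Finset.sum_congr rfl fun c _ => ?_
  rw [F_Th hFE, LinearMap.comp_apply]

/-- It commutes with the commutant. -/
theorem Th_com {L : Submodule ℂ (End ℂ V)} (hU0 : U ≠ ⊥)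
    (hE : ∀ (c : Fin m), ∀ X ∈ L, ∀ (u : V) (hu : u ∈ U) (hX : X u ∈ U),
        E c ⟨X u, hX⟩ = X (E c ⟨u, hu⟩))
    (hF : ∀ (c : Fin m), ∀ X ∈ L, ∀ v, ((F c (X v) : U) : V) = X (F c v))
    (hE' : ∀ E' : U →ₗ[ℂ] V, (∀ X ∈ L, ∀ (u : V) (hu : u ∈ U) (hX : X u ∈ U),
        E' ⟨X u, hX⟩ = X (E' ⟨u, hu⟩)) → ∃ t : Fin m → ℂ, E' = ∑ c, t c • E c)
    (hF' : ∀ F' : V →ₗ[ℂ] U, (∀ X ∈ L, ∀ v, ((F' (X v) : U) : V) = X (F' v)) →
        ∃ t : Fin m → ℂ, F' = ∑ c, t c • F c)
    (M : U →ₗ[ℂ] U) (T : End ℂ V) (hT : ComE L T) : T * Th E F M = Th E F M * T := by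
  obtain ⟨u₀, hu₀, hu₀'⟩ := Submodule.exists_mem_ne_zero_of_ne_bot hU0
  have hT' : ∀ X ∈ L, ∀ v, X (T v) = T (X v) := fun X hX v => LinearMap.congr_fun (hT X hX) v
  have h1 : ∀ c, ∃ t : Fin m → ℂ, T ∘ₗ E c = ∑ d, t d • E d := by
    intro c
    refine hE' _ fun X hX u hu hXu => ?_
    rw [LinearMap.comp_apply, LinearMap.comp_apply, hE c X hX u hu hXu, hT' X hX]
  choose t ht using h1
  have h2 : ∀ c, ∃ s : Fin m → ℂ, F c ∘ₗ T = ∑ d, s d • F d := by
    intro c
    refine hF' _ fun X hX v => ?_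
    rw [LinearMap.comp_apply, LinearMap.comp_apply, ← hF c X hX, hT' X hX]
  choose s hs using h2
  have ht' : ∀ c u, T (E c u) = ∑ d, t c d • E d u := by
    intro c u
    have := LinearMap.congr_fun (ht c) u
    rw [LinearMap.comp_apply, LinearMap.sum_apply] at this
    rw [this]
    rfl
  have hs' : ∀ c v, F c (T v) = ∑ d, s c d • F d v := by
    intro c v
    have := LinearMap.congr_fun (hs c) v
    rw [LinearMap.comp_apply, LinearMap.sum_apply] at this
    rw [this]
    rfl
  have hst : ∀ c d, t c d = s d c := by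
    intro c d
    have h3 : F d (T (E c ⟨u₀, hu₀⟩)) = t c d • (⟨u₀, hu₀⟩ : U) := by
      rw [ht', map_sum, Finset.sum_eq_single d]
      · rw [map_smul, hFE, if_pos rfl]
      · intro c' _ hc'
        rw [map_smul, hFE, if_neg hc'.symm, smul_zero]
      · intro h
        exact absurd (Finset.mem_univ _) h
    have h4 : F d (T (E c ⟨u₀, hu₀⟩)) = s d c • (⟨u₀, hu₀⟩ : U) := by
      rw [hs', Finset.sum_eq_single c]
      · rw [hFE, if_pos rfl]
      · intro c' _ hc'
        rw [hFE, if_neg hc', smul_zero]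
      · intro h
        exact absurd (Finset.mem_univ _) h
    have h5 : t c d • (⟨u₀, hu₀⟩ : U) = s d c • (⟨u₀, hu₀⟩ : U) := h3.symm.trans h4
    have h6 : (⟨u₀, hu₀⟩ : U) ≠ 0 := fun h => hu₀' (congrArg Subtype.val h)
    exact smul_left_injective ℂ h6 h5
  refine LinearMap.ext fun v => ?_
  change T (Th E F M v) = Th E F M (T v)
  rw [Th_apply, Th_apply, map_sum]
  have h3 : ∀ c, T (E c (M (F c v))) = ∑ d, t c d • E d (M (F c v)) := fun c => ht' c _
  have h4 : ∀ d, E d (M (F d (T v))) = ∑ c, t c d • E d (M (F c v)) := by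
    intro d
    rw [hs', map_sum, map_sum]
    refine Finset.sum_congr rfl fun c _ => ?_
    rw [map_smul, map_smul, hst]
  rw [Finset.sum_congr rfl fun c _ => h3 c, Finset.sum_comm]
  exact Finset.sum_congr rfl fun d _ => (h4 d).symm

end theta

section basis

variable {U : Type} [AddCommGroup U] [Module ℂ U] [FiniteDimensional ℂ U]

/-- Orthonormal bases. -/
theorem exists_onb (S : U →ₗ[ℂ] U →ₗ[ℂ] ℂ) (hs : ∀ u v, S u v = S v u)
    (hnd : ∀ u, (∀ v, S u v = 0) → u = 0) :
    ∃ e : Basis (Fin (finrank ℂ U)) ℂ U, ∀ p q, S (e p) (e q) = if p = q then 1 else 0 := by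
  have hsym : LinearMap.IsSymm S := ⟨fun u v => hs u v⟩
  obtain ⟨v, hv⟩ := LinearMap.BilinForm.exists_orthogonal_basis hsym
  have hvo : ∀ i j, i ≠ j → S (v i) (v j) = 0 := fun i j hij => hv hij
  have hvv : ∀ i, S (v i) (v i) ≠ 0 := by
    intro i h
    have h1 : v i = 0 := by
      refine hnd _ fun w => ?_
      have h2 : S (v i) = 0 := by
        refine v.ext fun j => ?_
        by_cases hij : i = j
        · subst hij
          rw [h, LinearMap.zero_apply]
        · rw [hvo i j hij, LinearMap.zero_apply]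
      rw [h2, LinearMap.zero_apply]
    exact v.ne_zero i h1
  have h1 : ∀ i, ∃ a : ℂ, a ^ 2 = S (v i) (v i) := fun i =>
    IsAlgClosed.exists_pow_nat_eq _ (by norm_num)
  choose a ha using h1
  have ha0 : ∀ i, a i ≠ 0 := by
    intro i h
    apply hvv i
    rw [← ha, h]
    norm_num
  refine ⟨v.isUnitSMul (w := fun i => (a i)⁻¹) fun i => (isUnit_iff_ne_zero.2 (inv_ne_zero (ha0 i))),
    fun p q => ?_⟩
  rw [Basis.isUnitSMul_apply, Basis.isUnitSMul_apply, map_smul, map_smul, LinearMap.smul_apply,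
    smul_eq_mul, smul_eq_mul]
  by_cases hpq : p = q
  · subst hpq
    rw [if_pos rfl, ← ha]
    have := ha0 p
    field_simp
  · rw [if_neg hpq, hvo p q hpq, mul_zero, mul_zero]

variable {n : ℕ} {S : U →ₗ[ℂ] U →ₗ[ℂ] ℂ} {e : Basis (Fin n) ℂ U}

theorem Ro_e (i j p : Fin n) : Ro e i j (e p) = if p = j then e i else if p = i then -e j else 0 := by
  unfold Ro
  rw [Basis.constr_basis]

theorem Ro_skew (he : ∀ p q, S (e p) (e q) = if p = q then 1 else 0) {i j : Fin n} (hij : i ≠ j)
    (u v : U) : S (Ro e i j u) v = -S u (Ro e i j v) := by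
  have h1 : S ∘ₗ Ro e i j = -(S.compl₂ (Ro e i j)) := by
    refine e.ext fun p => e.ext fun q => ?_
    rw [LinearMap.neg_apply, LinearMap.neg_apply, LinearMap.compl₂_apply, LinearMap.comp_apply,
      Ro_e, Ro_e]
    by_cases h1 : p = j <;> by_cases h2 : q = j <;> by_cases h3 : p = i <;> by_cases h4 : q = i <;>
      simp [h1, h2, h3, h4, he, hij, hij.symm, eq_comm] <;> aesop
  have := LinearMap.congr_fun (LinearMap.congr_fun h1 u) v
  exact this

theorem Ro_br {i j k : Fin n} (hij : i ≠ j) (hik : i ≠ k) (hjk : j ≠ k) :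
    Ro e i j = Ro e i k ∘ₗ Ro e k j - Ro e k j ∘ₗ Ro e i k := by
  refine e.ext fun p => ?_
  rw [LinearMap.sub_apply, LinearMap.comp_apply, LinearMap.comp_apply, Ro_e, Ro_e, Ro_e]
  by_cases h1 : p = j
  · subst h1
    rw [if_pos rfl, if_pos rfl, if_neg hjk, if_neg hij.symm, map_zero, sub_zero, Ro_e, if_pos rfl]
  · by_cases h2 : p = i
    · subst h2
      rw [if_neg h1, if_pos rfl, if_neg h1, if_neg hik, if_neg hik, if_pos rfl, map_zero, zero_sub,
        map_neg, Ro_e, if_neg hjk.symm, if_pos rfl, neg_neg]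
    · rw [if_neg h1, if_neg h2, if_neg h1, if_neg h2]
      by_cases h3 : p = k
      · subst h3
        rw [if_pos rfl, if_pos rfl, map_neg, Ro_e, Ro_e]
        simp [hij, hik, hjk, Ne.symm hij, Ne.symm hik, Ne.symm hjk]
      · rw [if_neg h3, if_neg h3, map_zero, map_zero, sub_zero]

theorem skew_sum (he : ∀ p q, S (e p) (e q) = if p = q then 1 else 0)
    (hs : ∀ u v, S u v = S v u) (M : U →ₗ[ℂ] U) (hM : ∀ u v, S (M u) v = -S u (M v)) :
    M = (2 : ℂ)⁻¹ • ∑ i, ∑ j, S (e i) (M (e j)) • Ro e i j := by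
  have hrep : ∀ u : U, u = ∑ i, S (e i) u • e i := by
    intro u
    conv_lhs => rw [← e.sum_repr u]
    refine Finset.sum_congr rfl fun i _ => ?_
    congr 1
    conv_rhs => rw [← e.sum_repr u]
    rw [map_sum, Finset.sum_eq_single i]
    · rw [map_smul, he, if_pos rfl, smul_eq_mul, mul_one]
    · intro j _ hj
      rw [map_smul, he, if_neg hj.symm, smul_zero]
    · intro h
      exact absurd (Finset.mem_univ _) h
  have hanti : ∀ i j, S (e i) (M (e j)) = -S (e j) (M (e i)) := by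
    intro i j
    rw [← hM, hs]
  have hdiag : ∀ i, S (e i) (M (e i)) = 0 := fun i => self_eq_neg.1 (hanti i i)
  refine e.ext fun q => ?_
  rw [LinearMap.smul_apply, LinearMap.sum_apply]
  have h1 : ∀ i, (∑ j, S (e i) (M (e j)) • Ro e i j) (e q) =
      ∑ j, ((if q = j then S (e i) (M (e j)) • e i else 0) +
        (if q = i then S (e j) (M (e i)) • e j else 0)) := by
    intro i
    rw [LinearMap.sum_apply]
    refine Finset.sum_congr rfl fun j _ => ?_
    rw [LinearMap.smul_apply, Ro_e]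
    by_cases h1 : q = j
    · rw [if_pos h1, if_pos h1]
      by_cases h2 : q = i
      · rw [if_pos h2, ← h1, ← h2, hdiag, zero_smul, zero_add]
      · rw [if_neg h2, add_zero]
    · rw [if_neg h1, if_neg h1, zero_add]
      by_cases h2 : q = i
      · rw [if_pos h2, if_pos h2, hanti i j, neg_smul, smul_neg, neg_neg]
      · rw [if_neg h2, if_neg h2, smul_zero]
  rw [Finset.sum_congr rfl fun i _ => h1 i]
  have h2 : ∑ i, ∑ j, ((if q = j then S (e i) (M (e j)) • e i else 0) +
        (if q = i then S (e j) (M (e i)) • e j else 0)) = M (e q) + M (e q) := by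
    simp only [Finset.sum_add_distrib]
    congr 1
    · conv_rhs => rw [hrep (M (e q))]
      refine Finset.sum_congr rfl fun i _ => ?_
      rw [Finset.sum_ite_eq, if_pos (Finset.mem_univ _)]
    · rw [Finset.sum_comm]
      conv_rhs => rw [hrep (M (e q))]
      refine Finset.sum_congr rfl fun i _ => ?_
      rw [Finset.sum_ite_eq, if_pos (Finset.mem_univ _)]
  rw [h2, ← two_smul ℂ, smul_smul, inv_mul_cancel₀ two_ne_zero, one_smul]

end basis

end Ort

open Ort

/-- **Orthogonal blocks.** -/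
theorem s_ort (h : S_DUAL) : S_ORT := by
  classical
  intro V _ _ _ L ω hB U hU hO h3 N hN hpair hdet
  obtain ⟨b, hb1, ⟨u₁, hu₁, v₁, hv₁, hb2⟩, hb3⟩ := hO
  obtain ⟨m, E, F, hE, hF, hFE, hE', hF'⟩ := h V (L : Set (End ℂ V)) hB.ss U hU.1 hU.2.1
    (fun W hW hW' => hU.2.2 W hW hW')
  have hst : ∀ X ∈ L, ∀ u ∈ U, X u ∈ U := hU.2.1
  -- the symmetric form
  obtain ⟨S, hS⟩ : ∃ S : U →ₗ[ℂ] U →ₗ[ℂ] ℂ, ∀ u v : U, S u v = b u v :=
    ⟨b.compl₁₂ U.subtype U.subtype, fun u v => rfl⟩
  have hSs : ∀ u v, S u v = S v u := fun u v => by rw [hS, hS, hb3 u u.2 v v.2]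
  have hSX : ∀ X ∈ L, ∀ (u v u' v' : U), (u' : V) = X u → (v' : V) = X v →
      S u' v + S u v' = 0 := by
    intro X hX u v u' v' hu' hv'
    rw [hS, hS, hu', hv']
    exact hb1 X hX u u.2 v v.2
  have hSnd : ∀ u, (∀ v, S u v = 0) → u = 0 := by
    have h1 : StE L ((LinearMap.ker S).map U.subtype) := by
      rintro X hX _ ⟨u, hu, rfl⟩
      refine ⟨⟨X u, hst X hX u u.2⟩, ?_, rfl⟩
      change S ⟨X u, hst X hX u u.2⟩ = 0
      refine LinearMap.ext fun v => ?_
      have h2 := hSX X hX u v ⟨X u, hst X hX u u.2⟩ ⟨X v, hst X hX v v.2⟩ rfl rfl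
      have h3 : S u = 0 := hu
      rw [h3, LinearMap.zero_apply, add_zero] at h2
      rw [h2, LinearMap.zero_apply]
    have h2 : (LinearMap.ker S).map U.subtype ≤ U := by
      rintro _ ⟨u, _, rfl⟩
      exact u.2
    rcases hU.2.2 _ h2 h1 with h3 | h3
    · intro u hu
      have h4 : (u : V) ∈ (LinearMap.ker S).map U.subtype :=
        ⟨u, LinearMap.ext fun v => hu v, rfl⟩
      rw [h3, Submodule.mem_bot] at h4
      exact Subtype.ext h4
    · exfalso
      have h4 : u₁ ∈ (LinearMap.ker S).map U.subtype := by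
        rw [h3]
        exact hu₁
      obtain ⟨w, hw, hw'⟩ := h4
      have h5 : S w = 0 := hw
      have h6 : S w ⟨v₁, hv₁⟩ = 0 := by rw [h5, LinearMap.zero_apply]
      rw [hS] at h6
      apply hb2
      rw [← hw']
      exact h6
  obtain ⟨e, he⟩ := exists_onb S hSs hSnd
  -- the projector
  obtain ⟨p₀, hp₀1, hp₀2, hp₀3⟩ := hB.ss U hst
  obtain ⟨F', hF'v⟩ : ∃ F' : V →ₗ[ℂ] U, ∀ v, ((F' v : U) : V) = p₀ v :=
    ⟨p₀.codRestrict U hp₀2, fun v => rfl⟩
  have hcom : ∀ (M : U →ₗ[ℂ] U) (T : End ℂ V), ComE L T → T * Th E F M = Th E F M * T :=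
    fun M T hT => Th_com hFE hU.1 hE hF hE' hF' M T hT
  have hEX : ∀ X (hX : X ∈ L), ∀ c (u : U), E c ⟨X u, hst X hX u u.2⟩ = X (E c u) :=
    fun X hX c u => hE c X hX u u.2 (hst X hX u u.2)
  have hFX : ∀ X (hX : X ∈ L), ∀ c v, F c (X v) = ⟨X (F c v), hst X hX _ (F c v).2⟩ :=
    fun X hX c v => Subtype.ext (hF c X hX v)
  set p : End ℂ V := Th E F LinearMap.id with hp
  have hpv : ∀ v, p v = ∑ c, E c (F c v) := fun v => Th_apply E F _ v
  have hpp : p * p = p := by
    rw [hp, ← Th_mul hFE]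
    rfl
  have hpX : ∀ X (hX : X ∈ L), p * X = Th E F (X.restrict (hst X hX)) := by
    intro X hX
    refine LinearMap.ext fun v => ?_
    change p (X v) = _
    rw [hpv, Th_apply]
    refine Finset.sum_congr rfl fun c _ => ?_
    rw [hFX X hX]
    rfl
  have hXp : ∀ X (hX : X ∈ L), X * p = Th E F (X.restrict (hst X hX)) := by
    intro X hX
    refine LinearMap.ext fun v => ?_
    change X (p v) = _
    rw [hpv, Th_apply, map_sum]
    refine Finset.sum_congr rfl fun c _ => ?_
    rw [← hEX X hX]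
    rfl
  have hpu : ∀ u ∈ U, p u = u := by
    intro u hu
    obtain ⟨s, hs⟩ := hE' U.subtype fun X _ u hu hX => rfl
    have h1 : ∀ w : U, (w : V) = ∑ c, s c • E c w := by
      intro w
      have h2 := LinearMap.congr_fun hs w
      rw [LinearMap.sum_apply] at h2
      exact h2
    have h2 : ∀ c, F c u = s c • (⟨u, hu⟩ : U) := by
      intro c
      conv_lhs => rw [show u = ((⟨u, hu⟩ : U) : V) from rfl, h1 ⟨u, hu⟩]
      rw [map_sum, Finset.sum_eq_single c]
      · rw [map_smul, hFE, if_pos rfl]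
      · intro c' _ hc'
        rw [map_smul, hFE, if_neg hc'.symm, smul_zero]
      · intro h
        exact absurd (Finset.mem_univ _) h
    rw [hpv]
    conv_rhs => rw [show u = ((⟨u, hu⟩ : U) : V) from rfl, h1 ⟨u, hu⟩]
    refine Finset.sum_congr rfl fun c _ => ?_
    rw [h2, map_smul]
  have hQp : ∀ Q : End ℂ V, (∀ T, ComE L T → T * Q = Q * T) → (∀ u ∈ U, Q u = u) → Q * p = p := by
    intro Q hQ hQu
    have h1 : ∀ c (u : U), Q (E c u) = E c u := by
      intro c u
      have h2 : ComE L (E c ∘ₗ F') := by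
        intro X hX
        refine LinearMap.ext fun v => ?_
        change X (E c (F' v)) = E c (F' (X v))
        rw [← hEX X hX]
        congr 1
        refine Subtype.ext ?_
        change X (F' v : V) = (F' (X v) : V)
        rw [hF'v, hF'v]
        exact LinearMap.congr_fun (hp₀1 X hX) v
      have h3 := LinearMap.congr_fun (hQ _ h2) (u : V)
      change E c (F' (Q u)) = Q (E c (F' u)) at h3
      have h4 : F' (u : V) = u := by
        refine Subtype.ext ?_
        rw [hF'v, hp₀3 u u.2]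
      rw [hQu u u.2, h4] at h3
      exact h3.symm
    refine LinearMap.ext fun v => ?_
    change Q (p v) = p v
    rw [hpv, map_sum]
    exact Finset.sum_congr rfl fun c _ => h1 c _
  -- the forms on the multiplicity space
  have hG : ∀ c, ∃ G : V →ₗ[ℂ] U, ∀ u v, ω (E c u) v = S u (G v) := by
    intro c
    have h1 : Function.Injective (S : U →ₗ[ℂ] U →ₗ[ℂ] ℂ) := by
      rw [injective_iff_map_eq_zero]
      intro u hu
      exact hSnd u fun v => by rw [hu, LinearMap.zero_apply]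
    have h2 : Function.Bijective (S : U →ₗ[ℂ] Module.Dual ℂ U) := by
      refine ⟨h1, ?_⟩
      exact (LinearMap.injective_iff_surjective_of_finrank_eq_finrank
        (Subspace.dual_finrank_eq (K := ℂ) (V := U)).symm).1 h1
    let Se : U ≃ₗ[ℂ] Module.Dual ℂ U := LinearEquiv.ofBijective S h2
    refine ⟨Se.symm.toLinearMap ∘ₗ (ω.compl₁₂ (E c) LinearMap.id).flip, fun u v => ?_⟩
    rw [hSs]
    change _ = Se (Se.symm ((ω.compl₁₂ (E c) LinearMap.id).flip v)) u
    rw [LinearEquiv.apply_symm_apply]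
    rfl
  choose G hG using hG
  have hωX : ∀ X ∈ L, ∀ u v, ω u (X v) = -ω (X u) v := by
    intro X hX u v
    have h1 := hB.skew X hX u v
    linear_combination h1
  have hGX : ∀ c, ∀ X ∈ L, ∀ v, ((G c (X v) : U) : V) = X (G c v) := by
    intro c X hX v
    have h1 : G c (X v) - ⟨X (G c v), hst X hX _ (G c v).2⟩ = 0 := by
      refine hSnd _ fun w => ?_
      rw [hSs, map_sub, ← hG, hωX X hX, ← hEX X hX, hG]
      have h2 := hSX X hX w (G c v) ⟨X w, hst X hX w w.2⟩ ⟨X (G c v), hst X hX _ (G c v).2⟩ rfl rfl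
      linear_combination -h2
    have h2 := congrArg Subtype.val (sub_eq_zero.1 h1)
    exact h2
  have hg : ∀ c, ∃ t : Fin m → ℂ, G c = ∑ d, t d • F d := fun c => hF' (G c) (hGX c)
  choose g hg using hg
  have hgv : ∀ c v, G c v = ∑ d, g c d • F d v := by
    intro c v
    have h1 := LinearMap.congr_fun (hg c) v
    rw [LinearMap.sum_apply] at h1
    exact h1
  have hEE : ∀ c d u w, ω (E c u) (E d w) = g c d * S u w := by
    intro c d u w
    rw [hG, hgv, Finset.sum_eq_single d]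
    · rw [hFE, if_pos rfl, map_smul, smul_eq_mul]
    · intro c' _ hc'
      rw [hFE, if_neg hc', smul_zero]
    · intro h
      exact absurd (Finset.mem_univ _) h
  have hganti : ∀ c d, g d c = -g c d := by
    intro c d
    have h1 := hEE c d ⟨u₁, hu₁⟩ ⟨v₁, hv₁⟩
    have h2 := hEE d c ⟨v₁, hv₁⟩ ⟨u₁, hu₁⟩
    rw [hB.alt, h1, hSs] at h2
    have h3 : S ⟨v₁, hv₁⟩ ⟨u₁, hu₁⟩ ≠ 0 := by
      rw [hSs, hS]
      exact hb2
    have h4 : (g d c + g c d) * S ⟨v₁, hv₁⟩ ⟨u₁, hu₁⟩ = 0 := by
      linear_combination -h2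
    rcases mul_eq_zero.1 h4 with h5 | h5
    · linear_combination h5
    · exact absurd h5 h3
  have hωT : ∀ (M : U →ₗ[ℂ] U) u v, ω (Th E F M u) v = ∑ c, ∑ d, g c d * S (M (F c u)) (F d v) := by
    intro M u v
    rw [Th_apply, map_sum, LinearMap.sum_apply]
    refine Finset.sum_congr rfl fun c _ => ?_
    rw [hG, hgv, map_sum]
    refine Finset.sum_congr rfl fun d _ => ?_
    rw [map_smul, smul_eq_mul]
  have hadj : ∀ (M M' : U →ₗ[ℂ] U), (∀ u v, S (M u) v = S u (M' v)) →
      ∀ u v, ω (Th E F M u) v = ω u (Th E F M' v) := by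
    intro M M' hM u v
    rw [hB.alt u, hωT, hωT, Finset.sum_comm, ← Finset.sum_neg_distrib]
    refine Finset.sum_congr rfl fun c _ => ?_
    rw [← Finset.sum_neg_distrib]
    refine Finset.sum_congr rfl fun d _ => ?_
    rw [hM, hSs (F d u), hganti c d]
    ring
  have hpω : ∀ u v, ω (p u) v = ω u (p v) := hadj _ _ fun u v => rfl
  have hLf : ∀ M : U →ₗ[ℂ] U, (∀ u v, S (M u) v = -S u (M v)) → LfE L ω (Th E F M) := by
    intro M hM
    refine ⟨fun T hT => (hcom M T hT).symm, fun u v => ?_⟩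
    have h1 := hadj M (-M) (fun u v => by rw [hM, LinearMap.neg_apply, map_neg]) u v
    rw [h1, map_neg, LinearMap.neg_apply, map_neg]
    ring
  have hRo : ∀ i j, i ≠ j → Th E F (Ro e i j) ∈ L := by
    intro i j hij
    obtain ⟨k, hk1, hk2⟩ : ∃ k, k ≠ i ∧ k ≠ j := by
      have h1 : ({i, j} : Finset (Fin (finrank ℂ U))).card < Fintype.card (Fin (finrank ℂ U)) := by
        rw [Fintype.card_fin]
        exact lt_of_le_of_lt Finset.card_le_two (by omega)
      obtain ⟨k, hk⟩ := Finset.exists_mem_notMem_of_card_lt_card (s := {i, j}) (t := Finset.univ)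
        (by rwa [Finset.card_univ])
      refine ⟨k, fun h => hk.2 (by simp [h]), fun h => hk.2 (by simp [h])⟩
    rw [Ro_br hij hk1.symm hk2.symm, map_sub, Th_mul hFE, Th_mul hFE]
    exact hB.br _ _ (hLf _ (Ro_skew he hk1.symm)) (hLf _ (Ro_skew he hk2))
  have hTL : ∀ M : U →ₗ[ℂ] U, (∀ u v, S (M u) v = -S u (M v)) → Th E F M ∈ L := by
    intro M hM
    rw [skew_sum he hSs M hM, map_smul, map_sum]
    refine Submodule.smul_mem _ _ (Submodule.sum_mem _ fun i _ => ?_)
    rw [map_sum]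
    refine Submodule.sum_mem _ fun j _ => ?_
    rw [map_smul]
    by_cases hij : i = j
    · subst hij
      have h1 : S (e i) (M (e i)) = 0 := by
        have h2 := hM (e i) (e i)
        rw [hSs] at h2
        exact self_eq_neg.1 h2
      rw [h1, zero_smul]
      exact Submodule.zero_mem _
    · exact Submodule.smul_mem _ _ (hRo i j hij)
  refine ⟨p, hpp, fun T hT => hcom _ T hT, fun X hX => (hXp X hX).trans (hpX X hX).symm, hpω, hpu,
    fun X hX => ?_, hQp, ?_⟩
  · rw [hXp X hX]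
    refine hTL _ fun u v => ?_
    have h1 := hSX X hX u v (X.restrict (hst X hX) u) (X.restrict (hst X hX) v) rfl rfl
    linear_combination h1
  -- the forms
  intro κ _ _ ψ hψ hsup
  let N' : ∀ (κ : Type) [Finite κ], Submodule ℂ (MultilinearMap ℂ (fun _ : κ => U) ℂ) :=
    fun κ _ =>
    { carrier := {ξ | ∀ q : κ → (V →ₗ[ℂ] U), (∀ k, ∀ X ∈ L, ∀ v, ((q k (X v) : U) : V) = X (q k v)) →
        ξ.compLinearMap q ∈ N κ}
      zero_mem' := by
        intro q _
        have h1 : (0 : MultilinearMap ℂ (fun _ : κ => U) ℂ).compLinearMap q = 0 :=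
          MultilinearMap.ext fun v => rfl
        rw [h1]
        exact Submodule.zero_mem _
      add_mem' := by
        intro ξ ξ' h1 h2 q hq
        have h3 : (ξ + ξ').compLinearMap q = ξ.compLinearMap q + ξ'.compLinearMap q :=
          MultilinearMap.ext fun v => rfl
        rw [h3]
        exact Submodule.add_mem _ (h1 q hq) (h2 q hq)
      smul_mem' := by
        intro t ξ h1 q hq
        have h3 : (t • ξ).compLinearMap q = t • ξ.compLinearMap q :=
          MultilinearMap.ext fun v => rfl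
        rw [h3]
        exact Submodule.smul_mem _ _ (h1 q hq) }
  have hN' : Clo N' := by
    constructor
    · intro κ _ _ φ q _
      exact hN.unit _ _
    · intro κ κ' κ'' _ _ _ ε φ φ' ψ h1 h2 h3 q hq
      refine hN.mul κ κ' κ'' ε (φ.compLinearMap fun k => q (ε (Sum.inl k)))
        (φ'.compLinearMap fun k => q (ε (Sum.inr k))) _ (h1 _ fun k => hq _) (h2 _ fun k => hq _)
        fun v => ?_
      rw [MultilinearMap.compLinearMap_apply, h3]
      rfl
  have hSN : bil2 S ∈ N' (Fin 2) := by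
    intro q hq
    have h1 : (bil2 S).compLinearMap q = bil2 (S.compl₁₂ (q 0) (q 1)) := by
      refine MultilinearMap.ext fun v => rfl
    rw [h1]
    refine hpair _ fun X hX u v => ?_
    exact hSX X hX (q 0 u) (q 1 v) (q 0 (X u)) (q 1 (X v)) (hq 0 X hX u) (hq 1 X hX v)
  have hdN : e.det.toMultilinearMap ∈ N' (Fin (finrank ℂ U)) := by
    intro q hq
    exact hdet _ e q hq _ fun v => rfl
  have h1 : ψ = ∑ c : κ → Fin m, (ψ.compLinearMap fun k => E (c k)).compLinearMap
      fun k => F (c k) := by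
    refine MultilinearMap.ext fun v => ?_
    rw [← hsup v, _root_.sum_apply]
    simp only [hpv]
    rw [MultilinearMap.map_sum]
    rfl
  rw [h1]
  refine Submodule.sum_mem _ fun c _ => ?_
  have h2 : ψ.compLinearMap (fun k => E (c k)) ∈ N' κ := by
    refine so_fft hN' he hSN hdN ?_
    intro i j hij u
    have h3 := hψ _ (hRo i j hij) fun k => E (c k) (u k)
    rw [← h3]
    refine Finset.sum_congr rfl fun k _ => ?_
    rw [MultilinearMap.compLinearMap_apply, Th_E hFE]
    congr 1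
    funext l
    by_cases hl : l = k
    · subst hl
      rw [Function.update_self, Function.update_self]
    · rw [Function.update_of_ne hl, Function.update_of_ne hl]
  exact h2 _ fun k => hF (c k)

end

end Pool.Agent.H926.T
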