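import Pool.Agent.H926.T.Jobs3

/-! S_RK1: elements of rank one (helper190). -/

set_option autoImplicit false
set_option linter.unusedSectionVars false

namespace Pool.Agent.H926.T

open Module

section rk

variable {V : Type} [AddCommGroup V] [Module ℂ V] [FiniteDimensional ℂ V]

/-- the image of `U` is a line -/
theorem rk_line (U : Submodule ℂ V) (N : End ℂ V) (f : V →ₗ[ℂ] ℂ) (a : V) (κ : ℂ) (hκ : κ ≠ 0)
    (ha : a ≠ 0) (w : V) (hw : w ∈ U) (hfw : f w ≠ 0) (hN : ∀ u ∈ U, N u = (κ * f u) • a) :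
    finrank ℂ (U.map N) = 1 := by
  have h : U.map N = Submodule.span ℂ {a} := by
    apply le_antisymm
    · rintro _ ⟨u, hu, rfl⟩
      rw [hN u hu]
      exact Submodule.smul_mem _ _ (Submodule.mem_span_singleton_self a)
    · rw [Submodule.span_singleton_le_iff_mem]
      refine ⟨(κ * f w)⁻¹ • w, U.smul_mem _ hw, ?_⟩
      rw [map_smul, hN w hw, smul_smul, inv_mul_cancel₀ (mul_ne_zero hκ hfw), one_smul]
  rw [h]
  exact finrank_span_singleton ha

/-- the operator of rank one built from `f` and `a` -/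
theorem rk_core (h : S_TH) (L : Submodule ℂ (End ℂ V)) (ω : V →ₗ[ℂ] V →ₗ[ℂ] ℂ) (hB : LB L ω)
    (U : Submodule ℂ V) (hU : IrE L U) (D : End ℂ V) (hD : D ∈ L) (f : V →ₗ[ℂ] ℂ)
    (a : V) (haU : a ∈ U) (hDa : D a = a) (hf : ∀ u ∈ U, f (D u) = -f u) :
    ∃ X X' : End ℂ V, (∀ u v, ω (X u) v = ω u (X' v)) ∧
      (∀ T, ComE L T → X * T = T * X ∧ X' * T = T * X') ∧
      (∀ u ∈ U, X u = f u • a) ∧
      (¬PairE L U U → ∀ u ∈ U, X' u = 0) ∧
      (∀ b : V →ₗ[ℂ] V →ₗ[ℂ] ℂ, (∀ A ∈ L, ∀ u v, b (A u) v + b u (A v) = 0) →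
        ∀ u v, b (X u) v = b u (X' v)) ∧
      (X - X') ∈ L ∧ D * (X - X') = X - X' ∧ (X - X') * D = -(X - X') := by
  let M : U →ₗ[ℂ] U := (f.comp U.subtype).smulRight (⟨a, haU⟩ : U)
  have hM : ∀ u : U, (M u : V) = f u • a := fun u => rfl
  obtain ⟨X, X', h1, h2, h3, h4, h5, h6, h7, h8⟩ := h V L ω hB.toLB0 U hU M
  obtain ⟨e1, e2⟩ := h7 D hD 1 fun u => by
    rw [hM, map_smul, hDa, one_smul]
  obtain ⟨e3, e4⟩ := h8 D hD (-1) fun u hu hA => by
    apply Subtype.ext
    show (M ⟨D u, hA⟩ : V) = (-1 : ℂ) • (M ⟨u, hu⟩ : V)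
    rw [hM, hM]
    show f (D u) • a = (-1 : ℂ) • (f u • a)
    rw [hf u hu, neg_smul, neg_smul, one_smul]
  rw [one_smul] at e1 e2
  have e3' : X * D = -X := by rw [e3, neg_smul, one_smul]
  have e4' : D * X' = X' := by rw [e4, neg_smul, one_smul, neg_neg]
  have hDN : D * (X - X') = X - X' := by rw [mul_sub, e1, e4']
  have hND : (X - X') * D = -(X - X') := by
    rw [sub_mul, e3', e2]
    abel
  have hLD : LfE L ω D := ⟨fun T hT => hT D hD, fun u v => hB.skew D hD u v⟩
  have hLN : LfE L ω (X - X') := by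
    refine ⟨fun T hT => ?_, fun u v => ?_⟩
    · rw [sub_mul, mul_sub, (h2 T hT).1, (h2 T hT).2]
    · have k1 := h1 u v
      have k2 := h1 v u
      have k3 := hB.alt (X' u) v
      have k4 := hB.alt (X v) u
      have s1 : ω ((X - X') u) v = ω (X u) v - ω (X' u) v := by
        rw [LinearMap.sub_apply, map_sub, LinearMap.sub_apply]
      have s2 : ω u ((X - X') v) = ω u (X v) - ω u (X' v) := by
        rw [LinearMap.sub_apply, map_sub]
      rw [s1, s2, k1, k3, ← k2, k4]
      ring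
  have hN : X - X' ∈ L := by
    have k := hB.br D (X - X') hLD hLN
    rw [hDN, hND, sub_neg_eq_add, ← two_smul ℂ (X - X')] at k
    have k2 := L.smul_mem (2 : ℂ)⁻¹ k
    rwa [smul_smul, inv_mul_cancel₀ (two_ne_zero), one_smul] at k2
  exact ⟨X, X', h1, h2, fun u hu => h3 ⟨u, hu⟩, fun hp => h5 U hU hp, h6, hN, hDN, hND⟩

end rk

theorem s_rk1 (h : S_TH) : S_RK1 := by
  intro V _ _ _ L ω hB U hU hO D hD hD2 hns
  have hDD : ∀ v, D (D v) = v := fun v => by
    have := congrArg (fun T : End ℂ V => T v) hD2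
    exact this
  -- the vector `a`
  obtain ⟨u0, hu0, hu0'⟩ := hns (-1)
  have haU : u0 + D u0 ∈ U := U.add_mem hu0 (hU.2.1 D hD u0 hu0)
  have ha0 : u0 + D u0 ≠ 0 := fun h0 => hu0' (by
    rw [neg_smul, one_smul]
    exact eq_neg_of_add_eq_zero_right h0)
  have hDa : D (u0 + D u0) = u0 + D u0 := by rw [map_add, hDD, add_comm]
  generalize u0 + D u0 = a at haU ha0 hDa
  by_cases hP : PairE L U U
  · -- the self dual case
    obtain ⟨b₀, hb₀, hb₀'⟩ := hP
    obtain ⟨p, hp1, hp2, hp3⟩ := hB.ss U (fun X hX w hw => hU.2.1 X hX w hw)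
    have hpc : ComE L p := fun X hX => hp1 X hX
    have hpA : ∀ A ∈ L, ∀ u, p (A u) = A (p u) := fun A hA u => by
      have := congrArg (fun T : End ℂ V => T u) (hp1 A hA)
      exact this.symm
    let b : V →ₗ[ℂ] V →ₗ[ℂ] ℂ := (b₀.comp p).compl₂ p
    have hbdef : ∀ u v, b u v = b₀ (p u) (p v) := fun u v => rfl
    have hbU : ∀ u ∈ U, ∀ v ∈ U, b u v = b₀ u v := fun u hu v hv => by
      rw [hbdef, hp3 u hu, hp3 v hv]
    have hbinv : ∀ A ∈ L, ∀ u v, b (A u) v + b u (A v) = 0 := fun A hA u v => by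
      rw [hbdef, hbdef, hpA A hA, hpA A hA]
      exact hb₀ A hA _ (hp2 u) _ (hp2 v)
    have halt : ∀ u ∈ U, ∀ v ∈ U, b u v = -b v u := by
      by_contra hcon
      push Not at hcon
      obtain ⟨u, hu, v, hv, huv⟩ := hcon
      refine hO ⟨b + b.flip, fun X hX u _ v _ => ?_, ⟨u, hu, v, hv, fun h0 => huv ?_⟩,
        fun u _ v _ => ?_⟩
      · have k1 := hbinv X hX u v
        have k2 := hbinv X hX v u
        show b (X u) v + b v (X u) + (b u (X v) + b (X v) u) = 0
        linear_combination k1 + k2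
      · have k : b u v + b v u = 0 := h0
        exact eq_neg_of_add_eq_zero_left k
      · show b u v + b v u = b v u + b u v
        rw [add_comm]
    have hnd : ∀ u ∈ U, (∀ v ∈ U, b u v = 0) → u = 0 := by
      let K : Submodule ℂ V :=
        { carrier := {u | u ∈ U ∧ ∀ v ∈ U, b u v = 0}
          add_mem' := by
            rintro x y ⟨hx, hx'⟩ ⟨hy, hy'⟩
            refine ⟨U.add_mem hx hy, fun v hv => ?_⟩
            rw [map_add, LinearMap.add_apply, hx' v hv, hy' v hv, add_zero]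
          zero_mem' := ⟨U.zero_mem, fun v _ => by rw [map_zero, LinearMap.zero_apply]⟩
          smul_mem' := by
            rintro c x ⟨hx, hx'⟩
            refine ⟨U.smul_mem c hx, fun v hv => ?_⟩
            rw [map_smul, LinearMap.smul_apply, hx' v hv, smul_zero] }
      have hK : ∀ u, u ∈ K ↔ u ∈ U ∧ ∀ v ∈ U, b u v = 0 := fun u => Iff.rfl
      rcases hU.2.2 K (fun u hu => ((hK u).1 hu).1) (fun A hA u hu => by
        obtain ⟨hu1, hu2⟩ := (hK u).1 hu
        refine (hK _).2 ⟨hU.2.1 A hA u hu1, fun v hv => ?_⟩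
        have k := hbinv A hA u v
        rw [hu2 (A v) (hU.2.1 A hA v hv), add_zero] at k
        exact k) with hb | hb
      · intro u hu huv
        have : u ∈ K := (hK u).2 ⟨hu, huv⟩
        rw [hb] at this
        exact (Submodule.mem_bot ℂ).1 this
      · exfalso
        obtain ⟨u, hu, v, hv, huv⟩ := hb₀'
        have : u ∈ K := by rw [hb]; exact hu
        exact huv (by rw [← hbU u hu v hv]; exact ((hK u).1 this).2 v hv)
    have hf : ∀ u ∈ U, b a (D u) = -b a u := fun u _ => by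
      have k := hbinv D hD a u
      rw [hDa] at k
      exact eq_neg_of_add_eq_zero_right k
    obtain ⟨w, hw, hfw⟩ : ∃ w ∈ U, b a w ≠ 0 := by
      by_contra hcon
      push Not at hcon
      exact ha0 (hnd a haU hcon)
    obtain ⟨X, X', _, h2, h3, _, h6, h9, h10, h11⟩ :=
      rk_core h L ω hB U hU D hD (b a) a haU hDa hf
    refine ⟨X - X', h9, h10, h11, rk_line U (X - X') (b a) a 2 two_ne_zero ha0 w hw hfw ?_⟩
    intro v hv
    have hX'U : X' v ∈ U := by
      have k := congrArg (fun T : End ℂ V => T v) (h2 p hpc).2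
      have k' : X' (p v) = p (X' v) := k
      rw [hp3 v hv] at k'
      rw [k']
      exact hp2 _
    have hz : X' v + (b a v) • a = 0 := by
      apply hnd _ (U.add_mem hX'U (U.smul_mem _ haU))
      intro u hu
      rw [halt _ (U.add_mem hX'U (U.smul_mem _ haU)) u hu, neg_eq_zero, map_add, map_smul,
        ← h6 b hbinv u v, h3 u hu, map_smul, LinearMap.smul_apply, halt u hu a haU, smul_eq_mul,
        smul_eq_mul]
      ring
    rw [LinearMap.sub_apply, h3 v hv, eq_neg_of_add_eq_zero_left hz, sub_neg_eq_add, ← add_smul]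
    congr 1
    ring
  · -- no pairing
    obtain ⟨u1, hu1, hu1'⟩ := hns 1
    have hwU : u1 - D u1 ∈ U := U.sub_mem hu1 (hU.2.1 D hD u1 hu1)
    have hw0 : u1 - D u1 ≠ 0 := fun h0 => hu1' (by rw [one_smul]; exact (sub_eq_zero.1 h0).symm)
    have hDw : D (u1 - D u1) = -(u1 - D u1) := by rw [map_sub, hDD]; abel
    generalize u1 - D u1 = w at hwU hw0 hDw
    obtain ⟨g, hg⟩ : ∃ g : V →ₗ[ℂ] ℂ, g w ≠ 0 := by
      by_contra hcon
      push Not at hcon
      exact hw0 ((Module.forall_dual_apply_eq_zero_iff ℂ w).1 hcon)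
    let f : V →ₗ[ℂ] ℂ := g.comp (1 - D)
    have hfdef : ∀ u, f u = g u - g (D u) := fun u => by
      show g ((1 - D) u) = _
      rw [LinearMap.sub_apply, map_sub]
      rfl
    have hf : ∀ u ∈ U, f (D u) = -f u := fun u _ => by
      rw [hfdef, hfdef, hDD]
      ring
    have hfw : f w ≠ 0 := by
      rw [hfdef, hDw, map_neg, sub_neg_eq_add, ← two_mul]
      exact mul_ne_zero two_ne_zero hg
    obtain ⟨X, X', _, _, h3, h5, _, h9, h10, h11⟩ :=
      rk_core h L ω hB U hU D hD f a haU hDa hf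
    refine ⟨X - X', h9, h10, h11, rk_line U (X - X') f a 1 one_ne_zero ha0 w hwU hfw ?_⟩
    intro v hv
    rw [LinearMap.sub_apply, h3 v hv, h5 hP v hv, sub_zero, one_mul]

end Pool.Agent.H926.T

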