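import Pool.Agent.H926.T.Jobs3

/-!
# S_TH: elements of the double commutant from dual bases (helper353)
-/

set_option linter.unusedSectionVars false

namespace Pool.Agent.H926.T

open Module

namespace ThAux

variable {V : Type} [AddCommGroup V] [Module ℂ V] [FiniteDimensional ℂ V]

theorem bij (ω : V →ₗ[ℂ] V →ₗ[ℂ] ℂ) (nd : ∀ u, (∀ v, ω u v = 0) → u = 0) :
    Function.Bijective ω := by
  have hinj : Function.Injective ω := by
    rw [← LinearMap.ker_eq_bot, LinearMap.ker_eq_bot']
    intro u hu
    exact nd u fun v => by rw [hu]; rfl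
  refine ⟨hinj, ?_⟩
  exact (LinearMap.injective_iff_surjective_of_finrank_eq_finrank
    (Subspace.dual_finrank_eq (K := ℂ) (V := V)).symm).1 hinj

/-- every bilinear form is `ω (T u) v` for an operator `T` -/
theorem rep (ω : V →ₗ[ℂ] V →ₗ[ℂ] ℂ) (nd : ∀ u, (∀ v, ω u v = 0) → u = 0)
    (b : V →ₗ[ℂ] V →ₗ[ℂ] ℂ) : ∃ T : End ℂ V, ∀ u v, b u v = ω (T u) v := by
  let e := LinearEquiv.ofBijective ω (bij ω nd)
  refine ⟨e.symm.toLinearMap ∘ₗ b, fun u v => ?_⟩
  have h : ω (e.symm (b u)) = b u := e.apply_symm_apply (b u)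
  change b u v = ω (e.symm (b u)) v
  rw [h]

/-- adjoints exist -/
theorem adj (ω : V →ₗ[ℂ] V →ₗ[ℂ] ℂ) (alt : ∀ u v, ω u v = -ω v u)
    (nd : ∀ u, (∀ v, ω u v = 0) → u = 0) (T : End ℂ V) :
    ∃ T' : End ℂ V, ∀ u v, ω (T u) v = ω u (T' v) := by
  obtain ⟨S, hS⟩ := rep ω nd (-(ω ∘ₗ T).flip)
  refine ⟨S, fun u v => ?_⟩
  have h := hS v u
  rw [alt u (S v), ← h]
  simp

theorem uniq (ω : V →ₗ[ℂ] V →ₗ[ℂ] ℂ) (alt : ∀ u v, ω u v = -ω v u)
    (nd : ∀ u, (∀ v, ω u v = 0) → u = 0) {x y : V} (h : ∀ u, ω u x = ω u y) : x = y := by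
  rw [← sub_eq_zero]
  apply nd
  intro v
  rw [alt, map_sub, h v, sub_self, neg_zero]

end ThAux

open ThAux

theorem s_th (h : S_DUAL) : S_TH := by
  intro V _ _ _ L ω hB U hU M
  classical
  have alt := hB.alt
  have nd := hB.nd
  have skew := hB.skew
  obtain ⟨n, E, F, hE, hF, hFE, hEs, hFs⟩ := h V (L : Set (End ℂ V)) hB.ss U hU.1 hU.2.1 hU.2.2
  have hst := hU.2.1
  set X : End ℂ V := ∑ c, (E c ∘ₗ M ∘ₗ F c) with hX
  have hXv : ∀ v, X v = ∑ c, E c (M (F c v)) := by
    intro v
    rw [hX, LinearMap.sum_apply]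
    rfl
  obtain ⟨X', hX'⟩ := adj ω alt nd X
  -- the scalars
  obtain ⟨u₀, hu₀U, hu₀⟩ := (Submodule.ne_bot_iff U).1 hU.1
  have hsc : ∀ a b : ℂ, (∀ u : U, a • u = b • u) → a = b := by
    intro a b hab
    have h1 := congrArg (fun z : U => (z : V)) (hab ⟨u₀, hu₀U⟩)
    have h2 : (a - b) • u₀ = 0 := by
      rw [sub_smul, sub_eq_zero]
      simpa using h1
    rcases smul_eq_zero.1 h2 with h3 | h3
    · exact sub_eq_zero.1 h3
    · exact absurd h3 hu₀
  have hcomm : ∀ T, ComE L T → X * T = T * X := by
    intro T hT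
    have hTA : ∀ A ∈ L, ∀ v, A (T v) = T (A v) := fun A hA v => by
      have := congrArg (fun z : End ℂ V => z v) (hT A hA)
      simpa using this
    have h1 : ∀ c, ∃ t : Fin n → ℂ, T ∘ₗ E c = ∑ d, t d • E d := by
      intro c
      apply hEs
      intro A hA u hu hAu
      change T (E c ⟨A u, hAu⟩) = A (T (E c ⟨u, hu⟩))
      rw [hE c A hA u hu hAu, hTA A hA]
    have h2 : ∀ d, ∃ s : Fin n → ℂ, F d ∘ₗ T = ∑ c, s c • F c := by
      intro d
      apply hFs
      intro A hA v
      change ((F d (T (A v)) : U) : V) = A (F d (T v))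
      rw [← hTA A hA, hF d A hA]
    choose t ht using h1
    choose s hs using h2
    have ht' : ∀ c u, T (E c u) = ∑ d, t c d • E d u := by
      intro c u
      have := congrArg (fun z : U →ₗ[ℂ] V => z u) (ht c)
      simpa using this
    have hs' : ∀ d v, F d (T v) = ∑ c, s d c • F c v := by
      intro d v
      have := congrArg (fun z : V →ₗ[ℂ] U => z v) (hs d)
      simpa using this
    have hts : ∀ c d, t c d = s d c := by
      intro c d
      apply hsc
      intro u
      have e1 : F d (T (E c u)) = t c d • u := by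
        rw [ht' c u, map_sum]
        rw [Finset.sum_eq_single d]
        · rw [map_smul, hFE, if_pos rfl]
        · intro b _ hb
          rw [map_smul, hFE, if_neg (Ne.symm hb), smul_zero]
        · intro hd; exact absurd (Finset.mem_univ d) hd
      have e2 : F d (T (E c u)) = s d c • u := by
        rw [hs' d]
        rw [Finset.sum_eq_single c]
        · rw [hFE, if_pos rfl]
        · intro b _ hb
          rw [hFE, if_neg hb, smul_zero]
        · intro hd; exact absurd (Finset.mem_univ c) hd
      rw [← e1, e2]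
    ext v
    change X (T v) = T (X v)
    rw [hXv, hXv, map_sum]
    have e1 : ∀ d, E d (M (F d (T v))) = ∑ c, s d c • E d (M (F c v)) := by
      intro d
      rw [hs' d v, map_sum, map_sum]
      refine Finset.sum_congr rfl fun c _ => ?_
      rw [map_smul, map_smul]
    have e2 : ∀ c, T (E c (M (F c v))) = ∑ d, t c d • E d (M (F c v)) := fun c => ht' c _
    simp_rw [e1, e2]
    rw [Finset.sum_comm]
    refine Finset.sum_congr rfl fun c _ => Finset.sum_congr rfl fun d _ => ?_
    rw [hts]
  refine ⟨X, X', hX', ?_, ?_, ?_, ?_, ?_, ?_, ?_⟩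
  · -- (2)
    intro T hT
    refine ⟨hcomm T hT, ?_⟩
    obtain ⟨T', hT'⟩ := adj ω alt nd T
    have hTA : ∀ A ∈ L, ∀ v, A (T v) = T (A v) := fun A hA v => by
      have := congrArg (fun z : End ℂ V => z v) (hT A hA)
      simpa using this
    have hT'c : ComE L T' := by
      intro A hA
      ext v
      change A (T' v) = T' (A v)
      apply uniq ω alt nd
      intro u
      have e1 := skew A hA u (T' v)
      have e2 := skew A hA (T u) v
      have e3 : ω (A (T u)) v = ω (A u) (T' v) := by rw [hTA A hA, hT']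
      have e4 := hT' u (A v)
      linear_combination e1 - e2 + e3 + e4
    have hXT' := hcomm T' hT'c
    have hXT : ∀ v, X (T' v) = T' (X v) := fun v => by
      have := congrArg (fun z : End ℂ V => z v) hXT'
      simpa using this
    ext v
    change X' (T v) = T (X' v)
    apply uniq ω alt nd
    intro u
    have e1 := hX' u (T v)
    have e2 := alt (X u) (T v)
    have e3 := hT' v (X u)
    have e4 : ω v (T' (X u)) = ω v (X (T' u)) := by rw [hXT]
    have e5 := alt v (X (T' u))
    have e6 := hX' (T' u) v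
    have e7 := alt (T' u) (X' v)
    have e8 := hT' (X' v) u
    have e9 := alt (T (X' v)) u
    linear_combination -e1 + e2 - e3 - e4 - e5 + e6 + e7 + e8 - e9
  · -- (3)
    intro u
    obtain ⟨s, hs⟩ := hEs U.subtype (fun A hA u hu hAu => rfl)
    have hs' : ∀ u : U, (u : V) = ∑ c, s c • E c u := by
      intro u
      have := congrArg (fun z : U →ₗ[ℂ] V => z u) hs
      simpa using this
    have hFu : ∀ c, F c (u : V) = s c • u := by
      intro c
      rw [hs' u, map_sum, Finset.sum_eq_single c]
      · rw [map_smul, hFE, if_pos rfl]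
      · intro b _ hb
        rw [map_smul, hFE, if_neg (Ne.symm hb), smul_zero]
      · intro hd; exact absurd (Finset.mem_univ c) hd
    rw [hXv, hs' (M u)]
    refine Finset.sum_congr rfl fun c _ => ?_
    rw [hFu, map_smul, map_smul]
  · -- (4)
    intro U' hU' hiso u hu
    rw [hXv]
    refine Finset.sum_eq_zero fun c _ => ?_
    have : F c u = 0 := by
      by_contra hne
      apply hiso
      refine ⟨U.subtype ∘ₗ F c, ?_, ?_, u, hu, ?_⟩
      · intro A hA w _
        exact hF c A hA w
      · intro w _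
        exact (F c w).2
      · intro h0
        exact hne (Subtype.ext h0)
    rw [this, map_zero, map_zero]
  · -- (5)
    intro U' hU' hpair u hu
    obtain ⟨π, hπ⟩ := LinearMap.exists_leftInverse_of_injective U.subtype
      (LinearMap.ker_eq_bot.2 U.subtype_injective)
    have hπ' : ∀ w : U, π (w : V) = w := fun w => by
      have := congrArg (fun z : U →ₗ[ℂ] U => z w) hπ
      simpa using this
    have key : ∀ (c : Fin n) (w : U), ω (E c w) u = 0 := by
      intro c w
      by_contra hne
      apply hpair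
      refine ⟨(ω ∘ₗ E c ∘ₗ π).flip, ?_, u, hu, (w : V), w.2, ?_⟩
      · intro A hA x hx y hy
        have hAy : A y ∈ U := hst A hA y hy
        change ω (E c (π y)) (A x) + ω (E c (π (A y))) x = 0
        have e1 : π y = ⟨y, hy⟩ := hπ' ⟨y, hy⟩
        have e2 : π (A y) = ⟨A y, hAy⟩ := hπ' ⟨A y, hAy⟩
        rw [e1, e2, hE c A hA y hy hAy, add_comm]
        exact skew A hA _ _
      · change ω (E c (π (w : V))) u ≠ 0
        rw [hπ']
        exact hne
    apply uniq ω alt nd
    intro v
    rw [← hX', hXv, map_sum, LinearMap.sum_apply, map_zero]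
    exact Finset.sum_eq_zero fun c _ => key c _
  · -- (6)
    intro b hb u v
    obtain ⟨T, hT⟩ := rep ω nd b
    have hTc : ComE L T := by
      intro A hA
      ext u
      change A (T u) = T (A u)
      apply uniq ω alt nd
      intro v
      have e1 := hb A hA u v
      rw [hT, hT] at e1
      have e2 := skew A hA (T u) v
      have e3 := alt v (A (T u))
      have e4 := alt v (T (A u))
      linear_combination e3 - e4 - e2 + e1
    have hXT : ∀ v, X (T v) = T (X v) := fun v => by
      have := congrArg (fun z : End ℂ V => z v) (hcomm T hTc)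
      simpa using this
    rw [hT, hT, ← hXT, hX']
  · -- (7)
    intro A hA c hc
    have h1 : ∀ v, A (X v) = c • X v := by
      intro v
      rw [hXv, map_sum, Finset.smul_sum]
      refine Finset.sum_congr rfl fun d _ => ?_
      have hm : A ((M (F d v) : U) : V) ∈ U := hst A hA _ (M (F d v)).2
      rw [← hE d A hA _ (M (F d v)).2 hm, ← map_smul]
      congr 1
      exact Subtype.ext (hc (F d v))
    refine ⟨LinearMap.ext h1, ?_⟩
    ext v
    change X' (A v) = -(c • X' v)
    apply uniq ω alt nd
    intro u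
    have e1 := hX' u (A v)
    have e2 := skew A hA (X u) v
    rw [h1 u, map_smul, LinearMap.smul_apply, smul_eq_mul] at e2
    have e3 := hX' u v
    rw [map_neg, map_smul, smul_eq_mul]
    linear_combination -e1 + e2 - c * e3
  · -- (8)
    intro A hA c hc
    have h1 : ∀ v, X (A v) = c • X v := by
      intro v
      rw [hXv, hXv, Finset.smul_sum]
      refine Finset.sum_congr rfl fun d _ => ?_
      have hm : A ((F d v : U) : V) ∈ U := hst A hA _ (F d v).2
      have e1 : F d (A v) = ⟨A (F d v : U), hm⟩ := Subtype.ext (hF d A hA v)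
      have e2 := hc ((F d v : U) : V) (F d v).2 hm
      rw [e1, e2, map_smul]
    refine ⟨LinearMap.ext h1, ?_⟩
    ext v
    change A (X' v) = -(c • X' v)
    apply uniq ω alt nd
    intro u
    have e1 := skew A hA u (X' v)
    have e2 := hX' (A u) v
    rw [h1 u, map_smul, LinearMap.smul_apply, smul_eq_mul] at e2
    have e3 := hX' u v
    rw [map_neg, map_smul, smul_eq_mul]
    linear_combination e1 + e2 - c * e3

end Pool.Agent.H926.T
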