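import Mathlib
import Pool.Agent.H926.Fin
import Pool.Agent.H926.T3d
import Pool.Agent.H926.T.Jobs3

/-!
# Invariant forms belong to the system
-/

set_option linter.unusedSectionVars false

namespace Pool.Agent.H926.T

open Matrix Module Pool.Agent.Y90 Pool.Agent.W437.HC Pool.Agent.W437.HD
  Pool.Agent.TH504.CB Pool.Agent.W522.U
open Pool.Agent.W548.Odd hiding cv
open Pool.Agent.H204R3.CM (IsHodge)
open Pool.Agent.H204R3.SP (Kills bil2 IsTate)
open Pool.Agent.Y4.P (PD NZ clo_NZ WeilRing altQ_alt)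

noncomputable section

variable {G : ℕ} {Z : Matrix (Fin G) (Fin G) ℂ}

theorem irs_iff {U : Submodule ℂ (Fin G ⊕ Fin G → ℂ)} : IrE (GG (LZ Z)) U ↔ IrS (LZ Z) U := by
  unfold IrE IrS StE
  rw [stab_GG]
  refine and_congr Iff.rfl (and_congr Iff.rfl (forall_congr' fun W => ?_))
  rw [stab_GG]

theorem supp_all (hNon : S_NON) (hOrt : S_ORT) (hDet : S_DET1) (hO3 : S_O3) (h : PM Z)
    (hB : LB (GG (LZ Z)) (om G)) (n : ℕ) :
    ∀ Q : End ℂ (Fin G ⊕ Fin G → ℂ), finrank ℂ (LinearMap.range Q) = n → Q * Q = Q →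
      (∀ T, ComE (GG (LZ Z)) T → T * Q = Q * T) → (∀ X ∈ GG (LZ Z), X * Q = Q * X) →
      (∀ u v, om G (Q u) v = om G u (Q v)) → Supp (GG (LZ Z)) (fun κ _ => NZ Z κ) Q := by
  induction n using Nat.strong_induction_on with
  | _ n ih =>
    intro Q hn hQ hQC hQL hQω
    by_cases hex : ∃ U, IrE (GG (LZ Z)) U ∧ U ≤ LinearMap.range Q ∧ OrtE (GG (LZ Z)) U
    · obtain ⟨U, hU, hUQ, hO⟩ := hex
      have hDm : ph (Fin G ⊕ Fin G) (DZ Z) ∈ GG (LZ Z) := mem_GG.2 DZ_mem
      have hD2 : ph (Fin G ⊕ Fin G) (DZ Z) * ph (Fin G ⊕ Fin G) (DZ Z) = 1 := by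
        rw [← map_mul, DZ_sq h.det, map_one]
      have h3 := hO3 _ (GG (LZ Z)) U hU hO _ hDm hD2
      obtain ⟨p, pp, pC, pL, pω, pU, pX, pQ, pS⟩ := hOrt _ (GG (LZ Z)) (om G) hB U hU hO h3
        (fun κ _ => NZ Z κ) (clo_NZ Z)
        (fun b hb => bil_mem h b fun X hX u v => hb _ (mem_GG.2 hX) u v)
        (fun m e q hq ψ hψ => by
          obtain ⟨b, hb1, hb2, -⟩ := hO
          exact hDet G Z h U (irs_iff.1 hU) b (fun X hX u hu v hv =>
            hb1 _ (mem_GG.2 hX) u hu v hv) hb2 m e q (fun i X hX v => hq i _ (mem_GG.2 hX) v) ψ hψ)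
      have hQU : ∀ u ∈ U, Q u = u := by
        intro u hu
        obtain ⟨w, rfl⟩ := hUQ hu
        exact LinearMap.congr_fun hQ w
      have hQp : Q * p = p := pQ Q hQC hQU
      have hpQ : p * Q = p := by rw [hQC p pL, hQp]
      have hS := ih (finrank ℂ (LinearMap.range (Q - p))) (by
        rw [← hn]
        refine Submodule.finrank_lt_finrank_of_lt (lt_of_le_of_ne ?_ ?_)
        · rintro _ ⟨w, rfl⟩
          refine ⟨(Q - p) w, ?_⟩
          have h4 : Q * (Q - p) = Q - p := by rw [mul_sub, hQ, hQp]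
          exact LinearMap.congr_fun h4 w
        · intro heq
          obtain ⟨u, hu, hu0⟩ := Submodule.exists_mem_ne_zero_of_ne_bot hU.1
          have h4 : u ∈ LinearMap.range (Q - p) := by
            rw [heq]
            exact hUQ hu
          obtain ⟨w, hw⟩ := h4
          have h5 : p * (Q - p) = 0 := by rw [mul_sub, hpQ, pp, sub_self]
          apply hu0
          rw [← pU u hu, ← hw]
          exact LinearMap.congr_fun h5 w) (Q - p) rfl
        (by rw [mul_sub, sub_mul, sub_mul, hQ, hQp, hpQ, pp]; abel)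
        (fun T hT => by rw [mul_sub, sub_mul, hQC T hT, pC T hT])
        (fun X hX => by rw [mul_sub, sub_mul, hQL X hX, pL X hX])
        (fun u v => by
          rw [LinearMap.sub_apply, LinearMap.sub_apply, map_sub, map_sub, LinearMap.sub_apply,
            hQω, pω])
      have h6 := Supp.add (P := p) (Q := Q - p) (clo_NZ Z) pp
        (by rw [mul_sub, sub_mul, sub_mul, hQ, hQp, hpQ, pp]; abel)
        (by rw [mul_sub, hpQ, pp, sub_self]) (by rw [sub_mul, hQp, pp, sub_self]) pL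
        (fun X hX => by rw [mul_sub, sub_mul, hQL X hX, pL X hX])
        (fun X hX => ⟨X * p, pX X hX, by rw [mul_assoc, mul_sub, hpQ, pp, sub_self, mul_zero],
          by rw [mul_assoc, pp]⟩) pS hS
      rwa [add_sub_cancel] at h6
    · exact hNon G Z h hB Q hQ hQC hQL hQω fun U hU hUQ hO => hex ⟨U, hU, hUQ, hO⟩

/-- **All forms killed by the Lie algebra belong to the system.** -/
theorem allF_of (hNon : S_NON) (hOrt : S_ORT) (hDet : S_DET1) (hO3 : S_O3) (hLB : S_LB) (h : PM Z)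
    (hb : BrH Z) : AllF Z := by
  intro κ _ _ ψ hψ
  refine supp_all hNon hOrt hDet hO3 h (hLB G Z h hb) _ 1 rfl (one_mul 1)
    (fun T _ => by rw [one_mul, mul_one]) (fun X _ => by rw [one_mul, mul_one]) (fun _ _ => rfl)
    κ ψ (fun y hy => ?_) fun v => rfl
  obtain ⟨A, hA, rfl⟩ := exists_GG hy
  exact hψ A hA

/-- **Hodge classes belong to the ring: period matrices.** -/
theorem hodge_pm (hNon : S_NON) (hOrt : S_ORT) (hDet : S_DET1) (hO3 : S_O3) (hLB : S_LB) (h : PM Z)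
    (hb : BrH Z) {κ : Type} [Finite κ] (f : (Fin G ⊕ Fin G → ℚ) [⋀^κ]→ₗ[ℚ] ℚ)
    (hf : IsHodge (perOne Z) f) : WeilRing (perOne Z) κ f := by
  classical
  let _ : Fintype κ := Fintype.ofFinite κ
  refine altQ_alt h f ?_
  have h2 : evalM (cst ℂ (CF f.toMultilinearMap)) ∈ NZ Z κ :=
    allF_of hNon hOrt hDet hO3 hLB h hb κ _ (hodge_kills h hf)
  exact h2 _ _

/-- **One direction of the theorem.** -/
theorem one_dir (hNon : S_NON) (hOrt : S_ORT) (hDet : S_DET1) (hO3 : S_O3) (hLB : S_LB)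
    (hRat : S_RATL) (hTra : S_TRA) {H T : Type} [AddCommGroup H] [Module ℚ H] [AddCommGroup T]
    [Module ℂ T] {per : H →+ T} (hX : St.IsAV per)
    (hbr : ∀ x y : H →ₗ[ℚ] H, InLef per x → InLef per y → InHdg per (x ∘ₗ y - y ∘ₗ x))
    {κ : Type} [Finite κ] (f : H [⋀^κ]→ₗ[ℚ] ℚ) (hf : IsHodge per f) : WeilRing per κ f := by
  obtain ⟨a, Z, h, A, hC⟩ := exists_ppav hX
  obtain ⟨t1, t2⟩ := hTra H T per a Z h A hC
  have hm : ∀ M : Matrix (Fin a ⊕ Fin a) (Fin a ⊕ Fin a) ℚ, ∃ x : H →ₗ[ℚ] H, matQ A x = M := by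
    intro M
    refine ⟨A.symm.toLinearMap ∘ₗ Matrix.mulVecLin M ∘ₗ A.toLinearMap, ?_⟩
    unfold matQ
    have h1 : A.toLinearMap ∘ₗ (A.symm.toLinearMap ∘ₗ Matrix.mulVecLin M ∘ₗ A.toLinearMap) ∘ₗ
        A.symm.toLinearMap = Matrix.toLin' M := by
      refine LinearMap.ext fun v => ?_
      simp
    rw [h1, LinearMap.toMatrix'_toLin']
  have hmul : ∀ x y : H →ₗ[ℚ] H, matQ A (x ∘ₗ y - y ∘ₗ x) =
      matQ A x * matQ A y - matQ A y * matQ A x := by
    intro x y
    unfold matQ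
    rw [← LinearMap.toMatrix'_comp, ← LinearMap.toMatrix'_comp, ← map_sub]
    congr 1
    refine LinearMap.ext fun v => ?_
    simp
  have hb : BrH Z := by
    intro X hX' Y hY'
    obtain ⟨m, c, x, hx, rfl⟩ := hRat a Z X hX'
    obtain ⟨n, d, y, hy, rfl⟩ := hRat a Z Y hY'
    have h1 : (∑ j, c j • qm (x j)) * (∑ k, d k • qm (y k)) -
        (∑ k, d k • qm (y k)) * ∑ j, c j • qm (x j) =
        ∑ j, ∑ k, (c j * d k) • (qm (x j) * qm (y k) - qm (y k) * qm (x j)) := by
      rw [Finset.sum_mul_sum, Finset.sum_mul_sum, Finset.sum_comm (s := Finset.univ (α := Fin n)),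
        ← Finset.sum_sub_distrib]
      refine Finset.sum_congr rfl fun j _ => ?_
      rw [← Finset.sum_sub_distrib]
      refine Finset.sum_congr rfl fun k _ => ?_
      rw [smul_mul_smul_comm, smul_mul_smul_comm, smul_sub, mul_comm (d k)]
    rw [h1]
    refine Submodule.sum_mem _ fun j _ => Submodule.sum_mem _ fun k _ =>
      Submodule.smul_mem _ _ ?_
    obtain ⟨x', hx'⟩ := hm (x j)
    obtain ⟨y', hy'⟩ := hm (y k)
    have h2 := (t2 _).1 (hbr x' y' ((t1 x').2 (by rw [hx']; exact hx j))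
      ((t1 y').2 (by rw [hy']; exact hy k)))
    rw [hmul, hx', hy'] at h2
    have h3 : qm (x j * y k - y k * x j) = qm (x j) * qm (y k) - qm (y k) * qm (x j) := by
      unfold qm
      rw [Matrix.map_sub _ (fun a b => Rat.cast_sub a b)]
      congr 1
      · exact Matrix.map_mul (f := Rat.castHom ℂ)
      · exact Matrix.map_mul (f := Rat.castHom ℂ)
    rwa [h3] at h2
  obtain ⟨Ψ₁, h₁⟩ := h.cht.hom hC (R := 1) (by
    rw [Pool.Agent.W437.HP.cK_one, Matrix.one_mul, Matrix.mul_one])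
  obtain ⟨Ψ₂, h₂⟩ := hC.hom h.cht (R := 1) (by
    rw [Pool.Agent.W437.HP.cK_one, Matrix.one_mul, Matrix.mul_one])
  have e₁ : ∀ w, Ψ₁ (perOne Z w) = per (A.symm w) := fun w => by
    rw [h₁, one_mulVec]
    rfl
  have e₂ : ∀ v, Ψ₂ (per v) = perOne Z (A v) := fun v => by
    have h3 := h₂ (A v)
    have h4 : (per.comp A.symm.toLinearMap.toAddMonoidHom) (A v) = per v := by
      change per (A.symm (A v)) = per v
      rw [LinearEquiv.symm_apply_apply]
    rwa [h4, one_mulVec] at h3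
  have h5 : IsHodge (perOne Z) (f.compLinearMap A.symm.toLinearMap) :=
    Pool.Agent.TH504.CB.isHodge_comp A.symm.toLinearMap Ψ₁ e₁ hf
  have h6 := hodge_pm hNon hOrt hDet hO3 hLB h hb _ h5
  have h7 := Pool.Agent.Y275.P.pull (per := per) h6 A.toLinearMap Ψ₂ e₂
  have h8 : (f.compLinearMap A.symm.toLinearMap).compLinearMap A.toLinearMap = f := by
    ext v
    rw [AlternatingMap.compLinearMap_apply, AlternatingMap.compLinearMap_apply]
    congr 1
    funext k
    exact A.symm_apply_apply (v k)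
  rwa [h8] at h7

end

end Pool.Agent.H926.T
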