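import Mathlib
import Pool.Agent.H926.T.Asm

/-!
# The Hodge rings of the powers and the Lefschetz Lie algebra
-/

set_option linter.unusedSectionVars false

namespace Pool.Agent.H926.T

open Matrix Module Pool.Agent.Y90 Pool.Agent.W437.HC Pool.Agent.W437.HD
  Pool.Agent.TH504.CB Pool.Agent.W522.U
open Pool.Agent.W548.Odd hiding cv
open Pool.Agent.H204R3.CM (IsHodge)
open Pool.Agent.Y4.P (WeilRing)

noncomputable section

variable {H T : Type} [AddCommGroup H] [Module ℚ H] [AddCommGroup T] [Module ℂ T] {per : H →+ T}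

/-- An operator in each coordinate. -/
def dg (n : ℕ) (x : H →ₗ[ℚ] H) : (Fin n → H) →ₗ[ℚ] (Fin n → H) :=
  LinearMap.pi fun i => x ∘ₗ LinearMap.proj i

theorem dg_apply (n : ℕ) (x : H →ₗ[ℚ] H) (v : Fin n → H) (i : Fin n) : dg n x v i = x (v i) := rfl

theorem dg_br (n : ℕ) (x y : H →ₗ[ℚ] H) :
    dg n x ∘ₗ dg n y - dg n y ∘ₗ dg n x = dg n (x ∘ₗ y - y ∘ₗ x) := by
  refine LinearMap.ext fun v => funext fun i => ?_
  rfl

theorem matQ_br {G : ℕ} (A : H ≃ₗ[ℚ] (Fin G ⊕ Fin G → ℚ)) (x y : H →ₗ[ℚ] H) :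
    matQ A (x ∘ₗ y - y ∘ₗ x) = matQ A x * matQ A y - matQ A y * matQ A x := by
  unfold matQ
  rw [← LinearMap.toMatrix'_comp, ← LinearMap.toMatrix'_comp, ← map_sub]
  congr 1
  refine LinearMap.ext fun v => ?_
  simp

theorem qm_br {G : ℕ} (x y : Matrix (Fin G ⊕ Fin G) (Fin G ⊕ Fin G) ℚ) :
    qm (x * y - y * x) = qm x * qm y - qm y * qm x := by
  unfold qm
  rw [Matrix.map_sub _ (fun a b => Rat.cast_sub a b)]
  congr 1
  · exact Matrix.map_mul (f := Rat.castHom ℂ)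
  · exact Matrix.map_mul (f := Rat.castHom ℂ)

/-- **The first implication.** -/
theorem imp_one (hNon : S_NON) (hOrt : S_ORT) (hDet : S_DET1) (hO3 : S_O3) (hLB : S_LB)
    (hRat : S_RATL) (hTra : S_TRA) (hPav : S_PAV) (hLP : S_LP) (hHP : S_HP) (hX : St.IsAV per)
    (hbr : ∀ x y : H →ₗ[ℚ] H, InLef per x → InLef per y → InHdg per (x ∘ₗ y - y ∘ₗ x))
    (n : ℕ) (κ : Type) [Finite κ] (f : (Fin n → H) [⋀^κ]→ₗ[ℚ] ℚ) (hf : IsHodge (powPer per n) f) :
    WeilRing (powPer per n) κ f := by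
  refine one_dir hNon hOrt hDet hO3 hLB hRat hTra (hPav H T per hX n) (fun x' y' hx hy => ?_) f hf
  rcases Nat.eq_zero_or_pos n with rfl | hn
  · have h0 : x' ∘ₗ y' - y' ∘ₗ x' = 0 := by
      refine LinearMap.ext fun v => funext fun i => i.elim0
    rw [h0]
    exact fun L _ _ => L.zero_mem
  · obtain ⟨x, hx1, rfl⟩ := (hLP H T per hX n).2 hn x' hx
    obtain ⟨y, hy1, rfl⟩ := (hLP H T per hX n).2 hn y' hy
    exact hHP H T per hX n _ (hbr x y hx1 hy1)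

/-- **The second implication.** -/
theorem imp_two (hTra : S_TRA) (hPav : S_PAV) (hLP : S_LP) (hWR : S_WR) (hAlt : S_ALTP)
    (hConv : S_CONV) (hLie : S_LIEM) (hX : St.IsAV per)
    (hW : ∀ (n : ℕ) (κ : Type) [Finite κ] (f : (Fin n → H) [⋀^κ]→ₗ[ℚ] ℚ),
      IsHodge (powPer per n) f → WeilRing (powPer per n) κ f)
    (x y : H →ₗ[ℚ] H) (hx : InLef per x) (hy : InLef per y) :
    InHdg per (x ∘ₗ y - y ∘ₗ x) := by
  obtain ⟨a, Z, h, A, hC⟩ := exists_ppav hX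
  obtain ⟨t1, t2⟩ := hTra H T per a Z h A hC
  refine (t2 _).2 ?_
  rw [matQ_br, qm_br]
  refine hConv a Z h _ _ ((t1 x).1 hx) ((t1 y).1 hy) ?_
  rw [← qm_br, ← matQ_br]
  refine hLie H T per a Z h A hC _ fun n g ψ h1 h2 => ?_
  refine hAlt H T per n _ (fun f hf => ?_) g ψ h1 h2
  have h3 := hWR (Fin n → H) (Fin n → T) (powPer per n) (hPav H T per hX n) (dg n x) (dg n y)
    ((hLP H T per hX n).1 x hx) ((hLP H T per hX n).1 y hy) (Fin n) f (hW n (Fin n) f hf)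
  rw [dg_br] at h3
  exact h3

end

end Pool.Agent.H926.T
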