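import Pool.Agent.H926.T.Jobs3

/-!
# Abstract abelian varieties and period matrices: S_LIEM and S_TRA (by helper658)
-/

set_option linter.unusedSectionVars false

namespace Pool.Agent.H926.T

open Matrix Module Pool.Agent.Y90 Pool.Agent.W437.HC Pool.Agent.W437.HD
  Pool.Agent.TH504.CB Pool.Agent.W522.U
open Pool.Agent.W548.Odd hiding cv
open Pool.Agent.H204R3.CM (IsHodge)
open Pool.Agent.Y90.St (IsAV IsHom IsPolarization)
open Pool.Agent.W437.HP (cK cK_mul cK_one)

noncomputable section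

namespace TraL

section gen

variable {H T : Type} [AddCommGroup H] [Module ℚ H] [AddCommGroup T] [Module ℂ T]
  {per : H →+ T} {G : ℕ} {Z : Matrix (Fin G) (Fin G) ℂ} {A : H ≃ₗ[ℚ] (Fin G ⊕ Fin G → ℚ)}

/-- `matQ` as a linear equivalence. -/
def matE (A : H ≃ₗ[ℚ] (Fin G ⊕ Fin G → ℚ)) :
    (H →ₗ[ℚ] H) ≃ₗ[ℚ] Matrix (Fin G ⊕ Fin G) (Fin G ⊕ Fin G) ℚ :=
  A.conj.trans LinearMap.toMatrix'

theorem matE_apply (x : H →ₗ[ℚ] H) : matE A x = matQ A x := rfl

theorem matQ_mulVec (x : H →ₗ[ℚ] H) (v : H) : matQ A x *ᵥ A v = A (x v) := by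
  unfold matQ
  rw [← Matrix.toLin'_apply, Matrix.toLin'_toMatrix']
  change A (x (A.symm (A v))) = _
  rw [LinearEquiv.symm_apply_apply]

theorem matQ_comp (x y : H →ₗ[ℚ] H) : matQ A (x ∘ₗ y) = matQ A x * matQ A y := by
  unfold matQ
  rw [← LinearMap.toMatrix'_comp]
  congr 1
  ext v
  simp

theorem matQ_sub (x y : H →ₗ[ℚ] H) : matQ A (x - y) = matQ A x - matQ A y :=
  map_sub (matE A) x y

theorem matQ_inj {x y : H →ₗ[ℚ] H} (h : matQ A x = matQ A y) : x = y :=
  (matE A).injective h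

/-- the operator of a matrix -/
def opQ (A : H ≃ₗ[ℚ] (Fin G ⊕ Fin G → ℚ)) (M : Matrix (Fin G ⊕ Fin G) (Fin G ⊕ Fin G) ℚ) :
    H →ₗ[ℚ] H := (matE A).symm M

theorem matQ_opQ (M : Matrix (Fin G ⊕ Fin G) (Fin G ⊕ Fin G) ℚ) : matQ A (opQ A M) = M :=
  (matE A).apply_symm_apply M

theorem qm_inj {M N : Matrix (Fin G ⊕ Fin G) (Fin G ⊕ Fin G) ℚ} (h : qm M = qm N) : M = N := by
  ext i j
  have h1 := congrFun (congrFun h i) j
  exact Rat.cast_injective h1

theorem qm_mul (M N : Matrix (Fin G ⊕ Fin G) (Fin G ⊕ Fin G) ℚ) : qm (M * N) = qm M * qm N :=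
  cK_mul ℂ M N

theorem qm_sub (M N : Matrix (Fin G ⊕ Fin G) (Fin G ⊕ Fin G) ℚ) : qm (M - N) = qm M - qm N := by
  ext i j
  simp

theorem perA_apply (v : H) :
    (per.comp A.symm.toLinearMap.toAddMonoidHom) (A v) = per v := by
  change per (A.symm (A v)) = per v
  rw [LinearEquiv.symm_apply_apply]

end gen

end TraL

open TraL

theorem s_liem : S_LIEM := by
  intro H T _ _ _ _ per G Z h A hC z hz n c hc
  obtain ⟨P, I, hP1, hP2, hI1, hI2⟩ := hC.ex
  have hcJ : IsH (DJ (JR Z)) c := hc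
  have key : KillQ z ((evalM c).compLinearMap (fun _ => A.toLinearMap)) := by
    refine hz n _ ((evalM (cst ℝ c)).compLinearMap (fun _ => I)) (fun v => ?_) (fun w hw u => ?_)
    · rw [MultilinearMap.compLinearMap_apply, MultilinearMap.compLinearMap_apply, evalM_apply,
        evalM_apply, evalF_castK]
      congr 1
      funext k
      change I (per (v k)) = fun i => (((A (v k)) i : ℚ) : ℝ)
      rw [← perA_apply (A := A), ← hP1, hI1]
    · rw [MultilinearMap.compLinearMap_apply, MultilinearMap.compLinearMap_apply, evalM_apply,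
        evalM_apply]
      have h1 : w.re = Real.cos w.arg ∧ w.im = Real.sin w.arg := by
        have h2 := Complex.norm_mul_cos_arg w
        have h3 := Complex.norm_mul_sin_arg w
        rw [hw, one_mul] at h2 h3
        exact ⟨h2.symm, h3.symm⟩
      have h2 : (fun k => I (w • u k)) = fun k => Real.cos w.arg • I (u k) +
          Real.sin w.arg • (JR Z *ᵥ I (u k)) := by
        funext k
        rw [← hI1 (Real.cos w.arg • I (u k) + Real.sin w.arg • (JR Z *ᵥ I (u k))), map_add P,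
          map_smul P, map_smul P, hP2, hI2, smul_rot, ← h1.1, ← h1.2, Complex.re_add_im]
      rw [h2]
      exact rot_of_act hC.sq ((act_real (J := JR Z) (D := DJ (JR Z)) rfl).1 hcJ) w.arg _
  have h2 : act (matQ A z) c = 0 := by
    apply eq_zero_of_evalF
    intro y
    rw [evalF_act]
    have h3 := key (fun k => A.symm (y k))
    rw [← h3]
    refine Finset.sum_congr rfl fun k _ => ?_
    rw [MultilinearMap.compLinearMap_apply, evalM_apply]
    congr 1
    funext l
    by_cases hl : l = k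
    · subst hl
      rw [Function.update_self, Function.update_self]
      change _ = A (z (A.symm (y l)))
      rw [← matQ_mulVec, LinearEquiv.apply_symm_apply]
    · rw [Function.update_of_ne hl, Function.update_of_ne hl]
      change _ = A (A.symm (y l))
      rw [LinearEquiv.apply_symm_apply]
  change act ((matQ A z).map (fun x : ℚ => (x : ℂ))) (cst ℂ c) = 0
  rw [act_cst, h2, cst_zero]


namespace TraL

section tra

variable {H T : Type} [AddCommGroup H] [Module ℚ H] [AddCommGroup T] [Module ℂ T]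
  {per : H →+ T} {G : ℕ} {Z : Matrix (Fin G) (Fin G) ℂ} {A : H ≃ₗ[ℚ] (Fin G ⊕ Fin G → ℚ)}

/-- extension of scalars to the real numbers of a rational vector -/
def rv (w : Fin G ⊕ Fin G → ℚ) : Fin G ⊕ Fin G → ℝ := fun i => ((w i : ℚ) : ℝ)

theorem rv_mulVec (M : Matrix (Fin G ⊕ Fin G) (Fin G ⊕ Fin G) ℚ) (w : Fin G ⊕ Fin G → ℚ) :
    rv (M *ᵥ w) = cK ℝ M *ᵥ rv w := by
  funext i
  simp [rv, mulVec, dotProduct, cK]

/-- real matrices which agree on rational vectors are equal -/
theorem mat_ext_rv {M N : Matrix (Fin G ⊕ Fin G) (Fin G ⊕ Fin G) ℝ}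
    (h : ∀ w : Fin G ⊕ Fin G → ℚ, M *ᵥ rv w = N *ᵥ rv w) : M = N := by
  ext i j
  have h1 := congrFun (h (Pi.single j 1)) i
  have h2 : rv (Pi.single j 1 : Fin G ⊕ Fin G → ℚ) = Pi.single j 1 := single_castR j
  rw [h2] at h1
  simpa using h1

theorem cm_inj {M N : Matrix (Fin G ⊕ Fin G) (Fin G ⊕ Fin G) ℝ} (h : cm M = cm N) : M = N := by
  ext i j
  have h1 := congrFun (congrFun h i) j
  exact Complex.ofReal_injective h1

theorem cm_cK (M : Matrix (Fin G ⊕ Fin G) (Fin G ⊕ Fin G) ℚ) : cm (cK ℝ M) = qm M := by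
  ext i j
  simp [cm, cK]

theorem DZ_eq : DZ Z = (-Complex.I) • cm (JR Z) := rfl

theorem cm_JR : cm (JR Z) = Complex.I • DZ Z := by
  rw [DZ_eq, smul_smul, show Complex.I * -Complex.I = 1 by simp, one_smul]

theorem comm_iff (M : Matrix (Fin G ⊕ Fin G) (Fin G ⊕ Fin G) ℚ) :
    qm M * DZ Z = DZ Z * qm M ↔ cK ℝ M * JR Z = JR Z * cK ℝ M := by
  constructor
  · intro h
    exact real_of_DJ (J := JR Z) (J' := JR Z) h
  · intro h
    rw [DZ_eq, Matrix.mul_smul, Matrix.smul_mul, ← cm_cK, ← cm_mul, ← cm_mul, h]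

/-- endomorphisms are the operators which commute with the complex structure -/
theorem hom_iff (hC : Cht (per.comp A.symm.toLinearMap.toAddMonoidHom) (JR Z))
    (a : H →ₗ[ℚ] H) :
    IsHom per per a ↔ qm (matQ A a) * DZ Z = DZ Z * qm (matQ A a) := by
  constructor
  · rintro ⟨Ψ, hΨ⟩
    rw [comm_iff]
    obtain ⟨P, I, hP1, hP2, hI1, hI2⟩ := hC.ex
    have hP1' : ∀ w : Fin G ⊕ Fin G → ℚ, P (rv w) = per (A.symm w) := hP1
    have h1 : ∀ w : Fin G ⊕ Fin G → ℚ, Ψ (P (rv w)) = P (cK ℝ (matQ A a) *ᵥ rv w) := by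
      intro w
      rw [hP1', hΨ, ← rv_mulVec, hP1']
      congr 1
      rw [LinearEquiv.eq_symm_apply, ← matQ_mulVec, LinearEquiv.apply_symm_apply]
    have h2 : (Ψ.restrictScalars ℝ) ∘ₗ P = P ∘ₗ Matrix.mulVecLin (cK ℝ (matQ A a)) := by
      refine LinearMap.pi_ext' fun i => LinearMap.ext_ring ?_
      have h3 := h1 (Pi.single i 1)
      have h4 : rv (Pi.single i 1 : Fin G ⊕ Fin G → ℚ) = Pi.single i 1 := single_castR i
      rw [h4] at h3
      exact h3
    have h3 : ∀ x, Ψ (P x) = P (cK ℝ (matQ A a) *ᵥ x) := fun x => LinearMap.congr_fun h2 x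
    apply mat_ext_rv
    intro w
    rw [← mulVec_mulVec, ← mulVec_mulVec, ← hI1 (cK ℝ (matQ A a) *ᵥ (JR Z *ᵥ rv w)), ← h3, hP2,
      map_smul, h3, ← hP2, hI1]
  · intro h
    obtain ⟨Ψ, hΨ⟩ := hC.hom hC (R := matQ A a) h
    refine ⟨Ψ, fun v => ?_⟩
    have h1 := hΨ (A v)
    rw [perA_apply, matQ_mulVec, perA_apply] at h1
    exact h1

theorem Om_inj {M N : Matrix (Fin G ⊕ Fin G) (Fin G ⊕ Fin G) ℂ}
    (h : Om G ℂ * M = Om G ℂ * N) : M = N := by
  have h1 := congrArg (fun X => Om G ℂ * X) h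
  simp only [← Matrix.mul_assoc, Om_sq, Matrix.neg_mul, Matrix.one_mul] at h1
  exact neg_injective h1

theorem bilc_eval (M : Matrix (Fin G ⊕ Fin G) (Fin G ⊕ Fin G) ℚ)
    (x : Fin 2 → Fin G ⊕ Fin G → ℚ) : evalF (bilc M) x = x 0 ⬝ᵥ (M *ᵥ x 1) := by
  have h1 : ∀ i j : Fin G ⊕ Fin G, bilc M ![i, j] = M i j := fun i j => rfl
  have e : (Fin 2 → Fin G ⊕ Fin G) ≃ (Fin G ⊕ Fin G) × (Fin G ⊕ Fin G) :=
    finTwoArrowEquiv _
  unfold evalF
  rw [← (finTwoArrowEquiv (Fin G ⊕ Fin G)).symm.sum_comp, Fintype.sum_prod_type]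
  simp only [dotProduct, mulVec, Finset.mul_sum]
  refine Finset.sum_congr rfl fun i _ => Finset.sum_congr rfl fun j _ => ?_
  rw [Fin.prod_univ_two]
  change M i j * (x 0 i * x 1 j) = x 0 i * (M i j * x 1 j)
  ring

/-- every alternating form on rational vectors in two variables is given by a matrix -/
theorem form_eq (f : (Fin G ⊕ Fin G → ℚ) [⋀^Fin 2]→ₗ[ℚ] ℚ) :
    CF f.toMultilinearMap = bilc (Matrix.of fun i j => CF f.toMultilinearMap ![i, j]) := by
  funext I
  change _ = CF f.toMultilinearMap ![I 0, I 1]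
  congr 1
  funext k
  fin_cases k <;> rfl

theorem bilinear_zero {M : Matrix (Fin G ⊕ Fin G) (Fin G ⊕ Fin G) ℚ}
    (h : ∀ v w : Fin G ⊕ Fin G → ℚ, v ⬝ᵥ (M *ᵥ w) = 0) : M = 0 := by
  ext i j
  have h1 := h (Pi.single i 1) (Pi.single j 1)
  simpa using h1

theorem two_apply (x : H →ₗ[ℚ] H) (M : Matrix (Fin G ⊕ Fin G) (Fin G ⊕ Fin G) ℚ) (v w : H) :
    A (x v) ⬝ᵥ (M *ᵥ A w) + A v ⬝ᵥ (M *ᵥ A (x w)) =
      A v ⬝ᵥ (((matQ A x)ᵀ * M + M * matQ A x) *ᵥ A w) := by
  rw [← matQ_mulVec (A := A) x v, ← matQ_mulVec (A := A) x w, add_mulVec, dotProduct_add,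
    ← mulVec_mulVec, ← mulVec_mulVec]
  congr 1
  rw [dotProduct_mulVec (A v), vecMul_transpose]


/-- the standard symplectic class -/
theorem isHodge_std (h : PM Z) (hC : Cht (per.comp A.symm.toLinearMap.toAddMonoidHom) (JR Z)) :
    IsHodge per ((MultilinearMap.alternatization (evalM (bilc (Om G ℚ)))).compLinearMap
      A.toLinearMap) := by
  have h1 : IsHodge (per.comp A.symm.toLinearMap.toAddMonoidHom)
      (MultilinearMap.alternatization (evalM (bilc (Om G ℚ)))) :=
    hC.hodge_alt (Pool.Agent.W437.HC.isH_Om h.symm)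
  refine Pool.Agent.TH504.CB.isHodge_comp A.toLinearMap LinearMap.id (fun w => ?_) h1
  change per w = per (A.symm (A w))
  rw [LinearEquiv.symm_apply_apply]

theorem std_apply (v w : H) :
    ((MultilinearMap.alternatization (evalM (bilc (Om G ℚ)))).compLinearMap
      A.toLinearMap) ![v, w] = 2 * (A v ⬝ᵥ (Om G ℚ *ᵥ A w)) := by
  have hu : (Finset.univ : Finset (Equiv.Perm (Fin 2))) = {1, Equiv.swap 0 1} := by decide
  have hne : (1 : Equiv.Perm (Fin 2)) ≠ Equiv.swap 0 1 := by decide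
  rw [AlternatingMap.compLinearMap_apply, MultilinearMap.alternatization_apply, hu,
    Finset.sum_pair hne, Equiv.Perm.sign_one, Equiv.Perm.sign_swap (by decide), one_smul,
    Units.neg_smul, one_smul, MultilinearMap.domDomCongr_apply, MultilinearMap.domDomCongr_apply,
    evalM_apply, evalM_apply, bilc_eval, bilc_eval]
  change A v ⬝ᵥ (Om G ℚ *ᵥ A w) + -(A w ⬝ᵥ (Om G ℚ *ᵥ A v)) = _
  have h1 : A w ⬝ᵥ (Om G ℚ *ᵥ A v) = -(A v ⬝ᵥ (Om G ℚ *ᵥ A w)) := by
    rw [dotProduct_mulVec, ← mulVec_transpose, Om_transpose, neg_mulVec, neg_dotProduct,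
      dotProduct_comm]
  rw [h1]
  ring

theorem part1 (h : PM Z) (hC : Cht (per.comp A.symm.toLinearMap.toAddMonoidHom) (JR Z))
    (x : H →ₗ[ℚ] H) : InLef per x ↔ qm (matQ A x) ∈ lefC Z := by
  constructor
  · rintro ⟨h1, h2⟩
    refine ⟨?_, fun φ hφ => ?_⟩
    · have h3 := h2 _ (isHodge_std h hC)
      have h4 : (matQ A x)ᵀ * Om G ℚ + Om G ℚ * matQ A x = 0 := by
        apply bilinear_zero
        intro v w
        have h5 := h3 (A.symm v) (A.symm w)
        rw [std_apply, std_apply, ← mul_add, two_apply] at h5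
        rw [LinearEquiv.apply_symm_apply, LinearEquiv.apply_symm_apply] at h5
        exact (mul_eq_zero.1 h5).resolve_left two_ne_zero
      have h5 := congrArg (fun M : Matrix (Fin G ⊕ Fin G) (Fin G ⊕ Fin G) ℚ => cK ℂ M) h4
      have h6 : cK ℂ ((matQ A x)ᵀ * Om G ℚ + Om G ℚ * matQ A x) =
          (qm (matQ A x))ᵀ * Om G ℂ + Om G ℂ * qm (matQ A x) := by
        rw [← Om_map ℂ]
        have h7 : cK ℂ ((matQ A x)ᵀ * Om G ℚ + Om G ℚ * matQ A x) =
            cK ℂ ((matQ A x)ᵀ * Om G ℚ) + cK ℂ (Om G ℚ * matQ A x) := by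
          ext i j
          simp [cK]
        rw [h7, cK_mul, cK_mul]
        rfl
      rw [← h6]
      change cK ℂ ((matQ A x)ᵀ * Om G ℚ + Om G ℚ * matQ A x) = 0
      rw [h4]
      ext i j
      simp [cK]
    · have h3 : IsHom per per (opQ A φ) := by
        rw [hom_iff hC, matQ_opQ]
        exact hφ
      have h4 := congrArg (matQ A) (h1 _ h3)
      rw [matQ_comp, matQ_comp, matQ_opQ] at h4
      rw [← qm_mul, h4, qm_mul]
  · rintro ⟨h1, h2⟩
    refine ⟨fun a ha => ?_, fun f hf v w => ?_⟩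
    · have h3 := h2 (matQ A a) ((hom_iff hC a).1 ha)
      rw [← qm_mul, ← qm_mul, ← matQ_comp, ← matQ_comp] at h3
      exact matQ_inj (qm_inj h3)
    · set f' : (Fin G ⊕ Fin G → ℚ) [⋀^Fin 2]→ₗ[ℚ] ℚ := f.compLinearMap A.symm.toLinearMap with hf'
      have h3 : IsHodge (per.comp A.symm.toLinearMap.toAddMonoidHom) f' :=
        Pool.Agent.TH504.CB.isHodge_comp A.symm.toLinearMap LinearMap.id (fun w => rfl) hf
      have h4 : IsH (DJ (JR Z)) (CF f'.toMultilinearMap) := hC.isH h3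
      set M : Matrix (Fin G ⊕ Fin G) (Fin G ⊕ Fin G) ℚ :=
        Matrix.of fun i j => CF f'.toMultilinearMap ![i, j] with hM
      rw [form_eq f'] at h4
      have h5 : (DZ Z)ᵀ * qm M + qm M * DZ Z = 0 := lieM_bil (DZ Z) h4 (D_mem (DZ Z))
      have h6 : (DZ Z)ᵀ * Om G ℂ + Om G ℂ * DZ Z = 0 := by
        have := DZ_sp h.symm
        rwa [Om_map] at this
      set φ : Matrix (Fin G ⊕ Fin G) (Fin G ⊕ Fin G) ℚ := -(Om G ℚ * M) with hφ
      have h7 : qm φ = -(Om G ℂ * qm M) := by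
        rw [hφ, ← Om_map ℂ]
        change cK ℂ (-(Om G ℚ * M)) = -(cK ℂ (Om G ℚ) * cK ℂ M)
        rw [← cK_mul]
        ext i j
        simp [cK]
      have h8 : Om G ℂ * qm φ = qm M := by
        rw [h7, Matrix.mul_neg, ← Matrix.mul_assoc, Om_sq, Matrix.neg_mul, Matrix.one_mul,
          neg_neg]
      have h9 : ∀ Y : Matrix (Fin G ⊕ Fin G) (Fin G ⊕ Fin G) ℂ, Yᵀ * Om G ℂ + Om G ℂ * Y = 0 →
          Yᵀ * qm M + qm M * Y = Om G ℂ * (qm φ * Y - Y * qm φ) := by
        intro Y hY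
        have e1 : Yᵀ * Om G ℂ = -(Om G ℂ * Y) := eq_neg_of_add_eq_zero_left hY
        rw [← h8, ← Matrix.mul_assoc, e1, Matrix.mul_sub, Matrix.neg_mul, Matrix.mul_assoc,
          Matrix.mul_assoc]
        abel
      have h10 : qm φ * DZ Z = DZ Z * qm φ := by
        rw [h9 _ h6] at h5
        have h11 : Om G ℂ * (qm φ * DZ Z - DZ Z * qm φ) = Om G ℂ * 0 := by
          rw [h5, Matrix.mul_zero]
        exact sub_eq_zero.1 (Om_inj h11)
      have h11 := h2 φ h10
      have h12 : (qm (matQ A x))ᵀ * qm M + qm M * qm (matQ A x) = 0 := by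
        rw [h9 _ h1, h11, sub_self, Matrix.mul_zero]
      have h13 : (matQ A x)ᵀ * M + M * matQ A x = 0 := by
        apply qm_inj
        have h14 : qm ((matQ A x)ᵀ * M + M * matQ A x) =
            qm ((matQ A x)ᵀ * M) + qm (M * matQ A x) := by
          ext i j
          simp
        rw [h14, qm_mul, qm_mul]
        have h15 : qm ((matQ A x)ᵀ) = (qm (matQ A x))ᵀ := rfl
        rw [h15, h12]
        ext i j
        simp
      have h14 : ∀ v w : H, f ![v, w] = A v ⬝ᵥ (M *ᵥ A w) := by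
        intro v w
        have h15 : f ![v, w] = f'.toMultilinearMap ![A v, A w] := by
          rw [hf']
          change f ![v, w] = f (fun i => A.symm ((![A v, A w] : Fin 2 → _) i))
          congr 1
          funext i
          fin_cases i
          · exact (A.symm_apply_apply v).symm
          · exact (A.symm_apply_apply w).symm
        rw [h15, CF_eval, form_eq f', bilc_eval]
        rfl
      rw [h14, h14, two_apply, h13, zero_mulVec, dotProduct_zero]


/-- the real span condition in terms of matrices -/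
theorem span_iff (hC : Cht (per.comp A.symm.toLinearMap.toAddMonoidHom) (JR Z)) {m : ℕ}
    (r : Fin m → ℝ) (y : Fin m → (H →ₗ[ℚ] H)) :
    (∀ u : H, Complex.I • per u = ∑ j, (r j : ℂ) • per (y j u)) ↔
      JR Z = ∑ j, r j • cK ℝ (matQ A (y j)) := by
  obtain ⟨P, I, hP1, hP2, hI1, hI2⟩ := hC.ex
  have hP1' : ∀ w : Fin G ⊕ Fin G → ℚ, P (rv w) = per (A.symm w) := hP1
  have h1 : ∀ u : H, Complex.I • per u = P (JR Z *ᵥ rv (A u)) := by
    intro u
    rw [hP2, hP1', LinearEquiv.symm_apply_apply]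
  have h2 : ∀ u : H, ∑ j, (r j : ℂ) • per (y j u) =
      P ((∑ j, r j • cK ℝ (matQ A (y j))) *ᵥ rv (A u)) := by
    intro u
    rw [sum_mulVec, map_sum]
    refine Finset.sum_congr rfl fun j _ => ?_
    rw [smul_mulVec, map_smul, ← rv_mulVec, matQ_mulVec, hP1', LinearEquiv.symm_apply_apply]
    rfl
  constructor
  · intro h
    apply mat_ext_rv
    intro w
    have h3 := h (A.symm w)
    rw [h1, h2, LinearEquiv.apply_symm_apply] at h3
    rw [← hI1 (JR Z *ᵥ rv w), h3, hI1]
  · intro h u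
    rw [h1, h2, ← h]

theorem part2a (hC : Cht (per.comp A.symm.toLinearMap.toAddMonoidHom) (JR Z))
    (z : H →ₗ[ℚ] H) (hz : InHdg per z) : qm (matQ A z) ∈ LZ Z := by
  have hadd : ∀ M N : Matrix (Fin G ⊕ Fin G) (Fin G ⊕ Fin G) ℚ, qm (M + N) = qm M + qm N := by
    intro M N
    ext i j
    simp
  let L : Submodule ℚ (H →ₗ[ℚ] H) :=
    { carrier := {y | qm (matQ A y) ∈ LZ Z}
      add_mem' := by
        intro a b ha hb
        change qm (matQ A (a + b)) ∈ LZ Z
        have h1 : matQ A (a + b) = matQ A a + matQ A b := map_add (matE A) a b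
        rw [h1, hadd]
        exact Submodule.add_mem _ ha hb
      zero_mem' := by
        change qm (matQ A 0) ∈ LZ Z
        have h1 : matQ A (0 : H →ₗ[ℚ] H) = 0 := map_zero (matE A)
        rw [h1]
        have h2 : qm (0 : Matrix (Fin G ⊕ Fin G) (Fin G ⊕ Fin G) ℚ) = 0 := by
          ext i j
          simp
        rw [h2]
        exact Submodule.zero_mem _
      smul_mem' := by
        intro c a ha
        change qm (matQ A (c • a)) ∈ LZ Z
        have h1 : matQ A (c • a) = c • matQ A a := map_smul (matE A) c a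
        have h2 : qm (c • matQ A a) = (c : ℂ) • qm (matQ A a) := by
          ext i j
          simp
        rw [h1, h2]
        exact Submodule.smul_mem _ _ ha }
  refine hz L ?_ ?_
  · intro y hy y' hy'
    change qm (matQ A (y ∘ₗ y' - y' ∘ₗ y)) ∈ LZ Z
    rw [matQ_sub, matQ_comp, matQ_comp, qm_sub, qm_mul, qm_mul]
    exact LZ_br hy hy'
  · have h1 : ∃ (m : ℕ) (c : Fin m → ℂ) (u : Fin m → Matrix (Fin G ⊕ Fin G) (Fin G ⊕ Fin G) ℚ),
        (∀ j, qm (u j) ∈ LZ Z) ∧ DZ Z = ∑ j, c j • qm (u j) := by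
      refine rational_induction (LZ Z) gal_LZ (p := fun X => ∃ (m : ℕ) (c : Fin m → ℂ)
        (u : Fin m → Matrix (Fin G ⊕ Fin G) (Fin G ⊕ Fin G) ℚ),
        (∀ j, qm (u j) ∈ LZ Z) ∧ X = ∑ j, c j • qm (u j)) ?_ ?_ ?_ ?_ _ DZ_mem
      · intro u hu
        exact ⟨1, fun _ => 1, fun _ => u, fun _ => hu, by simp⟩
      · exact ⟨0, Fin.elim0, Fin.elim0, fun j => j.elim0, by simp⟩
      · rintro X Y ⟨m, c, u, hu, rfl⟩ ⟨m', c', u', hu', rfl⟩
        refine ⟨m + m', Fin.append c c', Fin.append u u', fun j => ?_, ?_⟩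
        · refine Fin.addCases (fun j => ?_) (fun j => ?_) j
          · rw [Fin.append_left]; exact hu j
          · rw [Fin.append_right]; exact hu' j
        · rw [Fin.sum_univ_add]
          congr 1
          · refine Finset.sum_congr rfl fun j _ => ?_
            rw [Fin.append_left, Fin.append_left]
          · refine Finset.sum_congr rfl fun j _ => ?_
            rw [Fin.append_right, Fin.append_right]
      · rintro a X ⟨m, c, u, hu, rfl⟩
        refine ⟨m, fun j => a * c j, u, hu, ?_⟩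
        rw [Finset.smul_sum]
        refine Finset.sum_congr rfl fun j _ => ?_
        rw [smul_smul]
    obtain ⟨m, c, u, hu, hsum⟩ := h1
    refine ⟨m, fun j => (Complex.I * c j).re, fun j => opQ A (u j), fun j => ?_, ?_⟩
    · change qm (matQ A (opQ A (u j))) ∈ LZ Z
      rw [matQ_opQ]
      exact hu j
    · rw [span_iff hC]
      simp only [matQ_opQ]
      have h2 : cm (JR Z) = ∑ j, (Complex.I * c j) • qm (u j) := by
        rw [cm_JR, hsum, Finset.smul_sum]
        refine Finset.sum_congr rfl fun j _ => ?_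
        rw [smul_smul]
      ext i k
      have h3 := congrArg Complex.re (congrFun (congrFun h2 i) k)
      rw [Matrix.sum_apply, Complex.re_sum] at h3
      rw [Matrix.sum_apply]
      have h4 : (cm (JR Z) i k).re = JR Z i k := Complex.ofReal_re _
      rw [h4] at h3
      rw [h3]
      refine Finset.sum_congr rfl fun j _ => ?_
      rw [Matrix.smul_apply, Matrix.smul_apply]
      have h5 : qm (u j) i k = ((((u j i k : ℚ) : ℝ)) : ℂ) := by
        change ((u j i k : ℚ) : ℂ) = _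
        push_cast
        rfl
      rw [h5, smul_eq_mul, smul_eq_mul, Complex.re_mul_ofReal]
      rfl

theorem part2b (hC : Cht (per.comp A.symm.toLinearMap.toAddMonoidHom) (JR Z))
    (z : H →ₗ[ℚ] H) (hz : qm (matQ A z) ∈ LZ Z) : InHdg per z := by
  intro L hL hJ
  obtain ⟨m, r, y, hy, hsum⟩ := hJ
  rw [span_iff hC] at hsum
  set C : Submodule ℂ (Matrix (Fin G ⊕ Fin G) (Fin G ⊕ Fin G) ℂ) :=
    Submodule.span ℂ {X | ∃ w ∈ L, qm (matQ A w) = X} with hCdef
  have hmem : ∀ w ∈ L, qm (matQ A w) ∈ C := fun w hw => Submodule.subset_span ⟨w, hw, rfl⟩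
  have hbr : ∀ X ∈ C, ∀ Y ∈ C, X * Y - Y * X ∈ C := by
    intro X hX Y hY
    induction hX using Submodule.span_induction with
    | mem X hX =>
      obtain ⟨w, hw, rfl⟩ := hX
      induction hY using Submodule.span_induction with
      | mem Y hY =>
        obtain ⟨w', hw', rfl⟩ := hY
        rw [← qm_mul, ← qm_mul, ← qm_sub, ← matQ_comp, ← matQ_comp, ← matQ_sub]
        exact hmem _ (hL w hw w' hw')
      | zero => rw [Matrix.mul_zero, Matrix.zero_mul, sub_zero]; exact Submodule.zero_mem _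
      | add Y Y' _ _ h1 h2 =>
        have e : qm (matQ A w) * (Y + Y') - (Y + Y') * qm (matQ A w) =
            (qm (matQ A w) * Y - Y * qm (matQ A w)) + (qm (matQ A w) * Y' - Y' * qm (matQ A w)) := by
          rw [Matrix.mul_add, Matrix.add_mul]; abel
        rw [e]; exact Submodule.add_mem _ h1 h2
      | smul c Y _ h1 =>
        have e : qm (matQ A w) * (c • Y) - (c • Y) * qm (matQ A w) =
            c • (qm (matQ A w) * Y - Y * qm (matQ A w)) := by
          rw [Matrix.mul_smul, Matrix.smul_mul, smul_sub]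
        rw [e]; exact Submodule.smul_mem _ _ h1
    | zero => rw [Matrix.mul_zero, Matrix.zero_mul, sub_zero]; exact Submodule.zero_mem _
    | add X X' _ _ h1 h2 =>
      have e : (X + X') * Y - Y * (X + X') = (X * Y - Y * X) + (X' * Y - Y * X') := by
        rw [Matrix.mul_add, Matrix.add_mul]; abel
      rw [e]; exact Submodule.add_mem _ h1 h2
    | smul c X _ h1 =>
      have e : (c • X) * Y - Y * (c • X) = c • (X * Y - Y * X) := by
        rw [Matrix.mul_smul, Matrix.smul_mul, smul_sub]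
      rw [e]; exact Submodule.smul_mem _ _ h1
  have hDZ : DZ Z = ∑ j, (-Complex.I * r j) • qm (matQ A (y j)) := by
    rw [DZ_eq, hsum]
    ext i k
    rw [Matrix.smul_apply, Matrix.sum_apply]
    change -Complex.I • (((∑ j, r j • cK ℝ (matQ A (y j))) i k : ℝ) : ℂ) = _
    rw [Matrix.sum_apply, Complex.ofReal_sum, Finset.smul_sum]
    refine Finset.sum_congr rfl fun j _ => ?_
    rw [Matrix.smul_apply, Matrix.smul_apply]
    change -Complex.I • (((r j * ((matQ A (y j) i k : ℚ) : ℝ)) : ℝ) : ℂ) =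
      (-Complex.I * r j) * ((matQ A (y j) i k : ℚ) : ℂ)
    push_cast
    rw [smul_eq_mul]
    ring
  have hDS : ∀ σ : ℂ ≃+* ℂ, DS Z σ ∈ C := by
    intro σ
    have h1 : DS Z σ = ∑ j, σ (-Complex.I * r j) • qm (matQ A (y j)) := by
      unfold DS
      rw [hDZ]
      ext i k
      rw [Matrix.map_apply, Matrix.sum_apply, Matrix.sum_apply, map_sum]
      refine Finset.sum_congr rfl fun j _ => ?_
      rw [Matrix.smul_apply, Matrix.smul_apply, smul_eq_mul, smul_eq_mul, map_mul σ]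
      congr 1
      exact map_ratCast σ _
    rw [h1]
    exact Submodule.sum_mem _ fun j _ => Submodule.smul_mem _ _ (hmem _ (hy j))
  have hzC : qm (matQ A z) ∈ C := LZ_le hDS hbr hz
  -- rational functionals
  have key : ∀ X ∈ C, ∀ l : ℂ →ₗ[ℚ] ℚ, ∃ w ∈ L, X.map l = matQ A w := by
    intro X hX
    induction hX using Submodule.span_induction with
    | mem X hX =>
      obtain ⟨w, hw, rfl⟩ := hX
      intro l
      refine ⟨(l 1) • w, L.smul_mem _ hw, ?_⟩
      have h1 : matQ A ((l 1) • w) = (l 1) • matQ A w := map_smul (matE A) _ w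
      rw [h1]
      ext i k
      rw [Matrix.map_apply, Matrix.smul_apply]
      have h2 : qm (matQ A w) i k = (matQ A w i k) • (1 : ℂ) := by
        rw [Rat.smul_def, mul_one]
        rfl
      rw [h2, map_smul, smul_eq_mul, smul_eq_mul, mul_comm]
    | zero =>
      intro l
      refine ⟨0, L.zero_mem, ?_⟩
      have h1 : matQ A (0 : H →ₗ[ℚ] H) = 0 := map_zero (matE A)
      rw [h1]
      exact Matrix.map_zero _ (map_zero l)
    | add X X' _ _ h1 h2 =>
      intro l
      obtain ⟨w, hw, e⟩ := h1 l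
      obtain ⟨w', hw', e'⟩ := h2 l
      refine ⟨w + w', L.add_mem hw hw', ?_⟩
      have h1 : matQ A (w + w') = matQ A w + matQ A w' := map_add (matE A) w w'
      rw [h1, ← e, ← e']
      exact Matrix.map_add _ (map_add l) _ _
    | smul c X _ h1 =>
      intro l
      obtain ⟨w, hw, e⟩ := h1 (l.comp (LinearMap.mulLeft ℚ c))
      refine ⟨w, hw, ?_⟩
      rw [← e]
      ext i k
      rfl
  obtain ⟨l, hl⟩ := LinearMap.exists_leftInverse_of_injective (Algebra.linearMap ℚ ℂ)
    (LinearMap.ker_eq_bot.2 (fun a b hab => Rat.cast_injective hab))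
  obtain ⟨w, hw, e⟩ := key _ hzC l
  have h1 : (qm (matQ A z)).map l = matQ A z := by
    ext i k
    exact LinearMap.congr_fun hl _
  rw [h1] at e
  rw [matQ_inj e]
  exact hw

end tra

end TraL

theorem s_tra : S_TRA := by
  intro H T _ _ _ _ per G Z h A hC
  exact ⟨fun x => part1 h hC x, fun z => ⟨part2a hC z, part2b hC z⟩⟩

end

end Pool.Agent.H926.T
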