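import Pool.Agent.H926.T.Jobs3

/-!
# Twisted homomorphisms: proof of S_TWI from S_TH
-/

set_option linter.unusedSectionVars false

namespace Pool.Agent.H926.T

open Module

section twi

variable {V : Type} [AddCommGroup V] [Module ℂ V]
  {L : Submodule ℂ (End ℂ V)} {ω : V →ₗ[ℂ] V →ₗ[ℂ] ℂ} {U U' : Submodule ℂ V}

/-- an invariant pairing which is not zero is nondegenerate on the irreducible side -/
lemma twi_nondeg (hU : IrE L U) (hU' : StE L U') (b : V →ₗ[ℂ] V →ₗ[ℂ] ℂ)
    (hb : ∀ X ∈ L, ∀ u ∈ U, ∀ v ∈ U', b (X u) v + b u (X v) = 0)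
    (hnz : ∃ u ∈ U, ∃ v ∈ U', b u v ≠ 0) (u : V) (hu : u ∈ U) (h0 : ∀ v ∈ U', b u v = 0) :
    u = 0 := by
  let W : Submodule ℂ V :=
    { carrier := {u | u ∈ U ∧ ∀ v ∈ U', b u v = 0}
      add_mem' := by
        rintro x y ⟨x1, x2⟩ ⟨y1, y2⟩
        refine ⟨U.add_mem x1 y1, fun v hv => ?_⟩
        rw [map_add, LinearMap.add_apply, x2 v hv, y2 v hv, add_zero]
      zero_mem' := ⟨U.zero_mem, fun v _ => by rw [map_zero, LinearMap.zero_apply]⟩
      smul_mem' := by
        rintro c x ⟨x1, x2⟩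
        refine ⟨U.smul_mem c x1, fun v hv => ?_⟩
        rw [map_smul, LinearMap.smul_apply, x2 v hv, smul_zero] }
  have hW : W ≤ U := fun x hx => hx.1
  have hWs : StE L W := by
    rintro X hX x ⟨x1, x2⟩
    refine ⟨hU.2.1 X hX x x1, fun v hv => ?_⟩
    have h1 := hb X hX x x1 v hv
    rw [x2 (X v) (hU' X hX v hv), add_zero] at h1
    exact h1
  rcases hU.2.2 W hW hWs with h | h
  · have : u ∈ W := ⟨hu, h0⟩
    rw [h] at this
    exact (Submodule.mem_bot ℂ).mp this
  · obtain ⟨x, hx, v, hv, hne⟩ := hnz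
    have : x ∈ W := by rw [h]; exact hx
    exact absurd (this.2 v hv) hne

/-- Schur: the relation `IsoE` is symmetric -/
lemma twi_iso_symm (hB : LB0 L ω) (hU : IrE L U) (hU' : IrE L U') (h : IsoE L U' U) :
    IsoE L U U' := by
  obtain ⟨T, hT1, hT2, u0, hu0, hne⟩ := h
  -- the kernel on `U'` is zero
  have hker : ∀ u ∈ U', T u = 0 → u = 0 := by
    let W : Submodule ℂ V := U' ⊓ LinearMap.ker T
    have hWs : StE L W := by
      rintro X hX x ⟨x1, x2⟩
      refine ⟨hU'.2.1 X hX x x1, ?_⟩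
      have h1 := hT1 X hX x x1
      have x3 : T x = 0 := x2
      change T (X x) = 0
      rw [h1, x3, map_zero]
    rcases hU'.2.2 W inf_le_left hWs with h | h
    · intro u hu h0
      have : u ∈ W := ⟨hu, h0⟩
      rw [h] at this
      exact (Submodule.mem_bot ℂ).mp this
    · have : u0 ∈ W := by rw [h]; exact hu0
      exact absurd this.2 hne
  -- the image is `U`
  have him : U'.map T = U := by
    have hWs : StE L (U'.map T) := by
      rintro X hX _ ⟨x, hx, rfl⟩
      exact ⟨X x, hU'.2.1 X hX x hx, hT1 X hX x hx⟩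
    have hle : U'.map T ≤ U := by
      rintro _ ⟨x, hx, rfl⟩
      exact hT2 x hx
    rcases hU.2.2 _ hle hWs with h | h
    · have : T u0 ∈ U'.map T := ⟨u0, hu0, rfl⟩
      rw [h] at this
      exact absurd ((Submodule.mem_bot ℂ).mp this) hne
    · exact h
  let t : U' →ₗ[ℂ] U := (T.domRestrict U').codRestrict U fun x => hT2 x x.2
  have ht : Function.Bijective t := by
    constructor
    · rw [← LinearMap.ker_eq_bot, LinearMap.ker_eq_bot']
      intro x hx
      have h1 : T x = 0 := congrArg Subtype.val hx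
      exact Subtype.ext (hker x x.2 h1)
    · rintro ⟨y, hy⟩
      have : y ∈ U'.map T := by rw [him]; exact hy
      obtain ⟨x, hx, rfl⟩ := this
      exact ⟨⟨x, hx⟩, rfl⟩
  let e := LinearEquiv.ofBijective t ht
  obtain ⟨p, hp1, hp2, hp3⟩ := hB.ss U hU.2.1
  let q : V →ₗ[ℂ] U := p.codRestrict U hp2
  have hq : ∀ u (hu : u ∈ U), q u = ⟨u, hu⟩ := fun u hu => Subtype.ext (hp3 u hu)
  refine ⟨U'.subtype ∘ₗ e.symm.toLinearMap ∘ₗ q, ?_, fun u _ => (e.symm (q u)).2, ?_⟩
  · intro X hX u hu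
    have hXu := hU.2.1 X hX u hu
    simp only [LinearMap.comp_apply, hq _ hu, hq _ hXu]
    set y : U' := e.symm ⟨u, hu⟩ with hy
    have hy1 : e y = ⟨u, hu⟩ := e.apply_symm_apply _
    have hy2 : T y = u := congrArg Subtype.val hy1
    have hXy := hU'.2.1 X hX y y.2
    have h3 : e ⟨X y, hXy⟩ = ⟨X u, hXu⟩ := by
      apply Subtype.ext
      change T (X y) = X u
      rw [hT1 X hX y y.2, hy2]
    have h4 : e.symm ⟨X u, hXu⟩ = ⟨X y, hXy⟩ := by
      rw [← h3, e.symm_apply_apply]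
    change ((e.symm ⟨X u, hXu⟩ : U') : V) = X (y : V)
    rw [h4]
  · refine ⟨T u0, hT2 u0 hu0, ?_⟩
    simp only [LinearMap.comp_apply, hq _ (hT2 u0 hu0)]
    intro h0
    have h1 : e.symm ⟨T u0, hT2 u0 hu0⟩ = 0 := Subtype.ext h0
    rw [LinearEquiv.map_eq_zero_iff] at h1
    exact hne (congrArg Subtype.val h1)

/-- two different pairings give an isomorphism -/
lemma twi_pair_iso [FiniteDimensional ℂ V] (hB : LB0 L ω) (hU : IrE L U) (hU' : IrE L U')
    (hdim : finrank ℂ U' = finrank ℂ U) (h : PairE L U' U) (h1 : PairE L U U) : IsoE L U U' := by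
  obtain ⟨b, hb, hbn⟩ := h
  obtain ⟨b₁, hb₁, hb₁n⟩ := h1
  let B : U' →ₗ[ℂ] Dual ℂ U := (U.subtype.dualMap ∘ₗ b) ∘ₗ U'.subtype
  have hBa : ∀ (x : U') (v : U), B x v = b x v := fun x v => rfl
  let B₁ : U →ₗ[ℂ] Dual ℂ U := (U.subtype.dualMap ∘ₗ b₁) ∘ₗ U.subtype
  have hB₁a : ∀ (x : U) (v : U), B₁ x v = b₁ x v := fun x v => rfl
  have hinj : Function.Injective B := by
    rw [← LinearMap.ker_eq_bot, LinearMap.ker_eq_bot']
    intro x hx
    apply Subtype.ext
    refine twi_nondeg hU' hU.2.1 b hb hbn x x.2 fun v hv => ?_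
    rw [← hBa x ⟨v, hv⟩, hx]
    rfl
  let e := LinearMap.linearEquivOfInjective B hinj (by rw [hdim, Subspace.dual_finrank_eq])
  have he : ∀ x, e x = B x := fun x => rfl
  obtain ⟨p, hp1, hp2, hp3⟩ := hB.ss U hU.2.1
  let q : V →ₗ[ℂ] U := p.codRestrict U hp2
  have hq : ∀ u (hu : u ∈ U), q u = ⟨u, hu⟩ := fun u hu => Subtype.ext (hp3 u hu)
  let τ : U →ₗ[ℂ] U' := e.symm.toLinearMap ∘ₗ B₁
  have hτ : ∀ (u v : U), b (τ u) v = b₁ u v := by
    intro u v
    rw [← hBa (τ u) v, ← he, ← hB₁a]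
    change (e (e.symm (B₁ u))) v = _
    rw [e.apply_symm_apply]
  refine ⟨U'.subtype ∘ₗ τ ∘ₗ q, ?_, fun u _ => (τ (q u)).2, ?_⟩
  · intro X hX u hu
    have hXu := hU.2.1 X hX u hu
    simp only [LinearMap.comp_apply, hq _ hu, hq _ hXu]
    change ((τ ⟨X u, hXu⟩ : U') : V) = X (τ ⟨u, hu⟩ : V)
    have hXt := hU'.2.1 X hX (τ ⟨u, hu⟩) (τ ⟨u, hu⟩).2
    have h4 : τ ⟨X u, hXu⟩ = ⟨X (τ ⟨u, hu⟩ : V), hXt⟩ := by
      apply hinj
      refine LinearMap.ext fun v => ?_
      rw [hBa, hBa, hτ]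
      have h5 := hb₁ X hX u hu v v.2
      have h6 := hb X hX _ (τ ⟨u, hu⟩).2 v v.2
      have h7 := hτ ⟨u, hu⟩ ⟨X v, hU.2.1 X hX v v.2⟩
      change b (τ ⟨u, hu⟩ : V) (X v) = b₁ u (X v) at h7
      rw [h7] at h6
      change b₁ (X u) v = b (X (τ ⟨u, hu⟩ : V)) v
      linear_combination h5 - h6
    rw [h4]
  · obtain ⟨u, hu, v, hv, hne⟩ := hb₁n
    refine ⟨u, hu, fun h0 => hne ?_⟩
    have h8 : (τ ⟨u, hu⟩ : V) = 0 := by
      have h9 := h0
      simp only [LinearMap.comp_apply, hq _ hu] at h9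
      exact h9
    have h10 := hτ ⟨u, hu⟩ ⟨v, hv⟩
    rw [h8, map_zero, LinearMap.zero_apply] at h10
    exact h10.symm

/-- the nilpotent elements -/
lemma twi_key [FiniteDimensional ℂ V] (h : S_TH) (hB : LB L ω) (hU : IrE L U) {D : End ℂ V}
    (hD : D ∈ L) {a : V} (ha : a ∈ U) (hDa : D a = a) {f : V →ₗ[ℂ] ℂ}
    (hf : ∀ v, f (D v) = -f v) :
    ∃ X X' : End ℂ V, X - X' ∈ L ∧ (X - X') * (X - X') = 0 ∧ (∀ u ∈ U, X u = f u • a) ∧
      (∀ U', IrE L U' → ¬IsoE L U' U → ∀ u ∈ U', X u = 0) ∧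
      (∀ U', IrE L U' → ¬PairE L U' U → ∀ u ∈ U', X' u = 0) ∧
      (∀ b : V →ₗ[ℂ] V →ₗ[ℂ] ℂ, (∀ A ∈ L, ∀ u v, b (A u) v + b u (A v) = 0) →
        ∀ u v, b (X u) v = b u (X' v)) := by
  let M : U →ₗ[ℂ] U := (f.domRestrict U).smulRight ⟨a, ha⟩
  have hM : ∀ u : U, (M u : V) = f u • a := fun u => rfl
  obtain ⟨X, X', h1, h2, h3, h4, h5, h6, h7, h8⟩ := h V L ω hB.toLB0 U hU M
  obtain ⟨h71, h72⟩ := h7 D hD 1 (fun u => by rw [hM, map_smul, hDa, one_smul])
  obtain ⟨h81, h82⟩ := h8 D hD (-1) (fun u hu hA => by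
    apply Subtype.ext
    rw [Submodule.coe_smul, hM, hM]
    change f (D u) • a = (-1 : ℂ) • (f u • a)
    rw [hf, smul_smul]
    ring_nf)
  rw [one_smul] at h71 h72
  rw [neg_smul, one_smul] at h81
  rw [neg_smul, one_smul, neg_neg] at h82
  set N := X - X' with hN
  have e1 : D * N = N := by rw [hN, mul_sub, h71, h82]
  have e2 : N * D = -N := by rw [hN, sub_mul, h81, h72]; abel
  have hLN : LfE L ω N := by
    refine ⟨fun T hT => ?_, fun u v => ?_⟩
    · rw [hN, sub_mul, mul_sub, (h2 T hT).1, (h2 T hT).2]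
    · have g1 := h1 u v
      have g2 : ω (X' u) v = ω u (X v) := by
        rw [hB.alt, ← h1 v u, hB.alt (X v) u, neg_neg]
      rw [hN, LinearMap.sub_apply, LinearMap.sub_apply, map_sub, map_sub, LinearMap.sub_apply,
        g1, g2]
      ring
  have hLD : LfE L ω D := ⟨fun T hT => hT D hD, hB.skew D hD⟩
  have hNL : N ∈ L := by
    have g1 := hB.br D N hLD hLN
    rw [e1, e2, sub_neg_eq_add, ← two_smul ℂ N] at g1
    have g2 := L.smul_mem (2 : ℂ)⁻¹ g1
    rwa [smul_smul, inv_mul_cancel₀ (two_ne_zero), one_smul] at g2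
  have hNN : N * N = 0 := by
    have g1 : N * N = -(N * N) := by
      calc N * N = N * (D * N) := by rw [e1]
        _ = (N * D) * N := by rw [mul_assoc]
        _ = -(N * N) := by rw [e2, neg_mul]
    have g2 : (2 : ℂ) • (N * N) = 0 := by
      rw [two_smul]
      nth_rewrite 1 [g1]
      abel
    exact (smul_eq_zero.mp g2).resolve_left two_ne_zero
  exact ⟨X, X', hNL, hNN, fun u hu => by rw [h3 ⟨u, hu⟩, hM], h4, h5, h6⟩

/-- they are not zero on `U` -/
lemma twi_nz (hB : LB0 L ω) (hU : IrE L U) (hO : ¬OrtE L U) {a : V} (ha : a ∈ U) (ha0 : a ≠ 0)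
    {f : V →ₗ[ℂ] ℂ} {u₁ : V} (hu₁ : u₁ ∈ U) (hfu : f u₁ ≠ 0) {X X' : End ℂ V}
    (h3 : ∀ u ∈ U, X u = f u • a)
    (h5 : ∀ U', IrE L U' → ¬PairE L U' U → ∀ u ∈ U', X' u = 0)
    (h6 : ∀ b : V →ₗ[ℂ] V →ₗ[ℂ] ℂ, (∀ A ∈ L, ∀ u v, b (A u) v + b u (A v) = 0) →
      ∀ u v, b (X u) v = b u (X' v)) :
    ∃ u ∈ U, (X - X') u ≠ 0 := by
  by_contra hcon
  push Not at hcon
  have hXX : ∀ u ∈ U, X' u = f u • a := by
    intro u hu
    have h1 := hcon u hu
    rw [LinearMap.sub_apply, h3 u hu, sub_eq_zero] at h1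
    exact h1.symm
  by_cases hP : PairE L U U
  · obtain ⟨b₀, hb₀, hn⟩ := hP
    obtain ⟨p, hp1, hp2, hp3⟩ := hB.ss U hU.2.1
    let b : V →ₗ[ℂ] V →ₗ[ℂ] ℂ := b₀.compl₁₂ p p
    have hb : ∀ u v, b u v = b₀ (p u) (p v) := fun u v => rfl
    have hinv : ∀ A ∈ L, ∀ u v, b (A u) v + b u (A v) = 0 := by
      intro A hA u v
      have g : ∀ w, p (A w) = A (p w) := fun w => (LinearMap.congr_fun (hp1 A hA) w).symm
      rw [hb, hb, g, g]
      exact hb₀ A hA _ (hp2 u) _ (hp2 v)
    have hkey : ∀ u ∈ U, ∀ v ∈ U, f u * b₀ a v = f v * b₀ u a := by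
      intro u hu v hv
      have g1 := h6 b hinv u v
      rw [hb, hb, h3 u hu, hXX v hv, hp3 _ (U.smul_mem _ ha), hp3 _ (U.smul_mem _ ha), hp3 v hv,
        hp3 u hu, map_smul, map_smul, LinearMap.smul_apply, smul_eq_mul, smul_eq_mul] at g1
      exact g1
    have halt : ∀ u ∈ U, ∀ v ∈ U, b₀ u v + b₀ v u = 0 := by
      by_contra hc
      push Not at hc
      obtain ⟨u, hu, v, hv, hne⟩ := hc
      refine hO ⟨b₀ + b₀.flip, ?_, ⟨u, hu, v, hv, ?_⟩, ?_⟩
      · intro A hA u hu v hv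
        have g1 := hb₀ A hA u hu v hv
        have g2 := hb₀ A hA v hv u hu
        simp only [LinearMap.add_apply, LinearMap.flip_apply]
        linear_combination g1 + g2
      · simpa only [LinearMap.add_apply, LinearMap.flip_apply] using hne
      · intro u _ v _
        simp only [LinearMap.add_apply, LinearMap.flip_apply]
        ring
    have hz : b₀ a u₁ = 0 := by
      have g1 := hkey u₁ hu₁ u₁ hu₁
      have g2 := mul_left_cancel₀ hfu g1
      have g3 := halt a ha u₁ hu₁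
      rw [← g2] at g3
      have g4 : (2 : ℂ) * b₀ a u₁ = 0 := by linear_combination g3
      exact (mul_eq_zero.mp g4).resolve_left two_ne_zero
    have hz2 : b₀ u₁ a = 0 := by
      have g3 := halt a ha u₁ hu₁
      rw [hz, zero_add] at g3
      exact g3
    refine ha0 (twi_nondeg hU hU.2.1 b₀ hb₀ hn a ha fun v hv => ?_)
    have g1 := hkey u₁ hu₁ v hv
    rw [hz2, mul_zero] at g1
    exact (mul_eq_zero.mp g1).resolve_left hfu
  · have g1 := h5 U hU hP u₁ hu₁
    rw [hXX u₁ hu₁] at g1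
    exact (smul_eq_zero.mp g1).elim hfu ha0

theorem s_twi (h : S_TH) : S_TWI := by
  intro V _ _ _ L ω hB U U' hU hU' hO D hD hD2 hns T hT hTi hTU
  by_cases hiso : IsoE L U U'
  · exact Or.inl hiso
  refine Or.inr ?_
  have hiso' : ¬IsoE L U' U := fun hh => hiso (twi_iso_symm hB.toLB0 hU hU' hh)
  have hDD : ∀ v, D (D v) = v := fun v => LinearMap.congr_fun hD2 v
  have hTm : ∀ u ∈ U, T u ∈ U' := fun u hu => by rw [← hTU]; exact ⟨u, hu, rfl⟩
  -- eigenvectors
  obtain ⟨a, ha, ha0, hDa⟩ : ∃ a ∈ U, a ≠ 0 ∧ D a = a := by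
    obtain ⟨u, hu, hne⟩ := hns (-1)
    refine ⟨u + D u, U.add_mem hu (hU.2.1 D hD u hu), fun h0 => hne ?_, ?_⟩
    · rw [neg_smul, one_smul]
      exact (neg_eq_of_add_eq_zero_right h0).symm
    · rw [map_add, hDD, add_comm]
  obtain ⟨e, he, he0, hDe⟩ : ∃ e ∈ U, e ≠ 0 ∧ D e = -e := by
    obtain ⟨u, hu, hne⟩ := hns 1
    refine ⟨u - D u, U.sub_mem hu (hU.2.1 D hD u hu), fun h0 => hne ?_, ?_⟩
    · rw [one_smul]
      exact (sub_eq_zero.mp h0).symm
    · rw [map_sub, hDD]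
      abel
  -- linear forms
  have hform : ∀ w : V, w ≠ 0 → D w = -w → ∃ f : V →ₗ[ℂ] ℂ, (∀ v, f (D v) = -f v) ∧ f w ≠ 0 := by
    intro w hw hDw
    have hex : ∃ g : Dual ℂ V, g w ≠ 0 := by
      by_contra hc
      push Not at hc
      exact hw ((Module.forall_dual_apply_eq_zero_iff ℂ w).mp hc)
    obtain ⟨g, hg⟩ := hex
    refine ⟨g - g ∘ₗ D, fun v => ?_, ?_⟩
    · simp only [LinearMap.sub_apply, LinearMap.comp_apply, hDD]
      ring
    · simp only [LinearMap.sub_apply, LinearMap.comp_apply, hDw, map_neg]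
      intro h0
      have : (2 : ℂ) * g w = 0 := by linear_combination h0
      exact hg ((mul_eq_zero.mp this).resolve_left two_ne_zero)
  obtain ⟨f, hf, hfe⟩ := hform e he0 hDe
  -- Case A
  have hP : PairE L U' U := by
    by_contra hP
    obtain ⟨X, X', hNL, hNN, h3, h4, h5, h6⟩ := twi_key h hB hU hD ha hDa hf
    obtain ⟨c, hc⟩ := hT _ hNL
    have hN0 : ∀ u ∈ U', (X - X') u = 0 := by
      intro u hu
      rw [LinearMap.sub_apply, h4 U' hU' hiso' u hu, h5 U' hU' hP u hu, sub_zero]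
    have hNc : ∀ u ∈ U, (X - X') u = c • u := by
      intro u hu
      have g1 := hc u hu
      rw [hN0 _ (hTm u hu), zero_add] at g1
      have g2 : T ((X - X') u - c • u) = 0 := by rw [map_sub, map_smul, g1, sub_self]
      exact sub_eq_zero.mp (hTi _ (U.sub_mem (hU.2.1 _ hNL u hu) (U.smul_mem _ hu)) g2)
    have hc0 : c = 0 := by
      have g1 : (X - X') ((X - X') a) = 0 := LinearMap.congr_fun hNN a
      rw [hNc a ha, map_smul, hNc a ha, smul_smul] at g1
      have g2 := (smul_eq_zero.mp g1).resolve_right ha0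
      exact mul_self_eq_zero.mp g2
    obtain ⟨u, hu, hne⟩ := twi_nz hB.toLB0 hU hO ha ha0 he hfe h3 h5 h6
    exact hne (by rw [hNc u hu, hc0, zero_smul])
  have hdim : finrank ℂ U' = finrank ℂ U := by
    let t : U →ₗ[ℂ] U' := (T.domRestrict U).codRestrict U' fun x => hTm x x.2
    have ht : Function.Bijective t := by
      constructor
      · rw [← LinearMap.ker_eq_bot, LinearMap.ker_eq_bot']
        intro x hx
        exact Subtype.ext (hTi x x.2 (congrArg Subtype.val hx))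
      · rintro ⟨y, hy⟩
        have : y ∈ U.map T := by rw [hTU]; exact hy
        obtain ⟨x, hx, rfl⟩ := this
        exact ⟨⟨x, hx⟩, rfl⟩
    exact (LinearEquiv.ofBijective t ht).finrank_eq.symm
  have hnP : ¬PairE L U U := fun hh => hiso (twi_pair_iso hB.toLB0 hU hU' hdim hP hh)
  obtain ⟨b, hb, hbn⟩ := hP
  have hflip : ∀ X ∈ L, ∀ u ∈ U, ∀ v ∈ U', b.flip (X u) v + b.flip u (X v) = 0 := by
    intro X hX u hu v hv
    simp only [LinearMap.flip_apply]
    have := hb X hX v hv u hu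
    linear_combination this
  have hflipn : ∃ u ∈ U, ∃ v ∈ U', b.flip u v ≠ 0 := by
    obtain ⟨u, hu, v, hv, hne⟩ := hbn
    exact ⟨v, hv, u, hu, hne⟩
  have hleft : ∀ u ∈ U, (∀ v ∈ U, b (T u) v = 0) → u = 0 := fun u hu h0 =>
    hTi u hu (twi_nondeg hU' hU.2.1 b hb hbn (T u) (hTm u hu) h0)
  -- the main identity
  have main : ∀ a' ∈ U, D a' = a' → a' ≠ 0 → ∀ f' : V →ₗ[ℂ] ℂ, (∀ v, f' (D v) = -f' v) →
      ∀ u₁ ∈ U, f' u₁ ≠ 0 → ∃ l : ℂ, l ≠ 0 ∧ ∀ v ∈ U, b (T a') v = l * f' v := by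
    intro a' ha' hDa' ha0' f' hf' u₁ hu₁ hfu
    obtain ⟨X, X', hNL, hNN, h3, h4, h5, h6⟩ := twi_key h hB hU hD ha' hDa' hf'
    obtain ⟨c, hc⟩ := hT _ hNL
    have hN : ∀ u ∈ U, (X - X') u = f' u • a' := by
      intro u hu
      rw [LinearMap.sub_apply, h3 u hu, h5 U hU hnP u hu, sub_zero]
    set N := X - X' with hNd
    have hNN' : ∀ v, N (N v) = 0 := fun v => LinearMap.congr_fun hNN v
    have hc0 : c = 0 := by
      by_contra hcn
      have g1 : ∀ u ∈ U, (2 * c) • N (T u) + (c * c) • T u = 0 := by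
        intro u hu
        have k1 := hc (N u) (hU.2.1 N hNL u hu)
        rw [hNN', map_zero, hc u hu, map_add, map_smul, hNN', zero_add, smul_add, smul_smul] at k1
        rw [two_mul, add_smul]
        rw [k1]
        abel
      have g2 := g1 a ha
      have g3 : N ((2 * c) • N (T a) + (c * c) • T a) = 0 := by rw [g2, map_zero]
      rw [map_add, map_smul, map_smul, hNN', smul_zero, zero_add] at g3
      have g4 := (smul_eq_zero.mp g3).resolve_left (mul_ne_zero hcn hcn)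
      rw [g4, smul_zero, zero_add] at g2
      have g5 := (smul_eq_zero.mp g2).resolve_left (mul_ne_zero hcn hcn)
      exact ha0 (hTi a ha g5)
    have hTN : ∀ u ∈ U, T (N u) = N (T u) := by
      intro u hu
      rw [hc u hu, hc0, zero_smul, add_zero]
    have hid : ∀ u ∈ U, ∀ v ∈ U, f' u * b (T a') v = -(f' v * b (T u) a') := by
      intro u hu v hv
      have k1 := hb N hNL (T u) (hTm u hu) v hv
      rw [← hTN u hu, hN u hu, hN v hv, map_smul, map_smul, map_smul, LinearMap.smul_apply,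
        smul_eq_mul, smul_eq_mul] at k1
      linear_combination k1
    refine ⟨-(b (T u₁) a') / f' u₁, fun hl => ?_, fun v hv => ?_⟩
    · refine ha0' (hleft a' ha' fun v hv => ?_)
      have k1 := hid u₁ hu₁ v hv
      have k2 : b (T u₁) a' = 0 := by
        rcases div_eq_zero_iff.mp hl with k | k
        · exact neg_eq_zero.mp k
        · exact absurd k hfu
      rw [k2, mul_zero, neg_zero] at k1
      exact (mul_eq_zero.mp k1).resolve_left hfu
    · have k1 := hid u₁ hu₁ v hv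
      field_simp
      linear_combination k1
  obtain ⟨l0, hl0, hl⟩ := main a ha hDa ha0 f hf e he hfe
  -- the `+1` eigenspace
  have hplus : ∀ x ∈ U, D x = x → ∃ c : ℂ, x = c • a := by
    intro x hx hDx
    by_cases hx0 : x = 0
    · exact ⟨0, by rw [hx0, zero_smul]⟩
    obtain ⟨l, _, hl'⟩ := main x hx hDx hx0 f hf e he hfe
    refine ⟨l / l0, sub_eq_zero.mp (hleft _ (U.sub_mem hx (U.smul_mem _ ha)) fun v hv => ?_)⟩
    rw [map_sub, map_smul, map_sub, map_smul, LinearMap.sub_apply, LinearMap.smul_apply,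
      hl' v hv, hl v hv, smul_eq_mul]
    field_simp
    ring
  have hminus : ∀ x ∈ U, D x = -x → ∃ c : ℂ, x = c • e := by
    intro x hx hDx
    refine ⟨f x / f e, sub_eq_zero.mp ?_⟩
    set y := x - (f x / f e) • e with hy
    by_contra hy0
    have hyU : y ∈ U := U.sub_mem hx (U.smul_mem _ he)
    have hDy : D y = -y := by
      rw [hy, map_sub, map_smul, hDx, hDe, smul_neg]
      abel
    have hfy : f y = 0 := by
      rw [hy, map_sub, map_smul, smul_eq_mul]
      field_simp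
      ring
    obtain ⟨f', hf', hfy'⟩ := hform y hy0 hDy
    obtain ⟨l, hl0', hl'⟩ := main a ha hDa ha0 f' hf' y hyU hfy'
    have k1 := hl y hyU
    rw [hl' y hyU, hfy, mul_zero] at k1
    exact (mul_ne_zero hl0' hfy') k1
  refine ⟨le_antisymm ?_ ?_, b.flip, hflip, hflipn⟩
  · have hle : U ≤ Submodule.span ℂ {a, e} := by
      intro u hu
      have hDu := hU.2.1 D hD u hu
      obtain ⟨c1, hc1⟩ := hplus (u + D u) (U.add_mem hu hDu) (by rw [map_add, hDD, add_comm])
      obtain ⟨c2, hc2⟩ := hminus (u - D u) (U.sub_mem hu hDu) (by rw [map_sub, hDD]; abel)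
      rw [Submodule.mem_span_pair]
      refine ⟨c1 / 2, c2 / 2, ?_⟩
      have k : u = (2 : ℂ)⁻¹ • ((u + D u) + (u - D u)) := by
        have : (u + D u) + (u - D u) = (2 : ℂ) • u := by rw [two_smul]; abel
        rw [this, smul_smul, inv_mul_cancel₀ two_ne_zero, one_smul]
      rw [hc1, hc2, smul_add, smul_smul, smul_smul] at k
      rw [k]
      congr 1 <;> ring_nf
    calc finrank ℂ U ≤ finrank ℂ (Submodule.span ℂ {a, e}) := Submodule.finrank_mono hle
      _ ≤ 2 := by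
        classical
        have k := finrank_span_le_card (R := ℂ) ({a, e} : Set V)
        refine k.trans ?_
        rw [Set.toFinset_card]
        have := Set.ncard_insert_le a ({e} : Set V)
        rw [Set.ncard_singleton, Set.ncard_eq_toFinset_card', Set.toFinset_card] at this
        exact this
  · have hli : LinearIndependent ℂ ![(⟨a, ha⟩ : U), ⟨e, he⟩] := by
      rw [LinearIndependent.pair_iff]
      intro s t hst
      have h1 : s • a + t • e = 0 := congrArg Subtype.val hst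
      have h2 : s • a - t • e = 0 := by
        have := congrArg D h1
        rw [map_add, map_smul, map_smul, hDa, hDe, map_zero, smul_neg] at this
        rw [sub_eq_add_neg]
        exact this
      have h3 : (2 * s) • a = 0 := by
        rw [two_mul, add_smul]
        calc s • a + s • a = (s • a + t • e) + (s • a - t • e) := by abel
          _ = 0 := by rw [h1, h2, add_zero]
      have h4 : s = 0 := by
        have := (smul_eq_zero.mp h3).resolve_right ha0
        exact (mul_eq_zero.mp this).resolve_left two_ne_zero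
      rw [h4, zero_smul, zero_add] at h1
      exact ⟨h4, (smul_eq_zero.mp h1).resolve_right he0⟩
    have := hli.fintype_card_le_finrank
    simpa using this

end twi

end Pool.Agent.H926.T
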