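import Pool.Agent.H926.T.Jobs

/-!
# The commutators of the Lefschetz Lie algebra kill the Weil ring
-/

set_option linter.unusedSectionVars false

namespace Pool.Agent.H926.T

open Module Pool.Agent.H204R3.CM
open Pool.Agent.Y90.St (IsAV IsHom IsPolarization)
open Pool.Agent.Y4.P (WeilRing IsWeilClass)

namespace WrL

section kill

variable {H : Type} [AddCommGroup H] [Module ℚ H]

theorem kill_reindex {κ κ' : Type} [Fintype κ] [DecidableEq κ] [Fintype κ'] [DecidableEq κ']
    (e : κ ≃ κ') (z : H →ₗ[ℚ] H) (f : H [⋀^κ]→ₗ[ℚ] ℚ) (hf : KillQ z f.toMultilinearMap) :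
    KillQ z (f.domDomCongr e).toMultilinearMap := by
  intro v
  have h := hf (fun k => v (e k))
  rw [← h, ← Equiv.sum_comp e]
  refine Finset.sum_congr rfl (fun k _ => ?_)
  simp only [AlternatingMap.coe_multilinearMap, AlternatingMap.domDomCongr_apply]
  congr 1
  funext i
  simp only [Function.comp, Function.update_apply, EmbeddingLike.apply_eq_iff_eq]

theorem kill_cup {κ κ' : Type} [Fintype κ] [DecidableEq κ] [Fintype κ'] [DecidableEq κ']
    (z : H →ₗ[ℚ] H) (f : H [⋀^κ]→ₗ[ℚ] ℚ) (g : H [⋀^κ']→ₗ[ℚ] ℚ)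
    (hf : KillQ z f.toMultilinearMap) (hg : KillQ z g.toMultilinearMap)
    (h : H [⋀^κ ⊕ κ']→ₗ[ℚ] ℚ)
    (hh : ∀ v : κ ⊕ κ' → H, h v = ∑ σ : Equiv.Perm (κ ⊕ κ'), ((Equiv.Perm.sign σ : ℤ) : ℚ) *
        (f (fun k => v (σ (Sum.inl k))) * g (fun k => v (σ (Sum.inr k))))) :
    KillQ z h.toMultilinearMap := by
  intro v
  simp only [AlternatingMap.coe_multilinearMap, hh]
  rw [Finset.sum_comm]
  refine Finset.sum_eq_zero (fun σ _ => ?_)
  rw [← Finset.mul_sum]
  convert mul_zero _
  rw [← Equiv.sum_comp σ, Fintype.sum_sum_type]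
  have h1 := hf (fun k => v (σ (Sum.inl k)))
  have h2 := hg (fun k => v (σ (Sum.inr k)))
  simp only [AlternatingMap.coe_multilinearMap] at h1 h2
  have e1 : ∀ a : κ, (fun k => Function.update v (σ (Sum.inl a)) (z (v (σ (Sum.inl a))))
      (σ (Sum.inl k))) = Function.update (fun k => v (σ (Sum.inl k))) a (z (v (σ (Sum.inl a)))) := by
    intro a
    funext i
    simp only [Function.update_apply, EmbeddingLike.apply_eq_iff_eq, Sum.inl.injEq]
  have e2 : ∀ a : κ, (fun k => Function.update v (σ (Sum.inl a)) (z (v (σ (Sum.inl a))))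
      (σ (Sum.inr k))) = fun k => v (σ (Sum.inr k)) := by
    intro a
    funext i
    simp
  have e3 : ∀ a : κ', (fun k => Function.update v (σ (Sum.inr a)) (z (v (σ (Sum.inr a))))
      (σ (Sum.inr k))) = Function.update (fun k => v (σ (Sum.inr k))) a (z (v (σ (Sum.inr a)))) := by
    intro a
    funext i
    simp only [Function.update_apply, EmbeddingLike.apply_eq_iff_eq, Sum.inr.injEq]
  have e4 : ∀ a : κ', (fun k => Function.update v (σ (Sum.inr a)) (z (v (σ (Sum.inr a))))
      (σ (Sum.inl k))) = fun k => v (σ (Sum.inl k)) := by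
    intro a
    funext i
    simp
  simp only [e1, e2, e3, e4]
  rw [← Finset.sum_mul, ← Finset.mul_sum, h1, h2]
  simp

theorem kill_two (x y : H →ₗ[ℚ] H) (f : H [⋀^Fin 2]→ₗ[ℚ] ℚ)
    (hx : ∀ v w, f ![x v, w] + f ![v, x w] = 0) (hy : ∀ v w, f ![y v, w] + f ![v, y w] = 0) :
    KillQ (x ∘ₗ y - y ∘ₗ x) f.toMultilinearMap := by
  have key : ∀ v w, f ![(x ∘ₗ y - y ∘ₗ x) v, w] + f ![v, (x ∘ₗ y - y ∘ₗ x) w] = 0 := by
    intro v w
    have l1 : ∀ a b c : H, f ![a - b, c] = f ![a, c] - f ![b, c] := by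
      intro a b c
      have e : ∀ d, Function.update ![a, c] 0 d = ![d, c] := by
        intro d
        funext i
        fin_cases i <;> simp
      have := f.map_update_sub ![a, c] 0 a b
      rwa [e, e, e] at this
    have l2 : ∀ a b c : H, f ![c, a - b] = f ![c, a] - f ![c, b] := by
      intro a b c
      have e : ∀ d, Function.update ![c, a] 1 d = ![c, d] := by
        intro d
        funext i
        fin_cases i <;> simp
      have := f.map_update_sub ![c, a] 1 a b
      rwa [e, e, e] at this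
    simp only [LinearMap.sub_apply, LinearMap.comp_apply, l1, l2]
    have a1 := hx (y v) w
    have a2 := hy (x v) w
    have a3 := hx v (y w)
    have a4 := hy v (x w)
    linarith
  intro v
  have e0 : (Function.update v 0 ((x ∘ₗ y - y ∘ₗ x) (v 0))) = ![(x ∘ₗ y - y ∘ₗ x) (v 0), v 1] := by
    funext i
    fin_cases i <;> simp
  have e1 : (Function.update v 1 ((x ∘ₗ y - y ∘ₗ x) (v 1))) = ![v 0, (x ∘ₗ y - y ∘ₗ x) (v 1)] := by
    funext i
    fin_cases i <;> simp
  rw [Fin.sum_univ_two, e0, e1]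
  exact key _ _

end kill

section weil

variable {H T : Type} [AddCommGroup H] [Module ℚ H] [AddCommGroup T] [Module ℂ T]

/-- `x` in each coordinate -/
def pw (m : ℕ) (x : H →ₗ[ℚ] H) : (Fin m → H) →ₗ[ℚ] (Fin m → H) :=
  LinearMap.pi fun i => x ∘ₗ LinearMap.proj i

@[simp] theorem pw_apply (m : ℕ) (x : H →ₗ[ℚ] H) (v : Fin m → H) (i : Fin m) :
    pw m x v i = x (v i) := rfl

theorem pw_comm {per : H →+ T} {m : ℕ} {x : H →ₗ[ℚ] H}
    (hx : ∀ a : H →ₗ[ℚ] H, IsHom per per a → x ∘ₗ a = a ∘ₗ x)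
    (ε : (Fin m → H) →ₗ[ℚ] (Fin m → H)) (hε : IsHom (powPer per m) (powPer per m) ε)
    (v : Fin m → H) : ε (pw m x v) = pw m x (ε v) := by
  obtain ⟨Ψ, hΨ⟩ := hε
  have hent : ∀ i j, IsHom per per (LinearMap.proj i ∘ₗ ε ∘ₗ
      LinearMap.single ℚ (fun _ : Fin m => H) j) := by
    intro i j
    refine ⟨LinearMap.proj i ∘ₗ Ψ ∘ₗ LinearMap.single ℂ (fun _ : Fin m => T) j, fun w => ?_⟩
    have h1 := congrFun (hΨ (Pi.single j w)) i
    have h2 : powPer per m (Pi.single j w) = Pi.single j (per w) := by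
      funext k
      show per ((Pi.single j w : Fin m → H) k) = _
      by_cases hk : k = j
      · subst hk
        simp
      · simp [hk]
    rw [h2] at h1
    exact h1
  have hsum : ∀ u : Fin m → H, ∀ i, ε u i = ∑ j, (ε (Pi.single j (u j))) i := by
    intro u i
    conv_lhs => rw [← Finset.univ_sum_single u]
    rw [map_sum, Finset.sum_apply]
  funext i
  rw [pw_apply, hsum, hsum, map_sum]
  refine Finset.sum_congr rfl (fun j _ => ?_)
  have := LinearMap.congr_fun (hx _ (hent i j)) (v j)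
  exact this.symm

theorem exists_push {H' : Type} [AddCommGroup H'] [Module ℚ H'] {m : ℕ}
    (Θ : (Fin m → H) →ₗ[ℚ] H') (hΘ : Function.Surjective Θ) (X : (Fin m → H) →ₗ[ℚ] (Fin m → H))
    (hX : ∀ v, Θ v = 0 → Θ (X v) = 0) :
    ∃ x' : H' →ₗ[ℚ] H', ∀ v, x' (Θ v) = Θ (X v) := by
  obtain ⟨s, hs⟩ := Θ.exists_rightInverse_of_surjective (LinearMap.range_eq_top.2 hΘ)
  refine ⟨Θ ∘ₗ X ∘ₗ s, fun v => ?_⟩
  have h1 : Θ (s (Θ v) - v) = 0 := by
    rw [map_sub]
    have := LinearMap.congr_fun hs (Θ v)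
    simp only [LinearMap.comp_apply, LinearMap.id_apply] at this
    rw [this, sub_self]
  have h2 := hX _ h1
  rw [map_sub, map_sub, sub_eq_zero] at h2
  exact h2

theorem kill_weil (h1 : S_MOV) (h2 : S_ADJ) (h3 : S_PAV) {per : H →+ T} (hX : IsAV per)
    {x y : H →ₗ[ℚ] H} (hx : ∀ a : H →ₗ[ℚ] H, IsHom per per a → x ∘ₗ a = a ∘ₗ x)
    (hy : ∀ a : H →ₗ[ℚ] H, IsHom per per a → y ∘ₗ a = a ∘ₗ y)
    {H' T' : Type} [AddCommGroup H'] [Module ℚ H'] [AddCommGroup T'] [Module ℂ T']
    {per' : H' →+ T'} (hY : IsAV per') {n : ℕ} (f : H' [⋀^Fin n]→ₗ[ℚ] ℚ)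
    (hf : IsWeilClass per' n f) (h : H →ₗ[ℚ] H') (hh : IsHom per per' h) :
    KillQ (x ∘ₗ y - y ∘ₗ x) (f.compLinearMap h).toMultilinearMap := by
  obtain ⟨-, K, _, _, _, ι, hι, hfin, hmov⟩ := hf
  have : FiniteDimensional ℚ H' := hY.1
  obtain ⟨hm1, hm2⟩ := h1 K H' ι n hfin f hmov
  have hιq : ∀ (q : ℚ) (a : K), ι (q • a) = q • ι a := fun q a => map_rat_smul ι q a
  set m := finrank ℚ K with hm
  let b : Basis (Fin m) ℚ K := Module.finBasis ℚ K
  let Θ : (Fin m → H) →ₗ[ℚ] H' := ∑ j, ι (b j) ∘ₗ h ∘ₗ LinearMap.proj j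
  have hΘ : ∀ v, Θ v = ∑ j, ι (b j) (h (v j)) := by
    intro v
    simp [Θ, LinearMap.sum_apply]
  -- the inclusion of `h`
  have hinc : ∀ w, Θ (fun j => b.repr 1 j • w) = h w := by
    intro w
    rw [hΘ]
    have e1 : ∀ j, ι (b j) (h (b.repr 1 j • w)) = ι (b.repr 1 j • b j) (h w) := by
      intro j
      rw [hιq, map_smul, map_smul, LinearMap.smul_apply]
    rw [Finset.sum_congr rfl (fun j _ => e1 j), ← LinearMap.sum_apply, ← map_sum, b.sum_repr,
      map_one, Module.End.one_apply]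
  -- multiplication by elements of `K`
  let M : K → (Fin m → H) → (Fin m → H) := fun a v i => ∑ j, b.repr (a * b j) i • v j
  have hM : ∀ a v, ι a (Θ v) = Θ (M a v) := by
    intro a v
    rw [hΘ, hΘ, map_sum]
    have e1 : ∀ j, ι a (ι (b j) (h (v j))) = ∑ i, b.repr (a * b j) i • ι (b i) (h (v j)) := by
      intro j
      rw [← Module.End.mul_apply, ← map_mul]
      conv_lhs => rw [← b.sum_repr (a * b j)]
      rw [map_sum, LinearMap.sum_apply]
      refine Finset.sum_congr rfl (fun i _ => ?_)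
      rw [hιq, LinearMap.smul_apply]
    rw [Finset.sum_congr rfl (fun j _ => e1 j), Finset.sum_comm]
    refine Finset.sum_congr rfl (fun i _ => ?_)
    simp only [M, map_sum, map_smul]
  have hMpw : ∀ (x : H →ₗ[ℚ] H) a v, pw m x (M a v) = M a (pw m x v) := by
    intro x a v
    funext i
    simp only [pw_apply, M, map_sum, map_smul]
  by_cases htop : LinearMap.range Θ = ⊤
  · have hsurj : Function.Surjective Θ := LinearMap.range_eq_top.1 htop
    have hΘhom : IsHom (powPer per m) per' Θ := by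
      obtain ⟨Ψ, hΨ⟩ := hh
      choose Ψ' hΨ' using fun j => hι (b j)
      refine ⟨∑ j, Ψ' j ∘ₗ Ψ ∘ₗ LinearMap.proj j, fun v => ?_⟩
      rw [hΘ, map_sum, LinearMap.sum_apply]
      refine Finset.sum_congr rfl (fun j _ => ?_)
      simp only [LinearMap.comp_apply, LinearMap.proj_apply]
      rw [show powPer per m v j = per (v j) from rfl, hΨ, hΨ']
    obtain ⟨Θ', ⟨Φ', hΦ'⟩, hker⟩ := h2 (Fin m → H) (Fin m → T) H' T' (powPer per m) per'
      (h3 H T per hX m) hY Θ hΘhom
    have hε : IsHom (powPer per m) (powPer per m) (Θ' ∘ₗ Θ) := by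
      obtain ⟨Φ, hΦ⟩ := hΘhom
      refine ⟨Φ' ∘ₗ Φ, fun v => ?_⟩
      rw [LinearMap.comp_apply, LinearMap.comp_apply, hΦ, hΦ']
    have push : ∀ x : H →ₗ[ℚ] H, (∀ a : H →ₗ[ℚ] H, IsHom per per a → x ∘ₗ a = a ∘ₗ x) →
        ∃ x' : H' →ₗ[ℚ] H', (∀ a, x' ∘ₗ ι a = ι a ∘ₗ x') ∧ ∀ w, x' (h w) = h (x w) := by
      intro x hx
      obtain ⟨x', hx'⟩ := exists_push Θ hsurj (pw m x) (fun v hv => hker _ (by
        have := pw_comm hx _ hε v
        rw [LinearMap.comp_apply, LinearMap.comp_apply, hv, map_zero, map_zero] at this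
        exact this))
      refine ⟨x', fun a => ?_, fun w => ?_⟩
      · refine LinearMap.ext (fun u => ?_)
        obtain ⟨v, rfl⟩ := hsurj u
        rw [LinearMap.comp_apply, LinearMap.comp_apply, hM, hx', hx', hM, hMpw]
      · rw [← hinc w, hx', ← hinc (x w)]
        congr 1
        funext j
        rw [pw_apply, map_smul]
    obtain ⟨x', hx1, hx2⟩ := push x hx
    obtain ⟨y', hy1, hy2⟩ := push y hy
    have hk := hm2 x' y' hx1 hy1
    intro v
    have hk' := hk (fun k => h (v k))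
    rw [← hk']
    refine Finset.sum_congr rfl (fun k _ => ?_)
    simp only [AlternatingMap.coe_multilinearMap, AlternatingMap.compLinearMap_apply]
    congr 1
    funext i
    by_cases hik : i = k
    · subst hik
      simp [hx2, hy2]
    · simp [hik]
  · have hz : f.compLinearMap h = 0 := by
      ext v
      simp only [AlternatingMap.compLinearMap_apply, AlternatingMap.zero_apply]
      refine hm1 (LinearMap.range Θ) ?_ htop _ (fun k => ⟨_, hinc (v k)⟩)
      rintro a _ ⟨v, rfl⟩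
      exact ⟨M a v, (hM a v).symm⟩
    rw [hz]
    intro v
    simp

end weil

end WrL

theorem s_wr (h1 : S_MOV) (h2 : S_ADJ) (h3 : S_PAV) : S_WR := by
  intro H T _ _ _ _ per hX x y hx hy κ hκ1 hκ2 f hf
  revert hκ1 hκ2
  induction hf with
  | unit f =>
    intro _ _ v
    exact Finset.sum_eq_zero (fun k _ => isEmptyElim k)
  | @divisor κ hκ f hf =>
    intro _ _
    have e : κ ≃ Fin 2 := Fintype.equivFinOfCardEq (by rw [← Nat.card_eq_fintype_card, hκ])
    obtain ⟨ψ, hψ1, hψ2⟩ := hf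
    have hf' : IsHodge per (f.domDomCongr e) := by
      refine ⟨ψ.domDomCongr e, fun v => ?_, fun z hz u => ?_⟩
      · simp only [MultilinearMap.domDomCongr_apply, AlternatingMap.domDomCongr_apply]
        exact hψ1 _
      · simp only [MultilinearMap.domDomCongr_apply]
        exact hψ2 z hz _
    have hk := WrL.kill_two x y (f.domDomCongr e) (hx.2 _ hf') (hy.2 _ hf')
    have := WrL.kill_reindex e.symm _ _ hk
    have h2 : (f.domDomCongr e).domDomCongr e.symm = f := by
      ext v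
      simp [AlternatingMap.domDomCongr_apply, Function.comp_def]
    rwa [h2] at this
  | weil hY f hf h hh =>
    intro i1 i2
    obtain rfl : i1 = Fin.fintype _ := Subsingleton.elim _ _
    obtain rfl : i2 = instDecidableEqFin _ := Subsingleton.elim _ _
    exact WrL.kill_weil h1 h2 h3 hX hx.1 hy.1 hY f hf h hh
  | zero κ =>
    intro _ _ v
    simp
  | add f g hf hg ihf ihg =>
    intro _ _ v
    have h1 := ihf v
    have h2 := ihg v
    simp only [AlternatingMap.coe_multilinearMap] at h1 h2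
    simp only [AlternatingMap.coe_multilinearMap, AlternatingMap.add_apply, Finset.sum_add_distrib]
    rw [h1, h2, add_zero]
  | smul a f hf ihf =>
    intro _ _ v
    have h1 := ihf v
    simp only [AlternatingMap.coe_multilinearMap] at h1
    simp only [AlternatingMap.coe_multilinearMap, AlternatingMap.smul_apply, ← Finset.smul_sum]
    rw [h1, smul_zero]
  | @reindex κ κ' e f hf ih =>
    intro _ _
    let _ : Fintype κ := Fintype.ofEquiv κ' e.symm
    let _ : DecidableEq κ := e.decidableEq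
    exact WrL.kill_reindex e _ f ih
  | @cup κ κ' _ _ _ _ f g hf hg h hh ihf ihg =>
    intro i1 i2
    obtain rfl : i1 = instFintypeSum _ _ := Subsingleton.elim _ _
    obtain rfl : i2 = instDecidableEqSum := Subsingleton.elim _ _
    exact WrL.kill_cup _ f g ihf ihg h hh

end Pool.Agent.H926.T
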