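import Mathlib
import Pool.Agent.H926.T.Top
import Pool.Agent.H926.T.Th
import Pool.Agent.H926.T.Rk
import Pool.Agent.H926.T.Twi
import Pool.Agent.H926.T.O3
import Pool.Agent.H926.T.Ort
import Pool.Agent.H926.T.Det1
import Pool.Agent.H926.T.Non
import Pool.Agent.H926.T.Conv
import Pool.Agent.H926.T.Tra
import Pool.Agent.H926.T.Formq
import Pool.Agent.H926.T.Mov
import Pool.Agent.H926.T.Adj
import Pool.Agent.H926.T.Wr
import Pool.Agent.H926.T.Lp
import Pool.Agent.H926.T.Hp
import Pool.Agent.H926.T.Dual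
import Pool.Graph.R_pool_sql_team_seeded_1acbe0a2.Y4.P.Top4

/-!
# The Hodge rings of all powers of an abelian variety and its Lefschetz Lie algebra
-/

set_option linter.unusedSectionVars false

namespace Pool.Agent.H926.T

open Pool.Agent.Y90
open Pool.Agent.H204R3.CM (IsHodge)
open Pool.Agent.Y4.P (WeilRing)

variable {H T : Type} [AddCommGroup H] [Module ℚ H] [AddCommGroup T] [Module ℂ T] {per : H →+ T}

theorem tstar (hX : St.IsAV per) :
    (∀ (n : ℕ) (κ : Type) [Finite κ] (f : (Fin n → H) [⋀^κ]→ₗ[ℚ] ℚ),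
      IsHodge (powPer per n) f → WeilRing (powPer per n) κ f) ↔
    (∀ x y : H →ₗ[ℚ] H, InLef per x → InLef per y → InHdg per (x ∘ₗ y - y ∘ₗ x)) := by
  have hDual := s_dual
  have hOrt := s_ort hDual
  have hTh := s_th hDual
  have hPD := s_pd
  have hTwi := s_twi hTh
  have hWR := s_wr s_mov s_adj s_pav
  have hNon := s_non (s_formq Pool.Agent.Y4.Q.jforms2) (s_rk1 hTh) hTwi hPD
  refine ⟨fun hW => ?_, fun hbr => ?_⟩
  · exact fun x y hx hy => imp_two s_tra s_pav s_lp hWR s_altp s_conv s_liem hX hW x y hx hy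
  · exact imp_one hNon hOrt (s_det1 hPD) s_o3 s_lb s_ratl s_tra s_pav s_lp s_hp hX hbr

end Pool.Agent.H926.T
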