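import Mathlib
import Pool.Agent.H926.T.Main
import Pool.Agent.H926.Fin

/-!
# All powers of the abelian varieties of dimension at most seven: definitions and lemma statements

The final theorem (R5): let `X` be an abelian variety of dimension at most seven and `n` a natural
number. All Hodge classes on `X ^ n` belong to the ring generated by divisors and Weil classes if and
only if `n ≤ 1` or `X` has no quotient of Mumford's type.
-/

set_option linter.unusedSectionVars false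

namespace Pool.Agent.H926.T

open Matrix Module Pool.Agent.Y90 Pool.Agent.W437.HC Pool.Agent.W437.HD
  Pool.Agent.TH504.CB
open Pool.Agent.W548.Odd hiding cv
open Pool.Agent.W437.HP (cK cK_mul cK_one)
open Pool.Agent.H204R3.CM (IsHodge)
open Pool.Agent.H204R3.SP (Kills)
open Pool.Agent.Y4.P (WeilRing)
open Pool.Agent.Y4.Q (GoodF4 T3M)

noncomputable section

/-- An abelian fourfold of Mumford's type: its only endomorphisms are the scalars, and its Hodge Lie
algebra is not the whole Lefschetz Lie algebra (the symplectic Lie algebra of a polarization). -/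
def IsMumfordType {H T : Type} [AddCommGroup H] [Module ℚ H] [AddCommGroup T] [Module ℂ T]
    (per : H →+ T) : Prop :=
  St.IsAV per ∧ finrank ℂ T = 4 ∧
    (∀ a : H →ₗ[ℚ] H, St.IsHom per per a → ∃ c : ℚ, ∀ v, a v = c • v) ∧
      ∃ x : H →ₗ[ℚ] H, InLef per x ∧ ¬InHdg per x

/-- **S_FACP (simple factors of powers).** `Z'` is a period matrix of the `n`-th power of the abelian
variety with the period matrix `Z`. Each simple factor `Z₁` of `Z'` is a factor of `Z`.

Proof. `E` is a rational matrix with `DZ Z' * E = E * DZ Z₁` and has a left inverse; let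
`M i = (coordinate i) ∘ A.symm ∘ E : ℚ ^ (2 a) → ℚ ^ (2 G)`. Each `M i` satisfies
`DZ Z * cK ℂ (M i) = cK ℂ (M i) * DZ Z₁` (it is a homomorphism: the coordinate is a homomorphism
`powPer (perOne Z) n → perOne Z`, and `A.symm` one by `hC`; see `Cht.hom` and the proof of
`Pool.Agent.H926.main_av` in `Pool/Agent/H926/Fin.lean`, `s_tra` in `T/Tra.lean`). Since `a > 0` and
`E` is injective some `M = M i` is not zero. Let `M† = -(Om a) * Mᵀ * Om G` be the adjoint for the
polarizations (`Om ^ 2 = -1`, `DZᵀ * Om + Om * DZ = 0`: so `DZ Z₁ * M† = M† * DZ Z`). `Z₁` is simple, so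
`ker M` (a rational subspace stable under the complex structure) is zero. `N = M† * M` is an
endomorphism of `Z₁` and is invertible: with the positive definite form
`v ↦ vᵀ Om J v` (`PM.pos`: sign as in the library) one has `Om (J v, M† M v) = Om (J M v, M v) ≠ 0` for
`M v ≠ 0`. So `E' = M`, `F' = N⁻¹ * M†` satisfy `Fac Z Z₁ E' F'`. (Compare `isog` in
`Pool/Agent/H926/Sep2.lean` and `exists_compl` in `Pool/Agent/H926/Cmp.lean`, and the adjoint in
`T/Adj.lean`; the library may contain this splitting.) -/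
def S_FACP : Prop :=
  ∀ (G : ℕ) (Z : Matrix (Fin G) (Fin G) ℂ) (_h : PM Z) (n G' : ℕ) (Z' : Matrix (Fin G') (Fin G') ℂ)
    (_h' : PM Z') (A : (Fin n → (Fin G ⊕ Fin G → ℚ)) ≃ₗ[ℚ] (Fin G' ⊕ Fin G' → ℚ))
    (_hC : Cht ((powPer (perOne Z) n).comp A.symm.toLinearMap.toAddMonoidHom) (JR Z')) (a : ℕ)
    (Z₁ : Matrix (Fin a) (Fin a) ℂ) (E : Matrix (Fin G' ⊕ Fin G') (Fin a ⊕ Fin a) ℚ)
    (F : Matrix (Fin a ⊕ Fin a) (Fin G' ⊕ Fin G') ℚ) (_hf : Fac Z' Z₁ E F) (_h₁ : PM Z₁)
    (_hs : IsSimpleAV Z₁) (_ha : 0 < a),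
    ∃ (E' : Matrix (Fin G ⊕ Fin G) (Fin a ⊕ Fin a) ℚ)
      (F' : Matrix (Fin a ⊕ Fin a) (Fin G ⊕ Fin G) ℚ), Fac Z Z₁ E' F'

/-- **S_GBR (good period matrices).** Uses S_FACP.

Proof. Let `per = perOne Z` (`H = Fin G ⊕ Fin G → ℚ`), an abelian variety (`IsAV`; in the library).
(1) For every `n` all Hodge classes on `powPer per n` are in `WeilRing`: it is an abelian variety
(`s_pav`), `exists_ppav` gives `G'`, `Z'`, `h'`, `A'`, `hC'`; `GoodF4 Z'` holds by S_FACP (both parts: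
simple factors of `Z'` are factors of `Z`), and
`Pool.Agent.Y4.Q.jmain4` (its three hypotheses are discharged in the library, see the last lines of
`Pool/Graph/R_pool_sql_team_seeded_1acbe0a2/Y4/P/Fin4.lean`) gives `WeilRing (perOne Z') κ f` for
Hodge classes `f`; transport along `A'` exactly as in `Pool.Agent.H926.main_av`.
(2) So `Pool.Agent.H926.T.tstar` gives `InHdg per (x ∘ₗ y - y ∘ₗ x)` for all `x`, `y` in `InLef per`.
(3) By `s_tra` (with `A = LinearEquiv.refl`, `hC = h.cht` up to unfolding) `InLef` and `InHdg` are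
membership of `qm (matQ _ x)` in `lefC Z` and `LZ Z`; by `s_ratl` elements of `lefC Z` are complex
combinations of `qm x` with `qm x ∈ lefC Z`; expand the commutator (`matQ_br`, `qm_br` in
`T/Top.lean`). -/
def S_GBR : Prop :=
  ∀ (G : ℕ) (Z : Matrix (Fin G) (Fin G) ℂ) (_h : PM Z) (_hg : GoodF4 Z), BrH Z

/-- **S_T3L (definite quaternion algebras, dimension four and six).**

Proof. We show `lefC Z ≤ LZ Z`. Take `b j d e t` (`exists_t3d`), `z` as in the proof of `t3_altFo`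
(`Pool/Agent/H926/T3e.lean`), `W = EigM b z` with the symmetric nondegenerate form `t.S hz`. There
`hwd : ∀ x y : W, wd (t.S hz) x y ∈ (LZ Z).map (t.R hz)`. Let `X ∈ lefC Z`. `X` commutes with `b` and
`j` (endomorphisms: `t.mx`, `t.cj`), so it preserves `W`, and it is skew for `om`, so its restriction
`t.R hz X` is skew for `t.S hz` (`S x y = om (oJ j x) y`, see `T3c.lean`). A skew operator for a
nondegenerate symmetric form on a finite dimensional space is a linear combination of the operators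
`wd S x y : w ↦ S x w • y - S y w • x` (`X = ± (1/2) ∑ wd S (e i) (X (f i))` for dual bases `e`, `f`;
use `exists_hb` in dimension 4 and 6 or a dual basis `LinearMap.BilinForm.dualBasis`). So
`t.R hz X = t.R hz Y` with `Y ∈ LZ Z`, and `X = Y` since both commute with `b`, `j` and agree on `W`
(`V = W + j W`, compare the proof of `T3D.wed_mem`). -/
def S_T3L : Prop :=
  ∀ (g : ℕ) (Z : Matrix (Fin g) (Fin g) ℂ) (_h : PM Z) (_hs : IsSimpleAV Z) (_hT : T3M Z)
    (_hg : g = 4 ∨ g = 6), BrH Z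

/-- **S_BRD (gluing).**

Proof. Let `X ∈ lefC Z`. The idempotents `E₁ * F₁`, `E₂ * F₂` are endomorphisms of `Z` (`Fac.de`,
`Fac.fd`), so `X` commutes with them and `X * E_i = E_i * X_i`, `F_i * X = X_i * F_i`,
`X = E₁ X₁ F₁ + E₂ X₂ F₂` with `X_i = F_i X E_i` (`E_i`, `F_i` through `cK ℂ`). Claim: `X_i ∈ lefC Z_i`.
It commutes with an endomorphism `φ` of `Z_i`, since `E_i φ F_i` is an endomorphism of `Z`. Let
`B = E_iᵀ * Om G * E_i` (rational); then `X_iᵀ B + B X_i = 0`. `ψ = -(Om a_i) * B` is rational, commutes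
with `DZ Z_i` (because `DZᵀ Om + Om DZ = 0` for `Z` and `Z_i`), `B = Om ψ`, and `ψ` is invertible: `B` is
nondegenerate because `(v, w) ↦ B (v, J_i w)` is definite (restriction of the positive form of `Z`,
`PM.pos`). `X_i` commutes with `ψ`, so `(X_iᵀ Om + Om X_i) ψ = 0` and `X_iᵀ Om + Om X_i = 0`.
Hence for `X, Y ∈ lefC Z`: `X Y - Y X = E₁ W₁ F₁ + E₂ W₂ F₂` with `W_i = X_i Y_i - Y_i X_i ∈ LZ Z_i`. The
first summand is in `LZ Z` by `hsp`. For the second let `W' ∈ LZ Z` with `F₂ W' E₂ = W₂` (surjectivity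
of `LZ Z → LZ Z₂`: `cpl_lift` in `Pool/Agent/H926/Spl.lean`, `Fac.comp`); `W' = E₁ (F₁ W' E₁) F₁ +
E₂ W₂ F₂` with `F₁ W' E₁ ∈ LZ Z₁`, so the second summand is in `LZ Z` too. -/
def S_BRD : Prop :=
  ∀ (G a₁ a₂ : ℕ) (Z : Matrix (Fin G) (Fin G) ℂ) (Z₁ : Matrix (Fin a₁) (Fin a₁) ℂ)
    (Z₂ : Matrix (Fin a₂) (Fin a₂) ℂ) (E₁ : Matrix (Fin G ⊕ Fin G) (Fin a₁ ⊕ Fin a₁) ℚ)
    (F₁ : Matrix (Fin a₁ ⊕ Fin a₁) (Fin G ⊕ Fin G) ℚ)
    (E₂ : Matrix (Fin G ⊕ Fin G) (Fin a₂ ⊕ Fin a₂) ℚ)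
    (F₂ : Matrix (Fin a₂ ⊕ Fin a₂) (Fin G ⊕ Fin G) ℚ) (_h : PM Z) (_h₁ : PM Z₁) (_h₂ : PM Z₂)
    (_D : Dec Z Z₁ Z₂ E₁ F₁ E₂ F₂) (_hsp : ∀ X ∈ LZ Z₁, cK ℂ E₁ * X * cK ℂ F₁ ∈ LZ Z)
    (_b₁ : BrH Z₁) (_b₂ : BrH Z₂), BrH Z

/-- **S_PERF (the symplectic Lie algebra is perfect).** In blocks `X = (a, b; c, -aᵀ)` with `b`, `c`
symmetric. With `h = (1, 0; 0, -1)`: `[h, X] = (0, 2 b; -2 c, 0)`; and
`[(0, s; 0, 0), (0, 0; t, 0)] = (s t, 0; 0, -t s)` for symmetric `s`, `t`; the elementary matrices are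
products of symmetric matrices: `E_ij = E_ii * (E_ij + E_ji)` for `i ≠ j`, `E_ii = E_ii * E_ii`.
(`Om G ℂ` is `fromBlocks 0 1 (-1) 0` or its negative.) -/
def S_PERF : Prop :=
  ∀ (G : ℕ) (X : Matrix (Fin G ⊕ Fin G) (Fin G ⊕ Fin G) ℂ), Xᵀ * Om G ℂ + Om G ℂ * X = 0 →
    X ∈ Submodule.span ℂ {Y | ∃ A B : Matrix (Fin G ⊕ Fin G) (Fin G ⊕ Fin G) ℂ,
      Aᵀ * Om G ℂ + Om G ℂ * A = 0 ∧ Bᵀ * Om G ℂ + Om G ℂ * B = 0 ∧ Y = A * B - B * A}

/-- **S_MQ (a factor of Mumford's type of the period matrix is a quotient of Mumford's type).**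

Proof. `q v = F *ᵥ A v` (surjective because `F * E = 1`; a homomorphism by `hf.fd` and `hC`, compare
`Cht.hom`). `perOne Z₁` is an abelian variety (library, from `PM Z₁`), `finrank ℂ = a = 4`
(`hM.four`). Endomorphisms `a'` of `perOne Z₁`: `qm (matQ (refl) a')` commutes with `DZ Z₁`
(`s_tra`'s proof or `Cht`), hence with `LZ Z₁`, and `scal_top hM.irr` (`Pool/Agent/H926/Mum3.lean`)
makes it a complex scalar, which is rational. Suppose that all `x` in `InLef` are in `InHdg`. By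
`s_tra` and `s_ratl` then `lefC Z₁ ≤ LZ Z₁`. Here `lefC Z₁` is the whole symplectic Lie algebra. Let
`u ≠ 0` with `DZ Z₁ *ᵥ u = u` (exists, `trace = 0`, `DZ ^ 2 = 1`, `a = 4`); the matrix `R` of
`v ↦ om u v • u` is skew, so in `LZ Z₁`, has rank one, `DZ * R = R`, `R * DZ = -R`, hence
`Rk1 Z₁ ⊤`, contradicting `hM.nrk`. -/
def S_MQ : Prop :=
  ∀ (H T : Type) [AddCommGroup H] [Module ℚ H] [AddCommGroup T] [Module ℂ T] (per : H →+ T)
    (G : ℕ) (Z : Matrix (Fin G) (Fin G) ℂ) (_h : PM Z) (A : H ≃ₗ[ℚ] (Fin G ⊕ Fin G → ℚ))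
    (_hC : Cht (per.comp A.symm.toLinearMap.toAddMonoidHom) (JR Z)) (a : ℕ)
    (Z₁ : Matrix (Fin a) (Fin a) ℂ) (E : Matrix (Fin G ⊕ Fin G) (Fin a ⊕ Fin a) ℚ)
    (F : Matrix (Fin a ⊕ Fin a) (Fin G ⊕ Fin G) ℚ) (_hf : Fac Z Z₁ E F) (_h₁ : PM Z₁)
    (_hM : MumM Z₁), ∃ q : H →ₗ[ℚ] (Fin a ⊕ Fin a → ℚ), St.IsHom per (perOne Z₁) q ∧
      Function.Surjective q ∧ IsMumfordType (perOne Z₁)

/-- **S_MU (period matrices of fourfolds of Mumford's type).** Uses S_GBR and S_PERF.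

Proof. `G = 4` (`Cht` gives `2 G = finrank ℚ H = 2 * 4`). By `s_tra`'s dictionary the matrices `ψ`
with `qm ψ * DZ Z = DZ Z * qm ψ` are rational scalars. `IsSimpleAV Z`: `Z` has a simple factor
`Fac Z Z₁ E F`, `0 < a` (library), `E * F` is an endomorphism and an idempotent, not zero, so it is
the scalar `1`; so `a = G` and a rational subspace stable under `JR Z` corresponds to one for `Z₁`
(or: by Poincaré's theorem a stable rational subspace is the image of an idempotent endomorphism,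
which is `0` or `1`). `four_scalar` (`Pool/Agent/H926/Good.lean`) gives `BigM Z ∨ MumM Z`. Suppose
`¬ MumM Z`. Then `GoodF4 Z` by `good_of`: each simple factor `Z'` of `Z` (`E F = 1` again, so `Z'` is
isomorphic to `Z` through `E`, `F`) has only scalar endomorphisms, so not `T3M Z'` (two anticommuting
endomorphisms, `exists_t3d`), and not `MumM Z'` (it would be transported to `Z`; or use `BigM Z`, i.e.
`Rk1 Z ⊤`, transported to `Z'`, against `nrk`). By S_GBR `BrH Z`; `lefC Z` is the whole symplectic Lie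
algebra (the endomorphisms are scalars), by S_PERF `lefC Z ≤ LZ Z`, so by `s_tra` all `x` in
`InLef per` are in `InHdg per`: a contradiction. -/
def S_MU : Prop :=
  ∀ (H T : Type) [AddCommGroup H] [Module ℚ H] [AddCommGroup T] [Module ℂ T] (per : H →+ T)
    (_hM : IsMumfordType per) (G : ℕ) (Z : Matrix (Fin G) (Fin G) ℂ) (_h : PM Z)
    (A : H ≃ₗ[ℚ] (Fin G ⊕ Fin G → ℚ))
    (_hC : Cht (per.comp A.symm.toLinearMap.toAddMonoidHom) (JR Z)), MumM Z

/-- **S_D0 (from `X ^ n` to the square of a quotient).**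

Proof. `q` has a section which is a homomorphism: with the adjoint `q†` (`s_adj` in `T/Adj.lean`)
`q ∘ q†` is an automorphism of `X'` (injective: `E' (q q† v, J v) = E (q† v, J q† v)`, and `q†` is
injective since `q` is surjective), so `s = q† ∘ (q q†)⁻¹` is a homomorphism (the inverse of a
bijective homomorphism is a homomorphism; `IsAV`) with `q ∘ s = id`. (Look also for Poincaré's
complete reducibility in `Pool.Graph.R_seed8.Y90`.) Let `f` be a Hodge class on `X' ^ 2`. Its pull-back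
`f'` along `X ^ n → X' ^ 2`, `w ↦ (q (w 0), q (w 1))` (`2 ≤ n`) is a Hodge class
(`Pool.Agent.TH504.CB.isHodge_comp`), so in `WeilRing`; pull back along `X' ^ 2 → X ^ n`,
`(v 0, v 1) ↦ (s (v 0), s (v 1), 0, ...)` (`Pool.Agent.Y275.P.pull`): the result is `f`. -/
def S_D0 : Prop :=
  ∀ (H T H' T' : Type) [AddCommGroup H] [Module ℚ H] [AddCommGroup T] [Module ℂ T]
    [AddCommGroup H'] [Module ℚ H'] [AddCommGroup T'] [Module ℂ T'] (per : H →+ T)
    (per' : H' →+ T') (_hX : St.IsAV per) (_hX' : St.IsAV per') (q : H →ₗ[ℚ] H')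
    (_hq : St.IsHom per per' q) (_hs : Function.Surjective q) (n : ℕ) (_hn : 2 ≤ n)
    (_hW : ∀ (κ : Type) [Finite κ] (f : (Fin n → H) [⋀^κ]→ₗ[ℚ] ℚ), IsHodge (powPer per n) f →
      WeilRing (powPer per n) κ f) (κ : Type) [Finite κ] (f : (Fin 2 → H') [⋀^κ]→ₗ[ℚ] ℚ)
    (_hf : IsHodge (powPer per' 2) f), WeilRing (powPer per' 2) κ f

/-- **S_D1 (the Hodge Lie algebra of a fourfold of Mumford's type).** It is contained in the sum of
`span (D, N, M)` (a copy of `sl_2`) and the centralizer of `D`, `N`, `M`, where `D` is `DZ Z`.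

Proof. By `MumM.three` (`Pool/Agent/H926/Mum3.lean`) there are three commuting triples in
`𝔤 = GG (LZ Z)`, the first is `(D, N, M)` with `D = ph _ (DZ Z)`. By `three_wed` (`Mum2.lean`), with the
roles of the triples permuted such that the special one is the first one (`D` has trace zero,
`trace_inv h.setup (trSt _)`), all `wed E p M N u v` (`E = om g`, `p = (1 / 2) (1 + D)`) are in `𝔤`.
Let `W = range p` (`dim = 4`) with the symmetric nondegenerate form `S u v = E (M u) v` (`Dbl`,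
`dbl_of_trp`); `wed E p M N u v` restricted to `W` is `w ↦ S u w • v - S v w • u` for `u v ∈ W` (see
`wed_apply`) and commutes with `N` and `M`.
(1) Let `y ∈ 𝔤` with `D y = y`, `y D = -y`. Then `s = y M` maps `W` to `W`, is symmetric for `S` (`y`, `M`
skew), and `y = s N` (`M N = 1 - p`). Claim: `s` is a scalar on `W`, so `y = c N`. If
`S (u, s u) = 0` for all isotropic `u ∈ W` then `s` is a scalar (take a basis of `W` orthonormal for
`S`: `u = e_i ± I e_j`, so `s_ij = 0`, `s_ii = s_jj`). Otherwise let `u` be isotropic with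
`S (u, s u) ≠ 0`, `v ∈ W` with `S u v = 0`, `S v v = 1`, and `q = wed u v ∈ 𝔤`: on `W`
`q w = S u w • v - S v w • u`, `q ^ 2 w = - S u w • u`, `q ^ 3 = 0`. `q` commutes with `N`, so
`ad(q)^4 (s N) = (ad(q)^4 s) N = 6 q^2 s q^2 N`, and `q^2 s q^2 w = S u w * S (u, s u) • u`: the
operator `v ↦ S u (N v) • u` is in `𝔤`, has rank one, and `D R = R`, `R D = -R`: so `Rk1 Z ⊤`
(compare `MumM.ngn`), which contradicts `nrk`.
(2) Let `y ∈ 𝔤` with `D y = -y`, `y D = y`. Then `[N, [N, y]] = -2 N y N ∈ 𝔤` is as in (1), so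
`N y N = c N`, and `y = (1 - p) y p = M (N y N) M = c M N M = c M`.
(3) Let `y ∈ 𝔤` commute with `D`. `[N, y]` is as in (1), so `= c N`; put `y' = y + (c / 2) D`
(`[N, D] = -2 N`): `[N, y'] = 0`. `[M, y'] = c' M` by (2); and `[[N, M], y'] = [D, y'] = 0` gives
`0 = [N, [M, y']] + [[N, y'], M] = c' D`, `c' = 0`. So `y'` commutes with `D`, `N`, `M`.
(4) Every `y ∈ 𝔤` is a sum of elements as in (1), (2), (3): with `z = [D, y]`, `w = [D, z]` (in `𝔤`)
take `(w + 2 z) / 8`, `(w - 2 z) / 8` and `y - w / 4`. -/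
def S_D1 : Prop :=
  ∀ (g : ℕ) (Z : Matrix (Fin g) (Fin g) ℂ) (_h : PM Z) (_hM : MumM Z),
    ∃ N ∈ GG (LZ Z), ∃ M ∈ GG (LZ Z), Trp (ph (Fin g ⊕ Fin g) (DZ Z)) N M ∧
      ∀ y ∈ GG (LZ Z), ∃ (c₀ c₁ c₂ : ℂ) (b : End ℂ (Fin g ⊕ Fin g → ℂ)),
        b * ph (Fin g ⊕ Fin g) (DZ Z) = ph (Fin g ⊕ Fin g) (DZ Z) * b ∧ b * N = N * b ∧
          b * M = M * b ∧ y = c₀ • ph (Fin g ⊕ Fin g) (DZ Z) + c₁ • N + c₂ • M + b

/-- **S_D2 (an invariant quadrilinear form which is not invariant under the symplectic Lie algebra).**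

Proof. Let `κ (u, v; w, z) = (1/2) E(D u, v) E(D w, z) + E(N u, v) E(M w, z) + E(M u, v) E(N w, z)`.
It is symmetric in `u, v`, in `w, z`, and for the exchange of the pairs (`D, N, M` are skew for the
antisymmetric form `E`; `D` is skew as `D = [N, M]`). It is killed by `D`, `N`, `M` (from
`[D, N] = 2 N`, `[D, M] = -2 M`, `[N, M] = D`; e.g. for `y = N`: the derivative of `E(a u, v)` is
`E([a, y] u, v)` for `y` skew) and by each skew `b` which commutes with them. Let
`g (v0, v1, v2, v3) = κ (v0, v2; v1, v3) - κ (v1, v2; v0, v3)`; it is antisymmetric in `v0, v1` and in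
`v2, v3`. Suppose that it is killed by `x : v ↦ E u v • u` for all `u`. Let `u, v` with `E u v = 0`.
Evaluate the derivative of `g` at `(v0, v, u, v)` with `E u v0 = 1` (exists for `u ≠ 0`): the only
nonzero term is the first, `E u v0 * g (u, v, u, v)`, so `g (u, v, u, v) = 0`, that is
`κ (u, u; v, v) = κ (u, v; u, v)` (`κ (v, u; u, v) = κ (u, v; u, v)`). Let `p = (1/2)(1 + D)`,
`u ∈ range p`: `D u = u`, `N u = 0`, so `κ (u, v; u, v) = (1/2) E(u, v)^2 + 2 E(N u, v) E(M u, v) = 0`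
and `κ (u, u; v, v) = (1/2) E(u,u) .. + 0 + E(M u, u) E(N v, v) = E (M u, u) E (N v, v)`. The form
`S (u, u') = E (M u, u')` is symmetric and nondegenerate on `range p` (`dbl_of_trp` in
`Pool/Agent/H926/Mum2.lean` gives a `Dbl`, see `Dbl.lean`, `sym`, `iso`), and `dim (range p) = dim V / 2
≥ 2`, so there are `u, u'` in `range p` with `S u u ≠ 0`, `S u' u' ≠ 0`, `S u u' = 0` (an orthogonal
basis). Put `v = M u'`: `E (u, v) = E (u, M u') = - S (u, u')` up to sign `= 0`, `N v = N M u' = u'`,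
`E (N v, v) = E (u', M u') = - S (u', u') ≠ 0`. A contradiction. -/
def S_D2 : Prop :=
  ∀ (V : Type) [AddCommGroup V] [Module ℂ V] [FiniteDimensional ℂ V] (_hV : 4 ≤ finrank ℂ V)
    (E : V →ₗ[ℂ] V →ₗ[ℂ] ℂ) (_anti : ∀ x y, E x y = -E y x) (_nd : ∀ x, (∀ y, E x y = 0) → x = 0)
    (D N M : End ℂ V) (_t : Trp D N M) (_tr : LinearMap.trace ℂ V D = 0) (_sN : Skw E N)
    (_sM : Skw E M),
    ∃ g : MultilinearMap ℂ (fun _ : Fin 4 => V) ℂ,
      (∀ v : Fin 4 → V, g (fun k => v (Equiv.swap 0 1 k)) = -g v) ∧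
      (∀ v : Fin 4 → V, g (fun k => v (Equiv.swap 2 3 k)) = -g v) ∧
      (∀ (c₀ c₁ c₂ : ℂ) (b : End ℂ V), Skw E b → b * D = D * b → b * N = N * b → b * M = M * b →
        Kills (c₀ • D + c₁ • N + c₂ • M + b) g) ∧
      ∃ (u : V) (x : End ℂ V), (∀ v, x v = E u v • u) ∧ ¬Kills x g

/-- **S_D4 (descent for forms of type (2, 2) on the square).**

Proof. Let `B = Fin G ⊕ Fin G` and identify multilinear forms `g` on `ℂ ^ B` with coefficient
functions `(Fin 4 → B) → ℂ` (`CF`, `evalM` as in `Pool/Agent/H926/Fin.lean`; `kills_of_act`, `act`).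
The functions killed by all `X ∈ LZ Z` form a Galois stable space (`gal_LZ`), so `g` is a complex
combination `g = ∑ c j • g j` of rational forms `g j` killed by `LZ Z` (descent as in
`rational_induction` for matrices; for coefficient functions see the library's `desc` lemmas used in
`T/Tra.lean` (`s_liem`) or `Pool.Graph.R_seed8.Y90.Desc`). Each `g j`, as a form `G j` on `H` through
`A`, extends to `T` and is invariant under the unit circle (killed by `DZ Z`; see the proof of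
S_LIEM). Let `f j (w) = ∑ σ, sign σ * G j (w (σ 0) 0, w (σ 1) 0, w (σ 2) 1, w (σ 3) 1)` for
`w : Fin 4 → (Fin 2 → H)`: an alternating form on `H ^ 2`, a Hodge class on the square (compare
`s_altp` in `T/Hp.lean`). By `_hz` it is killed by `z` in each coordinate. Evaluate at
`w 0 = single 0 (v 0)`, `w 1 = single 0 (v 1)`, `w 2 = single 1 (v 2)`, `w 3 = single 1 (v 3)`: only the
permutations preserving `{0, 1}` contribute, so `z` kills
`Alt G j (v) = G j (v0,v1,v2,v3) - G j (v1,v0,v2,v3) - G j (v0,v1,v3,v2) + G j (v1,v0,v3,v2)`. Passing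
to matrices, `qm (matQ A z)` kills `Alt (g j)`, hence it kills `Alt g = ∑ c j • Alt (g j) = 4 g`. -/
def S_D4 : Prop :=
  ∀ (H T : Type) [AddCommGroup H] [Module ℚ H] [AddCommGroup T] [Module ℂ T] (per : H →+ T)
    (G : ℕ) (Z : Matrix (Fin G) (Fin G) ℂ) (_h : PM Z) (A : H ≃ₗ[ℚ] (Fin G ⊕ Fin G → ℚ))
    (_hC : Cht (per.comp A.symm.toLinearMap.toAddMonoidHom) (JR Z)) (z : H →ₗ[ℚ] H)
    (_hz : ∀ f : (Fin 2 → H) [⋀^Fin 4]→ₗ[ℚ] ℚ, IsHodge (powPer per 2) f →
      KillQ (dg 2 z) f.toMultilinearMap)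
    (g : MultilinearMap ℂ (fun _ : Fin 4 => Fin G ⊕ Fin G → ℂ) ℂ)
    (_h1 : ∀ v : Fin 4 → (Fin G ⊕ Fin G → ℂ), g (fun k => v (Equiv.swap 0 1 k)) = -g v)
    (_h2 : ∀ v : Fin 4 → (Fin G ⊕ Fin G → ℂ), g (fun k => v (Equiv.swap 2 3 k)) = -g v)
    (_hg : ∀ X ∈ LZ Z, Kills (ph (Fin G ⊕ Fin G) X) g),
    Kills (ph (Fin G ⊕ Fin G) (qm (matQ A z))) g

end

end Pool.Agent.H926.T
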