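import Pool.Agent.H926.T.Jobs

/-!
# Dual bases of the spaces of equivariant maps
-/

set_option linter.unusedSectionVars false

namespace Pool.Agent.H926.T

open Module

namespace DualL

variable {V : Type} [AddCommGroup V] [Module ℂ V] (L : Set (Module.End ℂ V)) (U : Submodule ℂ V)

/-- Equivariant maps `U → V`. -/
def EE : Submodule ℂ (U →ₗ[ℂ] V) where
  carrier := {E | ∀ X ∈ L, ∀ (u : V) (hu : u ∈ U) (hX : X u ∈ U), E ⟨X u, hX⟩ = X (E ⟨u, hu⟩)}
  add_mem' := by
    intro a b ha hb X hX u hu hXu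
    rw [LinearMap.add_apply, LinearMap.add_apply, ha X hX u hu hXu, hb X hX u hu hXu, map_add]
  zero_mem' := by
    intro X hX u hu hXu
    simp
  smul_mem' := by
    intro c a ha X hX u hu hXu
    rw [LinearMap.smul_apply, LinearMap.smul_apply, ha X hX u hu hXu, map_smul]

/-- Equivariant maps `V → U`. -/
def FF : Submodule ℂ (V →ₗ[ℂ] U) where
  carrier := {F | ∀ X ∈ L, ∀ v, ((F (X v) : U) : V) = X (F v)}
  add_mem' := by
    intro a b ha hb X hX v
    rw [LinearMap.add_apply, LinearMap.add_apply, Submodule.coe_add, ha X hX v, hb X hX v,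
      Submodule.coe_add, map_add]
  zero_mem' := by
    intro X hX v
    simp
  smul_mem' := by
    intro c a ha X hX v
    rw [LinearMap.smul_apply, LinearMap.smul_apply, Submodule.coe_smul, ha X hX v,
      Submodule.coe_smul, map_smul]

variable {L U}

theorem map_bot {W : Submodule ℂ U} (h : Submodule.map U.subtype W = ⊥) : W = ⊥ := by
  rw [eq_bot_iff]
  intro w hw
  have h1 : (w : V) ∈ Submodule.map U.subtype W := ⟨w, hw, rfl⟩
  rw [h] at h1
  exact Subtype.ext ((Submodule.mem_bot ℂ).1 h1)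

/-- Schur's lemma. -/
theorem schur [FiniteDimensional ℂ V] (hU0 : U ≠ ⊥)
    (hirr : ∀ W ≤ U, (∀ X ∈ L, ∀ w ∈ W, X w ∈ W) → W = ⊥ ∨ W = U)
    (T : U →ₗ[ℂ] U)
    (hT : ∀ X ∈ L, ∀ (u : V) (hu : u ∈ U) (hX : X u ∈ U), ((T ⟨X u, hX⟩ : U) : V) = X (T ⟨u, hu⟩))
    (hU : ∀ X ∈ L, ∀ u ∈ U, X u ∈ U) : ∃ μ : ℂ, ∀ u, T u = μ • u := by
  have : Nontrivial U := Submodule.nontrivial_iff_ne_bot.2 hU0
  obtain ⟨μ, hμ⟩ := Module.End.exists_eigenvalue T
  refine ⟨μ, ?_⟩
  have h1 : Submodule.map U.subtype (Module.End.eigenspace T μ) ≤ U := by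
    rintro _ ⟨u, _, rfl⟩
    exact u.2
  have h2 : ∀ X ∈ L, ∀ w ∈ Submodule.map U.subtype (Module.End.eigenspace T μ),
      X w ∈ Submodule.map U.subtype (Module.End.eigenspace T μ) := by
    rintro X hX _ ⟨u, hu, rfl⟩
    have hu' : T u = μ • u := Module.End.mem_eigenspace_iff.1 hu
    refine ⟨⟨X u, hU X hX u u.2⟩, ?_, rfl⟩
    apply Module.End.mem_eigenspace_iff.2
    apply Subtype.ext
    have h3 := hT X hX u u.2 (hU X hX u u.2)
    rw [h3]
    show X (T u : U) = μ • X u
    rw [hu', Submodule.coe_smul, map_smul]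
  rcases hirr _ h1 h2 with h | h
  · exfalso
    exact hμ (map_bot h)
  · intro u
    have h3 : (u : V) ∈ Submodule.map U.subtype (Module.End.eigenspace T μ) := by
      rw [h]; exact u.2
    obtain ⟨w, hw, hwu⟩ := h3
    have : w = u := Subtype.ext hwu
    rw [← this]
    exact Module.End.mem_eigenspace_iff.1 hw

theorem perf_surj {M N : Type} [AddCommGroup M] [Module ℂ M] [AddCommGroup N] [Module ℂ N]
    [FiniteDimensional ℂ M] (P : M →ₗ[ℂ] N →ₗ[ℂ] ℂ) (h : Function.Injective P)
    (h' : Function.Injective P.flip) : Function.Surjective P :=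
  (LinearMap.IsPerfPair.of_injective h h').bijective_left.2

end DualL

open DualL

theorem s_dual : S_DUAL := by
  intro V _ _ _ L hss U hU0 hU hirr
  -- composition is a scalar
  have hsc : ∀ F ∈ FF L U, ∀ E ∈ EE L U, ∃ μ : ℂ, ∀ u, F (E u) = μ • u := by
    intro F hF E hE
    refine schur hU0 hirr (F ∘ₗ E) ?_ hU
    intro X hX u hu hXu
    show ((F (E ⟨X u, hXu⟩) : U) : V) = X (F (E ⟨u, hu⟩) : U)
    rw [hE X hX u hu hXu, hF X hX]
  -- nondegeneracy
  have nd1 : ∀ E ∈ EE L U, E ≠ 0 → ∃ F ∈ FF L U, ∀ u, F (E u) = u := by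
    intro E hE hE0
    have hinj : LinearMap.ker E = ⊥ := by
      have h1 : Submodule.map U.subtype (LinearMap.ker E) ≤ U := by
        rintro _ ⟨u, _, rfl⟩
        exact u.2
      have h2 : ∀ X ∈ L, ∀ w ∈ Submodule.map U.subtype (LinearMap.ker E),
          X w ∈ Submodule.map U.subtype (LinearMap.ker E) := by
        rintro X hX _ ⟨u, hu, rfl⟩
        refine ⟨⟨X u, hU X hX u u.2⟩, ?_, rfl⟩
        have hu' : E u = 0 := hu
        show E ⟨X u, _⟩ = 0
        rw [hE X hX u u.2]
        show X (E u) = 0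
        rw [hu', map_zero]
      rcases hirr _ h1 h2 with h | h
      · exact map_bot h
      · exfalso
        apply hE0
        refine LinearMap.ext fun u => ?_
        have h3 : (u : V) ∈ Submodule.map U.subtype (LinearMap.ker E) := by
          rw [h]; exact u.2
        obtain ⟨w, hw, hwu⟩ := h3
        have : w = u := Subtype.ext hwu
        rw [← this]
        exact hw
    have hinj' : Function.Injective E := LinearMap.ker_eq_bot.1 hinj
    obtain ⟨p, hp1, hp2, hp3⟩ := hss (LinearMap.range E) (by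
      rintro X hX _ ⟨u, rfl⟩
      exact ⟨⟨X u, hU X hX u u.2⟩, hE X hX u u.2 _⟩)
    let e : U ≃ₗ[ℂ] LinearMap.range E := LinearEquiv.ofInjective E hinj'
    have he : ∀ w : LinearMap.range E, E (e.symm w) = w := by
      intro w
      have := e.apply_symm_apply w
      exact congrArg Subtype.val this
    let F : V →ₗ[ℂ] U := e.symm.toLinearMap ∘ₗ p.codRestrict (LinearMap.range E) hp2
    have hF : ∀ v, E (F v) = p v := by
      intro v
      exact he _
    refine ⟨F, ?_, ?_⟩
    · intro X hX v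
      have h1 : F (X v) = ⟨X (F v), hU X hX _ (F v).2⟩ := by
        apply hinj'
        rw [hF, hE X hX (F v) (F v).2]
        show p (X v) = X (E (F v))
        rw [hF]
        exact (LinearMap.congr_fun (hp1 X hX) v).symm
      rw [h1]
    · intro u
      apply hinj'
      rw [hF]
      exact hp3 _ ⟨u, rfl⟩
  have nd2 : ∀ F ∈ FF L U, F ≠ 0 → ∃ E ∈ EE L U, ∀ u, F (E u) = u := by
    intro F hF hF0
    have hsurj : LinearMap.range F = ⊤ := by
      have h1 : Submodule.map U.subtype (LinearMap.range F) ≤ U := by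
        rintro _ ⟨u, _, rfl⟩
        exact u.2
      have h2 : ∀ X ∈ L, ∀ w ∈ Submodule.map U.subtype (LinearMap.range F),
          X w ∈ Submodule.map U.subtype (LinearMap.range F) := by
        rintro X hX _ ⟨_, ⟨v, rfl⟩, rfl⟩
        exact ⟨F (X v), ⟨X v, rfl⟩, hF X hX v⟩
      rcases hirr _ h1 h2 with h | h
      · exfalso
        apply hF0
        exact LinearMap.range_eq_bot.1 (map_bot h)
      · rw [eq_top_iff]
        intro u _
        have h3 : (u : V) ∈ Submodule.map U.subtype (LinearMap.range F) := by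
          rw [h]; exact u.2
        obtain ⟨w, hw, hwu⟩ := h3
        have : w = u := Subtype.ext hwu
        rw [← this]
        exact hw
    obtain ⟨s, hs⟩ := LinearMap.exists_rightInverse_of_surjective F hsurj
    have hs' : ∀ u, F (s u) = u := fun u => LinearMap.congr_fun hs u
    obtain ⟨p, hp1, hp2, hp3⟩ := hss (LinearMap.ker F) (by
      intro X hX w hw
      have hw' : F w = 0 := hw
      show F (X w) = 0
      apply Subtype.ext
      rw [hF X hX w, hw']
      simp)
    refine ⟨s - p ∘ₗ s, ?_, ?_⟩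
    · intro X hX u hu hXu
      have h1 : s ⟨X u, hXu⟩ - X (s ⟨u, hu⟩) ∈ LinearMap.ker F := by
        rw [LinearMap.mem_ker, map_sub, hs']
        apply Subtype.ext
        rw [Submodule.coe_sub, hF X hX, hs']
        simp
      have h2 := hp3 _ h1
      rw [map_sub] at h2
      have h3 : p (X (s ⟨u, hu⟩)) = X (p (s ⟨u, hu⟩)) :=
        (LinearMap.congr_fun (hp1 X hX) (s ⟨u, hu⟩)).symm
      simp only [LinearMap.sub_apply, LinearMap.comp_apply, map_sub]
      rw [h3] at h2
      rw [sub_eq_sub_iff_sub_eq_sub]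
      rw [h2]
    · intro u
      have h1 : F (p (s u)) = 0 := hp2 (s u)
      simp only [LinearMap.sub_apply, LinearMap.comp_apply, map_sub]
      rw [h1, hs', sub_zero]
  -- the pairing
  obtain ⟨u0, hu0, hu0'⟩ : ∃ u ∈ U, u ≠ 0 := Submodule.exists_mem_ne_zero_of_ne_bot hU0
  have hu0n : (⟨u0, hu0⟩ : U) ≠ 0 := fun h => hu0' (congrArg Subtype.val h)
  obtain ⟨w0, hw0⟩ : ∃ w : U, w = ⟨u0, hu0⟩ := ⟨_, rfl⟩
  rw [← hw0] at hu0n
  obtain ⟨φ, hφ⟩ : ∃ φ : U →ₗ[ℂ] ℂ, φ w0 = 1 := by
    obtain ⟨φ, hφ⟩ : ∃ φ : Module.Dual ℂ U, φ w0 ≠ 0 := by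
      by_contra h
      push Not at h
      exact hu0n ((Module.forall_dual_apply_eq_zero_iff ℂ w0).1 h)
    refine ⟨(φ w0)⁻¹ • φ, ?_⟩
    rw [LinearMap.smul_apply, smul_eq_mul, inv_mul_cancel₀ hφ]
  let P : FF L U →ₗ[ℂ] EE L U →ₗ[ℂ] ℂ := LinearMap.mk₂ ℂ (fun F E => φ (F.1 (E.1 w0)))
    (by intro a b c; simp) (by intro a b c; simp) (by intro a b c; simp)
    (by intro a b c; simp)
  have hP : ∀ F : FF L U, ∀ E : EE L U, ∀ u, F.1 (E.1 u) = P F E • u := by
    intro F E u
    obtain ⟨μ, hμ⟩ := hsc F.1 F.2 E.1 E.2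
    have h1 : P F E = μ := by
      show φ (F.1 (E.1 w0)) = μ
      rw [hμ, map_smul, hφ, smul_eq_mul, mul_one]
    rw [h1, hμ]
  have i1 : Function.Injective P := by
    rw [injective_iff_map_eq_zero]
    intro F hF
    by_contra hF0
    obtain ⟨E, hE, hE1⟩ := nd2 F.1 F.2 (fun h => hF0 (Subtype.ext h))
    have h1 := hP F ⟨E, hE⟩ w0
    rw [hF] at h1
    have h2 : F.1 (E w0) = w0 := hE1 w0
    rw [h2] at h1
    apply hu0n
    rw [h1]
    simp
  have i2 : Function.Injective P.flip := by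
    rw [injective_iff_map_eq_zero]
    intro E hE
    by_contra hE0
    obtain ⟨F, hF, hF1⟩ := nd1 E.1 E.2 (fun h => hE0 (Subtype.ext h))
    have h1 := hP ⟨F, hF⟩ E w0
    have h3 : P ⟨F, hF⟩ E = 0 := LinearMap.congr_fun hE ⟨F, hF⟩
    rw [h3, zero_smul] at h1
    have h2 : F (E.1 w0) = w0 := hF1 w0
    exact hu0n (h2.symm.trans h1)
  have hfd : FiniteDimensional ℂ (FF L U) := inferInstance
  have hsur : Function.Surjective P := @perf_surj (FF L U) (EE L U) _ _ _ _ _ P i1 i2
  let b := Module.finBasis ℂ (EE L U)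
  choose F hF using fun c => hsur (b.coord c)
  refine ⟨_, fun c => (b c).1, fun c => (F c).1, ?_, ?_, ?_, ?_, ?_⟩
  · intro c
    exact (b c).2
  · intro c
    exact (F c).2
  · intro c d u
    rw [hP, hF, Module.Basis.coord_apply, Module.Basis.repr_self, Finsupp.single_apply]
    by_cases h : c = d
    · rw [if_pos h.symm, if_pos h, one_smul]
    · rw [if_neg (fun h' => h h'.symm), if_neg h, zero_smul]
  · intro E' hE'
    obtain ⟨e, he⟩ : ∃ e : EE L U, e.1 = E' := ⟨⟨E', hE'⟩, rfl⟩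
    refine ⟨fun c => b.repr e c, ?_⟩
    rw [← he]
    have h2 := congrArg Subtype.val (b.sum_repr e)
    rw [← h2, Submodule.coe_sum]
    rfl
  · intro F' hF'
    obtain ⟨f, hf⟩ : ∃ f : FF L U, f.1 = F' := ⟨⟨F', hF'⟩, rfl⟩
    refine ⟨fun c => P f (b c), ?_⟩
    have h1 : f = ∑ c, P f (b c) • F c := by
      apply i1
      apply b.ext
      intro d
      rw [map_sum, LinearMap.sum_apply, Finset.sum_eq_single d]
      · rw [map_smul, hF, LinearMap.smul_apply, Module.Basis.coord_apply,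
          Module.Basis.repr_self, Finsupp.single_eq_same, smul_eq_mul, mul_one]
      · intro c _ hc
        rw [map_smul, hF, LinearMap.smul_apply, Module.Basis.coord_apply,
          Module.Basis.repr_self, Finsupp.single_apply, if_neg (fun h => hc h.symm), smul_zero]
      · simp
    have h2 := congrArg Subtype.val h1
    rw [← hf, h2, Submodule.coe_sum]
    rfl

end Pool.Agent.H926.T

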