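import Mathlib
import Pool.Agent.H926.T.Jobs4

/-!
# All powers of the abelian varieties of dimension at most seven
-/

set_option linter.unusedSectionVars false

namespace Pool.Agent.H926.T

open Matrix Module Pool.Agent.Y90 Pool.Agent.W437.HC Pool.Agent.W437.HD
  Pool.Agent.TH504.CB
open Pool.Agent.W548.Odd hiding cv
open Pool.Agent.W437.HP (cK cK_mul cK_one)
open Pool.Agent.H204R3.CM (IsHodge)
open Pool.Agent.H204R3.SP (Kills)
open Pool.Agent.Y4.P (WeilRing)
open Pool.Agent.Y4.Q (GoodF4 T3M)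
open TraL (opQ matQ_opQ)

noncomputable section

/-- The commutators of the Lefschetz Lie algebra in dimension at most seven. -/
theorem brh_seven (hG : S_GBR) (h3 : S_T3L) (hB : S_BRD) {G : ℕ} {Z : Matrix (Fin G) (Fin G) ℂ}
    (h : PM Z) (h7 : G ≤ 7)
    (hno : ∀ (a : ℕ) (Z' : Matrix (Fin a) (Fin a) ℂ) (E : Matrix (Fin G ⊕ Fin G) (Fin a ⊕ Fin a) ℚ)
      (F : Matrix (Fin a ⊕ Fin a) (Fin G ⊕ Fin G) ℚ), Fac Z Z' E F → PM Z' → ¬MumM Z') :
    BrH Z := by
  by_cases hb : ∃ (a : ℕ) (Z' : Matrix (Fin a) (Fin a) ℂ)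
      (E : Matrix (Fin G ⊕ Fin G) (Fin a ⊕ Fin a) ℚ)
      (F : Matrix (Fin a ⊕ Fin a) (Fin G ⊕ Fin G) ℚ), Fac Z Z' E F ∧ PM Z' ∧ IsSimpleAV Z' ∧
        Bad Z'
  · obtain ⟨a, Z₁, E₁, F₁, hf, h₁, hs, hbad⟩ := hb
    obtain ⟨b, Z₂, E₂, F₂, h₂, D, hab⟩ := exists_compl h hf
    rcases hbad with ⟨hT, ha⟩ | hM
    · exact hB G a b Z Z₁ Z₂ E₁ F₁ E₂ F₂ h h₁ h₂ D (t3_hsp h₁ hs hT (by omega) D h h₂)
        (h3 a Z₁ h₁ hs hT ha) (hG b Z₂ h₂ (good_three (by omega)))
    · exact absurd hM (hno a Z₁ E₁ F₁ hf h₁)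
  · exact hG G Z h (good_of h7 fun a Z' E F hf h' hs' hb' => hb ⟨a, Z', E, F, hf, h', hs', hb'⟩)

section kills

variable {V : Type*} [AddCommGroup V] [Module ℂ V] {κ : Type*} [Fintype κ] [DecidableEq κ]

/-- The operators which kill a form. -/
def killS (g : MultilinearMap ℂ (fun _ : κ => V) ℂ) : Submodule ℂ (End ℂ V) where
  carrier := {X | Kills X g}
  add_mem' := by
    intro X Y hX hY v
    have h1 : ∀ k, g (Function.update v k ((X + Y) (v k))) =
        g (Function.update v k (X (v k))) + g (Function.update v k (Y (v k))) := fun k => by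
      rw [LinearMap.add_apply, g.map_update_add]
    simp only [h1]
    rw [Finset.sum_add_distrib, hX v, hY v, add_zero]
  zero_mem' := by
    intro v
    refine Finset.sum_eq_zero fun k _ => ?_
    rw [LinearMap.zero_apply]
    exact g.map_coord_zero k (by simp)
  smul_mem' := by
    intro c X hX v
    have h1 : ∀ k, g (Function.update v k ((c • X) (v k))) =
        c • g (Function.update v k (X (v k))) := fun k => by
      rw [LinearMap.smul_apply, g.map_update_smul]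
    simp only [h1]
    rw [← Finset.smul_sum, hX v, smul_zero]

end kills

/-- The square of a fourfold of Mumford's type. -/
theorem mum_square (hMU : S_MU) (hP : S_PERF) (hD1 : S_D1) (hD2 : S_D2) (hD4 : S_D4)
    (hWR : S_WR) {H T : Type} [AddCommGroup H] [Module ℚ H] [AddCommGroup T] [Module ℂ T]
    {per : H →+ T} (hM : IsMumfordType per)
    (hW : ∀ (κ : Type) [Finite κ] (f : (Fin 2 → H) [⋀^κ]→ₗ[ℚ] ℚ), IsHodge (powPer per 2) f →
      WeilRing (powPer per 2) κ f) : False := by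
  have hX := hM.1
  obtain ⟨G, Z, h, A, hC⟩ := exists_ppav hX
  have hm := hMU H T per hM G Z h A hC
  obtain ⟨t1, -⟩ := s_tra H T per G Z h A hC
  obtain ⟨N, hN, M, hM', t, hdec⟩ := hD1 G Z h hm
  have hOm2 : Om G ℂ * Om G ℂ = -1 := Om_sq ℂ
  have hsk : ∀ y ∈ GG (LZ Z), Skw (om G) y := by
    intro y hy x x'
    obtain ⟨X, hX, rfl⟩ := exists_GG hy
    exact eq_neg_of_add_eq_zero_left (h.om_sp hX x x')
  have hDG : ph (Fin G ⊕ Fin G) (DZ Z) ∈ GG (LZ Z) := mem_GG.2 DZ_mem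
  have htr : LinearMap.trace ℂ (Fin G ⊕ Fin G → ℂ) (ph (Fin G ⊕ Fin G) (DZ Z)) = 0 :=
    Pool.Agent.Y91.JP.trace_inv h.setup (Pool.Agent.Y91.JP.trSt hOm2) hDG
  obtain ⟨g, g1, g2, g3, u, x, hx, hnk⟩ := hD2 (Fin G ⊕ Fin G → ℂ) (by rw [hm.fr h]; norm_num)
    (om G) om_anti om_nd _ N M t htr (hsk _ hN) (hsk _ hM')
  -- the form is killed by the Hodge Lie algebra
  have hg : ∀ X ∈ LZ Z, Kills (ph (Fin G ⊕ Fin G) X) g := by
    intro X hX'
    obtain ⟨c₀, c₁, c₂, b, b1, b2, b3, hy⟩ := hdec _ (mem_GG.2 hX')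
    rw [hy]
    refine g3 c₀ c₁ c₂ b (fun x' y' => ?_) b1 b2 b3
    have hb : b = ph (Fin G ⊕ Fin G) X - (c₀ • ph (Fin G ⊕ Fin G) (DZ Z) + c₁ • N + c₂ • M) := by
      rw [hy, add_sub_cancel_left]
    have hb' : b ∈ GG (LZ Z) := by
      rw [hb]
      exact (GG (LZ Z)).sub_mem (mem_GG.2 hX') ((GG (LZ Z)).add_mem ((GG (LZ Z)).add_mem
        ((GG (LZ Z)).smul_mem _ hDG) ((GG (LZ Z)).smul_mem _ hN)) ((GG (LZ Z)).smul_mem _ hM'))
    exact hsk _ hb' x' y'
  -- and by the commutators of the rational Lefschetz Lie algebra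
  have hz : ∀ a b : H →ₗ[ℚ] H, InLef per a → InLef per b →
      Kills (ph (Fin G ⊕ Fin G) (qm (matQ A (a ∘ₗ b - b ∘ₗ a)))) g := by
    intro a b ha hb
    refine hD4 H T per G Z h A hC _ (fun f hf => ?_) g g1 g2 hg
    have h3 := hWR (Fin 2 → H) (Fin 2 → T) (powPer per 2) (s_pav H T per hX 2) (dg 2 a) (dg 2 b)
      ((s_lp H T per hX 2).1 a ha) ((s_lp H T per hX 2).1 b hb) (Fin 4) f (hW (Fin 4) f hf)
    rw [dg_br] at h3
    exact h3
  -- endomorphisms are scalars
  have hsc : ∀ X : Matrix (Fin G ⊕ Fin G) (Fin G ⊕ Fin G) ℂ, Xᵀ * Om G ℂ + Om G ℂ * X = 0 →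
      X ∈ lefC Z := by
    intro X hX'
    refine ⟨hX', fun φ hφ => ?_⟩
    obtain ⟨c, hc⟩ := scal_top hm.irr (ph (Fin G ⊕ Fin G) (qm φ)) (fun y hy => by
      obtain ⟨Y, hY, rfl⟩ := exists_GG hy
      have h4 : LZ Z ≤
          { carrier := {W | W * qm φ = qm φ * W}
            add_mem' := fun {a b} ha hb => by
              change (a + b) * qm φ = qm φ * (a + b)
              rw [Matrix.add_mul, Matrix.mul_add, ha, hb]
            zero_mem' := by
              change (0 : Matrix _ _ ℂ) * qm φ = qm φ * 0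
              rw [Matrix.zero_mul, Matrix.mul_zero]
            smul_mem' := fun c a ha => by
              change (c • a) * qm φ = qm φ * (c • a)
              rw [Matrix.smul_mul, Matrix.mul_smul, ha] } := by
        refine LZ_le (fun σ => ?_) (fun a ha b hb => ?_)
        · change DS Z σ * qm φ = qm φ * DS Z σ
          have h5 : (qm φ).map σ = qm φ := by
            ext i j
            simp [qm]
          have h6 := congrArg (fun W : Matrix _ _ ℂ => W.map σ) hφ
          simp only [Matrix.map_mul] at h6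
          rw [h5] at h6
          exact h6.symm
        · change (a * b - b * a) * qm φ = qm φ * (a * b - b * a)
          rw [Matrix.sub_mul, Matrix.mul_sub, Matrix.mul_assoc, Matrix.mul_assoc, ha, hb,
            ← Matrix.mul_assoc, ← Matrix.mul_assoc, ha, hb, Matrix.mul_assoc, Matrix.mul_assoc]
      have h5 : Y * qm φ = qm φ * Y := h4 hY
      rw [← map_mul, ← map_mul, h5])
    have h5 : qm φ = c • (1 : Matrix (Fin G ⊕ Fin G) (Fin G ⊕ Fin G) ℂ) := by
      apply (ph (Fin G ⊕ Fin G)).injective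
      rw [hc, map_smul, map_one]
    rw [h5, Matrix.mul_smul, Matrix.smul_mul, Matrix.mul_one, Matrix.one_mul]
  -- all symplectic matrices kill the form
  have hk : ∀ X Y : Matrix (Fin G ⊕ Fin G) (Fin G ⊕ Fin G) ℂ, X ∈ lefC Z → Y ∈ lefC Z →
      X * Y - Y * X ∈ (killS g).comap (ph (Fin G ⊕ Fin G)).toLinearMap := by
    intro X Y hX' hY'
    obtain ⟨m, c, xs, hxs, rfl⟩ := s_ratl G Z X hX'
    obtain ⟨n, d, ys, hys, rfl⟩ := s_ratl G Z Y hY'
    have e : (∑ j, c j • qm (xs j)) * (∑ k, d k • qm (ys k)) -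
        (∑ k, d k • qm (ys k)) * (∑ j, c j • qm (xs j)) =
          ∑ j, ∑ k, (c j * d k) • (qm (xs j) * qm (ys k) - qm (ys k) * qm (xs j)) := by
      rw [Matrix.sum_mul, Matrix.mul_sum, ← Finset.sum_sub_distrib]
      refine Finset.sum_congr rfl fun j _ => ?_
      rw [Matrix.mul_sum, Matrix.sum_mul, ← Finset.sum_sub_distrib]
      refine Finset.sum_congr rfl fun k _ => ?_
      rw [smul_mul_smul_comm, smul_mul_smul_comm, mul_comm (d k), ← smul_sub]
    rw [e]
    refine Submodule.sum_mem _ fun j _ => Submodule.sum_mem _ fun k _ =>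
      Submodule.smul_mem _ _ ?_
    have h6 := hz (opQ A (xs j)) (opQ A (ys k)) ((t1 _).2 (by rw [matQ_opQ]; exact hxs j))
      ((t1 _).2 (by rw [matQ_opQ]; exact hys k))
    rw [matQ_br, qm_br, matQ_opQ, matQ_opQ] at h6
    exact h6
  have hall : ∀ X : Matrix (Fin G ⊕ Fin G) (Fin G ⊕ Fin G) ℂ, Xᵀ * Om G ℂ + Om G ℂ * X = 0 →
      Kills (ph (Fin G ⊕ Fin G) X) g := by
    intro X hX'
    have h7 : Submodule.span ℂ {Y | ∃ A B : Matrix (Fin G ⊕ Fin G) (Fin G ⊕ Fin G) ℂ,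
        Aᵀ * Om G ℂ + Om G ℂ * A = 0 ∧ Bᵀ * Om G ℂ + Om G ℂ * B = 0 ∧ Y = A * B - B * A} ≤
          (killS g).comap (ph (Fin G ⊕ Fin G)).toLinearMap := by
      refine Submodule.span_le.2 ?_
      rintro _ ⟨P, Q, hP', hQ', rfl⟩
      exact hk P Q (hsc P hP') (hsc Q hQ')
    exact h7 (hP G X hX')
  -- the contradiction
  apply hnk
  obtain ⟨X, rfl⟩ := (ph (Fin G ⊕ Fin G)).surjective x
  refine hall X ?_
  have h8 : ∀ v w, om G (ph (Fin G ⊕ Fin G) X v) w + om G v (ph (Fin G ⊕ Fin G) X w) = 0 := by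
    intro v w
    rw [hx, hx, map_smul, map_smul, LinearMap.smul_apply, smul_eq_mul, smul_eq_mul,
      om_anti v u]
    ring
  ext i j
  have h3 := h8 (Pi.single i 1) (Pi.single j 1)
  have e1 : (ph _ X) (Pi.single i 1) = X *ᵥ Pi.single i 1 := rfl
  have e2 : (ph _ X) (Pi.single j 1) = X *ᵥ Pi.single j 1 := rfl
  rw [e1, e2, om_apply, om_apply] at h3
  have e3 : (X *ᵥ Pi.single i (1 : ℂ)) ⬝ᵥ Om G ℂ *ᵥ Pi.single j 1 = (Xᵀ * Om G ℂ) i j := by
    rw [Matrix.mulVec_single_one, Matrix.mulVec_single_one, Matrix.mul_apply]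
    rfl
  have e4 : (Pi.single i (1 : ℂ)) ⬝ᵥ Om G ℂ *ᵥ X *ᵥ Pi.single j 1 = (Om G ℂ * X) i j := by
    rw [Matrix.mulVec_mulVec, Matrix.mulVec_single_one, single_one_dotProduct]
    rfl
  rw [e3, e4] at h3
  exact h3

/-- **All powers of the abelian varieties of dimension at most seven.** -/
theorem main_seven (hG : S_GBR) (h3 : S_T3L) (hB : S_BRD) (hMQ : S_MQ) (hMU : S_MU) (hP : S_PERF)
    (hD0 : S_D0) (hD1 : S_D1) (hD2 : S_D2) (hD4 : S_D4)
    (H T : Type) [AddCommGroup H] [Module ℚ H] [AddCommGroup T] [Module ℂ T]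
    (per : H →+ T) (hX : St.IsAV per) (h7 : finrank ℂ T ≤ 7) (n : ℕ) :
    (∀ (κ : Type) [Finite κ] (f : (Fin n → H) [⋀^κ]→ₗ[ℚ] ℚ),
      IsHodge (powPer per n) f → WeilRing (powPer per n) κ f) ↔
    (n ≤ 1 ∨ ∀ (H' T' : Type) [AddCommGroup H'] [Module ℚ H'] [AddCommGroup T'] [Module ℂ T']
      (per' : H' →+ T') (q : H →ₗ[ℚ] H'), St.IsHom per per' q → Function.Surjective q →
        ¬IsMumfordType per') := by
  have hWR := s_wr s_mov s_adj s_pav
  constructor
  · intro hW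
    by_contra hcon
    push Not at hcon
    obtain ⟨hn, H', T', _, _, _, _, per', q, hq, hs, hM⟩ := hcon
    exact mum_square hMU hP hD1 hD2 hD4 hWR hM (fun κ _ f hf =>
      hD0 H T H' T' per per' hX hM.1 q hq hs n hn hW κ f hf)
  · rintro (hn | hno) κ _ f hf
    · have h1 : St.IsAV (powPer per n) := s_pav H T per hX n
      have h2 : finrank ℚ H ≤ 14 := by
        have h3 := hX.2.2.2.1
        omega
      have hfin : Module.Finite ℚ H := hX.1
      have h3 : finrank ℚ (Fin n → H) ≤ 14 := by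
        rw [Module.finrank_pi_fintype]
        simp only [Finset.sum_const, Finset.card_univ, Fintype.card_fin, smul_eq_mul]
        calc n * finrank ℚ H ≤ 1 * finrank ℚ H := Nat.mul_le_mul_right _ hn
          _ ≤ 14 := by omega
      exact (main_av (Fin n → H) (Fin n → T) (powPer per n) h1 h3 κ f).1 hf
    · obtain ⟨G, Z, h, A, hC⟩ := exists_ppav hX
      have ha : G ≤ 7 := by
        have h1 := A.finrank_eq
        rw [Module.finrank_fintype_fun_eq_card, Fintype.card_sum, Fintype.card_fin] at h1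
        have h3 := hX.2.2.2.1
        omega
      obtain ⟨t1, t2⟩ := s_tra H T per G Z h A hC
      have hbr := brh_seven hG h3 hB h ha fun a Z' E F hf' h' hM => by
        obtain ⟨q, hq, hs, hM'⟩ := hMQ H T per G Z h A hC a Z' E F hf' h' hM
        exact hno _ _ (perOne Z') q hq hs hM'
      refine (tstar hX).2 (fun x y hx hy => (t2 _).2 ?_) n κ f hf
      rw [matQ_br, qm_br]
      exact hbr _ ((t1 x).1 hx) _ ((t1 y).1 hy)

end

end Pool.Agent.H926.T
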