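import Mathlib
import Pool.Agent.H926.T.Main2
import Pool.Agent.H841.MS.Hall

/-!
# The Hodge conjecture for all powers in dimension at most seven: lemma statements

Let `A` be an abelian variety of dimension at most seven. The Hodge conjecture for all abelian
varieties whose simple factors are factors of `A` follows from the algebraicity of Weil classes and of
the Hodge classes of degree four on the squares of the fourfolds of Mumford's type which are factors of
`A`.
-/

set_option linter.unusedSectionVars false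

namespace Pool.Agent.H926.T

open Matrix Module Pool.Agent.Y90 Pool.Agent.W437.HC Pool.Agent.W437.HD
  Pool.Agent.TH504.CB
open Pool.Agent.W548.Odd hiding cv
open Pool.Agent.W437.HP (cK cK_mul cK_one)
open Pool.Agent.H204R3.CM (IsHodge)
open Pool.Agent.H204R3.SP (Kills)
open Pool.Agent.Y4.P (WeilRing)
open Pool.Agent.R915 (Sys IsFactor)
open Pool.Agent.H841.MS (Ivt TA IsMS0 Tn)

noncomputable section

/-- The system contains all Weil classes (of all CM fields, on all abelian varieties). -/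
def AllW (𝒜 : Sys) : Prop :=
  ∀ (X : AV) (n : ℕ) (f : X.H [⋀^Fin n]→ₗ[ℚ] ℚ), Pool.Agent.Y4.P.IsWeilClass X.per n f →
    𝒜.A X (Fin n) f

/-- **S_MS (the Hodge Lie algebra of a fourfold of Mumford's type is `sl_2 ^ 3`).**

Proof. Take the three triples of `MumM.three` (`Pool/Agent/H926/Mum3.lean`): `(D, N, M)`,
`(D₁, N₁, M₁)`, `(D₂, N₂, M₂)` in `GG (LZ Z)`, `D = ph _ (DZ Z)`. For a triple let
`ρ X = X 0 0 • (1 / 2) (1 + D) + X 0 1 • N + X 1 0 • M + X 1 1 • (1 - (1 / 2) (1 + D))` (operators, then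
matrices through `(ph _).symm`). `ρ` is multiplicative (`Trp`: `N * N = 0`, `M * M = 0`,
`N * M = (1 / 2) (1 + D)`, `M * N = 1 - (1 / 2) (1 + D)`, see `Trp.nm`, `Trp.mn`), `ρ 1 = 1`; the three
`ρ` commute (`D = N * M - M * N`). `ρ X` for `trace X = 0` is a combination of `D`, `N`, `M`, so the
span is contained in `LZ Z = LA {DZ Z}`. For the other inclusion let `y ∈ GG (LZ Z)`. By
`D1L.decomp` (`T/D1.lean`, used as in the proof of `s_d1`, with these three triples)
`y = c₀ D + c₁ N + c₂ M + b` with `b` commuting with `D`, `N`, `M`, and `b ∈ GG (LZ Z)` is skew. Let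
`p = (1 / 2) (1 + D)`, `W = range p` (`dim = 4`) with the form `S u v = om (M u) v` (as in `three_wed`,
`Mum2.lean`, where `D₂` is to be replaced by `D`). By `so4` (`So4.lean`) with
`G` := the span of the restrictions of `D₁, N₁, M₁, D₂, N₂, M₂` to `W` (no closure under brackets is
needed in `so4`) all `wd S u v` are in this span, and the restriction of `b`, which is skew for `S`, is a
linear combination of operators `wd S u v` (`s` skew: `s = ± (1/2) ∑ wd S (e i) (s (f i))` for dual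
bases; see `skew_mem` in `T/T3l.lean`, `T3lL.skew_mem`). So `b` agrees on `W` with a combination `b'` of
`D₁, N₁, M₁, D₂, N₂, M₂`, and since both commute with `N` and `M` (`V = W + M W`, compare `wed_of_res`)
`b = b'`. -/
def S_MS : Prop :=
  ∀ (g : ℕ) (Z : Matrix (Fin g) (Fin g) ℂ) (_h : PM Z) (_hM : MumM Z),
    ∃ ρ : Fin 3 → Matrix (Fin 2) (Fin 2) ℂ →ₗ[ℂ] Matrix (Fin g ⊕ Fin g) (Fin g ⊕ Fin g) ℂ,
      IsMS0 (DZ Z) (fun _ : Fin 3 => ()) ρ (fun _ : Unit => 1)

/-- **S_KT (Künneth decomposition of the invariant tensors for independent Lie algebras).**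

Proof. `Pool.Agent.H841.MS.TA 𝒜 h κ` (`Pool/Agent/H841/MS/Geo.lean`) is a space of tensors
`Tn κ B = ((κ → B) → ℂ)`; it is closed under `rnm` and `prd` (`TA_rnm`, `TA_prd`), and `Ivt (DZ Z) κ` is
the space of the tensors killed by `LZ Z = LA {DZ Z}`. The proof is the one of
`Pool.Agent.H926.Dec.kunneth` (`Pool/Agent/H926/Kun.lean`) with `TA` in the place of `NZ` (identify
tensors and multilinear forms: `evalM`, `CF`, `evalM_CF`, as in `Pool/Agent/H926/Fin.lean`;
`act_of_kills`, `kills_of_act`); it is simpler, since there are all tensors for both factors. The pull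
back: for `p ∈ TA 𝒜 h₁ κ` the form `x ↦ p (F₁ x)` is in `TA 𝒜 h κ`: for homomorphisms
`R k : X → AVZ h` the compositions with `F₁` are homomorphisms `X → AVZ h₁` (`F₁` is a homomorphism
`AVZ h → AVZ h₁` by `Fac.fd`: see `Cht.hom` or the lemmas on `Fac` and `IsHom` in the library, or
`nz_pull` in `Kun.lean`), and `gA R (pull back of p) = gA (F₁ ∘ R) p`. -/
def S_KT : Prop :=
  ∀ (G a₁ a₂ : ℕ) (Z : Matrix (Fin G) (Fin G) ℂ) (Z₁ : Matrix (Fin a₁) (Fin a₁) ℂ)
    (Z₂ : Matrix (Fin a₂) (Fin a₂) ℂ) (E₁ : Matrix (Fin G ⊕ Fin G) (Fin a₁ ⊕ Fin a₁) ℚ)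
    (F₁ : Matrix (Fin a₁ ⊕ Fin a₁) (Fin G ⊕ Fin G) ℚ)
    (E₂ : Matrix (Fin G ⊕ Fin G) (Fin a₂ ⊕ Fin a₂) ℚ)
    (F₂ : Matrix (Fin a₂ ⊕ Fin a₂) (Fin G ⊕ Fin G) ℚ) (h : PM Z) (h₁ : PM Z₁) (h₂ : PM Z₂)
    (_D : Dec Z Z₁ Z₂ E₁ F₁ E₂ F₂) (_hsp : ∀ X ∈ LZ Z₁, cK ℂ E₁ * X * cK ℂ F₁ ∈ LZ Z) (𝒜 : Sys)
    (_H₁ : ∀ (κ : Type) [Fintype κ] [DecidableEq κ], Ivt (DZ Z₁) κ ≤ TA 𝒜 h₁ κ)
    (_H₂ : ∀ (κ : Type) [Fintype κ] [DecidableEq κ], Ivt (DZ Z₂) κ ≤ TA 𝒜 h₂ κ)
    (κ : Type) [Fintype κ] [DecidableEq κ], Ivt (DZ Z) κ ≤ TA 𝒜 h κ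

/-- **S_WT (the ring generated by divisors and Weil classes is contained in the system).** Induction
on `WeilRing`; for the case `weil` make an `AV` from `hY : IsAV per'` (the fields of `IsAV` are those of
`AV`), apply `hW` and `𝒜.pull`. -/
def S_WT : Prop :=
  ∀ (𝒜 : Sys) (_hW : AllW 𝒜) (X : AV) (κ : Type) [Finite κ] (f : X.H [⋀^κ]→ₗ[ℚ] ℚ),
    WeilRing X.per κ f → 𝒜.A X κ f

/-- **S_PT (period matrices all of whose powers have good Hodge rings).** Uses S_WT.

Proof. By `Pool.Agent.H841.MS.TA_of_hodge` it is enough to show `𝒜.A (AVQ fun _ : κ => h) κ r` for the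
Hodge classes `r` on the power `AVQ fun _ : κ => h` (its homology is `BQ (fun _ : κ => G) → ℚ`,
`BQ _ = Σ _ : κ, Fin G ⊕ Fin G` up to unfolding, its period map is `perQ fun _ : κ => Z`). With
`n = Fintype.card κ` and `e : κ ≃ Fin n` there is an isomorphism of abelian varieties
`(BQ _ → ℚ) ≃ (Fin n → (Fin G ⊕ Fin G → ℚ))` (a permutation of the coordinates) with the power
`powPer (perOne Z) n`; both it and its inverse are homomorphisms. Transport `r` to
`powPer (perOne Z) n` (`Pool.Agent.H841.MS.hodge_pull` or `isHodge_comp`), apply `hp`, pull back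
(`Pool.Agent.Y275.P.pull`: `WeilRing` is stable under pull-backs along homomorphisms), and use S_WT. -/
def S_PT : Prop :=
  ∀ (𝒜 : Sys) (_hW : AllW 𝒜) (G : ℕ) (Z : Matrix (Fin G) (Fin G) ℂ) (h : PM Z)
    (_hp : ∀ (n : ℕ) (κ : Type) [Finite κ] (f : (Fin n → (Fin G ⊕ Fin G → ℚ)) [⋀^κ]→ₗ[ℚ] ℚ),
      IsHodge (powPer (perOne Z) n) f → WeilRing (powPer (perOne Z) n) κ f)
    (κ : Type) [Fintype κ] [DecidableEq κ], Ivt (DZ Z) κ ≤ TA 𝒜 h κ

/-- **S_FZ (factors of an abelian variety and of its period matrix).**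

Proof. (1) `A : AV` is isogenous to `AVZ h`: `e : A.H ≃ₗ[ℚ] (Fin G ⊕ Fin G → ℚ)`, `e` and its inverse
are homomorphisms (from `_hC`: see `Cht.hom` and `Pool/Agent/H926/T/Tra.lean`); so factors of `A` are
factors of `AVZ h` and conversely (compose the injection). (2) For a simple factor `Z₁` of the period
matrix (`Fac Z Z₁ E F`, `IsSimpleAV Z₁`, `0 < a`) the abelian variety `AVZ h₁` is a factor of `AVZ h`:
it is simple in the sense of `R915.IsSimple` (`IsSimpleAV` says that there are no rational subspaces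
stable under the complex structure, compare with `Pool.Agent.Y90.IsSub`; look in the library
(`Pool.Graph.R_seed8.Y90`, `R915`, `N995.Facs`, `N178.HW.Fac`) for the relation between `IsSimpleAV` and
`IsSimple`), and `v ↦ E *ᵥ v` is an injective homomorphism. -/
def S_FZ : Prop :=
  ∀ (A : AV) (G : ℕ) (Z : Matrix (Fin G) (Fin G) ℂ) (h : PM Z)
    (e : A.H ≃ₗ[ℚ] (Fin G ⊕ Fin G → ℚ))
    (_hC : Cht (A.per.comp e.symm.toLinearMap.toAddMonoidHom) (JR Z)),
    (∀ Y : AV, IsFactor Y A ↔ IsFactor Y (AVZ h)) ∧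
    ∀ (a : ℕ) (Z₁ : Matrix (Fin a) (Fin a) ℂ) (E : Matrix (Fin G ⊕ Fin G) (Fin a ⊕ Fin a) ℚ)
      (F : Matrix (Fin a ⊕ Fin a) (Fin G ⊕ Fin G) ℚ) (_hf : Fac Z Z₁ E F) (h₁ : PM Z₁)
      (_hs : IsSimpleAV Z₁) (_ha : 0 < a), IsFactor (AVZ h₁) A

/-- **S_MSI (fourfolds of Mumford's type are simple).**

Proof. `hM.irr` says that there is no complex subspace stable under `LZ Z` besides `⊥` and `⊤`; a
rational subspace `U` stable under the complex structure gives a subspace `ℂ ⊗ U` stable under all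
`DS Z σ`, so under `LZ Z` (compare the proof of `Pool.Agent.Y261.P.jspec` or the definition of
`IsSimpleAV`, and `LZ_le`). -/
def S_MSI : Prop :=
  ∀ (g : ℕ) (Z : Matrix (Fin g) (Fin g) ℂ) (_h : PM Z) (_hM : MumM Z), IsSimpleAV Z

end

end Pool.Agent.H926.T
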