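import Mathlib
import Pool.Agent.H926.T.Jobs5

/-!
# Factors of an abelian variety and of its period matrix: S_FZ (by helper738)
-/

set_option linter.unusedSectionVars false

namespace Pool.Agent.H926.T

open Matrix Module Pool.Agent.Y90 Pool.Agent.W437.HC Pool.Agent.W437.HD
  Pool.Agent.TH504.CB
open Pool.Agent.R915
open Pool.Agent.W548.Odd hiding cv
open Pool.Agent.W437.HP (cK cK_mul cK_one)

noncomputable section

theorem s_fz : S_FZ := by
  intro A G Z h e hC
  obtain ⟨Ψ₂, h₂⟩ := hC.hom h.cht (R := 1) (by rw [cK_one, Matrix.one_mul, Matrix.mul_one])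
  have hA : IsHom A (AVZ h) e.toLinearMap := by
    refine ⟨Ψ₂, fun v => ?_⟩
    have h3 := h₂ (e v)
    have h4 : (A.per.comp e.symm.toLinearMap.toAddMonoidHom) (e v) = A.per v := by
      change A.per (e.symm (e v)) = A.per v
      rw [LinearEquiv.symm_apply_apply]
    rw [h4, one_mulVec] at h3
    exact h3
  obtain ⟨Ψ₁, h₁⟩ := h.cht.hom hC (R := 1) (by rw [cK_one, Matrix.one_mul, Matrix.mul_one])
  have hB : IsHom (AVZ h) A e.symm.toLinearMap := by
    refine ⟨Ψ₁, fun v => ?_⟩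
    have h3 := h₁ v
    rw [one_mulVec] at h3
    exact h3
  refine ⟨fun Y => ⟨?_, ?_⟩, ?_⟩
  · rintro ⟨hY, i, hi, hinj⟩
    exact ⟨hY, e.toLinearMap.comp i, IsHom.comp' hA hi, e.injective.comp hinj⟩
  · rintro ⟨hY, i, hi, hinj⟩
    exact ⟨hY, e.symm.toLinearMap.comp i, IsHom.comp' hB hi, e.symm.injective.comp hinj⟩
  · intro a Z₁ E F hf h₁ hs ha
    obtain ⟨Ψ₃, h₃⟩ := h₁.cht.hom hC (R := E) (by rw [DJ_JR, DJ_JR]; exact hf.de.symm)
    refine ⟨simple_of a h₁ hs ha, e.symm.toLinearMap.comp (Matrix.mulVecLin E),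
      ⟨Ψ₃, fun v => h₃ v⟩, ?_⟩
    intro x y hxy
    have e2 : E *ᵥ x = E *ᵥ y := e.symm.injective hxy
    have e3 := congrArg (fun v => F *ᵥ v) e2
    beta_reduce at e3
    rw [mulVec_mulVec, mulVec_mulVec, hf.fe, one_mulVec, one_mulVec] at e3
    exact e3

end

end Pool.Agent.H926.T
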