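import Mathlib
import Pool.Agent.H926.T.Jobs5

/-!
# Kuenneth decomposition of the invariant tensors for independent Lie algebras
-/

set_option linter.unusedSectionVars false

namespace Pool.Agent.H926.T

open Matrix Module Pool.Agent.Y90 Pool.Agent.W437.HC Pool.Agent.W437.HD
  Pool.Agent.TH504.CB
open Pool.Agent.W548.Odd hiding cv
open Pool.Agent.W437.HP (cK cK_mul cK_one)
open Pool.Agent.H204R3.SP (Kills)
open Pool.Agent.R915 (Sys)
open Pool.Agent.H841.MS (Ivt TA Tn gA rnm TA_rnm TA_prd)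

namespace H415Kt

noncomputable section

variable {G a : ℕ} {Z : Matrix (Fin G) (Fin G) ℂ} {Z' : Matrix (Fin a) (Fin a) ℂ}
  {E : Matrix (Fin G ⊕ Fin G) (Fin a ⊕ Fin a) ℚ} {F : Matrix (Fin a ⊕ Fin a) (Fin G ⊕ Fin G) ℚ}

/-- The multilinear forms whose coefficients belong to `TA`. -/
def NT (𝒜 : Sys) (h : PM Z) (κ : Type) :
    Submodule ℂ (MultilinearMap ℂ (fun _ : κ => Fin G ⊕ Fin G → ℂ) ℂ) where
  carrier := {ψ | CF ψ ∈ TA 𝒜 h κ}
  add_mem' := fun {_ _} hx hy => (TA 𝒜 h κ).add_mem hx hy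
  zero_mem' := (TA 𝒜 h κ).zero_mem
  smul_mem' := fun c _ hx => (TA 𝒜 h κ).smul_mem c hx

theorem mem_NT {𝒜 : Sys} {h : PM Z} {κ : Type}
    {ψ : MultilinearMap ℂ (fun _ : κ => Fin G ⊕ Fin G → ℂ) ℂ} :
    ψ ∈ NT 𝒜 h κ ↔ CF ψ ∈ TA 𝒜 h κ := Iff.rfl

/-- Pull-backs of forms. -/
theorem nt_pull (𝒜 : Sys) (h : PM Z) (h' : PM Z') (hf : Fac Z Z' E F) {κ : Type}
    {ψ : MultilinearMap ℂ (fun _ : κ => Fin a ⊕ Fin a → ℂ) ℂ} (hψ : ψ ∈ NT 𝒜 h' κ) :
    ψ.compLinearMap (fun _ => ml F) ∈ NT 𝒜 h κ := by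
  intro i1 i2 X R hR
  obtain ⟨Ψ, hΨ⟩ := h.cht.hom h'.cht (R := F) (by rw [DJ_JR, DJ_JR]; exact hf.fd)
  have h1 := hψ i1 i2 X (fun k => (Matrix.mulVecLin F).comp (R k)) fun k => by
    obtain ⟨Ψ', hΨ'⟩ := hR k
    refine ⟨Ψ.comp Ψ', fun v => ?_⟩
    rw [LinearMap.comp_apply, hΨ' v]
    exact hΨ _
  have h2 : gA R (CF (ψ.compLinearMap (fun _ => ml F))) =
      gA (fun k => (Matrix.mulVecLin F).comp (R k)) (CF ψ) := by
    funext v
    unfold gA
    refine Finset.sum_congr rfl fun σ _ => ?_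
    rw [← CF_eval, ← CF_eval, MultilinearMap.compLinearMap_apply]
    simp only [ml_cv]
    rfl
  rw [h2]
  exact h1

/-- All forms killed by the Lie algebra belong to the system. -/
def AllT (𝒜 : Sys) (h : PM Z) : Prop :=
  ∀ (κ : Type) [Fintype κ] [DecidableEq κ]
    (ψ : MultilinearMap ℂ (fun _ : κ => Fin G ⊕ Fin G → ℂ) ℂ),
    (∀ X ∈ LZ Z, Kills (ph (Fin G ⊕ Fin G) X) ψ) → ψ ∈ NT 𝒜 h κ

theorem allT_of {𝒜 : Sys} {h : PM Z}
    (H : ∀ (κ : Type) [Fintype κ] [DecidableEq κ], Ivt (DZ Z) κ ≤ TA 𝒜 h κ) : AllT 𝒜 h := by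
  intro κ _ _ ψ hψ
  exact H κ fun X hX => act_of_kills (hψ X hX)

theorem of_allT {𝒜 : Sys} {h : PM Z} (H : AllT 𝒜 h) (κ : Type) [Fintype κ] [DecidableEq κ] :
    Ivt (DZ Z) κ ≤ TA 𝒜 h κ := by
  intro u hu
  have h3 : CF (evalM u) = u := by
    funext I
    unfold CF
    rw [evalM_apply, evalF_single]
  have h1 := H κ (evalM u) fun X hX => kills_of_act (by
    rw [h3]
    exact hu X hX)
  rw [mem_NT, h3] at h1
  exact h1

theorem nt_prd {𝒜 : Sys} {h : PM Z} {α β κ : Type} [Fintype α] [DecidableEq α] [Fintype β]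
    [DecidableEq β] (e : α ⊕ β ≃ κ)
    {φ : MultilinearMap ℂ (fun _ : α => Fin G ⊕ Fin G → ℂ) ℂ}
    {φ' : MultilinearMap ℂ (fun _ : β => Fin G ⊕ Fin G → ℂ) ℂ} (hφ : φ ∈ NT 𝒜 h α)
    (hφ' : φ' ∈ NT 𝒜 h β) : (Pool.Agent.Y90.prd φ φ').domDomCongr e ∈ NT 𝒜 h κ := by
  have h1 := TA_rnm e _ (TA_prd _ _ hφ hφ')
  have h2 : CF ((Pool.Agent.Y90.prd φ φ').domDomCongr e) =
      rnm e (Pool.Agent.H841.MS.prd (CF φ) (CF φ')) := rfl
  rw [mem_NT, h2]
  exact h1

section kunneth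

variable {a₁ a₂ : ℕ} {Z₁ : Matrix (Fin a₁) (Fin a₁) ℂ} {Z₂ : Matrix (Fin a₂) (Fin a₂) ℂ}
  {E₁ : Matrix (Fin G ⊕ Fin G) (Fin a₁ ⊕ Fin a₁) ℚ}
  {F₁ : Matrix (Fin a₁ ⊕ Fin a₁) (Fin G ⊕ Fin G) ℚ}
  {E₂ : Matrix (Fin G ⊕ Fin G) (Fin a₂ ⊕ Fin a₂) ℚ}
  {F₂ : Matrix (Fin a₂ ⊕ Fin a₂) (Fin G ⊕ Fin G) ℚ}

/-- **Products with independent Lie algebras.** -/
theorem kunneth (d : Dec Z Z₁ Z₂ E₁ F₁ E₂ F₂) (𝒜 : Sys) (h : PM Z) (h₁ : PM Z₁) (h₂ : PM Z₂)
    (hsp : ∀ X ∈ LZ Z₁, cK ℂ E₁ * X * cK ℂ F₁ ∈ LZ Z) (hA : AllT 𝒜 h₁) (hT : AllT 𝒜 h₂) :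
    AllT 𝒜 h := by
  classical
  intro κ _ _ φ hφ
  obtain ⟨P₁, hP₁⟩ : ∃ P₁, P₁ = (ml E₁).comp (ml F₁) := ⟨_, rfl⟩
  obtain ⟨P₂, hP₂⟩ : ∃ P₂, P₂ = (ml E₂).comp (ml F₂) := ⟨_, rfl⟩
  have hFE₁ : ∀ v, ml F₁ (ml E₁ v) = v := fun v => by
    rw [ml_apply, ml_apply, mulVec_mulVec, d.f₁.fe', one_mulVec]
  have hFE₂ : ∀ v, ml F₂ (ml E₂ v) = v := fun v => by
    rw [ml_apply, ml_apply, mulVec_mulVec, d.f₂.fe', one_mulVec]
  have hFE₁₂ : ∀ v, ml F₁ (ml E₂ v) = 0 := fun v => by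
    rw [ml_apply, ml_apply, mulVec_mulVec, d.c12, zero_mulVec]
  have hFE₂₁ : ∀ v, ml F₂ (ml E₁ v) = 0 := fun v => by
    rw [ml_apply, ml_apply, mulVec_mulVec, d.c21, zero_mulVec]
  have hPP : ∀ v, P₁ v + P₂ v = v := fun v => by
    rw [hP₁, hP₂]
    change ml E₁ (ml F₁ v) + ml E₂ (ml F₂ v) = v
    rw [ml_apply, ml_apply, ml_apply, ml_apply, mulVec_mulVec, mulVec_mulVec, ← add_mulVec,
      d.csum, one_mulVec]
  have hPP₁ : ∀ v, P₁ (P₁ v) = P₁ v := fun v => by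
    rw [hP₁]
    change ml E₁ (ml F₁ (ml E₁ (ml F₁ v))) = ml E₁ (ml F₁ v)
    rw [hFE₁]
  have hPP₂ : ∀ v, P₂ (P₂ v) = P₂ v := fun v => by
    rw [hP₂]
    change ml E₂ (ml F₂ (ml E₂ (ml F₂ v))) = ml E₂ (ml F₂ v)
    rw [hFE₂]
  -- decomposition of the form
  obtain ⟨ψ, hψ⟩ : ∃ ψ : Finset κ → MultilinearMap ℂ (fun _ : κ => Fin G ⊕ Fin G → ℂ) ℂ,
      ∀ s v, ψ s v = φ (s.piecewise (fun k => P₁ (v k)) fun k => P₂ (v k)) := by
    refine ⟨fun s => φ.compLinearMap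
      fun k => if k ∈ s then P₁ else P₂, fun s v => ?_⟩
    rw [MultilinearMap.compLinearMap_apply]
    change φ _ = φ _
    congr 1
    funext k
    by_cases hk : k ∈ s
    · rw [if_pos hk, Finset.piecewise_eq_of_mem _ _ _ hk]
    · rw [if_neg hk, Finset.piecewise_eq_of_notMem _ _ _ hk]
  have h1 : φ = ∑ s : Finset κ, ψ s := by
    refine MultilinearMap.ext fun v => ?_
    rw [_root_.sum_apply]
    have h2 := φ.map_add_univ (fun k => P₁ (v k)) fun k => P₂ (v k)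
    have h3 : ((fun k => P₁ (v k)) + fun k => P₂ (v k)) = v := by
      funext k
      exact hPP (v k)
    rw [h3] at h2
    rw [h2]
    refine Finset.sum_congr rfl fun s _ => ?_
    rw [hψ]
  rw [h1]
  refine Submodule.sum_mem _ fun s _ => ?_
  -- the variables of the two kinds
  obtain ⟨α, β, _, _, _, _, ε, hε1, hε2⟩ : ∃ (α β : Type) (_ : Fintype α) (_ : DecidableEq α)
      (_ : Fintype β) (_ : DecidableEq β) (ε : κ ≃ α ⊕ β),
      (∀ x : α, ε.symm (Sum.inl x) ∈ s) ∧ ∀ y : β, ε.symm (Sum.inr y) ∉ s :=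
    ⟨{k // k ∈ s}, {k // k ∉ s}, inferInstance, inferInstance, inferInstance, inferInstance,
      (Equiv.sumCompl (fun k => k ∈ s)).symm, fun x => x.2, fun y => y.2⟩
  obtain ⟨Φ, hΦ⟩ : ∃ Φ : MultilinearMap ℂ (fun _ : β => Fin G ⊕ Fin G → ℂ)
      (MultilinearMap ℂ (fun _ : α => Fin G ⊕ Fin G → ℂ) ℂ),
      ∀ y x, Φ y x = φ fun k => Sum.elim (fun i => P₁ (x i)) (fun j => P₂ (y j)) (ε k) := by
    refine ⟨MultilinearMap.currySum ((φ.compLinearMap
      fun k => Sum.elim (fun _ => P₁) (fun _ => P₂) (ε k)).domDomCongr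
        (ε.trans (Equiv.sumComm α β))), fun y x => ?_⟩
    rw [MultilinearMap.currySum_apply, MultilinearMap.domDomCongr_apply,
      MultilinearMap.compLinearMap_apply]
    change φ _ = φ _
    congr 1
    funext k
    rcases hk : ε k with i | j
    · simp [hk]
    · simp [hk]
  have hψΦ : ∀ v, ψ s v = Φ (fun j => v (ε.symm (Sum.inr j))) (fun i => v (ε.symm (Sum.inl i))) := by
    intro v
    rw [hψ, hΦ]
    congr 1
    funext k
    rcases hk : ε k with i | j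
    · have h3 : ε.symm (Sum.inl i) = k := by rw [← hk, Equiv.symm_apply_apply]
      have h4 : k ∈ s := h3 ▸ hε1 i
      rw [Finset.piecewise_eq_of_mem _ _ _ h4, Sum.elim_inl, h3]
    · have h3 : ε.symm (Sum.inr j) = k := by rw [← hk, Equiv.symm_apply_apply]
      have h4 : k ∉ s := h3 ▸ hε2 j
      rw [Finset.piecewise_eq_of_notMem _ _ _ h4, Sum.elim_inr, h3]
  have hE₁P : ∀ x, P₁ (ml E₁ x) = ml E₁ x := fun x => by
    rw [hP₁]
    change ml E₁ (ml F₁ (ml E₁ x)) = ml E₁ x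
    rw [hFE₁]
  have hE₂P : ∀ x, P₂ (ml E₂ x) = ml E₂ x := fun x => by
    rw [hP₂]
    change ml E₂ (ml F₂ (ml E₂ x)) = ml E₂ x
    rw [hFE₂]
  have hP₁F : ∀ x, P₁ x = ml E₁ (ml F₁ x) := fun x => by rw [hP₁]; rfl
  have hP₂F : ∀ x, P₂ x = ml E₂ (ml F₂ x) := fun x => by rw [hP₂]; rfl
  -- the forms in the first variables
  have hΦ1 : ∀ y, Φ y ∈ NT 𝒜 h α := by
    intro y
    let ψy : MultilinearMap ℂ (fun _ : α => Fin a₁ ⊕ Fin a₁ → ℂ) ℂ :=
      (Φ y).compLinearMap (fun _ => ml E₁)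
    have hψy : ∀ x, ψy x = Φ y (fun i => ml E₁ (x i)) := fun x => rfl
    have h3 : ψy ∈ NT 𝒜 h₁ α := by
      refine hA α ψy fun X hX x => ?_
      have h4 := hφ _ (hsp X hX) fun k =>
        Sum.elim (fun i => P₁ (ml E₁ (x i))) (fun j => P₂ (y j)) (ε k)
      rw [← ε.symm.sum_comp, Fintype.sum_sum_type] at h4
      have h5 : ∀ j : β, φ (Function.update (fun k =>
          Sum.elim (fun i => P₁ (ml E₁ (x i))) (fun j => P₂ (y j)) (ε k)) (ε.symm (Sum.inr j))
            (ph (Fin G ⊕ Fin G) (cK ℂ E₁ * X * cK ℂ F₁)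
              (Sum.elim (fun i => P₁ (ml E₁ (x i))) (fun j => P₂ (y j))
                (ε (ε.symm (Sum.inr j)))))) = 0 := by
        intro j
        refine φ.map_coord_zero (ε.symm (Sum.inr j)) ?_
        rw [Function.update_self, Equiv.apply_symm_apply, Sum.elim_inr, ph_apply', hP₂F,
          ← mulVec_mulVec]
        have h6 : cK ℂ F₁ *ᵥ ml E₂ (ml F₂ (y j)) = 0 := hFE₁₂ _
        rw [h6, mulVec_zero]
      rw [Finset.sum_congr rfl fun j _ => h5 j, Finset.sum_const_zero, add_zero] at h4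
      rw [← h4]
      refine Finset.sum_congr rfl fun i _ => ?_
      change ψy _ = φ _
      rw [hψy, hΦ]
      congr 1
      funext k
      rw [Equiv.apply_symm_apply, Sum.elim_inl]
      by_cases hk : k = ε.symm (Sum.inl i)
      · subst hk
        rw [Function.update_self, Equiv.apply_symm_apply, Sum.elim_inl, Function.update_self,
          ph_apply', hE₁P, ph_apply', hE₁P, ← mulVec_mulVec, ← mulVec_mulVec]
        have h6 : cK ℂ F₁ *ᵥ ml E₁ (x i) = x i := hFE₁ _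
        rw [h6]
        rfl
      · rw [Function.update_of_ne hk]
        rcases hk' : ε k with i' | j
        · rw [Sum.elim_inl, Sum.elim_inl]
          have h6 : i' ≠ i := by
            rintro rfl
            apply hk
            rw [← hk', Equiv.symm_apply_apply]
          rw [Function.update_of_ne h6]
        · rfl
    have h4 := nt_pull 𝒜 h h₁ d.f₁ h3
    have h5 : ψy.compLinearMap (fun _ => ml F₁) = Φ y := by
      refine MultilinearMap.ext fun x => ?_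
      rw [MultilinearMap.compLinearMap_apply]
      change ψy _ = _
      rw [hψy, hΦ, hΦ]
      congr 1
      funext k
      congr 1
      funext i
      rw [← hP₁F, hPP₁]
    rw [h5] at h4
    exact h4
  -- coordinates
  let S : Submodule ℂ (MultilinearMap ℂ (fun _ : α => Fin G ⊕ Fin G → ℂ) ℂ) := NT 𝒜 h α
  let bS := finBasis ℂ S
  obtain ⟨b, hb⟩ : ∃ b : Fin (finrank ℂ S) → MultilinearMap ℂ (fun _ : β => Fin G ⊕ Fin G → ℂ) ℂ,
      ∀ r y, b r y = bS.repr ⟨Φ y, hΦ1 y⟩ r :=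
    ⟨fun r => (bS.coord r).compMultilinearMap (Φ.codRestrict S hΦ1), fun r y => rfl⟩
  have hbΦ : ∀ y x, Φ y x = ∑ r, b r y * (bS r : MultilinearMap ℂ _ ℂ) x := by
    intro y x
    have h3 := congrArg Subtype.val (bS.sum_repr ⟨Φ y, hΦ1 y⟩)
    have h4 := congrArg (fun F : MultilinearMap ℂ (fun _ : α => Fin G ⊕ Fin G → ℂ) ℂ => F x) h3
    simp only at h4
    rw [← h4, AddSubmonoidClass.coe_finsetSum, _root_.sum_apply]
    refine Finset.sum_congr rfl fun r _ => ?_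
    rw [hb]
    rfl
  have hbN : ∀ r, b r ∈ NT 𝒜 h β := by
    intro r
    have h3 : (b r).compLinearMap (fun _ => ml E₂) ∈ NT 𝒜 h₂ β := by
      refine hT β _ fun X hX y => ?_
      have h4 : ∑ j, Φ (Function.update (fun j => ml E₂ (y j)) j
          (ml E₂ (ph (Fin a₂ ⊕ Fin a₂) X (y j)))) = 0 := by
        refine MultilinearMap.ext fun x => ?_
        rw [_root_.sum_apply]
        have h5 := hφ _ (d.sep2 hsp X hX) fun k =>
          Sum.elim (fun i => P₁ (x i)) (fun j => P₂ (ml E₂ (y j))) (ε k)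
        rw [← ε.symm.sum_comp, Fintype.sum_sum_type] at h5
        have h6 : ∀ i : α, φ (Function.update (fun k =>
            Sum.elim (fun i => P₁ (x i)) (fun j => P₂ (ml E₂ (y j))) (ε k)) (ε.symm (Sum.inl i))
              (ph (Fin G ⊕ Fin G) (cK ℂ E₂ * X * cK ℂ F₂)
                (Sum.elim (fun i => P₁ (x i)) (fun j => P₂ (ml E₂ (y j)))
                  (ε (ε.symm (Sum.inl i)))))) = 0 := by
          intro i
          refine φ.map_coord_zero (ε.symm (Sum.inl i)) ?_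
          rw [Function.update_self, Equiv.apply_symm_apply, Sum.elim_inl, ph_apply', hP₁F,
            ← mulVec_mulVec]
          have h6 : cK ℂ F₂ *ᵥ ml E₁ (ml F₁ (x i)) = 0 := hFE₂₁ _
          rw [h6, mulVec_zero]
        rw [Finset.sum_congr rfl fun j _ => h6 j, Finset.sum_const_zero, zero_add] at h5
        rw [_root_.zero_apply, ← h5]
        refine Finset.sum_congr rfl fun j _ => ?_
        change _ = φ _
        rw [hΦ]
        congr 1
        funext k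
        rw [Equiv.apply_symm_apply, Sum.elim_inr]
        by_cases hk : k = ε.symm (Sum.inr j)
        · subst hk
          rw [Function.update_self, Equiv.apply_symm_apply, Sum.elim_inr, Function.update_self,
            ph_apply', hE₂P, ph_apply', hE₂P, ← mulVec_mulVec, ← mulVec_mulVec]
          have h6 : cK ℂ F₂ *ᵥ ml E₂ (y j) = y j := hFE₂ _
          rw [h6]
          rfl
        · rw [Function.update_of_ne hk]
          rcases hk' : ε k with i | j'
          · rfl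
          · rw [Sum.elim_inr, Sum.elim_inr]
            have h6 : j' ≠ j := by
              rintro rfl
              apply hk
              rw [← hk', Equiv.symm_apply_apply]
            rw [Function.update_of_ne h6]
      have h5 : ∑ j, (⟨Φ (Function.update (fun j => ml E₂ (y j)) j
          (ml E₂ (ph (Fin a₂ ⊕ Fin a₂) X (y j)))), hΦ1 _⟩ : S) = 0 := by
        apply Subtype.ext
        rw [AddSubmonoidClass.coe_finsetSum]
        exact h4
      have h6 := congrArg (fun z => bS.repr z r) h5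
      simp only [map_sum, map_zero, Finsupp.coe_zero, Pi.zero_apply, Finsupp.coe_finsetSum,
        Finset.sum_apply] at h6
      rw [← h6]
      refine Finset.sum_congr rfl fun j _ => ?_
      rw [MultilinearMap.compLinearMap_apply, ← hb]
      congr 1
      funext j'
      by_cases hj : j' = j
      · subst hj
        rw [Function.update_self, Function.update_self]
      · rw [Function.update_of_ne hj, Function.update_of_ne hj]
    have h4 := nt_pull 𝒜 h h₂ d.f₂ h3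
    have h5 : ((b r).compLinearMap (fun _ => ml E₂)).compLinearMap (fun _ => ml F₂) = b r := by
      refine MultilinearMap.ext fun y => ?_
      rw [MultilinearMap.compLinearMap_apply, MultilinearMap.compLinearMap_apply, hb, hb]
      congr 3
      refine MultilinearMap.ext fun x => ?_
      rw [hΦ, hΦ]
      congr 1
      funext k
      congr 1
      funext j
      rw [← hP₂F, hPP₂]
    rw [h5] at h4
    exact h4
  -- the conclusion
  have h3 : ψ s = ∑ r, (Pool.Agent.Y90.prd (bS r : MultilinearMap ℂ (fun _ : α => Fin G ⊕ Fin G → ℂ) ℂ)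
      (b r)).domDomCongr ε.symm := by
    refine MultilinearMap.ext fun v => ?_
    rw [hψΦ, hbΦ, _root_.sum_apply]
    refine Finset.sum_congr rfl fun r _ => ?_
    rw [MultilinearMap.domDomCongr_apply, prd_apply, mul_comm]
  rw [h3]
  refine Submodule.sum_mem _ fun r _ => ?_
  exact nt_prd ε.symm (bS r).2 (hbN r)

end kunneth

end

end H415Kt

theorem s_kt : S_KT := by
  intro G a₁ a₂ Z Z₁ Z₂ E₁ F₁ E₂ F₂ h h₁ h₂ D hsp 𝒜 H₁ H₂ κ _ _
  exact H415Kt.of_allT (H415Kt.kunneth D 𝒜 h h₁ h₂ hsp (H415Kt.allT_of H₁) (H415Kt.allT_of H₂)) κ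

end Pool.Agent.H926.T
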