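import Pool.Agent.H926.T.Jobs4

/-!
# S_BRD: gluing
-/

set_option linter.unusedSectionVars false

namespace Pool.Agent.H926.T

open Matrix Module Pool.Agent.Y90 Pool.Agent.W437.HC Pool.Agent.W437.HD
  Pool.Agent.TH504.CB
open Pool.Agent.W548.Odd hiding cv
open Pool.Agent.W437.HP (cK cK_mul cK_one cK_transpose)

noncomputable section

namespace BrdL

variable {G a : ℕ} {Z : Matrix (Fin G) (Fin G) ℂ} {Z₁ : Matrix (Fin a) (Fin a) ℂ}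
  {E : Matrix (Fin G ⊕ Fin G) (Fin a ⊕ Fin a) ℚ} {F : Matrix (Fin a ⊕ Fin a) (Fin G ⊕ Fin G) ℚ}

theorem qm_eq {B : Type*} (M : Matrix B B ℚ) : qm M = cK ℂ M := rfl

theorem cK_Om (g : ℕ) : cK ℂ (Om g ℚ) = Om g ℂ := Om_map ℂ

theorem cK_neg {m n : Type*} (M : Matrix m n ℚ) : cK ℂ (-M) = -cK ℂ M := by
  ext i j
  simp [cK]

/-- the real relation -/
theorem jr_rel (hf : Fac Z Z₁ E F) : JR Z * cK ℝ E = cK ℝ E * JR Z₁ := by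
  have h1 := hf.de
  ext i j
  have h2 := congrFun (congrFun h1 i) j
  simp only [Matrix.mul_apply, DZ, Matrix.smul_apply, Matrix.map_apply, cK, smul_eq_mul] at h2
  have h3 : (-Complex.I) * (∑ x, ((JR Z i x : ℝ) : ℂ) * ((E x j : ℚ) : ℂ)) =
      (-Complex.I) * (∑ x, ((E i x : ℚ) : ℂ) * ((JR Z₁ x j : ℝ) : ℂ)) := by
    rw [Finset.mul_sum, Finset.mul_sum]
    calc _ = ∑ x, -Complex.I * ((JR Z i x : ℝ) : ℂ) * ((E x j : ℚ) : ℂ) :=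
          Finset.sum_congr rfl fun x _ => by ring
      _ = ∑ x, ((E i x : ℚ) : ℂ) * (-Complex.I * ((JR Z₁ x j : ℝ) : ℂ)) := h2
      _ = _ := Finset.sum_congr rfl fun x _ => by ring
  have h4 := mul_left_cancel₀ (neg_ne_zero.2 Complex.I_ne_zero) h3
  have h5 : ((∑ x, JR Z i x * ((E x j : ℚ) : ℝ) : ℝ) : ℂ) =
      ((∑ x, ((E i x : ℚ) : ℝ) * JR Z₁ x j : ℝ) : ℂ) := by
    push_cast
    exact h4
  have h6 := Complex.ofReal_injective h5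
  simpa only [Matrix.mul_apply, cK, Matrix.map_apply] using h6

/-- the rational form -/
def Bq (E : Matrix (Fin G ⊕ Fin G) (Fin a ⊕ Fin a) ℚ) :
    Matrix (Fin a ⊕ Fin a) (Fin a ⊕ Fin a) ℚ := Eᵀ * Om G ℚ * E

theorem Bq_det (h : PM Z) (hf : Fac Z Z₁ E F) : (Bq E).det ≠ 0 := by
  have h1 : (Om G ℝ * JR Z).PosDef := OmJ_posDef h.symm h.pos
  have hinj : Function.Injective (cK ℝ E).mulVec := by
    intro u v huv
    have h2 : cK ℝ F *ᵥ (cK ℝ E *ᵥ u) = cK ℝ F *ᵥ (cK ℝ E *ᵥ v) := by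
      rw [huv]
    rwa [mulVec_mulVec, mulVec_mulVec, ← cK_mul, hf.fe, cK_one, one_mulVec, one_mulVec] at h2
  have h3 := h1.conjTranspose_mul_mul_same hinj
  have h4 : (cK ℝ E)ᴴ * (Om G ℝ * JR Z) * cK ℝ E = cK ℝ (Bq E) * JR Z₁ := by
    rw [conjTranspose_eq_transpose_of_trivial, Matrix.mul_assoc, Matrix.mul_assoc (Om G ℝ),
      jr_rel hf, Bq, cK_mul, cK_mul, cK_transpose]
    have h5 : cK ℝ (Om G ℚ) = Om G ℝ := Om_map ℝ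
    rw [h5]
    simp only [Matrix.mul_assoc]
  rw [h4] at h3
  have h6 : IsUnit (cK ℝ (Bq E) * JR Z₁).det := h3.isUnit.map Matrix.detMonoidHom
  intro h0
  have h7 : (cK ℝ (Bq E)).det = (((Bq E).det : ℚ) : ℝ) := by
    have := (Rat.castHom ℝ).map_det (Bq E)
    exact this.symm
  rw [det_mul, h7, h0] at h6
  simp at h6

theorem skew_sand {X : Matrix (Fin G ⊕ Fin G) (Fin G ⊕ Fin G) ℂ}
    {X₁ : Matrix (Fin a ⊕ Fin a) (Fin a ⊕ Fin a) ℂ}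
    {e : Matrix (Fin G ⊕ Fin G) (Fin a ⊕ Fin a) ℂ}
    (hs : Xᵀ * Om G ℂ + Om G ℂ * X = 0) (he : X * e = e * X₁) :
    X₁ᵀ * (eᵀ * Om G ℂ * e) + (eᵀ * Om G ℂ * e) * X₁ = 0 := by
  have h1 : X₁ᵀ * (eᵀ * Om G ℂ * e) = eᵀ * (Xᵀ * Om G ℂ) * e := by
    have h2 : X₁ᵀ * eᵀ = eᵀ * Xᵀ := by rw [← transpose_mul, ← transpose_mul, he]
    rw [← Matrix.mul_assoc, ← Matrix.mul_assoc, h2]
    simp only [Matrix.mul_assoc]
  have h3 : (eᵀ * Om G ℂ * e) * X₁ = eᵀ * (Om G ℂ * X) * e := by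
    rw [Matrix.mul_assoc, ← he]
    simp only [Matrix.mul_assoc]
  rw [h1, h3, ← Matrix.add_mul, ← Matrix.mul_add, hs, Matrix.mul_zero, Matrix.zero_mul]

theorem lef_cmp (h : PM Z) (h₁ : PM Z₁) (hf : Fac Z Z₁ E F)
    {X : Matrix (Fin G ⊕ Fin G) (Fin G ⊕ Fin G) ℂ} (hX : X ∈ lefC Z) :
    X * cK ℂ E = cK ℂ E * (cK ℂ F * X * cK ℂ E) ∧
      cK ℂ F * X * cK ℂ E ∈ lefC Z₁ := by
  obtain ⟨hs, hc⟩ := hX
  set e := cK ℂ E with he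
  set f := cK ℂ F with hfd
  have hfe : f * e = 1 := hf.fe'
  have hde : DZ Z * e = e * DZ Z₁ := hf.de
  have hfD : f * DZ Z = DZ Z₁ * f := hf.fd
  have hXef : X * (e * f) = (e * f) * X := by
    have h1 := hc (E * F) (by
      rw [qm_eq, cK_mul, ← he, ← hfd, Matrix.mul_assoc, hfD, ← Matrix.mul_assoc, ← hde,
        Matrix.mul_assoc])
    rw [qm_eq, cK_mul, ← he, ← hfd] at h1
    exact h1
  have hXe : X * e = e * (f * X * e) := by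
    calc X * e = X * (e * (f * e)) := by rw [hfe, Matrix.mul_one]
      _ = X * (e * f) * e := by simp only [Matrix.mul_assoc]
      _ = (e * f) * X * e := by rw [hXef]
      _ = _ := by simp only [Matrix.mul_assoc]
  refine ⟨hXe, ?_, ?_⟩
  · set X₁ := f * X * e with hX₁
    have hB : cK ℂ (Bq E) = eᵀ * Om G ℂ * e := by
      rw [Bq, cK_mul, cK_mul, cK_transpose, cK_Om]
    have hXB : X₁ᵀ * cK ℂ (Bq E) + cK ℂ (Bq E) * X₁ = 0 := by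
      rw [hB]
      exact skew_sand hs hXe
    have hDB : (DZ Z₁)ᵀ * cK ℂ (Bq E) + cK ℂ (Bq E) * DZ Z₁ = 0 := by
      rw [hB]
      exact skew_sand (h.sp DZ_mem) hde
    have hD1 : (DZ Z₁)ᵀ * Om a ℂ + Om a ℂ * DZ Z₁ = 0 := h₁.sp DZ_mem
    have hOD : Om a ℂ * (DZ Z₁)ᵀ = -(DZ Z₁ * Om a ℂ) := by
      have h1 : (DZ Z₁)ᵀ * Om a ℂ = -(Om a ℂ * DZ Z₁) := eq_neg_of_add_eq_zero_left hD1
      have h2 : Om a ℂ * ((DZ Z₁)ᵀ * Om a ℂ) * Om a ℂ =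
          Om a ℂ * (-(Om a ℂ * DZ Z₁)) * Om a ℂ := by rw [h1]
      have h3 : Om a ℂ * ((DZ Z₁)ᵀ * Om a ℂ) * Om a ℂ = -(Om a ℂ * (DZ Z₁)ᵀ) := by
        have : Om a ℂ * ((DZ Z₁)ᵀ * Om a ℂ) * Om a ℂ =
            Om a ℂ * (DZ Z₁)ᵀ * (Om a ℂ * Om a ℂ) := by simp only [Matrix.mul_assoc]
        rw [this, Om_sq, Matrix.mul_neg, Matrix.mul_one]
      have h4 : Om a ℂ * (-(Om a ℂ * DZ Z₁)) * Om a ℂ = DZ Z₁ * Om a ℂ := by
        have : Om a ℂ * (-(Om a ℂ * DZ Z₁)) * Om a ℂ =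
            -((Om a ℂ * Om a ℂ) * DZ Z₁ * Om a ℂ) := by
          simp only [Matrix.mul_neg, Matrix.neg_mul, Matrix.mul_assoc]
        rw [this, Om_sq, Matrix.neg_mul, Matrix.neg_mul, Matrix.one_mul, neg_neg]
      rw [h3, h4] at h2
      rw [← h2, neg_neg]
    have hψ : cK ℂ (-(Om a ℚ) * Bq E) = -(Om a ℂ) * cK ℂ (Bq E) := by
      rw [cK_mul, cK_neg, cK_Om]
    have hψD : cK ℂ (-(Om a ℚ) * Bq E) * DZ Z₁ = DZ Z₁ * cK ℂ (-(Om a ℚ) * Bq E) := by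
      rw [hψ]
      have h1 : cK ℂ (Bq E) * DZ Z₁ = -((DZ Z₁)ᵀ * cK ℂ (Bq E)) :=
        eq_neg_of_add_eq_zero_right hDB
      calc -(Om a ℂ) * cK ℂ (Bq E) * DZ Z₁ = -(Om a ℂ) * (cK ℂ (Bq E) * DZ Z₁) := by
            rw [Matrix.mul_assoc]
        _ = (Om a ℂ * (DZ Z₁)ᵀ) * cK ℂ (Bq E) := by
            rw [h1, Matrix.neg_mul, Matrix.mul_neg, neg_neg, Matrix.mul_assoc]
        _ = _ := by
            rw [hOD, Matrix.neg_mul, Matrix.neg_mul, Matrix.mul_neg, Matrix.mul_assoc]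
    -- commutation with the endomorphisms
    have hcomm : ∀ φ : Matrix (Fin a ⊕ Fin a) (Fin a ⊕ Fin a) ℚ,
        cK ℂ φ * DZ Z₁ = DZ Z₁ * cK ℂ φ → X₁ * cK ℂ φ = cK ℂ φ * X₁ := by
      intro φ hφ
      have h1 := hc (E * φ * F) (by
        rw [qm_eq, cK_mul, cK_mul, ← he, ← hfd]
        calc e * cK ℂ φ * f * DZ Z = e * (cK ℂ φ * DZ Z₁) * f := by
              rw [Matrix.mul_assoc, hfD]
              simp only [Matrix.mul_assoc]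
          _ = (e * DZ Z₁) * cK ℂ φ * f := by
              rw [hφ]
              simp only [Matrix.mul_assoc]
          _ = _ := by
              rw [← hde]
              simp only [Matrix.mul_assoc])
      rw [qm_eq, cK_mul, cK_mul, ← he, ← hfd] at h1
      calc X₁ * cK ℂ φ = f * (X * (e * cK ℂ φ * f)) * e := by
            rw [hX₁]
            calc f * X * e * cK ℂ φ = f * X * e * cK ℂ φ * (f * e) := by
                  rw [hfe, Matrix.mul_one]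
              _ = _ := by simp only [Matrix.mul_assoc]
        _ = f * ((e * cK ℂ φ * f) * X) * e := by rw [h1]
        _ = (f * e) * cK ℂ φ * (f * X * e) := by simp only [Matrix.mul_assoc]
        _ = _ := by rw [hfe, Matrix.one_mul]
    have hXψ := hcomm _ hψD
    have hOψ : Om a ℂ * cK ℂ (-(Om a ℚ) * Bq E) = cK ℂ (Bq E) := by
      rw [hψ, ← Matrix.mul_assoc, Matrix.mul_neg, Om_sq, neg_neg, Matrix.one_mul]
    have hfin : (X₁ᵀ * Om a ℂ + Om a ℂ * X₁) * cK ℂ (-(Om a ℚ) * Bq E) = 0 := by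
      rw [Matrix.add_mul, Matrix.mul_assoc, hOψ, Matrix.mul_assoc, hXψ, ← Matrix.mul_assoc, hOψ]
      exact hXB
    have hdet : IsUnit (cK ℂ (-(Om a ℚ) * Bq E)).det := by
      have h1 : (cK ℂ (-(Om a ℚ) * Bq E)).det = (((-(Om a ℚ) * Bq E).det : ℚ) : ℂ) :=
        ((Rat.castHom ℂ).map_det (-(Om a ℚ) * Bq E)).symm
      rw [h1, isUnit_iff_ne_zero, Rat.cast_ne_zero, det_mul]
      refine mul_ne_zero ?_ (Bq_det h hf)
      intro h0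
      have h2 : (-(Om a ℚ)) * (-(Om a ℚ)) = -1 := by
        rw [Matrix.neg_mul, Matrix.mul_neg, neg_neg, Om_sq]
      have h3 := congrArg Matrix.det h2
      rw [det_mul, h0, zero_mul] at h3
      have h4 : IsUnit (-1 : Matrix (Fin a ⊕ Fin a) (Fin a ⊕ Fin a) ℚ).det :=
        (IsUnit.neg isUnit_one).map Matrix.detMonoidHom
      rw [← h3] at h4
      simp at h4
    have h5 := congrArg (fun M => M * (cK ℂ (-(Om a ℚ) * Bq E))⁻¹) hfin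
    simp only [Matrix.mul_assoc, Matrix.zero_mul] at h5
    rwa [Matrix.mul_nonsing_inv _ hdet, Matrix.mul_one] at h5
  · intro φ hφ
    have h1 := hc (E * φ * F) (by
      rw [qm_eq, cK_mul, cK_mul, ← he, ← hfd]
      calc e * cK ℂ φ * f * DZ Z = e * (cK ℂ φ * DZ Z₁) * f := by
            rw [Matrix.mul_assoc, hfD]
            simp only [Matrix.mul_assoc]
        _ = (e * DZ Z₁) * cK ℂ φ * f := by
            have hφ' : cK ℂ φ * DZ Z₁ = DZ Z₁ * cK ℂ φ := hφ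
            rw [hφ']
            simp only [Matrix.mul_assoc]
        _ = _ := by
            rw [← hde]
            simp only [Matrix.mul_assoc])
    rw [qm_eq, cK_mul, cK_mul, ← he, ← hfd] at h1
    rw [qm_eq]
    calc f * X * e * cK ℂ φ = f * (X * (e * cK ℂ φ * f)) * e := by
          calc f * X * e * cK ℂ φ = f * X * e * cK ℂ φ * (f * e) := by
                rw [hfe, Matrix.mul_one]
            _ = _ := by simp only [Matrix.mul_assoc]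
      _ = f * ((e * cK ℂ φ * f) * X) * e := by rw [h1]
      _ = (f * e) * cK ℂ φ * (f * X * e) := by simp only [Matrix.mul_assoc]
      _ = _ := by rw [hfe, Matrix.one_mul]

end BrdL

theorem s_brd : S_BRD := by
  intro G a₁ a₂ Z Z₁ Z₂ E₁ F₁ E₂ F₂ h h₁ h₂ D hsp b₁ b₂ X hX Y hY
  obtain ⟨x1, x1'⟩ := BrdL.lef_cmp h h₁ D.f₁ hX
  obtain ⟨x2, x2'⟩ := BrdL.lef_cmp h h₂ D.f₂ hX
  obtain ⟨y1, y1'⟩ := BrdL.lef_cmp h h₁ D.f₁ hY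
  obtain ⟨y2, y2'⟩ := BrdL.lef_cmp h h₂ D.f₂ hY
  have hXd : X = cK ℂ E₁ * (cK ℂ F₁ * X * cK ℂ E₁) * cK ℂ F₁ +
      cK ℂ E₂ * (cK ℂ F₂ * X * cK ℂ E₂) * cK ℂ F₂ := by
    rw [← x1, ← x2, Matrix.mul_assoc, Matrix.mul_assoc, ← Matrix.mul_add, D.csum, Matrix.mul_one]
  have hYd : Y = cK ℂ E₁ * (cK ℂ F₁ * Y * cK ℂ E₁) * cK ℂ F₁ +
      cK ℂ E₂ * (cK ℂ F₂ * Y * cK ℂ E₂) * cK ℂ F₂ := by
    rw [← y1, ← y2, Matrix.mul_assoc, Matrix.mul_assoc, ← Matrix.mul_add, D.csum, Matrix.mul_one]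
  have hprod : ∀ (A₁ B₁ : Matrix (Fin a₁ ⊕ Fin a₁) (Fin a₁ ⊕ Fin a₁) ℂ)
      (A₂ B₂ : Matrix (Fin a₂ ⊕ Fin a₂) (Fin a₂ ⊕ Fin a₂) ℂ),
      (cK ℂ E₁ * A₁ * cK ℂ F₁ + cK ℂ E₂ * A₂ * cK ℂ F₂) *
        (cK ℂ E₁ * B₁ * cK ℂ F₁ + cK ℂ E₂ * B₂ * cK ℂ F₂) =
        cK ℂ E₁ * (A₁ * B₁) * cK ℂ F₁ + cK ℂ E₂ * (A₂ * B₂) * cK ℂ F₂ := by
    intro A₁ B₁ A₂ B₂
    have k11 : (cK ℂ E₁ * A₁ * cK ℂ F₁) * (cK ℂ E₁ * B₁ * cK ℂ F₁) =
        cK ℂ E₁ * (A₁ * B₁) * cK ℂ F₁ := by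
      calc _ = cK ℂ E₁ * A₁ * (cK ℂ F₁ * cK ℂ E₁) * (B₁ * cK ℂ F₁) := by
            simp only [Matrix.mul_assoc]
        _ = _ := by rw [D.f₁.fe', Matrix.mul_one]; simp only [Matrix.mul_assoc]
    have k22 : (cK ℂ E₂ * A₂ * cK ℂ F₂) * (cK ℂ E₂ * B₂ * cK ℂ F₂) =
        cK ℂ E₂ * (A₂ * B₂) * cK ℂ F₂ := by
      calc _ = cK ℂ E₂ * A₂ * (cK ℂ F₂ * cK ℂ E₂) * (B₂ * cK ℂ F₂) := by
            simp only [Matrix.mul_assoc]
        _ = _ := by rw [D.f₂.fe', Matrix.mul_one]; simp only [Matrix.mul_assoc]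
    have k12 : (cK ℂ E₁ * A₁ * cK ℂ F₁) * (cK ℂ E₂ * B₂ * cK ℂ F₂) = 0 := by
      calc _ = cK ℂ E₁ * A₁ * (cK ℂ F₁ * cK ℂ E₂) * (B₂ * cK ℂ F₂) := by
            simp only [Matrix.mul_assoc]
        _ = _ := by rw [D.c12, Matrix.mul_zero, Matrix.zero_mul]
    have k21 : (cK ℂ E₂ * A₂ * cK ℂ F₂) * (cK ℂ E₁ * B₁ * cK ℂ F₁) = 0 := by
      calc _ = cK ℂ E₂ * A₂ * (cK ℂ F₂ * cK ℂ E₁) * (B₁ * cK ℂ F₁) := by
            simp only [Matrix.mul_assoc]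
        _ = _ := by rw [D.c21, Matrix.mul_zero, Matrix.zero_mul]
    rw [Matrix.add_mul, Matrix.mul_add, Matrix.mul_add, k11, k12, k21, k22, add_zero, zero_add]
  obtain ⟨X₁, hX₁⟩ : ∃ X₁, X₁ = cK ℂ F₁ * X * cK ℂ E₁ := ⟨_, rfl⟩
  obtain ⟨X₂, hX₂⟩ : ∃ X₂, X₂ = cK ℂ F₂ * X * cK ℂ E₂ := ⟨_, rfl⟩
  obtain ⟨Y₁, hY₁⟩ : ∃ Y₁, Y₁ = cK ℂ F₁ * Y * cK ℂ E₁ := ⟨_, rfl⟩
  obtain ⟨Y₂, hY₂⟩ : ∃ Y₂, Y₂ = cK ℂ F₂ * Y * cK ℂ E₂ := ⟨_, rfl⟩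
  rw [← hX₁] at x1'
  rw [← hX₂] at x2'
  rw [← hY₁] at y1'
  rw [← hY₂] at y2'
  rw [← hX₁, ← hX₂] at hXd
  rw [← hY₁, ← hY₂] at hYd
  have hXY : X * Y - Y * X = cK ℂ E₁ * (X₁ * Y₁ - Y₁ * X₁) * cK ℂ F₁ +
      cK ℂ E₂ * (X₂ * Y₂ - Y₂ * X₂) * cK ℂ F₂ := by
    rw [hXd, hYd, hprod, hprod]
    simp only [Matrix.mul_sub, Matrix.sub_mul]
    abel
  rw [hXY]
  refine Submodule.add_mem _ (hsp _ (b₁ X₁ x1' Y₁ y1')) ?_
  obtain ⟨W, hW, hWe⟩ := D.f₂.lift (b₂ X₂ x2' Y₂ y2')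
  have h3 := D.blocks hW
  rw [hWe] at h3
  have h4 := hsp _ (D.f₁.comp hW).1
  have h5 : cK ℂ E₂ * (X₂ * Y₂ - Y₂ * X₂) * cK ℂ F₂ =
      W - cK ℂ E₁ * (cK ℂ F₁ * W * cK ℂ E₁) * cK ℂ F₁ := by
    rw [eq_sub_iff_add_eq, add_comm]
    exact h3.symm
  rw [h5]
  exact Submodule.sub_mem _ hW h4

end

end Pool.Agent.H926.T
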