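import Mathlib
import Pool.Agent.H926.T.Jobs4

/-!
# From the powers of an abelian variety to the square of a quotient
-/

set_option autoImplicit false
set_option linter.unusedSectionVars false

namespace Pool.Agent.H926.T

open Module Pool.Agent.H204R3.CM
open Pool.Agent.Y90.St (IsAV IsHom IsPolarization)

namespace DzL

open AdjL

section

variable {H T H' T' : Type} [AddCommGroup H] [Module ℚ H] [AddCommGroup T] [Module ℂ T]
  [AddCommGroup H'] [Module ℚ H'] [AddCommGroup T'] [Module ℂ T'] {per : H →+ T} {per' : H' →+ T'}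

/-- the adjoint `h'` of a homomorphism `h`: `ker (h' h) = ker h` and `ker (h h') = ker h'` -/
theorem adj2 (hX : IsAV per) (hY : IsAV per') (h : H →ₗ[ℚ] H') (hh : IsHom per per' h) :
    ∃ h' : H' →ₗ[ℚ] H, IsHom per' per h' ∧ (∀ v, h' (h v) = 0 → h v = 0) ∧
      ∀ w, h (h' w) = 0 → h' w = 0 := by
  obtain ⟨hH, hT, hspan, hrank, E, Ψ, hΨl, hΨc, hΨp, hE⟩ := hX
  obtain ⟨hH', hT', hspan', hrank', E', Ψ', hΨl', hΨc', hΨp', hE'⟩ := hY
  have h1 : HF Ψ := ⟨hΨl, hΨc, hΨp⟩
  have h2 : HF Ψ' := ⟨hΨl', hΨc', hΨp'⟩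
  obtain ⟨ω, hω⟩ := exists_bil h1 hE
  obtain ⟨ω', hω'⟩ := exists_bil h2 hE'
  obtain ⟨Φ, hΦ⟩ := hh
  obtain ⟨Φ', hΦ'⟩ := exists_adj h1 h2 Φ
  have hinj : Function.Injective ω.flip := by
    rw [← LinearMap.ker_eq_bot, LinearMap.ker_eq_bot']
    intro y hy
    refine per_inj hspan hrank (h1.eq_of_im hspan fun v => ?_)
    rw [h1.zero_right, Complex.zero_im, hE, ← hω]
    have h3 := LinearMap.congr_fun hy v
    rw [LinearMap.flip_apply, LinearMap.zero_apply] at h3
    rw [h3, Rat.cast_zero]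
  have hsurj : Function.Surjective ω.flip :=
    (LinearMap.injective_iff_surjective_of_finrank_eq_finrank
      (Subspace.dual_finrank_eq (K := ℚ) (V := H)).symm).1 hinj
  let e : H ≃ₗ[ℚ] Dual ℚ H := LinearEquiv.ofBijective ω.flip ⟨hinj, hsurj⟩
  let h' : H' →ₗ[ℚ] H := e.symm.toLinearMap ∘ₗ h.dualMap ∘ₗ ω'.flip
  have key : ∀ v w, E v (h' w) = E' (h v) w := by
    intro v w
    have h3 : e (h' w) = h.dualMap (ω'.flip w) := e.apply_symm_apply _
    have h4 := LinearMap.congr_fun h3 v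
    rw [LinearMap.dualMap_apply, LinearMap.flip_apply, hω'] at h4
    rw [← h4, ← hω]
    rfl
  have key2 : ∀ w, Φ' (per' w) = per (h' w) := by
    intro w
    refine h1.eq_of_im hspan fun v => ?_
    rw [← hΦ', hΦ, hE', hE, key]
  refine ⟨h', ⟨Φ', key2⟩, fun v hv => ?_, fun w hw => ?_⟩
  · refine per_inj hspan' hrank' ?_
    rw [← hΦ]
    refine h2.eq_zero ?_
    rw [h2.smul_left, hΦ', hΦ, key2, hv, map_zero, h1.zero_right, mul_zero, Complex.zero_im]
  · refine per_inj hspan hrank ?_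
    refine h1.eq_zero ?_
    rw [h1.smul_left]
    have h5 : Ψ (per (h' w)) (per (h' w)) = Ψ' (Φ (per (h' w))) (per' w) := by
      rw [hΦ', key2]
    rw [h5, hΦ, hw, map_zero, h2.zero_left, mul_zero, Complex.zero_im]

/-- the inverse of a bijective homomorphism is a homomorphism -/
theorem inv_hom (hspan : Submodule.span ℝ (Set.range per) = ⊤) [FiniteDimensional ℂ T]
    (φ : H ≃ₗ[ℚ] H) (h : IsHom per per φ.toLinearMap) : IsHom per per φ.symm.toLinearMap := by
  obtain ⟨Φ, hΦ⟩ := h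
  have hs : Function.Surjective Φ := by
    rw [← LinearMap.range_eq_top]
    have h1 : ∀ t : T, t ∈ LinearMap.range Φ := by
      intro t
      have ht : t ∈ Submodule.span ℝ (Set.range per) := by rw [hspan]; trivial
      induction ht using Submodule.span_induction with
      | mem t ht =>
        obtain ⟨v, rfl⟩ := ht
        refine ⟨per (φ.symm v), ?_⟩
        rw [hΦ]
        change per (φ (φ.symm v)) = per v
        rw [φ.apply_symm_apply]
      | zero => exact Submodule.zero_mem _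
      | add x y _ _ hx hy => exact Submodule.add_mem _ hx hy
      | smul r x _ hx => exact Submodule.smul_mem _ (r : ℂ) hx
    exact Submodule.eq_top_iff'.2 h1
  have hi : Function.Injective Φ := LinearMap.injective_iff_surjective.2 hs
  let Φe := LinearEquiv.ofBijective Φ ⟨hi, hs⟩
  refine ⟨Φe.symm.toLinearMap, fun v => ?_⟩
  change Φe.symm (per v) = per (φ.symm v)
  rw [LinearEquiv.symm_apply_eq]
  change per v = Φ (per (φ.symm v))
  rw [hΦ]
  change per v = per (φ (φ.symm v))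
  rw [φ.apply_symm_apply]

/-- a surjective homomorphism has a section -/
theorem exists_section (hX : IsAV per) (hY : IsAV per') (q : H →ₗ[ℚ] H') (hq : IsHom per per' q)
    (hs : Function.Surjective q) :
    ∃ s : H' →ₗ[ℚ] H, IsHom per' per s ∧ ∀ w, q (s w) = w := by
  obtain ⟨h', hh', hk1, hk2⟩ := adj2 hX hY q hq
  have hinj : Function.Injective (q ∘ₗ h') := by
    rw [← LinearMap.ker_eq_bot, LinearMap.ker_eq_bot']
    intro w hw
    obtain ⟨v, rfl⟩ := hs w
    exact hk1 v (hk2 _ hw)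
  obtain ⟨hH', hT', hspan', -⟩ := hY
  let φ : H' ≃ₗ[ℚ] H' := LinearEquiv.ofBijective (q ∘ₗ h')
    ⟨hinj, LinearMap.injective_iff_surjective.1 hinj⟩
  have hφ : IsHom per' per' φ.toLinearMap := by
    obtain ⟨Ψ, hΨ⟩ := hq
    obtain ⟨Ψ', hΨ'⟩ := hh'
    refine ⟨Ψ ∘ₗ Ψ', fun v => ?_⟩
    rw [LinearMap.comp_apply, hΨ', hΨ]
    rfl
  obtain ⟨Ψ₁, hΨ₁⟩ := inv_hom hspan' φ hφ
  obtain ⟨Ψ', hΨ'⟩ := hh'
  refine ⟨h' ∘ₗ φ.symm.toLinearMap, ⟨Ψ' ∘ₗ Ψ₁, fun v => ?_⟩, fun w => ?_⟩
  · rw [LinearMap.comp_apply, hΨ₁, hΨ']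
    rfl
  · exact φ.apply_symm_apply w

/-- `w ↦ (f (w 0), f (w 1))` -/
noncomputable def upM {K V V' : Type} [Field K] [AddCommGroup V] [Module K V] [AddCommGroup V']
    [Module K V'] {n : ℕ} (hn : 2 ≤ n) (f : V →ₗ[K] V') : (Fin n → V) →ₗ[K] (Fin 2 → V') :=
  LinearMap.pi fun j => f ∘ₗ LinearMap.proj (Fin.castLE hn j)

/-- `v ↦ (f (v 0), f (v 1), 0, ...)` -/
noncomputable def dnM {K V V' : Type} [Field K] [AddCommGroup V] [Module K V] [AddCommGroup V']
    [Module K V'] (n : ℕ) (f : V →ₗ[K] V') : (Fin 2 → V) →ₗ[K] (Fin n → V') :=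
  LinearMap.pi fun i => if h : (i : ℕ) < 2 then f ∘ₗ LinearMap.proj (⟨i, h⟩ : Fin 2) else 0

theorem dnM_apply {K V V' : Type} [Field K] [AddCommGroup V] [Module K V] [AddCommGroup V']
    [Module K V'] (n : ℕ) (f : V →ₗ[K] V') (v : Fin 2 → V) (i : Fin n) :
    dnM n f v i = if h : (i : ℕ) < 2 then f (v ⟨i, h⟩) else 0 := by
  unfold dnM
  rw [LinearMap.pi_apply]
  split_ifs with h
  · rfl
  · rfl

end

end DzL

open DzL

theorem s_d0 : S_D0 := by
  intro H T H' T' _ _ _ _ _ _ _ _ per per' hX hX' q hq hs n hn hW κ _ f hf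
  obtain ⟨s, ⟨Ψs, hΨs⟩, hqs⟩ := exists_section hX hX' q hq hs
  obtain ⟨Ψq, hΨq⟩ := hq
  have h1 : IsHodge (powPer per n) (f.compLinearMap (upM hn q)) := by
    refine Pool.Agent.TH504.CB.isHodge_comp (upM hn q) (upM hn Ψq) (fun w => ?_) hf
    funext j
    exact hΨq _
  have h2 := hW κ _ h1
  have h3 := Pool.Agent.Y275.P.pull h2 (per := powPer per' 2) (dnM n s) (dnM n Ψs) (fun v => by
    funext i
    rw [dnM_apply]
    change _ = per (dnM n s v i)
    rw [dnM_apply]
    split_ifs with h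
    · exact hΨs _
    · rw [map_zero])
  have h4 : (f.compLinearMap (upM hn q)).compLinearMap (dnM n s) = f := by
    apply AlternatingMap.ext
    intro v
    rw [AlternatingMap.compLinearMap_apply, AlternatingMap.compLinearMap_apply]
    congr 1
    funext k j
    change q (dnM n s (v k) (Fin.castLE hn j)) = v k j
    rw [dnM_apply, dif_pos (show ((Fin.castLE hn j : Fin n) : ℕ) < 2 from j.2), hqs]
    rfl
  rw [h4] at h3
  exact h3

end Pool.Agent.H926.T
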