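import Mathlib
import Pool.Agent.H926.T.Jobs4
import Pool.Agent.H926.Mum3

/-!
# S_D1: the Hodge Lie algebra of a fourfold of Mumford's type
-/

set_option linter.unusedSectionVars false

namespace Pool.Agent.H926.T.D1L

open Module LinearMap Pool.Agent.W548.Odd

noncomputable section

variable {V : Type*} [AddCommGroup V] [Module ℂ V] [FiniteDimensional ℂ V]
  {G : Submodule ℂ (End ℂ V)} {E : V →ₗ[ℂ] V →ₗ[ℂ] ℂ} {D N M p : End ℂ V}

/-- the fourth power of `ad q` for `q ^ 3 = 0` -/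
theorem ad4 {G : Submodule ℂ (End ℂ V)} (hbr : ∀ a ∈ G, ∀ b ∈ G, a * b - b * a ∈ G)
    {q y : End ℂ V} (hq : q ∈ G) (hy : y ∈ G) (h3 : q * q * q = 0) :
    q * q * y * (q * q) ∈ G := by
  have h1 := hbr q hq _ (hbr q hq _ (hbr q hq _ (hbr q hq _ hy)))
  have e : q * (q * (q * (q * y - y * q) - (q * y - y * q) * q) -
      (q * (q * y - y * q) - (q * y - y * q) * q) * q) -
      (q * (q * (q * y - y * q) - (q * y - y * q) * q) -
      (q * (q * y - y * q) - (q * y - y * q) * q) * q) * q =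
      q * (q * q * q) * y - 4 • ((q * q * q) * y * q) + 6 • (q * q * y * (q * q))
        - 4 • (q * y * (q * q * q)) + y * (q * q * q) * q := by
    noncomm_ring
  rw [e, h3] at h1
  have e2 : q * 0 * y - 4 • (0 * y * q) + 6 • (q * q * y * (q * q)) - 4 • (q * y * 0) + y * 0 * q =
      (6 : ℂ) • (q * q * y * (q * q)) := by
    simp only [mul_zero, zero_mul, smul_zero, zero_add, sub_zero, add_zero]
    rw [← Nat.cast_smul_eq_nsmul ℂ]
    norm_num
  rw [e2] at h1
  have h2 := G.smul_mem (1 / 6 : ℂ) h1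
  rw [smul_smul] at h2
  norm_num at h2
  exact h2

section
variable (d : Dbl E p M N)
include d

theorem wed_sq {u v : V} (hu : p u = u) (hv : p v = v) (huu : E (M u) u = 0) (huv : E (M u) v = 0)
    (hvu : E (M v) u = 0) (hvv : E (M v) v = 1) (x : V) :
    wed E p M N u v (wed E p M N u v x) = -(E (M u) (p x) • u + E (M u) (N x) • M u) := by
  have hNu : N u = 0 := by rw [← hu, d.T'p_]
  have hNv : N v = 0 := by rw [← hv, d.T'p_]
  have hNMu : N (M u) = u := by rw [d.TT_, hu]
  have hNMv : N (M v) = v := by rw [d.TT_, hv]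
  have h1 : ∀ x, wed E p M N u v x = E (M u) (p x) • v - E (M v) (p x) • u +
      (E (M u) (N x) • M v - E (M v) (N x) • M u) := by
    intro x
    rw [wed_apply, hu, hv]
  have h2 : p (wed E p M N u v x) = E (M u) (p x) • v - E (M v) (p x) • u := by
    rw [h1]
    simp only [map_add, map_sub, map_smul, hu, hv, d.pT_, smul_zero, sub_zero, add_zero]
  have h3 : N (wed E p M N u v x) = E (M u) (N x) • v - E (M v) (N x) • u := by
    rw [h1]
    simp only [map_add, map_sub, map_smul, hNu, hNv, hNMu, hNMv, smul_zero, sub_zero, zero_add]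
  rw [h1 (wed E p M N u v x), h2, h3]
  simp only [map_sub, map_smul, huu, huv, hvu, hvv, smul_eq_mul, mul_zero, mul_one, sub_zero,
    zero_smul, zero_sub]
  abel

theorem wed_cube {u v : V} (hu : p u = u) (hv : p v = v) (huu : E (M u) u = 0)
    (huv : E (M u) v = 0) (hvu : E (M v) u = 0) (hvv : E (M v) v = 1) :
    wed E p M N u v * wed E p M N u v * wed E p M N u v = 0 := by
  have hNu : N u = 0 := by rw [← hu, d.T'p_]
  have hNMu : N (M u) = u := by rw [d.TT_, hu]
  refine LinearMap.ext fun x => ?_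
  have h5 := congrArg (wed E p M N u v) (wed_sq d hu hv huu huv hvu hvv x)
  rw [mul_assoc, Module.End.mul_apply, Module.End.mul_apply, h5, LinearMap.zero_apply, map_neg]
  rw [wed_apply, hu, hv]
  simp only [map_add, map_smul, hu, d.pT_, hNu, hNMu, smul_zero, add_zero, zero_add, huu, hvu,
    smul_eq_mul, mul_zero, zero_smul, sub_zero, neg_zero]

theorem iso_zero (hbr : ∀ a ∈ G, ∀ b ∈ G, a * b - b * a ∈ G)
    (hw : ∀ u v, wed E p M N u v ∈ G)
    (hnr : ∀ R ∈ G, p * R = R → R * p = 0 → rk R ≠ 1) {y : End ℂ V} (hy : y ∈ G)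
    (h1 : p * y = y) (h2 : y * p = 0) {u v : V} (hu : p u = u) (hv : p v = v)
    (huu : E (M u) u = 0) (huv : E (M u) v = 0) (hvu : E (M v) u = 0) (hvv : E (M v) v = 1) :
    E (M u) (y (M u)) = 0 := by
  by_contra hc
  have hm := ad4 hbr (hw u v) hy (wed_cube d hu hv huu huv hvu hvv)
  have hyu : y u = 0 := by
    have := LinearMap.congr_fun h2 u
    rw [Module.End.mul_apply, hu] at this
    exact this
  have hpy : ∀ x, p (y x) = y x := fun x => LinearMap.congr_fun h1 x
  have hNp : ∀ x, N (p x) = 0 := d.T'p_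
  have hR : wed E p M N u v * wed E p M N u v * y * (wed E p M N u v * wed E p M N u v) =
      E (M u) (y (M u)) • ((E (M u)).comp N).smulRight u := by
    refine LinearMap.ext fun x => ?_
    rw [Module.End.mul_apply, Module.End.mul_apply, Module.End.mul_apply, Module.End.mul_apply,
      wed_sq d hu hv huu huv hvu hvv, wed_sq d hu hv huu huv hvu hvv]
    have h3 : y (-(E (M u) (p x) • u + E (M u) (N x) • M u)) = -(E (M u) (N x) • y (M u)) := by
      rw [map_neg, map_add, map_smul, map_smul, hyu, smul_zero, zero_add]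
    rw [h3]
    have h4 : p (-(E (M u) (N x) • y (M u))) = -(E (M u) (N x) • y (M u)) := by
      rw [map_neg, map_smul, hpy]
    have h5 : N (-(E (M u) (N x) • y (M u))) = 0 := by
      rw [← h4, hNp]
    rw [h4, h5, map_neg, map_smul, map_zero, zero_smul, add_zero]
    rw [LinearMap.smul_apply, LinearMap.smulRight_apply, LinearMap.comp_apply, smul_smul,
      neg_smul, neg_neg, smul_eq_mul, mul_comm]
  rw [hR] at hm
  set f : V →ₗ[ℂ] ℂ := E (M u) (y (M u)) • ((E (M u)).comp N) with hf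
  have hRf : E (M u) (y (M u)) • ((E (M u)).comp N).smulRight u = f.smulRight u := by
    refine LinearMap.ext fun x => ?_
    rw [LinearMap.smul_apply, LinearMap.smulRight_apply, LinearMap.smulRight_apply, hf,
      LinearMap.smul_apply, smul_eq_mul, mul_smul]
  rw [hRf] at hm
  have hu0 : u ≠ 0 := by
    rintro rfl
    apply hc
    rw [map_zero, map_zero, LinearMap.zero_apply]
  have hf0 : f ≠ 0 := by
    intro h0
    have h3 := LinearMap.congr_fun h0 (M (y (M u)))
    rw [hf, LinearMap.smul_apply, LinearMap.comp_apply, d.TT_, hpy, LinearMap.zero_apply,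
      smul_eq_mul] at h3
    exact (mul_ne_zero hc hc) h3
  refine hnr _ hm ?_ ?_ ?_
  · refine LinearMap.ext fun x => ?_
    rw [Module.End.mul_apply, LinearMap.smulRight_apply, map_smul, hu]
  · refine LinearMap.ext fun x => ?_
    rw [Module.End.mul_apply, LinearMap.smulRight_apply, hf, LinearMap.smul_apply,
      LinearMap.comp_apply, hNp, map_zero, smul_zero, zero_smul, LinearMap.zero_apply]
  · unfold rk
    rw [LinearMap.range_smulRight_apply hf0, finrank_span_singleton hu0]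

/-- **step 1** -/
theorem up_scal (hbr : ∀ a ∈ G, ∀ b ∈ G, a * b - b * a ∈ G) (hsk : ∀ g ∈ G, Skw E g)
    (h4 : finrank ℂ (LinearMap.range p) = 4) (hw : ∀ u v, wed E p M N u v ∈ G)
    (hnr : ∀ R ∈ G, p * R = R → R * p = 0 → rk R ≠ 1) {y : End ℂ V} (hy : y ∈ G)
    (h1 : p * y = y) (h2 : y * p = 0) : ∃ c : ℂ, y = c • N := by
  have hex := d.exists_on
  rw [h4] at hex
  obtain ⟨w, w1, w2, w3⟩ := hex
  have hpy : ∀ x, p (y x) = y x := fun x => LinearMap.congr_fun h1 x
  -- expansion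
  have hexp : ∀ x, p x = x → x = ∑ i, E (M (w i)) x • w i := by
    intro x hx
    have hx' := w3 x hx
    clear hx
    induction hx' using Submodule.span_induction with
    | mem x hx =>
      obtain ⟨j, rfl⟩ := hx
      simp only [w2, ite_smul, one_smul, zero_smul]
      rw [Finset.sum_ite_eq' Finset.univ j, if_pos (Finset.mem_univ _)]
    | zero => simp
    | add a b _ _ ha hb =>
      simp only [map_add, add_smul, Finset.sum_add_distrib]
      rw [← ha, ← hb]
    | smul c a _ ha =>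
      simp only [map_smul, smul_eq_mul, mul_smul]
      rw [← Finset.smul_sum, ← ha]
  -- symmetry
  have hsym : ∀ i j, E (M (w i)) (y (M (w j))) = E (M (w j)) (y (M (w i))) := by
    intro i j
    have h3 := hsk y hy (M (w j)) (M (w i))
    rw [d.anti (M (w i)) (y (M (w j))), h3, neg_neg]
  have key : ∀ i j, i ≠ j → ∀ ε : ℂ, ε * ε = -1 →
      E (M (w i)) (y (M (w i))) + ε * (2 * E (M (w i)) (y (M (w j)))) -
        E (M (w j)) (y (M (w j))) = 0 := by
    intro i j hij ε hε
    obtain ⟨k, hki, hkj⟩ : ∃ k : Fin 4, k ≠ i ∧ k ≠ j := by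
      revert i j; decide
    have h5 := iso_zero d hbr hw hnr hy h1 h2 (u := w i + ε • w j) (v := w k)
      (by rw [map_add, map_smul, w1, w1]) (w1 k)
      (by
        simp only [map_add, map_smul, LinearMap.add_apply, LinearMap.smul_apply, smul_eq_mul, w2,
          if_neg hij, if_neg hij.symm, if_true]
        linear_combination hε)
      (by
        simp only [map_add, map_smul, LinearMap.add_apply, LinearMap.smul_apply, smul_eq_mul, w2,
          if_neg hki.symm, if_neg hkj.symm]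
        ring)
      (by
        simp only [map_add, map_smul, smul_eq_mul, w2, if_neg hki, if_neg hkj]
        ring)
      (by rw [w2, if_pos rfl])
    simp only [map_add, map_smul, LinearMap.add_apply, LinearMap.smul_apply, smul_eq_mul] at h5
    rw [hsym j i] at h5
    linear_combination h5 - E (M (w j)) (y (M (w j))) * hε
  have hdiag : ∀ i j, i ≠ j → E (M (w i)) (y (M (w j))) = 0 ∧
      E (M (w i)) (y (M (w i))) = E (M (w j)) (y (M (w j))) := by
    intro i j hij
    have k1 := key i j hij Complex.I Complex.I_mul_I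
    have k2 := key i j hij (-Complex.I) (by rw [neg_mul_neg, Complex.I_mul_I])
    constructor
    · have h5 : (4 * Complex.I) * E (M (w i)) (y (M (w j))) = 0 := by linear_combination k1 - k2
      exact (mul_eq_zero.1 h5).resolve_left (mul_ne_zero (by norm_num) Complex.I_ne_zero)
    · linear_combination (1 / 2 : ℂ) * k1 + (1 / 2 : ℂ) * k2
  refine ⟨E (M (w 0)) (y (M (w 0))), ?_⟩
  set c := E (M (w 0)) (y (M (w 0))) with hc
  have hcc : ∀ i, E (M (w i)) (y (M (w i))) = c := by
    intro i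
    by_cases h0 : i = 0
    · rw [h0]
    · exact (hdiag i 0 h0).2
  have hyw : ∀ j, y (M (w j)) = c • w j := by
    intro j
    rw [hexp _ (hpy (M (w j)))]
    rw [Finset.sum_eq_single j]
    · rw [hcc]
    · intro i _ hij
      rw [(hdiag i j hij).1, zero_smul]
    · intro hj
      exact absurd (Finset.mem_univ _) hj
  have hyz : ∀ z, p z = z → y (M z) = c • z := by
    intro z hz
    rw [hexp z hz]
    simp only [map_sum, map_smul, hyw, Finset.smul_sum]
    refine Finset.sum_congr rfl fun i _ => ?_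
    rw [smul_comm]
  refine LinearMap.ext fun x => ?_
  have h5 : x = p x + M (N x) := by
    rw [d.TT'_]
    abel
  have h6 : y (p x) = 0 := LinearMap.congr_fun h2 x
  rw [LinearMap.smul_apply]
  conv_lhs => rw [h5]
  rw [map_add, h6, zero_add, hyz _ (d.pT'_ x)]

end

section
variable (d : Dbl E p M N)
include d

theorem decomp (t : Trp D N M) (hp : p = (1 / 2 : ℂ) • (1 + D)) (hN : N ∈ G) (hM : M ∈ G)
    (hD : D ∈ G) (hD0 : D ≠ 0)
    (hbr : ∀ a ∈ G, ∀ b ∈ G, a * b - b * a ∈ G) (hsk : ∀ g ∈ G, Skw E g)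
    (h4 : finrank ℂ (LinearMap.range p) = 4) (hw : ∀ u v, wed E p M N u v ∈ G)
    (hnr : ∀ R ∈ G, p * R = R → R * p = 0 → rk R ≠ 1) {y : End ℂ V} (hy : y ∈ G) :
    ∃ (c₀ c₁ c₂ : ℂ) (b : End ℂ V), b * D = D * b ∧ b * N = N * b ∧ b * M = M * b ∧
      y = c₀ • D + c₁ • N + c₂ • M + b := by
  -- (1)
  have s1 : ∀ y ∈ G, D * y = y → y * D = -y → ∃ c : ℂ, y = c • N := by
    intro y hy h1 h2
    refine up_scal d hbr hsk h4 hw hnr hy ?_ ?_
    · rw [hp, smul_mul_assoc, add_mul, one_mul, h1, ← two_smul ℂ y, smul_smul]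
      norm_num
    · rw [hp, mul_smul_comm, mul_add, mul_one, h2, add_neg_cancel, smul_zero]
  -- (2)
  have s2 : ∀ y ∈ G, D * y = -y → y * D = y → ∃ c : ℂ, y = c • M := by
    intro y hy h1 h2
    have h3 := hbr N hN _ (hbr N hN y hy)
    have h4 : N * (N * y - y * N) - (N * y - y * N) * N = (-2 : ℂ) • (N * y * N) := by
      have : N * (N * y - y * N) - (N * y - y * N) * N =
        (N * N) * y - (2 : ℕ) • (N * y * N) + y * (N * N) := by noncomm_ring
      rw [this, t.nn, zero_mul, mul_zero, zero_sub, add_zero, ← Nat.cast_smul_eq_nsmul ℂ,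
        ← neg_smul]
      norm_num
    rw [h4] at h3
    have h5 : N * y * N ∈ G := by
      have h6 := G.smul_mem (-1 / 2 : ℂ) h3
      rw [smul_smul] at h6
      norm_num at h6
      exact h6
    obtain ⟨c, hc⟩ := s1 _ h5 (by rw [← mul_assoc, ← mul_assoc, t.dn])
      (by rw [mul_assoc, t.nd, mul_neg])
    refine ⟨c, ?_⟩
    have h6 : M * (N * y * N) * M = y := by
      have h7 : M * N = 1 - p := by rw [t.mn, hp]
      have h8 : N * M = p := by rw [t.nm, hp]
      have h9 : p * y = 0 := by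
        rw [hp, smul_mul_assoc, add_mul, one_mul, h1, add_neg_cancel, smul_zero]
      have h10 : y * p = y := by
        rw [hp, mul_smul_comm, mul_add, mul_one, h2, ← two_smul ℂ y, smul_smul]
        norm_num
      calc M * (N * y * N) * M = (M * N) * y * (N * M) := by noncomm_ring
        _ = (1 - p) * y * p := by rw [h7, h8]
        _ = y := by rw [sub_mul, one_mul, h9, sub_zero, h10]
    rw [hc, mul_smul_comm, smul_mul_assoc, t.mnm] at h6
    exact h6.symm
  -- (3)
  have s3 : ∀ y ∈ G, D * y = y * D → ∃ (c₀ : ℂ) (b : End ℂ V), b * D = D * b ∧ b * N = N * b ∧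
      b * M = M * b ∧ y = c₀ • D + b := by
    intro y hy h1
    obtain ⟨c, hc⟩ := s1 (N * y - y * N) (hbr N hN y hy)
      (by rw [mul_sub, ← mul_assoc, t.dn, ← mul_assoc, h1, mul_assoc, t.dn])
      (by
        rw [sub_mul, mul_assoc, ← h1, ← mul_assoc, t.nd, mul_assoc y, t.nd]
        noncomm_ring)
    obtain ⟨y', hy'⟩ : ∃ y', y' = y + (c / 2) • D := ⟨_, rfl⟩
    have hy'G : y' ∈ G := by
      rw [hy']
      exact G.add_mem hy (G.smul_mem _ hD)
    have hDy : D * y' = y' * D := by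
      rw [hy', mul_add, add_mul, h1, mul_smul_comm, smul_mul_assoc]
    have hNy : N * y' = y' * N := by
      rw [← sub_eq_zero, hy']
      have : N * (y + (c / 2) • D) - (y + (c / 2) • D) * N =
        (N * y - y * N) + (c / 2) • (N * D - D * N) := by
        rw [mul_add, add_mul, mul_smul_comm, smul_mul_assoc, smul_sub]
        abel
      rw [this, hc, t.nd, t.dn]
      module
    obtain ⟨c', hc'⟩ := s2 (M * y' - y' * M) (hbr M hM y' hy'G)
      (by
        rw [mul_sub, ← mul_assoc, t.dm, ← mul_assoc, hDy, mul_assoc y', t.dm]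
        noncomm_ring)
      (by rw [sub_mul, mul_assoc, ← hDy, ← mul_assoc, t.md, mul_assoc y', t.md])
    have h5 : c' • D = 0 := by
      have h6 : (N * M - M * N) * y' - y' * (N * M - M * N) = 0 := by
        rw [t.sub, hDy, sub_self]
      have h7 : (N * M - M * N) * y' - y' * (N * M - M * N) =
          (N * (M * y' - y' * M) - (M * y' - y' * M) * N) +
          ((N * y' - y' * N) * M - M * (N * y' - y' * N)) := by noncomm_ring
      rw [h7, hc', hNy, sub_self, zero_mul, mul_zero, sub_zero, add_zero, mul_smul_comm,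
        smul_mul_assoc, ← smul_sub, t.sub] at h6
      exact h6
    have hc0 : c' = 0 := (smul_eq_zero.1 h5).resolve_right hD0
    have hMy : M * y' = y' * M := by
      rw [← sub_eq_zero, hc', hc0, zero_smul]
    refine ⟨-(c / 2), y', hDy.symm, hNy.symm, hMy.symm, ?_⟩
    rw [hy']
    module
  -- (4)
  have dd := t.dd
  obtain ⟨z, hz⟩ : ∃ z, z = D * y - y * D := ⟨_, rfl⟩
  obtain ⟨x, hx⟩ : ∃ x, x = D * z - z * D := ⟨_, rfl⟩
  have hzG : z ∈ G := by rw [hz]; exact hbr D hD y hy
  have hxG : x ∈ G := by rw [hx]; exact hbr D hD z hzG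
  have hDz : D * z = y - D * y * D := by
    rw [hz, mul_sub, ← mul_assoc, dd, one_mul, ← mul_assoc]
  have hzD : z * D = D * y * D - y := by
    rw [hz, sub_mul, mul_assoc y, dd, mul_one]
  have hx2 : x = (2 : ℂ) • (y - D * y * D) := by
    rw [hx, hDz, hzD]
    module
  have hDx : D * x = (2 : ℂ) • z := by
    rw [hx2, mul_smul_comm, mul_sub, ← mul_assoc, ← mul_assoc, dd, one_mul, hz]
  have hxD : x * D = -((2 : ℂ) • z) := by
    rw [hx2, smul_mul_assoc, sub_mul, mul_assoc (D * y), dd, mul_one, hz]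
    module
  have hDz' : D * z = (1 / 2 : ℂ) • x := by
    rw [hDz, hx2, smul_smul]
    norm_num
  have hzD' : z * D = -((1 / 2 : ℂ) • x) := by
    rw [hzD, hx2, smul_smul]
    norm_num
  obtain ⟨c₁, h1⟩ := s1 ((1 / 8 : ℂ) • (x + (2 : ℂ) • z))
    (G.smul_mem _ (G.add_mem hxG (G.smul_mem _ hzG)))
    (by
      rw [mul_smul_comm, mul_add, mul_smul_comm, hDx, hDz']
      module)
    (by
      rw [smul_mul_assoc, add_mul, smul_mul_assoc, hxD, hzD']
      module)
  obtain ⟨c₂, h2⟩ := s2 ((1 / 8 : ℂ) • (x - (2 : ℂ) • z))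
    (G.smul_mem _ (G.sub_mem hxG (G.smul_mem _ hzG)))
    (by
      rw [mul_smul_comm, mul_sub, mul_smul_comm, hDx, hDz']
      module)
    (by
      rw [smul_mul_assoc, sub_mul, smul_mul_assoc, hxD, hzD']
      module)
  obtain ⟨c₀, b, b1, b2, b3, h3⟩ := s3 (y - (1 / 4 : ℂ) • x)
    (G.sub_mem hy (G.smul_mem _ hxG))
    (by
      have e1 : D * y = z + y * D := by
        rw [hz]
        abel
      rw [mul_sub, sub_mul, mul_smul_comm, smul_mul_assoc, hDx, hxD, e1]
      module)
  refine ⟨c₀, c₁, c₂, b, b1, b2, b3, ?_⟩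
  have e : y = (y - (1 / 4 : ℂ) • x) + (1 / 8 : ℂ) • (x + (2 : ℂ) • z) +
      (1 / 8 : ℂ) • (x - (2 : ℂ) • z) := by module
  rw [h1, h2, h3] at e
  rw [e]
  abel

end

end

end Pool.Agent.H926.T.D1L

namespace Pool.Agent.H926.T

open Matrix Module Pool.Agent.Y90 Pool.Agent.W437.HC Pool.Agent.W437.HD
  Pool.Agent.TH504.CB
open Pool.Agent.W548.Odd hiding cv
open Pool.Agent.H204R3.SP (Kills)
open Pool.Agent.Y91.JP (trSt trace_inv)

noncomputable section

theorem s_d1 : S_D1 := by
  intro g Z h hM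
  obtain ⟨N, hN, M, hM', t, D₁, hD₁, N₁, hN₁, M₁, hM₁, t₁, D₂, hD₂, N₂, hN₂, M₂, hM₂, t₂, c1, c2,
    c3⟩ := hM.three h
  have hOm2 : Om g ℂ * Om g ℂ = -1 := Om_sq ℂ
  have hDG : ph (Fin g ⊕ Fin g) (DZ Z) ∈ GG (LZ Z) := mem_GG.2 DZ_mem
  have hsk : ∀ y ∈ GG (LZ Z), Skw (Pool.Agent.Y90.om g) y := by
    intro y hy x x'
    obtain ⟨X, hX, rfl⟩ := exists_GG hy
    exact eq_neg_of_add_eq_zero_left (h.om_sp hX x x')
  have htr : LinearMap.trace ℂ (Fin g ⊕ Fin g → ℂ) (ph (Fin g ⊕ Fin g) (DZ Z)) = 0 :=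
    trace_inv h.setup (trSt hOm2) hDG
  have d := dbl_of_trp (E := Pool.Agent.Y90.om g) om_anti om_nd t (hsk _ hN) (hsk _ hM')
  have hw := three_wed (E := Pool.Agent.Y90.om g) om_anti om_nd hsk (hM.fr h) t₁ t₂ t htr
    hD₁ hN₁ hM₁ hD₂ hN₂ hM₂ hN hM' c3
    ⟨c1.1.symm, c1.2.2.1.symm, c1.2.1.symm, c1.2.2.2.symm⟩
    ⟨c2.1.symm, c2.2.2.1.symm, c2.2.1.symm, c2.2.2.2.symm⟩
  refine ⟨N, hN, M, hM', t, fun y hy => ?_⟩
  obtain ⟨D, hD⟩ : ∃ D, D = ph (Fin g ⊕ Fin g) (DZ Z) := ⟨_, rfl⟩
  have hnt : Nontrivial (Fin g ⊕ Fin g → ℂ) :=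
    Module.nontrivial_of_finrank_pos (R := ℂ) (by rw [hM.fr h]; omega)
  have hD0 : ph (Fin g ⊕ Fin g) (DZ Z) ≠ 0 := by
    intro h0
    have h1 := t.dd
    rw [h0, mul_zero] at h1
    exact zero_ne_one h1
  refine D1L.decomp d t rfl hN hM' hDG hD0 ?_ hsk ?_ hw ?_ hy
  · intro a ha b hb
    obtain ⟨A, hA, rfl⟩ := exists_GG ha
    obtain ⟨B, hB, rfl⟩ := exists_GG hb
    rw [← map_mul, ← map_mul, ← map_sub]
    exact mem_GG.2 (LZ_br hA hB)
  · exact rk_half t.dd htr (m := 4) (by rw [hM.fr h])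
  · intro R hR r1 r2 r3
    obtain ⟨A, hA, rfl⟩ := exists_GG hR
    have q1 : ph (Fin g ⊕ Fin g) (DZ Z) * ph (Fin g ⊕ Fin g) A = ph (Fin g ⊕ Fin g) A := by
      have h1 : ph (Fin g ⊕ Fin g) (DZ Z) =
          (2 : ℂ) • ((1 / 2 : ℂ) • (1 + ph (Fin g ⊕ Fin g) (DZ Z))) - 1 := by
        rw [smul_smul]
        norm_num
      rw [h1, sub_mul, smul_mul_assoc, r1, one_mul, two_smul, add_sub_cancel_right]
    have q2 : ph (Fin g ⊕ Fin g) A * ph (Fin g ⊕ Fin g) (DZ Z) = -ph (Fin g ⊕ Fin g) A := by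
      have h1 : ph (Fin g ⊕ Fin g) (DZ Z) =
          (2 : ℂ) • ((1 / 2 : ℂ) • (1 + ph (Fin g ⊕ Fin g) (DZ Z))) - 1 := by
        rw [smul_smul]
        norm_num
      rw [h1, mul_sub, mul_smul_comm, r2, smul_zero, mul_one, zero_sub]
    apply hM.nrk
    refine ⟨DZ Z, Or.inl rfl, A, hA, ?_, ?_, ?_⟩
    · apply (ph (Fin g ⊕ Fin g)).injective
      rw [map_mul]
      exact q1
    · apply (ph (Fin g ⊕ Fin g)).injective
      rw [map_mul, map_neg]
      exact q2
    · rw [← r3]
      unfold rk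
      rw [Submodule.map_top]
      rfl

end

end Pool.Agent.H926.T
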