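import Mathlib
import Pool.Agent.H926.T.Jobs4

/-!
# S_D2: an invariant quadrilinear form which is not invariant under the symplectic Lie algebra
(written by helper800)
-/

set_option linter.unusedSectionVars false
set_option linter.unusedSimpArgs false

namespace Pool.Agent.H926.T.H800D2

open Module Pool.Agent.H926
open Pool.Agent.H204R3.SP (Kills)

noncomputable section

section kap

variable {V : Type} [AddCommGroup V] [Module ℂ V] (E : V →ₗ[ℂ] V →ₗ[ℂ] ℂ) (D N M : End ℂ V)

/-- the form `κ` -/
def kap (u v w z : V) : ℂ :=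
  (1 / 2) * (E (D u) v * E (D w) z) + E (N u) v * E (M w) z + E (M u) v * E (N w) z

theorem kap_add1 (u u' v w z : V) :
    kap E D N M (u + u') v w z = kap E D N M u v w z + kap E D N M u' v w z := by
  unfold kap
  simp only [map_add, LinearMap.add_apply]
  ring

theorem kap_add2 (u v v' w z : V) :
    kap E D N M u (v + v') w z = kap E D N M u v w z + kap E D N M u v' w z := by
  unfold kap
  simp only [map_add]
  ring

theorem kap_add3 (u v w w' z : V) :
    kap E D N M u v (w + w') z = kap E D N M u v w z + kap E D N M u v w' z := by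
  unfold kap
  simp only [map_add, LinearMap.add_apply]
  ring

theorem kap_add4 (u v w z z' : V) :
    kap E D N M u v w (z + z') = kap E D N M u v w z + kap E D N M u v w z' := by
  unfold kap
  simp only [map_add]
  ring

theorem kap_smul1 (c : ℂ) (u v w z : V) :
    kap E D N M (c • u) v w z = c * kap E D N M u v w z := by
  unfold kap
  simp only [map_smul, LinearMap.smul_apply, smul_eq_mul]
  ring

theorem kap_smul2 (c : ℂ) (u v w z : V) :
    kap E D N M u (c • v) w z = c * kap E D N M u v w z := by
  unfold kap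
  simp only [map_smul, smul_eq_mul]
  ring

theorem kap_smul3 (c : ℂ) (u v w z : V) :
    kap E D N M u v (c • w) z = c * kap E D N M u v w z := by
  unfold kap
  simp only [map_smul, LinearMap.smul_apply, smul_eq_mul]
  ring

theorem kap_smul4 (c : ℂ) (u v w z : V) :
    kap E D N M u v w (c • z) = c * kap E D N M u v w z := by
  unfold kap
  simp only [map_smul, smul_eq_mul]
  ring

/-- the quadrilinear form -/
def gg : MultilinearMap ℂ (fun _ : Fin 4 => V) ℂ where
  toFun v := kap E D N M (v 0) (v 2) (v 1) (v 3) - kap E D N M (v 1) (v 2) (v 0) (v 3)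
  map_update_add' := by
    intro dec v i x y
    have hd : dec = instDecidableEqFin 4 := Subsingleton.elim _ _
    subst hd
    fin_cases i
    · simp [Function.update_apply, kap_add1, kap_add2, kap_add3, kap_add4]
      ring
    · simp [Function.update_apply, kap_add1, kap_add2, kap_add3, kap_add4]
      ring
    · simp [Function.update_apply, kap_add1, kap_add2, kap_add3, kap_add4]
      ring
    · simp [Function.update_apply, kap_add1, kap_add2, kap_add3, kap_add4]
      ring
  map_update_smul' := by
    intro dec v i c x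
    have hd : dec = instDecidableEqFin 4 := Subsingleton.elim _ _
    subst hd
    fin_cases i
    · simp [Function.update_apply, kap_smul1, kap_smul2, kap_smul3, kap_smul4]
      ring
    · simp [Function.update_apply, kap_smul1, kap_smul2, kap_smul3, kap_smul4]
      ring
    · simp [Function.update_apply, kap_smul1, kap_smul2, kap_smul3, kap_smul4]
      ring
    · simp [Function.update_apply, kap_smul1, kap_smul2, kap_smul3, kap_smul4]
      ring

theorem gg_apply (v : Fin 4 → V) : gg E D N M v =
    kap E D N M (v 0) (v 2) (v 1) (v 3) - kap E D N M (v 1) (v 2) (v 0) (v 3) := rfl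

variable {E D N M}

theorem kap_sw (u v w z : V) : kap E D N M w z u v = kap E D N M u v w z := by
  unfold kap
  ring

theorem kap_s1 (anti : ∀ x y, E x y = -E y x) (sD : Skw E D) (sN : Skw E N) (sM : Skw E M)
    (u v w z : V) : kap E D N M v u w z = kap E D N M u v w z := by
  have h : ∀ a : End ℂ V, Skw E a → E (a v) u = E (a u) v := by
    intro a ha
    rw [ha v u, anti v (a u), neg_neg]
  unfold kap
  rw [h D sD, h N sN, h M sM]

theorem sum_upd (g : MultilinearMap ℂ (fun _ : Fin 4 => V) ℂ) (y : End ℂ V) (v : Fin 4 → V) :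
    ∑ k, g (Function.update v k (y (v k))) = g ![y (v 0), v 1, v 2, v 3] +
      g ![v 0, y (v 1), v 2, v 3] + g ![v 0, v 1, y (v 2), v 3] + g ![v 0, v 1, v 2, y (v 3)] := by
  rw [Fin.sum_univ_four]
  have e0 : Function.update v 0 (y (v 0)) = ![y (v 0), v 1, v 2, v 3] := by
    funext k; fin_cases k <;> rfl
  have e1 : Function.update v 1 (y (v 1)) = ![v 0, y (v 1), v 2, v 3] := by
    funext k; fin_cases k <;> rfl
  have e2 : Function.update v 2 (y (v 2)) = ![v 0, v 1, y (v 2), v 3] := by
    funext k; fin_cases k <;> rfl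
  have e3 : Function.update v 3 (y (v 3)) = ![v 0, v 1, v 2, y (v 3)] := by
    funext k; fin_cases k <;> rfl
  rw [e0, e1, e2, e3]

theorem gg_kills (t : Trp D N M) (sN : Skw E N) (sM : Skw E M) (c₀ c₁ c₂ : ℂ) {b : End ℂ V}
    (sb : Skw E b) (bD : b * D = D * b) (bN : b * N = N * b) (bM : b * M = M * b) :
    Kills (c₀ • D + c₁ • N + c₂ • M + b) (gg E D N M) := by
  have sD : Skw E D := by
    rw [← t.sub]
    exact sN.br sM
  obtain ⟨y, hy⟩ : ∃ y, y = c₀ • D + c₁ • N + c₂ • M + b := ⟨_, rfl⟩
  rw [← hy]
  have sy : Skw E y := by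
    intro x z
    rw [hy]
    simp only [LinearMap.add_apply, LinearMap.smul_apply, map_add, map_smul, smul_eq_mul]
    rw [sD x z, sN x z, sM x z, sb x z]
    ring
  have hD : D * y - y * D = (2 * c₁) • N - (2 * c₂) • M := by
    rw [hy]
    simp only [mul_add, add_mul, mul_smul_comm, smul_mul_assoc, t.dn, t.nd, t.dm, t.md, t.dd, bD]
    module
  have hN : N * y - y * N = c₂ • D - (2 * c₀) • N := by
    rw [hy]
    simp only [mul_add, add_mul, mul_smul_comm, smul_mul_assoc, t.dn, t.nd, t.nn, bN]
    rw [← t.sub]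
    module
  have hM : M * y - y * M = (2 * c₀) • M - c₁ • D := by
    rw [hy]
    simp only [mul_add, add_mul, mul_smul_comm, smul_mul_assoc, t.dm, t.md, t.mm, bM]
    rw [← t.sub]
    module
  have key : ∀ (a w : End ℂ V), a * y - y * a = w → ∀ u v, E (a (y u)) v = E (w u) v - E (a u) (y v) := by
    intro a w h u v
    have h1 : a (y u) = w u + y (a u) := by
      rw [← h]
      simp
    rw [h1, map_add, LinearMap.add_apply, sy (a u) v]
    ring
  have kD : ∀ u v, E (D (y u)) v = 2 * c₁ * E (N u) v - 2 * c₂ * E (M u) v - E (D u) (y v) := by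
    intro u v
    rw [key D _ hD u v]
    simp only [LinearMap.sub_apply, LinearMap.smul_apply, map_sub, map_smul, smul_eq_mul]
  have kN : ∀ u v, E (N (y u)) v = c₂ * E (D u) v - 2 * c₀ * E (N u) v - E (N u) (y v) := by
    intro u v
    rw [key N _ hN u v]
    simp only [LinearMap.sub_apply, LinearMap.smul_apply, map_sub, map_smul, smul_eq_mul]
  have kM : ∀ u v, E (M (y u)) v = 2 * c₀ * E (M u) v - c₁ * E (D u) v - E (M u) (y v) := by
    intro u v
    rw [key M _ hM u v]
    simp only [LinearMap.sub_apply, LinearMap.smul_apply, map_sub, map_smul, smul_eq_mul]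
  have dk : ∀ u v w z, kap E D N M (y u) v w z + kap E D N M u (y v) w z +
      kap E D N M u v (y w) z + kap E D N M u v w (y z) = 0 := by
    intro u v w z
    unfold kap
    rw [kD u v, kD w z, kN u v, kN w z, kM u v, kM w z]
    ring
  intro v
  rw [sum_upd]
  simp only [gg_apply]
  have h1 := dk (v 0) (v 2) (v 1) (v 3)
  have h2 := dk (v 1) (v 2) (v 0) (v 3)
  simp only [Matrix.cons_val_zero, Matrix.cons_val_one, Matrix.cons_val]
  linear_combination h1 - h2

end kap

end

end Pool.Agent.H926.T.H800D2

namespace Pool.Agent.H926.T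

open Module Pool.Agent.H926.T.H800D2
open Pool.Agent.H204R3.SP (Kills)

theorem s_d2 : S_D2 := by
  intro V _ _ _ hV E anti nd D N M t tr sN sM
  have sD : Skw E D := by
    rw [← t.sub]
    exact sN.br sM
  have d := dbl_of_trp anti nd t sN sM
  obtain ⟨w, e, hw1, hw2, he1, he2⟩ := d.exists_basis
  have hcard : finrank ℂ V = 2 * finrank ℂ (LinearMap.range ((1 / 2 : ℂ) • (1 + D))) := by
    rw [finrank_eq_card_basis e]
    simp
  have h2 : 2 ≤ finrank ℂ (LinearMap.range ((1 / 2 : ℂ) • (1 + D))) := by omega
  obtain ⟨u, hu⟩ : ∃ u, u = w ⟨0, by omega⟩ := ⟨_, rfl⟩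
  obtain ⟨u', hu'⟩ : ∃ u', u' = w ⟨1, by omega⟩ := ⟨_, rfl⟩
  have pu : ((1 / 2 : ℂ) • (1 + D)) u = u := by rw [hu]; exact hw1 _
  have pu' : ((1 / 2 : ℂ) • (1 + D)) u' = u' := by rw [hu']; exact hw1 _
  have Suu : E (M u) u = 1 := by rw [hu, hw2, if_pos rfl]
  have Suu' : E (M u) u' = 0 := by
    rw [hu, hu', hw2, if_neg]
    intro h
    have := congrArg Fin.val h
    simp at this
  have Su'u' : E (M u') u' = 1 := by rw [hu', hw2, if_pos rfl]
  have Nu : N u = 0 := by rw [← pu, d.T'p_]
  have Du : D u = u := by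
    rw [← t.sub, LinearMap.sub_apply, Module.End.mul_apply, Module.End.mul_apply, Nu, map_zero,
      sub_zero, d.TT_, pu]
  have Euu : ∀ x, E x x = 0 := by
    intro x
    have h3 := anti x x
    have h4 : (2 : ℂ) * E x x = 0 := by linear_combination h3
    rcases mul_eq_zero.1 h4 with h5 | h5
    · norm_num at h5
    · exact h5
  have Euv : E u (M u') = 0 := by
    have h3 := sM u u'
    rw [Suu'] at h3
    linear_combination h3
  have NMu' : N (M u') = u' := by rw [d.TT_, pu']
  refine ⟨gg E D N M, ?_, ?_, ?_, u, (E u).smulRight u, fun v => rfl, ?_⟩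
  · intro v
    rw [gg_apply, gg_apply]
    have e0 : (Equiv.swap (0 : Fin 4) 1) 0 = 1 := by decide
    have e1 : (Equiv.swap (0 : Fin 4) 1) 1 = 0 := by decide
    have e2 : (Equiv.swap (0 : Fin 4) 1) 2 = 2 := by decide
    have e3 : (Equiv.swap (0 : Fin 4) 1) 3 = 3 := by decide
    rw [e0, e1, e2, e3]
    ring
  · intro v
    rw [gg_apply, gg_apply]
    have e0 : (Equiv.swap (2 : Fin 4) 3) 0 = 0 := by decide
    have e1 : (Equiv.swap (2 : Fin 4) 3) 1 = 1 := by decide
    have e2 : (Equiv.swap (2 : Fin 4) 3) 2 = 3 := by decide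
    have e3 : (Equiv.swap (2 : Fin 4) 3) 3 = 2 := by decide
    rw [e0, e1, e2, e3, kap_sw (v 1) (v 2) (v 0) (v 3), kap_sw (v 0) (v 2) (v 1) (v 3)]
    ring
  · intro c₀ c₁ c₂ b sb bD bN bM
    exact gg_kills t sN sM c₀ c₁ c₂ sb bD bN bM
  · intro hk
    have h3 := hk ![M u, M u', u, M u']
    rw [sum_upd] at h3
    have x0 : (E u).smulRight u (M u) = (-1 : ℂ) • u := by
      have h4 := sM u u
      rw [Suu] at h4
      show E u (M u) • u = _
      rw [show E u (M u) = -1 by linear_combination h4]
    have x1 : (E u).smulRight u (M u') = 0 := by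
      show E u (M u') • u = 0
      rw [Euv, zero_smul]
    have x2 : (E u).smulRight u u = 0 := by
      show E u u • u = 0
      rw [Euu, zero_smul]
    simp only [gg_apply, Matrix.cons_val_zero, Matrix.cons_val_one, Matrix.cons_val] at h3
    rw [x0, x1, x2] at h3
    unfold kap at h3
    have Eu'u : E u' u = 0 := by
      have h4 := d.iso u' u
      rw [pu, pu'] at h4
      exact h4
    have Euv2 : E u' (M u') = -1 := by
      have h4 := sM u' u'
      rw [Su'u'] at h4
      linear_combination h4
    simp only [map_zero, LinearMap.zero_apply, map_smul, LinearMap.smul_apply, smul_eq_mul, Nu, Du,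
      Euu, Suu, NMu', Euv, Euv2, Eu'u, mul_zero, zero_mul, add_zero, zero_add, sub_zero, mul_one] at h3
    rw [neg_mul_neg, one_mul] at h3
    exact one_ne_zero h3

end Pool.Agent.H926.T
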