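import Mathlib
import Pool.Agent.H926.T.Jobs4
import Pool.Agent.H926.T.Hp
import Pool.Agent.H926.T.Tra

/-!
# S_D4: descent for forms of type (2, 2) on the square (by helper632)
-/

set_option linter.unusedSectionVars false

namespace Pool.Agent.H926.T

open Matrix Module Pool.Agent.Y90 Pool.Agent.W437.HC Pool.Agent.W437.HD
  Pool.Agent.TH504.CB
open Pool.Agent.W548.Odd hiding cv
open Pool.Agent.W437.HP (cK cK_mul cK_one)
open Pool.Agent.H204R3.CM (IsHodge)
open Pool.Agent.H204R3.SP (Kills)

noncomputable section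

namespace D4L

open TraL

/-- the distribution of the four variables on the two factors -/
def tau : Fin 4 → Fin 2 := ![0, 0, 1, 1]

theorem perms : (Finset.univ.filter fun σ : Equiv.Perm (Fin 4) => ∀ k, tau (σ k) = tau k) =
    {1, Equiv.swap 0 1, Equiv.swap 2 3, Equiv.swap 0 1 * Equiv.swap 2 3} := by
  decide

section

variable {H T : Type} [AddCommGroup H] [Module ℚ H] [AddCommGroup T] [Module ℂ T]

/-- the form on the square -/
def sqf (g : MultilinearMap ℚ (fun _ : Fin 4 => H) ℚ) : (Fin 2 → H) [⋀^Fin 4]→ₗ[ℚ] ℚ :=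
  MultilinearMap.alternatization (g.compLinearMap fun k => LinearMap.proj (tau k))

theorem sqf_apply (g : MultilinearMap ℚ (fun _ : Fin 4 => H) ℚ) (v : Fin 4 → (Fin 2 → H)) :
    sqf g v = ∑ σ : Equiv.Perm (Fin 4), ((Equiv.Perm.sign σ : ℤ)) •
      g (fun k => v (σ k) (tau k)) := by
  simp only [sqf, MultilinearMap.alternatization_apply]
  refine Finset.sum_congr rfl fun σ _ => ?_
  rfl

theorem sqf_hodge (per : H →+ T) (g : MultilinearMap ℚ (fun _ : Fin 4 => H) ℚ)
    (ψ : MultilinearMap ℝ (fun _ : Fin 4 => T) ℝ)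
    (h1 : ∀ v : Fin 4 → H, ψ (fun l => per (v l)) = g v)
    (h2 : ∀ z : ℂ, ‖z‖ = 1 → ∀ u : Fin 4 → T, ψ (fun l => z • u l) = ψ u) :
    IsHodge (powPer per 2) (sqf g) := by
  let ψ' : MultilinearMap ℝ (fun _ : Fin 4 => (Fin 2 → T)) ℝ :=
    ψ.compLinearMap fun k => LinearMap.proj (tau k)
  refine ⟨(MultilinearMap.alternatization ψ').toMultilinearMap, ?_, ?_⟩
  · intro v
    change (MultilinearMap.alternatization ψ') (fun l => powPer per 2 (v l)) = _
    rw [MultilinearMap.alternatization_apply, sqf_apply, Rat.cast_sum]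
    refine Finset.sum_congr rfl fun σ _ => ?_
    have h3 : (ψ'.domDomCongr σ) (fun l => powPer per 2 (v l)) =
        ((g (fun k => v (σ k) (tau k)) : ℚ) : ℝ) := h1 (fun k => v (σ k) (tau k))
    rw [h3]
    rcases Int.units_eq_one_or (Equiv.Perm.sign σ) with hs | hs <;> simp [hs]
  · intro c hc u
    change (MultilinearMap.alternatization ψ') (fun l => c • u l) =
      (MultilinearMap.alternatization ψ') u
    rw [MultilinearMap.alternatization_apply, MultilinearMap.alternatization_apply]
    refine Finset.sum_congr rfl fun σ _ => ?_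
    have h3 : (ψ'.domDomCongr σ) (fun l => c • u l) = (ψ'.domDomCongr σ) u :=
      h2 c hc (fun k => u (σ k) (tau k))
    rw [h3]

theorem sqf_single (g : MultilinearMap ℚ (fun _ : Fin 4 => H) ℚ)
    (a1 : ∀ v : Fin 4 → H, g (fun k => v (Equiv.swap 0 1 k)) = -g v)
    (a2 : ∀ v : Fin 4 → H, g (fun k => v (Equiv.swap 2 3 k)) = -g v) (w : Fin 4 → H) :
    sqf g (fun k => Pi.single (tau k) (w k)) = 4 * g w := by
  rw [sqf_apply]
  have h0 : ∀ σ : Equiv.Perm (Fin 4), (¬ ∀ k, tau (σ k) = tau k) →
      ((Equiv.Perm.sign σ : ℤ)) • g (fun k => (Pi.single (tau (σ k)) (w (σ k)) : Fin 2 → H) (tau k))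
        = 0 := by
    intro σ hσ
    push Not at hσ
    obtain ⟨k, hk⟩ := hσ
    rw [MultilinearMap.map_coord_zero (m := fun k =>
      (Pi.single (tau (σ k)) (w (σ k)) : Fin 2 → H) (tau k)) g k
        (Pi.single_eq_of_ne (Ne.symm hk) _), smul_zero]
  have h1 : ∀ σ : Equiv.Perm (Fin 4), (∀ k, tau (σ k) = tau k) →
      ((Equiv.Perm.sign σ : ℤ)) • g (fun k => (Pi.single (tau (σ k)) (w (σ k)) : Fin 2 → H) (tau k))
        = ((Equiv.Perm.sign σ : ℤ)) • g (fun k => w (σ k)) := by
    intro σ hσ
    congr 2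
    funext k
    rw [← hσ k, Pi.single_eq_same]
  rw [← Finset.sum_filter_add_sum_filter_not Finset.univ
    (fun σ : Equiv.Perm (Fin 4) => ∀ k, tau (σ k) = tau k),
    Finset.sum_eq_zero (s := Finset.univ.filter fun σ : Equiv.Perm (Fin 4) =>
      ¬ ∀ k, tau (σ k) = tau k) (fun σ hσ => h0 σ (Finset.mem_filter.1 hσ).2), add_zero,
    Finset.sum_congr rfl (fun σ hσ => h1 σ (Finset.mem_filter.1 hσ).2), perms]
  have d1 : (1 : Equiv.Perm (Fin 4)) ∉ ({Equiv.swap 0 1, Equiv.swap 2 3,
    Equiv.swap 0 1 * Equiv.swap 2 3} : Finset (Equiv.Perm (Fin 4))) := by decide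
  have d2 : (Equiv.swap 0 1 : Equiv.Perm (Fin 4)) ∉ ({Equiv.swap 2 3,
    Equiv.swap 0 1 * Equiv.swap 2 3} : Finset (Equiv.Perm (Fin 4))) := by decide
  have d3 : (Equiv.swap 2 3 : Equiv.Perm (Fin 4)) ∉ ({
    Equiv.swap 0 1 * Equiv.swap 2 3} : Finset (Equiv.Perm (Fin 4))) := by decide
  rw [Finset.sum_insert d1, Finset.sum_insert d2, Finset.sum_insert d3, Finset.sum_singleton]
  have s1 : Equiv.Perm.sign (Equiv.swap 0 1 : Equiv.Perm (Fin 4)) = -1 :=
    Equiv.Perm.sign_swap (by decide)
  have s2 : Equiv.Perm.sign (Equiv.swap 2 3 : Equiv.Perm (Fin 4)) = -1 :=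
    Equiv.Perm.sign_swap (by decide)
  have s3 : Equiv.Perm.sign (Equiv.swap 0 1 * Equiv.swap 2 3 : Equiv.Perm (Fin 4)) = 1 := by
    rw [Equiv.Perm.sign_mul, s1, s2]; rfl
  have e3 : g (fun k => w ((Equiv.swap 0 1 * Equiv.swap 2 3 : Equiv.Perm (Fin 4)) k)) = g w := by
    have h3 := a2 (fun k => w (Equiv.swap 0 1 k))
    rw [a1 w] at h3
    rw [neg_neg] at h3
    exact h3
  rw [s1, s2, s3, e3, a1 w, a2 w, Equiv.Perm.sign_one]
  simp only [Equiv.Perm.coe_one, id_eq]
  have e0 : g (fun k => w k) = g w := rfl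
  rw [e0]
  push_cast
  simp only [one_smul, neg_smul, neg_neg]
  ring

end

end D4L

open TraL D4L

theorem s_d4 : S_D4 := by
  intro H T _ _ _ _ per G Z h A hC z hz g h1 h2 hg
  have hL : ∀ X ∈ LZ Z, act X (CF g) = 0 := fun X hX => act_of_kills (hg X hX)
  apply kills_of_act
  have key : ∀ l : ℂ →ₗ[ℚ] ℚ, act (matQ A z) (fun I => l (CF g I)) = 0 := by
    intro l
    set c : (Fin 4 → Fin G ⊕ Fin G) → ℚ := fun I => l (CF g I) with hc
    have hcJ : IsH (DJ (JR Z)) c := kill_lam gal_LZ hL l _ DZ_mem
    have hev : ∀ v : Fin 4 → Fin G ⊕ Fin G → ℚ, evalM c v = l (g (fun k => cv (v k))) := by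
      intro v
      rw [evalM_apply, lam_eval]
    obtain ⟨P, I, hP1, hP2, hI1, hI2⟩ := hC.ex
    let gg : MultilinearMap ℚ (fun _ : Fin 4 => H) ℚ :=
      (evalM c).compLinearMap (fun _ => A.toLinearMap)
    have hgg : ∀ v, gg v = l (g (fun k => cv (A (v k)))) := fun v => hev _
    have a1 : ∀ v : Fin 4 → H, gg (fun k => v (Equiv.swap 0 1 k)) = -gg v := by
      intro v
      rw [hgg, hgg, ← map_neg]
      congr 1
      exact h1 (fun k => cv (A (v k)))
    have a2 : ∀ v : Fin 4 → H, gg (fun k => v (Equiv.swap 2 3 k)) = -gg v := by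
      intro v
      rw [hgg, hgg, ← map_neg]
      congr 1
      exact h2 (fun k => cv (A (v k)))
    have hH : IsHodge (powPer per 2) (sqf gg) := by
      refine sqf_hodge per gg ((evalM (cst ℝ c)).compLinearMap (fun _ => I)) (fun v => ?_)
        (fun w hw u => ?_)
      · rw [MultilinearMap.compLinearMap_apply, MultilinearMap.compLinearMap_apply, evalM_apply,
          evalM_apply, evalF_castK]
        congr 1
        funext k
        change I (per (v k)) = fun i => (((A (v k)) i : ℚ) : ℝ)
        rw [← perA_apply (A := A), ← hP1, hI1]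
      · rw [MultilinearMap.compLinearMap_apply, MultilinearMap.compLinearMap_apply, evalM_apply,
          evalM_apply]
        have h1 : w.re = Real.cos w.arg ∧ w.im = Real.sin w.arg := by
          have h2 := Complex.norm_mul_cos_arg w
          have h3 := Complex.norm_mul_sin_arg w
          rw [hw, one_mul] at h2 h3
          exact ⟨h2.symm, h3.symm⟩
        have h2 : (fun k => I (w • u k)) = fun k => Real.cos w.arg • I (u k) +
            Real.sin w.arg • (JR Z *ᵥ I (u k)) := by
          funext k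
          rw [← hI1 (Real.cos w.arg • I (u k) + Real.sin w.arg • (JR Z *ᵥ I (u k))), map_add P,
            map_smul P, map_smul P, hP2, hI2, smul_rot, ← h1.1, ← h1.2, Complex.re_add_im]
        rw [h2]
        exact rot_of_act hC.sq ((act_real (J := JR Z) (D := DJ (JR Z)) rfl).1 hcJ) w.arg _
    have hk : ∀ w : Fin 4 → H, ∑ k, gg (Function.update w k (z (w k))) = 0 := by
      intro w
      have h3 := hz (sqf gg) hH (fun k => Pi.single (tau k) (w k))
      have h4 : ∀ k, (sqf gg).toMultilinearMap (Function.update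
          (fun k => (Pi.single (tau k) (w k) : Fin 2 → H)) k
            (dg 2 z (Pi.single (tau k) (w k)))) = 4 * gg (Function.update w k (z (w k))) := by
        intro k
        rw [← sqf_single gg a1 a2]
        change sqf gg _ = sqf gg _
        congr 1
        funext j
        by_cases hj : j = k
        · subst hj
          rw [Function.update_self, Function.update_self]
          funext i
          change z ((Pi.single (tau j) (w j) : Fin 2 → H) i) = _
          by_cases hi : i = tau j
          · subst hi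
            rw [Pi.single_eq_same, Pi.single_eq_same]
          · rw [Pi.single_eq_of_ne hi, Pi.single_eq_of_ne hi, map_zero]
        · rw [Function.update_of_ne hj, Function.update_of_ne hj]
      rw [Finset.sum_congr rfl (fun k _ => h4 k), ← Finset.mul_sum] at h3
      exact (mul_eq_zero.1 h3).resolve_left (by norm_num)
    apply eq_zero_of_evalF
    intro y
    rw [evalF_act]
    have h3 := hk (fun k => A.symm (y k))
    rw [← h3]
    refine Finset.sum_congr rfl fun k _ => ?_
    change _ = (evalM c).compLinearMap (fun _ => A.toLinearMap) _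
    rw [MultilinearMap.compLinearMap_apply, evalM_apply]
    congr 1
    funext l
    by_cases hl : l = k
    · subst hl
      rw [Function.update_self, Function.update_self]
      change _ = A (z (A.symm (y l)))
      rw [← matQ_mulVec, LinearEquiv.apply_symm_apply]
    · rw [Function.update_of_ne hl, Function.update_of_ne hl]
      change _ = A (A.symm (y l))
      rw [LinearEquiv.apply_symm_apply]
  funext I
  rw [Pi.zero_apply, ← Module.forall_dual_apply_eq_zero_iff ℚ]
  intro l
  have h3 := key l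
  rw [act_lam] at h3
  exact congrFun h3 I

end

end Pool.Agent.H926.T
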