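import Pool.Agent.H926.T.Jobs4

/-!
# Simple factors of powers are factors (R5, S_FACP; by helper215)
-/

set_option autoImplicit false
set_option linter.unusedSectionVars false

namespace Pool.Agent.H926.T

open Matrix Module Pool.Agent.Y90 Pool.Agent.W437.HC Pool.Agent.W437.HD
  Pool.Agent.TH504.CB
open Pool.Agent.W548.Odd hiding cv
open Pool.Agent.W437.HP (cK cK_mul cK_one)

noncomputable section

namespace FacL

/-- extension of scalars to the real numbers of a rational vector -/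
def rv {B : Type} (w : B → ℚ) : B → ℝ := fun i => ((w i : ℚ) : ℝ)

theorem rv_mulVec {B B' : Type} [Fintype B] (M : Matrix B' B ℚ) (w : B → ℚ) :
    rv (M *ᵥ w) = cK ℝ M *ᵥ rv w := by
  funext i
  simp [rv, mulVec, dotProduct, cK]

section gen

variable {B B' : Type} [Fintype B] [DecidableEq B] [Fintype B'] [DecidableEq B']
  {T T' : Type} [AddCommGroup T] [Module ℂ T] [AddCommGroup T'] [Module ℂ T']
  {per : (B → ℚ) →+ T} {per' : (B' → ℚ) →+ T'} {J : Matrix B B ℝ} {J' : Matrix B' B' ℝ}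

/-- homomorphisms are compatible with the complex structures -/
theorem mat_of_hom (h : Cht per J) (h' : Cht per' J') {R : Matrix B' B ℚ} (Ψ : T →ₗ[ℂ] T')
    (hΨ : ∀ v, Ψ (per v) = per' (R *ᵥ v)) : cK ℝ R * J = J' * cK ℝ R := by
  obtain ⟨P, I, hP1, hP2, hI1, hI2⟩ := h.ex
  obtain ⟨P', I', hP1', hP2', hI1', hI2'⟩ := h'.ex
  have h1 : ∀ w : B → ℚ, Ψ (P (rv w)) = P' (cK ℝ R *ᵥ rv w) := by
    intro w
    have e1 : P (rv w) = per w := hP1 w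
    have e2 : P' (rv (R *ᵥ w)) = per' (R *ᵥ w) := hP1' (R *ᵥ w)
    rw [e1, hΨ, ← e2, rv_mulVec]
  have h2 : (Ψ.restrictScalars ℝ) ∘ₗ P = P' ∘ₗ Matrix.mulVecLin (cK ℝ R) := by
    refine LinearMap.pi_ext' fun i => LinearMap.ext_ring ?_
    have h3 := h1 (Pi.single i 1)
    have h4 : rv (Pi.single i 1 : B → ℚ) = Pi.single i 1 := single_castR i
    rw [h4] at h3
    exact h3
  have h3 : ∀ x, Ψ (P x) = P' (cK ℝ R *ᵥ x) := fun x => LinearMap.congr_fun h2 x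
  refine Matrix.ext_of_mulVec_single fun q => ?_
  rw [← mulVec_mulVec, ← mulVec_mulVec, ← hI1' (cK ℝ R *ᵥ (J *ᵥ Pi.single q 1)), ← h3, hP2,
    map_smul, h3, ← hP2', hI1']

theorem cplx_of_real {R : Matrix B' B ℚ} (h : cK ℝ R * J = J' * cK ℝ R) :
    cK ℂ R * DJ J = DJ J' * cK ℂ R := by
  have h4 : (cK ℝ R * J).map (fun x : ℝ => (x : ℂ)) =
      (cK ℝ R).map (fun x : ℝ => (x : ℂ)) * J.map (fun x : ℝ => (x : ℂ)) :=
    Matrix.map_mul (f := Complex.ofRealHom)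
  have h5 : (J' * cK ℝ R).map (fun x : ℝ => (x : ℂ)) =
      J'.map (fun x : ℝ => (x : ℂ)) * (cK ℝ R).map (fun x : ℝ => (x : ℂ)) :=
    Matrix.map_mul (f := Complex.ofRealHom)
  unfold DJ
  rw [Matrix.mul_smul, Matrix.smul_mul, ← cK_R, ← h4, ← h5, h]

end gen

section adj

variable {G a : ℕ} {Z : Matrix (Fin G) (Fin G) ℂ} {Z₁ : Matrix (Fin a) (Fin a) ℂ}

/-- the adjoint matrix -/
def adjM (M : Matrix (Fin G ⊕ Fin G) (Fin a ⊕ Fin a) ℚ) : Matrix (Fin a ⊕ Fin a) (Fin G ⊕ Fin G) ℚ :=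
  -(Om a ℚ * Mᵀ * Om G ℚ)

theorem cK_Om (K : Type) [Field K] [CharZero K] (g : ℕ) : cK K (Om g ℚ) = Om g K := Om_map K

theorem cK_adjM (K : Type) [Field K] [CharZero K] (M : Matrix (Fin G ⊕ Fin G) (Fin a ⊕ Fin a) ℚ) :
    cK K (adjM M) = -(Om a K * (cK K M)ᵀ * Om G K) := by
  have h1 : cK K (adjM M) = -(cK K (Om a ℚ * Mᵀ * Om G ℚ)) := by
    ext i j
    simp [cK, adjM]
  rw [h1, cK_mul, cK_mul, cK_Om, cK_Om]
  rfl

/-- the adjoint of a homomorphism is a homomorphism -/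
theorem adj_hom (h : PM Z) (h₁ : PM Z₁) {M : Matrix (Fin G ⊕ Fin G) (Fin a ⊕ Fin a) ℚ}
    (hM : DZ Z * cK ℂ M = cK ℂ M * DZ Z₁) :
    cK ℂ (adjM M) * DZ Z = DZ Z₁ * cK ℂ (adjM M) := by
  have s := DZ_sp h.symm
  have s₁ := DZ_sp h₁.symm
  have e : (Om G ℚ).map (fun x : ℚ => (x : ℂ)) = Om G ℂ := Om_map ℂ
  have e₁ : (Om a ℚ).map (fun x : ℚ => (x : ℂ)) = Om a ℂ := Om_map ℂ
  rw [e] at s
  rw [e₁] at s₁
  have s' : Om G ℂ * DZ Z = -((DZ Z)ᵀ * Om G ℂ) := eq_neg_of_add_eq_zero_right s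
  have s₁' : Om a ℂ * (DZ Z₁)ᵀ = -(DZ Z₁ * Om a ℂ) := by
    have h2 : (DZ Z₁)ᵀ * Om a ℂ = -(Om a ℂ * DZ Z₁) := eq_neg_of_add_eq_zero_left s₁
    have h3 : Om a ℂ * ((DZ Z₁)ᵀ * Om a ℂ) * Om a ℂ = Om a ℂ * (-(Om a ℂ * DZ Z₁)) * Om a ℂ := by
      rw [h2]
    have h4 : Om a ℂ * ((DZ Z₁)ᵀ * Om a ℂ) * Om a ℂ = -(Om a ℂ * (DZ Z₁)ᵀ) := by
      rw [Matrix.mul_assoc, Matrix.mul_assoc, Om_sq, Matrix.mul_neg, Matrix.mul_one,
        Matrix.mul_neg]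
    have h5 : Om a ℂ * (-(Om a ℂ * DZ Z₁)) * Om a ℂ = DZ Z₁ * Om a ℂ := by
      rw [Matrix.mul_neg, ← Matrix.mul_assoc, Om_sq, Matrix.neg_mul, Matrix.neg_mul,
        Matrix.one_mul, Matrix.neg_mul, neg_neg]
    rw [h4, h5] at h3
    rw [← h3, neg_neg]
  have hMt : (cK ℂ M)ᵀ * (DZ Z)ᵀ = (DZ Z₁)ᵀ * (cK ℂ M)ᵀ := by
    rw [← transpose_mul, hM, transpose_mul]
  rw [cK_adjM, Matrix.neg_mul, Matrix.mul_assoc, s', Matrix.mul_neg, neg_neg, Matrix.mul_neg,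
    ← Matrix.mul_assoc (DZ Z₁), ← Matrix.mul_assoc (DZ Z₁), ← Matrix.neg_mul, ← Matrix.neg_mul,
    ← s₁', ← Matrix.mul_assoc, Matrix.mul_assoc (Om a ℂ), hMt, ← Matrix.mul_assoc]

/-- the kernel of a nonzero homomorphism from a simple abelian variety -/
theorem ker_bot (h₁ : PM Z₁) (s₁ : IsSimpleAV Z₁)
    {M : Matrix (Fin G ⊕ Fin G) (Fin a ⊕ Fin a) ℚ}
    (hM : DZ Z * cK ℂ M = cK ℂ M * DZ Z₁) (h0 : M ≠ 0) :
    LinearMap.ker (ml M) = ⊥ := by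
  by_contra hcon
  have h3 := stable_eq_top h₁.det s₁ (LinearMap.ker (ml M)) (fun σ v hv => by
    rw [LinearMap.mem_ker] at hv ⊢
    have e : ml M (fun i => σ (v i)) = fun i => σ (ml M v i) := by
      rw [ml_apply, ml_apply, map_mulVec_aut, cK_aut]
    rw [e, hv]
    funext i
    simp) (fun v hv => by
    rw [LinearMap.mem_ker] at hv ⊢
    rw [ml_apply] at hv ⊢
    rw [mulVec_mulVec, ← hM, ← mulVec_mulVec, hv, mulVec_zero]) hcon
  apply h0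
  ext i j
  have h4 : (Pi.single j 1 : Fin a ⊕ Fin a → ℂ) ∈ LinearMap.ker (ml M) := by
    rw [h3]
    trivial
  rw [LinearMap.mem_ker, ml_apply, mulVec_single_one] at h4
  have h5 := congrFun h4 i
  have h6 : ((M i j : ℚ) : ℂ) = 0 := h5
  simpa using h6

theorem real_comm {M : Matrix (Fin G ⊕ Fin G) (Fin a ⊕ Fin a) ℚ}
    (hM : DZ Z * cK ℂ M = cK ℂ M * DZ Z₁) : cK ℝ M * JR Z₁ = JR Z * cK ℝ M :=
  real_of_DJ (J := JR Z₁) (J' := JR Z) (R := M) hM.symm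

/-- a nonzero homomorphism from a simple abelian variety is the inclusion of a factor -/
theorem fac_of_hom (h : PM Z) (h₁ : PM Z₁) (s₁ : IsSimpleAV Z₁)
    {M : Matrix (Fin G ⊕ Fin G) (Fin a ⊕ Fin a) ℚ}
    (hM : DZ Z * cK ℂ M = cK ℂ M * DZ Z₁) (h0 : M ≠ 0) : ∃ F', Fac Z Z₁ M F' := by
  have hker := ker_bot h₁ s₁ hM h0
  have hadj := adj_hom h h₁ hM
  obtain ⟨N, hN⟩ : ∃ N, N = adjM M * M := ⟨_, rfl⟩
  have hdet : N.det ≠ 0 := by
    intro hd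
    obtain ⟨v, hv, hNv⟩ := Matrix.exists_mulVec_eq_zero_iff.2 hd
    have hMv : M *ᵥ v ≠ 0 := by
      intro h3
      apply hv
      have h4 : (fun i => ((v i : ℚ) : ℂ)) ∈ LinearMap.ker (ml M) := by
        rw [LinearMap.mem_ker, ml_apply]
        funext i
        have h5 := congrArg (fun q : ℚ => (q : ℂ)) (congrFun h3 i)
        simpa [mulVec, dotProduct, cK] using h5
      rw [hker, Submodule.mem_bot] at h4
      funext i
      have h5 := congrFun h4 i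
      simpa using h5
    have hx : rv (M *ᵥ v) ≠ 0 := by
      intro h3
      apply hMv
      funext i
      have h5 : ((M *ᵥ v) i : ℝ) = 0 := congrFun h3 i
      exact_mod_cast h5
    have hp := h.pos_om hx
    rw [rv_mulVec, mulVec_mulVec, ← real_comm hM, ← mulVec_mulVec] at hp
    have hz : (cK ℝ M *ᵥ (JR Z₁ *ᵥ rv v)) ⬝ᵥ (Om G ℝ *ᵥ (cK ℝ M *ᵥ rv v)) = 0 := by
      have e1 : (cK ℝ M)ᵀ * Om G ℝ * cK ℝ M = Om a ℝ * cK ℝ N := by
        rw [hN, cK_mul, cK_adjM, Matrix.neg_mul, Matrix.mul_neg, Matrix.mul_assoc (Om a ℝ),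
          Matrix.mul_assoc (Om a ℝ), ← Matrix.mul_assoc (Om a ℝ), Om_sq, Matrix.neg_mul,
          Matrix.one_mul, neg_neg]
      have e2 : cK ℝ N *ᵥ rv v = 0 := by
        rw [← rv_mulVec, hNv]
        funext i
        simp [rv]
      rw [dotProduct_comm, dotProduct_mulVec, ← mulVec_transpose, mulVec_mulVec, mulVec_mulVec,
        e1, ← mulVec_mulVec, e2, mulVec_zero, zero_dotProduct]
    rw [neg_mulVec, dotProduct_neg, hz, neg_zero] at hp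
    exact lt_irrefl _ hp
  have hu : IsUnit N.det := isUnit_iff_ne_zero.2 hdet
  have hNN : N⁻¹ * N = 1 := Matrix.nonsing_inv_mul N hu
  have hNN' : N * N⁻¹ = 1 := Matrix.mul_nonsing_inv N hu
  have hNNc : cK ℂ N⁻¹ * cK ℂ N = 1 := by rw [← cK_mul, hNN, cK_one]
  have hNNc' : cK ℂ N * cK ℂ N⁻¹ = 1 := by rw [← cK_mul, hNN', cK_one]
  have hNc : cK ℂ N * DZ Z₁ = DZ Z₁ * cK ℂ N := by
    rw [hN, cK_mul, Matrix.mul_assoc, ← hM, ← Matrix.mul_assoc, hadj, Matrix.mul_assoc]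
  have hNi : cK ℂ N⁻¹ * DZ Z₁ = DZ Z₁ * cK ℂ N⁻¹ := by
    calc cK ℂ N⁻¹ * DZ Z₁ = cK ℂ N⁻¹ * DZ Z₁ * (cK ℂ N * cK ℂ N⁻¹) := by
          rw [hNNc', Matrix.mul_one]
      _ = cK ℂ N⁻¹ * (DZ Z₁ * cK ℂ N) * cK ℂ N⁻¹ := by simp only [Matrix.mul_assoc]
      _ = (cK ℂ N⁻¹ * cK ℂ N) * DZ Z₁ * cK ℂ N⁻¹ := by
          rw [← hNc]
          simp only [Matrix.mul_assoc]
      _ = DZ Z₁ * cK ℂ N⁻¹ := by rw [hNNc, Matrix.one_mul]
  refine ⟨N⁻¹ * adjM M, ?_, hM, ?_⟩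
  · rw [Matrix.mul_assoc, ← hN, hNN]
  · rw [cK_mul, Matrix.mul_assoc, hadj, ← Matrix.mul_assoc, hNi, Matrix.mul_assoc]

end adj

end FacL

open FacL in
theorem s_facp : S_FACP := by
  intro G Z h n G' Z' h' A hC a Z₁ E F hf h₁ hs ha
  obtain ⟨R, hR⟩ : ∃ R : Fin n → Matrix (Fin G ⊕ Fin G) (Fin G' ⊕ Fin G') ℚ,
      ∀ i v, R i *ᵥ v = A.symm v i := by
    refine ⟨fun i => LinearMap.toMatrix' ((LinearMap.proj i).comp A.symm.toLinearMap),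
      fun i v => ?_⟩
    rw [LinearMap.toMatrix'_mulVec]
    rfl
  have hRd : ∀ i, DZ Z * cK ℂ (R i) = cK ℂ (R i) * DZ Z' := by
    intro i
    have h1 : cK ℝ (R i) * JR Z' = JR Z * cK ℝ (R i) := by
      refine mat_of_hom hC h.cht (LinearMap.proj i) (fun v => ?_)
      rw [hR]
      rfl
    exact (cplx_of_real h1).symm
  have hME : ∀ i, DZ Z * cK ℂ (R i * E) = cK ℂ (R i * E) * DZ Z₁ := by
    intro i
    rw [cK_mul, ← Matrix.mul_assoc, hRd, Matrix.mul_assoc, hf.de, ← Matrix.mul_assoc]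
  have hex : ∃ i, R i * E ≠ 0 := by
    by_contra hcon
    push Not at hcon
    have h2 : ∀ v, E *ᵥ v = 0 := by
      intro v
      apply A.symm.injective
      rw [map_zero]
      funext i
      rw [← hR, mulVec_mulVec, hcon, zero_mulVec]
      rfl
    have h3 : (Pi.single (Sum.inl ⟨0, ha⟩) 1 : Fin a ⊕ Fin a → ℚ) = 0 := by
      have h4 := congrArg (fun w => F *ᵥ w) (h2 (Pi.single (Sum.inl ⟨0, ha⟩) 1))
      simp only [mulVec_mulVec, hf.fe, one_mulVec, mulVec_zero] at h4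
      exact h4
    have h5 := congrFun h3 (Sum.inl ⟨0, ha⟩)
    rw [Pi.single_eq_same] at h5
    exact one_ne_zero h5
  obtain ⟨i, hi⟩ := hex
  obtain ⟨F', hF'⟩ := fac_of_hom h h₁ hs (hME i) hi
  exact ⟨R i * E, F', hF'⟩

end

end Pool.Agent.H926.T
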