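import Mathlib
import Pool.Agent.H926.T.Jobs4
import Pool.Graph.R_pool_sql_team_seeded_1acbe0a2.Y4.P.Fin4

/-!
# S_GBR: good period matrices satisfy `BrH`
-/

set_option linter.unusedSectionVars false

namespace Pool.Agent.H926.T

open Matrix Module Pool.Agent.Y90 Pool.Agent.W437.HC Pool.Agent.W437.HD
  Pool.Agent.TH504.CB
open Pool.Agent.W548.Odd hiding cv
open Pool.Agent.W437.HP (cK cK_mul cK_one)
open Pool.Agent.H204R3.CM (IsHodge)
open Pool.Agent.H204R3.SP (Kills)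
open Pool.Agent.Y4.P (WeilRing)
open Pool.Agent.Y4.Q (GoodF4 T3M)

noncomputable section

namespace GbrL

variable {G : ℕ} {Z : Matrix (Fin G) (Fin G) ℂ}

/-- A period matrix of a power of a good abelian variety is good. -/
theorem goodF4_pow (hF : S_FACP) (h : PM Z) (hg : GoodF4 Z) (n G' : ℕ)
    (Z' : Matrix (Fin G') (Fin G') ℂ) (h' : PM Z')
    (A : (Fin n → (Fin G ⊕ Fin G → ℚ)) ≃ₗ[ℚ] (Fin G' ⊕ Fin G' → ℚ))
    (hC : Cht ((powPer (perOne Z) n).comp A.symm.toLinearMap.toAddMonoidHom) (JR Z')) :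
    GoodF4 Z' := by
  refine ⟨fun a Z₁ E F hf h₁ hs ha => ?_, ?_⟩
  · obtain ⟨E', F', hf'⟩ := hF G Z h n G' Z' h' A hC a Z₁ E F hf h₁ hs ha
    exact hg.1 a Z₁ E' F' hf' h₁ hs ha
  · intro a₁ a₂ Z₁ Z₂ E₁ F₁ E₂ F₂ hf₁ hf₂ h₁ h₂ hs₁ hs₂ ha₁ ha₂
    obtain ⟨E₁', F₁', hf₁'⟩ := hF G Z h n G' Z' h' A hC a₁ Z₁ E₁ F₁ hf₁ h₁ hs₁ ha₁
    obtain ⟨E₂', F₂', hf₂'⟩ := hF G Z h n G' Z' h' A hC a₂ Z₂ E₂ F₂ hf₂ h₂ hs₂ ha₂
    exact hg.2 a₁ a₂ Z₁ Z₂ E₁' F₁' E₂' F₂' hf₁' hf₂' h₁ h₂ hs₁ hs₂ ha₁ ha₂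

/-- Transport of Hodge classes along a period matrix. -/
theorem transport {H T : Type} [AddCommGroup H] [Module ℚ H] [AddCommGroup T] [Module ℂ T]
    {per : H →+ T} {a : ℕ} {Z : Matrix (Fin a) (Fin a) ℂ} (h : PM Z)
    {A : H ≃ₗ[ℚ] (Fin a ⊕ Fin a → ℚ)}
    (hC : Cht (per.comp A.symm.toLinearMap.toAddMonoidHom) (JR Z))
    (hW : ∀ (κ : Type) [Finite κ] (f : (Fin a ⊕ Fin a → ℚ) [⋀^κ]→ₗ[ℚ] ℚ),
      IsHodge (perOne Z) f → WeilRing (perOne Z) κ f)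
    (κ : Type) [Finite κ] (f : H [⋀^κ]→ₗ[ℚ] ℚ) (hf : IsHodge per f) : WeilRing per κ f := by
  obtain ⟨Ψ₁, h₁⟩ := h.cht.hom hC (R := 1) (by rw [cK_one, Matrix.one_mul, Matrix.mul_one])
  obtain ⟨Ψ₂, h₂⟩ := hC.hom h.cht (R := 1) (by rw [cK_one, Matrix.one_mul, Matrix.mul_one])
  have e₁ : ∀ w, Ψ₁ (perOne Z w) = per (A.symm w) := fun w => by
    rw [h₁, one_mulVec]
    rfl
  have e₂ : ∀ v, Ψ₂ (per v) = perOne Z (A v) := fun v => by
    have h3 := h₂ (A v)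
    have h4 : (per.comp A.symm.toLinearMap.toAddMonoidHom) (A v) = per v := by
      change per (A.symm (A v)) = per v
      rw [LinearEquiv.symm_apply_apply]
    rwa [h4, one_mulVec] at h3
  have h5 : IsHodge (perOne Z) (f.compLinearMap A.symm.toLinearMap) :=
    Pool.Agent.TH504.CB.isHodge_comp A.symm.toLinearMap Ψ₁ e₁ hf
  have h6 := hW κ _ h5
  have h7 := Pool.Agent.Y275.P.pull (per := per) h6 A.toLinearMap Ψ₂ e₂
  have h8 : (f.compLinearMap A.symm.toLinearMap).compLinearMap A.toLinearMap = f := by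
    ext v
    rw [AlternatingMap.compLinearMap_apply, AlternatingMap.compLinearMap_apply]
    congr 1
    funext k
    exact A.symm_apply_apply (v k)
  rwa [h8] at h7

/-- From operators to matrices: the commutators of the Lefschetz Lie algebra. -/
theorem brH_of_av {H T : Type} [AddCommGroup H] [Module ℚ H] [AddCommGroup T] [Module ℂ T]
    {per : H →+ T} {a : ℕ} {Z : Matrix (Fin a) (Fin a) ℂ} (h : PM Z)
    {A : H ≃ₗ[ℚ] (Fin a ⊕ Fin a → ℚ)}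
    (hC : Cht (per.comp A.symm.toLinearMap.toAddMonoidHom) (JR Z))
    (hbr : ∀ x y : H →ₗ[ℚ] H, InLef per x → InLef per y → InHdg per (x ∘ₗ y - y ∘ₗ x)) :
    BrH Z := by
  obtain ⟨t1, t2⟩ := s_tra H T per a Z h A hC
  have hm : ∀ M : Matrix (Fin a ⊕ Fin a) (Fin a ⊕ Fin a) ℚ, ∃ x : H →ₗ[ℚ] H, matQ A x = M := by
    intro M
    refine ⟨A.symm.toLinearMap ∘ₗ Matrix.mulVecLin M ∘ₗ A.toLinearMap, ?_⟩
    unfold matQ
    have h1 : A.toLinearMap ∘ₗ (A.symm.toLinearMap ∘ₗ Matrix.mulVecLin M ∘ₗ A.toLinearMap) ∘ₗ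
        A.symm.toLinearMap = Matrix.toLin' M := by
      refine LinearMap.ext fun v => ?_
      simp
    rw [h1, LinearMap.toMatrix'_toLin']
  intro X hX' Y hY'
  obtain ⟨m, c, x, hx, rfl⟩ := s_ratl a Z X hX'
  obtain ⟨n, d, y, hy, rfl⟩ := s_ratl a Z Y hY'
  have h1 : (∑ j, c j • qm (x j)) * (∑ k, d k • qm (y k)) -
      (∑ k, d k • qm (y k)) * ∑ j, c j • qm (x j) =
      ∑ j, ∑ k, (c j * d k) • (qm (x j) * qm (y k) - qm (y k) * qm (x j)) := by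
    rw [Finset.sum_mul_sum, Finset.sum_mul_sum, Finset.sum_comm (s := Finset.univ (α := Fin n)),
      ← Finset.sum_sub_distrib]
    refine Finset.sum_congr rfl fun j _ => ?_
    rw [← Finset.sum_sub_distrib]
    refine Finset.sum_congr rfl fun k _ => ?_
    rw [smul_mul_smul_comm, smul_mul_smul_comm, smul_sub, mul_comm (d k)]
  rw [h1]
  refine Submodule.sum_mem _ fun j _ => Submodule.sum_mem _ fun k _ =>
    Submodule.smul_mem _ _ ?_
  obtain ⟨x', hx'⟩ := hm (x j)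
  obtain ⟨y', hy'⟩ := hm (y k)
  have h2 := (t2 _).1 (hbr x' y' ((t1 x').2 (by rw [hx']; exact hx j))
    ((t1 y').2 (by rw [hy']; exact hy k)))
  rw [matQ_br, hx', hy', qm_br] at h2
  exact h2

/-- Good period matrices satisfy `BrH`. -/
theorem good_brH (hF : S_FACP) (h : PM Z) (hg : GoodF4 Z) : BrH Z := by
  have hX : St.IsAV (perOne Z) := h.isAV
  have hpow : ∀ (n : ℕ) (κ : Type) [Finite κ] (f : (Fin n → (Fin G ⊕ Fin G → ℚ)) [⋀^κ]→ₗ[ℚ] ℚ),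
      IsHodge (powPer (perOne Z) n) f → WeilRing (powPer (perOne Z) n) κ f := by
    intro n κ _ f hf
    obtain ⟨G', Z', h', A', hC'⟩ :=
      exists_ppav (s_pav (Fin G ⊕ Fin G → ℚ) (Fin G → ℂ) (perOne Z) hX n)
    have hg' : GoodF4 Z' := goodF4_pow hF h hg n G' Z' h' A' hC'
    exact transport h' hC' (fun κ _ f hf =>
      Pool.Agent.Y4.Q.jmain4 Pool.Agent.Y4.Q.jTwoTwo2 Pool.Agent.Y4.Q.jCen Pool.Agent.Y91.G.jUni
        G' Z' h' hg' κ f hf) κ f hf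
  have hC : Cht ((perOne Z).comp
      (LinearEquiv.refl ℚ (Fin G ⊕ Fin G → ℚ)).symm.toLinearMap.toAddMonoidHom) (JR Z) := h.cht
  exact brH_of_av h hC ((tstar hX).1 hpow)

end GbrL

/-- **S_GBR** (good period matrices). -/
theorem s_gbr (h : S_FACP) : S_GBR := fun _ _ hZ hg => GbrL.good_brH h hZ hg

end

end Pool.Agent.H926.T
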