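import Mathlib
import Pool.Agent.H926.T.Jobs4
import Pool.Agent.H926.T.Tra

/-!
# Factors of Mumford's type are quotients of Mumford's type
-/

set_option linter.unusedSectionVars false

namespace Pool.Agent.H926.T

open Matrix Module Pool.Agent.Y90 Pool.Agent.W437.HC Pool.Agent.W437.HD
  Pool.Agent.TH504.CB
open Pool.Agent.W548.Odd hiding cv
open Pool.Agent.W437.HP (cK cK_mul cK_one)

noncomputable section

namespace MqL

variable {g : ℕ} {Z : Matrix (Fin g) (Fin g) ℂ}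

/-- Endomorphisms are complex scalars. -/
theorem mum_scal (hm : MumM Z) {φ : Matrix (Fin g ⊕ Fin g) (Fin g ⊕ Fin g) ℚ}
    (hφ : qm φ * DZ Z = DZ Z * qm φ) :
    ∃ c : ℂ, qm φ = c • (1 : Matrix (Fin g ⊕ Fin g) (Fin g ⊕ Fin g) ℂ) := by
  obtain ⟨c, hc⟩ := scal_top hm.irr (ph (Fin g ⊕ Fin g) (qm φ)) (fun y hy => by
    obtain ⟨Y, hY, rfl⟩ := exists_GG hy
    have h4 : LZ Z ≤
        { carrier := {W | W * qm φ = qm φ * W}
          add_mem' := fun {a b} ha hb => by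
            change (a + b) * qm φ = qm φ * (a + b)
            rw [Matrix.add_mul, Matrix.mul_add, ha, hb]
          zero_mem' := by
            change (0 : Matrix _ _ ℂ) * qm φ = qm φ * 0
            rw [Matrix.zero_mul, Matrix.mul_zero]
          smul_mem' := fun c a ha => by
            change (c • a) * qm φ = qm φ * (c • a)
            rw [Matrix.smul_mul, Matrix.mul_smul, ha] } := by
      refine LZ_le (fun σ => ?_) (fun a ha b hb => ?_)
      · change DS Z σ * qm φ = qm φ * DS Z σ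
        have h5 : (qm φ).map σ = qm φ := by
          ext i j
          simp [qm]
        have h6 := congrArg (fun W : Matrix _ _ ℂ => W.map σ) hφ
        simp only [Matrix.map_mul] at h6
        rw [h5] at h6
        exact h6.symm
      · change (a * b - b * a) * qm φ = qm φ * (a * b - b * a)
        rw [Matrix.sub_mul, Matrix.mul_sub, Matrix.mul_assoc, Matrix.mul_assoc, ha, hb,
          ← Matrix.mul_assoc, ← Matrix.mul_assoc, ha, hb, Matrix.mul_assoc, Matrix.mul_assoc]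
    have h5 : Y * qm φ = qm φ * Y := h4 hY
    rw [← map_mul, ← map_mul, h5])
  refine ⟨c, ?_⟩
  apply (ph (Fin g ⊕ Fin g)).injective
  rw [hc, map_smul, map_one]

theorem mum_lef (hm : MumM Z) {X : Matrix (Fin g ⊕ Fin g) (Fin g ⊕ Fin g) ℂ}
    (hX : Xᵀ * Om g ℂ + Om g ℂ * X = 0) : X ∈ lefC Z := by
  refine ⟨hX, fun φ hφ => ?_⟩
  obtain ⟨c, h5⟩ := mum_scal hm hφ
  rw [h5, Matrix.mul_smul, Matrix.smul_mul, Matrix.mul_one, Matrix.one_mul]

/-- Skew matrices. -/
theorem sp_of_om {X : Matrix (Fin g ⊕ Fin g) (Fin g ⊕ Fin g) ℂ}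
    (h8 : ∀ v w, om g (X *ᵥ v) w + om g v (X *ᵥ w) = 0) : Xᵀ * Om g ℂ + Om g ℂ * X = 0 := by
  ext i j
  have h3 := h8 (Pi.single i 1) (Pi.single j 1)
  rw [om_apply, om_apply] at h3
  have e3 : (X *ᵥ Pi.single i (1 : ℂ)) ⬝ᵥ Om g ℂ *ᵥ Pi.single j 1 = (Xᵀ * Om g ℂ) i j := by
    rw [Matrix.mulVec_single_one, Matrix.mulVec_single_one, Matrix.mul_apply]
    rfl
  have e4 : (Pi.single i (1 : ℂ)) ⬝ᵥ Om g ℂ *ᵥ X *ᵥ Pi.single j 1 = (Om g ℂ * X) i j := by
    rw [Matrix.mulVec_mulVec, Matrix.mulVec_single_one, single_one_dotProduct]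
    rfl
  rw [e3, e4] at h3
  exact h3

/-- If the Hodge Lie algebra is the symplectic Lie algebra it has elements of rank one. -/
theorem mum_not (h : PM Z) (hm : MumM Z) (hle : lefC Z ≤ LZ Z) : False := by
  apply hm.nrk
  have hDD : DZ Z * DZ Z = 1 := DZ_sq h.det
  have hDsk : ∀ v w, om g (DZ Z *ᵥ v) w + om g v (DZ Z *ᵥ w) = 0 := fun v w =>
    h.om_sp DZ_mem v w
  have hg : 0 < g := by rw [hm.four]; norm_num
  -- an eigenvector
  obtain ⟨u, hu0, hu⟩ : ∃ u : Fin g ⊕ Fin g → ℂ, u ≠ 0 ∧ DZ Z *ᵥ u = u := by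
    by_contra hcon
    push Not at hcon
    have h1 : ∀ v, DZ Z *ᵥ v = -v := by
      intro v
      by_contra hne
      refine hcon (v + DZ Z *ᵥ v) (fun h0 => hne (neg_eq_of_add_eq_zero_right h0).symm) ?_
      rw [mulVec_add, mulVec_mulVec, hDD, one_mulVec, add_comm]
    have h2 : ∀ v w, om g v w = 0 := by
      intro v w
      have h3 := hDsk v w
      rw [h1, h1, map_neg, LinearMap.neg_apply, map_neg] at h3
      linear_combination (-1 / 2 : ℂ) * h3
    have h3 := om_nd (g := g) (Pi.single (Sum.inl ⟨0, hg⟩) 1) (fun v => h2 _ _)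
    have h4 := congrFun h3 (Sum.inl ⟨0, hg⟩)
    rw [Pi.single_eq_same, Pi.zero_apply] at h4
    exact one_ne_zero h4
  obtain ⟨w, hw⟩ : ∃ w, om g u w ≠ 0 := by
    by_contra hcon
    push Not at hcon
    exact hu0 (om_nd u hcon)
  obtain ⟨R, hR⟩ : ∃ R : Matrix (Fin g ⊕ Fin g) (Fin g ⊕ Fin g) ℂ, ∀ v, R *ᵥ v = om g u v • u := by
    refine ⟨LinearMap.toMatrix' ((om g u).smulRight u), fun v => ?_⟩
    rw [← Matrix.toLin'_apply, Matrix.toLin'_toMatrix', LinearMap.smulRight_apply]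
  have hRm : R ∈ LZ Z := by
    refine hle (mum_lef hm (sp_of_om fun v x => ?_))
    rw [hR, hR, map_smul, map_smul, LinearMap.smul_apply, smul_eq_mul, smul_eq_mul,
      om_anti v u]
    ring
  have hext : ∀ {A B : Matrix (Fin g ⊕ Fin g) (Fin g ⊕ Fin g) ℂ}, (∀ v, A *ᵥ v = B *ᵥ v) →
      A = B := fun hAB => Matrix.ext_of_mulVec_single fun i => hAB _
  refine ⟨DZ Z, Or.inl rfl, R, hRm, ?_, ?_, ?_⟩
  · refine hext fun v => ?_
    rw [← mulVec_mulVec, hR, mulVec_smul, hu]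
  · refine hext fun v => ?_
    have h3 := hDsk u v
    rw [hu] at h3
    rw [← mulVec_mulVec, hR, neg_mulVec, hR, ← neg_smul]
    congr 1
    linear_combination h3
  · have h1 : (⊤ : Submodule ℂ (Fin g ⊕ Fin g → ℂ)).map (mulVecLin R) =
        Submodule.span ℂ {u} := by
      ext x
      rw [Submodule.mem_map, Submodule.mem_span_singleton]
      constructor
      · rintro ⟨v, -, rfl⟩
        exact ⟨om g u v, (hR v).symm⟩
      · rintro ⟨c, rfl⟩
        refine ⟨(c / om g u w) • w, trivial, ?_⟩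
        rw [map_smul, mulVecLin_apply, hR, smul_smul, div_mul_cancel₀ _ hw]
    rw [h1, finrank_span_singleton hu0]

end MqL

theorem s_mq : S_MQ := by
  intro H T _ _ _ _ per G Z h A hC a Z₁ E F hf h₁ hM
  have hC₁ : Cht ((perOne Z₁).comp
      (LinearEquiv.refl ℚ (Fin a ⊕ Fin a → ℚ)).symm.toLinearMap.toAddMonoidHom) (JR Z₁) := h₁.cht
  have ha : 0 < a := by rw [hM.four]; norm_num
  refine ⟨(mulVecLin F).comp A.toLinearMap, ?_, ?_, h₁.isAV, ?_, ?_, ?_⟩
  · obtain ⟨Ψ, hΨ⟩ := hC.hom h₁.cht (R := F) hf.fd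
    refine ⟨Ψ, fun v => ?_⟩
    have h3 := hΨ (A v)
    have h4 : (per.comp A.symm.toLinearMap.toAddMonoidHom) (A v) = per v := by
      change per (A.symm (A v)) = per v
      rw [LinearEquiv.symm_apply_apply]
    rw [h4] at h3
    exact h3
  · intro w
    refine ⟨A.symm (E *ᵥ w), ?_⟩
    rw [LinearMap.comp_apply]
    change F *ᵥ (A (A.symm (E *ᵥ w))) = w
    rw [LinearEquiv.apply_symm_apply, mulVec_mulVec, hf.fe, one_mulVec]
  · rw [Module.finrank_fintype_fun_eq_card, Fintype.card_fin, hM.four]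
  · intro x hx
    have h1 := (TraL.hom_iff hC₁ x).1 hx
    obtain ⟨c, hc⟩ := MqL.mum_scal hM h1
    obtain ⟨M, hMx⟩ : ∃ M, M = matQ (LinearEquiv.refl ℚ (Fin a ⊕ Fin a → ℚ)) x := ⟨_, rfl⟩
    rw [← hMx] at hc
    have h2 : M = M (Sum.inl ⟨0, ha⟩) (Sum.inl ⟨0, ha⟩) •
        (1 : Matrix (Fin a ⊕ Fin a) (Fin a ⊕ Fin a) ℚ) := by
      have h3 : c = ((M (Sum.inl ⟨0, ha⟩) (Sum.inl ⟨0, ha⟩) : ℚ) : ℂ) := by
        have h4 := congrFun (congrFun hc (Sum.inl ⟨0, ha⟩)) (Sum.inl ⟨0, ha⟩)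
        rw [Matrix.smul_apply, Matrix.one_apply_eq, smul_eq_mul, mul_one] at h4
        exact h4.symm
      ext i j
      have h4 := congrFun (congrFun hc i) j
      rw [h3, Matrix.smul_apply, smul_eq_mul] at h4
      rw [Matrix.smul_apply, smul_eq_mul]
      by_cases hij : i = j
      · subst hij
        rw [Matrix.one_apply_eq, mul_one] at h4 ⊢
        have h5 : ((M i i : ℚ) : ℂ) = _ := h4
        exact_mod_cast h5
      · rw [Matrix.one_apply_ne hij, mul_zero] at h4 ⊢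
        have h5 : ((M i j : ℚ) : ℂ) = 0 := h4
        exact_mod_cast h5
    refine ⟨M (Sum.inl ⟨0, ha⟩) (Sum.inl ⟨0, ha⟩), fun v => ?_⟩
    have h5 : x v = M *ᵥ v := by
      rw [hMx]
      unfold matQ
      rw [← Matrix.toLin'_apply, Matrix.toLin'_toMatrix']
      rfl
    conv_lhs => rw [h5, h2]
    rw [smul_mulVec, one_mulVec]
  · by_contra hcon
    push Not at hcon
    obtain ⟨t1, t2⟩ := s_tra _ _ (perOne Z₁) a Z₁ h₁ _ hC₁
    refine MqL.mum_not h₁ hM fun X hX => ?_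
    obtain ⟨m, c, xs, hxs, rfl⟩ := s_ratl a Z₁ X hX
    refine Submodule.sum_mem _ fun j _ => Submodule.smul_mem _ _ ?_
    have h6 := (t2 _).1 (hcon (TraL.opQ (LinearEquiv.refl ℚ (Fin a ⊕ Fin a → ℚ)) (xs j))
      ((t1 _).2 (by rw [TraL.matQ_opQ]; exact hxs j)))
    rw [TraL.matQ_opQ] at h6
    exact h6

end

end Pool.Agent.H926.T
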