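import Mathlib
import Pool.Agent.H926.T.Jobs4

/-!
# Project R5 (helper926): period matrices of fourfolds of Mumford's type (S_MU), by helper766
-/

set_option linter.unusedSectionVars false

namespace Pool.Agent.H926.T

open Matrix Module Pool.Agent.Y90 Pool.Agent.W437.HC Pool.Agent.W437.HD
  Pool.Agent.TH504.CB
open Pool.Agent.W548.Odd hiding cv
open Pool.Agent.W437.HP (cK cK_mul cK_one)
open Pool.Agent.Y4.P (MaxM EigM)
open Pool.Agent.Y4.Q (GoodF4 T3M BigM CMM)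
open Pool.Agent.H926.T.TraL

noncomputable section

namespace MuL

variable {G a : ℕ} {Z : Matrix (Fin G) (Fin G) ℂ} {Z' : Matrix (Fin a) (Fin a) ℂ}
  {E : Matrix (Fin G ⊕ Fin G) (Fin a ⊕ Fin a) ℚ} {F : Matrix (Fin a ⊕ Fin a) (Fin G ⊕ Fin G) ℚ}

/-- all endomorphisms are scalars -/
def Sca (Z : Matrix (Fin G) (Fin G) ℂ) : Prop :=
  ∀ ψ : Matrix (Fin G ⊕ Fin G) (Fin G ⊕ Fin G) ℚ, qm ψ * DZ Z = DZ Z * qm ψ →
    ∃ c : ℚ, ψ = c • (1 : Matrix (Fin G ⊕ Fin G) (Fin G ⊕ Fin G) ℚ)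

theorem qm_smul_one (c : ℚ) : qm (c • (1 : Matrix (Fin G ⊕ Fin G) (Fin G ⊕ Fin G) ℚ)) =
    (c : ℂ) • (1 : Matrix (Fin G ⊕ Fin G) (Fin G ⊕ Fin G) ℂ) := by
  ext i j
  by_cases hij : i = j
  · subst hij
    simp
  · simp [Matrix.one_apply_ne hij]

/-- the projector to a factor is an endomorphism -/
theorem fac_comm (hf : Fac Z Z' E F) {ψ : Matrix (Fin a ⊕ Fin a) (Fin a ⊕ Fin a) ℚ}
    (hψ : qm ψ * DZ Z' = DZ Z' * qm ψ) : qm (E * ψ * F) * DZ Z = DZ Z * qm (E * ψ * F) := by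
  have h1 : qm (E * ψ * F) = cK ℂ E * qm ψ * cK ℂ F := by
    change cK ℂ (E * ψ * F) = cK ℂ E * cK ℂ ψ * cK ℂ F
    rw [cK_mul, cK_mul]
  rw [h1, Matrix.mul_assoc, hf.fd, ← Matrix.mul_assoc, Matrix.mul_assoc (cK ℂ E), hψ,
    ← Matrix.mul_assoc, ← hf.de]
  simp only [Matrix.mul_assoc]

theorem fac_one (hs : Sca Z) (hf : Fac Z Z' E F) (ha : 0 < a) : E * F = 1 := by
  obtain ⟨c, hc⟩ := hs _ (fac_comm hf (ψ := 1) (by
    have h1 : qm (1 : Matrix (Fin a ⊕ Fin a) (Fin a ⊕ Fin a) ℚ) = 1 := cK_one ℂ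
    rw [h1, Matrix.mul_one, Matrix.one_mul]))
  rw [Matrix.mul_one] at hc
  have h1 : (1 : Matrix (Fin a ⊕ Fin a) (Fin a ⊕ Fin a) ℚ) = c • 1 := by
    calc (1 : Matrix (Fin a ⊕ Fin a) (Fin a ⊕ Fin a) ℚ) = F * (E * F) * E := by
          rw [← Matrix.mul_assoc, hf.fe, Matrix.one_mul, hf.fe]
      _ = c • 1 := by
          rw [hc, Matrix.mul_smul, Matrix.mul_one, Matrix.smul_mul, hf.fe]
  have h2 := congrFun (congrFun h1 (Sum.inl ⟨0, ha⟩)) (Sum.inl ⟨0, ha⟩)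
  rw [Matrix.smul_apply, Matrix.one_apply_eq, smul_eq_mul, mul_one] at h2
  rw [hc, ← h2, one_smul]

theorem fac_symm (hs : Sca Z) (hf : Fac Z Z' E F) (ha : 0 < a) : Fac Z' Z F E :=
  ⟨fac_one hs hf ha, hf.fd.symm, hf.de.symm⟩

/-- a factor has only scalar endomorphisms -/
theorem fac_sca (hs : Sca Z) (hf : Fac Z Z' E F) : Sca Z' := by
  intro ψ hψ
  obtain ⟨c, hc⟩ := hs _ (fac_comm hf hψ)
  refine ⟨c, ?_⟩
  calc ψ = F * (E * ψ * F) * E := by
        have : F * (E * ψ * F) * E = (F * E) * ψ * (F * E) := by simp only [Matrix.mul_assoc]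
        rw [this, hf.fe, Matrix.one_mul, Matrix.mul_one]
    _ = c • 1 := by rw [hc, Matrix.mul_smul, Matrix.mul_one, Matrix.smul_mul, hf.fe]

/-- simplicity -/
theorem simple (h : PM Z) (hs : Sca Z) : IsSimpleAV Z := by
  intro U hU
  have hU' := jstable_of h.det hU
  obtain ⟨b, E₁, Z₁, hZ₁, hpos₁, hE₁, hEU, hJ₁, hd₁⟩ := exists_sub h.symm h.pos U hU'
  have hFE₁ := symF_mul hE₁
  have hFJ₁ := symF_JR h.symm hZ₁ hJ₁
  have hcomm : qm (E₁ * symF E₁) * DZ Z = DZ Z * qm (E₁ * symF E₁) := by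
    rw [comm_iff, cK_mul, Matrix.mul_assoc, hFJ₁, ← Matrix.mul_assoc, ← hJ₁]
    simp only [Matrix.mul_assoc]
  obtain ⟨c, hc⟩ := hs _ hcomm
  by_cases hc1 : c = 1
  · right
    rw [Submodule.eq_top_iff']
    intro x
    refine (hEU x).2 ⟨symF E₁ *ᵥ x, ?_⟩
    rw [mulVec_mulVec, hc, hc1, one_smul, one_mulVec]
  · left
    rw [Submodule.eq_bot_iff]
    intro x hx
    obtain ⟨y, rfl⟩ := (hEU x).1 hx
    have h1 : E₁ = c • E₁ := by
      calc E₁ = (E₁ * symF E₁) * E₁ := by rw [Matrix.mul_assoc, hFE₁, Matrix.mul_one]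
        _ = c • E₁ := by rw [hc, Matrix.smul_mul, Matrix.one_mul]
    have h2 : (1 - c) • E₁ = 0 := by rw [sub_smul, one_smul, ← h1, sub_self]
    have h3 : E₁ = 0 := (smul_eq_zero.1 h2).resolve_left (sub_ne_zero.2 (Ne.symm hc1))
    rw [h3, zero_mulVec]

/-- elements of rank one pass to factors -/
theorem rk1_fac (hs : Sca Z) (hf : Fac Z Z' E F) (ha : 0 < a)
    (hr : Rk1 Z (⊤ : Submodule ℂ (Fin G ⊕ Fin G → ℂ))) :
    Rk1 Z' (⊤ : Submodule ℂ (Fin a ⊕ Fin a → ℂ)) := by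
  obtain ⟨D, hD, N, hN, h1, h2, h3⟩ := hr
  have hEF : cK ℂ E * cK ℂ F = 1 := (fac_symm hs hf ha).fe'
  have hFE : cK ℂ F * cK ℂ E = 1 := hf.fe'
  obtain ⟨D', hD', e1, e2⟩ : ∃ D', (D' = DZ Z' ∨ D' = -DZ Z') ∧ D' * cK ℂ F = cK ℂ F * D ∧
      cK ℂ E * D' = D * cK ℂ E := by
    rcases hD with rfl | rfl
    · exact ⟨DZ Z', Or.inl rfl, hf.fd.symm, hf.de.symm⟩
    · refine ⟨-DZ Z', Or.inr rfl, ?_, ?_⟩
      · rw [Matrix.neg_mul, Matrix.mul_neg, hf.fd]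
      · rw [Matrix.neg_mul, Matrix.mul_neg, hf.de]
  refine ⟨D', hD', cK ℂ F * N * cK ℂ E, (hf.comp hN).1, ?_, ?_, ?_⟩
  · rw [← Matrix.mul_assoc, ← Matrix.mul_assoc, e1, Matrix.mul_assoc (cK ℂ F) D, h1]
  · rw [Matrix.mul_assoc, e2, ← Matrix.mul_assoc, Matrix.mul_assoc (cK ℂ F) N, h2, Matrix.mul_neg,
      Matrix.neg_mul]
  · have hcomp : mulVecLin (cK ℂ F * N * cK ℂ E) = (ml F) ∘ₗ (mulVecLin N) ∘ₗ (ml E) := by
      unfold ml
      rw [Matrix.mulVecLin_mul, Matrix.mulVecLin_mul]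
      rfl
    have htop : (⊤ : Submodule ℂ (Fin a ⊕ Fin a → ℂ)).map (ml E) = ⊤ := by
      rw [Submodule.map_top, LinearMap.range_eq_top]
      intro v
      refine ⟨ml F v, ?_⟩
      rw [ml_apply, ml_apply, mulVec_mulVec, hEF, one_mulVec]
    rw [hcomp, Submodule.map_comp, Submodule.map_comp, htop]
    rw [finrank_ml, h3]
    intro u _ hu
    have h4 : cK ℂ E *ᵥ (ml F u) = u := by
      rw [ml_apply, mulVec_mulVec, hEF, one_mulVec]
    rw [← h4, hu, mulVec_zero]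

/-- elements of rank one from `BigM` -/
theorem rk1_of_big (hs : Sca Z) (hb : BigM Z) :
    Rk1 Z (⊤ : Submodule ℂ (Fin G ⊕ Fin G → ℂ)) := by
  obtain ⟨φ, hφ, -, z, -, hr⟩ := hb
  obtain ⟨c, hc⟩ := hs φ hφ.1
  have hev : ∀ v : Fin G ⊕ Fin G → ℂ, v ∈ EigM φ z ↔ (c : ℂ) • v = z • v := by
    intro v
    rw [Pool.Agent.Y261.P.mem_EigM, hc, qm_smul_one, smul_mulVec, one_mulVec]
  by_cases hz : (c : ℂ) = z
  · have : EigM φ z = ⊤ := by
      rw [Submodule.eq_top_iff']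
      intro v
      rw [hev, hz]
    rw [← this]
    exact hr
  · exfalso
    have hbot : EigM φ z = ⊥ := by
      rw [Submodule.eq_bot_iff]
      intro v hv
      rw [hev] at hv
      have h1 : ((c : ℂ) - z) • v = 0 := by rw [sub_smul, hv, sub_self]
      exact (smul_eq_zero.1 h1).resolve_left (sub_ne_zero.2 hz)
    obtain ⟨D, -, N, -, -, -, h3⟩ := hr
    rw [hbot, Submodule.map_bot, finrank_bot] at h3
    exact zero_ne_one h3

theorem good (hG : G ≤ 7) (hs : Sca Z) (hb : BigM Z) : GoodF4 Z := by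
  refine good_of hG fun a Z' E F hf _ _ hbad => ?_
  rcases hbad with ⟨hT, ha⟩ | hM
  · obtain ⟨ψ, hψ, hne⟩ := hT.2.1
    obtain ⟨c, hc⟩ := fac_sca hs hf ψ hψ
    exact hne c hc
  · have ha := hM.four
    exact hM.nrk (rk1_fac hs hf (by omega) (rk1_of_big hs hb))

end MuL

open MuL in
theorem s_mu (h1 : S_GBR) (h2 : S_PERF) : S_MU := by
  intro H T _ _ _ _ per hM G Z h A hC
  obtain ⟨hav, h4, hend, x, hx, hx'⟩ := hM
  -- the dimension
  have hG : G = 4 := by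
    have e1 : finrank ℚ H = 2 * finrank ℂ T := hav.2.2.2.1
    have e2 := A.finrank_eq
    rw [Module.finrank_fintype_fun_eq_card, Fintype.card_sum, Fintype.card_fin, e1, h4] at e2
    omega
  -- the endomorphisms
  have hsc : Sca Z := by
    intro ψ hψ
    have e1 : St.IsHom per per (opQ A ψ) := by
      rw [hom_iff hC, matQ_opQ]
      exact hψ
    obtain ⟨c, hc⟩ := hend _ e1
    refine ⟨c, ?_⟩
    have e2 : opQ A ψ = c • LinearMap.id := LinearMap.ext hc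
    have e3 : matQ A (c • LinearMap.id) = c • (1 : Matrix (Fin G ⊕ Fin G) (Fin G ⊕ Fin G) ℚ) := by
      have e4 : matQ A (c • LinearMap.id) = c • matQ A LinearMap.id := map_smul (matE A) c _
      rw [e4]
      congr 1
      unfold matQ
      rw [LinearMap.id_comp]
      have e5 : A.toLinearMap ∘ₗ A.symm.toLinearMap = LinearMap.id := by
        refine LinearMap.ext fun v => ?_
        simp
      rw [e5, LinearMap.toMatrix'_id]
    rw [← e3, ← e2, matQ_opQ]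
  have hsimp := simple h hsc
  rcases four_scalar h hsimp hG hsc with hb | hb
  · exfalso
    have hbr : BrH Z := h1 G Z h (good (by omega) hsc hb)
    have hlef : ∀ X : Matrix (Fin G ⊕ Fin G) (Fin G ⊕ Fin G) ℂ,
        Xᵀ * Om G ℂ + Om G ℂ * X = 0 → X ∈ lefC Z := by
      intro X hX
      refine ⟨hX, fun φ hφ => ?_⟩
      obtain ⟨c, hc⟩ := hsc φ hφ
      rw [hc, qm_smul_one, Matrix.mul_smul, Matrix.smul_mul, Matrix.mul_one, Matrix.one_mul]
    have hle : ∀ X ∈ lefC Z, X ∈ LZ Z := by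
      intro X hX
      have e1 := h2 G X hX.1
      refine Submodule.span_le.2 ?_ e1
      rintro _ ⟨P, Q, hP, hQ, rfl⟩
      exact hbr P (hlef P hP) Q (hlef Q hQ)
    obtain ⟨t1, t2⟩ := s_tra H T per G Z h A hC
    exact hx' ((t2 x).2 (hle _ ((t1 x).1 hx)))
  · exact hb

end

end Pool.Agent.H926.T
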