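import Mathlib
import Pool.Agent.H926.T.Jobs4

/-!
# The symplectic Lie algebra is perfect
-/

set_option linter.unusedSectionVars false

namespace Pool.Agent.H926.T

open Matrix Module Pool.Agent.Y90 Pool.Agent.W437.HC Pool.Agent.W437.HD
  Pool.Agent.TH504.CB

namespace PerfL

variable {G : ℕ}

/-- The commutators. -/
def CS (G : ℕ) : Submodule ℂ (Matrix (Fin G ⊕ Fin G) (Fin G ⊕ Fin G) ℂ) :=
  Submodule.span ℂ {Y | ∃ A B : Matrix (Fin G ⊕ Fin G) (Fin G ⊕ Fin G) ℂ,
      Aᵀ * Om G ℂ + Om G ℂ * A = 0 ∧ Bᵀ * Om G ℂ + Om G ℂ * B = 0 ∧ Y = A * B - B * A}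

theorem sp_iff (a b c d : Matrix (Fin G) (Fin G) ℂ) :
    (fromBlocks a b c d)ᵀ * Om G ℂ + Om G ℂ * fromBlocks a b c d = 0 ↔
      cᵀ = c ∧ d = -aᵀ ∧ bᵀ = b := by
  rw [Om, fromBlocks_transpose, fromBlocks_multiply, fromBlocks_multiply, fromBlocks_add,
    ← fromBlocks_zero, fromBlocks_inj]
  simp only [mul_zero, zero_add, mul_neg, mul_one, add_zero, zero_mul, one_mul, neg_mul]
  constructor
  · rintro ⟨h1, h2, h3, h4⟩
    refine ⟨(neg_add_eq_zero.1 h1), (neg_eq_of_add_eq_zero_right h2).symm, ?_⟩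
    rw [← sub_eq_add_neg, sub_eq_zero] at h4
    exact h4
  · rintro ⟨h1, h2, h3⟩
    refine ⟨by rw [h1, neg_add_cancel], by rw [h2, add_neg_cancel], ?_, by rw [h3, add_neg_cancel]⟩
    rw [h2, transpose_neg, transpose_transpose, neg_neg, add_neg_cancel]

theorem hU (b : Matrix (Fin G) (Fin G) ℂ) (hb : bᵀ = b) : fromBlocks 0 b 0 0 ∈ CS G := by
  refine Submodule.subset_span ⟨fromBlocks 1 0 0 (-1), fromBlocks 0 ((1 / 2 : ℂ) • b) 0 0,
    (sp_iff _ _ _ _).2 ⟨transpose_zero, by rw [transpose_one], transpose_zero⟩,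
    (sp_iff _ _ _ _).2 ⟨transpose_zero, by rw [transpose_zero, neg_zero],
      by rw [transpose_smul, hb]⟩, ?_⟩
  rw [fromBlocks_multiply, fromBlocks_multiply, sub_eq_add_neg, fromBlocks_neg, fromBlocks_add,
    fromBlocks_inj]
  simp only [mul_zero, zero_add, mul_neg, mul_one, add_zero, zero_mul, one_mul, neg_mul, neg_zero,
    neg_neg, true_and, and_true]
  rw [← add_smul]
  norm_num

theorem hL (c : Matrix (Fin G) (Fin G) ℂ) (hc : cᵀ = c) : fromBlocks 0 0 c 0 ∈ CS G := by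
  refine Submodule.subset_span ⟨fromBlocks 0 0 ((1 / 2 : ℂ) • c) 0, fromBlocks 1 0 0 (-1),
    (sp_iff _ _ _ _).2 ⟨by rw [transpose_smul, hc], by rw [transpose_zero, neg_zero],
      transpose_zero⟩,
    (sp_iff _ _ _ _).2 ⟨transpose_zero, by rw [transpose_one], transpose_zero⟩, ?_⟩
  rw [fromBlocks_multiply, fromBlocks_multiply, sub_eq_add_neg, fromBlocks_neg, fromBlocks_add,
    fromBlocks_inj]
  simp only [mul_zero, zero_add, mul_neg, mul_one, add_zero, zero_mul, one_mul, neg_mul, neg_zero,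
    neg_neg, true_and, and_true]
  rw [← add_smul]
  norm_num

theorem hT (s t : Matrix (Fin G) (Fin G) ℂ) (hs : sᵀ = s) (ht : tᵀ = t) :
    fromBlocks (s * t) 0 0 (-(s * t)ᵀ) ∈ CS G := by
  refine Submodule.subset_span ⟨fromBlocks 0 s 0 0, fromBlocks 0 0 t 0,
    (sp_iff _ _ _ _).2 ⟨transpose_zero, by rw [transpose_zero, neg_zero], hs⟩,
    (sp_iff _ _ _ _).2 ⟨ht, by rw [transpose_zero, neg_zero], transpose_zero⟩, ?_⟩
  rw [fromBlocks_multiply, fromBlocks_multiply, sub_eq_add_neg, fromBlocks_neg, fromBlocks_add,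
    fromBlocks_inj, transpose_mul, hs, ht]
  simp only [mul_zero, zero_add, add_zero, zero_mul, neg_zero, true_and, and_true]

/-- The diagonal part. -/
def Tl (G : ℕ) : Matrix (Fin G) (Fin G) ℂ →ₗ[ℂ] Matrix (Fin G ⊕ Fin G) (Fin G ⊕ Fin G) ℂ where
  toFun a := fromBlocks a 0 0 (-aᵀ)
  map_add' a b := by
    rw [fromBlocks_add, transpose_add, neg_add, add_zero]
  map_smul' c a := by
    rw [RingHom.id_apply, fromBlocks_smul, transpose_smul, smul_neg, smul_zero]

theorem hTa (a : Matrix (Fin G) (Fin G) ℂ) : Tl G a ∈ CS G := by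
  rw [matrix_eq_sum_single a, map_sum]
  refine Submodule.sum_mem _ fun i _ => ?_
  rw [map_sum]
  refine Submodule.sum_mem _ fun j _ => ?_
  have h1 : Matrix.single i j (a i j) = a i j • Matrix.single i j (1 : ℂ) := by
    rw [smul_single, smul_eq_mul, mul_one]
  rw [h1, map_smul]
  refine Submodule.smul_mem _ _ ?_
  by_cases hij : i = j
  · subst hij
    have h2 := hT (Matrix.single i i (1 : ℂ)) (Matrix.single i i (1 : ℂ)) (by rw [transpose_single])
      (by rw [transpose_single])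
    rw [single_mul_single_same, mul_one] at h2
    exact h2
  · have h2 := hT (Matrix.single i i (1 : ℂ)) (Matrix.single i j (1 : ℂ) + Matrix.single j i 1)
      (by rw [transpose_single])
      (by rw [transpose_add, transpose_single, transpose_single, add_comm])
    rw [mul_add, single_mul_single_same, mul_one, single_mul_single_of_ne _ _ _ _ hij,
      add_zero] at h2
    exact h2

end PerfL

theorem s_perf : S_PERF := by
  intro G X hX
  obtain ⟨a, b, c, d, rfl⟩ : ∃ a b c d, X = fromBlocks a b c d :=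
    ⟨_, _, _, _, (fromBlocks_toBlocks X).symm⟩
  obtain ⟨h1, h2, h3⟩ := (PerfL.sp_iff a b c d).1 hX
  have e : fromBlocks a b c d = PerfL.Tl G a + fromBlocks 0 b 0 0 + fromBlocks 0 0 c 0 := by
    change _ = fromBlocks a 0 0 (-aᵀ) + fromBlocks 0 b 0 0 + fromBlocks 0 0 c 0
    rw [fromBlocks_add, fromBlocks_add, h2]
    simp only [add_zero, zero_add]
  rw [e]
  exact Submodule.add_mem _ (Submodule.add_mem _ (PerfL.hTa a) (PerfL.hU b h3)) (PerfL.hL c h1)

end Pool.Agent.H926.T
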