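import Mathlib
import Pool.Agent.H926.T.Jobs4

/-!
# S_T3L: definite quaternion algebras, dimension four and six
-/

set_option linter.unusedSectionVars false

namespace Pool.Agent.H926.T

open Matrix Module Pool.Agent.Y90 Pool.Agent.W437.HC Pool.Agent.W437.HD
  Pool.Agent.TH504.CB
open Pool.Agent.W548.Odd hiding cv
open Pool.Agent.W437.HP (cK cK_mul cK_one)
open Pool.Agent.H204R3.CM (IsHodge)
open Pool.Agent.H204R3.SP (Kills)
open Pool.Agent.Y4.P (WeilRing MaxM EigM)
open Pool.Agent.Y4.Q (GoodF4 T3M)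

noncomputable section

namespace T3lL

section form

variable {W : Type*} [AddCommGroup W] [Module ℂ W] [FiniteDimensional ℂ W]
  {S : W →ₗ[ℂ] W →ₗ[ℂ] ℂ}

/-- Dual bases. -/
theorem exists_dual (hsym : ∀ v w, S v w = S w v) (hnd : ∀ v, (∀ w, S v w = 0) → v = 0) :
    ∃ (n : ℕ) (e f : Basis (Fin n) ℂ W), ∀ i k, S (f i) (e k) = if k = i then 1 else 0 := by
  have hN : LinearMap.BilinForm.Nondegenerate (S : LinearMap.BilinForm ℂ W) :=
    ⟨fun v hv => hnd v hv, fun v hv => hnd v fun w => by rw [hsym]; exact hv w⟩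
  refine ⟨_, Module.finBasis ℂ W, LinearMap.BilinForm.dualBasis S hN (Module.finBasis ℂ W),
    fun i k => ?_⟩
  exact LinearMap.BilinForm.apply_dualBasis_left hN _ i k

/-- Expansion. -/
theorem expand {n : ℕ} {e f : Basis (Fin n) ℂ W} (hsym : ∀ v w, S v w = S w v)
    (hnd : ∀ v, (∀ w, S v w = 0) → v = 0)
    (h : ∀ i k, S (f i) (e k) = if k = i then 1 else 0) (w : W) :
    ∑ i, S (f i) w • e i = w ∧ ∑ i, S (e i) w • f i = w := by
  constructor
  · rw [← sub_eq_zero]
    apply hnd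
    intro v
    have h1 : ∀ k, S (∑ i, S (f i) w • e i - w) (f k) = 0 := by
      intro k
      rw [hsym, map_sub, map_sum]
      simp only [map_smul, h, smul_eq_mul, mul_ite, mul_one, mul_zero]
      rw [Finset.sum_ite_eq' Finset.univ k, if_pos (Finset.mem_univ k), sub_self]
    have h2 := f.ext (f₁ := S (∑ i, S (f i) w • e i - w)) (f₂ := 0) fun k => by
      rw [h1, LinearMap.zero_apply]
    rw [h2, LinearMap.zero_apply]
  · rw [← sub_eq_zero]
    apply hnd
    intro v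
    have h1 : ∀ k, S (∑ i, S (e i) w • f i - w) (e k) = 0 := by
      intro k
      rw [map_sub, map_sum, LinearMap.sub_apply, LinearMap.sum_apply]
      simp only [map_smul, LinearMap.smul_apply, h, smul_eq_mul, mul_ite, mul_one, mul_zero]
      rw [Finset.sum_ite_eq Finset.univ k, if_pos (Finset.mem_univ k), hsym, sub_self]
    have h2 := e.ext (f₁ := S (∑ i, S (e i) w • f i - w)) (f₂ := 0) fun k => by
      rw [h1, LinearMap.zero_apply]
    rw [h2, LinearMap.zero_apply]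

/-- Skew operators are combinations of the operators `wd`. -/
theorem skew_mem {L : Submodule ℂ (End ℂ W)} (hsym : ∀ v w, S v w = S w v)
    (hnd : ∀ v, (∀ w, S v w = 0) → v = 0) (hL : ∀ x y, wd S x y ∈ L) {A : End ℂ W}
    (hA : ∀ u v, S (A u) v = -S u (A v)) : A ∈ L := by
  obtain ⟨n, e, f, h⟩ := exists_dual hsym hnd
  have h1 : A = (1 / 2 : ℂ) • ∑ i, wd S (f i) (A (e i)) := by
    refine LinearMap.ext fun w => ?_
    rw [LinearMap.smul_apply, LinearMap.sum_apply]
    simp only [wd_apply]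
    rw [Finset.sum_sub_distrib]
    have e1 : ∑ i, S (f i) w • A (e i) = A w := by
      have h2 := congrArg A (expand hsym hnd h w).1
      rw [map_sum] at h2
      simp only [map_smul] at h2
      exact h2
    have e2 : ∑ i, S (A (e i)) w • f i = -A w := by
      have h2 := (expand hsym hnd h (A w)).2
      rw [← h2, ← Finset.sum_neg_distrib]
      refine Finset.sum_congr rfl fun i _ => ?_
      rw [hA, neg_smul]
    rw [e1, e2]
    module
  rw [h1]
  exact L.smul_mem _ (L.sum_mem fun i _ => hL _ _)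

end form

variable {g : ℕ} {Z : Matrix (Fin g) (Fin g) ℂ}

/-- Skew matrices. -/
theorem om_skew {X : Matrix (Fin g ⊕ Fin g) (Fin g ⊕ Fin g) ℂ}
    (hX : Xᵀ * Om g ℂ + Om g ℂ * X = 0) (u v : Fin g ⊕ Fin g → ℂ) :
    Pool.Agent.Y90.om g (X *ᵥ u) v + Pool.Agent.Y90.om g u (X *ᵥ v) = 0 := by
  rw [om_apply, om_apply, mulVec_mulVec, ← vecMul_transpose, ← dotProduct_mulVec,
    mulVec_mulVec, ← dotProduct_add, ← add_mulVec, hX, zero_mulVec, dotProduct_zero]

/-- The Lefschetz Lie algebra is the Hodge Lie algebra. -/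
theorem lef_le (h : PM Z) (hs : IsSimpleAV Z) (hT : T3M Z) (hg : g = 4 ∨ g = 6) :
    lefC Z ≤ LZ Z := by
  obtain ⟨b, j, d, e, t⟩ := exists_t3d h hs hT
  obtain ⟨z, hz⟩ : ∃ z : ℂ, z * z = (d : ℂ) := by
    obtain ⟨z, hz⟩ := IsAlgClosed.exists_eq_mul_self (d : ℂ)
    exact ⟨z, hz.symm⟩
  have hg0 : 0 < g := by omega
  have hfr := (t.irr hz h hs hg0).2
  have hsc := t.scal hz h hs hg0
  have hset := t.set hz h hs hg0
  have hsyf := t.syf hz h hs hg0
  have hDG : t.R hz (DZ Z) ∈ (LZ Z).map (t.R hz) := mem_mapR DZ_mem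
  have hD2 := (t.rep hz).sqD h
  have hwd : ∀ x y : EigM b z, wd (t.S hz) x y ∈ (LZ Z).map (t.R hz) := by
    intro x y
    rcases hg with h4 | h6
    · exact wl4 hset hsc hsyf (by rw [hfr, h4]) hDG hD2 x y
    · exact wl6 hset hsc hsyf (by rw [hfr, h6]) hDG hD2 x y
  intro X hX
  have hXb : X * qm b = qm b * X := hX.2 b t.mx.1
  have hXj : X * qm j = qm j * X := hX.2 j t.cj
  have hXA : X ∈ cA b j := mem_cA.2 ⟨hXb.symm, hXj.symm⟩
  have hsk : ∀ u v : EigM b z, t.S hz (t.R hz X u) v = -t.S hz u (t.R hz X v) := by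
    intro u v
    rw [t.S_apply, t.S_apply, t.coe_R hz hXA, t.coe_R hz hXA]
    have h1 : oJ j (ph (Fin g ⊕ Fin g) X (u : Fin g ⊕ Fin g → ℂ)) =
        X *ᵥ (oJ j (u : Fin g ⊕ Fin g → ℂ)) := by
      have h2 : ph (Fin g ⊕ Fin g) (qm j) * ph (Fin g ⊕ Fin g) X =
          ph (Fin g ⊕ Fin g) X * ph (Fin g ⊕ Fin g) (qm j) := by
        rw [← map_mul, ← map_mul, hXj]
      exact LinearMap.congr_fun h2 (u : Fin g ⊕ Fin g → ℂ)
    rw [h1]
    exact eq_neg_of_add_eq_zero_left (om_skew hX.1 _ _)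
  obtain ⟨Y, hY, hYR⟩ := skew_mem (hsyf.sym) hsyf.nd hwd hsk
  have hYA := (t.rep hz).le Y hY
  have h0 : t.R hz (X - Y) = 0 := by rw [map_sub, hYR, sub_self]
  have h1 := (t.rep hz).inj (X - Y) ((cA b j).sub_mem hXA hYA) h0
  rw [sub_eq_zero.1 h1]
  exact hY

end T3lL

open T3lL in
theorem s_t3l : S_T3L := by
  intro g Z h hs hT hg X hX Y hY
  exact LZ_br (lef_le h hs hT hg hX) (lef_le h hs hT hg hY)

end

end Pool.Agent.H926.T
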