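import Mathlib
import Pool.Agent.H926.T.Main2
import Pool.Agent.H926.T.Facp
import Pool.Agent.H926.T.Gbr
import Pool.Agent.H926.T.T3l
import Pool.Agent.H926.T.Brd
import Pool.Agent.H926.T.Perf
import Pool.Agent.H926.T.Mq
import Pool.Agent.H926.T.Mu
import Pool.Agent.H926.T.D0
import Pool.Agent.H926.T.D1
import Pool.Agent.H926.T.D2
import Pool.Agent.H926.T.D4

/-!
# All powers of the abelian varieties of dimension at most seven
-/

set_option linter.unusedSectionVars false

namespace Pool.Agent.H926.T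

open Module Pool.Agent.Y90
open Pool.Agent.H204R3.CM (IsHodge)
open Pool.Agent.Y4.P (WeilRing)

theorem r5 (H T : Type) [AddCommGroup H] [Module ℚ H] [AddCommGroup T] [Module ℂ T]
    (per : H →+ T) (hX : St.IsAV per) (h7 : finrank ℂ T ≤ 7) (n : ℕ) :
    (∀ (κ : Type) [Finite κ] (f : (Fin n → H) [⋀^κ]→ₗ[ℚ] ℚ),
      IsHodge (powPer per n) f → WeilRing (powPer per n) κ f) ↔
    (n ≤ 1 ∨ ∀ (H' T' : Type) [AddCommGroup H'] [Module ℚ H'] [AddCommGroup T'] [Module ℂ T']
      (per' : H' →+ T') (q : H →ₗ[ℚ] H'), St.IsHom per per' q → Function.Surjective q →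
        ¬IsMumfordType per') := by
  have hG := s_gbr s_facp
  exact main_seven hG s_t3l s_brd s_mq (s_mu hG s_perf) s_perf s_d0 s_d1 s_d2 s_d4 H T per hX h7 n

end Pool.Agent.H926.T
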