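import Mathlib
import Pool.Agent.H926.T.Jobs5
import Pool.Agent.H926.T.D1
import Pool.Agent.H926.T.T3l

/-!
# S_MS: the Hodge Lie algebra of a fourfold of Mumford's type is the sum of three copies of `sl_2`
-/

set_option linter.unusedSectionVars false

namespace Pool.Agent.H926.T.MsL914

open Module LinearMap Pool.Agent.W548.Odd

noncomputable section

variable {V : Type*} [AddCommGroup V] [Module ℂ V] [FiniteDimensional ℂ V]
  {E : V →ₗ[ℂ] V →ₗ[ℂ] ℂ} {p T T' : End ℂ V}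

/-- A skew operator commuting with a double structure is a combination of the operators `wed`. -/
theorem mem_of_wed (d : Dbl E p T T') {L : Submodule ℂ (End ℂ V)}
    (hw : ∀ u v, wed E p T T' u v ∈ L) {b : End ℂ V} (hsk : Skw E b) (hbp : b * p = p * b)
    (hbT : b * T = T * b) : b ∈ L := by
  obtain ⟨w, w1, w2, w3⟩ := d.exists_on
  have hexp : ∀ x, p x = x → x = ∑ i, E (T (w i)) x • w i := by
    intro x hx
    have hx' := w3 x hx
    clear hx
    induction hx' using Submodule.span_induction with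
    | mem x hx =>
      obtain ⟨j, rfl⟩ := hx
      simp only [w2, ite_smul, one_smul, zero_smul]
      rw [Finset.sum_ite_eq' Finset.univ j, if_pos (Finset.mem_univ _)]
    | zero => simp
    | add a b _ _ ha hb =>
      simp only [map_add, add_smul, Finset.sum_add_distrib]
      rw [← ha, ← hb]
    | smul c a _ ha =>
      simp only [map_smul, smul_eq_mul, mul_smul]
      rw [← Finset.smul_sum, ← ha]
  have hbp' : ∀ x, p (b x) = b (p x) := fun x => (LinearMap.congr_fun hbp x).symm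
  have hbT' : ∀ x, T (b x) = b (T x) := fun x => (LinearMap.congr_fun hbT x).symm
  -- the restriction to the range of `p`
  have hres : ∀ x, p x = x → (2 : ℂ) • b x =
      ∑ i, (E (T (w i)) x • b (w i) - E (T (b (w i))) x • w i) := by
    intro x hx
    rw [Finset.sum_sub_distrib]
    have e1 : ∑ i, E (T (w i)) x • b (w i) = b x := by
      have h2 := congrArg b (hexp x hx)
      rw [map_sum] at h2
      simp only [map_smul] at h2
      exact h2.symm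
    have e2 : ∑ i, E (T (b (w i))) x • w i = -b x := by
      have h2 := hexp (b x) (by rw [hbp', hx])
      rw [h2, ← Finset.sum_neg_distrib]
      refine Finset.sum_congr rfl fun i _ => ?_
      rw [hbT', hsk, neg_smul]
    rw [e1, e2, two_smul]
    abel
  have h1 : b = (1 / 2 : ℂ) • ∑ i, wed E p T T' (w i) (b (w i)) := by
    have h2 : (2 : ℂ) • b = ∑ i, wed E p T T' (w i) (b (w i)) := by
      refine LinearMap.ext fun x => ?_
      rw [LinearMap.sum_apply]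
      simp only [wed_apply, w1, hbp']
      rw [Finset.sum_add_distrib, ← hres (p x) (d.pp_ x)]
      have h3 : ∑ i, (E (T (w i)) (T' x) • T (b (w i)) - E (T (b (w i))) (T' x) • T (w i)) =
          T ((2 : ℂ) • b (T' x)) := by
        rw [hres (T' x) (d.pT'_ x), map_sum]
        simp only [map_sub, map_smul]
      rw [h3]
      have h4 : x = p x + T (T' x) := by
        rw [d.TT'_]
        abel
      rw [map_smul, hbT', ← smul_add, ← map_add, ← h4, LinearMap.smul_apply]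
    rw [← h2, smul_smul]
    norm_num
  rw [h1]
  exact L.smul_mem _ (L.sum_mem fun i _ => hw _ _)

section rho

variable {D N M : End ℂ V}

/-- The matrix algebra of a triple. -/
def rhoE (D N M : End ℂ V) : Matrix (Fin 2) (Fin 2) ℂ →ₗ[ℂ] End ℂ V where
  toFun X := X 0 0 • ((1 / 2 : ℂ) • (1 + D)) + X 0 1 • N + X 1 0 • M +
    X 1 1 • (1 - (1 / 2 : ℂ) • (1 + D))
  map_add' X Y := by
    simp only [Matrix.add_apply, add_smul]
    abel
  map_smul' c X := by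
    simp only [Matrix.smul_apply, smul_eq_mul, mul_smul, smul_add, RingHom.id_apply]

theorem rhoE_apply (X : Matrix (Fin 2) (Fin 2) ℂ) : rhoE D N M X =
    X 0 0 • ((1 / 2 : ℂ) • (1 + D)) + X 0 1 • N + X 1 0 • M +
      X 1 1 • (1 - (1 / 2 : ℂ) • (1 + D)) := rfl

theorem rhoE_one : rhoE D N M 1 = 1 := by
  rw [rhoE_apply]
  simp only [Matrix.one_apply_eq, Matrix.one_apply_ne (show (0 : Fin 2) ≠ 1 by decide),
    Matrix.one_apply_ne (show (1 : Fin 2) ≠ 0 by decide), one_smul, zero_smul, add_zero]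
  abel

theorem rhoE_mul (t : Trp D N M) (X Y : Matrix (Fin 2) (Fin 2) ℂ) :
    rhoE D N M (X * Y) = rhoE D N M X * rhoE D N M Y := by
  obtain ⟨P, hP⟩ : ∃ P, P = (1 / 2 : ℂ) • (1 + D) := ⟨_, rfl⟩
  have PN : P * N = N := by
    rw [hP, smul_mul_assoc, add_mul, one_mul, t.dn, ← two_smul ℂ N, smul_smul]
    norm_num
  have NP : N * P = 0 := by
    rw [hP, mul_smul_comm, mul_add, mul_one, t.nd, add_neg_cancel, smul_zero]
  have PM : P * M = 0 := by
    rw [hP, smul_mul_assoc, add_mul, one_mul, t.dm, add_neg_cancel, smul_zero]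
  have MP : M * P = M := by
    rw [hP, mul_smul_comm, mul_add, mul_one, t.md, ← two_smul ℂ M, smul_smul]
    norm_num
  have PP : P * P = P := by
    rw [hP]
    exact half_idem t.dd
  have NM : N * M = P := by rw [t.nm, hP]
  have MN : M * N = 1 - P := by rw [t.mn, hP]
  have NN := t.nn
  have MM := t.mm
  rw [rhoE_apply, rhoE_apply, rhoE_apply, ← hP]
  simp only [Matrix.mul_apply, Fin.sum_univ_two, add_mul, mul_add, smul_mul_smul_comm, mul_sub,
    sub_mul, one_mul, mul_one, PN, NP, PM, MP, PP, NM, MN, NN, MM, sub_self, sub_zero, smul_zero,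
    add_zero, zero_add, add_smul]
  simp only [smul_sub]
  abel

theorem comm_br {a b x : End ℂ V} (h1 : x * a = a * x) (h2 : x * b = b * x) :
    x * (a * b - b * a) = (a * b - b * a) * x := by
  calc x * (a * b - b * a) = (x * a) * b - (x * b) * a := by noncomm_ring
    _ = (a * x) * b - (b * x) * a := by rw [h1, h2]
    _ = a * (x * b) - b * (x * a) := by noncomm_ring
    _ = a * (b * x) - b * (a * x) := by rw [h1, h2]
    _ = (a * b - b * a) * x := by noncomm_ring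

theorem rhoE_comm {x : End ℂ V} (hN : x * N = N * x) (hM : x * M = M * x)
    (hD : x * D = D * x) (X : Matrix (Fin 2) (Fin 2) ℂ) :
    x * rhoE D N M X = rhoE D N M X * x := by
  rw [rhoE_apply]
  simp only [mul_add, add_mul, mul_smul_comm, smul_mul_assoc, mul_sub, sub_mul, mul_one, one_mul,
    hN, hM, hD]

theorem rhoE_sl {X : Matrix (Fin 2) (Fin 2) ℂ} (hX : X.trace = 0) :
    rhoE D N M X = X 0 0 • D + X 0 1 • N + X 1 0 • M := by
  have h1 : X 1 1 = -X 0 0 := by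
    rw [Matrix.trace_fin_two] at hX
    linear_combination hX
  rw [rhoE_apply, h1]
  module

end rho

end

end Pool.Agent.H926.T.MsL914

namespace Pool.Agent.H926.T

open Matrix Module Pool.Agent.Y90 Pool.Agent.W437.HC Pool.Agent.W437.HD
  Pool.Agent.TH504.CB
open Pool.Agent.W548.Odd hiding cv
open Pool.Agent.H204R3.SP (Kills)
open Pool.Agent.Y91.JP (trSt trace_inv)
open Pool.Agent.H841.MS (Ivt TA IsMS0 MSH Tn)

noncomputable section

open MsL914 in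
/-- The nine operators span the Lie algebra. -/
theorem MsL914.span_nine {g : ℕ} {Z : Matrix (Fin g) (Fin g) ℂ} (h : PM Z) (hM : MumM Z)
    {N M D₁ N₁ M₁ D₂ N₂ M₂ : End ℂ (Fin g ⊕ Fin g → ℂ)} (hN : N ∈ GG (LZ Z)) (hM' : M ∈ GG (LZ Z))
    (t : Trp (ph (Fin g ⊕ Fin g) (DZ Z)) N M) (hD₁ : D₁ ∈ GG (LZ Z)) (hN₁ : N₁ ∈ GG (LZ Z))
    (hM₁ : M₁ ∈ GG (LZ Z)) (t₁ : Trp D₁ N₁ M₁) (hD₂ : D₂ ∈ GG (LZ Z)) (hN₂ : N₂ ∈ GG (LZ Z))
    (hM₂ : M₂ ∈ GG (LZ Z)) (t₂ : Trp D₂ N₂ M₂)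
    (c1 : N * N₁ = N₁ * N ∧ N * M₁ = M₁ * N ∧ M * N₁ = N₁ * M ∧ M * M₁ = M₁ * M)
    (c2 : N * N₂ = N₂ * N ∧ N * M₂ = M₂ * N ∧ M * N₂ = N₂ * M ∧ M * M₂ = M₂ * M)
    (c3 : N₁ * N₂ = N₂ * N₁ ∧ N₁ * M₂ = M₂ * N₁ ∧ M₁ * N₂ = N₂ * M₁ ∧ M₁ * M₂ = M₂ * M₁)
    {L : Submodule ℂ (End ℂ (Fin g ⊕ Fin g → ℂ))}
    (lD : ph (Fin g ⊕ Fin g) (DZ Z) ∈ L) (lN : N ∈ L) (lM : M ∈ L) (lD₁ : D₁ ∈ L) (lN₁ : N₁ ∈ L)
    (lM₁ : M₁ ∈ L) (lD₂ : D₂ ∈ L) (lN₂ : N₂ ∈ L) (lM₂ : M₂ ∈ L) : GG (LZ Z) ≤ L := by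
  have hOm2 : Om g ℂ * Om g ℂ = -1 := Om_sq ℂ
  have hDG : ph (Fin g ⊕ Fin g) (DZ Z) ∈ GG (LZ Z) := mem_GG.2 DZ_mem
  have hsk : ∀ y ∈ GG (LZ Z), Skw (Pool.Agent.Y90.om g) y := by
    intro y hy x x'
    obtain ⟨X, hX, rfl⟩ := exists_GG hy
    exact eq_neg_of_add_eq_zero_left (h.om_sp hX x x')
  have htr : LinearMap.trace ℂ (Fin g ⊕ Fin g → ℂ) (ph (Fin g ⊕ Fin g) (DZ Z)) = 0 :=
    trace_inv h.setup (trSt hOm2) hDG
  have d := dbl_of_trp (E := Pool.Agent.Y90.om g) om_anti om_nd t (hsk _ hN) (hsk _ hM')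
  have c1' : N₁ * N = N * N₁ ∧ N₁ * M = M * N₁ ∧ M₁ * N = N * M₁ ∧ M₁ * M = M * M₁ :=
    ⟨c1.1.symm, c1.2.2.1.symm, c1.2.1.symm, c1.2.2.2.symm⟩
  have c2' : N₂ * N = N * N₂ ∧ N₂ * M = M * N₂ ∧ M₂ * N = N * M₂ ∧ M₂ * M = M * M₂ :=
    ⟨c2.1.symm, c2.2.2.1.symm, c2.2.1.symm, c2.2.2.2.symm⟩
  have hw := three_wed (E := Pool.Agent.Y90.om g) om_anti om_nd hsk (hM.fr h) t₁ t₂ t htr
    hD₁ hN₁ hM₁ hD₂ hN₂ hM₂ hN hM' c3 c1' c2'
  have hwL := three_wed (E := Pool.Agent.Y90.om g) (G := L ⊓ GG (LZ Z)) om_anti om_nd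
    (fun y hy => hsk y hy.2) (hM.fr h) t₁ t₂ t htr
    ⟨lD₁, hD₁⟩ ⟨lN₁, hN₁⟩ ⟨lM₁, hM₁⟩ ⟨lD₂, hD₂⟩ ⟨lN₂, hN₂⟩ ⟨lM₂, hM₂⟩ ⟨lN, hN⟩ ⟨lM, hM'⟩ c3 c1' c2'
  have hnt : Nontrivial (Fin g ⊕ Fin g → ℂ) :=
    Module.nontrivial_of_finrank_pos (R := ℂ) (by rw [hM.fr h]; omega)
  have hD0 : ph (Fin g ⊕ Fin g) (DZ Z) ≠ 0 := by
    intro h0
    have h1 := t.dd
    rw [h0, mul_zero] at h1
    exact zero_ne_one h1
  intro y hy
  obtain ⟨c₀, c₁, c₂, b, b1, b2, b3, hb⟩ := D1L.decomp d t rfl hN hM' hDG hD0 (by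
    intro a ha b hb
    obtain ⟨A, hA, rfl⟩ := exists_GG ha
    obtain ⟨B, hB, rfl⟩ := exists_GG hb
    rw [← map_mul, ← map_mul, ← map_sub]
    exact mem_GG.2 (LZ_br hA hB)) hsk (rk_half t.dd htr (m := 4) (by rw [hM.fr h])) hw (by
    intro R hR r1 r2 r3
    obtain ⟨A, hA, rfl⟩ := exists_GG hR
    have q1 : ph (Fin g ⊕ Fin g) (DZ Z) * ph (Fin g ⊕ Fin g) A = ph (Fin g ⊕ Fin g) A := by
      have h1 : ph (Fin g ⊕ Fin g) (DZ Z) =
          (2 : ℂ) • ((1 / 2 : ℂ) • (1 + ph (Fin g ⊕ Fin g) (DZ Z))) - 1 := by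
        rw [smul_smul]
        norm_num
      rw [h1, sub_mul, smul_mul_assoc, r1, one_mul, two_smul, add_sub_cancel_right]
    have q2 : ph (Fin g ⊕ Fin g) A * ph (Fin g ⊕ Fin g) (DZ Z) = -ph (Fin g ⊕ Fin g) A := by
      have h1 : ph (Fin g ⊕ Fin g) (DZ Z) =
          (2 : ℂ) • ((1 / 2 : ℂ) • (1 + ph (Fin g ⊕ Fin g) (DZ Z))) - 1 := by
        rw [smul_smul]
        norm_num
      rw [h1, mul_sub, mul_smul_comm, r2, smul_zero, mul_one, zero_sub]
    apply hM.nrk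
    refine ⟨DZ Z, Or.inl rfl, A, hA, ?_, ?_, ?_⟩
    · apply (ph (Fin g ⊕ Fin g)).injective
      rw [map_mul]
      exact q1
    · apply (ph (Fin g ⊕ Fin g)).injective
      rw [map_mul, map_neg]
      exact q2
    · rw [← r3]
      unfold rk
      rw [Submodule.map_top]
      rfl) hy
  have hbG : b ∈ GG (LZ Z) := by
    have h1 : b = y - (c₀ • ph (Fin g ⊕ Fin g) (DZ Z) + c₁ • N + c₂ • M) := by
      rw [hb]
      abel
    rw [h1]
    exact (GG (LZ Z)).sub_mem hy ((GG (LZ Z)).add_mem ((GG (LZ Z)).add_mem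
      ((GG (LZ Z)).smul_mem _ hDG) ((GG (LZ Z)).smul_mem _ hN)) ((GG (LZ Z)).smul_mem _ hM'))
  have hbL : b ∈ L := (mem_of_wed d hwL (hsk _ hbG) (by
    rw [mul_smul_comm, smul_mul_assoc, mul_add, add_mul, mul_one, one_mul, b1]) b3).1
  rw [hb]
  exact L.add_mem (L.add_mem (L.add_mem (L.smul_mem _ lD) (L.smul_mem _ lN)) (L.smul_mem _ lM)) hbL

open MsL914 in
theorem s_ms : S_MS := by
  intro g Z h hM
  obtain ⟨N, hN, M, hM', t, D₁, hD₁, N₁, hN₁, M₁, hM₁, t₁, D₂, hD₂, N₂, hN₂, M₂, hM₂, t₂, c1, c2,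
    c3⟩ := hM.three h
  have hDG : ph (Fin g ⊕ Fin g) (DZ Z) ∈ GG (LZ Z) := mem_GG.2 DZ_mem
  obtain ⟨R, hR⟩ : ∃ R : Fin 3 → Matrix (Fin 2) (Fin 2) ℂ →ₗ[ℂ] End ℂ (Fin g ⊕ Fin g → ℂ),
      R = ![rhoE (ph (Fin g ⊕ Fin g) (DZ Z)) N M, rhoE D₁ N₁ M₁, rhoE D₂ N₂ M₂] := ⟨_, rfl⟩
  have R0 : R 0 = rhoE (ph (Fin g ⊕ Fin g) (DZ Z)) N M := by rw [hR]; rfl
  have R1 : R 1 = rhoE D₁ N₁ M₁ := by rw [hR]; rfl
  have R2 : R 2 = rhoE D₂ N₂ M₂ := by rw [hR]; rfl
  have hmul : ∀ i X Y, R i (X * Y) = R i X * R i Y := by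
    intro i X Y
    fin_cases i
    · change R 0 (X * Y) = R 0 X * R 0 Y
      rw [R0]
      exact rhoE_mul t X Y
    · change R 1 (X * Y) = R 1 X * R 1 Y
      rw [R1]
      exact rhoE_mul t₁ X Y
    · change R 2 (X * Y) = R 2 X * R 2 Y
      rw [R2]
      exact rhoE_mul t₂ X Y
  have hone : ∀ i, R i 1 = 1 := by
    intro i
    fin_cases i
    · change R 0 1 = 1
      rw [R0]
      exact rhoE_one
    · change R 1 1 = 1
      rw [R1]
      exact rhoE_one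
    · change R 2 1 = 1
      rw [R2]
      exact rhoE_one
  -- two triples commute
  have cc : ∀ {D N M D' N' M' : End ℂ (Fin g ⊕ Fin g → ℂ)}, Trp D N M → Trp D' N' M' →
      (N * N' = N' * N ∧ N * M' = M' * N ∧ M * N' = N' * M ∧ M * M' = M' * M) →
      ∀ X Y, rhoE D N M X * rhoE D' N' M' Y = rhoE D' N' M' Y * rhoE D N M X := by
    intro D N M D' N' M' t t' c X Y
    have dN' : N' * D = D * N' := by
      rw [← t.sub]
      exact comm_br c.1.symm c.2.2.1.symm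
    have dM' : M' * D = D * M' := by
      rw [← t.sub]
      exact comm_br c.2.1.symm c.2.2.2.symm
    have hx : ∀ X, N' * rhoE D N M X = rhoE D N M X * N' := fun X =>
      rhoE_comm c.1.symm c.2.2.1.symm dN' X
    have hy : ∀ X, M' * rhoE D N M X = rhoE D N M X * M' := fun X =>
      rhoE_comm c.2.1.symm c.2.2.2.symm dM' X
    have hz : ∀ X, D' * rhoE D N M X = rhoE D N M X * D' := by
      intro X
      rw [← t'.sub]
      exact (comm_br (hx X).symm (hy X).symm).symm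
    exact rhoE_comm (hx X).symm (hy X).symm (hz X).symm Y
  have c01 := cc t t₁ c1
  have c02 := cc t t₂ c2
  have c12 := cc t₁ t₂ c3
  have hcomm : ∀ i i', i ≠ i' → ∀ X Y, R i X * R i' Y = R i' Y * R i X := by
    intro i i' hii X Y
    fin_cases i <;> fin_cases i' <;> first
      | exact absurd rfl hii
      | (change R 0 X * R 1 Y = R 1 Y * R 0 X; rw [R0, R1]; exact c01 X Y)
      | (change R 0 X * R 2 Y = R 2 Y * R 0 X; rw [R0, R2]; exact c02 X Y)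
      | (change R 1 X * R 2 Y = R 2 Y * R 1 X; rw [R1, R2]; exact c12 X Y)
      | (change R 1 X * R 0 Y = R 0 Y * R 1 X; rw [R0, R1]; exact (c01 Y X).symm)
      | (change R 2 X * R 0 Y = R 0 Y * R 2 X; rw [R0, R2]; exact (c02 Y X).symm)
      | (change R 2 X * R 1 Y = R 1 Y * R 2 X; rw [R1, R2]; exact (c12 Y X).symm)
  have hmem : ∀ i (X : Matrix (Fin 2) (Fin 2) ℂ), X.trace = 0 → R i X ∈ GG (LZ Z) := by
    have aux : ∀ {D N M : End ℂ (Fin g ⊕ Fin g → ℂ)}, D ∈ GG (LZ Z) → N ∈ GG (LZ Z) →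
        M ∈ GG (LZ Z) → ∀ X : Matrix (Fin 2) (Fin 2) ℂ, X.trace = 0 →
        rhoE D N M X ∈ GG (LZ Z) := by
      intro D N M h1 h2 h3 X hX
      rw [rhoE_sl hX]
      exact (GG (LZ Z)).add_mem ((GG (LZ Z)).add_mem ((GG (LZ Z)).smul_mem _ h1)
        ((GG (LZ Z)).smul_mem _ h2)) ((GG (LZ Z)).smul_mem _ h3)
    intro i X hX
    fin_cases i
    · change R 0 X ∈ _
      rw [R0]
      exact aux hDG hN hM' X hX
    · change R 1 X ∈ _
      rw [R1]
      exact aux hD₁ hN₁ hM₁ X hX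
    · change R 2 X ∈ _
      rw [R2]
      exact aux hD₂ hN₂ hM₂ X hX
  obtain ⟨ρ, hρ⟩ : ∃ ρ : Fin 3 → Matrix (Fin 2) (Fin 2) ℂ →ₗ[ℂ]
      Matrix (Fin g ⊕ Fin g) (Fin g ⊕ Fin g) ℂ,
      ρ = fun i => (ph (Fin g ⊕ Fin g)).symm.toLinearMap.comp (R i) := ⟨_, rfl⟩
  have hph : ∀ i X, ph (Fin g ⊕ Fin g) (ρ i X) = R i X := by
    intro i X
    rw [hρ]
    exact (ph (Fin g ⊕ Fin g)).apply_symm_apply (R i X)
  have hinj := (ph (Fin g ⊕ Fin g)).injective
  refine ⟨ρ, ⟨⟨?_, ?_, ?_, ?_, ?_⟩, ?_, ?_, ?_⟩⟩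
  · intro i X Y
    apply hinj
    rw [hph, hmul, ← hph i X, ← hph i Y]
    exact (map_mul (ph (Fin g ⊕ Fin g)) _ _).symm
  · intro i
    apply hinj
    rw [hph, hone, map_one]
  · intro i i' hii X Y
    apply hinj
    rw [map_mul, map_mul, hph, hph, hcomm i i' hii]
  · intro j
    exact mul_one 1
  · intro j j' hj
    exact absurd (Subsingleton.elim j j') hj
  · simp
  · intro j
    exact ⟨0, Subsingleton.elim _ _⟩
  · refine le_antisymm ?_ ?_
    · intro A hA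
      obtain ⟨L, hL⟩ : ∃ L, L = Submodule.span ℂ
          {M | ∃ (i : Fin 3) (X : Matrix (Fin 2) (Fin 2) ℂ), Matrix.trace X = 0 ∧ M = ρ i X} :=
        ⟨_, rfl⟩
      rw [← hL]
      have hLm : ∀ i (X : Matrix (Fin 2) (Fin 2) ℂ), X.trace = 0 →
          R i X ∈ L.map (ph (Fin g ⊕ Fin g)).toLinearMap := by
        intro i X hX
        refine ⟨ρ i X, ?_, hph i X⟩
        rw [hL]
        exact Submodule.subset_span ⟨i, X, hX, rfl⟩
      have nine : ∀ {D N M : End ℂ (Fin g ⊕ Fin g → ℂ)} (i : Fin 3), R i = rhoE D N M →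
          D ∈ L.map (ph (Fin g ⊕ Fin g)).toLinearMap ∧
          N ∈ L.map (ph (Fin g ⊕ Fin g)).toLinearMap ∧
          M ∈ L.map (ph (Fin g ⊕ Fin g)).toLinearMap := by
        intro D N M i hi
        refine ⟨?_, ?_, ?_⟩
        · have h1 := hLm i !![1, 0; 0, -1] (by rw [Matrix.trace_fin_two]; simp)
          rw [hi, rhoE_sl (by rw [Matrix.trace_fin_two]; simp)] at h1
          simpa using h1
        · have h1 := hLm i !![0, 1; 0, 0] (by rw [Matrix.trace_fin_two]; simp)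
          rw [hi, rhoE_sl (by rw [Matrix.trace_fin_two]; simp)] at h1
          simpa using h1
        · have h1 := hLm i !![0, 0; 1, 0] (by rw [Matrix.trace_fin_two]; simp)
          rw [hi, rhoE_sl (by rw [Matrix.trace_fin_two]; simp)] at h1
          simpa using h1
      obtain ⟨l1, l2, l3⟩ := nine 0 R0
      obtain ⟨l4, l5, l6⟩ := nine 1 R1
      obtain ⟨l7, l8, l9⟩ := nine 2 R2
      have h1 := span_nine h hM hN hM' t hD₁ hN₁ hM₁ t₁ hD₂ hN₂ hM₂ t₂ c1 c2 c3 l1 l2 l3 l4 l5 l6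
        l7 l8 l9 (mem_GG.2 hA)
      obtain ⟨A', hA', he⟩ := h1
      rw [← hinj he]
      exact hA'
    · rw [Submodule.span_le]
      rintro _ ⟨i, X, hX, rfl⟩
      obtain ⟨A, hA, he⟩ := exists_GG (hmem i X hX)
      have h1 : ρ i X = A := by
        apply hinj
        rw [hph, he]
      rw [h1]
      exact hA

end

end Pool.Agent.H926.T
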