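import Pool.Agent.H926.T.Jobs5

/-!
# S_MSI: fourfolds of Mumford's type are simple (helper282 for helper926)
-/

set_option linter.unusedSectionVars false

namespace Pool.Agent.H926.T

open Matrix Module Pool.Agent.Y90 Pool.Agent.W437.HC Pool.Agent.W437.HD
open Pool.Agent.W548.Odd hiding cv

namespace H282

variable {g : ℕ} {Z : Matrix (Fin g) (Fin g) ℂ}

/-- a rational vector as a real vector -/
def rc (u : Fin g ⊕ Fin g → ℚ) : Fin g ⊕ Fin g → ℝ := fun i => ((u i : ℚ) : ℝ)

/-- a rational vector as a complex vector -/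
def cc (u : Fin g ⊕ Fin g → ℚ) : Fin g ⊕ Fin g → ℂ := fun i => ((u i : ℚ) : ℂ)

/-- the complexification of a rational subspace -/
def UC (U : Submodule ℚ (Fin g ⊕ Fin g → ℚ)) : Submodule ℂ (Fin g ⊕ Fin g → ℂ) :=
  Submodule.span ℂ (cc '' (U : Set (Fin g ⊕ Fin g → ℚ)))

theorem perR_inj (hY : IsUnit (imM Z).det) : Function.Injective (perR Z) := by
  rw [injective_iff_map_eq_zero]
  intro x hx
  have h1 : imM Z *ᵥ (fun k => x (Sum.inr k)) = 0 := by
    funext i
    rw [← perR_im, hx]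
    rfl
  have h2 : (fun k => x (Sum.inr k)) = 0 := by
    have h3 : (imM Z)⁻¹ *ᵥ (imM Z *ᵥ (fun k => x (Sum.inr k))) = 0 := by
      rw [h1, mulVec_zero]
    rwa [mulVec_mulVec, nonsing_inv_mul _ hY, one_mulVec] at h3
  funext i
  rcases i with i | i
  · have h4 := perR_re Z x i
    rw [hx, h2, mulVec_zero] at h4
    have h5 : (0 : ℝ) = x (Sum.inl i) + 0 := h4
    show x (Sum.inl i) = 0
    linarith
  · exact congrFun h2 i

theorem JR_mem (hY : IsUnit (imM Z).det) (U : Submodule ℚ (Fin g ⊕ Fin g → ℚ))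
    (hU : ∀ x ∈ Submodule.span ℝ (perOne Z '' U),
      Complex.I • x ∈ Submodule.span ℝ (perOne Z '' U))
    (u : Fin g ⊕ Fin g → ℚ) (hu : u ∈ U) :
    JR Z *ᵥ rc u ∈ Submodule.span ℝ (rc '' (U : Set (Fin g ⊕ Fin g → ℚ))) := by
  have e1 : perOne Z '' (U : Set (Fin g ⊕ Fin g → ℚ)) =
      perR Z '' (rc '' (U : Set (Fin g ⊕ Fin g → ℚ))) := by
    rw [Set.image_image]
    refine Set.image_congr fun w _ => ?_
    rw [perOne_eq]
    rfl
  have h1 := hU (perOne Z u) (Submodule.subset_span ⟨u, hu, rfl⟩)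
  rw [e1, Submodule.span_image, perOne_eq] at h1
  have h2 : Complex.I • perR Z (fun i => ((u i : ℚ) : ℝ)) = perR Z (JR Z *ᵥ rc u) :=
    (perR_JR Z hY (rc u)).symm
  rw [h2] at h1
  obtain ⟨y, hy, hyx⟩ := h1
  rw [← perR_inj hY hyx]
  exact hy

theorem cast_mem (U : Submodule ℚ (Fin g ⊕ Fin g → ℚ)) (x : Fin g ⊕ Fin g → ℝ)
    (hx : x ∈ Submodule.span ℝ (rc '' (U : Set (Fin g ⊕ Fin g → ℚ)))) :
    (fun i => ((x i : ℝ) : ℂ)) ∈ UC U := by
  induction hx using Submodule.span_induction with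
  | mem w hw =>
    obtain ⟨u, hu, rfl⟩ := hw
    have h1 : (fun i => ((rc u i : ℝ) : ℂ)) = cc u := by
      funext i
      simp [rc, cc]
    rw [h1]
    exact Submodule.subset_span ⟨u, hu, rfl⟩
  | zero =>
    have h1 : (fun i => (((0 : Fin g ⊕ Fin g → ℝ) i : ℝ) : ℂ)) = 0 := by
      funext i
      simp
    rw [h1]
    exact Submodule.zero_mem _
  | add x y _ _ h1 h2 =>
    have h3 : (fun i => (((x + y) i : ℝ) : ℂ)) =
        (fun i => ((x i : ℝ) : ℂ)) + fun i => ((y i : ℝ) : ℂ) := by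
      funext i
      simp
    rw [h3]
    exact Submodule.add_mem _ h1 h2
  | smul a x _ h1 =>
    have h3 : (fun i => (((a • x) i : ℝ) : ℂ)) = (a : ℂ) • fun i => ((x i : ℝ) : ℂ) := by
      funext i
      simp
    rw [h3]
    exact Submodule.smul_mem _ _ h1

theorem DZ_mem_UC (hY : IsUnit (imM Z).det) (U : Submodule ℚ (Fin g ⊕ Fin g → ℚ))
    (hU : ∀ x ∈ Submodule.span ℝ (perOne Z '' U),
      Complex.I • x ∈ Submodule.span ℝ (perOne Z '' U))
    (u : Fin g ⊕ Fin g → ℚ) (hu : u ∈ U) : DZ Z *ᵥ cc u ∈ UC U := by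
  have h1 := cast_mem U _ (JR_mem hY U hU u hu)
  have h2 : DZ Z *ᵥ cc u = (-Complex.I) • (fun i => (((JR Z *ᵥ rc u) i : ℝ) : ℂ)) := by
    funext i
    unfold DZ
    have h3 : (((JR Z).map (fun x : ℝ => (x : ℂ))) *ᵥ cc u) i = (((JR Z *ᵥ rc u) i : ℝ) : ℂ) := by
      show ∑ j, ((JR Z i j : ℝ) : ℂ) * cc u j = ((∑ j, JR Z i j * rc u j : ℝ) : ℂ)
      rw [Complex.ofReal_sum]
      refine Finset.sum_congr rfl fun j _ => ?_
      rw [Complex.ofReal_mul]
      simp [rc, cc]
    rw [smul_mulVec, Pi.smul_apply, Pi.smul_apply, h3]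
  rw [h2]
  exact Submodule.smul_mem _ _ h1

theorem f_mem (U : Submodule ℚ (Fin g ⊕ Fin g → ℚ)) (w : Fin g ⊕ Fin g → ℂ) (hw : w ∈ UC U) :
    ∀ f : ℂ →ₗ[ℚ] ℂ, (fun i => f (w i)) ∈ UC U := by
  unfold UC at hw
  induction hw using Submodule.span_induction with
  | mem w hw =>
    obtain ⟨u, hu, rfl⟩ := hw
    intro f
    have h1 : (fun i => f (cc u i)) = f 1 • cc u := by
      funext i
      show f ((u i : ℚ) : ℂ) = f 1 * ((u i : ℚ) : ℂ)
      have h2 : ((u i : ℚ) : ℂ) = (u i) • (1 : ℂ) := by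
        rw [Rat.smul_def, mul_one]
      rw [h2, map_smul, Rat.smul_def, Rat.smul_def]
      ring
    rw [h1]
    exact Submodule.smul_mem _ _ (Submodule.subset_span ⟨u, hu, rfl⟩)
  | zero =>
    intro f
    have h1 : (fun i => f ((0 : Fin g ⊕ Fin g → ℂ) i)) = 0 := by
      funext i
      simp
    rw [h1]
    exact Submodule.zero_mem _
  | add x y _ _ h1 h2 =>
    intro f
    have h3 : (fun i => f ((x + y) i)) = (fun i => f (x i)) + fun i => f (y i) := by
      funext i
      simp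
    rw [h3]
    exact Submodule.add_mem _ (h1 f) (h2 f)
  | smul a x _ h1 =>
    intro f
    have h3 : (fun i => f ((a • x) i)) =
        fun i => (f.comp (LinearMap.mulLeft ℚ a)) (x i) := by
      funext i
      rfl
    rw [h3]
    exact h1 _

theorem map_stab (hY : IsUnit (imM Z).det) (U : Submodule ℚ (Fin g ⊕ Fin g → ℚ))
    (hU : ∀ x ∈ Submodule.span ℝ (perOne Z '' U),
      Complex.I • x ∈ Submodule.span ℝ (perOne Z '' U)) (f : ℂ →ₗ[ℚ] ℂ)
    (w : Fin g ⊕ Fin g → ℂ) (hw : w ∈ UC U) : (DZ Z).map f *ᵥ w ∈ UC U := by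
  unfold UC at hw
  induction hw using Submodule.span_induction with
  | mem w hw =>
    obtain ⟨u, hu, rfl⟩ := hw
    have h1 : (DZ Z).map f *ᵥ cc u = fun i => f ((DZ Z *ᵥ cc u) i) := by
      funext i
      show ∑ j, f (DZ Z i j) * ((u j : ℚ) : ℂ) = f (∑ j, DZ Z i j * ((u j : ℚ) : ℂ))
      rw [map_sum]
      refine Finset.sum_congr rfl fun j _ => ?_
      have h2 : DZ Z i j * ((u j : ℚ) : ℂ) = (u j) • DZ Z i j := by
        rw [Rat.smul_def]
        ring
      rw [h2, map_smul, Rat.smul_def]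
      ring
    rw [h1]
    exact f_mem U _ (DZ_mem_UC hY U hU u hu) f
  | zero =>
    rw [mulVec_zero]
    exact Submodule.zero_mem _
  | add x y _ _ h1 h2 =>
    rw [mulVec_add]
    exact Submodule.add_mem _ h1 h2
  | smul a x _ h1 =>
    rw [mulVec_smul]
    exact Submodule.smul_mem _ _ h1

theorem stab_UC (hY : IsUnit (imM Z).det) (U : Submodule ℚ (Fin g ⊕ Fin g → ℚ))
    (hU : ∀ x ∈ Submodule.span ℝ (perOne Z '' U),
      Complex.I • x ∈ Submodule.span ℝ (perOne Z '' U)) : Stab (LZ Z) (UC U) := by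
  let L : Submodule ℂ (Matrix (Fin g ⊕ Fin g) (Fin g ⊕ Fin g) ℂ) :=
    { carrier := {X | ∀ w ∈ UC U, X *ᵥ w ∈ UC U}
      zero_mem' := by
        intro w _
        rw [zero_mulVec]
        exact Submodule.zero_mem _
      add_mem' := by
        intro a b ha hb w hw
        rw [add_mulVec]
        exact Submodule.add_mem _ (ha w hw) (hb w hw)
      smul_mem' := by
        intro c a ha w hw
        rw [smul_mulVec]
        exact Submodule.smul_mem _ _ (ha w hw) }
  have hL : LAc {DZ Z} L := by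
    refine ⟨fun d hd f => ?_, fun A hA C hC => ?_⟩
    · rw [Set.mem_singleton_iff.1 hd]
      exact map_stab hY U hU f
    · intro w hw
      rw [sub_mulVec, ← mulVec_mulVec, ← mulVec_mulVec]
      exact Submodule.sub_mem _ (hA _ (hC w hw)) (hC _ (hA w hw))
  intro X hX
  exact (LA_le hL : LA {DZ Z} ≤ L) hX

end H282

open H282 in
theorem s_msi : S_MSI := by
  intro g Z h hM U hU
  rcases hM.irr.2.2 (UC U) le_top (stab_UC h.det U hU) with h1 | h1
  · left
    rw [Submodule.eq_bot_iff]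
    intro u hu
    have h2 : cc u ∈ UC U := Submodule.subset_span ⟨u, hu, rfl⟩
    rw [h1, Submodule.mem_bot] at h2
    funext i
    have h3 : ((u i : ℚ) : ℂ) = 0 := congrFun h2 i
    exact_mod_cast h3
  · right
    by_contra hne
    obtain ⟨f, hf0, hf⟩ := Submodule.exists_le_ker_of_lt_top U (lt_top_iff_ne_top.2 hne)
    have hfc : ∀ u, f u = ∑ i, f (Pi.single i 1) * u i := by
      intro u
      conv_lhs => rw [pi_eq_sum_univ' u]
      rw [map_sum]
      refine Finset.sum_congr rfl fun i _ => ?_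
      rw [map_smul, smul_eq_mul, mul_comm]
    have key : ∀ w ∈ UC U, ∑ i, ((f (Pi.single i 1) : ℚ) : ℂ) * w i = 0 := by
      intro w hw
      unfold UC at hw
      induction hw using Submodule.span_induction with
      | mem w hw =>
        obtain ⟨u, hu, rfl⟩ := hw
        have h2 : f u = 0 := hf hu
        rw [hfc] at h2
        have h3 : ((∑ i, f (Pi.single i 1) * u i : ℚ) : ℂ) = 0 := by
          rw [h2, Rat.cast_zero]
        rw [Rat.cast_sum] at h3
        rw [← h3]
        refine Finset.sum_congr rfl fun i _ => ?_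
        rw [Rat.cast_mul]
        rfl
      | zero => simp
      | add x y _ _ h1 h2 =>
        have h3 : ∑ i, ((f (Pi.single i 1) : ℚ) : ℂ) * (x + y) i =
            ∑ i, ((f (Pi.single i 1) : ℚ) : ℂ) * x i +
              ∑ i, ((f (Pi.single i 1) : ℚ) : ℂ) * y i := by
          rw [← Finset.sum_add_distrib]
          refine Finset.sum_congr rfl fun i _ => ?_
          rw [Pi.add_apply, mul_add]
        rw [h3, h1, h2, add_zero]
      | smul a x _ h1 =>
        have h3 : ∑ i, ((f (Pi.single i 1) : ℚ) : ℂ) * (a • x) i =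
            a * ∑ i, ((f (Pi.single i 1) : ℚ) : ℂ) * x i := by
          rw [Finset.mul_sum]
          refine Finset.sum_congr rfl fun i _ => ?_
          rw [Pi.smul_apply, smul_eq_mul]
          ring
        rw [h3, h1, mul_zero]
    apply hf0
    refine LinearMap.ext fun u => ?_
    rw [hfc]
    refine Finset.sum_eq_zero fun i _ => ?_
    have h2 := key (Pi.single i 1) (by rw [h1]; trivial)
    rw [Finset.sum_eq_single i] at h2
    · rw [Pi.single_eq_same, mul_one] at h2
      have h3 : f (Pi.single i 1) = 0 := by exact_mod_cast h2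
      rw [h3, zero_mul]
    · intro j _ hj
      rw [Pi.single_eq_of_ne hj, mul_zero]
    · intro hi
      exact absurd (Finset.mem_univ i) hi

end Pool.Agent.H926.T
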