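import Pool.Agent.H926.T.Jobs5

/-!
# S_WT and S_PT
-/

set_option linter.unusedSectionVars false

namespace Pool.Agent.H926.T

open Matrix Module Pool.Agent.Y90 Pool.Agent.W437.HC Pool.Agent.W437.HD
  Pool.Agent.TH504.CB
open Pool.Agent.W548.Odd hiding cv
open Pool.Agent.W437.HP (cK cK_mul cK_one)
open Pool.Agent.H204R3.CM (IsHodge)
open Pool.Agent.H204R3.SP (Kills)
open Pool.Agent.Y4.P (WeilRing)
open Pool.Agent.R915 (Sys IsFactor BQ cQ perQ AVQ)
open Pool.Agent.H841.MS (Ivt TA IsMS0 Tn TA_of_hodge)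

noncomputable section

namespace WtH935

/-- An abelian variety from a period map. -/
def mkAV {H T : Type} [AddCommGroup H] [Module ℚ H] [AddCommGroup T] [Module ℂ T]
    {per : H →+ T} (hY : Pool.Agent.Y90.St.IsAV per) : AV :=
  { H := H
    T := T
    finH := hY.1
    finT := hY.2.1
    per := per
    span := hY.2.2.1
    rank := hY.2.2.2.1
    pol := hY.2.2.2.2 }

variable {G : ℕ} {κ : Type} [Fintype κ]

/-- The coordinates of a power. -/
def eqv (G : ℕ) {κ : Type} {n : ℕ} (e : κ ≃ Fin n) :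
    (Fin n → (Fin G ⊕ Fin G → ℚ)) ≃ₗ[ℚ] (BQ (fun _ : κ => G) → ℚ) where
  toFun w := fun x => w (e x.1) x.2
  invFun v := fun i j => v ⟨e.symm i, j⟩
  left_inv w := by
    funext i j
    change w (e (e.symm i)) j = w i j
    rw [Equiv.apply_symm_apply]
  right_inv v := by
    funext x
    change v ⟨e.symm (e x.1), x.2⟩ = v x
    rw [Equiv.symm_apply_apply]
  map_add' _ _ := rfl
  map_smul' _ _ := rfl

/-- The same for the tangent spaces. -/
def tan (G : ℕ) {κ : Type} {n : ℕ} (e : κ ≃ Fin n) :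
    (Fin n → (Fin G → ℂ)) →ₗ[ℂ] (κ → (Fin G → ℂ)) where
  toFun w := fun x => w (e x)
  map_add' _ _ := rfl
  map_smul' _ _ := rfl

def tani (G : ℕ) {κ : Type} {n : ℕ} (e : κ ≃ Fin n) :
    (κ → (Fin G → ℂ)) →ₗ[ℂ] (Fin n → (Fin G → ℂ)) where
  toFun w := fun x => w (e.symm x)
  map_add' _ _ := rfl
  map_smul' _ _ := rfl

theorem tan_per {n : ℕ} (e : κ ≃ Fin n) (Z : Matrix (Fin G) (Fin G) ℂ)
    (w : Fin n → (Fin G ⊕ Fin G → ℚ)) :
    tan G e (powPer (perOne Z) n w) = perQ (fun _ : κ => Z) (eqv G e w) := rfl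

theorem tani_per {n : ℕ} (e : κ ≃ Fin n) (Z : Matrix (Fin G) (Fin G) ℂ)
    (v : BQ (fun _ : κ => G) → ℚ) :
    tani G e (perQ (fun _ : κ => Z) v) = powPer (perOne Z) n ((eqv G e).symm v) := rfl

end WtH935

theorem s_wt : S_WT := by
  intro 𝒜 hW X κ hκ f hf
  clear hκ
  generalize hper : X.per = per at hf
  subst hper
  induction hf with
  | unit f => exact 𝒜.unit f
  | divisor hκ f hf => exact 𝒜.divisor hκ f hf
  | weil hY f hf h hh =>
    exact 𝒜.pull (X := X) (Y := WtH935.mkAV hY) h hh f (hW (WtH935.mkAV hY) _ f hf)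
  | zero κ => exact 𝒜.zero X κ
  | add f g _ _ hf hg => exact 𝒜.add f g hf hg
  | smul a f _ hf => exact 𝒜.smul a f hf
  | reindex e f _ hf => exact 𝒜.reindex e f hf
  | cup f g _ _ h hh hf hg => exact 𝒜.cup f g hf hg h hh

theorem s_pt : S_PT := by
  intro 𝒜 hW G Z h hp κ _ _
  refine TA_of_hodge 𝒜 h κ fun r hr => ?_
  let n := Fintype.card κ
  let e : κ ≃ Fin n := Fintype.equivFin κ
  have h1 := hp n κ (r.compLinearMap (WtH935.eqv G e).toLinearMap)
    (isHodge_comp _ (WtH935.tan G e) (WtH935.tan_per e Z) hr)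
  have h2 := Pool.Agent.Y275.P.pull (per := perQ fun _ : κ => Z) h1
    (WtH935.eqv G e).symm.toLinearMap (WtH935.tani G e) (WtH935.tani_per e Z)
  have h3 : (r.compLinearMap (WtH935.eqv G e).toLinearMap).compLinearMap
      (WtH935.eqv G e).symm.toLinearMap = r := by
    ext v
    rw [AlternatingMap.compLinearMap_apply, AlternatingMap.compLinearMap_apply]
    congr 1
    funext k
    exact (WtH935.eqv G e).apply_symm_apply (v k)
  rw [h3] at h2
  exact s_wt 𝒜 hW (AVQ fun _ : κ => h) κ r h2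

end

end Pool.Agent.H926.T
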