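import Mathlib
import Pool.Agent.H926.T.Main3
import Pool.Agent.H926.T.Jobs5
import Pool.Agent.H926.T.Kt
import Pool.Agent.H926.T.Wt
import Pool.Agent.H926.T.Fz
import Pool.Agent.H926.T.Msi
import Pool.Agent.H926.T.Ms

/-!
# The Hodge conjecture for all powers in dimension at most seven
-/

set_option linter.unusedSectionVars false

namespace Pool.Agent.H926.T

open Matrix Module Pool.Agent.Y90 Pool.Agent.W437.HC Pool.Agent.W437.HD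
  Pool.Agent.TH504.CB
open Pool.Agent.W548.Odd hiding cv
open Pool.Agent.W437.HP (cK cK_mul cK_one)
open Pool.Agent.H204R3.CM (IsHodge)
open Pool.Agent.Y4.P (WeilRing)
open Pool.Agent.R915 (Sys IsFactor)
open Pool.Agent.H841.MS (Ivt TA IsMS0 Tn)
open Pool.Agent.N178.HW (prodAV)

noncomputable section

/-- Period matrices with the commutators of the Lefschetz Lie algebra. -/
theorem ivt_of_brh {𝒜 : Sys} (hW : AllW 𝒜) {G : ℕ} {Z : Matrix (Fin G) (Fin G) ℂ} (h : PM Z)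
    (hbr : BrH Z) (κ : Type) [Fintype κ] [DecidableEq κ] : Ivt (DZ Z) κ ≤ TA 𝒜 h κ := by
  refine s_pt 𝒜 hW G Z h ?_ κ
  have hC : Cht ((perOne Z).comp
      (LinearEquiv.refl ℚ (Fin G ⊕ Fin G → ℚ)).symm.toLinearMap.toAddMonoidHom) (JR Z) := h.cht
  obtain ⟨t1, t2⟩ := s_tra _ _ (perOne Z) G Z h _ hC
  refine (tstar h.isAV).2 fun x y hx hy => (t2 _).2 ?_
  rw [matQ_br, qm_br]
  exact hbr _ ((t1 x).1 hx) _ ((t1 y).1 hy)

theorem r5b (hMS : S_MS) (A : AV) (h7 : finrank ℚ A.H ≤ 14) (𝒜 : Sys) (hW : AllW 𝒜) :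
    (∀ X : AV, (∀ Y, IsFactor Y X → IsFactor Y A) → 𝒜.AllHodge X) ↔
      ∀ M : AV, IsFactor M A → IsMumfordType M.per → ∀ f : (prodAV M M).H [⋀^Fin 4]→ₗ[ℚ] ℚ,
        IsHodge (prodAV M M).per f → 𝒜.A (prodAV M M) (Fin 4) f := by
  constructor
  · intro hA M hM _ f hf
    refine hA (prodAV M M) (fun Y hY => ?_) (Fin 4) f hf
    have h1 : IsFactor Y M := (Pool.Agent.N178.HW.factor_prod hY).elim id id
    obtain ⟨hs, i, ⟨Φ, hΦ⟩, hi'⟩ := h1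
    obtain ⟨-, j, ⟨Ψ, hΨ⟩, hj'⟩ := hM
    exact ⟨hs, j.comp i, ⟨Ψ.comp Φ, fun v => by
      rw [LinearMap.comp_apply, hΦ, hΨ]
      rfl⟩, hj'.comp hi'⟩
  · intro hsq X hX
    have hAV : St.IsAV A.per := ⟨A.finH, A.finT, A.span, A.rank, A.pol⟩
    obtain ⟨G, Z, h, e, hC⟩ := exists_ppav hAV
    obtain ⟨z1, z2⟩ := s_fz A G Z h e hC
    have hG : G ≤ 7 := by
      have h1 := e.finrank_eq
      rw [Module.finrank_fintype_fun_eq_card, Fintype.card_sum, Fintype.card_fin] at h1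
      omega
    refine Pool.Agent.H841.MS.allHodge_of 𝒜 h (fun κ _ _ => ?_) X fun Y hY => (z1 Y).1 (hX Y hY)
    have hGB := s_gbr s_facp
    by_cases hm : ∃ (a : ℕ) (Z' : Matrix (Fin a) (Fin a) ℂ)
        (E : Matrix (Fin G ⊕ Fin G) (Fin a ⊕ Fin a) ℚ)
        (F : Matrix (Fin a ⊕ Fin a) (Fin G ⊕ Fin G) ℚ), Fac Z Z' E F ∧ PM Z' ∧ MumM Z'
    · obtain ⟨a, Z₁, E₁, F₁, hf, h₁, hM⟩ := hm
      obtain ⟨b, Z₂, E₂, F₂, h₂, D, hab⟩ := exists_compl h hf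
      have ha4 := hM.four
      have hs₁ := s_msi a Z₁ h₁ hM
      have hfac := z2 a Z₁ E₁ F₁ hf h₁ hs₁ (by omega)
      obtain ⟨q, -, -, hMT⟩ := s_mq _ _ A.per G Z h e hC a Z₁ E₁ F₁ hf h₁ hM
      obtain ⟨ρ, hρ⟩ := hMS a Z₁ h₁ hM
      refine s_kt G a b Z Z₁ Z₂ E₁ F₁ E₂ F₂ h h₁ h₂ D
        (mum_hsp h₁ hM (by omega) D h h₂) 𝒜 (fun κ _ _ => ?_)
        (fun κ _ _ => ivt_of_brh hW h₂ (hGB b Z₂ h₂ (good_three (by omega))) κ) κ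
      exact Pool.Agent.H841.MS.inv_mem_anti hρ (Pool.Agent.H841.MS.PM.sp' h₁) (Om_sq ℂ)
        (Om_transpose ℂ) (Pool.Agent.H841.MS.famTA 𝒜 h₁) (Pool.Agent.H841.MS.TA_two 𝒜 h₁)
        (fun t ht h1 h2 => Pool.Agent.H841.MS.TA_anti 𝒜 h₁
          (Pool.Agent.H841.MS.square_of 𝒜 h₁ (hsq (AVZ h₁) hfac hMT)) t ht h1 h2) κ
    · push Not at hm
      exact ivt_of_brh hW h (brh_seven hGB s_t3l s_brd h hG fun a Z' E F hf h' =>
        hm a Z' E F hf h') κ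

/-- The final form. -/
theorem r5c (A : AV) (h7 : finrank ℂ A.T ≤ 7) (𝒜 : Sys)
    (hW : ∀ (X : AV) (n : ℕ) (f : X.H [⋀^Fin n]→ₗ[ℚ] ℚ), Pool.Agent.Y4.P.IsWeilClass X.per n f →
      𝒜.A X (Fin n) f) :
    (∀ X : AV, (∀ Y, IsFactor Y X → IsFactor Y A) → 𝒜.AllHodge X) ↔
      ∀ M : AV, IsFactor M A → IsMumfordType M.per → ∀ f : (prodAV M M).H [⋀^Fin 4]→ₗ[ℚ] ℚ,
        IsHodge (prodAV M M).per f → 𝒜.A (prodAV M M) (Fin 4) f :=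
  r5b s_ms A (by rw [A.rank]; omega) 𝒜 hW

end

end Pool.Agent.H926.T
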