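import Mathlib
import Pool.Agent.H926.T3e
import Pool.Agent.H926.T.T3l
import Pool.Agent.H926.T.Jobs5
import Pool.Graph.R_pool_sql_team_seeded_63374d34.N183.TS.Main
import Pool.Graph.R_pool_sql_team_seeded_1acbe0a2.Y91.L.Tens

/-!
# The Mumford-Tate conjecture in dimension at most seven: lemma statements

`Z` is the period matrix of an abelian variety `X` over a number field, `LZ Z` the (complexified) Hodge
Lie algebra, `S` the set of the Hodge-Tate involutions, with the properties `TD Z S`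
(`Pool.Graph.R_seed8.Y224.TS.T2`), `LT S` the Lie algebra generated by `S`. We want: each multilinear
form killed by `S` is killed by `LZ Z`.
-/

set_option linter.unusedSectionVars false

namespace Pool.Agent.H926.T

open Matrix Module Pool.Agent.Y90 Pool.Agent.W437.HC Pool.Agent.W437.HD
  Pool.Agent.TH504.CB
open Pool.Agent.W548.Odd hiding cv
open Pool.Agent.W437.HP (cK cK_mul cK_one)
open Pool.Agent.H204R3.CM (IsHodge)
open Pool.Agent.H204R3.SP (Kills)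
open Pool.Agent.R915 (Sys IsFactor)
open Pool.Agent.Y224.TS (TD)
open Pool.Agent.N183.TS (SF Rk1D)
open Pool.Agent.Y4.Q (T3M)
open Pool.Agent.Y91.JP (Scal)
open Pool.Agent.Y4.P (MaxM EigM)

noncomputable section

/-- Forms killed by the set `S` are killed by the Lie algebra `LZ Z`. -/
def KillA {G : ℕ} (Z : Matrix (Fin G) (Fin G) ℂ)
    (S : Set (Matrix (Fin G ⊕ Fin G) (Fin G ⊕ Fin G) ℂ)) : Prop :=
  ∀ (κ : Type) [Fintype κ] [DecidableEq κ]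
    (φ : MultilinearMap ℂ (fun _ : κ => Fin G ⊕ Fin G → ℂ) ℂ),
    (∀ D ∈ S, Kills (ph (Fin G ⊕ Fin G) D) φ) → ∀ X ∈ LZ Z, Kills (ph (Fin G ⊕ Fin G) X) φ

/-- **S_LA (ideals which contain an operator of rank one).**

Proof. Write `tr` for `LinearMap.trace ℂ V`.
(1) The trace form on `𝔤` is nondegenerate: `Pool.Agent.N183.JP.trace_nondeg _hbr _hirr`
(`Pool.Graph.R_pool_sql_team_seeded_63374d34.N183.JP.Nondeg`).
(2) `C := {c ∈ 𝔤 | ∀ z ∈ K, tr (c * z) = 0}` is an ideal of `𝔤` (`trace_br` in that file). Let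
`A₀ := {y ∈ K ⊓ C | tr y = 0}`. `A₀ = ⊥` by `Pool.Agent.W363.OT.Cart.main` used with the group `rN2 𝔤 K`
exactly as in the proof of `rad0_eq` in that file (there `rN2 𝔤 𝔤`): the elements `X ∈ 𝔤` with
`X * X = (1 / 4) • 1` normalise `𝔤` and `K` (`unX_mem`), `SIrr` by `W125.OT.SIrrT.main`; `A₀` is stable
under brackets, under conjugation by the group (conjugation preserves traces, `𝔤` and `K`, hence `C`), its
elements have trace zero and `tr (x * y) = 0` for `x, y ∈ A₀`.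
(3) `K ⊓ C = ⊥`: for `y ∈ K ⊓ C` and `x ∈ 𝔤` the bracket `x * y - y * x` is in `A₀`, so it is zero; by
`Pool.Agent.Y126.JP.scal_of_irr` (as in the proof of `trace_nondeg`) `y` is a scalar `s`, and
`0 = tr (y * y) = s ^ 2 * finrank V`, so `y = 0`.
(4) `𝔤 = K + C`: the map `𝔤 → Dual K`, `c ↦ (z ↦ tr (c * z))` has kernel `C`, so
`finrank C ≥ finrank 𝔤 - finrank K`; with (3) `finrank (K ⊔ C) ≥ finrank 𝔤`.
(5) For `k ∈ K`, `c ∈ C`: `k * c - c * k ∈ K ⊓ C = ⊥`, so `k * c = c * k`.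
(6) `N` has rank one, let `w` span its range. For `c ∈ C`: `c w = μ w` (`c N = N c`), for some `μ = μ c`.
`U₀ := {u | ∀ c ∈ C, ∀ μ, c w = μ • w → c u = μ • u}` contains `w ≠ 0`, and is stable under `K` (it
commutes with `C`) and under `C`, so under `𝔤`; by `_hirr` `U₀ = ⊤`. So the elements of `C` are scalars.
(7) `x = k + c`, `y = k' + c'`: `x * y - y * x = k * k' - k' * k ∈ K`. -/
def S_LA : Prop :=
  ∀ (V : Type) [AddCommGroup V] [Module ℂ V] [FiniteDimensional ℂ V]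
    (𝔤 K : Submodule ℂ (End ℂ V)) (_hbr : ∀ X ∈ 𝔤, ∀ Y ∈ 𝔤, X * Y - Y * X ∈ 𝔤)
    (_hirr : ∀ W : Submodule ℂ V,
      (∀ X ∈ 𝔤, X * X = (1 / 4 : ℂ) • 1 → ∀ u ∈ W, X u ∈ W) → W = ⊥ ∨ W = ⊤)
    (_hK : K ≤ 𝔤) (_hKi : ∀ x ∈ 𝔤, ∀ y ∈ K, x * y - y * x ∈ K) (N : End ℂ V) (_hN : N ∈ K)
    (_hr : finrank ℂ (LinearMap.range N) = 1), ∀ x ∈ 𝔤, ∀ y ∈ 𝔤, x * y - y * x ∈ K

/-- **S_NU (the commutators on an irreducible submodule).** Uses S_LA (as a hypothesis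
`hLA : S_LA`).

Proof. If `finrank U = 1` each `X ∈ LT S` acts on `U` by a scalar and commutators by zero: `k = 0`.
Otherwise take `ε, N` from `Rk1D S D U`: `(ε • D) * N = N`, `N * (ε • D) = -N`, so
`2 • N = ε • (D * N - N * D) = -ε • (N * D - D * N)`, which is in `𝔨`. Apply S_LA with `V = U`,
`𝔤 = Pool.Agent.Y224.TS.resL (LT S) U`, `K = resL 𝔨 U` (`Pool.Graph.R_seed8.Y224.TS.T5`: `resL`,
`resL_br`, `resM`, `resM_coe`) and the restriction of `N` (rank one: `finrank_map_res`). `_hirr`: if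
`W ≤ U` is stable under all `X ∈ 𝔤` with `X * X = (1 / 4) • 1` then under `(1 / 2) • resM D'` for
`D' ∈ S`, so `W.map U.subtype` is stable under `S` and so under `LT S` (`LT_le`); see also `irr_res` or
similar in `Pool.Graph.R_pool_sql_team_seeded_63374d34.N183.TS.Loc`. -/
def S_NU : Prop :=
  ∀ (G : ℕ) (Z : Matrix (Fin G) (Fin G) ℂ) (S : Set (Matrix (Fin G ⊕ Fin G) (Fin G ⊕ Fin G) ℂ))
    (_h : TD Z S) (_hZ : PM Z) (𝔨 : Submodule ℂ (Matrix (Fin G ⊕ Fin G) (Fin G ⊕ Fin G) ℂ))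
    (_hk : 𝔨 ≤ Y224.TS.LT S) (_hki : ∀ X ∈ Y224.TS.LT S, ∀ Y ∈ 𝔨, X * Y - Y * X ∈ 𝔨)
    (D : Matrix (Fin G ⊕ Fin G) (Fin G ⊕ Fin G) ℂ) (_hD : D ∈ S) (_hDk : D ∈ 𝔨)
    (U : Submodule ℂ (Fin G ⊕ Fin G → ℂ)) (_hU : IrS (Y224.TS.LT S) U)
    (_hr : finrank ℂ U = 1 ∨ Rk1D S D U), ∀ X ∈ Y224.TS.LT S, ∀ Y ∈ Y224.TS.LT S,
      ∃ k ∈ 𝔨, ∀ u ∈ U, (X * Y - Y * X) *ᵥ u = k *ᵥ u

/-- **S_IND (induction over the irreducible submodules).**

Proof. Let `𝔩 = LT S`. For a stable submodule `M ≤ V₂` let `P M` be the statement: for all `X ∈ 𝔩`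
there are `k ∈ 𝔨`, `n ∈ 𝔩` with `n *ᵥ v = 0` for `v ∈ M` and `R X = R k + R n`. Strong induction on
`finrank M`. `M = ⊥`: `k = 0`, `n = X`. Otherwise there is an irreducible `U ≤ M` (minimal dimension;
see the library: `exists_irr`-like lemmas near `IrS`) and a stable complement `M'` of `U` in `M` (from
`h.cr U`: `π` commutes with `𝔩`, `M' = M ⊓ ker π`), `M = U ⊔ M'`, `finrank M' < finrank M`. By `_hp` each
`R X`, `X ∈ 𝔩`, is a linear combination of elements `R A * R B - R B * R A = R (A * B - B * A)`, `A, B ∈ 𝔩`; the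
set of `X` with the property is not needed to be a subspace: the property depends only on `R X` and is
stable under linear combinations, so let `R X = R (A * B - B * A)`. By `P M'`: `R A = R k + R n` with `n`
zero on `M'`. By `_hp` `R B = R B'` with `B'` in the span of the commutators of `𝔩`, and by `_hU` there
is `k' ∈ 𝔨` equal to `B'` on `U`; let `n' = B' - k' ∈ 𝔩`. Then
`R (A * B - B * A) = R A * R B - R B * R A = [R k + R n, R k' + R n'] = R (k'') + R (n * n' - n' * n)`,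
`k'' = [k, k'] + [k, n'] + [n, k'] ∈ 𝔨`, and `n * n' - n' * n` is zero on `U` (there `n'` is zero and `n`
preserves `U`) and on `M'` (`n` is zero, `n'` preserves `M'`), so on `M`. Finally `M = V₂`. -/
def S_IND : Prop :=
  ∀ (G : ℕ) (Z : Matrix (Fin G) (Fin G) ℂ) (S : Set (Matrix (Fin G ⊕ Fin G) (Fin G ⊕ Fin G) ℂ))
    (_h : TD Z S) (_hZ : PM Z) (𝔨 : Submodule ℂ (Matrix (Fin G ⊕ Fin G) (Fin G ⊕ Fin G) ℂ))
    (_hk : 𝔨 ≤ Y224.TS.LT S) (_hki : ∀ X ∈ Y224.TS.LT S, ∀ Y ∈ 𝔨, X * Y - Y * X ∈ 𝔨)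
    (V₂ : Submodule ℂ (Fin G ⊕ Fin G → ℂ)) (_hV : Stab (Y224.TS.LT S) V₂)
    (_hU : ∀ U ≤ V₂, IrS (Y224.TS.LT S) U → ∀ X ∈ Y224.TS.LT S, ∀ Y ∈ Y224.TS.LT S,
      ∃ k ∈ 𝔨, ∀ u ∈ U, (X * Y - Y * X) *ᵥ u = k *ᵥ u)
    (W : Type) [AddCommGroup W] [Module ℂ W] [FiniteDimensional ℂ W]
    (R : Matrix (Fin G ⊕ Fin G) (Fin G ⊕ Fin G) ℂ →ₗ[ℂ] End ℂ W)
    (_hR : ∀ X ∈ Y224.TS.LT S, ∀ Y ∈ Y224.TS.LT S, R (X * Y - Y * X) = R X * R Y - R Y * R X)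
    (_hp : ∀ x ∈ (Y224.TS.LT S).map R, x ∈ Submodule.span ℂ
      {z | ∃ a ∈ (Y224.TS.LT S).map R, ∃ b ∈ (Y224.TS.LT S).map R, z = a * b - b * a}),
    ∀ X ∈ Y224.TS.LT S, ∃ k ∈ 𝔨, ∃ n ∈ Y224.TS.LT S, (∀ v ∈ V₂, n *ᵥ v = 0) ∧ R X = R k + R n

/-- **S_RKF (transport of elements of rank one from a factor).**

Proof. As `Pool.Agent.N183.TS.Rk1T.of_fac`
(`Pool.Graph.R_pool_sql_team_seeded_63374d34.N183.TS.Rk`), whose proof keeps `D` and `ε`: there the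
element of `SF E F S` is the compression `cK ℂ F * D * cK ℂ E` of some `D ∈ S`, here `D` is given. -/
def S_RKF : Prop :=
  ∀ (G a : ℕ) (Z : Matrix (Fin G) (Fin G) ℂ) (Z' : Matrix (Fin a) (Fin a) ℂ)
    (E : Matrix (Fin G ⊕ Fin G) (Fin a ⊕ Fin a) ℚ) (F : Matrix (Fin a ⊕ Fin a) (Fin G ⊕ Fin G) ℚ)
    (S : Set (Matrix (Fin G ⊕ Fin G) (Fin G ⊕ Fin G) ℂ)) (_h : TD Z S) (_hf : Fac Z Z' E F)
    (_hZ : PM Z) (U : Submodule ℂ (Fin G ⊕ Fin G → ℂ)) (_hU : IrS (LZ Z) U)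
    (_h0 : ∃ u ∈ U, ml F u ≠ 0) (D : Matrix (Fin G ⊕ Fin G) (Fin G ⊕ Fin G) ℂ) (_hD : D ∈ S)
    (_h' : Rk1D (SF E F S) (cK ℂ F * D * cK ℂ E) (U.map (ml F))), Rk1D S D U

/-- **S_ST (type III: the structure of the second Lie algebra).** `t : T3D Z b j d e` and
`W = EigM b z`, `R = t.R hz`, `t.sW hz`, `t.S hz` are as in `Pool/Agent/H926/T3b.lean`, `T3c.lean`,
`T3e.lean` (there for `LZ Z` in the place of `LT S`).

Proof. Let `𝔩 = LT S`. Elements of `𝔩` commute with `qm b`, `qm j` (`h.comm'` of `TD`, since the elements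
of `LZ Z` do: `Y261.P.qm_comm t.mx.1`, `Y261.P.qm_comm t.cj`), so `𝔩 ≤ cA b j` (`mem_cA`); `R` is
multiplicative on `cA b j` and injective there (`(t.rep hz).mul`, `.inj`, `.one`, `t.coe_R hz`).
(1) `W` is irreducible for `𝔩`: `t.irr hz` and `h.irS`. `Scal`: an endomorphism `c` of `W` which commutes
with `𝔩.map R` is a scalar (Schur; `scal_irr`, or `Pool.Agent.Y126.JP.scal_of_irr` with the
irreducibility).
(2) `Setup (𝔩.map R) (t.sW hz)` (`Pool.Graph.R_seed8.W548.Odd.Basic`): `br` from `LT_br`; `st_mul`,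
`st_rk` are the fields of `t.set hz ..` for `LZ Z` (they do not mention the Lie algebra); `skew`: for
`X ∈ 𝔩`, `S (R X v) w = -S v (R X w)` for the nondegenerate form `t.S hz` (`h.sp'`, `t.S_apply`,
`oJ j` commutes with `ph _ X`), and `S (R X v) w = S v (t.sW hz (R X) w)` (`(t.syf hz ..).adj`), so
`t.sW hz (R X) = -R X` by `(t.syf hz ..).nd` and `.sym`; `nondeg`: `Pool.Agent.N183.JP.trace_nondeg`
(hypothesis `hirr`: for `D ∈ S` the operator `R ((1 / 2) • D)` has square `1 / 4`; a subspace stable under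
all `R D`, `D ∈ S`, is stable under `𝔩`); `gen`: `L` contains `R D` for `D ∈ S` (`R D * R D = 1`), so
`𝔩 ≤ L.comap R ⊓ ..` by `LT_le` (take the submodule `{X ∈ 𝔩 | R X ∈ L}`); `cr`: by irreducibility `M = ⊥`
or `M = ⊤`. -/
def S_ST : Prop :=
  ∀ (g : ℕ) (Z : Matrix (Fin g) (Fin g) ℂ) (b j : Matrix (Fin g ⊕ Fin g) (Fin g ⊕ Fin g) ℚ)
    (d e : ℚ) (t : T3D Z b j d e) (z : ℂ) (hz : z * z = (d : ℂ)) (_h : PM Z) (_hs : IsSimpleAV Z)
    (_hg : 0 < g) (S : Set (Matrix (Fin g ⊕ Fin g) (Fin g ⊕ Fin g) ℂ)) (_hS : TD Z S),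
    Y224.TS.LT S ≤ (cA b j).toSubmodule ∧ Scal ((Y224.TS.LT S).map (t.R hz)) ∧
      Setup ((Y224.TS.LT S).map (t.R hz)) (t.sW hz)

/-- **S_SO (type III: the second Lie algebra contains the first).** Uses S_ST (as a hypothesis
`hST : S_ST`).

Proof. As `t3_altFo` in `Pool/Agent/H926/T3e.lean`: with `hset`, `hsc` from S_ST for `S`, and
`hsyf = t.syf hz ..`, `wl4` and `wl6` (`Wlv.lean`, for the group `(LT S).map (t.R hz)`, the involution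
`t.R hz D`, `D ∈ S` from `_hS.ex`) give `wd (t.S hz) x y ∈ (LT S).map (t.R hz)` for all `x y`. Each
`X ∈ LZ Z` has `t.R hz X` skew for `t.S hz`, so `t.R hz X` is a linear combination of operators
`wd (t.S hz) x y` (`skew_mem`, see `Pool/Agent/H926/T/T3l.lean`), so `t.R hz X = t.R hz Y` with
`Y ∈ LT S`, and `X = Y` by injectivity on `cA b j`. -/
def S_SO : Prop :=
  ∀ (g : ℕ) (Z : Matrix (Fin g) (Fin g) ℂ) (b j : Matrix (Fin g ⊕ Fin g) (Fin g ⊕ Fin g) ℚ)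
    (d e : ℚ) (t : T3D Z b j d e) (z : ℂ) (hz : z * z = (d : ℂ)) (_h : PM Z) (_hs : IsSimpleAV Z)
    (_hg : g = 4 ∨ g = 6) (S : Set (Matrix (Fin g ⊕ Fin g) (Fin g ⊕ Fin g) ℂ)) (_hS : TD Z S),
    (∀ x y : EigM b z, wd (t.S hz) x y ∈ (Y224.TS.LT S).map (t.R hz)) ∧ LZ Z ≤ Y224.TS.LT S

/-- **S_SP4 (type III, dimension four: splitting).** Uses S_ST, S_NU, S_IND, S_RKF (as hypotheses; S_NU
may be used in its stated form, without S_LA).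

Proof. Let `𝔩 = LT S`, `S₁ = SF E₁ F₁ S`, `h₁ = tdF .. : TD Z₁ S₁` (`N183.TS.Fac`: `tdF`, `compT`, `liftT`,
`mulT`, `xe`, `fx`, `ef_commT`), `W = EigM b z`, `𝔬 = (LT S₁).map (t.R hz)`, and
`R₁ X = t.R hz (cK ℂ F₁ * X * cK ℂ E₁)` on `𝔩` (`𝔩.map R₁ = 𝔬`, multiplicative on `𝔩` by `mulT`). By S_ST we
have `hset`, `hsc` for `𝔬`, `hsyf`; `finrank W = 4`.
(1) Let `D ∈ S` (`_hS.ex`), `D₁ = cK ℂ F₁ * D * cK ℂ E₁ ∈ S₁`. By `wl4_gn` not all of `𝔬` is in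
`I₁ := gn 𝔬 (t.R hz D₁)`, so there is `D' ∈ S` with `t.R hz D'₁ ∉ I₁` (else `LT S₁` would be mapped to `I₁`,
`LT_le`), and by `invol_dich` `t.R hz D'₁ ∈ cen 𝔬 I₁`. Let `I' = gn 𝔬 (t.R hz D'₁) ≤ cen 𝔬 I₁`
(`gn_le`, `cen_idl`): its elements commute with those of `I₁`.
(2) `𝔨 = {X ∈ 𝔩 | R₁ X ∈ I'}` is an ideal of `𝔩` and `D' ∈ 𝔨`. Let `V₂ = LinearMap.range (ml E₂)`
(stable: `xe`). For an irreducible `U ≤ V₂`: `finrank U = 1`, or `Rk1D S D' U`: `ml F₂` is injective on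
`U`, `exists_fac h₂ ..` gives a simple factor `Z'` of `Z₂` (of dimension `≤ a₂ ≤ 3`: `fac_le`) with
`ml F' ≠ 0` on `U.map (ml F₂)`; `cls_small` (`N183.TS.Cls`) for `tdF` of this factor gives `Rk1D` there
for the compression of `D'`, and S_RKF (twice) gives `Rk1D S D' U`. So S_NU and then S_IND apply
(`_hp`: `𝔬` is perfect: by `wl4_trp` each `t.R hz D₁`, `D₁ ∈ S₁`, is a commutator `N * M - M * N` of
elements of `𝔬`, `Trp.sub`, and `LT_le`).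
(3) So `R₁ D = R₁ k + R₁ n` with `R₁ k ∈ I'`, `n ∈ 𝔩` zero on `V₂`. Let
`J = {R₁ n | n ∈ 𝔩, ∀ v ∈ V₂, n *ᵥ v = 0}`, an ideal of `𝔬`. For `x ∈ I₁`:
`(R₁ D) * x - x * (R₁ D) = (R₁ n) * x - x * (R₁ n) ∈ J`. With `N, M` from `wl4_trp` for `D₁`
(`N, M ∈ I₁`: `idl_of_pos`, `idl_of_neg`), `R₁ D * N - N * R₁ D = N + N` (`Trp.dn`, `Trp.nd`), so `N ∈ J`,
and `R₁ D = N * M - M * N ∈ J`.
(4) So for each `D ∈ S` there is `n ∈ 𝔩`, zero on `V₂`, with `t.R hz (n₁) = t.R hz D₁`, so `n₁ = D₁` by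
injectivity on `cA b j` (S_ST), and `n = cK ℂ E₁ * D₁ * cK ℂ F₁` (`n = E₁ n₁ F₁ + E₂ n₂ F₂` as in
`Dec.blocks`, `n₂ = 0`). So `cK ℂ E₁ * D₁ * cK ℂ F₁ ∈ 𝔩` for all `D₁ ∈ S₁`, and then for all
`X ∈ LT S₁` (`LT_le`, `F₁ E₁ = 1`). -/
def S_SP4 : Prop :=
  ∀ (G a₂ : ℕ) (Z : Matrix (Fin G) (Fin G) ℂ) (Z₁ : Matrix (Fin 4) (Fin 4) ℂ)
    (Z₂ : Matrix (Fin a₂) (Fin a₂) ℂ) (E₁ : Matrix (Fin G ⊕ Fin G) (Fin 4 ⊕ Fin 4) ℚ)
    (F₁ : Matrix (Fin 4 ⊕ Fin 4) (Fin G ⊕ Fin G) ℚ)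
    (E₂ : Matrix (Fin G ⊕ Fin G) (Fin a₂ ⊕ Fin a₂) ℚ)
    (F₂ : Matrix (Fin a₂ ⊕ Fin a₂) (Fin G ⊕ Fin G) ℚ) (_h : PM Z) (_h₁ : PM Z₁) (_h₂ : PM Z₂)
    (_D : Dec Z Z₁ Z₂ E₁ F₁ E₂ F₂) (_ha : a₂ ≤ 3) (_hs : IsSimpleAV Z₁) (_hT : T3M Z₁)
    (S : Set (Matrix (Fin G ⊕ Fin G) (Fin G ⊕ Fin G) ℂ)) (_hS : TD Z S),
    ∀ X ∈ Y224.TS.LT (SF E₁ F₁ S), cK ℂ E₁ * X * cK ℂ F₁ ∈ Y224.TS.LT S

/-- **S_SP6 (type III, dimension six: splitting).** Uses S_ST (as a hypothesis).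

Proof. As `Rep.hsp6` (`Pool/Agent/H926/Rep.lean`) and `t3_hsp` (`T3e.lean`, with `wl6_two`, `two_dep`,
`wl6_gn`), with `LT S`, `LT S₁` (`S₁ = SF E₁ F₁ S`) in the place of `LZ Zb`, `LZ Z` and any `D ∈ S`,
`D₁ = cK ℂ F₁ * D * cK ℂ E₁` in the place of `DZ Zb`, `DZ Z`. The lift of `N ∈ Kp`: `liftT`, then
`(1 / 4) • ((1 + D) * X * (1 - D))` (`gup_mem`, as in `Rk1T.of_fac`). The ideal `I` of `𝔬 = (LT S₁).map R`
contains `R D₁` (`invol_dich`, `central_zero`); since `gn 𝔬 (R D₁) = 𝔬` (`wl6_gn`), `I = 𝔬`, and the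
elements of `LT S₁` are determined by their images under `R` (S_ST). -/
def S_SP6 : Prop :=
  ∀ (G a₂ : ℕ) (Z : Matrix (Fin G) (Fin G) ℂ) (Z₁ : Matrix (Fin 6) (Fin 6) ℂ)
    (Z₂ : Matrix (Fin a₂) (Fin a₂) ℂ) (E₁ : Matrix (Fin G ⊕ Fin G) (Fin 6 ⊕ Fin 6) ℚ)
    (F₁ : Matrix (Fin 6 ⊕ Fin 6) (Fin G ⊕ Fin G) ℚ)
    (E₂ : Matrix (Fin G ⊕ Fin G) (Fin a₂ ⊕ Fin a₂) ℚ)
    (F₂ : Matrix (Fin a₂ ⊕ Fin a₂) (Fin G ⊕ Fin G) ℚ) (_h : PM Z) (_h₁ : PM Z₁) (_h₂ : PM Z₂)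
    (_D : Dec Z Z₁ Z₂ E₁ F₁ E₂ F₂) (_ha : a₂ ≤ 1) (_hs : IsSimpleAV Z₁) (_hT : T3M Z₁)
    (S : Set (Matrix (Fin G ⊕ Fin G) (Fin G ⊕ Fin G) ℂ)) (_hS : TD Z S),
    ∀ X ∈ Y224.TS.LT (SF E₁ F₁ S), cK ℂ E₁ * X * cK ℂ F₁ ∈ Y224.TS.LT S

/-- **S_KUT (Künneth).**

Proof. Let `φ` be killed by `S`, so by `LT S` (`Pool.Agent.Y224.TS.kills_LT`). For `D ∈ S` let
`Dᵢ = cK ℂ Fᵢ * D * cK ℂ Eᵢ`; `D = E₁ D₁ F₁ + E₂ D₂ F₂` (as `Dec.blocks` in `Pool/Agent/H926/Kun.lean`,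
with `N183.TS.xe`). (1) `φ` is killed by `E₁ X F₁` for `X ∈ LT (SF E₁ F₁ S)` by `_hsp`, in particular for
`X = D₁` and for `X ∈ LZ Z₁` (`_hle`). (2) So `φ` is killed by `E₂ D₂ F₂ = D - E₁ D₁ F₁` for `D ∈ S`.
(3) `φ` is killed by `E₂ Y F₂` for `Y ∈ LZ Z₂`: `v k = E₁ F₁ v k + E₂ F₂ v k`, and by multilinearity
`φ` is a sum over `s : κ → Bool` of terms with `E₁ (x k)` in the slots with `s k = false` and `E₂ (w k)`
in the slots with `s k = true`; for fixed `x` the form `w ↦ φ (..)` in the slots `{k // s k = true}` on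
`ℂ ^ (2 a₂)` is killed by `SF E₂ F₂ S` by (2) (`F₂ E₁ = 0`, `F₂ E₂ = 1`), so by `LZ Z₂` (`_H₂`); add up
(`MultilinearMap.map_sum` or `map_add_univ`; see `Dec.kunneth` in `Kun.lean` and `T/Kt.lean` for such
expansions). (4) For `X ∈ LZ Z`: `X = E₁ X₁ F₁ + E₂ X₂ F₂` (`Dec.blocks`), `Xᵢ ∈ LZ Zᵢ` (`Fac.comp`),
and both terms kill `φ`. -/
def S_KUT : Prop :=
  ∀ (G a₁ a₂ : ℕ) (Z : Matrix (Fin G) (Fin G) ℂ) (Z₁ : Matrix (Fin a₁) (Fin a₁) ℂ)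
    (Z₂ : Matrix (Fin a₂) (Fin a₂) ℂ) (E₁ : Matrix (Fin G ⊕ Fin G) (Fin a₁ ⊕ Fin a₁) ℚ)
    (F₁ : Matrix (Fin a₁ ⊕ Fin a₁) (Fin G ⊕ Fin G) ℚ)
    (E₂ : Matrix (Fin G ⊕ Fin G) (Fin a₂ ⊕ Fin a₂) ℚ)
    (F₂ : Matrix (Fin a₂ ⊕ Fin a₂) (Fin G ⊕ Fin G) ℚ) (_h : PM Z) (_h₁ : PM Z₁) (_h₂ : PM Z₂)
    (_D : Dec Z Z₁ Z₂ E₁ F₁ E₂ F₂) (S : Set (Matrix (Fin G ⊕ Fin G) (Fin G ⊕ Fin G) ℂ))
    (_hS : TD Z S)
    (_hsp : ∀ X ∈ Y224.TS.LT (SF E₁ F₁ S), cK ℂ E₁ * X * cK ℂ F₁ ∈ Y224.TS.LT S)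
    (_hle : LZ Z₁ ≤ Y224.TS.LT (SF E₁ F₁ S)) (_H₂ : KillA Z₂ (SF E₂ F₂ S)), KillA Z S

/-- **S_RDA (reduction to a factor, abelian varieties).**

Proof. Induction on the dimension of `X` (or strong induction on `finrank ℚ X.H`). Categorical notions:
`IsHom`, `IsSimple`, `IsFactor` (`Pool.Graph.R_seed8.R915`), products `Pool.Agent.N178.HW.prodAV`,
Poincaré reducibility in the library (`R915`, `N178.HW`, `N995.Facs`, `H841.MS`; e.g. a complement of a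
factor, or on the level of period matrices `Pool.Agent.H926.exists_compl`; choose the most convenient
level). If `X` has dimension zero take `B = 0`. Otherwise `X` has a simple factor `Y`, and `X` is isogenous
to `Y × X'`. The simple factors of `X'` are simple factors of `X`; let `B'` (with `i', r', P', Q', s'`) be
as in the statement for `X'`. (a) If there is a nonzero homomorphism `f : B' → Y` then there is
`g : Y → B'` with `f ∘ g = id` (`Y` is simple, the image of `f` is `Y`; the kernel of `f` has a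
complement, which is mapped isomorphically to `Y`). Take `B = B'`, `i = i'` composed with the
inclusion of `X'`, `r = r'` composed with the projection, and for `P, Q` the families `P', Q'`
(composed with the inclusion and projection of `X'`) and the additional pair `P = (inclusion of Y) ∘ f`,
`Q = g ∘ (projection to Y)`. (b) If there is no nonzero homomorphism `B' → Y` then there is no nonzero
homomorphism `Y → B'` either (a nonzero one is injective with a complement, so has a retraction). Take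
`B = prodAV B' Y` with the obvious `i, r`, `P, Q` and `s (x, y) = s' x + s_Y y`, where `s_Y : Y → A` is an
injective homomorphism (`Y` is a factor of `A`). `s` is injective: its kernel is an abelian subvariety
`N` of `B' × Y`; if `N ≠ 0`, the projection `N → Y` is injective (`s'` is injective) and the projection
`N → B'` is injective (`s_Y` is injective), so `N → Y` is an isomorphism (`Y` is simple, `N ≠ 0`) and
`Y ≅ N → B'` is a nonzero homomorphism, a contradiction. -/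
def S_RDA : Prop :=
  ∀ (A X : AV) (_hX : ∀ Y, IsFactor Y X → IsFactor Y A),
    ∃ (B : AV) (i : B.H →ₗ[ℚ] X.H) (r : X.H →ₗ[ℚ] B.H) (n : ℕ) (P : Fin n → (B.H →ₗ[ℚ] X.H))
      (Q : Fin n → (X.H →ₗ[ℚ] B.H)) (s : B.H →ₗ[ℚ] A.H),
      IsHom B X i ∧ IsHom X B r ∧ (∀ v, r (i v) = v) ∧ (∀ k, IsHom B X (P k)) ∧
        (∀ k, IsHom X B (Q k)) ∧ (∀ v, ∑ k, P k (Q k v) = v) ∧ IsHom B A s ∧ Function.Injective s

/-- **S_RDM (reduction to a factor, killed forms).**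

Proof. Let `φ` be killed by `S` and `X ∈ LZ Z`, `X' = cK ℂ F * X * cK ℂ E ∈ LZ Z'` (`Fac.comp`). For
`D ∈ S`, `D' = cK ℂ F * D * cK ℂ E`: `D * P k = P k * D'` and `X * P k = P k * X'` (all matrices over `ℂ`):
`P k * F` is a rational matrix which commutes with `DZ Z` (`_hP`, `Fac.fd`), so with all conjugates
`DS Z σ` and with `LZ Z`, so with `D` (`TD.comm`); `D * P k = D * (P k * F) * E = (P k * F) * D * E =
P k * D'`; the same for `X`. For `J : κ → Fin n` the form `φ_J w = φ (fun k => P (J k) *ᵥ w k)` on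
`ℂ ^ (2 a)` is killed by `D'`, `D ∈ S`, so by `X'` (`_H`). By `_hs`
`v k = ∑ l, P l *ᵥ (Q l *ᵥ v k)` and `X *ᵥ v k = ∑ l, P l *ᵥ (X' *ᵥ (Q l *ᵥ v k))`; expand
`∑ k, φ (Function.update v k (X *ᵥ v k))` by `MultilinearMap.map_sum`: it is the sum over `J` of the values
`∑ k, φ_J (update (fun k => Q (J k) *ᵥ v k) k (X' *ᵥ (Q (J k) *ᵥ v k))) = 0`. -/
def S_RDM : Prop :=
  ∀ (G a n : ℕ) (Z : Matrix (Fin G) (Fin G) ℂ) (Z' : Matrix (Fin a) (Fin a) ℂ)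
    (E : Matrix (Fin G ⊕ Fin G) (Fin a ⊕ Fin a) ℚ) (F : Matrix (Fin a ⊕ Fin a) (Fin G ⊕ Fin G) ℚ)
    (P : Fin n → Matrix (Fin G ⊕ Fin G) (Fin a ⊕ Fin a) ℚ)
    (Q : Fin n → Matrix (Fin a ⊕ Fin a) (Fin G ⊕ Fin G) ℚ) (_h : PM Z) (_h' : PM Z')
    (_hf : Fac Z Z' E F) (_hP : ∀ k, DZ Z * cK ℂ (P k) = cK ℂ (P k) * DZ Z')
    (_hQ : ∀ k, cK ℂ (Q k) * DZ Z = DZ Z' * cK ℂ (Q k)) (_hs : ∑ k, P k * Q k = 1)
    (S : Set (Matrix (Fin G ⊕ Fin G) (Fin G ⊕ Fin G) ℂ)) (_hS : TD Z S)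
    (_H : KillA Z' (SF E F S)), KillA Z S

end

end Pool.Agent.H926.T
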