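import Mathlib
import Pool.Agent.H926.T.Jobs6

/-!
# Induction over the irreducible submodules
-/

set_option linter.unusedSectionVars false

namespace Pool.Agent.H926.T

open Matrix Module Pool.Agent.Y90 Pool.Agent.W437.HC Pool.Agent.W437.HD
  Pool.Agent.TH504.CB
open Pool.Agent.W548.Odd hiding cv
open Pool.Agent.W437.HP (cK cK_mul cK_one)
open Pool.Agent.Y224.TS (TD)
open Pool.Agent.N183.TS (SF Rk1D)

noncomputable section

namespace H962

variable {B : Type} [Fintype B] [DecidableEq B]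

/-- the values `R k + R n` with `k` in the ideal and `n` zero on the subspace -/
def QM {W : Type} [AddCommGroup W] [Module ℂ W] (𝔩 𝔨 : Submodule ℂ (Matrix B B ℂ))
    (R : Matrix B B ℂ →ₗ[ℂ] End ℂ W) (M : Submodule ℂ (B → ℂ)) : Submodule ℂ (End ℂ W) where
  carrier := {w | ∃ k ∈ 𝔨, ∃ n ∈ 𝔩, (∀ v ∈ M, n *ᵥ v = 0) ∧ w = R k + R n}
  add_mem' := by
    rintro w w' ⟨k, hk, n, hn, h, rfl⟩ ⟨k', hk', n', hn', h', rfl⟩
    refine ⟨k + k', 𝔨.add_mem hk hk', n + n', 𝔩.add_mem hn hn', fun v hv => ?_, ?_⟩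
    · rw [add_mulVec, h v hv, h' v hv, add_zero]
    · rw [map_add, map_add]
      abel
  zero_mem' := ⟨0, 𝔨.zero_mem, 0, 𝔩.zero_mem, fun v _ => zero_mulVec v, by
    rw [map_zero, add_zero]⟩
  smul_mem' := by
    rintro c w ⟨k, hk, n, hn, h, rfl⟩
    refine ⟨c • k, 𝔨.smul_mem c hk, c • n, 𝔩.smul_mem c hn, fun v hv => ?_, ?_⟩
    · rw [smul_mulVec, h v hv, smul_zero]
    · rw [map_smul, map_smul, smul_add]

/-- the values `R B` with `B` equal on `U` to an element of the ideal -/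
def QU {W : Type} [AddCommGroup W] [Module ℂ W] (𝔩 𝔨 : Submodule ℂ (Matrix B B ℂ))
    (R : Matrix B B ℂ →ₗ[ℂ] End ℂ W) (U : Submodule ℂ (B → ℂ)) : Submodule ℂ (End ℂ W) where
  carrier := {w | ∃ b ∈ 𝔩, ∃ k ∈ 𝔨, (∀ v ∈ U, b *ᵥ v = k *ᵥ v) ∧ w = R b}
  add_mem' := by
    rintro w w' ⟨b, hb, k, hk, h, rfl⟩ ⟨b', hb', k', hk', h', rfl⟩
    refine ⟨b + b', 𝔩.add_mem hb hb', k + k', 𝔨.add_mem hk hk', fun v hv => ?_, ?_⟩
    · rw [add_mulVec, add_mulVec, h v hv, h' v hv]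
    · rw [map_add]
  zero_mem' := ⟨0, 𝔩.zero_mem, 0, 𝔨.zero_mem, fun v _ => rfl, by rw [map_zero]⟩
  smul_mem' := by
    rintro c w ⟨b, hb, k, hk, h, rfl⟩
    refine ⟨c • b, 𝔩.smul_mem c hb, c • k, 𝔨.smul_mem c hk, fun v hv => ?_, ?_⟩
    · rw [smul_mulVec, smul_mulVec, h v hv]
    · rw [map_smul]

end H962

open H962 in
/-- Induction over the irreducible submodules. -/
theorem s_ind : S_IND := by
  intro G Z S h hZ 𝔨 hk hki V₂ hV hU W _ _ _ R hR hp
  have hbr : ∀ X ∈ Y224.TS.LT S, ∀ Y ∈ Y224.TS.LT S, X * Y - Y * X ∈ Y224.TS.LT S :=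
    fun X hX Y hY => Y224.TS.LT_br hX hY
  have key : ∀ (m : ℕ) (M : Submodule ℂ (Fin G ⊕ Fin G → ℂ)), finrank ℂ M = m → M ≤ V₂ →
      Stab (Y224.TS.LT S) M → ∀ X ∈ Y224.TS.LT S, R X ∈ QM (Y224.TS.LT S) 𝔨 R M := by
    intro m
    induction m using Nat.strong_induction_on with
    | _ m ih =>
      intro M hm hMV hM X hX
      by_cases h0 : M = ⊥
      · refine ⟨0, 𝔨.zero_mem, X, hX, fun v hv => ?_, ?_⟩
        · rw [h0, Submodule.mem_bot] at hv
          rw [hv, mulVec_zero]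
        · rw [map_zero, zero_add]
      obtain ⟨U, hUM, hUi⟩ := exists_irS _ M rfl h0 hM
      obtain ⟨C, hC, hCM, hUC, hUC'⟩ := h.cr.compl hUi.2.1 hM hUM
      have hfr := finrank_split hUC hUC'
      have hUpos : 0 < finrank ℂ U := by
        rw [Nat.pos_iff_ne_zero, ne_eq, Submodule.finrank_eq_zero]
        exact hUi.1
      have hlt : finrank ℂ C < m := by omega
      have ihC := ih (finrank ℂ C) hlt C rfl (hCM.trans hMV) hC
      have hspU : Submodule.span ℂ {z | ∃ a ∈ (Y224.TS.LT S).map R,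
          ∃ b ∈ (Y224.TS.LT S).map R, z = a * b - b * a} ≤ QU (Y224.TS.LT S) 𝔨 R U := by
        rw [Submodule.span_le]
        rintro z ⟨a, ⟨A, hA, rfl⟩, b, ⟨B, hB, rfl⟩, rfl⟩
        obtain ⟨k, hk1, hk2⟩ := hU U (hUM.trans hMV) hUi A hA B hB
        exact ⟨A * B - B * A, hbr A hA B hB, k, hk1, hk2, (hR A hA B hB).symm⟩
      have hspM : Submodule.span ℂ {z | ∃ a ∈ (Y224.TS.LT S).map R,
          ∃ b ∈ (Y224.TS.LT S).map R, z = a * b - b * a} ≤ QM (Y224.TS.LT S) 𝔨 R M := by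
        rw [Submodule.span_le]
        rintro z ⟨a, ⟨A, hA, rfl⟩, b, ⟨B, hB, rfl⟩, rfl⟩
        obtain ⟨k, hk1, n, hn, hnC, hRA⟩ := ihC A hA
        obtain ⟨B', hB', k', hk', hBk, hRB⟩ := hspU (hp (R B) ⟨B, hB, rfl⟩)
        have hn' : B' - k' ∈ Y224.TS.LT S := Submodule.sub_mem _ hB' (hk hk')
        have hnU : ∀ u ∈ U, (B' - k') *ᵥ u = 0 := fun u hu => by
          rw [sub_mulVec, hBk u hu, sub_self]
        obtain ⟨n', hn'', hB'n⟩ : ∃ n', n' ∈ Y224.TS.LT S ∧ n' = B' - k' := ⟨_, hn', rfl⟩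
        rw [← hB'n] at hnU
        have hRB' : R B = R k' + R n' := by
          rw [hRB, hB'n, map_sub]
          abel
        have hkl := hk hk1
        have hkl' := hk hk'
        refine ⟨(k * k' - k' * k) + -(n' * k - k * n') + (n * k' - k' * n), ?_,
          n * n' - n' * n, hbr n hn n' hn'', ?_, ?_⟩
        · exact 𝔨.add_mem (𝔨.add_mem (hki k hkl k' hk') (𝔨.neg_mem (hki n' hn'' k hk1)))
            (hki n hn k' hk')
        · intro v hv
          rw [← hUC'] at hv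
          obtain ⟨u, hu, c, hc, rfl⟩ := Submodule.mem_sup.1 hv
          rw [sub_mulVec, mulVec_add, mulVec_add, ← mulVec_mulVec, ← mulVec_mulVec,
            ← mulVec_mulVec, ← mulVec_mulVec, hnU u hu, hnU _ (hUi.2.1 n hn u hu), hnC c hc,
            hnC _ (hC n' hn'' c hc), mulVec_zero, mulVec_zero]
          abel
        · rw [map_add, map_add, map_neg, hR k hkl k' hkl', hR n' hn'' k hkl, hR n hn k' hkl',
            hR n hn n' hn'', hRA, hRB']
          noncomm_ring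
      exact hspM (hp (R X) ⟨X, hX, rfl⟩)
  intro X hX
  obtain ⟨k, hk1, n, hn, hn', hRX⟩ := key _ V₂ rfl le_rfl hV X hX
  exact ⟨k, hk1, n, hn, hn', hRX⟩

end

end Pool.Agent.H926.T
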