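import Mathlib
import Pool.Agent.H926.T.Jobs6

/-!
# Kuenneth for killed forms
-/

set_option linter.unusedSectionVars false

namespace Pool.Agent.H926.T

namespace H97Kut

open Function

section

variable {V W : Type*} [AddCommGroup V] [Module ℂ V] [AddCommGroup W] [Module ℂ W]
  {κ : Type} [Fintype κ] [DecidableEq κ]

/-- Merging of two families. -/
def mrg (s : Finset κ) (z : κ → V) (y : {k // k ∉ s} → V) : κ → V :=
  fun k => if h : k ∉ s then y ⟨k, h⟩ else z k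

theorem mrg_mem {s : Finset κ} {z : κ → V} {y : {k // k ∉ s} → V} {k : κ} (h : k ∈ s) :
    mrg s z y k = z k := dif_neg (not_not.2 h)

theorem mrg_not {s : Finset κ} {z : κ → V} {y : {k // k ∉ s} → V} {k : κ} (h : k ∉ s) :
    mrg s z y k = y ⟨k, h⟩ := dif_pos h

theorem mrg_sum (φ : MultilinearMap ℂ (fun _ : κ => V) ℂ) (e : W →ₗ[ℂ] V) (f : V →ₗ[ℂ] W)
    (hfe : ∀ w, f (e w) = w) (s : Finset κ) (z : κ → V) (hz : ∀ k, f (z k) = 0)
    (A : Module.End ℂ W) (w : {k // k ∉ s} → W) :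
    ∑ k : {k // k ∉ s}, φ (mrg s z fun j => e (update w k (A (w k)) j)) =
      ∑ k : κ, φ (update (mrg s z fun j => e (w j)) k
        (e (A (f (mrg s z (fun j => e (w j)) k))))) := by
  have h1 : ∑ k : κ, φ (update (mrg s z fun j => e (w j)) k
      (e (A (f (mrg s z (fun j => e (w j)) k))))) =
      ∑ k ∈ Finset.univ.filter (fun k => k ∉ s), φ (update (mrg s z fun j => e (w j)) k
        (e (A (f (mrg s z (fun j => e (w j)) k))))) := by
    rw [Finset.sum_filter]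
    refine Finset.sum_congr rfl fun k _ => ?_
    by_cases hk : k ∈ s
    · rw [if_neg (not_not.2 hk), mrg_mem hk, hz, map_zero, map_zero, φ.map_update_zero]
    · rw [if_pos hk]
  rw [h1, Finset.sum_subtype (p := fun k => k ∉ s) (Finset.univ.filter (fun k => k ∉ s))
    (fun k => by simp)]
  refine Finset.sum_congr rfl fun k _ => ?_
  congr 1
  funext j
  by_cases hj : j = k.1
  · subst hj
    rw [update_self, mrg_not k.2, mrg_not k.2, hfe]
    show e (update w k (A (w k)) k) = e (A (w k))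
    rw [update_self]
  · rw [update_of_ne hj]
    by_cases hjs : j ∈ s
    · rw [mrg_mem hjs, mrg_mem hjs]
    · rw [mrg_not hjs, mrg_not hjs, update_of_ne]
      intro h
      exact hj (congrArg Subtype.val h)

/-- The derivation of a form. -/
noncomputable def der (φ : MultilinearMap ℂ (fun _ : κ => V) ℂ) (X : Module.End ℂ V) :
    MultilinearMap ℂ (fun _ : κ => V) ℂ :=
  ∑ k : κ, φ.compLinearMap fun j => if j = k then X else LinearMap.id

theorem der_apply (φ : MultilinearMap ℂ (fun _ : κ => V) ℂ) (X : Module.End ℂ V) (v : κ → V) :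
    der φ X v = ∑ k, φ (update v k (X (v k))) := by
  unfold der
  rw [_root_.sum_apply]
  refine Finset.sum_congr rfl fun k _ => ?_
  rw [MultilinearMap.compLinearMap_apply]
  congr 1
  funext j
  by_cases hj : j = k
  · subst hj
    rw [if_pos rfl, update_self]
  · rw [if_neg hj, update_of_ne hj]
    rfl

theorem kmain (φ : MultilinearMap ℂ (fun _ : κ => V) ℂ) (P : V →ₗ[ℂ] V) (e : W →ₗ[ℂ] V)
    (f : V →ₗ[ℂ] W) (hP : ∀ v, P v + e (f v) = v) (hfP : ∀ v, f (P v) = 0)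
    (hfe : ∀ w, f (e w) = w) (𝒮 : Set (Module.End ℂ W)) (Y : Module.End ℂ W)
    (hY : ∀ (β : Type) [Fintype β] [DecidableEq β] (ψ : MultilinearMap ℂ (fun _ : β => W) ℂ),
      (∀ D ∈ 𝒮, ∀ w : β → W, ∑ k, ψ (update w k (D (w k))) = 0) →
        ∀ w : β → W, ∑ k, ψ (update w k (Y (w k))) = 0)
    (hφ : ∀ D ∈ 𝒮, ∀ v : κ → V, ∑ k, φ (update v k (e (D (f (v k))))) = 0) (v : κ → V) :
    ∑ k, φ (update v k (e (Y (f (v k))))) = 0 := by
  have h1 := der_apply φ (e ∘ₗ Y ∘ₗ f) v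
  have h2 : ∑ k, φ (update v k (e (Y (f (v k))))) = der φ (e ∘ₗ Y ∘ₗ f) v := h1.symm
  rw [h2]
  have h3 : v = (fun k => P (v k)) + fun k => e (f (v k)) := by
    funext k
    exact (hP (v k)).symm
  rw [h3, MultilinearMap.map_add_univ]
  refine Finset.sum_eq_zero fun s _ => ?_
  -- the restricted form
  let ψ : MultilinearMap ℂ (fun _ : {k // k ∉ s} => W) ℂ :=
    (φ.domDomRestrict (fun k => k ∉ s) (fun k => P (v k))).compLinearMap fun _ => e
  have hψ : ∀ w, ψ w = φ (mrg s (fun k => P (v k)) fun j => e (w j)) := by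
    intro w
    show (φ.domDomRestrict (fun k => k ∉ s) (fun k => P (v k))).compLinearMap (fun _ => e) w = _
    rw [MultilinearMap.compLinearMap_apply, MultilinearMap.domDomRestrict_apply]
    rfl
  have hz : ∀ k, f (P (v k)) = 0 := fun k => hfP _
  have h4 := hY {k // k ∉ s} ψ (by
    intro D hD w
    have h5 := mrg_sum φ e f hfe s (fun k => P (v k)) hz D w
    rw [hφ D hD] at h5
    rw [← h5]
    exact Finset.sum_congr rfl fun k _ => hψ _) fun k => f (v k)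
  have h5 := mrg_sum φ e f hfe s (fun k => P (v k)) hz Y fun k => f (v k)
  have h6 : ∑ k : {k // k ∉ s}, φ (mrg s (fun k => P (v k))
      fun j => e (update (fun k : {k // k ∉ s} => f (v k)) k (Y (f (v k))) j)) = 0 := by
    rw [← h4]
    exact Finset.sum_congr rfl fun k _ => (hψ _).symm
  rw [h6] at h5
  rw [der_apply]
  have h7 : (s.piecewise (fun k => P (v k)) fun k => e (f (v k))) =
      mrg s (fun k => P (v k)) fun j => e (f (v j)) := by
    funext k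
    by_cases hk : k ∈ s
    · rw [Finset.piecewise_eq_of_mem _ _ _ hk, mrg_mem hk]
    · rw [Finset.piecewise_eq_of_notMem _ _ _ hk, mrg_not hk]
  rw [h7]
  exact h5.symm

end

end H97Kut

open Matrix Module Pool.Agent.Y90 Pool.Agent.W437.HC Pool.Agent.W437.HD
  Pool.Agent.TH504.CB
open Pool.Agent.W548.Odd hiding cv
open Pool.Agent.W437.HP (cK cK_mul cK_one)
open Pool.Agent.H204R3.SP (Kills)
open Pool.Agent.N183.TS (SF)
open H97Kut

theorem s_kut : S_KUT := by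
  intro G a₁ a₂ Z Z₁ Z₂ E₁ F₁ E₂ F₂ h h₁ h₂ d S hS hsp hle H₂ κ _ _ φ hφ X hX
  have K1 : ∀ X ∈ Y224.TS.LT (SF E₁ F₁ S), ∀ v : κ → Fin G ⊕ Fin G → ℂ,
      ∑ k, φ (Function.update v k ((cK ℂ E₁ * X * cK ℂ F₁) *ᵥ v k)) = 0 :=
    fun X hX => Pool.Agent.Y224.TS.kills_LT hφ (hsp X hX)
  have K2 : ∀ D ∈ SF E₂ F₂ S, ∀ v : κ → Fin G ⊕ Fin G → ℂ,
      ∑ k, φ (Function.update v k ((cK ℂ E₂ * D * cK ℂ F₂) *ᵥ v k)) = 0 := by
    rintro _ ⟨D, hD, rfl⟩ v
    have hDL : D ∈ Y224.TS.LT S := Y224.TS.LT_gen hD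
    have e1 := Pool.Agent.N183.TS.xe d.f₁ hS hDL
    have e2 := Pool.Agent.N183.TS.xe d.f₂ hS hDL
    have e3 : cK ℂ E₂ * (cK ℂ F₂ * D * cK ℂ E₂) * cK ℂ F₂ =
        D - cK ℂ E₁ * (cK ℂ F₁ * D * cK ℂ E₁) * cK ℂ F₁ := by
      rw [← e1, ← e2, eq_sub_iff_add_eq, Matrix.mul_assoc, Matrix.mul_assoc D,
        ← Matrix.mul_add, add_comm, d.csum, Matrix.mul_one]
    have e4 : ∀ k, φ (Function.update v k
        ((cK ℂ E₂ * (cK ℂ F₂ * D * cK ℂ E₂) * cK ℂ F₂) *ᵥ v k)) =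
        φ (Function.update v k (D *ᵥ v k)) - φ (Function.update v k
          ((cK ℂ E₁ * (cK ℂ F₁ * D * cK ℂ E₁) * cK ℂ F₁) *ᵥ v k)) := by
      intro k
      rw [e3, sub_mulVec, φ.map_update_sub]
    have e5 : ∑ k, φ (Function.update v k (D *ᵥ v k)) = 0 := hφ D hD v
    change ∑ k, φ (Function.update v k
        ((cK ℂ E₂ * (cK ℂ F₂ * D * cK ℂ E₂) * cK ℂ F₂) *ᵥ v k)) = 0
    rw [Finset.sum_congr rfl fun k _ => e4 k, Finset.sum_sub_distrib, e5,
      K1 _ (Y224.TS.LT_gen ⟨D, hD, rfl⟩), sub_zero]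
  have K3 : ∀ Y ∈ LZ Z₂, ∀ v : κ → Fin G ⊕ Fin G → ℂ,
      ∑ k, φ (Function.update v k ((cK ℂ E₂ * Y * cK ℂ F₂) *ᵥ v k)) = 0 := by
    intro Y hY v
    have e1 : ∀ (A : Matrix (Fin a₂ ⊕ Fin a₂) (Fin a₂ ⊕ Fin a₂) ℂ) (u : Fin G ⊕ Fin G → ℂ),
        (cK ℂ E₂ * A * cK ℂ F₂) *ᵥ u = ml E₂ (ph (Fin a₂ ⊕ Fin a₂) A (ml F₂ u)) := by
      intro A u
      rw [ml_apply, ph_apply', ml_apply, mulVec_mulVec, mulVec_mulVec]
    have e2 := kmain φ ((ml E₁).comp (ml F₁)) (ml E₂) (ml F₂)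
      (fun u => by
        change ml E₁ (ml F₁ u) + ml E₂ (ml F₂ u) = u
        rw [ml_apply, ml_apply, ml_apply, ml_apply, mulVec_mulVec, mulVec_mulVec, ← add_mulVec,
          d.csum, one_mulVec])
      (fun u => by
        change ml F₂ (ml E₁ (ml F₁ u)) = 0
        rw [ml_apply, ml_apply E₁, mulVec_mulVec, d.c21, zero_mulVec])
      (fun u => by rw [ml_apply, ml_apply, mulVec_mulVec, d.f₂.fe', one_mulVec])
      (ph (Fin a₂ ⊕ Fin a₂) '' SF E₂ F₂ S) (ph (Fin a₂ ⊕ Fin a₂) Y)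
      (fun β _ _ ψ hψ => H₂ β ψ (fun D hD => hψ _ ⟨D, hD, rfl⟩) Y hY)
      (by
        rintro _ ⟨D, hD, rfl⟩ u
        rw [← K2 D hD u]
        exact Finset.sum_congr rfl fun k _ => by rw [e1])
      v
    rw [← e2]
    exact Finset.sum_congr rfl fun k _ => by rw [e1]
  intro v
  change ∑ k, φ (Function.update v k (X *ᵥ v k)) = 0
  have e1 := d.blocks hX
  have e2 : ∀ k, φ (Function.update v k (X *ᵥ v k)) =
      φ (Function.update v k ((cK ℂ E₁ * (cK ℂ F₁ * X * cK ℂ E₁) * cK ℂ F₁) *ᵥ v k)) +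
        φ (Function.update v k ((cK ℂ E₂ * (cK ℂ F₂ * X * cK ℂ E₂) * cK ℂ F₂) *ᵥ v k)) := by
    intro k
    rw [← φ.map_update_add, ← add_mulVec, ← e1]
  rw [Finset.sum_congr rfl fun k _ => e2 k, Finset.sum_add_distrib,
    K1 _ (hle (d.f₁.comp hX).1), K3 _ (d.f₂.comp hX).1, add_zero]

end Pool.Agent.H926.T
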