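import Mathlib
import Pool.Agent.H926.T.Jobs6
import Pool.Graph.R_pool_sql_team_seeded_63374d34.N183.JP.Nondeg

/-!
# Ideals of irreducible Lie algebras which contain an operator of rank one (helper354)
-/

set_option linter.unusedSectionVars false

namespace Pool.Agent.H354.LA

open Module
open Pool.Agent.W528.Odd (Nz unX unX_mem rN2 SIrr trace_br orth)

noncomputable section

variable {V : Type} [AddCommGroup V] [Module ℂ V] [FiniteDimensional ℂ V]
  {𝔤 K : Submodule ℂ (End ℂ V)} (hbr : ∀ X ∈ 𝔤, ∀ Y ∈ 𝔤, X * Y - Y * X ∈ 𝔤)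
  (hirr : ∀ W : Submodule ℂ V, (∀ X ∈ 𝔤, X * X = (1 / 4 : ℂ) • 1 → ∀ u ∈ W, X u ∈ W) →
    W = ⊥ ∨ W = ⊤)
  (hK : K ≤ 𝔤) (hKi : ∀ x ∈ 𝔤, ∀ y ∈ K, x * y - y * x ∈ K)

include hbr hKi in
theorem orth_ideal : ∀ x ∈ 𝔤, ∀ y ∈ orth 𝔤 K, x * y - y * x ∈ orth 𝔤 K := by
  rintro x hx y ⟨hy, hyz⟩
  refine ⟨hbr x hx y hy, fun z hz => ?_⟩
  have h1 : x * y - y * x = -(y * x - x * y) := by abel
  rw [h1, neg_mul, map_neg, trace_br, hyz _ (hKi x hx z hz), neg_zero]

/-- the elements of trace zero of the intersection -/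
def A0 (𝔤 K : Submodule ℂ (End ℂ V)) : Submodule ℂ (End ℂ V) :=
  K ⊓ orth 𝔤 K ⊓ LinearMap.ker (LinearMap.trace ℂ V)

theorem mem_A0 {y : End ℂ V} : y ∈ A0 𝔤 K ↔ y ∈ K ∧ y ∈ orth 𝔤 K ∧ LinearMap.trace ℂ V y = 0 := by
  rw [A0, Submodule.mem_inf, Submodule.mem_inf, LinearMap.mem_ker, and_assoc]

include hbr hirr hK hKi in
theorem A0_eq : A0 𝔤 K = ⊥ := by
  have hS : SIrr (rN2 𝔤 K) := by
    refine Pool.Agent.W125.OT.SIrrT.main ℂ V _ (rN2 𝔤 K) 𝔤 ?_ hirr
    intro X hX hXX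
    exact ⟨⟨unX hXX, unX_mem hXX (fun y hy => hbr X hX y hy),
      unX_mem hXX (fun y hy => hKi X hX y hy)⟩, rfl⟩
  refine Pool.Agent.W363.OT.Cart.main ℂ V _ (rN2 𝔤 K) hS _ ?_ ?_ ?_ ?_
  · intro x hx y hy
    rw [mem_A0] at hx hy ⊢
    obtain ⟨hx1, hx2, hx3⟩ := hx
    obtain ⟨hy1, hy2, hy3⟩ := hy
    refine ⟨hKi x (hK hx1) y hy1, orth_ideal hbr hKi x (hK hx1) y hy2, ?_⟩
    rw [map_sub, LinearMap.trace_mul_comm, sub_self]
  · intro g x hx
    rw [mem_A0] at hx ⊢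
    obtain ⟨hx0, ⟨hx1, hx2⟩, hx3⟩ := hx
    have h0 : LinearMap.trace ℂ V (rN2 𝔤 K g * x * rN2 𝔤 K g⁻¹) = LinearMap.trace ℂ V x := by
      rw [LinearMap.trace_mul_comm, ← mul_assoc, ← map_mul, inv_mul_cancel, map_one, one_mul]
    refine ⟨g.2.2.1 x hx0, ⟨g.2.1.1 x hx1, fun z hz => ?_⟩, by rw [h0, hx3]⟩
    have h1 := hx2 _ (g.2.2.2 z hz)
    have h2 : LinearMap.trace ℂ V (rN2 𝔤 K g * x * rN2 𝔤 K g⁻¹ * z) =
        LinearMap.trace ℂ V (x * (rN2 𝔤 K g⁻¹ * z * rN2 𝔤 K g)) := by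
      have h3 : rN2 𝔤 K g * x * rN2 𝔤 K g⁻¹ * z = rN2 𝔤 K g * (x * (rN2 𝔤 K g⁻¹ * z)) := by
        simp only [mul_assoc]
      rw [h3, LinearMap.trace_mul_comm]
      simp only [mul_assoc]
    exact h2.trans h1
  · intro x hx
    exact (mem_A0.1 hx).2.2
  · intro x hx y hy
    rw [LinearMap.trace_mul_comm]
    exact (mem_A0.1 hy).2.1.2 x (mem_A0.1 hx).1

include hbr hirr hK hKi in
theorem inf_eq : K ⊓ orth 𝔤 K = ⊥ := by
  rw [eq_bot_iff]
  rintro y ⟨hy1, hy2⟩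
  have hc : ∀ x ∈ 𝔤, y * x = x * y := by
    intro x hx
    have h1 : x * y - y * x ∈ A0 𝔤 K := by
      rw [mem_A0]
      refine ⟨hKi x hx y hy1, orth_ideal hbr hKi x hx y hy2, ?_⟩
      rw [map_sub, LinearMap.trace_mul_comm, sub_self]
    rw [A0_eq hbr hirr hK hKi, Submodule.mem_bot] at h1
    exact (sub_eq_zero.1 h1).symm
  obtain ⟨s, hs⟩ := Pool.Agent.Y126.JP.scal_of_irr (G := 𝔤)
    (fun W hW => hirr W fun X hX _ => hW X hX) y hc
  have h1 := hy2.2 y hy1
  rw [hs, smul_mul_smul_comm, mul_one, map_smul, LinearMap.trace_one, smul_eq_mul] at h1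
  rw [Submodule.mem_bot]
  rcases mul_eq_zero.1 h1 with h2 | h2
  · rw [hs, mul_self_eq_zero.1 h2, zero_smul]
  · have h3 : finrank ℂ V = 0 := by exact_mod_cast h2
    have : Subsingleton V := Module.finrank_zero_iff.1 h3
    exact LinearMap.ext fun v => Subsingleton.elim _ _

include hK in
theorem sup_orth (hinf : K ⊓ orth 𝔤 K = ⊥) {y : End ℂ V} (hy : y ∈ 𝔤) :
    ∃ x ∈ K, y - x ∈ orth 𝔤 K := by
  let B : K →ₗ[ℂ] Dual ℂ K :=
    { toFun := fun x =>
        { toFun := fun z => LinearMap.trace ℂ V ((x : End ℂ V) * z)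
          map_add' := fun a b => by rw [Submodule.coe_add, mul_add, map_add]
          map_smul' := fun c a => by
            rw [Submodule.coe_smul, mul_smul_comm, map_smul, RingHom.id_apply] }
      map_add' := fun a b => by
        refine LinearMap.ext fun z => ?_
        change LinearMap.trace ℂ V (((a + b : K) : End ℂ V) * z) = _
        rw [Submodule.coe_add, add_mul, map_add]
        rfl
      map_smul' := fun c a => by
        refine LinearMap.ext fun z => ?_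
        change LinearMap.trace ℂ V (((c • a : K) : End ℂ V) * z) = _
        rw [Submodule.coe_smul, smul_mul_assoc, map_smul]
        rfl }
  have hinj : Function.Injective B := by
    rw [injective_iff_map_eq_zero]
    intro x hx
    have h1 : (x : End ℂ V) ∈ K ⊓ orth 𝔤 K := by
      refine ⟨x.2, hK x.2, fun z hz => ?_⟩
      exact congrArg (fun f : Dual ℂ K => f ⟨z, hz⟩) hx
    rw [hinf, Submodule.mem_bot] at h1
    exact Subtype.ext h1
  have hsurj : Function.Surjective B :=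
    (LinearMap.injective_iff_surjective_of_finrank_eq_finrank
      (Subspace.dual_finrank_eq (K := ℂ) (V := K)).symm).1 hinj
  obtain ⟨x, hx⟩ := hsurj
    { toFun := fun z => LinearMap.trace ℂ V (y * z)
      map_add' := fun a b => by rw [Submodule.coe_add, mul_add, map_add]
      map_smul' := fun c a => by
        rw [Submodule.coe_smul, mul_smul_comm, map_smul, RingHom.id_apply] }
  refine ⟨x, x.2, 𝔤.sub_mem hy (hK x.2), fun z hz => ?_⟩
  have h2 : LinearMap.trace ℂ V ((x : End ℂ V) * z) = LinearMap.trace ℂ V (y * z) :=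
    congrArg (fun f : Dual ℂ K => f ⟨z, hz⟩) hx
  rw [sub_mul, map_sub, h2, sub_self]

include hbr hirr hK hKi in
/-- the centraliser consists of scalars -/
theorem scal (N : End ℂ V) (hN : N ∈ K) (hr : finrank ℂ (LinearMap.range N) = 1) :
    ∀ c ∈ orth 𝔤 K, ∃ s : ℂ, c = s • 1 := by
  have hinf := inf_eq hbr hirr hK hKi
  have hcomm : ∀ k ∈ K, ∀ c ∈ orth 𝔤 K, k * c = c * k := by
    intro k hk c hc
    have h1 : k * c - c * k ∈ K ⊓ orth 𝔤 K := by
      refine ⟨?_, orth_ideal hbr hKi k (hK hk) c hc⟩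
      have h2 := K.neg_mem (hKi c hc.1 k hk)
      rwa [neg_sub] at h2
    rw [hinf, Submodule.mem_bot] at h1
    exact sub_eq_zero.1 h1
  obtain ⟨w, hw0, hw⟩ := finrank_eq_one_iff'.1 hr
  obtain ⟨v0, hv0⟩ := w.2
  have hwne : (w : V) ≠ 0 := fun h => hw0 (Subtype.ext h)
  have hex : ∀ c ∈ orth 𝔤 K, ∃ μ : ℂ, c (w : V) = μ • (w : V) := by
    intro c hc
    have h1 : c (w : V) ∈ LinearMap.range N := by
      refine ⟨c v0, ?_⟩
      rw [← hv0, ← Module.End.mul_apply, ← Module.End.mul_apply, hcomm N hN c hc]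
    obtain ⟨μ, hμ⟩ := hw ⟨_, h1⟩
    exact ⟨μ, (congrArg Subtype.val hμ).symm⟩
  let U : Submodule ℂ V :=
    { carrier := {u | ∀ c ∈ orth 𝔤 K, ∀ μ : ℂ, c (w : V) = μ • (w : V) → c u = μ • u}
      add_mem' := fun {a b} ha hb c hc μ hμ => by
        rw [map_add, ha c hc μ hμ, hb c hc μ hμ, smul_add]
      zero_mem' := fun c _ μ _ => by rw [map_zero, smul_zero]
      smul_mem' := fun s a ha c hc μ hμ => by
        rw [map_smul, ha c hc μ hμ, smul_comm] }
  have hU : U = ⊤ := by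
    have h1 := hirr U (by
      intro X hX _ u hu
      obtain ⟨k, hk, hc'⟩ := sup_orth hK hinf hX
      have e : X u = k u + (X - k) u := by
        rw [LinearMap.sub_apply]; abel
      rw [e]
      apply U.add_mem
      · intro c hc μ hμ
        rw [← Module.End.mul_apply, ← hcomm k hk c hc, Module.End.mul_apply, hu c hc μ hμ, map_smul]
      · obtain ⟨μ', hμ'⟩ := hex _ hc'
        rw [hu _ hc' μ' hμ']
        exact U.smul_mem _ hu)
    rcases h1 with h1 | h1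
    · exfalso
      apply hwne
      have h2 : (w : V) ∈ U := fun c _ μ hμ => hμ
      rw [h1] at h2
      exact (Submodule.mem_bot ℂ).1 h2
    · exact h1
  intro c hc
  obtain ⟨μ, hμ⟩ := hex c hc
  refine ⟨μ, LinearMap.ext fun u => ?_⟩
  have h1 : u ∈ U := by rw [hU]; trivial
  rw [h1 c hc μ hμ]
  rfl

end

end Pool.Agent.H354.LA

namespace Pool.Agent.H926.T

open Module

theorem s_la : S_LA := by
  intro V _ _ _ 𝔤 K hbr hirr hK hKi N hN hr x hx y hy
  have hinf := Pool.Agent.H354.LA.inf_eq hbr hirr hK hKi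
  obtain ⟨k, hk, hc⟩ := Pool.Agent.H354.LA.sup_orth hK hinf hx
  obtain ⟨s, hs⟩ := Pool.Agent.H354.LA.scal hbr hirr hK hKi N hN hr _ hc
  have h1 : x = k + s • 1 := by rw [← hs]; abel
  have h2 : x * y - y * x = -(y * k - k * y) := by
    rw [h1, add_mul, mul_add, smul_mul_assoc, one_mul, mul_smul_comm, mul_one]
    abel
  rw [h2]
  exact K.neg_mem (hKi y hy k hk)

end Pool.Agent.H926.T
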