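import Mathlib
import Pool.Agent.H926.Sep2
import Pool.Graph.R_pool_sql_team_seeded_1acbe0a2.Y4.P.Sml
import Pool.Graph.R_pool_sql_team_seeded_1acbe0a2.Y4.P.Gcd4
import Pool.Graph.R_pool_sql_team_seeded_1acbe0a2.Y91.L.Kill
import Pool.Graph.R_pool_sql_team_seeded_1acbe0a2.Y71.OD2.Duo

/-!
# Simple abelian varieties of dimension at most seven: the classification for Tate tensors
-/

set_option linter.unusedSectionVars false

namespace Pool.Agent.H926.T

open Matrix Module Pool.Agent.Y90 Pool.Agent.W437.HC Pool.Agent.W437.HD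
  Pool.Agent.TH504.CB Pool.Agent.W522.U
open Pool.Agent.W548.Odd hiding cv
open Pool.Agent.Y4.P (MaxM EigM mem_eigM cjS_eigM root_aut exists_herm JSpec RealOddM TwoTwoM
  om_real)
open Pool.Agent.Y4.Q

noncomputable section

variable {g : ℕ} {Z : Matrix (Fin g) (Fin g) ℂ}

/-- The classification in dimension at most seven. -/
theorem small_classT (h : PM Z) (hs : IsSimpleAV Z) (hg : 0 < g) (hg7 : g ≤ 7)
    (h4 : g = 4 ∨ g = 6 → ∃ ψ : Matrix (Fin g ⊕ Fin g) (Fin g ⊕ Fin g) ℚ,
      qm ψ * DZ Z = DZ Z * qm ψ ∧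
        ∀ c : ℚ, ψ ≠ c • (1 : Matrix (Fin g ⊕ Fin g) (Fin g ⊕ Fin g) ℚ))
    (h46 : g = 4 ∨ g = 6 → ¬T3M Z) :
    HasCM Z ∨ RealOddM Z ∨ CopM4 Z ∨ TwoTwoM Z ∨ GcdM Z := by
  have hSp : JSpec := Pool.Agent.Y261.P.jspec
  have hQ : JQuat := Pool.Agent.Y349.P.jquat
  obtain ⟨φ, hφ, hcm⟩ := Pool.Agent.Y484.MC.maxcm g Z h hs hg
  obtain ⟨s1, s2, s3⟩ := hSp g Z h hs hg φ hφ
  have hirr := Y261.P.minpoly_irr h hs hg hφ.1
  have hcard := Y261.P.card_Rt hirr.separable
  have hm0 : 0 < (minpoly ℚ φ).natDegree := hirr.natDegree_pos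
  by_cases hre : ∃ z ∈ (minpoly ℚ φ).aroots ℂ, z.im = 0
  · -- totally real
    obtain ⟨z, hz, hzi⟩ := hre
    have hall : ∀ w ∈ (minpoly ℚ φ).aroots ℂ, w.im = 0 := by
      intro w hw
      obtain ⟨σ, rfl⟩ := exists_aut_root hirr hz hw
      have h1 := hcm z hz σ
      have h2 : cc z = z := Complex.conj_eq_iff_im.2 hzi
      rw [h2] at h1
      exact Complex.conj_eq_iff_im.1 h1
    obtain ⟨hU, hn⟩ := s1 z hz
    have hsd : SDu Z (EigM φ z) :=
      ⟨om g, om_real h hzi hU, fun X hX u _ v _ => h.om_sp hX u v⟩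
    have hpq := pd_eq_qd h hU hsd
    have hsum := pd_add_qd h hU.2.1
    obtain ⟨k, hk⟩ : ∃ k, pd Z (EigM φ z) = k := ⟨_, rfl⟩
    have hgk : g = k * (minpoly ℚ φ).natDegree := by
      rw [← hpq, hk] at hsum
      rw [← hsum] at hn
      have h1 : (k + k) * (minpoly ℚ φ).natDegree = 2 * (k * (minpoly ℚ φ).natDegree) := by ring
      omega
    have hk0 : 0 < k := by
      rcases Nat.eq_zero_or_pos k with h0 | h0
      · rw [h0, zero_mul] at hgk
        omega
      · exact h0
    by_cases hko : Odd k ∨ k = 2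
    · exact Or.inr (Or.inl ⟨φ, hφ, hall, k, hko, hgk⟩)
    · have hke : Even k := by
        rw [← Nat.not_odd_iff_even]
        exact fun h0 => hko (Or.inl h0)
      have hk2 : k ≠ 2 := fun h0 => hko (Or.inr h0)
      have hkg : k ≤ g := by
        rw [hgk]
        exact Nat.le_mul_of_pos_right k hm0
      have hk46 : k = 4 ∨ k = 6 := by
        obtain ⟨r, hr⟩ := hke
        omega
      have hm1 : (minpoly ℚ φ).natDegree = 1 := by
        by_contra hcon
        have h1 : 2 ≤ (minpoly ℚ φ).natDegree := by omega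
        have h2 : k * 2 ≤ k * (minpoly ℚ φ).natDegree := Nat.mul_le_mul_left k h1
        omega
      have hφc : ∃ b : ℚ, φ = b • (1 : Matrix (Fin g ⊕ Fin g) (Fin g ⊕ Fin g) ℚ) :=
        scal_of_deg (Algebra.self_mem_adjoin_singleton ℚ φ) hm1
      have hend : ∀ ψ : Matrix (Fin g ⊕ Fin g) (Fin g ⊕ Fin g) ℚ, qm ψ * DZ Z = DZ Z * qm ψ →
          ∃ b : ℚ, ψ = b • (1 : Matrix (Fin g ⊕ Fin g) (Fin g ⊕ Fin g) ℚ) := by
        intro ψ hψ
        refine scal_of_deg (hφ.2 ψ hψ ?_) hm1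
        obtain ⟨b, hb⟩ := hφc
        rw [hb, Matrix.mul_smul, Matrix.smul_mul, Matrix.one_mul, Matrix.mul_one]
      rw [hm1, mul_one] at hgk
      obtain ⟨ψ, hψ, hne⟩ := h4 (by omega)
      obtain ⟨b, hb⟩ := hend ψ hψ
      exact absurd hb (hne b)
  · -- no real eigenvalue
    push Not at hre
    have hev := even_deg h hs hg hφ.1 hre
    by_cases hcop : ∃ w ∈ (minpoly ℚ φ).aroots ℂ,
        Nat.Coprime (pd Z (EigM φ w)) (qd Z (EigM φ w))
    · obtain ⟨w, hw, hco⟩ := hcop
      exact Or.inr (Or.inr (Or.inl ⟨φ, hφ, hcm, w, hw, hco⟩))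
    push Not at hcop
    obtain ⟨z, hz⟩ : ∃ z, z ∈ (minpoly ℚ φ).aroots ℂ := by
      have h1 : 0 < (Y261.P.Rt φ).card := by omega
      obtain ⟨z, hz⟩ := Finset.card_pos.1 h1
      exact ⟨z, Y261.P.mem_Rt.1 hz⟩
    obtain ⟨hU, hn⟩ := s1 z hz
    have hfr : ∀ w ∈ (minpoly ℚ φ).aroots ℂ,
        pd Z (EigM φ w) + qd Z (EigM φ w) = finrank ℂ (EigM φ z) := by
      intro w hw
      obtain ⟨σ, rfl⟩ := exists_aut_root hirr hz hw
      rw [pd_add_qd h (s1 _ hw).1.2.1, ← cjS_eigM, finrank_cjS]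
    by_cases hone : finrank ℂ (EigM φ z) = 1
    · -- complex multiplication
      left
      refine hasCM_of hφ ?_
      rw [hone, one_mul] at hn
      exact hn
    -- an indefinite eigenvalue
    obtain ⟨w, hw, hpw, hqw⟩ : ∃ w ∈ (minpoly ℚ φ).aroots ℂ,
        0 < pd Z (EigM φ w) ∧ 0 < qd Z (EigM φ w) := by
      by_contra hcon
      push Not at hcon
      refine hone (finrank_one_of_scalar hU fun σ => ?_)
      have hw := root_aut hz σ.symm
      have hst := (s1 _ hw).1.2.1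
      have hact : ∃ c : ℂ, ∀ u ∈ EigM φ (σ.symm z), DZ Z *ᵥ u = c • u := by
        rcases Nat.eq_zero_or_pos (pd Z (EigM φ (σ.symm z))) with h0 | h0
        · exact ⟨-1, (act_of_pd h hst).1 h0⟩
        · have h1 := hcon _ hw h0
          exact ⟨1, (act_of_pd h hst).2 (by omega)⟩
      obtain ⟨c, hc⟩ := hact
      refine ⟨σ c, fun u hu => ?_⟩
      have h1 : (fun i => σ.symm (u i)) ∈ EigM φ (σ.symm z) := by
        rw [← cjS_eigM, mem_cjS]
        have h2 : (fun i => σ.symm.symm (σ.symm (u i))) = u := by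
          funext i
          simp
        rw [h2]
        exact hu
      have h2 := hc _ h1
      have h3 : (fun i => σ ((DZ Z *ᵥ fun i => σ.symm (u i)) i)) =
          fun i => σ ((c • fun i => σ.symm (u i)) i) := by rw [h2]
      rw [map_mulVec_aut] at h3
      have h4 : (fun i => σ (σ.symm (u i))) = u := by
        funext i
        simp
      rw [h4] at h3
      have h5 : DS Z σ *ᵥ u = (DZ Z).map σ *ᵥ u := rfl
      rw [h5, h3]
      funext i
      simp
    have hsw := hfr w hw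
    have hncop := hcop w hw
    obtain ⟨p, hp⟩ : ∃ p, pd Z (EigM φ w) = p := ⟨_, rfl⟩
    obtain ⟨q, hq⟩ : ∃ q, qd Z (EigM φ w) = q := ⟨_, rfl⟩
    obtain ⟨n, hn'⟩ : ∃ n, finrank ℂ (EigM φ z) = n := ⟨_, rfl⟩
    obtain ⟨m, hm⟩ : ∃ m, (minpoly ℚ φ).natDegree = m := ⟨_, rfl⟩
    rw [hp, hq] at hncop hsw
    rw [hp] at hpw
    rw [hq] at hqw
    rw [hn'] at hsw hn
    rw [hm] at hn hev hm0
    have hp2 : 2 ≤ p := by
      by_contra hcon
      obtain rfl : p = 1 := by omega
      exact hncop (Nat.coprime_one_left q)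
    have hq2 : 2 ≤ q := by
      by_contra hcon
      obtain rfl : q = 1 := by omega
      exact hncop (Nat.coprime_one_right p)
    have hm2 : m = 2 := by
      obtain ⟨r, hr⟩ := hev
      by_contra hcon
      have h1 : 4 ≤ m := by omega
      have h2 : 4 * 4 ≤ n * m := Nat.mul_le_mul (by omega) h1
      omega
    have hng : n = g := by
      rw [hm2] at hn
      omega
    have hcases : (g = 4 ∧ p = 2 ∧ q = 2) ∨ g = 6 := by
      have h1 : g = 4 ∨ g = 5 ∨ g = 6 ∨ g = 7 := by omega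
      rcases h1 with h1 | h1 | h1 | h1
      · left
        omega
      · exfalso
        have h2 : (p = 2 ∧ q = 3) ∨ (p = 3 ∧ q = 2) := by omega
        rcases h2 with ⟨rfl, rfl⟩ | ⟨rfl, rfl⟩ <;> exact hncop (by decide)
      · right
        exact h1
      · exfalso
        have h2 : (p = 2 ∧ q = 5) ∨ (p = 5 ∧ q = 2) ∨ (p = 3 ∧ q = 4) ∨ (p = 4 ∧ q = 3) := by
          omega
        rcases h2 with ⟨rfl, rfl⟩ | ⟨rfl, rfl⟩ | ⟨rfl, rfl⟩ | ⟨rfl, rfl⟩ <;>
          exact hncop (by decide)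
    rw [hm2] at hm
    by_cases hcom : ∀ ψ : Matrix (Fin g ⊕ Fin g) (Fin g ⊕ Fin g) ℚ,
        qm ψ * DZ Z = DZ Z * qm ψ → ψ * φ = φ * ψ
    · rcases hcases with ⟨hg4, rfl, rfl⟩ | hg6
      · -- the multiplicities are two
        refine Or.inr (Or.inr (Or.inr (Or.inl ⟨φ, hφ.1, fun ψ hψ => hφ.2 ψ hψ
          (hcom ψ hψ), hcm, fun w' hw' => ⟨hre w' hw', ?_⟩⟩)))
        have hww : w ≠ cc w := fun h0 => hre w hw (Complex.conj_eq_iff_im.1 h0.symm)
        have hsub : ({w, cc w} : Finset ℂ) ⊆ Y261.P.Rt φ := by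
          intro x hx
          rw [Finset.mem_insert, Finset.mem_singleton] at hx
          rcases hx with rfl | rfl
          · exact Y261.P.mem_Rt.2 hw
          · exact Y261.P.mem_Rt.2 (root_cc hw)
        have heq : ({w, cc w} : Finset ℂ) = Y261.P.Rt φ := by
          apply Finset.eq_of_subset_of_card_le hsub
          rw [hcard, hm, Finset.card_pair hww]
        have h5 : w' ∈ ({w, cc w} : Finset ℂ) := by
          rw [heq]
          exact Y261.P.mem_Rt.2 hw'
        rw [Finset.mem_insert, Finset.mem_singleton] at h5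
        rcases h5 with rfl | rfl
        · exact ⟨hp, hq⟩
        · rw [pd_root_cc, qd_root_cc]
          exact ⟨hq, hp⟩
      · -- dimension six
        have hroots : ∀ w' ∈ (minpoly ℚ φ).aroots ℂ, w' = w ∨ w' = cc w := by
          intro w' hw'
          have hww : w ≠ cc w := fun h0 => hre w hw (Complex.conj_eq_iff_im.1 h0.symm)
          have hsub : ({w, cc w} : Finset ℂ) ⊆ Y261.P.Rt φ := by
            intro x hx
            rw [Finset.mem_insert, Finset.mem_singleton] at hx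
            rcases hx with rfl | rfl
            · exact Y261.P.mem_Rt.2 hw
            · exact Y261.P.mem_Rt.2 (root_cc hw)
          have heq : ({w, cc w} : Finset ℂ) = Y261.P.Rt φ := by
            apply Finset.eq_of_subset_of_card_le hsub
            rw [hcard, hm, Finset.card_pair hww]
          have h5 : w' ∈ ({w, cc w} : Finset ℂ) := by
            rw [heq]
            exact Y261.P.mem_Rt.2 hw'
          rwa [Finset.mem_insert, Finset.mem_singleton] at h5
        have hpq6 : (p = 2 ∧ q = 4) ∨ (p = 4 ∧ q = 2) ∨ (p = 3 ∧ q = 3) := by omega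
        have hval : ∀ w' ∈ (minpoly ℚ φ).aroots ℂ,
            (pd Z (EigM φ w') = p ∧ qd Z (EigM φ w') = q) ∨
              (pd Z (EigM φ w') = q ∧ qd Z (EigM φ w') = p) := by
          intro w' hw'
          rcases hroots w' hw' with rfl | rfl
          · exact Or.inl ⟨hp, hq⟩
          · rw [pd_root_cc, qd_root_cc]
            exact Or.inr ⟨hq, hp⟩
        refine Or.inr (Or.inr (Or.inr (Or.inr ⟨φ, hφ, hcm, w, hw, p, q, hp, hq, hpw, hqw,
          fun w' hw' _ _ => ?_, ?_⟩)))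
        · have h1 : p.gcd q * (pd Z (EigM φ w')).gcd (qd Z (EigM φ w')) = p.gcd q * p.gcd q := by
            rcases hval w' hw' with ⟨h1, h2⟩ | ⟨h1, h2⟩
            · rw [h1, h2]
            · rw [h1, h2, Nat.gcd_comm q p]
          rw [h1]
          rcases hpq6 with ⟨rfl, rfl⟩ | ⟨rfl, rfl⟩ | ⟨rfl, rfl⟩ <;> decide
        · by_cases hpe : p = q
          · right
            have hp3 : p = 3 := by omega
            refine ⟨hpe, ?_, ?_, φ, w, hφ.1, hcom, hw, hre w hw⟩
            · intro m hm1 h0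
              rw [hp3] at h0
              have h1 : Even (2 ^ m) := (Nat.even_pow.2 ⟨even_two, by omega⟩)
              rw [← h0] at h1
              exact absurd h1 (by decide)
            · intro w' hw'
              rcases hval w' hw' with ⟨h1, h2⟩ | ⟨h1, h2⟩ <;> omega
          · left
            refine ⟨hpe, fun n' a ha han h0 => ?_⟩
            have h3 := le_choose n' a (by omega) han
            have h4 := le_choose n' (a - 1) (by omega) (by omega)
            omega
    · -- quaternion multiplication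
      push Not at hcom
      obtain ⟨ψ, hψ, hne⟩ := hcom
      have hcen : ∀ χ : Matrix (Fin g ⊕ Fin g) (Fin g ⊕ Fin g) ℚ, qm χ * DZ Z = DZ Z * qm χ →
          (∀ ξ : Matrix (Fin g ⊕ Fin g) (Fin g ⊕ Fin g) ℚ, qm ξ * DZ Z = DZ Z * qm ξ →
            χ * ξ = ξ * χ) → ∃ c : ℚ, χ = c • (1 : Matrix (Fin g ⊕ Fin g) (Fin g ⊕ Fin g) ℚ) := by
        intro χ hχ hc
        obtain ⟨a, b, hab⟩ := lin_of_deg (hφ.2 χ hχ (hc φ hφ.1)) hm
        refine ⟨b, ?_⟩
        by_cases ha : a = 0
        · rw [hab, ha, zero_smul, zero_add]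
        · exfalso
          apply hne
          have h1 := hc ψ hψ
          rw [hab, Matrix.add_mul, Matrix.mul_add, Matrix.smul_mul, Matrix.mul_smul,
            Matrix.smul_mul, Matrix.mul_smul, Matrix.one_mul, Matrix.mul_one] at h1
          have h2 : a • (φ * ψ) = a • (ψ * φ) := add_right_cancel h1
          exact (smul_right_injective _ ha h2).symm
      have hT : ¬T3M Z := h46 (by omega)
      have hns : ∀ c : ℚ, φ ≠ c • (1 : Matrix (Fin g ⊕ Fin g) (Fin g ⊕ Fin g) ℚ) := by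
        intro c hc
        apply hne
        rw [hc, Matrix.mul_smul, Matrix.smul_mul, Matrix.one_mul, Matrix.mul_one]
      obtain ⟨b, hb, hbr, hbs⟩ : ∃ b : Matrix (Fin g ⊕ Fin g) (Fin g ⊕ Fin g) ℚ,
          qm b * DZ Z = DZ Z * qm b ∧ (∀ z ∈ (minpoly ℚ b).aroots ℂ, z.im = 0) ∧
            ∀ c : ℚ, b ≠ c • (1 : Matrix (Fin g ⊕ Fin g) (Fin g ⊕ Fin g) ℚ) := by
        by_contra hcon
        push Not at hcon
        exact hT ⟨hcen, ⟨φ, hφ.1, hns⟩, fun b hb hbr => hcon b hb hbr⟩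
      obtain ⟨ξ, hξ, hξb⟩ : ∃ ξ : Matrix (Fin g ⊕ Fin g) (Fin g ⊕ Fin g) ℚ,
          qm ξ * DZ Z = DZ Z * qm ξ ∧ ξ * b ≠ b * ξ := by
        by_contra hcon
        push Not at hcon
        obtain ⟨c, hc⟩ := hcen b hb fun ξ hξ => (hcon ξ hξ).symm
        exact hbs c hc
      obtain ⟨hbm, hbd⟩ := hQ g Z h hs hg φ hφ hm b ξ hb hξ hξb
      refine Or.inr (Or.inl ⟨b, hbm, hbr, g / 2, ?_, ?_⟩)
      · rcases hcases with ⟨rfl, -, -⟩ | rfl
        · right
          rfl
        · left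
          decide
      · rw [hbd]
        omega

end

end Pool.Agent.H926.T
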