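import Mathlib
import Pool.Agent.H926.T.Sct
import Pool.Agent.H926.T.Jobs6

/-!
# Killed forms in dimension at most seven
-/

set_option linter.unusedSectionVars false

namespace Pool.Agent.H926.T

open Matrix Module Pool.Agent.Y90 Pool.Agent.W437.HC Pool.Agent.W437.HD
  Pool.Agent.TH504.CB Pool.Agent.W522.U
open Pool.Agent.W548.Odd hiding cv
open Pool.Agent.H204R3.SP Pool.Agent.H204R3.GP
open Pool.Agent.W437.HP (cK cK_mul cK_one)
open Pool.Agent.Y224.TS (TD LT_gen kills_LT)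
open Pool.Agent.N183.TS (SF Rk1D tdF LTF cls_small)
open Pool.Agent.Y4.Q (T3M)

noncomputable section

variable {G : ℕ} {Z : Matrix (Fin G) (Fin G) ℂ}
  {S : Set (Matrix (Fin G ⊕ Fin G) (Fin G ⊕ Fin G) ℂ)}

/-- It is enough to consider forms in an even number of variables. -/
theorem killA_of_even (h : TD Z S)
    (H : ∀ (n : ℕ) (φ : MultilinearMap ℂ (fun _ : Fin n × Fin 2 => Fin G ⊕ Fin G → ℂ) ℂ),
      (∀ D ∈ S, Kills (ph (Fin G ⊕ Fin G) D) φ) → ∀ X ∈ LZ Z, act X (CF φ) = 0) : KillA Z S := by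
  intro κ _ _ φ hφ X hX
  rcases Nat.even_or_odd (Fintype.card κ) with he | ho
  · obtain ⟨m, hm⟩ := he
    have e : κ ≃ Fin m × Fin 2 := Fintype.equivOfCardEq (by
      rw [Fintype.card_prod, Fintype.card_fin, Fintype.card_fin, hm]
      ring)
    have hre : ∀ (Y : Matrix (Fin G ⊕ Fin G) (Fin G ⊕ Fin G) ℂ),
        Kills (ph (Fin G ⊕ Fin G) Y) φ ↔ Kills (ph (Fin G ⊕ Fin G) Y) (φ.domDomCongr e) := by
      intro Y
      have key : ∀ v : κ → (Fin G ⊕ Fin G → ℂ), ∑ k, φ (Function.update v k (ph _ Y (v k))) =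
          ∑ k, (φ.domDomCongr e) (Function.update (fun k => v (e.symm k)) k
            (ph _ Y (v (e.symm k)))) := by
        intro v
        rw [← Equiv.sum_comp e]
        refine Finset.sum_congr rfl fun k _ => ?_
        rw [MultilinearMap.domDomCongr_apply]
        congr 1
        funext l
        by_cases hl : l = k
        · subst hl
          rw [Function.update_self, Function.update_self, Equiv.symm_apply_apply]
        · rw [Function.update_of_ne hl, Function.update_of_ne (fun h0 => hl (e.injective h0)),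
            Equiv.symm_apply_apply]
      constructor
      · intro h1 v
        have h2 := key (fun k => v (e k))
        rw [h1 (fun k => v (e k))] at h2
        simp only [Equiv.apply_symm_apply] at h2
        exact h2.symm
      · intro h1 v
        rw [key v]
        exact h1 (fun k => v (e.symm k))
    rw [hre]
    exact kills_of_act (H m (φ.domDomCongr e) (fun D hD => (hre D).1 (hφ D hD)) X hX)
  · have h0 : φ = 0 := by
      have hinv : ∀ (g : Gam (GG (Y224.TS.LT S))) v,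
          φ (fun k => RG (GG (Y224.TS.LT S)) g (v k)) = φ v := by
        intro g v
        refine inv_gam φ (fun D hD _ => ?_) g v
        obtain ⟨X, hX, rfl⟩ := exists_GG hD
        exact kills_LT hφ hX
      refine MultilinearMap.ext fun v => ?_
      obtain ⟨D, hDS, -⟩ := h.ex (RingEquiv.refl ℂ)
      have hDD : ph (Fin G ⊕ Fin G) D * ph (Fin G ⊕ Fin G) D = 1 := by
        rw [← map_mul, h.sq D hDS, map_one]
      have hDm : ph (Fin G ⊕ Fin G) D ∈ GG (Y224.TS.LT S) := mem_GG.2 (LT_gen hDS)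
      have h1 := hinv (gt hDD hDm (-1)) v
      have h2 : (fun k => RG (GG (Y224.TS.LT S)) (gt hDD hDm (-1)) (v k)) =
          fun k => (-1 : ℂ) • v k := by
        funext k
        change torE (ph _ D) (-1) (v k) = _
        rw [torE_apply]
        simp only [Units.val_neg, Units.val_one, inv_neg, inv_one]
        module
      rw [h2, MultilinearMap.map_smul_univ, Finset.prod_const, Finset.card_univ,
        Odd.neg_one_pow ho, neg_one_smul] at h1
      have h3 : φ v = 0 := by linear_combination (-1 / 2 : ℂ) * h1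
      rw [h3]
      rfl
    intro v
    rw [h0]
    simp

/-- No simple factor of dimension four or six has only scalar endomorphisms. -/
def NoScal (Z : Matrix (Fin G) (Fin G) ℂ) : Prop :=
  ∀ (a : ℕ) (Z' : Matrix (Fin a) (Fin a) ℂ) (E : Matrix (Fin G ⊕ Fin G) (Fin a ⊕ Fin a) ℚ)
    (F : Matrix (Fin a ⊕ Fin a) (Fin G ⊕ Fin G) ℚ), Fac Z Z' E F → PM Z' → IsSimpleAV Z' →
      a = 4 ∨ a = 6 → ∃ ψ : Matrix (Fin a ⊕ Fin a) (Fin a ⊕ Fin a) ℚ,
        qm ψ * DZ Z' = DZ Z' * qm ψ ∧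
          ∀ c : ℚ, ψ ≠ c • (1 : Matrix (Fin a ⊕ Fin a) (Fin a ⊕ Fin a) ℚ)

/-- No simple factor of type III. -/
theorem kill_good (h : PM Z) (hG : G ≤ 7) (hS : TD Z S) (hn : NoScal Z)
    (hT : ∀ (a : ℕ) (Z' : Matrix (Fin a) (Fin a) ℂ)
      (E : Matrix (Fin G ⊕ Fin G) (Fin a ⊕ Fin a) ℚ)
      (F : Matrix (Fin a ⊕ Fin a) (Fin G ⊕ Fin G) ℚ), Fac Z Z' E F → PM Z' → IsSimpleAV Z' →
        a = 4 ∨ a = 6 → ¬T3M Z') : KillA Z S := by
  have hty : ∀ (a : ℕ) (Z' : Matrix (Fin a) (Fin a) ℂ)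
      (E : Matrix (Fin G ⊕ Fin G) (Fin a ⊕ Fin a) ℚ)
      (F : Matrix (Fin a ⊕ Fin a) (Fin G ⊕ Fin G) ℚ), Fac Z Z' E F → PM Z' → IsSimpleAV Z' →
      0 < a → Pool.Agent.Y224.TS.TypeT Z' ∨ Pool.Agent.Y4.Q.GcdM Z' := by
    intro a Z' E F hf h' hs ha
    rcases small_classT h' hs ha ((fac_le hf).trans hG) (hn a Z' E F hf h' hs)
      (hT a Z' E F hf h' hs) with h1 | h1 | h1 | h1 | h1
    · exact Or.inl (Or.inl h1)
    · exact Or.inl (Or.inr (Or.inr (Or.inr (Or.inl h1))))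
    · exact Or.inl (Or.inr (Or.inr (Or.inr (Or.inr (Or.inl h1)))))
    · exact Or.inl (Or.inr (Or.inr (Or.inr (Or.inr (Or.inr h1)))))
    · exact Or.inr h1
  have hsep : Pool.Agent.Y224.TS.PQ.SepF Z := by
    intro a₁ a₂ Z₁ Z₂ E₁ F₁ E₂ F₂ hf₁ hf₂ h₁ h₂ hs₁ hs₂ ha₁ ha₂ φ₁ φ₂ m₁ m₂ c₁ c₂
    exact sepM_of hG hf₁ hf₂ h₁ h₂ hs₁ hs₂ ha₁ ha₂ m₁ m₂ c₁ c₂
  refine killA_of_even hS fun n φ hφ => ?_
  exact Pool.Agent.Y91.L.tate_kill hS h
    (fun U hU hn => Pool.Agent.Y91.L.rk_loc Pool.Agent.Y71.OD2.duo h hty hS hU hn)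
    (fun U U' hU hU' hn => Pool.Agent.Y91.L.sep_loc h hty hsep hU hU' hn) φ hφ

/-- Dimension at most three. -/
theorem kill_three (h : PM Z) (hG : G ≤ 3) (hS : TD Z S) : KillA Z S := by
  intro κ _ _ φ hφ
  refine Pool.Agent.N183.TS.kill_LZ hS h ?_ φ hφ
  intro a Z' E F hf h' hs ha U hU hn
  have hT := tdF hf hS h h'
  obtain ⟨D, hD, -⟩ := hT.ex (RingEquiv.refl ℂ)
  obtain ⟨h1, h2⟩ := cls_small hT h' hD hU hs ((fac_le hf).trans hG) hn
  exact ⟨h1.rk1T hD, h2⟩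

/-- **Killed forms in dimension at most seven.** -/
theorem kill_seven (hSO : S_SO) (hSP4 : S_SP4) (hSP6 : S_SP6) (hKUT : S_KUT) (h : PM Z)
    (hG : G ≤ 7) (hS : TD Z S) (hn : NoScal Z) : KillA Z S := by
  by_cases hb : ∃ (a : ℕ) (Z' : Matrix (Fin a) (Fin a) ℂ)
      (E : Matrix (Fin G ⊕ Fin G) (Fin a ⊕ Fin a) ℚ)
      (F : Matrix (Fin a ⊕ Fin a) (Fin G ⊕ Fin G) ℚ), Fac Z Z' E F ∧ PM Z' ∧ IsSimpleAV Z' ∧
        (a = 4 ∨ a = 6) ∧ T3M Z'
  · obtain ⟨a, Z₁, E₁, F₁, hf, h₁, hs, ha, hT⟩ := hb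
    obtain ⟨b, Z₂, E₂, F₂, h₂, D, hab⟩ := exists_compl h hf
    have hS₁ := tdF hf hS h h₁
    have hS₂ := tdF D.f₂ hS h h₂
    obtain ⟨bb, j, d, e, t⟩ := exists_t3d h₁ hs hT
    obtain ⟨z, hz⟩ : ∃ z : ℂ, z * z = (d : ℂ) := by
      obtain ⟨z, hz⟩ := IsAlgClosed.exists_eq_mul_self (d : ℂ)
      exact ⟨z, hz.symm⟩
    obtain ⟨-, hle⟩ := hSO a Z₁ bb j d e t z hz h₁ hs ha _ hS₁
    refine hKUT G a b Z Z₁ Z₂ E₁ F₁ E₂ F₂ h h₁ h₂ D S hS ?_ hle (kill_three h₂ (by omega) hS₂)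
    rcases ha with rfl | rfl
    · exact hSP4 G b Z Z₁ Z₂ E₁ F₁ E₂ F₂ h h₁ h₂ D (by omega) hs hT S hS
    · exact hSP6 G b Z Z₁ Z₂ E₁ F₁ E₂ F₂ h h₁ h₂ D (by omega) hs hT S hS
  · push Not at hb
    exact kill_good h hG hS hn fun a Z' E F hf h' hs ha => hb a Z' E F hf h' hs ha

end

end Pool.Agent.H926.T
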