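import Mathlib
import Pool.Agent.H926.T.Kl7
import Pool.Agent.H926.T.Main3
import Pool.Agent.H926.T.Fz

/-!
# The Mumford-Tate conjecture in dimension at most seven
-/

set_option linter.unusedSectionVars false

namespace Pool.Agent.H926.T

open Matrix Module Pool.Agent.Y90 Pool.Agent.W437.HC Pool.Agent.W437.HD
open Pool.Agent.W548.Odd hiding cv
open Pool.Agent.H204R3.SP Pool.Agent.H204R3.GP TensorProduct
open Pool.Agent.W437.HP (cK cK_mul cK_one)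
open Pool.Agent.H204R3.CM (IsHodge HodgeMul)
open Pool.Agent.TH504.CB (isHodge_comp)
open Pool.Agent.Y4.P (WeilRing)
open Pool.Agent.R915 (IsFactor)
open Pool.Agent.Y224.TS
open Pool.Agent.Y224.TS.St (IsHodgeTate IsTateModule)
open Pool.Agent.Y91.L (hodgeMul_of)

noncomputable section

section rect

variable {G a c : ℕ} {Z : Matrix (Fin G) (Fin G) ℂ} {Z' : Matrix (Fin a) (Fin a) ℂ}
  {H T H' T' H'' : Type} [AddCommGroup H] [Module ℚ H] [AddCommGroup T] [Module ℂ T]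
  [AddCommGroup H'] [Module ℚ H'] [AddCommGroup T'] [Module ℂ T'] [AddCommGroup H'']
  [Module ℚ H''] {per : H →+ T} {per' : H' →+ T'}
  (A : H ≃ₗ[ℚ] (Fin G ⊕ Fin G → ℚ)) (A' : H' ≃ₗ[ℚ] (Fin a ⊕ Fin a → ℚ))
  (A'' : H'' ≃ₗ[ℚ] (Fin c ⊕ Fin c → ℚ))

/-- The matrix of a linear map. -/
def mR (f : H →ₗ[ℚ] H') : Matrix (Fin a ⊕ Fin a) (Fin G ⊕ Fin G) ℚ :=
  LinearMap.toMatrix' (A'.toLinearMap ∘ₗ f ∘ₗ A.symm.toLinearMap)

theorem mR_mulVec (f : H →ₗ[ℚ] H') (v : H) : mR A A' f *ᵥ A v = A' (f v) := by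
  unfold mR
  rw [← Matrix.toLin'_apply, Matrix.toLin'_toMatrix']
  change A' (f (A.symm (A v))) = _
  rw [LinearEquiv.symm_apply_apply]

theorem mR_ext {M N : Matrix (Fin a ⊕ Fin a) (Fin G ⊕ Fin G) ℚ}
    (h : ∀ v : H, M *ᵥ A v = N *ᵥ A v) : M = N := by
  refine Matrix.ext_of_mulVec_single fun i => ?_
  have h1 := h (A.symm (Pi.single i 1))
  rw [LinearEquiv.apply_symm_apply] at h1
  exact h1

theorem mR_comp (f : H →ₗ[ℚ] H') (g : H' →ₗ[ℚ] H'') :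
    mR A A'' (g ∘ₗ f) = mR A' A'' g * mR A A' f := by
  refine mR_ext A fun v => ?_
  rw [mR_mulVec, ← mulVec_mulVec, mR_mulVec, mR_mulVec]
  rfl

theorem mR_id : mR A A (LinearMap.id : H →ₗ[ℚ] H) = 1 := by
  refine mR_ext A fun v => ?_
  rw [mR_mulVec, one_mulVec]
  rfl

theorem mR_de (hC : Cht (per.comp A.symm.toLinearMap.toAddMonoidHom) (JR Z))
    (hC' : Cht (per'.comp A'.symm.toLinearMap.toAddMonoidHom) (JR Z')) {f : H →ₗ[ℚ] H'}
    (hf : ∃ Ψ : T →ₗ[ℂ] T', ∀ v, Ψ (per v) = per' (f v)) :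
    cK ℂ (mR A A' f) * DZ Z = DZ Z' * cK ℂ (mR A A' f) := by
  obtain ⟨Ψ, hΨ⟩ := hf
  obtain ⟨M, hM⟩ : ∃ M, M = mR A A' f := ⟨_, rfl⟩
  have hMv : ∀ v, M *ᵥ A v = A' (f v) := fun v => by rw [hM]; exact mR_mulVec A A' f v
  rw [← hM]
  obtain ⟨P, I, hP1, hP2, hI1, hI2⟩ := hC.ex
  obtain ⟨P', I', hP1', hP2', hI1', hI2'⟩ := hC'.ex
  have hcast : ∀ w : Fin G ⊕ Fin G → ℚ, (fun i => (((M *ᵥ w) i : ℚ) : ℝ)) =
      cK ℝ M *ᵥ (fun i => ((w i : ℚ) : ℝ)) := by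
    intro w
    funext i
    simp [mulVec, dotProduct, cK]
  have h1 : ∀ w : Fin G ⊕ Fin G → ℚ, Ψ (P (fun i => ((w i : ℚ) : ℝ))) =
      P' (cK ℝ M *ᵥ fun i => ((w i : ℚ) : ℝ)) := by
    intro w
    rw [← hcast, hP1, hP1']
    change Ψ (per (A.symm w)) = per' (A'.symm (M *ᵥ w))
    rw [hΨ]
    congr 1
    rw [LinearEquiv.eq_symm_apply, ← hMv, LinearEquiv.apply_symm_apply]
  have h2 : (Ψ.restrictScalars ℝ) ∘ₗ P = P' ∘ₗ Matrix.mulVecLin (cK ℝ M) := by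
    refine LinearMap.pi_ext' fun i => LinearMap.ext_ring ?_
    have h3 := h1 (Pi.single i 1)
    have h4 : (fun k => (((Pi.single i 1 : Fin G ⊕ Fin G → ℚ) k : ℚ) : ℝ)) = Pi.single i 1 :=
      single_castR i
    rw [h4] at h3
    exact h3
  have h3 : ∀ x, Ψ (P x) = P' (cK ℝ M *ᵥ x) := fun x => LinearMap.congr_fun h2 x
  have h4 : cK ℝ M * JR Z = JR Z' * cK ℝ M := by
    refine Matrix.ext_of_mulVec_single fun i => ?_
    obtain ⟨x, hx⟩ : ∃ x : Fin G ⊕ Fin G → ℝ, x = Pi.single i 1 := ⟨_, rfl⟩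
    rw [← hx, ← mulVec_mulVec, ← mulVec_mulVec, ← hI1' (cK ℝ M *ᵥ (JR Z *ᵥ x)), ← h3, hP2,
      map_smul, h3, ← hP2', hI1']
  have h5 : cK ℂ M = (cK ℝ M).map (fun x : ℝ => (x : ℂ)) := by
    ext i j
    simp [cK]
  have h6 : ∀ {n : ℕ} (Y : Matrix (Fin n) (Fin n) ℂ),
      DZ Y = (-Complex.I) • (JR Y).map (fun x : ℝ => (x : ℂ)) := fun Y => rfl
  have hmap : ∀ {l m n : Type} [Fintype m] (X : Matrix l m ℝ) (Y : Matrix m n ℝ),
      (X * Y).map (fun x : ℝ => (x : ℂ)) =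
        X.map (fun x : ℝ => (x : ℂ)) * Y.map (fun x : ℝ => (x : ℂ)) := by
    intro l m n _ X Y
    exact Matrix.map_mul (f := Complex.ofRealHom)
  rw [h5, h6, h6, Matrix.mul_smul, Matrix.smul_mul, ← hmap, ← hmap, h4]

end rect

theorem perOne_cht' {G : ℕ} {Z : Matrix (Fin G) (Fin G) ℂ} (h : PM Z) :
    Cht ((perOne Z).comp
      (LinearEquiv.refl ℚ (Fin G ⊕ Fin G → ℚ)).symm.toLinearMap.toAddMonoidHom) (JR Z) := h.cht

/-- The condition on the factors. -/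
def NoEnd (A : AV) : Prop :=
  ∀ Y, IsFactor Y A → finrank ℂ Y.T = 4 ∨ finrank ℂ Y.T = 6 →
    ∃ f, IsHom Y Y f ∧ ∀ c : ℚ, f ≠ c • 1

variable {K : Type} [Field K] [CharZero K] [Algebra K ℂ] {Γ : Type} [Group Γ]

/-- The Tate tensors of an abelian variety are killed by the Hodge Lie algebra. -/
theorem kill_av (hSO : S_SO) (hSP4 : S_SP4) (hSP6 : S_SP6) (hKUT : S_KUT) (hRDA : S_RDA)
    (hRDM : S_RDM) (A X : AV) (h7 : finrank ℂ A.T ≤ 7) (hA : NoEnd A)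
    (hX : ∀ Y, IsFactor Y X → IsFactor Y A) {G : ℕ} {Z : Matrix (Fin G) (Fin G) ℂ} (hZ : PM Z)
    (b : Basis (Fin G ⊕ Fin G) ℚ X.H)
    (hC : Cht (X.per.comp b.equivFun.symm.toLinearMap.toAddMonoidHom) (JR Z))
    {S : Set (Matrix (Fin G ⊕ Fin G) (Fin G ⊕ Fin G) ℂ)} (hS : TD Z S) : KillA Z S := by
  obtain ⟨B, i, r, n, P, Q, s, hi, hr, hri, hP, hQ, hPQ, hs, hsi⟩ := hRDA A X hX
  have hAV : St.IsAV B.per := ⟨B.finH, B.finT, B.span, B.rank, B.pol⟩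
  obtain ⟨a, Z', h', e, hC'⟩ := exists_ppav hAV
  have ha : a ≤ 7 := by
    have h1 := e.finrank_eq
    rw [Module.finrank_fintype_fun_eq_card, Fintype.card_sum, Fintype.card_fin] at h1
    have := A.finH
    have h2 := LinearMap.finrank_le_finrank_of_injective hsi
    have h3 := A.rank
    omega
  obtain ⟨z1, z2⟩ := s_fz B a Z' h' e hC'
  have hno : NoScal Z' := by
    intro a₁ Z₁ E₁ F₁ hf₁ h₁ hs₁ ha₁
    obtain ⟨hs1, k, hk, hk'⟩ := z2 a₁ Z₁ E₁ F₁ hf₁ h₁ hs₁ (by omega)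
    have hfa : IsFactor (AVZ h₁) A := ⟨hs1, s.comp k, Pool.Agent.R915.IsHom.comp' hs hk, hsi.comp hk'⟩
    have hfr : finrank ℂ (AVZ h₁).T = a₁ := by
      change finrank ℂ (Fin a₁ → ℂ) = a₁
      rw [Module.finrank_fintype_fun_eq_card, Fintype.card_fin]
    obtain ⟨f, hf, hfn⟩ := hA _ hfa (by rw [hfr]; exact ha₁)
    have hre := perOne_cht' h₁
    refine ⟨mR (LinearEquiv.refl ℚ (Fin a₁ ⊕ Fin a₁ → ℚ))
      (LinearEquiv.refl ℚ (Fin a₁ ⊕ Fin a₁ → ℚ)) f, mR_de _ _ hre hre hf, fun c hc => ?_⟩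
    apply hfn c
    refine LinearMap.ext fun v => ?_
    have h2 := mR_mulVec (LinearEquiv.refl ℚ (Fin a₁ ⊕ Fin a₁ → ℚ))
      (LinearEquiv.refl ℚ (Fin a₁ ⊕ Fin a₁ → ℚ)) f v
    rw [hc, smul_mulVec, one_mulVec] at h2
    exact h2.symm
  let A₀ : X.H ≃ₗ[ℚ] (Fin G ⊕ Fin G → ℚ) := b.equivFun
  have hf : Fac Z Z' (mR e A₀ i) (mR A₀ e r) := by
    refine ⟨?_, (mR_de e A₀ hC' hC hi).symm, mR_de A₀ e hC hC' hr⟩
    rw [← mR_comp e A₀ e i r, ← mR_id e]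
    congr 1
    exact LinearMap.ext hri
  refine hRDM G a n Z Z' (mR e A₀ i) (mR A₀ e r) (fun k => mR e A₀ (P k))
    (fun k => mR A₀ e (Q k)) hZ h' hf (fun k => (mR_de e A₀ hC' hC (hP k)).symm)
    (fun k => mR_de A₀ e hC hC' (hQ k)) ?_ S hS
    (kill_seven hSO hSP4 hSP6 hKUT h' ha (Pool.Agent.N183.TS.tdF hf hS hZ h') hno)
  refine mR_ext A₀ fun v => ?_
  rw [Matrix.sum_mulVec, one_mulVec]
  have h1 : ∀ k, (mR e A₀ (P k) * mR A₀ e (Q k)) *ᵥ A₀ v = A₀ (P k (Q k v)) := fun k => by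
    rw [← mulVec_mulVec, mR_mulVec, mR_mulVec]
  rw [Finset.sum_congr rfl fun k _ => h1 k, ← map_sum, hPQ]

/-- **Tate tensors are combinations of Hodge tensors.** -/
theorem mt_seven [Algebra.IsAlgebraic K ℂ] (hSO : S_SO) (hSP4 : S_SP4) (hSP6 : S_SP6)
    (hKUT : S_KUT) (hRDA : S_RDA) (hRDM : S_RDM) (A X : AV) (h7 : finrank ℂ A.T ≤ 7)
    (hA : NoEnd A) (hX : ∀ Y, IsFactor Y X → IsFactor Y A) {E : X.H → X.H → ℚ}
    (hE : Pool.Agent.Y90.St.IsPolarization X.per E) {ρ : Representation K Γ (K ⊗[ℚ] X.H)}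
    {χ : Γ →* K} (hρ : IsTateModule X.per E ρ χ) {κ : Type}
    [Finite κ] {n : ℕ} (hκ : Nat.card κ = 2 * n)
    (φ : MultilinearMap K (fun _ : κ => K ⊗[ℚ] X.H) K)
    (hφ : ∃ Δ : Subgroup Γ, Δ.FiniteIndex ∧ ∀ g ∈ Δ, ∀ v : κ → K ⊗[ℚ] X.H,
      φ (fun k => ρ g (v k)) = χ g ^ n * φ v) :
    ∃ (N : ℕ) (c : Fin N → K) (f : Fin N → MultilinearMap ℚ (fun _ : κ => X.H) ℚ),
      (∀ j, HodgeMul X.per (f j)) ∧
        ∀ v : κ → X.H, φ (fun k => (1 : K) ⊗ₜ[ℚ] v k) = ∑ j, c j * ((f j v : ℚ) : K) := by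
  classical
  obtain ⟨a, Z, hZ, b, hC, hb⟩ := exists_ppav' (AV.isAV X) hE
  have hTD : TD Z (SH X.per ρ χ b) := td_of b hb hC hρ
  have hK : KillA Z (SH X.per ρ χ b) :=
    kill_av hSO hSP4 hSP6 hKUT hRDA hRDM A X h7 hA hX hZ b hC hTD
  let _ : Fintype κ := Fintype.ofFinite κ
  have e : κ ≃ Fin n × Fin 2 := Fintype.equivOfCardEq (by
    rw [← Nat.card_eq_fintype_card, hκ, Fintype.card_prod, Fintype.card_fin, Fintype.card_fin,
      mul_comm])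
  let φ' : MultilinearMap K (fun _ : Fin n × Fin 2 => K ⊗[ℚ] X.H) K := φ.domDomCongr e
  have hφ' : ∀ v, φ' v = φ (fun k => v (e k)) := fun v => rfl
  have hT : IsTate ρ χ n φ' := by
    obtain ⟨Δ, hΔ, h⟩ := hφ
    refine ⟨Δ, hΔ, fun s hs v => ?_⟩
    rw [hφ', hφ']
    exact h s hs (fun k => v (e k))
  have hkill : ∀ X' ∈ LZ Z, act X' (CF (FC b φ')) = 0 := fun X' hX' =>
    act_of_kills (hK _ (FC b φ') (FC_kills b φ' hT) X' hX')
  -- the rational parts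
  obtain ⟨per', hper'⟩ : ∃ per' : (Fin a ⊕ Fin a → ℚ) →+ X.T,
    per' = X.per.comp b.equivFun.symm.toLinearMap.toAddMonoidHom := ⟨_, rfl⟩
  rw [← hper'] at hC
  let S : Set ((Fin n × Fin 2 → (Fin a ⊕ Fin a → ℚ)) → K) :=
    {s | ∃ r : MultilinearMap ℚ (fun _ : Fin n × Fin 2 => (Fin a ⊕ Fin a → ℚ)) ℚ,
      HodgeMul per' r ∧ s = fun v => ((r v : ℚ) : K)}
  have h2 : (fun v : Fin n × Fin 2 → (Fin a ⊕ Fin a → ℚ) =>
      algebraMap K ℂ (φ' (fun k => (1 : K) ⊗ₜ[ℚ] b.equivFun.symm (v k)))) ∈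
        Submodule.span ℂ {g : (Fin n × Fin 2 → Fin a ⊕ Fin a → ℚ) → ℂ |
          ∃ s ∈ S, g = fun v => algebraMap K ℂ (s v)} := by
    obtain ⟨m, c, l, hml⟩ := rat_expand (FC b φ')
    have h3 : (fun v : Fin n × Fin 2 → (Fin a ⊕ Fin a → ℚ) =>
        algebraMap K ℂ (φ' (fun k => (1 : K) ⊗ₜ[ℚ] b.equivFun.symm (v k)))) =
        ∑ j, c j • fun v : Fin n × Fin 2 → (Fin a ⊕ Fin a → ℚ) =>
          algebraMap K ℂ (((evalM (fun I => l j (CF (FC b φ') I)) v : ℚ) : K)) := by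
      funext v
      rw [← FC_rat, hml v, Finset.sum_apply]
      refine Finset.sum_congr rfl fun j _ => ?_
      rw [Pi.smul_apply, smul_eq_mul, map_ratCast, lam_eval, evalM_apply]
    rw [h3]
    refine Submodule.sum_mem _ fun j _ => Submodule.smul_mem _ _ (Submodule.subset_span ?_)
    refine ⟨_, ⟨evalM (fun I => l j (CF (FC b φ') I)), hodgeMul_of hC ?_, rfl⟩, rfl⟩
    exact kill_lam gal_LZ hkill (l j) _ DZ_mem
  have h3 : (fun v : Fin n × Fin 2 → (Fin a ⊕ Fin a → ℚ) =>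
      φ' (fun k => (1 : K) ⊗ₜ[ℚ] b.equivFun.symm (v k))) ∈ Submodule.span K S := by
    refine span_descent_k (Ω := ℂ) S _ ?_
    refine Submodule.span_mono ?_ h2
    rintro g ⟨s, hs, rfl⟩
    exact ⟨s, hs, rfl⟩
  obtain ⟨N, c, s, hs'⟩ := Submodule.mem_span_set'.1 h3
  choose r hr hr' using fun j => (s j).2
  refine ⟨N, c, fun j => ((r j).compLinearMap fun _ => b.equivFun.toLinearMap).domDomCongr e.symm,
    fun j => ?_, fun v => ?_⟩
  · obtain ⟨ψ, h4, h5⟩ := hr j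
    refine ⟨ψ.domDomCongr e.symm, fun v => ?_, fun z hz u => ?_⟩
    · rw [MultilinearMap.domDomCongr_apply, MultilinearMap.domDomCongr_apply,
        MultilinearMap.compLinearMap_apply, ← h4]
      congr 1
      funext k
      rw [hper']
      change _ = X.per (b.equivFun.symm (b.equivFun (v (e.symm k))))
      rw [LinearEquiv.symm_apply_apply]
    · rw [MultilinearMap.domDomCongr_apply, MultilinearMap.domDomCongr_apply]
      exact h5 z hz _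
  · have h4 := congrFun hs' (fun k => b.equivFun (v (e.symm k)))
    beta_reduce at h4
    rw [hφ'] at h4
    have h5 : (fun k => (1 : K) ⊗ₜ[ℚ] b.equivFun.symm (b.equivFun (v (e.symm (e k))))) =
        fun k => (1 : K) ⊗ₜ[ℚ] v k := by
      funext k
      rw [LinearEquiv.symm_apply_apply, Equiv.symm_apply_apply]
    rw [h5] at h4
    rw [← h4, Finset.sum_apply]
    refine Finset.sum_congr rfl fun j _ => ?_
    rw [Pi.smul_apply, smul_eq_mul, hr' j]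
    rfl

/-- **Tate classes are combinations of Hodge classes.** -/
theorem tate_seven [Algebra.IsAlgebraic K ℂ] (hSO : S_SO) (hSP4 : S_SP4) (hSP6 : S_SP6)
    (hKUT : S_KUT) (hRDA : S_RDA) (hRDM : S_RDM) (A X : AV) (h7 : finrank ℂ A.T ≤ 7)
    (hA : NoEnd A) (hX : ∀ Y, IsFactor Y X → IsFactor Y A) {E : X.H → X.H → ℚ}
    (hE : Pool.Agent.Y90.St.IsPolarization X.per E) {ρ : Representation K Γ (K ⊗[ℚ] X.H)}
    {χ : Γ →* K} (hρ : IsTateModule X.per E ρ χ) {κ : Type} [Finite κ] {m : ℕ}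
    (hκ : Nat.card κ = 2 * m) (φ : (K ⊗[ℚ] X.H) [⋀^κ]→ₗ[K] K)
    (hφ : ∃ Δ : Subgroup Γ, Δ.FiniteIndex ∧ ∀ g ∈ Δ, ∀ v : κ → K ⊗[ℚ] X.H,
      φ (fun k => ρ g (v k)) = χ g ^ m * φ v) :
    ∃ (n : ℕ) (c : Fin n → K) (f : Fin n → (X.H [⋀^κ]→ₗ[ℚ] ℚ)),
      (∀ j, IsHodge X.per (f j)) ∧
        ∀ v : κ → X.H, φ (fun k => (1 : K) ⊗ₜ[ℚ] v k) = ∑ j, c j * ((f j v : ℚ) : K) := by
  classical
  obtain ⟨a, Z, hZ, b, hC, hb⟩ := exists_ppav' (AV.isAV X) hE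
  have hTD : TD Z (SH X.per ρ χ b) := td_of b hb hC hρ
  have hK : KillA Z (SH X.per ρ χ b) :=
    kill_av hSO hSP4 hSP6 hKUT hRDA hRDM A X h7 hA hX hZ b hC hTD
  obtain ⟨Ψ₂, h₂⟩ := hC.hom hZ.cht (R := 1) (by rw [cK_one, Matrix.one_mul, Matrix.mul_one])
  have e₂ : ∀ v, Ψ₂ (X.per v) = perOne Z (b.equivFun v) := fun v => by
    have h3 := h₂ (b.equivFun v)
    have h4 : (X.per.comp b.equivFun.symm.toLinearMap.toAddMonoidHom) (b.equivFun v) = X.per v := by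
      change X.per (b.equivFun.symm (b.equivFun v)) = X.per v
      rw [LinearEquiv.symm_apply_apply]
    rwa [h4, one_mulVec] at h3
  -- the form in the standard variables
  let _ : Fintype κ := Fintype.ofFinite κ
  have e : κ ≃ Fin m × Fin 2 := Fintype.equivOfCardEq (by
    rw [← Nat.card_eq_fintype_card, hκ, Fintype.card_prod, Fintype.card_fin, Fintype.card_fin,
      mul_comm])
  let φ' : MultilinearMap K (fun _ : Fin m × Fin 2 => K ⊗[ℚ] X.H) K :=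
    φ.toMultilinearMap.domDomCongr e
  have hφ' : ∀ v, φ' v = φ (fun k => v (e k)) := fun v => rfl
  have hT : IsTate ρ χ m φ' := by
    obtain ⟨Δ, hΔ, h⟩ := hφ
    refine ⟨Δ, hΔ, fun s hs v => ?_⟩
    rw [hφ', hφ']
    exact h s hs (fun k => v (e k))
  have halt : ∀ (σ : Equiv.Perm (Fin m × Fin 2)) v,
      φ' (fun k => v (σ k)) = ((Equiv.Perm.sign σ : ℤ) : K) * φ' v := by
    intro σ v
    have h1 : φ' (fun k => v (σ k)) = (φ.domDomCongr e) (v ∘ σ) := rfl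
    have h2 : φ' v = (φ.domDomCongr e) v := rfl
    rw [h1, h2, AlternatingMap.map_perm, Units.smul_def, zsmul_eq_mul]
  have h0 := hK _ (FC b φ') (FC_kills b φ' hT)
  have h1 : altQ (FC b φ') ∈ Submodule.span ℂ {g : (Fin m × Fin 2 → Fin a ⊕ Fin a → ℚ) → ℂ |
      ∃ r, IsHodge (perOne Z) r ∧ g = fun v => ((r v : ℚ) : ℂ)} := by
    obtain ⟨n, c, l, hl⟩ := altQ_expand (FC b φ')
    have h2 : altQ (FC b φ') = ∑ j, c j • fun v => ((ratA (FC b φ') (l j) v : ℚ) : ℂ) := by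
      funext v
      rw [hl, Finset.sum_apply]
      rfl
    rw [h2]
    refine Submodule.sum_mem _ fun j _ => Submodule.smul_mem _ _ (Submodule.subset_span
      ⟨_, ?_, rfl⟩)
    exact hZ.cht.hodge_rat gal_LZ (DJ_JR ▸ DZ_mem) (fun X hX => act_of_kills (h0 X hX)) (l j)
  have h2 : (fun v : Fin m × Fin 2 → Fin a ⊕ Fin a → ℚ =>
      algebraMap K ℂ (φ' (fun k => (1 : K) ⊗ₜ[ℚ] b.equivFun.symm (v k)))) ∈
        Submodule.span ℂ {g : (Fin m × Fin 2 → Fin a ⊕ Fin a → ℚ) → ℂ |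
      ∃ r, IsHodge (perOne Z) r ∧ g = fun v => ((r v : ℚ) : ℂ)} := by
    have h3 : (fun v : Fin m × Fin 2 → Fin a ⊕ Fin a → ℚ =>
        algebraMap K ℂ (φ' (fun k => (1 : K) ⊗ₜ[ℚ] b.equivFun.symm (v k)))) =
        (Fintype.card (Equiv.Perm (Fin m × Fin 2)) : ℂ)⁻¹ • altQ (FC b φ') := by
      funext v
      rw [Pi.smul_apply, smul_eq_mul]
      have h4 := FC_alt b φ' halt v
      rw [h4, ← mul_assoc, inv_mul_cancel₀, one_mul]
      exact_mod_cast Fintype.card_ne_zero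
    rw [h3]
    exact Submodule.smul_mem _ _ h1
  -- descent
  let S : Set ((Fin m × Fin 2 → Fin a ⊕ Fin a → ℚ) → K) :=
    {s | ∃ r, IsHodge (perOne Z) r ∧ s = fun v => ((r v : ℚ) : K)}
  have h3 : (fun v : Fin m × Fin 2 → Fin a ⊕ Fin a → ℚ =>
      φ' (fun k => (1 : K) ⊗ₜ[ℚ] b.equivFun.symm (v k))) ∈ Submodule.span K S := by
    refine span_descent_k (Ω := ℂ) S _ ?_
    refine Submodule.span_mono ?_ h2
    rintro g ⟨r, hr, rfl⟩
    refine ⟨_, ⟨r, hr, rfl⟩, ?_⟩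
    funext v
    rw [map_ratCast]
  obtain ⟨n, c, s, hs'⟩ := Submodule.mem_span_set'.1 h3
  choose r hr hr' using fun j => (s j).2
  refine ⟨n, c, fun j => (((r j).compLinearMap b.equivFun.toLinearMap)).domDomCongr e.symm,
    fun j => ?_, fun v => ?_⟩
  · have h4 : IsHodge X.per ((r j).compLinearMap b.equivFun.toLinearMap) :=
      isHodge_comp b.equivFun.toLinearMap Ψ₂ e₂ (hr j)
    obtain ⟨ψ, h5, h6⟩ := h4
    refine ⟨ψ.domDomCongr e.symm, fun v => ?_, fun z hz u => ?_⟩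
    · rw [MultilinearMap.domDomCongr_apply, AlternatingMap.domDomCongr_apply]
      exact h5 _
    · rw [MultilinearMap.domDomCongr_apply, MultilinearMap.domDomCongr_apply]
      exact h6 z hz _
  · have h4 := congrFun hs' (fun k => b.equivFun (v (e.symm k)))
    beta_reduce at h4
    rw [hφ'] at h4
    have h5 : (fun k => (1 : K) ⊗ₜ[ℚ] b.equivFun.symm (b.equivFun (v (e.symm (e k))))) =
        fun k => (1 : K) ⊗ₜ[ℚ] v k := by
      funext k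
      rw [LinearEquiv.symm_apply_apply, Equiv.symm_apply_apply]
    rw [h5] at h4
    rw [← h4, Finset.sum_apply]
    refine Finset.sum_congr rfl fun j _ => ?_
    rw [Pi.smul_apply, smul_eq_mul, hr' j]
    rfl

end

end Pool.Agent.H926.T
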