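import Mathlib
import Pool.Agent.H926.T.Jobs6

/-!
# The commutators on an irreducible submodule
-/

set_option linter.unusedSectionVars false

namespace Pool.Agent.H926.T

open Matrix Module Pool.Agent.Y90 Pool.Agent.W437.HC Pool.Agent.W437.HD
  Pool.Agent.TH504.CB
open Pool.Agent.W548.Odd hiding cv
open Pool.Agent.W437.HP (cK cK_mul cK_one)
open Pool.Agent.Y224.TS (TD)
open Pool.Agent.N183.TS (SF Rk1D)

noncomputable section

/-- The commutators on an irreducible submodule: each commutator of the Lie algebra `LT S` agrees there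
with an element of the ideal. -/
theorem s_nu (hLA : S_LA) : S_NU := by
  intro G Z S h hZ 𝔨 hk hki D hD hDk U hU hr X hX Y hY
  have hbr : ∀ X ∈ Y224.TS.LT S, ∀ Y ∈ Y224.TS.LT S, X * Y - Y * X ∈ Y224.TS.LT S :=
    fun X hX Y hY => Y224.TS.LT_br hX hY
  have hst : ∀ X ∈ Y224.TS.LT S, ∀ u ∈ U, X *ᵥ u ∈ U := hU.2.1
  rcases hr with hr | hr
  · refine ⟨0, 𝔨.zero_mem, fun u hu => ?_⟩
    rw [zero_mulVec]
    obtain ⟨v, -, hv⟩ := finrank_eq_one_iff'.1 hr
    obtain ⟨a, ha⟩ := hv ⟨X *ᵥ (v : Fin G ⊕ Fin G → ℂ), hst X hX v v.2⟩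
    obtain ⟨b, hb⟩ := hv ⟨Y *ᵥ (v : Fin G ⊕ Fin G → ℂ), hst Y hY v v.2⟩
    obtain ⟨c, hc⟩ := hv ⟨u, hu⟩
    have ha' : X *ᵥ (v : Fin G ⊕ Fin G → ℂ) = a • (v : Fin G ⊕ Fin G → ℂ) :=
      (congrArg Subtype.val ha).symm
    have hb' : Y *ᵥ (v : Fin G ⊕ Fin G → ℂ) = b • (v : Fin G ⊕ Fin G → ℂ) :=
      (congrArg Subtype.val hb).symm
    have hc' : u = c • (v : Fin G ⊕ Fin G → ℂ) := (congrArg Subtype.val hc).symm
    rw [hc', mulVec_smul, sub_mulVec, ← mulVec_mulVec, ← mulVec_mulVec, ha', hb', mulVec_smul,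
      mulVec_smul, ha', hb', smul_smul, smul_smul, mul_comm, sub_self, smul_zero]
  · obtain ⟨ε, hε, N, hN, h1, h2, h3⟩ := hr
    have hNk : N ∈ 𝔨 := by
      have h4 : (2 : ℂ) • N = -ε • (N * D - D * N) := by
        have h5 : ε • (D * N) = N := by
          rw [← smul_mul_assoc]
          exact h1
        have h6 : ε • (N * D) = -N := by
          rw [← mul_smul_comm]
          exact h2
        rw [neg_smul, smul_sub, h5, h6, two_smul]
        abel
      have h7 : N = (2 : ℂ)⁻¹ • ((2 : ℂ) • N) := by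
        rw [smul_smul, inv_mul_cancel₀ (two_ne_zero), one_smul]
      rw [h7, h4]
      exact 𝔨.smul_mem _ (𝔨.smul_mem _ (hki N hN D hDk))
    have hle : Y224.TS.resL 𝔨 U ≤ Y224.TS.resL (Y224.TS.LT S) U := by
      rintro x ⟨A, hA, hx⟩
      exact ⟨A, hk hA, hx⟩
    have hidl : ∀ x ∈ Y224.TS.resL (Y224.TS.LT S) U, ∀ y ∈ Y224.TS.resL 𝔨 U,
        x * y - y * x ∈ Y224.TS.resL 𝔨 U := by
      rintro x ⟨A, hA, hx⟩ y ⟨B, hB, hy⟩
      refine ⟨A * B - B * A, hki A hA B hB, fun u => ?_⟩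
      rw [LinearMap.sub_apply, Submodule.coe_sub, Module.End.mul_apply, Module.End.mul_apply, hx,
        hy, hy, hx, sub_mulVec, mulVec_mulVec, mulVec_mulVec]
    have hmem := hLA U (Y224.TS.resL (Y224.TS.LT S) U) (Y224.TS.resL 𝔨 U)
      (Y224.TS.resL_br hbr U) (fun W hW => N183.TS.res_irr h.sq hU W hW) hle hidl
      (Y224.TS.resM N U (hst N hN)) ⟨N, hNk, fun u => rfl⟩
      (by
        have h8 := Y224.TS.finrank_map_res (U := U) (Y := Y224.TS.resM N U (hst N hN)) (N := N)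
          (fun u => rfl)
        rw [h3] at h8
        exact h8.symm)
      (Y224.TS.resM X U (hst X hX)) ⟨X, hX, fun u => rfl⟩
      (Y224.TS.resM Y U (hst Y hY)) ⟨Y, hY, fun u => rfl⟩
    obtain ⟨k, hk', hku⟩ := hmem
    refine ⟨k, hk', fun u hu => ?_⟩
    have h9 := hku ⟨u, hu⟩
    rw [LinearMap.sub_apply, Submodule.coe_sub, Module.End.mul_apply, Module.End.mul_apply,
      Y224.TS.resM_coe, Y224.TS.resM_coe, Y224.TS.resM_coe, Y224.TS.resM_coe] at h9
    rw [sub_mulVec, ← mulVec_mulVec, ← mulVec_mulVec]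
    exact h9

end

end Pool.Agent.H926.T
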