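import Mathlib
import Pool.Agent.H926.T.Jobs6
import Pool.Graph.R_pool_sql_team_seeded_63374d34.N995.Facs

/-!
# Reduction to a factor (abelian varieties)
-/

set_option linter.unusedSectionVars false

namespace Pool.Agent.H926.T

open Matrix Module Pool.Agent.Y90 Pool.Agent.W437.HC Pool.Agent.W437.HD
  Pool.Agent.TH504.CB
open Pool.Agent.W548.Odd hiding cv
open Pool.Agent.W437.HP (cK cK_mul cK_one cK_sum)
open Pool.Agent.R915 (IsFactor IsSimple AVQ BQ cQ inF inF_hom inF_same inF_ne inF_bij proj_hom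
  iso_of_simple simple_of)
open Pool.Agent.N995 (Isg Isg.symm Isg.trans)

noncomputable section

namespace H297

/-- Homomorphisms compose. -/
theorem hcomp {X Y W : AV} {f : X.H →ₗ[ℚ] Y.H} {g : Y.H →ₗ[ℚ] W.H} (hg : IsHom Y W g)
    (hf : IsHom X Y f) : IsHom X W (g.comp f) := Pool.Agent.R915.IsHom.comp' hg hf

/-- Sums of homomorphisms. -/
theorem hsum {X Y : AV} {Q : Type} [Fintype Q] {f : Q → (X.H →ₗ[ℚ] Y.H)}
    (hf : ∀ q, IsHom X Y (f q)) : IsHom X Y (∑ q, f q) := by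
  choose Ψ hΨ using hf
  refine ⟨∑ q, Ψ q, fun v => ?_⟩
  rw [LinearMap.sum_apply, LinearMap.sum_apply, map_sum]
  exact Finset.sum_congr rfl fun q _ => hΨ q v

/-- **Complete reducibility**, as a direct sum in the category of abelian varieties. -/
theorem dec (X : AV) : ∃ (ι : Type) (_ : Fintype ι) (_ : DecidableEq ι) (a : ι → ℕ)
    (Z' : ∀ i, Matrix (Fin (a i)) (Fin (a i)) ℂ) (h' : ∀ i, PM (Z' i))
    (e : ∀ i, (AVZ (h' i)).H →ₗ[ℚ] X.H) (f : ∀ i, X.H →ₗ[ℚ] (AVZ (h' i)).H),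
    (∀ i, IsSimple (AVZ (h' i))) ∧ (∀ i, IsHom (AVZ (h' i)) X (e i)) ∧
      (∀ i, IsHom X (AVZ (h' i)) (f i)) ∧ (∀ i v, f i (e i v) = v) ∧
      (∀ i j, i ≠ j → ∀ v, f i (e j v) = 0) ∧ ∀ v, ∑ i, e i (f i v) = v := by
  obtain ⟨G, Z, h, A', hC'⟩ := exists_ppav (AV.isAV X)
  obtain ⟨ι, _, _, g, Z', E, F, h1, h2, h3, h4, h5, h6, h7, h8⟩ :=
    decomposes G G Z le_rfl h.symm h.pos
  have hfac : ∀ i, Fac Z (Z' i) (E i) (F i) := by
    intro i
    refine ⟨h4 i, de_of_JR (h7 i), fd_of_JR ?_⟩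
    have h12 : JR Z = ∑ j, JR Z * cK ℝ (E j) * cK ℝ (F j) := by
      have h13 : JR Z = JR Z * cK ℝ (∑ i, E i * F i) := by rw [h6, cK_one, Matrix.mul_one]
      conv_lhs => rw [h13, cK_sum, Matrix.mul_sum]
      refine Finset.sum_congr rfl fun j _ => ?_
      rw [cK_mul, Matrix.mul_assoc]
    rw [h12, Matrix.mul_sum, Finset.sum_eq_single i]
    · rw [h7 i, ← Matrix.mul_assoc, ← Matrix.mul_assoc, ← cK_mul, h4 i, cK_one, Matrix.one_mul]
    · intro j _ hj
      rw [h7 j, ← Matrix.mul_assoc, ← Matrix.mul_assoc, ← cK_mul, h5 i j hj.symm,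
        Pool.Agent.W437.HP.cK_zero, Matrix.zero_mul, Matrix.zero_mul]
    · intro hi'
      exact absurd (Finset.mem_univ i) hi'
  have hPM : ∀ i, PM (Z' i) := fun i => ⟨h1 i, h2 i⟩
  have hsim : ∀ i, IsSimple (AVZ (hPM i)) := fun i => simple_of (g i) (hPM i) (h3 i) (h8 i)
  obtain ⟨Ψ₂, h₂⟩ := hC'.hom h.cht (R := 1) (by rw [cK_one, Matrix.one_mul, Matrix.mul_one])
  have e₂ : ∀ v, Ψ₂ (X.per v) = perOne Z (A' v) := fun v => by
    have h3 := h₂ (A' v)
    have h4 : (X.per.comp A'.symm.toLinearMap.toAddMonoidHom) (A' v) = X.per v := by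
      change X.per (A'.symm (A' v)) = X.per v
      rw [LinearEquiv.symm_apply_apply]
    rwa [h4, one_mulVec] at h3
  have hA' : IsHom X (AVZ h) A'.toLinearMap := ⟨Ψ₂, e₂⟩
  have hF : ∀ i, IsHom (AVZ h) (AVZ (hPM i)) (Matrix.mulVecLin (F i)) := by
    intro i
    obtain ⟨Ψ₁, h₁⟩ := h.cht.hom (hPM i).cht (R := F i)
      (by rw [DJ_JR, DJ_JR]; exact (hfac i).fd)
    exact ⟨Ψ₁, fun v => h₁ v⟩
  have hE : ∀ i, IsHom (AVZ (hPM i)) X
      (A'.symm.toLinearMap.comp (Matrix.mulVecLin (E i))) := by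
    intro i
    obtain ⟨Ψ₁, h₁⟩ := (hPM i).cht.hom hC' (R := E i)
      (by rw [DJ_JR, DJ_JR]; exact (hfac i).de.symm)
    exact ⟨Ψ₁, fun v => h₁ v⟩
  refine ⟨ι, inferInstance, inferInstance, g, Z', hPM,
    fun i => A'.symm.toLinearMap.comp (Matrix.mulVecLin (E i)),
    fun i => (Matrix.mulVecLin (F i)).comp A'.toLinearMap, hsim, hE,
    fun i => hcomp (hF i) hA', fun i v => ?_, fun i j hij v => ?_, fun v => ?_⟩
  · change F i *ᵥ (A' (A'.symm (E i *ᵥ v))) = v
    rw [LinearEquiv.apply_symm_apply, mulVec_mulVec, h4 i, one_mulVec]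
  · change F i *ᵥ (A' (A'.symm (E j *ᵥ v))) = 0
    rw [LinearEquiv.apply_symm_apply, mulVec_mulVec, h5 i j hij, zero_mulVec]
  · change ∑ i, A'.symm (E i *ᵥ (F i *ᵥ (A' v))) = v
    rw [← map_sum]
    have e1 : ∑ i, E i *ᵥ (F i *ᵥ (A' v)) = A' v := by
      have e3 : (∑ i, E i * F i) *ᵥ (A' v) = A' v := by rw [h6, one_mulVec]
      rw [sum_mulVec] at e3
      rw [← e3]
      refine Finset.sum_congr rfl fun i _ => ?_
      rw [← mulVec_mulVec, e3]
    rw [e1, LinearEquiv.symm_apply_apply]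

/-- The sum of the components. -/
theorem sum_inF {Q : Type} [Fintype Q] [DecidableEq Q] {a : Q → ℕ} (w : BQ a → ℚ) :
    ∑ q, inF a q (cQ q w) = w := by
  funext ⟨q, i⟩
  rw [Finset.sum_apply, Finset.sum_eq_single q]
  · exact congrFun (inF_same q (cQ q w)) i
  · intro q' _ hq'
    exact congrFun (inF_ne (Ne.symm hq') (cQ q' w)) i
  · intro h
    exact absurd (Finset.mem_univ q) h

end H297

open H297

theorem s_rda : S_RDA := by
  classical
  intro A X hX
  obtain ⟨ι, _, _, a, Z', h', ε, φ, hsim, hε, hφ, hφε, hφε0, hsumX⟩ := dec X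
  obtain ⟨J, _, _, a₁, Z₁, h₁, ε₁, φ₁, hsim₁, hε₁, hφ₁, hφε₁, -, hsumA⟩ := dec A
  let st : Setoid ι :=
    { r := fun i j => Isg (AVZ (h' i)) (AVZ (h' j))
      iseqv := ⟨fun i => ⟨LinearEquiv.refl ℚ _, ⟨LinearMap.id, fun _ => rfl⟩,
        ⟨LinearMap.id, fun _ => rfl⟩⟩, fun h => Isg.symm h, fun h h2 => Isg.trans h h2⟩ }
  let R := Quotient st
  let _ : Fintype R := Quotient.fintype st
  let o : R → ι := fun q => q.out
  have hmk : ∀ i : ι, Isg (AVZ (h' (o ⟦i⟧))) (AVZ (h' i)) := fun i => Quotient.mk_out i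
  have ho : ∀ q q' : R, Isg (AVZ (h' (o q))) (AVZ (h' (o q'))) → q = q' := by
    intro q q' hqq
    rw [← Quotient.out_eq q, ← Quotient.out_eq q']
    exact Quotient.sound hqq
  have hoinj : ∀ q q' : R, q ≠ q' → o q ≠ o q' := by
    intro q q' hne heq
    apply hne
    apply ho
    rw [heq]
    exact ⟨LinearEquiv.refl ℚ _, ⟨LinearMap.id, fun _ => rfl⟩, ⟨LinearMap.id, fun _ => rfl⟩⟩
  let B : AV := AVQ (fun q : R => h' (o q))
  let pr : ∀ q : R, B.H →ₗ[ℚ] (AVZ (h' (o q))).H := fun q =>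
    LinearMap.funLeft ℚ ℚ fun i : Fin (a (o q)) ⊕ Fin (a (o q)) => (⟨q, i⟩ : BQ fun q => a (o q))
  have hpr : ∀ q, IsHom B (AVZ (h' (o q))) (pr q) := fun q => proj_hom (fun q : R => h' (o q)) q
  let inc : ∀ q : R, (AVZ (h' (o q))).H →ₗ[ℚ] B.H := fun q => inF (fun q => a (o q)) q
  have hinc : ∀ q, IsHom (AVZ (h' (o q))) B (inc q) := fun q => inF_hom (fun q : R => h' (o q)) q
  have hpi : ∀ q v, pr q (inc q v) = v := fun q v => inF_same (a := fun q => a (o q)) q v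
  have hsumB : ∀ w : B.H, ∑ q, inc q (pr q w) = w := fun w => sum_inF (a := fun q => a (o q)) w
  choose θ hθ hθ' using hmk
  -- the maps to `A`
  have hσ : ∀ q : R, ∃ σ : (AVZ (h' (o q))).H →ₗ[ℚ] A.H, IsHom (AVZ (h' (o q))) A σ ∧
      Function.Injective σ := by
    intro q
    have h1 : IsFactor (AVZ (h' (o q))) X := ⟨hsim _, ε _, hε _, fun x y hxy => by
      rw [← hφε _ x, ← hφε _ y, hxy]⟩
    exact (hX _ h1).2
  choose σ hσh hσi using hσ
  let n := Fintype.card ι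
  let en : Fin n ≃ ι := (Fintype.equivFin ι).symm
  refine ⟨B, ∑ q, (ε (o q)).comp (pr q), ∑ q, (inc q).comp (φ (o q)), n,
    fun k => (ε (en k)).comp ((θ (en k)).toLinearMap.comp (pr ⟦en k⟧)),
    fun k => (inc ⟦en k⟧).comp ((θ (en k)).symm.toLinearMap.comp (φ (en k))),
    ∑ q, (σ q).comp (pr q), hsum fun q => hcomp (hε _) (hpr q),
    hsum fun q => hcomp (hinc q) (hφ _), fun v => ?_,
    fun k => hcomp (hε _) (hcomp (hθ _) (hpr _)),
    fun k => hcomp (hinc _) (hcomp (hθ' _) (hφ _)), fun v => ?_,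
    hsum fun q => hcomp (hσh q) (hpr q), ?_⟩
  · rw [LinearMap.sum_apply]
    conv_rhs => rw [← hsumB v]
    refine Finset.sum_congr rfl fun q _ => ?_
    rw [LinearMap.comp_apply, LinearMap.sum_apply, map_sum, Finset.sum_eq_single q]
    · rw [LinearMap.comp_apply, hφε]
    · intro q' _ hq'
      rw [LinearMap.comp_apply, hφε0 _ _ (hoinj _ _ (Ne.symm hq'))]
    · intro h
      exact absurd (Finset.mem_univ q) h
  · have e1 : ∀ k : Fin n, ((ε (en k)).comp ((θ (en k)).toLinearMap.comp (pr ⟦en k⟧)))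
        (((inc ⟦en k⟧).comp ((θ (en k)).symm.toLinearMap.comp (φ (en k)))) v) =
        ε (en k) (φ (en k) v) := by
      intro k
      change ε (en k) (θ (en k) (pr ⟦en k⟧ (inc ⟦en k⟧ ((θ (en k)).symm (φ (en k) v))))) = _
      rw [hpi, LinearEquiv.apply_symm_apply]
    rw [Finset.sum_congr rfl fun k _ => e1 k, en.sum_comp fun i => ε i (φ i v)]
    exact hsumX v
  · rw [injective_iff_map_eq_zero]
    intro v hv
    have key : ∀ q, pr q v = 0 := by
      intro q
      -- a component of `σ q`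
      obtain ⟨j, hj⟩ : ∃ j, (φ₁ j).comp (σ q) ≠ 0 := by
        by_contra hcon
        push Not at hcon
        obtain ⟨y, hy⟩ := (hsim (o q)).1
        refine hy (hσi q ?_)
        rw [map_zero, ← hsumA (σ q y)]
        refine Finset.sum_eq_zero fun j _ => ?_
        have e2 : φ₁ j (σ q y) = 0 := congrArg (fun f => f y) (hcon j)
        rw [e2, map_zero]
      obtain ⟨e, he1, he2⟩ := iso_of_simple (hsim (o q)) (hsim₁ j) (hcomp (hφ₁ j) (hσh q)) hj
      have h0 : ∀ q', q' ≠ q → (φ₁ j).comp (σ q') = 0 := by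
        intro q' hq'
        by_contra hne
        obtain ⟨e', he1', he2'⟩ :=
          iso_of_simple (hsim (o q')) (hsim₁ j) (hcomp (hφ₁ j) (hσh q')) hne
        apply hq'
        apply ho
        have h3 : Isg (AVZ (h' (o q'))) (AVZ (h₁ j)) := ⟨e', he1', he2'⟩
        have h4 : Isg (AVZ (h' (o q))) (AVZ (h₁ j)) := ⟨e, he1, he2⟩
        exact Isg.trans h3 (Isg.symm h4)
      have h5 : φ₁ j (σ q (pr q v)) = 0 := by
        have h6 := congrArg (φ₁ j) hv
        rw [map_zero, LinearMap.sum_apply, map_sum, Finset.sum_eq_single q] at h6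
        · exact h6
        · intro q' _ hq'
          exact congrArg (fun f => f (pr q' v)) (h0 q' hq')
        · intro h
          exact absurd (Finset.mem_univ q) h
      have h7 : Function.Injective ((φ₁ j).comp (σ q)) := by
        have h8 : LinearMap.ker ((φ₁ j).comp (σ q)) = ⊥ := by
          rcases (hsim (o q)).2 _ (Pool.Agent.R915.isSub_ker (hcomp (hφ₁ j) (hσh q))) with h9 | h9
          · exact h9
          · exact absurd (LinearMap.ker_eq_top.1 h9) hj
        exact LinearMap.ker_eq_bot.1 h8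
      apply h7
      rw [map_zero]
      exact h5
    rw [← hsumB v]
    refine Finset.sum_eq_zero fun q _ => ?_
    rw [key q, map_zero]

end

end Pool.Agent.H926.T

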