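import Pool.Agent.H926.T.Jobs6

/-!
# Reduction to a factor, killed forms
-/

set_option linter.unusedSectionVars false

namespace Pool.Agent.H926.T

open Matrix Module Pool.Agent.Y90 Pool.Agent.W437.HC Pool.Agent.W437.HD
  Pool.Agent.TH504.CB
open Pool.Agent.W548.Odd hiding cv
open Pool.Agent.W437.HP (cK cK_mul cK_one)
open Pool.Agent.H204R3.SP (Kills)
open Pool.Agent.Y224.TS (TD)
open Pool.Agent.N183.TS (SF)

noncomputable section

namespace H253

variable {G a n : ℕ} {Z : Matrix (Fin G) (Fin G) ℂ} {Z' : Matrix (Fin a) (Fin a) ℂ}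
  {E : Matrix (Fin G ⊕ Fin G) (Fin a ⊕ Fin a) ℚ} {F : Matrix (Fin a ⊕ Fin a) (Fin G ⊕ Fin G) ℚ}

/-- A homomorphism from a factor, composed with the projection, commutes with the Lie algebra. -/
theorem comm_LZ (hf : Fac Z Z' E F) (P : Matrix (Fin G ⊕ Fin G) (Fin a ⊕ Fin a) ℚ)
    (hP : DZ Z * cK ℂ P = cK ℂ P * DZ Z') (X : Matrix (Fin G ⊕ Fin G) (Fin G ⊕ Fin G) ℂ)
    (hX : X ∈ LZ Z) : (cK ℂ P * cK ℂ F) * X = X * (cK ℂ P * cK ℂ F) := by
  let L : Submodule ℂ (Matrix (Fin G ⊕ Fin G) (Fin G ⊕ Fin G) ℂ) :=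
    { carrier := {X | (cK ℂ P * cK ℂ F) * X = X * (cK ℂ P * cK ℂ F)}
      add_mem' := fun {X Y} hX hY => by
        change (cK ℂ P * cK ℂ F) * (X + Y) = (X + Y) * (cK ℂ P * cK ℂ F)
        rw [Matrix.mul_add, Matrix.add_mul, show (cK ℂ P * cK ℂ F) * X = _ from hX,
          show (cK ℂ P * cK ℂ F) * Y = _ from hY]
      zero_mem' := by
        change (cK ℂ P * cK ℂ F) * 0 = 0 * (cK ℂ P * cK ℂ F)
        rw [Matrix.mul_zero, Matrix.zero_mul]
      smul_mem' := fun c X hX => by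
        change (cK ℂ P * cK ℂ F) * (c • X) = (c • X) * (cK ℂ P * cK ℂ F)
        rw [Matrix.mul_smul, Matrix.smul_mul, show (cK ℂ P * cK ℂ F) * X = _ from hX] }
  have hL : LZ Z ≤ L := by
    refine LZ_le (fun σ => ?_) (fun A hA C hC => ?_)
    · change (cK ℂ P * cK ℂ F) * DS Z σ = DS Z σ * (cK ℂ P * cK ℂ F)
      have h1 : DS Z σ * cK ℂ P = cK ℂ P * DS Z' σ := by
        have h1 := congrArg (fun M => M.map σ) hP
        simp only [Matrix.map_mul, cK_aut] at h1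
        exact h1
      rw [Matrix.mul_assoc, hf.fds, ← Matrix.mul_assoc, ← h1, Matrix.mul_assoc]
    · have hA' : Commute (cK ℂ P * cK ℂ F) A := hA
      have hC' : Commute (cK ℂ P * cK ℂ F) C := hC
      exact ((hA'.mul_right hC').sub_right (hC'.mul_right hA') :
        Commute (cK ℂ P * cK ℂ F) (A * C - C * A))
  exact hL hX

/-- The action on the images of the homomorphisms. -/
theorem act_P (hf : Fac Z Z' E F) (P : Matrix (Fin G ⊕ Fin G) (Fin a ⊕ Fin a) ℚ)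
    (X : Matrix (Fin G ⊕ Fin G) (Fin G ⊕ Fin G) ℂ)
    (h : (cK ℂ P * cK ℂ F) * X = X * (cK ℂ P * cK ℂ F)) :
    X * cK ℂ P = cK ℂ P * (cK ℂ F * X * cK ℂ E) := by
  calc X * cK ℂ P = X * (cK ℂ P * (cK ℂ F * cK ℂ E)) := by rw [hf.fe', Matrix.mul_one]
    _ = (X * (cK ℂ P * cK ℂ F)) * cK ℂ E := by simp only [Matrix.mul_assoc]
    _ = ((cK ℂ P * cK ℂ F) * X) * cK ℂ E := by rw [h]
    _ = cK ℂ P * (cK ℂ F * X * cK ℂ E) := by simp only [Matrix.mul_assoc]

variable {κ : Type} [Fintype κ] [DecidableEq κ]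

/-- The pulled back form. -/
def pbk (P : κ → Matrix (Fin G ⊕ Fin G) (Fin a ⊕ Fin a) ℚ)
    (φ : MultilinearMap ℂ (fun _ : κ => Fin G ⊕ Fin G → ℂ) ℂ) :
    MultilinearMap ℂ (fun _ : κ => Fin a ⊕ Fin a → ℂ) ℂ :=
  φ.compLinearMap (fun k => ml (P k))

theorem pbk_apply (P : κ → Matrix (Fin G ⊕ Fin G) (Fin a ⊕ Fin a) ℚ)
    (φ : MultilinearMap ℂ (fun _ : κ => Fin G ⊕ Fin G → ℂ) ℂ) (w : κ → (Fin a ⊕ Fin a → ℂ)) :
    pbk P φ w = φ (fun k => ml (P k) (w k)) := rfl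

theorem kills_pbk (P : κ → Matrix (Fin G ⊕ Fin G) (Fin a ⊕ Fin a) ℚ)
    (φ : MultilinearMap ℂ (fun _ : κ => Fin G ⊕ Fin G → ℂ) ℂ)
    (X : Matrix (Fin G ⊕ Fin G) (Fin G ⊕ Fin G) ℂ)
    (Y : Matrix (Fin a ⊕ Fin a) (Fin a ⊕ Fin a) ℂ)
    (h : ∀ k, X * cK ℂ (P k) = cK ℂ (P k) * Y) (hφ : Kills (ph (Fin G ⊕ Fin G) X) φ) :
    Kills (ph (Fin a ⊕ Fin a) Y) (pbk P φ) := by
  intro w
  rw [← hφ (fun k => ml (P k) (w k))]
  refine Finset.sum_congr rfl fun k _ => ?_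
  rw [pbk_apply]
  congr 1
  funext l
  by_cases hl : l = k
  · subst hl
    rw [Function.update_self, Function.update_self, ml_apply]
    change cK ℂ (P l) *ᵥ (Y *ᵥ w l) = X *ᵥ (cK ℂ (P l) *ᵥ w l)
    rw [mulVec_mulVec, mulVec_mulVec, h]
  · rw [Function.update_of_ne hl, Function.update_of_ne hl]

end H253

theorem s_rdm : S_RDM := by
  intro G a n Z Z' E F P Q h h' hf hP hQ hs S hS H κ _ _ φ hφ X hX
  have hcX : ∀ l, X * cK ℂ (P l) = cK ℂ (P l) * (cK ℂ F * X * cK ℂ E) := fun l =>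
    H253.act_P hf (P l) X (H253.comm_LZ hf (P l) (hP l) X hX)
  have hcD : ∀ D ∈ S, ∀ l, D * cK ℂ (P l) = cK ℂ (P l) * (cK ℂ F * D * cK ℂ E) := fun D hD l =>
    H253.act_P hf (P l) D ((hS.comm _).2 (H253.comm_LZ hf (P l) (hP l)) D hD)
  have hX' : cK ℂ F * X * cK ℂ E ∈ LZ Z' := (hf.comp hX).1
  -- the forms on the factor
  have hJ : ∀ J : κ → Fin n, Kills (ph (Fin a ⊕ Fin a) (cK ℂ F * X * cK ℂ E))
      (H253.pbk (fun k => P (J k)) φ) := by
    intro J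
    refine H κ _ ?_ _ hX'
    rintro _ ⟨D, hD, rfl⟩
    exact H253.kills_pbk _ φ D _ (fun k => hcD D hD (J k)) (hφ D hD)
  -- the decomposition of the vectors
  have h1 : ∑ l, cK ℂ (P l) * cK ℂ (Q l) = 1 := by
    have := congrArg (cK ℂ) hs
    rw [Pool.Agent.W437.HP.cK_sum, cK_one] at this
    simpa only [cK_mul] using this
  have hv : ∀ v : Fin G ⊕ Fin G → ℂ, v = ∑ l, ml (P l) (ml (Q l) v) := by
    intro v
    have h3 : v = (∑ l, cK ℂ (P l) * cK ℂ (Q l)) *ᵥ v := by rw [h1, one_mulVec]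
    conv_lhs => rw [h3]
    rw [Matrix.sum_mulVec]
    refine Finset.sum_congr rfl fun l _ => ?_
    rw [ml_apply, ml_apply, mulVec_mulVec]
  have hXv : ∀ v : Fin G ⊕ Fin G → ℂ, X *ᵥ v =
      ∑ l, ml (P l) ((cK ℂ F * X * cK ℂ E) *ᵥ ml (Q l) v) := by
    intro v
    conv_lhs => rw [hv v]
    rw [Matrix.mulVec_sum]
    refine Finset.sum_congr rfl fun l _ => ?_
    rw [ml_apply (P l), ml_apply (P l), mulVec_mulVec, hcX l, mulVec_mulVec]
  intro v
  have h4 : ∀ k, φ (Function.update v k (ph (Fin G ⊕ Fin G) X (v k))) =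
      ∑ J : κ → Fin n, H253.pbk (fun k => P (J k)) φ
        (Function.update (fun i => ml (Q (J i)) (v i)) k
          (ph (Fin a ⊕ Fin a) (cK ℂ F * X * cK ℂ E) (ml (Q (J k)) (v k)))) := by
    intro k
    have h5 : Function.update v k (ph (Fin G ⊕ Fin G) X (v k)) = fun i => ∑ l, ml (P l)
        (if i = k then (cK ℂ F * X * cK ℂ E) *ᵥ (ml (Q l) (v i)) else ml (Q l) (v i)) := by
      funext i
      by_cases hi : i = k
      · subst hi
        rw [Function.update_self]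
        simp only [if_true]
        exact hXv (v i)
      · rw [Function.update_of_ne hi]
        simp only [if_neg hi]
        exact hv (v i)
    rw [h5, MultilinearMap.map_sum]
    refine Finset.sum_congr rfl fun J _ => ?_
    rw [H253.pbk_apply]
    congr 1
    funext i
    by_cases hi : i = k
    · subst hi
      rw [Function.update_self, if_pos rfl]
      rfl
    · rw [Function.update_of_ne hi, if_neg hi]
  rw [Finset.sum_congr rfl fun k _ => h4 k, Finset.sum_comm]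
  exact Finset.sum_eq_zero fun J _ => hJ J (fun i => ml (Q (J i)) (v i))

end

end Pool.Agent.H926.T
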