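import Pool.Agent.H926.T.Jobs6

/-! S_RKF (helper870 for helper926): transport of elements of rank one from a factor. -/

set_option linter.unusedSectionVars false

namespace Pool.Agent.H926.T

open Matrix Module Pool.Agent.W437.HC Pool.Agent.W437.HD Pool.Agent.W548.Odd Pool.Agent.W522.U
open Pool.Agent.H204R3.SP Pool.Agent.H204R3.GP Pool.Agent.Y90 Pool.Agent.Y224.TS
open Pool.Agent.N183.TS
open Pool.Agent.W437.HP (cK cK_mul cK_one)

noncomputable section

theorem s_rkf : S_RKF := by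
  intro G a Z Z' E F S h hf hZ U hU h0 D hD h'
  obtain ⟨ε, hε, N', hN', h1, h2, h3⟩ := h'
  change (ε • (cK ℂ F * D * cK ℂ E)) * N' = N' at h1
  change N' * (ε • (cK ℂ F * D * cK ℂ E)) = -N' at h2
  have hinj := hf.inj hU h0
  have hεε : ε * ε = 1 := by rcases hε with rfl | rfl <;> norm_num
  have hbr : ∀ X ∈ Y224.TS.LT S, ∀ Y ∈ Y224.TS.LT S, X * Y - Y * X ∈ Y224.TS.LT S :=
    fun X hX Y hY => LT_br hX hY
  have hDm : ε • D ∈ Y224.TS.LT S := Submodule.smul_mem _ _ (LT_gen hD)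
  have hD2 : (ε • D) * (ε • D) = 1 := by
    rw [smul_mul_smul_comm, hεε, h.sq D hD, one_smul]
  obtain ⟨y, hy, rfl⟩ := liftT hf h hN'
  have hm := gup_mem hbr hDm hD2 hy
  have hF : cK ℂ F * ((1 / 4 : ℂ) • ((1 + ε • D) * y * (1 - ε • D))) * cK ℂ E =
      cK ℂ F * y * cK ℂ E := by
    have e1 : cK ℂ F * (1 + ε • D) = (1 + ε • (cK ℂ F * D * cK ℂ E)) * cK ℂ F := by
      rw [Matrix.mul_add, Matrix.add_mul, Matrix.mul_one, Matrix.one_mul, Matrix.mul_smul,
        Matrix.smul_mul, ← fx hf h (LT_gen hD)]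
    have e2 : (1 - ε • D) * cK ℂ E = cK ℂ E * (1 - ε • (cK ℂ F * D * cK ℂ E)) := by
      rw [Matrix.mul_sub, Matrix.sub_mul, Matrix.mul_one, Matrix.one_mul, Matrix.mul_smul,
        Matrix.smul_mul, ← xe hf h (LT_gen hD)]
    have e3 : cK ℂ F * ((1 + ε • D) * y * (1 - ε • D)) * cK ℂ E =
        (1 + ε • (cK ℂ F * D * cK ℂ E)) * (cK ℂ F * y * cK ℂ E) *
          (1 - ε • (cK ℂ F * D * cK ℂ E)) := by
      calc cK ℂ F * ((1 + ε • D) * y * (1 - ε • D)) * cK ℂ E =
          (cK ℂ F * (1 + ε • D)) * y * ((1 - ε • D) * cK ℂ E) := by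
            simp only [Matrix.mul_assoc]
        _ = _ := by
            rw [e1, e2]
            simp only [Matrix.mul_assoc]
    rw [Matrix.mul_smul, Matrix.smul_mul, e3, Matrix.add_mul, Matrix.one_mul, h1, Matrix.mul_sub,
      Matrix.mul_one, Matrix.add_mul, h2]
    module
  refine ⟨ε, hε, _, hm, gup_l hD2 y, gup_r hD2 y, ?_⟩
  rw [← h3, ← hF]
  set N := (1 / 4 : ℂ) • ((1 + ε • D) * y * (1 - ε • D)) with hN
  have hU' : IrS (Y224.TS.LT S) U := (h.irS hZ).2 hU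
  have e4 : (U.map (ml F)).map (mulVecLin (cK ℂ F * N * cK ℂ E)) =
      (U.map (mulVecLin N)).map (ml F) := by
    rw [← Submodule.map_comp, ← Submodule.map_comp]
    congr 1
    refine LinearMap.ext fun u => ?_
    exact (actT hf h hm u).symm
  rw [e4]
  refine (finrank_ml (F := F) (U := U.map (mulVecLin N)) ?_).symm
  rintro _ ⟨u, hu, rfl⟩ h5
  exact hinj _ (hU'.2.1 N hm u hu) h5

end

end Pool.Agent.H926.T
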