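import Mathlib
import Pool.Agent.H926.T.Jobs6

/-!
# S_SO: definite quaternion algebras, the second Lie algebra contains the first
-/

set_option linter.unusedSectionVars false

namespace Pool.Agent.H926.T

open Matrix Module Pool.Agent.Y90 Pool.Agent.W437.HC Pool.Agent.W437.HD
  Pool.Agent.TH504.CB
open Pool.Agent.W548.Odd hiding cv
open Pool.Agent.W437.HP (cK cK_mul cK_one)
open Pool.Agent.Y224.TS (TD)
open Pool.Agent.Y4.P (WeilRing MaxM EigM)
open Pool.Agent.Y91.JP (Scal)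

noncomputable section

/-- **S_SO.** -/
theorem s_so (hST : S_ST) : S_SO := by
  intro g Z b j d e t z hz h hs hg S hS
  have hg0 : 0 < g := by omega
  obtain ⟨hle, hsc, hset⟩ := hST g Z b j d e t z hz h hs hg0 S hS
  have hfr := (t.irr hz h hs hg0).2
  have hsetZ := t.set hz h hs hg0
  have hsyf := t.syf hz h hs hg0
  obtain ⟨D, hD, -⟩ := hS.ex (RingEquiv.refl ℂ)
  have hDG : t.R hz D ∈ (Y224.TS.LT S).map (t.R hz) :=
    Submodule.mem_map_of_mem (Y224.TS.LT_gen hD)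
  have hDA := hle (Y224.TS.LT_gen hD)
  have hD2 : t.R hz D * t.R hz D = 1 := by
    rw [← (t.rep hz).mul _ _ hDA, hS.sq D hD, (t.rep hz).one]
  have hwd : ∀ x y : EigM b z, wd (t.S hz) x y ∈ (Y224.TS.LT S).map (t.R hz) := by
    intro x y
    rcases hg with h4 | h6
    · exact wl4 hset hsc hsyf (by rw [hfr, h4]) hDG hD2 x y
    · exact wl6 hset hsc hsyf (by rw [hfr, h6]) hDG hD2 x y
  refine ⟨hwd, fun X hX => ?_⟩
  have hsk := hsyf.skw hsetZ (mem_mapR (R := t.R hz) hX)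
  obtain ⟨Y, hY, hYR⟩ := T3lL.skew_mem hsyf.sym hsyf.nd hwd hsk
  have h0 : t.R hz (X - Y) = 0 := by rw [map_sub, hYR, sub_self]
  have h1 := (t.rep hz).inj (X - Y) ((cA b j).sub_mem ((t.rep hz).le X hX) (hle hY)) h0
  rw [sub_eq_zero.1 h1]
  exact hY

end

end Pool.Agent.H926.T
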