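import Mathlib
import Pool.Agent.H926.T.Jobs6
import Pool.Agent.H926.Good
import Pool.Graph.R_pool_sql_team_seeded_63374d34.N183.TS.Fac
import Pool.Graph.R_pool_sql_team_seeded_63374d34.N183.TS.Cls

/-!
# S_SP4: type III, dimension four, splitting
-/

set_option linter.unusedSectionVars false

namespace Pool.Agent.H926.T

open Matrix Module Pool.Agent.Y90 Pool.Agent.W437.HC Pool.Agent.W437.HD
  Pool.Agent.TH504.CB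
open Pool.Agent.W548.Odd hiding cv
open Pool.Agent.W437.HP (cK cK_mul cK_one)
open Pool.Agent.Y224.TS (TD LT_gen LT_br LT_le)
open Pool.Agent.N183.TS (SF Rk1D tdF compT liftT mulT xe fx cls_small)
open Pool.Agent.Y4.Q (T3M)
open Pool.Agent.Y91.JP (Scal cen cen_idl invol_dich idl_of_pos idl_of_neg Kp)
open Pool.Agent.Y4.P (MaxM EigM)

noncomputable section

namespace H548Sp4

/-- The compression as a linear map. -/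
def cL {m n : Type} [Fintype m] (E : Matrix m n ℚ) (F : Matrix n m ℚ) :
    Matrix m m ℂ →ₗ[ℂ] Matrix n n ℂ where
  toFun X := cK ℂ F * X * cK ℂ E
  map_add' X Y := by rw [Matrix.mul_add, Matrix.add_mul]
  map_smul' c X := by rw [Matrix.mul_smul, Matrix.smul_mul, RingHom.id_apply]

theorem cL_apply {m n : Type} [Fintype m] (E : Matrix m n ℚ) (F : Matrix n m ℚ)
    (X : Matrix m m ℂ) : cL E F X = cK ℂ F * X * cK ℂ E := rfl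

section gen

variable {a : ℕ} {S₁ : Set (Matrix (Fin a ⊕ Fin a) (Fin a ⊕ Fin a) ℂ)}
  {A : Subalgebra ℂ (Matrix (Fin a ⊕ Fin a) (Fin a ⊕ Fin a) ℂ)}
  {W : Type} [AddCommGroup W] [Module ℂ W]
  {R : Matrix (Fin a ⊕ Fin a) (Fin a ⊕ Fin a) ℂ →ₗ[ℂ] End ℂ W}
  (hle : Y224.TS.LT S₁ ≤ A.toSubmodule) (hmul : ∀ X Y, Y ∈ A → R (X * Y) = R X * R Y)

include hle hmul

theorem map_br {X Y : Matrix (Fin a ⊕ Fin a) (Fin a ⊕ Fin a) ℂ} (hX : X ∈ Y224.TS.LT S₁)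
    (hY : Y ∈ Y224.TS.LT S₁) : R (X * Y - Y * X) = R X * R Y - R Y * R X := by
  rw [map_sub, hmul _ _ (hle hY), hmul _ _ (hle hX)]

/-- An involution which commutes with a proper ideal. -/
theorem exists_cen [FiniteDimensional ℂ W] (hone : R 1 = 1) (hsq : ∀ D ∈ S₁, D * D = 1)
    {st : End ℂ W →ₗ[ℂ] End ℂ W} (hst : Setup ((Y224.TS.LT S₁).map R) st)
    (hs : Scal ((Y224.TS.LT S₁).map R)) {I : Submodule ℂ (End ℂ W)}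
    (hI : IsIdl ((Y224.TS.LT S₁).map R) I) (hn : ¬ (Y224.TS.LT S₁).map R ≤ I) :
    ∃ D ∈ S₁, R D ∈ cen ((Y224.TS.LT S₁).map R) I := by
  by_contra hcon
  push Not at hcon
  apply hn
  have h1 : Y224.TS.LT S₁ ≤ Y224.TS.LT S₁ ⊓ I.comap R := by
    refine LT_le (fun D hD => ⟨LT_gen hD, ?_⟩) ?_
    · refine (invol_dich hst hs hI ⟨D, LT_gen hD, rfl⟩ ?_).resolve_right (hcon D hD)
      rw [← hmul _ _ (hle (LT_gen hD)), hsq D hD, hone]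
    · rintro X ⟨hX, hX'⟩ Y ⟨hY, hY'⟩
      refine ⟨LT_br hX hY, ?_⟩
      change R (X * Y - Y * X) ∈ I
      rw [map_br hle hmul hX hY]
      exact hI.br (R X) ⟨X, hX, rfl⟩ (R Y) hY'
  rintro _ ⟨X, hX, rfl⟩
  exact (h1 hX).2

/-- The image of the Lie algebra is perfect. -/
theorem perf (hN : ∀ D ∈ S₁, ∃ N ∈ (Y224.TS.LT S₁).map R, ∃ M ∈ (Y224.TS.LT S₁).map R,
      N * M - M * N = R D) :
    ∀ x ∈ (Y224.TS.LT S₁).map R, x ∈ Submodule.span ℂ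
      {z | ∃ a ∈ (Y224.TS.LT S₁).map R, ∃ b ∈ (Y224.TS.LT S₁).map R, z = a * b - b * a} := by
  obtain ⟨P, hP⟩ : ∃ P : Submodule ℂ (End ℂ W), P = Submodule.span ℂ
      {z | ∃ a ∈ (Y224.TS.LT S₁).map R, ∃ b ∈ (Y224.TS.LT S₁).map R, z = a * b - b * a} :=
    ⟨_, rfl⟩
  rw [← hP]
  have h1 : Y224.TS.LT S₁ ≤ Y224.TS.LT S₁ ⊓ P.comap R := by
    refine LT_le (fun D hD => ⟨LT_gen hD, ?_⟩) ?_
    · obtain ⟨N, hN, M, hM, h2⟩ := hN D hD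
      change R D ∈ P
      rw [hP, ← h2]
      exact Submodule.subset_span ⟨N, hN, M, hM, rfl⟩
    · rintro X ⟨hX, -⟩ Y ⟨hY, -⟩
      refine ⟨LT_br hX hY, ?_⟩
      change R (X * Y - Y * X) ∈ P
      rw [map_br hle hmul hX hY, hP]
      exact Submodule.subset_span ⟨R X, ⟨X, hX, rfl⟩, R Y, ⟨Y, hY, rfl⟩, rfl⟩
  rintro _ ⟨X, hX, rfl⟩
  exact (h1 hX).2

end gen

section rk

variable {G a₂ : ℕ} {Z : Matrix (Fin G) (Fin G) ℂ} {Z₂ : Matrix (Fin a₂) (Fin a₂) ℂ}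
  {E₂ : Matrix (Fin G ⊕ Fin G) (Fin a₂ ⊕ Fin a₂) ℚ}
  {F₂ : Matrix (Fin a₂ ⊕ Fin a₂) (Fin G ⊕ Fin G) ℚ}
  {S : Set (Matrix (Fin G ⊕ Fin G) (Fin G ⊕ Fin G) ℂ)}

/-- Elements of rank one on the irreducible submodules of a small factor. -/
theorem rk1D_small (hRKF : S_RKF) (h : PM Z) (h₂ : PM Z₂) (hf : Fac Z Z₂ E₂ F₂) (ha : a₂ ≤ 3)
    (hS : TD Z S) {D : Matrix (Fin G ⊕ Fin G) (Fin G ⊕ Fin G) ℂ} (hD : D ∈ S)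
    {U : Submodule ℂ (Fin G ⊕ Fin G → ℂ)} (hU : IrS (LZ Z) U) (h0 : ∃ u ∈ U, ml F₂ u ≠ 0)
    (hn : 2 ≤ finrank ℂ U) : Rk1D S D U := by
  have hU₂ := hf.irr hU h0
  have hS₂ : TD Z₂ (SF E₂ F₂ S) := tdF hf hS h h₂
  obtain ⟨a', Z', E', F', hf', h', hs', -, h0'⟩ := exists_fac h₂ hU₂.1
  have hle := fac_le hf'
  have hU' := hf'.irr hU₂ h0'
  have hS' : TD Z' (SF E' F' (SF E₂ F₂ S)) := tdF hf' hS₂ h₂ h'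
  have hD₂ : cK ℂ F₂ * D * cK ℂ E₂ ∈ SF E₂ F₂ S := ⟨D, hD, rfl⟩
  have hD' : cK ℂ F' * (cK ℂ F₂ * D * cK ℂ E₂) * cK ℂ E' ∈ SF E' F' (SF E₂ F₂ S) :=
    ⟨_, hD₂, rfl⟩
  have hn' : 2 ≤ finrank ℂ ((U.map (ml F₂)).map (ml F')) := by
    rw [finrank_ml (hf'.inj hU₂ h0'), finrank_ml (hf.inj hU h0)]
    exact hn
  have h1 := (cls_small hS' h' hD' hU' hs' (by omega) hn').1
  have h2 := hRKF a₂ a' Z₂ Z' E' F' (SF E₂ F₂ S) hS₂ hf' h₂ _ hU₂ h0' _ hD₂ h1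
  exact hRKF G a₂ Z Z₂ E₂ F₂ S hS hf h U hU h0 D hD h2

theorem stab_range (hf : Fac Z Z₂ E₂ F₂) (hS : TD Z S) :
    Stab (Y224.TS.LT S) (LinearMap.range (ml E₂)) := by
  rintro X hX _ ⟨w, rfl⟩
  refine ⟨(cK ℂ F₂ * X * cK ℂ E₂) *ᵥ w, ?_⟩
  rw [ml_apply, ml_apply, mulVec_mulVec, mulVec_mulVec, ← xe hf hS hX]

theorem ne_of_range (hf : Fac Z Z₂ E₂ F₂) {U : Submodule ℂ (Fin G ⊕ Fin G → ℂ)}
    (hU : U ≠ ⊥) (hle : U ≤ LinearMap.range (ml E₂)) : ∃ u ∈ U, ml F₂ u ≠ 0 := by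
  obtain ⟨u, hu, hu0⟩ := Submodule.exists_mem_ne_zero_of_ne_bot hU
  refine ⟨u, hu, fun h1 => hu0 ?_⟩
  obtain ⟨w, rfl⟩ := hle hu
  rw [ml_apply, ml_apply, mulVec_mulVec, hf.fe', one_mulVec] at h1
  rw [h1, map_zero]

/-- The commutators on the irreducible submodules of a small factor. -/
theorem comm_small (hNU : S_NU) (hRKF : S_RKF) (h : PM Z) (h₂ : PM Z₂) (hf : Fac Z Z₂ E₂ F₂)
    (ha : a₂ ≤ 3) (hS : TD Z S) {𝔨 : Submodule ℂ (Matrix (Fin G ⊕ Fin G) (Fin G ⊕ Fin G) ℂ)}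
    (hk : 𝔨 ≤ Y224.TS.LT S) (hki : ∀ X ∈ Y224.TS.LT S, ∀ Y ∈ 𝔨, X * Y - Y * X ∈ 𝔨)
    {D : Matrix (Fin G ⊕ Fin G) (Fin G ⊕ Fin G) ℂ} (hD : D ∈ S) (hDk : D ∈ 𝔨)
    {U : Submodule ℂ (Fin G ⊕ Fin G → ℂ)} (hle : U ≤ LinearMap.range (ml E₂))
    (hU : IrS (Y224.TS.LT S) U) : ∀ X ∈ Y224.TS.LT S, ∀ Y ∈ Y224.TS.LT S,
      ∃ k ∈ 𝔨, ∀ u ∈ U, (X * Y - Y * X) *ᵥ u = k *ᵥ u := by
  refine hNU G Z S hS h 𝔨 hk hki D hD hDk U hU ?_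
  by_cases h1 : finrank ℂ U = 1
  · exact Or.inl h1
  · right
    have h2 : finrank ℂ U ≠ 0 := fun h3 => hU.1 (Submodule.finrank_eq_zero.1 h3)
    exact rk1D_small hRKF h h₂ hf ha hS hD ((hS.irS h).1 hU) (ne_of_range hf hU.1 hle) (by omega)

end rk

section core

variable {G a₂ : ℕ} {Z : Matrix (Fin G) (Fin G) ℂ} {Z₁ : Matrix (Fin 4) (Fin 4) ℂ}
  {Z₂ : Matrix (Fin a₂) (Fin a₂) ℂ} {E₁ : Matrix (Fin G ⊕ Fin G) (Fin 4 ⊕ Fin 4) ℚ}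
  {F₁ : Matrix (Fin 4 ⊕ Fin 4) (Fin G ⊕ Fin G) ℚ}
  {E₂ : Matrix (Fin G ⊕ Fin G) (Fin a₂ ⊕ Fin a₂) ℚ}
  {F₂ : Matrix (Fin a₂ ⊕ Fin a₂) (Fin G ⊕ Fin G) ℚ}
  {S : Set (Matrix (Fin G ⊕ Fin G) (Fin G ⊕ Fin G) ℂ)}
  {A : Subalgebra ℂ (Matrix (Fin 4 ⊕ Fin 4) (Fin 4 ⊕ Fin 4) ℂ)}
  {W : Type} [AddCommGroup W] [Module ℂ W] [FiniteDimensional ℂ W]
  {R : Matrix (Fin 4 ⊕ Fin 4) (Fin 4 ⊕ Fin 4) ℂ →ₗ[ℂ] End ℂ W}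

/-- The core of the proof. -/
theorem core (hNU : S_NU) (hIND : S_IND) (hRKF : S_RKF) (h : PM Z) (h₁ : PM Z₁) (h₂ : PM Z₂)
    (d : Dec Z Z₁ Z₂ E₁ F₁ E₂ F₂) (ha : a₂ ≤ 3) (hS : TD Z S)
    (hle : Y224.TS.LT (SF E₁ F₁ S) ≤ A.toSubmodule)
    (hmul : ∀ X Y, Y ∈ A → R (X * Y) = R X * R Y) (hinj : ∀ X ∈ A, R X = 0 → X = 0)
    (hone : R 1 = 1) {st : End ℂ W →ₗ[ℂ] End ℂ W}
    (hst : Setup ((Y224.TS.LT (SF E₁ F₁ S)).map R) st)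
    (hsc : Scal ((Y224.TS.LT (SF E₁ F₁ S)).map R))
    (htr : ∀ D ∈ SF E₁ F₁ S, ∃ N ∈ (Y224.TS.LT (SF E₁ F₁ S)).map R,
      ∃ M ∈ (Y224.TS.LT (SF E₁ F₁ S)).map R, Trp (R D) N M)
    (hgn : ∀ D ∈ SF E₁ F₁ S, ¬ (Y224.TS.LT (SF E₁ F₁ S)).map R ≤
      gn ((Y224.TS.LT (SF E₁ F₁ S)).map R) (R D))
    {D : Matrix (Fin G ⊕ Fin G) (Fin G ⊕ Fin G) ℂ} (hD : D ∈ S) :
    cK ℂ E₁ * (cK ℂ F₁ * D * cK ℂ E₁) * cK ℂ F₁ ∈ Y224.TS.LT S := by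
  have hS₁ : TD Z₁ (SF E₁ F₁ S) := tdF d.f₁ hS h h₁
  obtain ⟨𝔬, h𝔬⟩ : ∃ 𝔬 : Submodule ℂ (End ℂ W), 𝔬 = (Y224.TS.LT (SF E₁ F₁ S)).map R := ⟨_, rfl⟩
  obtain ⟨R₁, hR₁⟩ : ∃ R₁ : Matrix (Fin G ⊕ Fin G) (Fin G ⊕ Fin G) ℂ →ₗ[ℂ] End ℂ W,
      R₁ = R ∘ₗ cL E₁ F₁ := ⟨_, rfl⟩
  have hR₁a : ∀ X, R₁ X = R (cK ℂ F₁ * X * cK ℂ E₁) := fun X => by rw [hR₁]; rfl
  have hmem : ∀ X ∈ Y224.TS.LT S, R₁ X ∈ 𝔬 := by
    intro X hX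
    rw [hR₁a, h𝔬]
    exact ⟨_, compT d.f₁ hS hX, rfl⟩
  have hlift : ∀ y ∈ 𝔬, ∃ X ∈ Y224.TS.LT S, R₁ X = y := by
    intro y hy
    rw [h𝔬] at hy
    obtain ⟨Y, hY, rfl⟩ := hy
    obtain ⟨X, hX, rfl⟩ := liftT d.f₁ hS hY
    exact ⟨X, hX, hR₁a X⟩
  have hmap : (Y224.TS.LT S).map R₁ = 𝔬 := by
    apply le_antisymm
    · rintro _ ⟨X, hX, rfl⟩
      exact hmem X hX
    · intro y hy
      obtain ⟨X, hX, rfl⟩ := hlift y hy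
      exact ⟨X, hX, rfl⟩
  have hR₁m : ∀ X, ∀ Y ∈ Y224.TS.LT S, R₁ (X * Y) = R₁ X * R₁ Y := by
    intro X Y hY
    rw [hR₁a, hR₁a, hR₁a, mulT d.f₁ hS hY, hmul _ _ (hle (compT d.f₁ hS hY))]
  have hR₁b : ∀ X ∈ Y224.TS.LT S, ∀ Y ∈ Y224.TS.LT S,
      R₁ (X * Y - Y * X) = R₁ X * R₁ Y - R₁ Y * R₁ X := by
    intro X hX Y hY
    rw [map_sub, hR₁m X Y hY, hR₁m Y X hX]
  have hp := perf hle hmul (fun D hD => by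
    obtain ⟨N, hN, M, hM, t⟩ := htr D hD
    exact ⟨N, hN, M, hM, t.sub⟩)
  have hD₁ : cK ℂ F₁ * D * cK ℂ E₁ ∈ SF E₁ F₁ S := ⟨D, hD, rfl⟩
  have hD𝔬 : R₁ D ∈ 𝔬 := hmem D (LT_gen hD)
  obtain ⟨N, hN, M, hM, t⟩ := htr _ hD₁
  have hgn1 := hgn _ hD₁
  rw [← hR₁a] at t hgn1
  rw [← h𝔬] at hst hsc hN hM hgn1 hp
  have hI := gn_idl hst hD𝔬
  -- the second involution
  obtain ⟨_, ⟨D', hD', rfl⟩, hc⟩ : ∃ D' ∈ SF E₁ F₁ S, R D' ∈ cen 𝔬 (gn 𝔬 (R₁ D)) := by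
    have h1 := hst
    have h2 := hsc
    have h3 := hI
    have h4 := hgn1
    rw [h𝔬] at h1 h2 h3 h4 ⊢
    exact exists_cen hle hmul hone hS₁.sq h1 h2 h3 h4
  have hc' : R₁ D' ∈ cen 𝔬 (gn 𝔬 (R₁ D)) := by
    rw [hR₁a D']
    exact hc
  have hC := cen_idl hst hI
  have hI' := gn_idl hst (hmem D' (LT_gen hD'))
  have hI'C : gn 𝔬 (R₁ D') ≤ cen 𝔬 (gn 𝔬 (R₁ D)) := gn_le hC hc'
  -- the ideal of the Lie algebra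
  obtain ⟨𝔨, h𝔨⟩ : ∃ 𝔨 : Submodule ℂ (Matrix (Fin G ⊕ Fin G) (Fin G ⊕ Fin G) ℂ),
      𝔨 = Y224.TS.LT S ⊓ (gn 𝔬 (R₁ D')).comap R₁ := ⟨_, rfl⟩
  have hk : 𝔨 ≤ Y224.TS.LT S := by
    rw [h𝔨]
    exact inf_le_left
  have hkm : ∀ k ∈ 𝔨, R₁ k ∈ gn 𝔬 (R₁ D') := by
    intro k hk
    rw [h𝔨] at hk
    exact hk.2
  have hki : ∀ X ∈ Y224.TS.LT S, ∀ Y ∈ 𝔨, X * Y - Y * X ∈ 𝔨 := by
    intro X hX Y hY
    have h1 := hkm Y hY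
    have h2 := hk hY
    rw [h𝔨]
    refine ⟨LT_br hX h2, ?_⟩
    change R₁ (X * Y - Y * X) ∈ gn 𝔬 (R₁ D')
    rw [hR₁b X hX Y h2]
    exact hI'.br _ (hmem X hX) _ h1
  have hDk : D' ∈ 𝔨 := by
    rw [h𝔨]
    exact ⟨LT_gen hD', mem_gn⟩
  -- the induction
  obtain ⟨k, hkk, n, hn, hnV, hDkn⟩ := hIND G Z S hS h 𝔨 hk hki (LinearMap.range (ml E₂))
    (stab_range d.f₂ hS) (fun U hUV hU => comm_small hNU hRKF h h₂ d.f₂ ha hS hk hki hD' hDk hUV hU)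
    W R₁ hR₁b (by rw [hmap]; exact hp) D (LT_gen hD)
  -- the ideal `J`
  obtain ⟨J, hJ⟩ : ∃ J : Submodule ℂ (End ℂ W), ∀ y, y ∈ J ↔ ∃ X ∈ Y224.TS.LT S,
      (∀ v ∈ LinearMap.range (ml E₂), X *ᵥ v = 0) ∧ R₁ X = y := by
    refine ⟨{ carrier := {y | ∃ X ∈ Y224.TS.LT S,
                (∀ v ∈ LinearMap.range (ml E₂), X *ᵥ v = 0) ∧ R₁ X = y}
              add_mem' := ?_
              zero_mem' := ?_
              smul_mem' := ?_ }, fun y => Iff.rfl⟩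
    · rintro _ _ ⟨X, h1, h2, rfl⟩ ⟨Y, h3, h4, rfl⟩
      refine ⟨X + Y, Submodule.add_mem _ h1 h3, fun v hv => ?_, map_add _ _ _⟩
      rw [add_mulVec, h2 v hv, h4 v hv, add_zero]
    · exact ⟨0, Submodule.zero_mem _, fun v _ => zero_mulVec _, map_zero _⟩
    · rintro c _ ⟨X, h1, h2, rfl⟩
      refine ⟨c • X, Submodule.smul_mem _ _ h1, fun v hv => ?_, map_smul _ _ _⟩
      rw [smul_mulVec, h2 v hv, smul_zero]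
  have hJI : IsIdl 𝔬 J := by
    refine ⟨fun y hy => ?_, fun y hy z hz => ?_⟩
    · obtain ⟨X, h1, -, rfl⟩ := (hJ y).1 hy
      exact hmem X h1
    · obtain ⟨Y, hY, rfl⟩ := hlift y hy
      obtain ⟨X, h1, h2, rfl⟩ := (hJ z).1 hz
      rw [hJ]
      refine ⟨Y * X - X * Y, LT_br hY h1, fun v hv => ?_, hR₁b Y hY X h1⟩
      rw [sub_mulVec, ← mulVec_mulVec, ← mulVec_mulVec, h2 v hv, mulVec_zero,
        h2 _ (stab_range d.f₂ hS Y hY v hv), sub_zero]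
  have hnJ : R₁ n ∈ J := (hJ _).2 ⟨n, hn, hnV, rfl⟩
  have hNI : N ∈ gn 𝔬 (R₁ D) := idl_of_pos hI mem_gn hN t.dn t.nd
  have hNJ : N ∈ J := by
    have h1 : R₁ k * N = N * R₁ k := (hI'C (hkm k hkk)).2 N hNI
    have h2 : R₁ D * N - N * R₁ D = R₁ n * N - N * R₁ n := by
      rw [hDkn, add_mul, mul_add, h1]
      abel
    have h3 : R₁ n * N - N * R₁ n ∈ J := hJI.br' hnJ hN
    rw [← h2, t.dn, t.nd, sub_neg_eq_add, ← two_smul ℂ] at h3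
    exact (Submodule.smul_mem_iff _ (two_ne_zero (α := ℂ))).1 h3
  have hDJ : R₁ D ∈ J := by
    rw [← t.sub]
    exact hJI.br' hNJ hM
  obtain ⟨m, hm, hmV, hmD⟩ := (hJ _).1 hDJ
  -- injectivity
  have hmD₁ : cK ℂ F₁ * m * cK ℂ E₁ = cK ℂ F₁ * D * cK ℂ E₁ := by
    rw [← sub_eq_zero]
    refine hinj _ (A.sub_mem (hle (compT d.f₁ hS hm)) (hle (LT_gen hD₁))) ?_
    rw [map_sub, ← hR₁a, ← hR₁a, hmD, sub_self]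
  have hmE : m * cK ℂ E₂ = 0 := by
    refine Matrix.ext_of_mulVec_single fun i => ?_
    rw [← mulVec_mulVec, zero_mulVec]
    exact hmV _ ⟨_, rfl⟩
  have hm2 : m = cK ℂ E₁ * (cK ℂ F₁ * D * cK ℂ E₁) * cK ℂ F₁ := by
    calc m = m * (cK ℂ E₁ * cK ℂ F₁ + cK ℂ E₂ * cK ℂ F₂) := by rw [d.csum, Matrix.mul_one]
      _ = m * cK ℂ E₁ * cK ℂ F₁ + m * cK ℂ E₂ * cK ℂ F₂ := by
          rw [Matrix.mul_add, Matrix.mul_assoc, Matrix.mul_assoc]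
      _ = m * cK ℂ E₁ * cK ℂ F₁ := by rw [hmE, Matrix.zero_mul, add_zero]
      _ = cK ℂ E₁ * (cK ℂ F₁ * D * cK ℂ E₁) * cK ℂ F₁ := by
          rw [xe d.f₁ hS hm, hmD₁]
  rw [← hm2]
  exact hm

end core

end H548Sp4

open H548Sp4 in
theorem s_sp4 (hST : S_ST) (hNU : S_NU) (hIND : S_IND) (hRKF : S_RKF) : S_SP4 := by
  intro G a₂ Z Z₁ Z₂ E₁ F₁ E₂ F₂ h h₁ h₂ d ha hs hT S hS
  obtain ⟨b, j, p, q, t⟩ := exists_t3d h₁ hs hT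
  obtain ⟨z, hz⟩ : ∃ z : ℂ, z * z = (p : ℂ) := by
    obtain ⟨z, hz⟩ := IsAlgClosed.exists_eq_mul_self (p : ℂ)
    exact ⟨z, hz.symm⟩
  have hS₁ : TD Z₁ (SF E₁ F₁ S) := tdF d.f₁ hS h h₁
  have hg0 : 0 < 4 := by norm_num
  obtain ⟨hle, hsc, hset⟩ := hST 4 Z₁ b j p q t z hz h₁ hs hg0 _ hS₁
  have hsyf := t.syf hz h₁ hs hg0
  have hW : finrank ℂ (EigM b z) = 4 := (t.irr hz h₁ hs hg0).2
  have hrep := t.rep hz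
  have hsq : ∀ D ∈ SF E₁ F₁ S, t.R hz D * t.R hz D = 1 := by
    intro D hD
    rw [← hrep.mul _ _ (hle (LT_gen hD)), hS₁.sq D hD, hrep.one]
  have hmem : ∀ D ∈ SF E₁ F₁ S, t.R hz D ∈ (Y224.TS.LT (SF E₁ F₁ S)).map (t.R hz) :=
    fun D hD => ⟨D, LT_gen hD, rfl⟩
  have key : ∀ D ∈ S, cK ℂ E₁ * (cK ℂ F₁ * D * cK ℂ E₁) * cK ℂ F₁ ∈ Y224.TS.LT S := by
    intro D hD
    refine core hNU hIND hRKF h h₁ h₂ d ha hS hle hrep.mul hrep.inj hrep.one hset hsc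
      (fun D hD => ?_) (fun D hD => wl4_gn hset hsc hsyf hW (hmem D hD) (hsq D hD)) hD
    obtain ⟨N, hN, M, hM, tr, -, -⟩ := wl4_trp hset hsc hsyf hW (hmem D hD) (hsq D hD)
    exact ⟨N, hN, M, hM, tr⟩
  have hL : Y224.TS.LT (SF E₁ F₁ S) ≤ (Y224.TS.LT S).comap (cL F₁ E₁) := by
    refine LT_le ?_ ?_
    · rintro _ ⟨D, hD, rfl⟩
      exact key D hD
    · intro X hX Y hY
      have hX' : cK ℂ E₁ * X * cK ℂ F₁ ∈ Y224.TS.LT S := hX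
      have hY' : cK ℂ E₁ * Y * cK ℂ F₁ ∈ Y224.TS.LT S := hY
      change cK ℂ E₁ * (X * Y - Y * X) * cK ℂ F₁ ∈ Y224.TS.LT S
      have h1 : ∀ X Y : Matrix (Fin 4 ⊕ Fin 4) (Fin 4 ⊕ Fin 4) ℂ,
          (cK ℂ E₁ * X * cK ℂ F₁) * (cK ℂ E₁ * Y * cK ℂ F₁) = cK ℂ E₁ * (X * Y) * cK ℂ F₁ := by
        intro X Y
        calc (cK ℂ E₁ * X * cK ℂ F₁) * (cK ℂ E₁ * Y * cK ℂ F₁) =
            cK ℂ E₁ * X * (cK ℂ F₁ * cK ℂ E₁) * Y * cK ℂ F₁ := by simp only [Matrix.mul_assoc]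
          _ = _ := by
              rw [d.f₁.fe', Matrix.mul_one]
              simp only [Matrix.mul_assoc]
      rw [Matrix.mul_sub, Matrix.sub_mul, ← h1, ← h1]
      exact LT_br hX' hY'
  exact fun X hX => hL hX

end

end Pool.Agent.H926.T
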