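import Mathlib
import Pool.Agent.H926.T.Jobs6

/-!
# Type III, dimension six: splitting of the second Lie algebra (helper685)
-/

set_option linter.unusedSectionVars false

namespace Pool.Agent.H926.T

open Matrix Module Pool.Agent.Y90 Pool.Agent.W437.HC Pool.Agent.W437.HD
  Pool.Agent.TH504.CB
open Pool.Agent.W548.Odd hiding cv
open Pool.Agent.W437.HP (cK cK_mul cK_one)
open Pool.Agent.Y224.TS (TD LT_gen LT_le LT_br gup_mem)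
open Pool.Agent.N183.TS (SF Rk1D tdF compT liftT mulT xe fx ef_commT)
open Pool.Agent.Y4.Q (T3M)
open Pool.Agent.Y91.JP (Scal cen cen_idl invol_dich central_zero idl_of_pos idl_of_neg Kp)
open Pool.Agent.Y4.P (MaxM EigM)

noncomputable section

namespace H685

variable {G a₁ a₂ : ℕ} {Z : Matrix (Fin G) (Fin G) ℂ} {Z₁ : Matrix (Fin a₁) (Fin a₁) ℂ}
  {Z₂ : Matrix (Fin a₂) (Fin a₂) ℂ} {E₁ : Matrix (Fin G ⊕ Fin G) (Fin a₁ ⊕ Fin a₁) ℚ}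
  {F₁ : Matrix (Fin a₁ ⊕ Fin a₁) (Fin G ⊕ Fin G) ℚ}
  {E₂ : Matrix (Fin G ⊕ Fin G) (Fin a₂ ⊕ Fin a₂) ℚ}
  {F₂ : Matrix (Fin a₂ ⊕ Fin a₂) (Fin G ⊕ Fin G) ℚ}
  {S : Set (Matrix (Fin G ⊕ Fin G) (Fin G ⊕ Fin G) ℂ)}

/-- The blocks of an element of the second Lie algebra. -/
theorem blocksT (d : Dec Z Z₁ Z₂ E₁ F₁ E₂ F₂) (h : TD Z S)
    {X : Matrix (Fin G ⊕ Fin G) (Fin G ⊕ Fin G) ℂ} (hX : X ∈ Y224.TS.LT S) :
    X = cK ℂ E₁ * (cK ℂ F₁ * X * cK ℂ E₁) * cK ℂ F₁ +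
      cK ℂ E₂ * (cK ℂ F₂ * X * cK ℂ E₂) * cK ℂ F₂ := by
  rw [← xe d.f₁ h hX, ← xe d.f₂ h hX, Matrix.mul_assoc, Matrix.mul_assoc X, ← Matrix.mul_add,
    d.csum, Matrix.mul_one]

theorem mem_mapT {V : Type*} [AddCommGroup V] [Module ℂ V] {n : Type*} [Fintype n] [DecidableEq n]
    {L : Submodule ℂ (Matrix n n ℂ)} {R : Matrix n n ℂ →ₗ[ℂ] V} {X : Matrix n n ℂ} (hX : X ∈ L) :
    R X ∈ L.map R := ⟨X, hX, rfl⟩

/-- The splitting, in terms of a faithful representation. -/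
theorem hsp6 {A : Subalgebra ℂ (Matrix (Fin a₁ ⊕ Fin a₁) (Fin a₁ ⊕ Fin a₁) ℂ)} {W : Type*}
    [AddCommGroup W] [Module ℂ W] [FiniteDimensional ℂ W]
    {R : Matrix (Fin a₁ ⊕ Fin a₁) (Fin a₁ ⊕ Fin a₁) ℂ →ₗ[ℂ] End ℂ W} (hR : Rep Z₁ A R)
    {st : End ℂ W →ₗ[ℂ] End ℂ W} (h : TD Z S) (hle : ∀ X ∈ Y224.TS.LT (SF E₁ F₁ S), X ∈ A)
    (hst : Setup ((Y224.TS.LT (SF E₁ F₁ S)).map R) st)
    (hs : Scal ((Y224.TS.LT (SF E₁ F₁ S)).map R))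
    {D : Matrix (Fin G ⊕ Fin G) (Fin G ⊕ Fin G) ℂ} (hD : D ∈ S)
    {D₁ : Matrix (Fin a₁ ⊕ Fin a₁) (Fin a₁ ⊕ Fin a₁) ℂ} (hD₁ : D₁ = cK ℂ F₁ * D * cK ℂ E₁)
    (hD2 : R D₁ * R D₁ = 1)
    (hgn : (Y224.TS.LT (SF E₁ F₁ S)).map R ≤ gn ((Y224.TS.LT (SF E₁ F₁ S)).map R) (R D₁))
    {N₁ N₂ : End ℂ W} (hN₁ : N₁ ∈ Kp ((Y224.TS.LT (SF E₁ F₁ S)).map R) (R D₁))
    (hN₂ : N₂ ∈ Kp ((Y224.TS.LT (SF E₁ F₁ S)).map R) (R D₁))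
    (hind : ∀ c₁ c₂ : ℂ, c₁ • N₁ + c₂ • N₂ = 0 → c₁ = 0 ∧ c₂ = 0)
    (d : Dec Z Z₁ Z₂ E₁ F₁ E₂ F₂) (ha : a₂ ≤ 1) :
    ∀ X ∈ Y224.TS.LT (SF E₁ F₁ S), cK ℂ E₁ * X * cK ℂ F₁ ∈ Y224.TS.LT S := by
  have hDL : D ∈ Y224.TS.LT S := LT_gen hD
  have hD1L : D₁ ∈ Y224.TS.LT (SF E₁ F₁ S) := by
    rw [hD₁]
    exact LT_gen ⟨D, hD, rfl⟩
  have hDG : R D₁ ∈ (Y224.TS.LT (SF E₁ F₁ S)).map R := mem_mapT hD1L
  have D1 := hle _ hD1L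
  have hDD : D * D = 1 := h.sq D hD
  -- lifts
  have hlift : ∀ {N : End ℂ W}, N ∈ Kp ((Y224.TS.LT (SF E₁ F₁ S)).map R) (R D₁) →
      ∃ n ∈ Y224.TS.LT S, D * n = n ∧ n * D = -n ∧ R (cmp E₁ F₁ n) = N := by
    intro N hN
    obtain ⟨N', hN', hN'R⟩ := hN.1
    have nA := hle _ hN'
    have e1 : D₁ * N' = N' := hR.eq (A.mul_mem D1 nA) nA (by rw [hR.mul _ _ nA, hN'R, hN.2.1])
    have e2 : N' * D₁ = -N' :=
      hR.eq (A.mul_mem nA D1) (A.neg_mem nA) (by rw [hR.mul _ _ D1, map_neg, hN'R, hN.2.2])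
    obtain ⟨X, hX, hXN⟩ := liftT d.f₁ h hN'
    refine ⟨_, gup_mem (fun _ hX _ hY => LT_br hX hY) hDL hDD hX, ?_, ?_, ?_⟩
    · rw [Matrix.mul_smul, ← Matrix.mul_assoc, ← Matrix.mul_assoc, Matrix.mul_add, hDD,
        Matrix.mul_one, add_comm D]
    · rw [Matrix.smul_mul, Matrix.mul_assoc, Matrix.sub_mul, hDD, Matrix.one_mul, ← smul_neg,
        ← Matrix.mul_neg, neg_sub]
    · have h1 : cmp E₁ F₁ ((1 / 4 : ℂ) • ((1 + D) * X * (1 - D))) = N' := by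
        have h2 : (1 + D) * X * (1 - D) = X + D * X - (X + D * X) * D := by
          noncomm_ring
        have h3 : cmp E₁ F₁ X = N' := hXN
        have h4 : cmp E₁ F₁ D = D₁ := hD₁.symm
        have h5 : cmp E₁ F₁ ((X + D * X) * D) = cmp E₁ F₁ (X + D * X) * cmp E₁ F₁ D :=
          mulT d.f₁ h hDL
        have h6 : cmp E₁ F₁ (D * X) = cmp E₁ F₁ D * cmp E₁ F₁ X := mulT d.f₁ h hX
        rw [cmp_smul, h2, cmp_sub, h5, cmp_add, h6, h3, h4, e1, add_mul, e2]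
        module
      rw [h1, hN'R]
  obtain ⟨n₁, l1, u1, v1, w1⟩ := hlift hN₁
  obtain ⟨n₂, l2, u2, v2, w2⟩ := hlift hN₂
  have hm : ∀ {X Y : Matrix (Fin G ⊕ Fin G) (Fin G ⊕ Fin G) ℂ}, Y ∈ Y224.TS.LT S →
      cmp E₂ F₂ (X * Y) = cmp E₂ F₂ X * cmp E₂ F₂ Y := fun hY => mulT d.f₂ h hY
  obtain ⟨c₁, c₂, hc, hcc⟩ := two_dep (W := Fin a₂ ⊕ Fin a₂ → ℂ)
    (D := ph (Fin a₂ ⊕ Fin a₂) (cmp E₂ F₂ D)) (a := ph (Fin a₂ ⊕ Fin a₂) (cmp E₂ F₂ n₁))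
    (b := ph (Fin a₂ ⊕ Fin a₂) (cmp E₂ F₂ n₂)) (by
      rw [Module.finrank_fintype_fun_eq_card, Fintype.card_sum, Fintype.card_fin]
      omega) (by rw [← map_mul, ← hm l1, u1])
    (by rw [← map_mul, ← map_neg, ← hm hDL, v1]
        congr 1
        unfold cmp
        rw [Matrix.mul_neg, Matrix.neg_mul])
    (by rw [← map_mul, ← hm l2, u2])
    (by rw [← map_mul, ← map_neg, ← hm hDL, v2]
        congr 1
        unfold cmp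
        rw [Matrix.mul_neg, Matrix.neg_mul])
  obtain ⟨x, hx⟩ : ∃ x, x = c₁ • n₁ + c₂ • n₂ := ⟨_, rfl⟩
  have hxL : x ∈ Y224.TS.LT S := by
    rw [hx]
    exact Submodule.add_mem _ (Submodule.smul_mem _ _ l1) (Submodule.smul_mem _ _ l2)
  have hx2 : cmp E₂ F₂ x = 0 := by
    apply (ph (Fin a₂ ⊕ Fin a₂)).injective
    rw [hx, cmp_add, cmp_smul, cmp_smul, map_add, map_smul, map_smul, hcc, map_zero]
  have hx1 : R (cmp E₁ F₁ x) ≠ 0 := by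
    intro h0
    rw [hx, cmp_add, cmp_smul, cmp_smul, map_add, map_smul, map_smul, w1, w2] at h0
    obtain ⟨k1, k2⟩ := hind _ _ h0
    rcases hc with h3 | h3
    · exact h3 k1
    · exact h3 k2
  have hx3 : cK ℂ E₁ * (cmp E₁ F₁ x) * cK ℂ F₁ ∈ Y224.TS.LT S := by
    have h1 := blocksT d h hxL
    have h2 : cK ℂ F₂ * x * cK ℂ E₂ = 0 := hx2
    rw [h2, Matrix.mul_zero, Matrix.zero_mul, add_zero] at h1
    have h3 : cK ℂ E₁ * (cmp E₁ F₁ x) * cK ℂ F₁ = x := h1.symm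
    rw [h3]
    exact hxL
  -- the ideal
  obtain ⟨I, hI⟩ : ∃ I : Submodule ℂ (End ℂ W), ∀ y, y ∈ I ↔ ∃ X ∈ Y224.TS.LT (SF E₁ F₁ S),
      cK ℂ E₁ * X * cK ℂ F₁ ∈ Y224.TS.LT S ∧ R X = y := by
    refine ⟨{ carrier := {y | ∃ X ∈ Y224.TS.LT (SF E₁ F₁ S),
                cK ℂ E₁ * X * cK ℂ F₁ ∈ Y224.TS.LT S ∧ R X = y}
              add_mem' := ?_
              zero_mem' := ?_
              smul_mem' := ?_ }, fun y => Iff.rfl⟩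
    · rintro _ _ ⟨X, h1, h2, rfl⟩ ⟨Y, h3, h4, rfl⟩
      refine ⟨X + Y, Submodule.add_mem _ h1 h3, ?_, map_add _ _ _⟩
      rw [Matrix.mul_add, Matrix.add_mul]
      exact Submodule.add_mem _ h2 h4
    · refine ⟨0, Submodule.zero_mem _, ?_, map_zero _⟩
      rw [Matrix.mul_zero, Matrix.zero_mul]
      exact Submodule.zero_mem _
    · rintro c _ ⟨X, h1, h2, rfl⟩
      refine ⟨c • X, Submodule.smul_mem _ _ h1, ?_, map_smul _ _ _⟩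
      rw [Matrix.mul_smul, Matrix.smul_mul]
      exact Submodule.smul_mem _ _ h2
  have hIdl : IsIdl ((Y224.TS.LT (SF E₁ F₁ S)).map R) I := by
    refine ⟨fun y hy => ?_, fun y hy z hz => ?_⟩
    · obtain ⟨X, h1, -, rfl⟩ := (hI y).1 hy
      exact mem_mapT h1
    · obtain ⟨Y, hY, rfl⟩ := hy
      obtain ⟨X, h1, h3, rfl⟩ := (hI z).1 hz
      obtain ⟨Y', hY', rfl⟩ := liftT d.f₁ h hY
      rw [hI]
      refine ⟨_, LT_br hY h1, ?_, by rw [map_sub, hR.mul _ _ (hle _ h1), hR.mul _ _ (hle _ hY)]⟩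
      have h4 := LT_br hY' h3
      have k1 : Y' * (cK ℂ E₁ * X * cK ℂ F₁) =
          cK ℂ E₁ * ((cK ℂ F₁ * Y' * cK ℂ E₁) * X) * cK ℂ F₁ := by
        calc Y' * (cK ℂ E₁ * X * cK ℂ F₁) = (Y' * cK ℂ E₁) * X * cK ℂ F₁ := by
              simp only [Matrix.mul_assoc]
          _ = (cK ℂ E₁ * (cK ℂ F₁ * Y' * cK ℂ E₁)) * X * cK ℂ F₁ := by
              rw [← xe d.f₁ h hY']
          _ = _ := by simp only [Matrix.mul_assoc]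
      have k2 : (cK ℂ E₁ * X * cK ℂ F₁) * Y' =
          cK ℂ E₁ * (X * (cK ℂ F₁ * Y' * cK ℂ E₁)) * cK ℂ F₁ := by
        calc (cK ℂ E₁ * X * cK ℂ F₁) * Y' = cK ℂ E₁ * X * (cK ℂ F₁ * Y') := by
              simp only [Matrix.mul_assoc]
          _ = cK ℂ E₁ * X * (cK ℂ F₁ * Y' * cK ℂ E₁ * cK ℂ F₁) := by
              rw [← fx d.f₁ h hY']
          _ = _ := by simp only [Matrix.mul_assoc]
      rw [k1, k2, ← Matrix.sub_mul, ← Matrix.mul_sub] at h4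
      exact h4
  have hxI : R (cmp E₁ F₁ x) ∈ I := (hI _).2 ⟨_, compT d.f₁ h hxL, hx3, rfl⟩
  rcases invol_dich hst hs hIdl hDG hD2 with h1 | h1
  · intro X hX
    obtain ⟨Y, hY, hY2, hY3⟩ := (hI _).1 (gn_le hIdl h1 (hgn (mem_mapT hX)))
    have h3 : Y = X := hR.eq (hle _ hY) (hle _ hX) hY3
    rw [h3] at hY2
    exact hY2
  · exfalso
    have h3 := hgn.trans (gn_le (cen_idl hst hIdl) h1)
    refine hx1 (central_zero hst hs hDG hD2 (hIdl.le hxI) fun z hz => ?_)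
    exact ((h3 hz).2 _ hxI).symm

end H685

theorem s_sp6 (hST : S_ST) : S_SP6 := by
  intro G a₂ Z Z₁ Z₂ E₁ F₁ E₂ F₂ h h₁ h₂ D ha hs hT S hS
  obtain ⟨b, j, d, e, t⟩ := exists_t3d h₁ hs hT
  obtain ⟨z, hz⟩ : ∃ z : ℂ, z * z = (d : ℂ) := by
    obtain ⟨z, hz⟩ := IsAlgClosed.exists_eq_mul_self (d : ℂ)
    exact ⟨z, hz.symm⟩
  have hg0 : 0 < 6 := by norm_num
  have hW : finrank ℂ (EigM b z) = 6 := (t.irr hz h₁ hs hg0).2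
  have hS₁ : TD Z₁ (SF E₁ F₁ S) := tdF D.f₁ hS h h₁
  obtain ⟨hle, hsc, hset⟩ := hST 6 Z₁ b j d e t z hz h₁ hs hg0 _ hS₁
  have hsyf := t.syf hz h₁ hs hg0
  obtain ⟨D', hD', -⟩ := hS.ex (RingEquiv.refl ℂ)
  obtain ⟨D₁, hD₁⟩ : ∃ D₁, D₁ = cK ℂ F₁ * D' * cK ℂ E₁ := ⟨_, rfl⟩
  have hD₁S : D₁ ∈ SF E₁ F₁ S := by
    rw [hD₁]
    exact ⟨D', hD', rfl⟩
  have hD1L : D₁ ∈ Y224.TS.LT (SF E₁ F₁ S) := LT_gen hD₁S
  have hle' : ∀ X ∈ Y224.TS.LT (SF E₁ F₁ S), X ∈ cA b j := fun X hX => hle hX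
  have hD2 : t.R hz D₁ * t.R hz D₁ = 1 := by
    rw [← (t.rep hz).mul _ _ (hle' _ hD1L), hS₁.sq D₁ hD₁S, (t.rep hz).one]
  have hDG : t.R hz D₁ ∈ (Y224.TS.LT (SF E₁ F₁ S)).map (t.R hz) :=
    ⟨D₁, hD1L, rfl⟩
  obtain ⟨N₁, hN₁, N₂, hN₂, hi⟩ := wl6_two hset hsc hsyf hW hDG hD2
  exact H685.hsp6 (t.rep hz) hS hle' hset hsc hD' hD₁ hD2
    (wl6_gn hset hsc hsyf hW hDG hD2) hN₁ hN₂ hi D ha

end

end Pool.Agent.H926.T
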