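import Mathlib
import Pool.Agent.H926.T.Jobs6
import Pool.Graph.R_pool_sql_team_seeded_63374d34.N183.JP.Nondeg

/-!
# Type III: the structure of the second Lie algebra (subtask 2847, helper721)
-/

set_option linter.unusedSectionVars false

namespace Pool.Agent.H926.T

open Matrix Module Pool.Agent.Y90 Pool.Agent.W437.HC Pool.Agent.W437.HD
  Pool.Agent.TH504.CB
open Pool.Agent.W548.Odd hiding cv
open Pool.Agent.W437.HP (cK cK_mul cK_one)
open Pool.Agent.Y224.TS (TD LT_gen LT_br LT_le)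
open Pool.Agent.Y91.JP (Scal)
open Pool.Agent.Y4.P (MaxM EigM)

noncomputable section

namespace H721

section

variable {g : ℕ} {Z : Matrix (Fin g) (Fin g) ℂ} {b j : Matrix (Fin g ⊕ Fin g) (Fin g ⊕ Fin g) ℚ}
  {d e : ℚ} (t : T3D Z b j d e) {z : ℂ} (hz : z * z = (d : ℂ)) (h : PM Z) (hs : IsSimpleAV Z)
  (hg : 0 < g) {S : Set (Matrix (Fin g ⊕ Fin g) (Fin g ⊕ Fin g) ℂ)} (hS : TD Z S)

include t hS

theorem le_cA : Y224.TS.LT S ≤ (cA b j).toSubmodule := by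
  intro X hX
  refine mem_cA.2 ⟨(hS.comm' (qm b)).2 (fun X hX => Y261.P.qm_comm t.mx.1 X hX) X hX,
    (hS.comm' (qm j)).2 (fun X hX => Y261.P.qm_comm t.cj X hX) X hX⟩

include hz

theorem mulR {X Y : Matrix (Fin g ⊕ Fin g) (Fin g ⊕ Fin g) ℂ} (hY : Y ∈ Y224.TS.LT S) :
    t.R hz (X * Y) = t.R hz X * t.R hz Y := (t.rep hz).mul X Y (le_cA t hS hY)

theorem brR {X Y : Matrix (Fin g ⊕ Fin g) (Fin g ⊕ Fin g) ℂ} (hX : X ∈ Y224.TS.LT S) (hY : Y ∈ Y224.TS.LT S) :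
    t.R hz (X * Y - Y * X) = t.R hz X * t.R hz Y - t.R hz Y * t.R hz X := by
  rw [map_sub, mulR t hz hS hY, mulR t hz hS hX]

theorem sqR {D : Matrix (Fin g ⊕ Fin g) (Fin g ⊕ Fin g) ℂ} (hD : D ∈ S) :
    t.R hz D * t.R hz D = 1 := by
  rw [← mulR t hz hS (LT_gen hD), hS.sq D hD, (t.rep hz).one]

include h hs hg

theorem irrR (W' : Submodule ℂ (EigM b z))
    (hW : ∀ y ∈ (Y224.TS.LT S).map (t.R hz), ∀ w ∈ W', y w ∈ W') : W' = ⊥ ∨ W' = ⊤ := by
  have hI : IrS (Y224.TS.LT S) (EigM b z) := (hS.irS h).2 (t.irr hz h hs hg).1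
  have hst : Stab (Y224.TS.LT S) (W'.map (EigM b z).subtype) := by
    rintro X hX _ ⟨w, hw, rfl⟩
    refine ⟨t.R hz X w, hW _ ⟨X, hX, rfl⟩ w hw, ?_⟩
    exact t.coe_R hz (le_cA t hS hX) w
  rcases hI.2.2 _ (Submodule.map_subtype_le _ _) hst with h1 | h1
  · left
    rw [Submodule.eq_bot_iff]
    intro x hx
    have h2 : (x : Fin g ⊕ Fin g → ℂ) ∈ W'.map (EigM b z).subtype := ⟨x, hx, rfl⟩
    rw [h1, Submodule.mem_bot] at h2
    exact Subtype.ext h2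
  · right
    rw [Submodule.eq_top_iff']
    intro x
    have h2 : (x : Fin g ⊕ Fin g → ℂ) ∈ W'.map (EigM b z).subtype := by
      rw [h1]
      exact x.2
    obtain ⟨y, hy, hyx⟩ := h2
    have h3 : y = x := Subtype.ext hyx
    rw [← h3]
    exact hy

/-- stability under the generators is enough -/
theorem irrS' (W' : Submodule ℂ (EigM b z)) (hW : ∀ D ∈ S, ∀ w ∈ W', t.R hz D w ∈ W') :
    W' = ⊥ ∨ W' = ⊤ := by
  refine irrR t hz h hs hg hS W' ?_
  let L : Submodule ℂ (Matrix (Fin g ⊕ Fin g) (Fin g ⊕ Fin g) ℂ) :=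
    { carrier := {X | X ∈ Y224.TS.LT S ∧ ∀ w ∈ W', t.R hz X w ∈ W'}
      add_mem' := fun {X Y} hX hY => ⟨(Y224.TS.LT S).add_mem hX.1 hY.1, fun w hw => by
        rw [map_add, LinearMap.add_apply]
        exact W'.add_mem (hX.2 w hw) (hY.2 w hw)⟩
      zero_mem' := ⟨(Y224.TS.LT S).zero_mem, fun w hw => by
        rw [map_zero, LinearMap.zero_apply]
        exact W'.zero_mem⟩
      smul_mem' := fun c X hX => ⟨(Y224.TS.LT S).smul_mem c hX.1, fun w hw => by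
        rw [map_smul, LinearMap.smul_apply]
        exact W'.smul_mem c (hX.2 w hw)⟩ }
  have hL : Y224.TS.LT S ≤ L := by
    refine LT_le (fun D hD => ⟨LT_gen hD, hW D hD⟩) ?_
    rintro A ⟨hA, hA'⟩ C ⟨hC, hC'⟩
    refine ⟨LT_br hA hC, fun w hw => ?_⟩
    rw [brR t hz hS hA hC, LinearMap.sub_apply, Module.End.mul_apply, Module.End.mul_apply]
    exact W'.sub_mem (hA' _ (hC' w hw)) (hC' _ (hA' w hw))
  rintro _ ⟨X, hX, rfl⟩ w hw
  exact (hL hX).2 w hw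

theorem scalR : Scal ((Y224.TS.LT S).map (t.R hz)) :=
  Pool.Agent.Y126.JP.scal_of_irr (irrR t hz h hs hg hS)

theorem skewR {X : Matrix (Fin g ⊕ Fin g) (Fin g ⊕ Fin g) ℂ} (hX : X ∈ Y224.TS.LT S) :
    t.sW hz (t.R hz X) = -t.R hz X := by
  have hF := t.syf hz h hs hg
  have hXA : X ∈ cA b j := le_cA t hS hX
  have h1 : ∀ v w : EigM b z, t.S hz (t.R hz X v) w = -t.S hz v (t.R hz X w) := by
    intro v w
    rw [t.S_apply, t.S_apply, t.coe_R hz hXA, t.coe_R hz hXA]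
    have h6 : oJ j * ph _ X = ph _ X * oJ j := by
      change ph _ (qm j) * ph _ X = ph _ X * ph _ (qm j)
      rw [← map_mul, ← map_mul, (mem_cA.1 hXA).2]
    have h7 := LinearMap.congr_fun h6 (v : Fin g ⊕ Fin g → ℂ)
    rw [Module.End.mul_apply, Module.End.mul_apply] at h7
    rw [h7]
    have h8 := hS.sp' hX (oJ j (v : Fin g ⊕ Fin g → ℂ)) (w : Fin g ⊕ Fin g → ℂ)
    exact eq_neg_of_add_eq_zero_left h8
  refine LinearMap.ext fun w => ?_
  rw [← sub_eq_zero]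
  refine hF.nd _ fun v => ?_
  rw [hF.sym, LinearMap.neg_apply, sub_neg_eq_add, map_add, ← hF.adj, h1, neg_add_cancel]

theorem setR : Setup ((Y224.TS.LT S).map (t.R hz)) (t.sW hz) := by
  have h0 := t.set hz h hs hg
  have hbr : ∀ y ∈ (Y224.TS.LT S).map (t.R hz), ∀ y' ∈ (Y224.TS.LT S).map (t.R hz),
      y * y' - y' * y ∈ (Y224.TS.LT S).map (t.R hz) := by
    rintro _ ⟨X, hX, rfl⟩ _ ⟨Y, hY, rfl⟩
    exact ⟨X * Y - Y * X, LT_br hX hY, brR t hz hS hX hY⟩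
  refine ⟨hbr, h0.st_mul, h0.st_rk, ?_, ?_, ?_, ?_⟩
  · rintro _ ⟨X, hX, rfl⟩
    exact skewR t hz h hs hg hS hX
  · intro y hy hy'
    refine Pool.Agent.N183.JP.trace_nondeg hbr ?_ hy hy'
    intro W' hW'
    refine irrS' t hz h hs hg hS W' fun D hD w hw => ?_
    have h1 := hW' (t.R hz ((1 / 2 : ℂ) • D)) ⟨_, (Y224.TS.LT S).smul_mem _ (LT_gen hD), rfl⟩ (by
      rw [map_smul, smul_mul_smul_comm, sqR t hz hS hD]
      norm_num) w hw
    have h2 := W'.smul_mem (2 : ℂ) h1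
    rw [map_smul, LinearMap.smul_apply, smul_smul] at h2
    have h3 : (2 : ℂ) * (1 / 2) = 1 := by norm_num
    rwa [h3, one_smul] at h2
  · intro L hL1 hL2
    let L' : Submodule ℂ (Matrix (Fin g ⊕ Fin g) (Fin g ⊕ Fin g) ℂ) := Y224.TS.LT S ⊓ L.comap (t.R hz)
    have h1 : Y224.TS.LT S ≤ L' := by
      refine LT_le (fun D hD => ⟨LT_gen hD, ?_⟩) ?_
      · exact hL1 _ ⟨D, LT_gen hD, rfl⟩ (sqR t hz hS hD)
      · rintro A ⟨hA, hA'⟩ C ⟨hC, hC'⟩
        refine ⟨LT_br hA hC, ?_⟩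
        change t.R hz (A * C - C * A) ∈ L
        rw [brR t hz hS hA hC]
        exact hL2 _ hA' _ hC'
    rintro _ ⟨X, hX, rfl⟩
    exact (h1 hX).2
  · intro M hM
    rcases irrR t hz h hs hg hS M hM with h1 | h1
    · refine ⟨0, fun y _ => by rw [zero_mul, mul_zero], fun w => ?_, fun w hw => ?_⟩
      · rw [LinearMap.zero_apply]
        exact M.zero_mem
      · rw [h1, Submodule.mem_bot] at hw
        rw [hw, map_zero]
    · refine ⟨1, fun y _ => by rw [one_mul, mul_one], fun w => ?_, fun w _ => rfl⟩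
      rw [h1]
      trivial

end

end H721

theorem s_st : S_ST := by
  intro g Z b j d e t z hz h hs hg S hS
  exact ⟨H721.le_cA t hS, H721.scalR t hz h hs hg hS, H721.setR t hz h hs hg hS⟩

end

end Pool.Agent.H926.T
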