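import Mathlib
import Pool.Agent.H926.T.Mt7
import Pool.Agent.H926.T.Msi

/-!
# Hodge classes on the abelian varieties built from factors of one of dimension at most seven
-/

set_option linter.unusedSectionVars false

namespace Pool.Agent.H926.T

open Matrix Module Pool.Agent.Y90 Pool.Agent.W437.HC Pool.Agent.W437.HD
open Pool.Agent.W548.Odd hiding cv
open Pool.Agent.H204R3.SP Pool.Agent.H204R3.GP TensorProduct
open Pool.Agent.W437.HP (cK cK_mul cK_one)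
open Pool.Agent.H204R3.CM (IsHodge HodgeMul)
open Pool.Agent.TH504.CB (isHodge_comp)
open Pool.Agent.Y4.P (WeilRing)
open Pool.Agent.R915 (IsFactor)
open Pool.Agent.Y224.TS.St (IsHodgeTate IsTateModule)

noncomputable section

/-- The endomorphisms of fourfolds of Mumford's type are scalars. -/
theorem mum_scal {g : ℕ} {Z : Matrix (Fin g) (Fin g) ℂ} (hM : MumM Z)
    {ψ : Matrix (Fin g ⊕ Fin g) (Fin g ⊕ Fin g) ℚ} (hψ : qm ψ * DZ Z = DZ Z * qm ψ) :
    ∃ c : ℚ, ψ = c • (1 : Matrix (Fin g ⊕ Fin g) (Fin g ⊕ Fin g) ℚ) := by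
  obtain ⟨c, hc⟩ := scal_top hM.irr (ph _ (qm ψ)) (fun y hy => by
    obtain ⟨X, hX, rfl⟩ := exists_GG hy
    rw [← map_mul, ← map_mul, Y261.P.qm_comm hψ X hX])
  have h1 : qm ψ = c • (1 : Matrix (Fin g ⊕ Fin g) (Fin g ⊕ Fin g) ℂ) := by
    apply (ph (Fin g ⊕ Fin g)).injective
    rw [hc, map_smul, map_one]
  have hg := hM.four
  let i₀ : Fin g ⊕ Fin g := Sum.inl ⟨0, by omega⟩
  have h2 : c = ((ψ i₀ i₀ : ℚ) : ℂ) := by
    have h3 := congrFun (congrFun h1 i₀) i₀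
    simp at h3
    exact h3.symm
  refine ⟨ψ i₀ i₀, TraL.qm_inj ?_⟩
  rw [h1, h2]
  ext i j
  by_cases hij : i = j <;> simp [hij]

/-- **Hodge classes are generated by divisors and Weil classes.** -/
theorem weil_seven (hRDA : S_RDA) (A X : AV) (h7 : finrank ℂ A.T ≤ 7) (hA : NoEnd A)
    (hX : ∀ Y, IsFactor Y X → IsFactor Y A) {κ : Type} [Finite κ] (f : X.H [⋀^κ]→ₗ[ℚ] ℚ)
    (hf : IsHodge X.per f) : WeilRing X.per κ f := by
  obtain ⟨B, i, r, n, P, Q, s, hi, hr, hri, hP, hQ, hPQ, hs, hsi⟩ := hRDA A X hX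
  have hAV : St.IsAV B.per := ⟨B.finH, B.finT, B.span, B.rank, B.pol⟩
  obtain ⟨a, Z', h', e, hC'⟩ := exists_ppav hAV
  have ha : a ≤ 7 := by
    have h1 := e.finrank_eq
    rw [Module.finrank_fintype_fun_eq_card, Fintype.card_sum, Fintype.card_fin] at h1
    have := A.finH
    have h2 := LinearMap.finrank_le_finrank_of_injective hsi
    have h3 := A.rank
    omega
  obtain ⟨z1, z2⟩ := s_fz B a Z' h' e hC'
  have hbr : BrH Z' := by
    refine brh_seven (s_gbr s_facp) s_t3l s_brd h' ha fun a₁ Z₁ E₁ F₁ hf₁ h₁ hM => ?_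
    have hs₁ := s_msi a₁ Z₁ h₁ hM
    have ha₁ := hM.four
    obtain ⟨hs1, k, hk, hk'⟩ := z2 a₁ Z₁ E₁ F₁ hf₁ h₁ hs₁ (by omega)
    have hfa : IsFactor (AVZ h₁) A :=
      ⟨hs1, s.comp k, Pool.Agent.R915.IsHom.comp' hs hk, hsi.comp hk'⟩
    have hfr : finrank ℂ (AVZ h₁).T = a₁ := by
      change finrank ℂ (Fin a₁ → ℂ) = a₁
      rw [Module.finrank_fintype_fun_eq_card, Fintype.card_fin]
    obtain ⟨f, hf, hfn⟩ := hA _ hfa (by rw [hfr]; exact Or.inl ha₁)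
    have hre := perOne_cht' h₁
    obtain ⟨c, hc⟩ := mum_scal hM (mR_de (LinearEquiv.refl ℚ (Fin a₁ ⊕ Fin a₁ → ℚ))
      (LinearEquiv.refl ℚ (Fin a₁ ⊕ Fin a₁ → ℚ)) hre hre hf)
    apply hfn c
    refine LinearMap.ext fun v => ?_
    have h2 := mR_mulVec (LinearEquiv.refl ℚ (Fin a₁ ⊕ Fin a₁ → ℚ))
      (LinearEquiv.refl ℚ (Fin a₁ ⊕ Fin a₁ → ℚ)) f v
    rw [hc, smul_mulVec, one_mulVec] at h2
    exact h2.symm
  obtain ⟨t1, t2⟩ := s_tra _ _ B.per a Z' h' e hC'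
  have hall := (tstar hAV).2 fun x y hx hy => (t2 _).2 (by
    rw [matQ_br, qm_br]
    exact hbr _ ((t1 x).1 hx) _ ((t1 y).1 hy))
  -- the homomorphisms to and from the power
  choose ΨP hΨP using hP
  choose ΨQ hΨQ using hQ
  let p : (Fin n → B.H) →ₗ[ℚ] X.H := ∑ k, (P k) ∘ₗ (LinearMap.proj k)
  let Ψp : (Fin n → B.T) →ₗ[ℂ] X.T := ∑ k, (ΨP k) ∘ₗ (LinearMap.proj k)
  let q : X.H →ₗ[ℚ] (Fin n → B.H) := LinearMap.pi Q
  let Ψq : X.T →ₗ[ℂ] (Fin n → B.T) := LinearMap.pi ΨQ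
  have hp : ∀ w, Ψp (powPer B.per n w) = X.per (p w) := by
    intro w
    change (∑ k, (ΨP k) ∘ₗ (LinearMap.proj k)) (powPer B.per n w) =
      X.per ((∑ k, (P k) ∘ₗ (LinearMap.proj k)) w)
    rw [LinearMap.sum_apply, LinearMap.sum_apply, map_sum]
    exact Finset.sum_congr rfl fun k _ => hΨP k (w k)
  have hq : ∀ v, Ψq (X.per v) = powPer B.per n (q v) := by
    intro v
    funext k
    exact hΨQ k v
  have hpq : ∀ v, p (q v) = v := by
    intro v
    change (∑ k, (P k) ∘ₗ (LinearMap.proj k)) (q v) = v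
    rw [LinearMap.sum_apply]
    exact hPQ v
  have h1 : IsHodge (powPer B.per n) (f.compLinearMap p) := isHodge_comp p Ψp hp hf
  have h2 := Pool.Agent.Y275.P.pull (hall n κ _ h1) q Ψq hq
  have h3 : (f.compLinearMap p).compLinearMap q = f := by
    ext v
    rw [AlternatingMap.compLinearMap_apply, AlternatingMap.compLinearMap_apply]
    congr 1
    funext k
    exact hpq (v k)
  rwa [h3] at h2

end

end Pool.Agent.H926.T
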