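import Mathlib
import Pool.Agent.H926.T.Mt7
import Pool.Agent.H926.T.Wl7
import Pool.Agent.H926.T.La
import Pool.Agent.H926.T.Nu
import Pool.Agent.H926.T.Indu
import Pool.Agent.H926.T.Rkf
import Pool.Agent.H926.T.St
import Pool.Agent.H926.T.Sof
import Pool.Agent.H926.T.Sp4
import Pool.Agent.H926.T.Sp6
import Pool.Agent.H926.T.Kut
import Pool.Agent.H926.T.Rda
import Pool.Agent.H926.T.Rdm

/-!
# Tate classes and the Mumford–Tate conjecture in dimension at most seven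
-/

set_option linter.unusedSectionVars false

namespace Pool.Agent.H926.T

open Matrix Module Pool.Agent.Y90 TensorProduct
open Pool.Agent.H204R3.CM (IsHodge HodgeMul)
open Pool.Agent.Y4.P (WeilRing)
open Pool.Agent.R915 (IsFactor)
open Pool.Agent.Y224.TS.St (IsHodgeTate IsTateModule)

variable {K : Type} [Field K] [CharZero K] [Algebra K ℂ] {Γ : Type} [Group Γ]

/-- **The Mumford–Tate conjecture in dimension at most seven.** -/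
theorem mt7 [Algebra.IsAlgebraic K ℂ] (A X : AV) (h7 : finrank ℂ A.T ≤ 7)
    (hA : NoEnd A) (hX : ∀ Y, IsFactor Y X → IsFactor Y A) {E : X.H → X.H → ℚ}
    (hE : Pool.Agent.Y90.St.IsPolarization X.per E) {ρ : Representation K Γ (K ⊗[ℚ] X.H)}
    {χ : Γ →* K} (hρ : IsTateModule X.per E ρ χ) {κ : Type}
    [Finite κ] {n : ℕ} (hκ : Nat.card κ = 2 * n)
    (φ : MultilinearMap K (fun _ : κ => K ⊗[ℚ] X.H) K)
    (hφ : ∃ Δ : Subgroup Γ, Δ.FiniteIndex ∧ ∀ g ∈ Δ, ∀ v : κ → K ⊗[ℚ] X.H,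
      φ (fun k => ρ g (v k)) = χ g ^ n * φ v) :
    ∃ (N : ℕ) (c : Fin N → K) (f : Fin N → MultilinearMap ℚ (fun _ : κ => X.H) ℚ),
      (∀ j, HodgeMul X.per (f j)) ∧
        ∀ v : κ → X.H, φ (fun k => (1 : K) ⊗ₜ[ℚ] v k) = ∑ j, c j * ((f j v : ℚ) : K) :=
  mt_seven (s_so s_st) (s_sp4 s_st (s_nu s_la) s_ind s_rkf) (s_sp6 s_st) s_kut s_rda s_rdm A X h7
    hA hX hE hρ hκ φ hφ

/-- **Tate classes are Hodge classes.** -/
theorem th7 [Algebra.IsAlgebraic K ℂ] (A X : AV) (h7 : finrank ℂ A.T ≤ 7)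
    (hA : NoEnd A) (hX : ∀ Y, IsFactor Y X → IsFactor Y A) {E : X.H → X.H → ℚ}
    (hE : Pool.Agent.Y90.St.IsPolarization X.per E) {ρ : Representation K Γ (K ⊗[ℚ] X.H)}
    {χ : Γ →* K} (hρ : IsTateModule X.per E ρ χ) {κ : Type} [Finite κ] {m : ℕ}
    (hκ : Nat.card κ = 2 * m) (φ : (K ⊗[ℚ] X.H) [⋀^κ]→ₗ[K] K)
    (hφ : ∃ Δ : Subgroup Γ, Δ.FiniteIndex ∧ ∀ g ∈ Δ, ∀ v : κ → K ⊗[ℚ] X.H,
      φ (fun k => ρ g (v k)) = χ g ^ m * φ v) :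
    ∃ (n : ℕ) (c : Fin n → K) (f : Fin n → (X.H [⋀^κ]→ₗ[ℚ] ℚ)),
      (∀ j, IsHodge X.per (f j)) ∧
        ∀ v : κ → X.H, φ (fun k => (1 : K) ⊗ₜ[ℚ] v k) = ∑ j, c j * ((f j v : ℚ) : K) :=
  tate_seven (s_so s_st) (s_sp4 s_st (s_nu s_la) s_ind s_rkf) (s_sp6 s_st) s_kut s_rda s_rdm A X h7
    hA hX hE hρ hκ φ hφ

/-- **Tate classes are generated by divisor classes and Weil classes.** -/
theorem tw7 [Algebra.IsAlgebraic K ℂ] (A X : AV) (h7 : finrank ℂ A.T ≤ 7)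
    (hA : NoEnd A) (hX : ∀ Y, IsFactor Y X → IsFactor Y A) {E : X.H → X.H → ℚ}
    (hE : Pool.Agent.Y90.St.IsPolarization X.per E) {ρ : Representation K Γ (K ⊗[ℚ] X.H)}
    {χ : Γ →* K} (hρ : IsTateModule X.per E ρ χ) {κ : Type} [Finite κ] {m : ℕ}
    (hκ : Nat.card κ = 2 * m) (φ : (K ⊗[ℚ] X.H) [⋀^κ]→ₗ[K] K)
    (hφ : ∃ Δ : Subgroup Γ, Δ.FiniteIndex ∧ ∀ g ∈ Δ, ∀ v : κ → K ⊗[ℚ] X.H,
      φ (fun k => ρ g (v k)) = χ g ^ m * φ v) :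
    ∃ (n : ℕ) (c : Fin n → K) (f : Fin n → (X.H [⋀^κ]→ₗ[ℚ] ℚ)),
      (∀ j, WeilRing X.per κ (f j)) ∧
        ∀ v : κ → X.H, φ (fun k => (1 : K) ⊗ₜ[ℚ] v k) = ∑ j, c j * ((f j v : ℚ) : K) := by
  obtain ⟨n, c, f, h1, h2⟩ := th7 A X h7 hA hX hE hρ hκ φ hφ
  exact ⟨n, c, f, fun j => weil_seven s_rda A X h7 hA hX (f j) (h1 j), h2⟩

end Pool.Agent.H926.T
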