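import Mathlib
import Pool.Agent.H926.T.Main7
import Pool.Graph.R_pool_sql_team_seeded_3997aac3.Q43.ST.Ker

/-!
# The motivic Sato–Tate conjecture in dimension at most seven
-/

set_option linter.unusedSectionVars false

namespace Pool.Agent.H926.T

open Module Pool.Agent.Y90 TensorProduct
open Pool.Agent.H204R3.CM (HodgeMul)
open Pool.Agent.H204R3.GP (IsHodgeTensor)
open Pool.Agent.W516.MTD (IsHodgeCombination)
open Pool.Agent.R915 (IsFactor)
open Pool.Agent.Y224.TS.St (IsTateModule)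
open Pool.Agent.Q43.ST (exR exR_extends ext_unique GaloisActsOnHodge galoisTensors monodromy motivic
  multiplierKernel tannakian_eq descent)

variable {K : Type} [Field K] [CharZero K] {Γ : Type} [Group Γ]

theorem comb_of_sum {H T : Type} [AddCommGroup H] [Module ℚ H] [FiniteDimensional ℚ H]
    [AddCommGroup T] [Module ℂ T] {per : H →+ T} {κ : Type} [Fintype κ] [DecidableEq κ]
    {φ : MultilinearMap K (fun _ : κ => K ⊗[ℚ] H) K} {N : ℕ} {c : Fin N → K}
    {f : Fin N → MultilinearMap ℚ (fun _ : κ => H) ℚ} (hf : ∀ j, HodgeMul per (f j))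
    (h : ∀ v : κ → H, φ (fun k => (1 : K) ⊗ₜ[ℚ] v k) = ∑ j, c j * ((f j v : ℚ) : K)) :
    IsHodgeCombination per φ := by
  let b := finBasis ℚ H
  have e : φ = ∑ j, c j • exR b K (f j) := by
    refine ext_unique b fun I => ?_
    rw [h, _root_.sum_apply]
    refine Finset.sum_congr rfl fun j _ => ?_
    rw [_root_.smul_apply, exR_extends b (f j), smul_eq_mul]
    rfl
  rw [e]
  refine Submodule.sum_mem _ fun j _ => Submodule.smul_mem _ _ (Submodule.subset_span ?_)
  exact ⟨f j, hf j, fun v => exR_extends b (f j) v⟩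

/-- **The motivic Tate conjecture and the motivic Sato–Tate conjecture in dimension at most seven.** -/
theorem st7 [Algebra K ℂ] [Algebra.IsAlgebraic K ℂ] (A X : AV) (h7 : finrank ℂ A.T ≤ 7)
    (hA : NoEnd A) (hX : ∀ Y, IsFactor Y X → IsFactor Y A) {E : X.H → X.H → ℚ}
    (hE : Pool.Agent.Y90.St.IsPolarization X.per E) {ρ : Representation K Γ (K ⊗[ℚ] X.H)}
    {χ : Γ →* K} (hρ : IsTateModule X.per E ρ χ) (hD : GaloisActsOnHodge X.per ρ χ)
    (Δ : Subgroup Γ) (hΔ : Δ.FiniteIndex) (R : Type) [CommRing R] [Algebra K R] :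
    monodromy ρ χ Δ R = motivic X.per ρ χ Δ R ∧
      multiplierKernel (monodromy ρ χ Δ R) = multiplierKernel (motivic X.per ρ χ Δ R) := by
  classical
  have key : monodromy ρ χ Δ R = motivic X.per ρ χ Δ R := by
    refine tannakian_eq ((finBasis ℚ X.H).baseChange K) (fun m φ hφ => hφ.1)
      (fun m φ hφ => ?_) R
    obtain ⟨N, c, f, h1, h2⟩ := mt7 A X h7 hA hX hE hρ (κ := Fin m × Fin 2) (n := m)
      (by rw [Nat.card_prod, Nat.card_fin, Nat.card_fin, mul_comm]) φ ⟨Δ, hΔ, fun g hg v => hφ g hg v⟩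
    exact descent (finBasis ℚ X.H) X.per ρ χ hD Δ (comb_of_sum h1 h2) hφ
  exact ⟨key, by rw [key]⟩

end Pool.Agent.H926.T
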